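import Mathlib

namespace Pool.Agent.Lib.MP_9ff3e7_ag

open Finset

/-- A family of reals at least one, compatible with the supply on all levels, of excess at
least `r`. -/
def Cert (Sup : ℝ → ℝ → Prop) (r : ℝ) : Prop :=
  ∃ (T : Type) (_ : Fintype T) (β : T → ℝ), (∀ l, 1 ≤ β l) ∧
    (∀ s, 1 < s → Sup s (∏ l ∈ univ.filter (fun l => s ≤ β l), β l)) ∧ r ≤ ∑ l, (β l - 1)

/-- A minimal closed set, a root, and a ranking that decreases along some edge. -/
lemma exists_rank {α : Type} [Fintype α] [DecidableEq α] [Nonempty α] (M : α → α → ℕ) (lev : α → ℕ) :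
    ∃ (K : Finset α) (i : α) (pos : α → ℕ), i ∈ K ∧ (∀ j ∈ K, lev j ≤ lev i) ∧
      (∀ j ∈ K, ∀ k, M j k ≠ 0 → k ∈ K) ∧ (∀ j ∈ K, j ≠ i → ∃ k, M j k ≠ 0 ∧ pos k < pos j) := by
  classical
  obtain ⟨K, hK, hmin⟩ := Finset.exists_min_image
    ((univ : Finset (Finset α)).filter fun K => K.Nonempty ∧ ∀ j ∈ K, ∀ k, M j k ≠ 0 → k ∈ K)
    Finset.card ⟨univ, by simp⟩
  obtain ⟨hne, hcl⟩ := (Finset.mem_filter.1 hK).2
  obtain ⟨i, hi, hmax⟩ := Finset.exists_max_image K lev hne
  let R : ℕ → α → Prop := fun r => Nat.rec (fun j => j = i)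
    (fun _ P j => ∃ k, M j k ≠ 0 ∧ P k) r
  have hall : ∀ j ∈ K, ∃ r, R r j := by
    by_contra hcon
    push Not at hcon
    obtain ⟨j, hj, hj'⟩ := hcon
    have h1 := hmin (K.filter fun j => ∀ r, ¬ R r j) (Finset.mem_filter.2 ⟨Finset.mem_univ _,
      ⟨j, Finset.mem_filter.2 ⟨hj, hj'⟩⟩, fun j hj k hk => by
        have hj2 := Finset.mem_filter.1 hj
        exact Finset.mem_filter.2 ⟨hcl j hj2.1 k hk, fun r hr => hj2.2 (r + 1) ⟨k, hk, hr⟩⟩⟩)
    have h2 : (K.filter fun j => ∀ r, ¬ R r j).card < K.card :=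
      Finset.card_lt_card (Finset.filter_ssubset.2 ⟨i, hi, fun h => h 0 rfl⟩)
    omega
  refine ⟨K, i, fun j => sInf {r | R r j}, hi, hmax, hcl, ?_⟩
  intro j hj hji
  have h2 : R (sInf {r | R r j}) j := Nat.sInf_mem (s := {r | R r j}) (hall j hj)
  rcases h3 : sInf {r | R r j} with _ | r
  · rw [h3] at h2
    exact absurd h2 hji
  · rw [h3] at h2
    obtain ⟨k, hk, hr⟩ := h2
    refine ⟨k, hk, ?_⟩
    have : sInf {r | R r k} ≤ r := Nat.sInf_le (s := {r | R r k}) hr
    simp only [h3]
    omega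

/-- A lexicographically maximal factorisation. -/
lemma exists_lexmax {α : Type} [Fintype α] [DecidableEq α] (pos : α → ℕ) (S : Finset (α → ℕ))
    (hS : S.Nonempty) : ∃ γ ∈ S,
      (∀ γ' ∈ S, ∀ j k, pos k < pos j → γ k < γ' k → (∀ l, l ≠ j → γ l ≤ γ' l) → False) ∧
      (∀ β β' : α → ℕ, β ≤ γ → β' ≤ γ → (fun l => γ l - β l + β' l) ∈ S →
        (fun l => γ l - β' l + β l) ∈ S → β = β') := by
  classical
  let _ : LinearOrder α := LinearOrder.lift' (fun j => toLex (pos j, Fintype.equivFin α j))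
    (fun x y h => by
      have := congrArg (fun z => (ofLex z).2) h
      simpa using this)
  have hlt : ∀ j k : α, pos k < pos j → k < j := fun j k h =>
    show toLex (pos k, Fintype.equivFin α k) < toLex (pos j, Fintype.equivFin α j) from
      Prod.Lex.left _ _ h
  obtain ⟨γ, hγ, hmax⟩ := Finset.exists_max_image S (fun γ => toLex γ) hS
  have key : ∀ γ' ∈ S, ∀ k, γ k < γ' k → (∀ l, l < k → γ l = γ' l) → False := by
    intro γ' h' k h1 h2
    have h3 : toLex γ < toLex γ' := ⟨k, h2, h1⟩
    exact absurd (hmax γ' h') (not_le.2 h3)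
  refine ⟨γ, hγ, ?_, ?_⟩
  · intro γ' h' j k hkj h1 h2
    obtain ⟨k0, hk0, hm⟩ := Finset.exists_min_image (univ.filter fun l => γ l ≠ γ' l) id
      ⟨k, by simp [h1.ne]⟩
    have hk0' : γ k0 ≠ γ' k0 := (Finset.mem_filter.1 hk0).2
    have h3 : k0 ≤ k := hm k (by simp [h1.ne])
    have h4 : k0 ≠ j := (lt_of_le_of_lt h3 (hlt j k hkj)).ne
    refine key γ' h' k0 (lt_of_le_of_ne (h2 k0 h4) hk0') fun l hl => ?_
    by_contra h5
    exact absurd (hm l (by simp [h5])) (not_le.2 hl)
  · intro β β' h1 h2 h3 h4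
    by_contra hne
    obtain ⟨k, hk⟩ := Function.ne_iff.1 hne
    obtain ⟨k0, hk0, hm⟩ := Finset.exists_min_image (univ.filter fun l => β l ≠ β' l) id
      ⟨k, by simp [hk]⟩
    have hk0' : β k0 ≠ β' k0 := (Finset.mem_filter.1 hk0).2
    have h5 : ∀ l, l < k0 → β l = β' l := fun l hl => by
      by_contra h5
      exact absurd (hm l (by simp [h5])) (not_le.2 hl)
    have a1 : β k0 ≤ γ k0 := h1 k0
    have a2 : β' k0 ≤ γ k0 := h2 k0
    rcases lt_or_gt_of_ne hk0' with h6 | h6
    · refine key _ h3 k0 (by show γ k0 < γ k0 - β k0 + β' k0; omega) fun l hl => ?_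
      have := h5 l hl
      have : β l ≤ γ l := h1 l
      show γ l = γ l - β l + β' l
      omega
    · refine key _ h4 k0 (by show γ k0 < γ k0 - β' k0 + β k0; omega) fun l hl => ?_
      have := h5 l hl
      have : β' l ≤ γ l := h2 l
      show γ l = γ l - β' l + β l
      omega

lemma sum_single {α : Type} [Fintype α] [DecidableEq α] (a : α → ℕ) (j : α) (c : ℕ) :
    ∑ l, a l * (Pi.single j c : α → ℕ) l = a j * c := by
  rw [Finset.sum_eq_single j]
  · simp
  · intro l _ hl; simp [hl]
  · simp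

lemma sum_exchange {α : Type} [Fintype α] (a γ β β' : α → ℕ) (h : β ≤ γ) :
    ∑ l, a l * (γ l - β l + β' l) + ∑ l, a l * β l = ∑ l, a l * γ l + ∑ l, a l * β' l := by
  rw [← Finset.sum_add_distrib, ← Finset.sum_add_distrib]
  refine Finset.sum_congr rfl fun l _ => ?_
  have := h l
  obtain ⟨c, hc⟩ := Nat.exists_eq_add_of_le this
  rw [hc, Nat.add_sub_cancel_left]; ring

theorem cert_coprime {α : Type} [Fintype α] [DecidableEq α] [Nontrivial α] (a : α → ℕ)
    (ha : ∀ i, 0 < a i) (hco : ∀ i j, i ≠ j → (a i).Coprime (a j)) (Sup : ℝ → ℝ → Prop)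
    (mono : ∀ s E E', Sup s E → E' ≤ E → Sup s E')
    (S4 : ∀ (s : ℝ) (K : Finset α), (∀ i ∈ K, ∀ (c : ℕ) (γ : α → ℕ), ∑ l, a l * γ l = a i * c →
      ((a i * c : ℕ) : ℝ) < s → γ = Pi.single i c) → Sup s (∏ i ∈ K, (a i : ℝ)))
    (m : ℕ) (hm : ∀ γ : α → ℕ, ∑ l, a l * γ l ≠ m) :
    Cert Sup (m + ∑ i, (a i : ℝ) - (Fintype.card α - 1)) := by
  classical
  have hex : ∀ j, ∃ c, 1 ≤ c ∧ ∃ γ : α → ℕ, ∑ l, a l * γ l = a j * c ∧ γ ≠ Pi.single j c := by
    intro j
    obtain ⟨k, hk⟩ := exists_ne j
    refine ⟨a k, ha k, Pi.single k (a j), by rw [sum_single, mul_comm], fun h => ?_⟩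
    have := congrFun h k
    simp [hk] at this
    exact (ha j).ne' this
  set c : α → ℕ := fun j => Nat.find (hex j) with hc
  have hc1 : ∀ j, 1 ≤ c j := fun j => (Nat.find_spec (hex j)).1
  choose M hM hM' using fun j => (Nat.find_spec (hex j)).2
  have hcmin : ∀ j (e : ℕ) (γ : α → ℕ), ∑ l, a l * γ l = a j * e → e < c j → γ = Pi.single j e := by
    intro j e γ h1 h2
    by_contra h3
    rcases Nat.eq_zero_or_pos e with h4 | h4
    · subst h4
      apply h3
      funext l
      have := (Finset.sum_eq_zero_iff.1 (h1.trans (mul_zero _))) l (Finset.mem_univ _)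
      have h5 := ha l
      simp only [Pi.single_zero, Pi.zero_apply]
      rcases Nat.mul_eq_zero.1 this with h | h <;> omega
    · exact Nat.find_min (hex j) h2 ⟨h4, γ, h1, h3⟩
  obtain ⟨K, i, pos, hi, hlev, hcl, hpos⟩ := exists_rank M (fun j => a j * c j)
  -- a second element of K
  obtain ⟨i', hi', hii'⟩ : ∃ k ∈ K, k ≠ i := by
    by_contra hcon
    push Not at hcon
    apply hM' i
    have h1 : M i = Pi.single i (M i i) := by
      funext k
      by_cases hk : k = i
      · subst hk; simp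
      · by_contra h2
        simp only [Pi.single_eq_of_ne hk] at h2
        exact hk (hcon k (hcl i hi k h2))
    have h2 := hM i
    rw [h1, sum_single] at h2
    have h3 := Nat.eq_of_mul_eq_mul_left (ha i) h2
    rw [h1, h3]
  -- representability inside K
  let Rep : ℕ → Prop := fun n => ∃ γ : α → ℕ, (∀ l, γ l ≠ 0 → l ∈ K) ∧ ∑ l, a l * γ l = n
  have hr : ∃ r, Rep (m + (r + 1) * a i) := by
    obtain ⟨y, hy⟩ : ∃ y : ℕ, a i' * y ≡ m [MOD a i] := by
      obtain ⟨y, -, hy⟩ := Nat.exists_mul_mod_eq_of_coprime m (hco i' i hii') (ha i).ne'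
      exact ⟨y, hy⟩
    have h1 : m ≡ a i' * (y + a i * (m + 1)) [MOD a i] := by
      have : a i' * (y + a i * (m + 1)) = a i' * y + a i * (a i' * (m + 1)) := by ring
      rw [this]
      exact (hy.symm).trans (by simp [Nat.ModEq])
    have h2 : m < a i' * (y + a i * (m + 1)) := by
      have := ha i; have := ha i'
      nlinarith [Nat.zero_le y, Nat.mul_le_mul this (le_refl (y + a i * (m + 1)))]
    obtain ⟨r, hr⟩ := (Nat.modEq_iff_exists_eq_add h2.le).1 h1
    rcases r with _ | r
    · omega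
    · refine ⟨r, Pi.single i' (y + a i * (m + 1)), fun l hl => ?_, ?_⟩
      · by_cases h : l = i'
        · rw [h]; exact hi'
        · simp [h] at hl
      · rw [sum_single, hr]; ring
  set r := Nat.find hr
  have hrep : Rep (m + (r + 1) * a i) := Nat.find_spec hr
  have hnrep : ¬ Rep (m + r * a i) := by
    rcases h : r with _ | r'
    · rintro ⟨γ, -, h2⟩
      exact hm γ (by simpa using h2)
    · exact Nat.find_min hr (show r' < r by omega)
  set m' := m + (r + 1) * a i with hm'
  let S : Finset (α → ℕ) := (Fintype.piFinset fun _ => Finset.range (m' + 1)).filter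
    fun γ => (∀ l, γ l ≠ 0 → l ∈ K) ∧ ∑ l, a l * γ l = m'
  have hS : ∀ γ : α → ℕ, γ ∈ S ↔ (∀ l, γ l ≠ 0 → l ∈ K) ∧ ∑ l, a l * γ l = m' := by
    intro γ
    simp only [S, Finset.mem_filter, Fintype.mem_piFinset, Finset.mem_range]
    refine ⟨fun h => h.2, fun h => ⟨fun l => ?_, h⟩⟩
    have h1 := Finset.single_le_sum (f := fun l => a l * γ l) (fun _ _ => Nat.zero_le _)
      (Finset.mem_univ l)
    have h2 := Nat.mul_le_mul (ha l) (le_refl (γ l))
    have := h.2
    omega
  obtain ⟨γ, hγ, hx1, hx2⟩ := exists_lexmax pos S (by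
    obtain ⟨γ, h⟩ := hrep
    exact ⟨γ, (hS γ).2 h⟩)
  obtain ⟨hγK, hγs⟩ := (hS γ).1 hγ
  -- lowering by a i is impossible
  have hlow : ∀ β β' : α → ℕ, β' ≤ γ → (∀ l, β l ≠ 0 → l ∈ K) →
      ∑ l, a l * β' l ≠ ∑ l, a l * β l + a i := by
    intro β β' h1 h2 h3
    apply hnrep
    refine ⟨fun l => γ l - β' l + β l, fun l hl => ?_, ?_⟩
    · by_cases h : β l = 0
      · exact hγK l (by simp only at hl; omega)
      · exact h2 l h
    · have := sum_exchange a γ β' β h1
      rw [hγs, h3, hm'] at this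
      have e : (r + 1) * a i = r * a i + a i := by ring
      simp only
      omega
  have hγi : γ i = 0 := by
    by_contra h
    refine hlow 0 (Pi.single i 1) (fun l => ?_) (by simp) (by rw [sum_single]; simp)
    by_cases hl : l = i
    · subst hl; simp; omega
    · simp [hl]
  have hγc : ∀ j, j ≠ i → γ j < c j := by
    intro j hj
    by_contra h
    push Not at h
    have hjK : j ∈ K := hγK j (by have := hc1 j; omega)
    obtain ⟨k, hk, hpk⟩ := hpos j hjK hj
    have hle : (Pi.single j (c j) : α → ℕ) ≤ γ := by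
      intro l
      by_cases hl : l = j
      · subst hl; simpa using h
      · simp [hl]
    have hkj : k ≠ j := by rintro rfl; exact lt_irrefl _ hpk
    refine hx1 (fun l => γ l - (Pi.single j (c j) : α → ℕ) l + M j l) ((hS _).2 ⟨fun l hl => ?_, ?_⟩)
      j k hpk ?_ ?_
    · by_cases h : M j l = 0
      · exact hγK l (by omega)
      · exact hcl j hjK l h
    · have := sum_exchange a γ _ (M j) hle
      rw [sum_single, hM j, hγs] at this
      exact Nat.add_right_cancel this
    · simp only [Pi.single_eq_of_ne hkj]; omega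
    · intro l hl
      simp only [Pi.single_eq_of_ne hl]; omega
  have hbox : ∏ l, (γ l + 1) ≤ a i := by
    have h1 : (Fintype.piFinset fun l => Finset.range (γ l + 1)).card ≤ (Finset.range (a i)).card := by
      refine Finset.card_le_card_of_injOn (fun β => (∑ l, a l * β l) % a i) (fun β _ => ?_) ?_
      · simp only [Finset.coe_range, Set.mem_Iio]
        exact Nat.mod_lt _ (ha i)
      · have aux : ∀ β β' : α → ℕ, β ≤ γ → β' ≤ γ → ∑ l, a l * β l ≤ ∑ l, a l * β' l →
            ∑ l, a l * β l ≡ ∑ l, a l * β' l [MOD a i] → β = β' := by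
          intro β β' h1 h2 h3 h4
          obtain ⟨t, ht⟩ := (Nat.modEq_iff_exists_eq_add h3).1 h4
          have hK : ∀ β : α → ℕ, β ≤ γ → ∀ l, β l ≠ 0 → l ∈ K := fun β h l hl =>
            hγK l (by have : β l ≤ γ l := h l; omega)
          rcases t with _ | t
          · refine hx2 β β' h1 h2 ((hS _).2 ⟨fun l hl => ?_, ?_⟩) ((hS _).2 ⟨fun l hl => ?_, ?_⟩)
            · by_cases h : β' l = 0
              · exact hγK l (by omega)
              · exact hK _ h2 l h
            · have := sum_exchange a γ β β' h1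
              omega
            · by_cases h : β l = 0
              · exact hγK l (by omega)
              · exact hK _ h1 l h
            · have := sum_exchange a γ β' β h2
              omega
          · exfalso
            refine hlow (fun l => β l + (Pi.single i t : α → ℕ) l) β' h2 (fun l hl => ?_) ?_
            · by_cases h : l = i
              · rw [h]; exact hi
              · exact hK _ h1 l (by simpa [h] using hl)
            · simp only [mul_add, Finset.sum_add_distrib, sum_single]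
              rw [ht]; ring
        intro β h1 β' h2 h3
        have h1' : β ≤ γ := fun l => by
          have := Fintype.mem_piFinset.1 (Finset.mem_coe.1 h1) l
          simp only [Finset.mem_range] at this
          exact Nat.lt_succ_iff.1 this
        have h2' : β' ≤ γ := fun l => by
          have := Fintype.mem_piFinset.1 (Finset.mem_coe.1 h2) l
          simp only [Finset.mem_range] at this
          exact Nat.lt_succ_iff.1 this
        rcases le_total (∑ l, a l * β l) (∑ l, a l * β' l) with h | h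
        · exact aux β β' h1' h2' h h3
        · exact (aux β' β h2' h1' h (Nat.ModEq.symm h3)).symm
    simpa using h1
  refine ⟨α, inferInstance, fun j => if j = i then 1 else ((a j * (γ j + 1) : ℕ) : ℝ), ?_, ?_, ?_⟩
  · intro l
    by_cases h : l = i
    · simp [h]
    · simp only [if_neg h]
      exact_mod_cast Nat.mul_pos (ha l) (Nat.succ_pos _)
  · intro s hs
    set T := univ.filter fun j => s ≤ (if j = i then 1 else ((a j * (γ j + 1) : ℕ) : ℝ)) with hT
    have hTi : ∀ j ∈ T, j ≠ i := fun j hj h => by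
      have := (Finset.mem_filter.1 hj).2
      rw [if_pos h] at this
      linarith
    have hTl : ∀ j ∈ T, s ≤ ((a j * c j : ℕ) : ℝ) := fun j hj => by
      have := (Finset.mem_filter.1 hj).2
      rw [if_neg (hTi j hj)] at this
      refine this.trans ?_
      exact_mod_cast Nat.mul_le_mul_left _ (hγc j (hTi j hj))
    have hgood : ∀ j, s ≤ ((a j * c j : ℕ) : ℝ) → ∀ (e : ℕ) (γ : α → ℕ),
        ∑ l, a l * γ l = a j * e → ((a j * e : ℕ) : ℝ) < s → γ = Pi.single j e := by
      intro j hj e γ h1 h2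
      refine hcmin j e γ h1 ?_
      have : a j * e < a j * c j := by exact_mod_cast h2.trans_le hj
      exact Nat.lt_of_mul_lt_mul_left this
    have e1 : ∏ j ∈ T, (if j = i then 1 else ((a j * (γ j + 1) : ℕ) : ℝ)) =
        (∏ j ∈ T, (a j : ℝ)) * ((∏ j ∈ T, (γ j + 1) : ℕ) : ℝ) := by
      push_cast
      rw [← Finset.prod_mul_distrib]
      exact Finset.prod_congr rfl fun j hj => by rw [if_neg (hTi j hj)]
    rw [e1]
    by_cases h0 : ∀ j ∈ T, γ j = 0
    · refine mono s _ _ (S4 s T fun j hj => hgood j (hTl j hj)) (le_of_eq ?_)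
      rw [Finset.prod_eq_one (f := fun j => γ j + 1) fun j hj => by simp [h0 j hj]]
      simp
    · push Not at h0
      obtain ⟨j, hj, hj0⟩ := h0
      have h1 : s ≤ ((a i * c i : ℕ) : ℝ) :=
        (hTl j hj).trans (by exact_mod_cast hlev j (hγK j hj0))
      refine mono s _ _ (S4 s (insert i T) fun k hk => ?_) ?_
      · rcases Finset.mem_insert.1 hk with h | h
        · rw [h]; exact hgood i h1
        · exact hgood k (hTl k h)
      · rw [Finset.prod_insert fun h => hTi i h rfl, mul_comm]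
        refine mul_le_mul_of_nonneg_right ?_ (Finset.prod_nonneg fun _ _ => Nat.cast_nonneg _)
        have : ∏ j ∈ T, (γ j + 1) ≤ ∏ l, (γ l + 1) :=
          Finset.prod_le_prod_of_subset_of_one_le' (Finset.subset_univ _) fun _ _ _ => by omega
        exact_mod_cast this.trans hbox
  · have e1 : ∀ j, (if j = i then 1 else ((a j * (γ j + 1) : ℕ) : ℝ)) - 1 =
        ((a j * γ j : ℕ) : ℝ) + a j - 1 + (if j = i then 1 - (a i : ℝ) else 0) := by
      intro j
      by_cases h : j = i
      · simp [h, hγi]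
      · simp only [if_neg h]; push_cast; ring
    simp only [e1, Finset.sum_add_distrib, Finset.sum_sub_distrib, Finset.sum_ite_eq',
      Finset.mem_univ, if_true, Finset.sum_const, Finset.card_univ, nsmul_eq_mul, mul_one]
    have e2 : ∑ x, ((a x * γ x : ℕ) : ℝ) = m' := by rw [← Nat.cast_sum, hγs]
    rw [e2, hm']
    push_cast
    have : (0 : ℝ) ≤ r * a i := by positivity
    nlinarith

end Pool.Agent.Lib.MP_9ff3e7_ag
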