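import Pool.Agent.Lib.MP_9ff3e7_ag.CoxHilb

/-! Counting lattice points in simplices and in their congruence classes. -/

namespace Pool.Agent.Lib.MP_9ff3e7_ag.Cox

open Finset Finsupp

variable {σ K : Type*} [AddCommGroup K]

def Simp (W : Finset σ) (c : σ → ℤ) (D : ℤ) : Set (σ →₀ ℕ) := {d | On W d ∧ weight c d ≤ D}

lemma map_weight {L : Type*} [AddCommGroup L] (φ : K →+ L) (w : σ → K) (d : σ →₀ ℕ) :
    φ (weight w d) = weight (fun i => φ (w i)) d := by
  simp [weight_apply, Finsupp.sum, map_sum]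

lemma weight_nonneg {W : Finset σ} {c : σ → ℤ} (hc : ∀ i ∈ W, 0 ≤ c i) {d : σ →₀ ℕ}
    (hd : On W d) : 0 ≤ weight c d := by
  rw [weight_apply, Finsupp.sum]
  refine Finset.sum_nonneg fun i hi => ?_
  have : i ∈ W := by
    by_contra h
    exact Finsupp.mem_support_iff.1 hi (hd i h)
  exact nsmul_nonneg (hc i this) _

lemma fin_Simp [Finite σ] {W : Finset σ} {c : σ → ℤ} (hc : ∀ i ∈ W, 0 < c i) (D : ℤ) :
    (Simp W c D).Finite := by
  refine (finite_of_nat_weight_le (fun _ : σ => 1) (fun _ => one_ne_zero) D.toNat).subset ?_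
  rintro d ⟨h1, h2⟩
  have : ((weight (fun _ : σ => 1) d : ℕ) : ℤ) ≤ weight c d := by
    rw [weight_apply, weight_apply, Finsupp.sum, Finsupp.sum]
    push_cast
    refine Finset.sum_le_sum fun i hi => ?_
    have : i ∈ W := by
      by_contra h
      exact Finsupp.mem_support_iff.1 hi (h1 i h)
    have := hc i this
    simp only [smul_eq_mul, mul_one, nsmul_eq_mul]
    nlinarith [Int.natCast_nonneg (d i)]
  simp only [Set.mem_ofPred_eq]
  omega

lemma Simp_neg {W : Finset σ} {c : σ → ℤ} (hc : ∀ i ∈ W, 0 < c i) {D : ℤ} (hD : D < 0) :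
    Simp W c D = ∅ := Set.eq_empty_of_forall_notMem fun _ hd =>
  absurd ((weight_nonneg (fun i hi => (hc i hi).le) hd.1).trans hd.2) (not_le.2 hD)

lemma sub_single_add {d : σ →₀ ℕ} {z : σ} {n : ℕ} (h : n ≤ d z) :
    d - Finsupp.single z n + Finsupp.single z n = d :=
  tsub_add_cancel_of_le (Finsupp.single_le_iff.2 h)

lemma weight_sub_single (w : σ → K) {d : σ →₀ ℕ} {z : σ} {n : ℕ} (h : n ≤ d z) :
    weight w (d - Finsupp.single z n) = weight w d - n • w z := by
  rw [eq_sub_iff_add_eq, ← weight_single, ← map_add, sub_single_add h]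

lemma On.sub {W : Finset σ} {d : σ →₀ ℕ} (h : On W d) (e : σ →₀ ℕ) : On W (d - e) :=
  fun i hi => by simp [h i hi]

lemma On.add {W : Finset σ} {d e : σ →₀ ℕ} (h : On W d) (h' : On W e) : On W (d + e) :=
  fun i hi => by simp [h i hi, h' i hi]

lemma On.smul {W : Finset σ} {d : σ →₀ ℕ} (h : On W d) (n : ℕ) : On W (n • d) :=
  fun i hi => by simp [h i hi]

lemma On.mono {W V : Finset σ} {d : σ →₀ ℕ} (h : On W d) (hWV : W ⊆ V) : On V d :=
  fun i hi => h i fun h' => hi (hWV h')

lemma on_zero (W : Finset σ) : On W 0 := fun _ _ => rfl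

lemma on_single {W : Finset σ} {z : σ} (hz : z ∈ W) (n : ℕ) : On W (Finsupp.single z n) :=
  fun i hi => Finsupp.single_eq_of_ne (by rintro rfl; exact hi hz)

lemma card_Simp [Finite σ] (c : σ → ℤ) (W : Finset σ) : (∀ i ∈ W, 0 < c i) → ∀ D : ℤ, 0 ≤ D →
    ((Simp W c D).ncard : ℤ) * (W.card.factorial * ∏ i ∈ W, c i) ≤ (D + ∑ i ∈ W, c i) ^ W.card := by
  classical
  induction W using Finset.induction_on with
  | empty =>
    intro _ D _
    have : Simp (∅ : Finset σ) c D ⊆ {0} := fun d hd => by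
      ext i; exact hd.1 i (by simp)
    have := Set.ncard_le_ncard this
    simp only [Set.ncard_singleton] at this
    simpa using this
  | insert z W hz ih =>
    intro hc
    have hc' : ∀ i ∈ W, 0 < c i := fun i hi => hc i (mem_insert_of_mem hi)
    have hcz := hc z (mem_insert_self _ _)
    have hS : 0 ≤ ∑ i ∈ W, c i := sum_nonneg fun i hi => (hc' i hi).le
    have hP : 0 < ∏ i ∈ W, c i := prod_pos hc'
    rw [card_insert_of_notMem hz, prod_insert hz, sum_insert hz]
    suffices h : ∀ n : ℕ, ∀ D : ℤ, 0 ≤ D → D < n → ((Simp (insert z W) c D).ncard : ℤ) *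
        ((W.card + 1).factorial * (c z * ∏ i ∈ W, c i)) ≤ (D + (c z + ∑ i ∈ W, c i)) ^ (W.card + 1) by
      intro D hD
      exact h (D.toNat + 1) D hD (by omega)
    intro n
    induction n with
    | zero => intro D h1 h2; omega
    | succ n ihn =>
      intro D h1 h2
      have hsub : Simp (insert z W) c D ⊆ Simp W c D ∪
          (fun d => d + Finsupp.single z 1) '' Simp (insert z W) c (D - c z) := by
        rintro d ⟨h3, h4⟩
        by_cases h0 : d z = 0
        · refine Or.inl ⟨fun i hi => ?_, h4⟩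
          by_cases e : i = z
          · rw [e, h0]
          · exact h3 i (by simp [e, hi])
        · have h5 : 1 ≤ d z := Nat.pos_of_ne_zero h0
          refine Or.inr ⟨d - Finsupp.single z 1, ⟨h3.sub _, ?_⟩, sub_single_add h5⟩
          rw [weight_sub_single c h5, one_smul]
          omega
      have h3 := (Set.ncard_le_ncard hsub ((fin_Simp hc' D).union ((fin_Simp hc _).image _))).trans
        ((Set.ncard_union_le _ _).trans (Nat.add_le_add_left
          (Set.ncard_image_le (fin_Simp hc _)) _))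
      have h4 := ih hc' D h1
      have h5 : ((Simp (insert z W) c (D - c z)).ncard : ℤ) *
          ((W.card + 1).factorial * (c z * ∏ i ∈ W, c i)) ≤ (D + ∑ i ∈ W, c i) ^ (W.card + 1) := by
        by_cases h6 : 0 ≤ D - c z
        · have := ihn _ h6 (by omega)
          rwa [show D - c z + (c z + ∑ i ∈ W, c i) = D + ∑ i ∈ W, c i by ring] at this
        · rw [Simp_neg hc (not_le.1 h6)]
          simp only [Set.ncard_empty, Nat.cast_zero, zero_mul]
          positivity
      have h6 := pow_add_mul_le_add_pow (a := D + ∑ i ∈ W, c i) (b := c z) (by positivity)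
        (by positivity) (W.card + 1)
      rw [show D + (c z + ∑ i ∈ W, c i) = D + ∑ i ∈ W, c i + c z by ring]
      refine le_trans ?_ h6
      have h7 : ((Simp (insert z W) c D).ncard : ℤ) ≤ (Simp W c D).ncard +
          (Simp (insert z W) c (D - c z)).ncard := by exact_mod_cast h3
      refine (mul_le_mul_of_nonneg_right h7 (by positivity)).trans ?_
      have h8 := mul_le_mul_of_nonneg_left h4 (show (0 : ℤ) ≤ (W.card + 1) * c z by positivity)
      rw [Nat.factorial_succ] at h5 ⊢
      push_cast at h5 ⊢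
      nlinarith

/-- Exponents on `W` of bounded `φ`-weight that are congruent to `b` modulo `G`. -/
def Eb (w : σ → K) (φ : K →+ ℤ) (G : AddSubgroup K) (W : Finset σ) (b : K) : Set (σ →₀ ℕ) :=
  {d | On W d ∧ φ (weight w d) ≤ φ b ∧ b - weight w d ∈ G}

lemma fin_Eb [Finite σ] {w : σ → K} {φ : K →+ ℤ} (G : AddSubgroup K) {W : Finset σ}
    (hc : ∀ i ∈ W, 0 < φ (w i)) (b : K) : (Eb w φ G W b).Finite :=
  (fin_Simp (c := fun i => φ (w i)) hc (φ b)).subset fun d hd =>
    ⟨hd.1, by rw [← map_weight]; exact hd.2.1⟩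

lemma card_Eb [Finite σ] [DecidableEq σ] {w : σ → K} {φ : K →+ ℤ} {G : AddSubgroup K}
    {W : Finset σ} {z : σ} (hc : ∀ i ∈ insert z W, 0 < φ (w i)) {π : ℕ} (hπ : 0 < π)
    (hper : ∀ α : ℤ, α • w z ∈ G ↔ (π : ℤ) ∣ α) (hgen : ∀ g, ∃ α : ℤ, g - α • w z ∈ G)
    (b μ : K) (n : ℕ) (hn : φ μ ≤ n * π * φ (w z)) :
    (Eb w φ G (insert z W) b).ncard ≤ (Eb w φ G (insert z W) (b - μ)).ncard +
      (n + 1) * (Simp W (fun i => φ (w i)) (φ b)).ncard := by
  obtain ⟨α, hα⟩ := hgen μ
  have hcz := hc z (mem_insert_self _ _)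
  have hc' : ∀ i ∈ W, 0 < φ (w i) := fun i hi => hc i (mem_insert_of_mem hi)
  have hπ' : (0 : ℤ) < π := by exact_mod_cast hπ
  have hm0 := Int.emod_nonneg α hπ'.ne'
  have hm1 := Int.emod_lt_of_pos α hπ'
  set δ : ℕ := n * π + (α % π).toNat with hδ
  have hδ' : (δ : ℤ) = n * π + α % π := by rw [hδ]; push_cast; rw [Int.toNat_of_nonneg hm0]
  have hδG : μ - δ • w z ∈ G := by
    have h1 : (α - δ) • w z ∈ G := (hper _).2 ⟨α / π - n, by
      rw [hδ']; have := Int.mul_ediv_add_emod α π; linarith⟩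
    have := G.add_mem hα h1
    rwa [sub_smul, natCast_zsmul, sub_add_sub_cancel] at this
  have hsub : Eb w φ G (insert z W) b ⊆
      (fun d => d + Finsupp.single z δ) '' Eb w φ G (insert z W) (b - μ) ∪
        {d | d ∈ Eb w φ G (insert z W) b ∧ d z < δ} := by
    rintro d ⟨h1, h2, h3⟩
    by_cases h : d z < δ
    · exact Or.inr ⟨⟨h1, h2, h3⟩, h⟩
    push Not at h
    refine Or.inl ⟨d - Finsupp.single z δ, ⟨h1.sub _, ?_, ?_⟩, sub_single_add h⟩
    · rw [weight_sub_single w h, map_sub, map_sub, map_nsmul, nsmul_eq_mul, hδ']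
      nlinarith
    · rw [weight_sub_single w h]
      have := G.sub_mem h3 hδG
      rwa [show b - weight w d - (μ - δ • w z) = b - μ - (weight w d - δ • w z) by abel] at this
  have hwe : ∀ d : σ →₀ ℕ, weight w d = weight w (d.erase z) + d z • w z := fun d => by
    rw [← weight_single, ← map_add, Finsupp.erase_add_single]
  have hsmall : {d | d ∈ Eb w φ G (insert z W) b ∧ d z < δ}.ncard ≤
      (Set.Iic n ×ˢ Simp W (fun i => φ (w i)) (φ b)).ncard := by
    refine Set.ncard_le_ncard_of_injOn (fun d => (d z / π, d.erase z)) ?_ ?_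
      ((Set.finite_Iic n).prod (fin_Simp hc' _))
    · rintro d ⟨⟨h1, h2, _⟩, h4⟩
      refine ⟨?_, fun i hi => ?_, ?_⟩
      · have : d z / π < n + 1 := (Nat.div_lt_iff_lt_mul hπ).2 (by
          have : (δ : ℤ) < (n + 1) * π := by rw [hδ']; linarith
          have : δ < (n + 1) * π := by exact_mod_cast this
          omega)
        exact Nat.lt_succ_iff.1 this
      · by_cases e : i = z
        · simp [e]
        · simp only [Finsupp.erase_ne e]
          exact h1 i (by simp [e, hi])
      · rw [← map_weight]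
        rw [hwe d, map_add, map_nsmul, nsmul_eq_mul] at h2
        nlinarith [Int.natCast_nonneg (d z)]
    · rintro d ⟨⟨_, _, h3⟩, _⟩ e ⟨⟨_, _, h3'⟩, _⟩ h
      obtain ⟨h5, h6⟩ := Prod.mk.inj h
      have h7 : ((d z : ℤ) - e z) • w z ∈ G := by
        have := G.sub_mem h3' h3
        rw [hwe d, hwe e, h6] at this
        rw [sub_smul, natCast_zsmul, natCast_zsmul]
        convert this using 1
        abel
      have h8 : d z % π = e z % π := ((Nat.modEq_iff_dvd).2 ((hper _).1 h7)).symm
      have h9 : d z = e z := by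
        rw [← Nat.div_add_mod (d z) π, ← Nat.div_add_mod (e z) π, h5, h8]
      rw [← Finsupp.erase_add_single z d, ← Finsupp.erase_add_single z e, h6, h9]
  rw [Set.ncard_prod, Set.ncard_Iic_nat] at hsmall
  refine (Set.ncard_le_ncard hsub (((fin_Eb G hc _).image _).union
    ((fin_Eb G hc b).subset fun d hd => hd.1))).trans ((Set.ncard_union_le _ _).trans ?_)
  exact Nat.add_le_add (Set.ncard_image_le (fin_Eb G hc _)) hsmall

end Pool.Agent.Lib.MP_9ff3e7_ag.Cox
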