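import Pool.Agent.Lib.MP_9ff3e7_ag.CoxCount

/-! Degree bounds for slices through a point of the total coordinate space. -/

set_option linter.unusedSectionVars false

namespace Pool.Agent.Lib.MP_9ff3e7_ag.Cox

open Filter MvPolynomial Finset Module Finsupp

variable {σ K : Type*} [AddCommGroup K] [Fintype σ] [DecidableEq σ]

/-- Keep the variables in `W`, substitute the coordinates of `y` for the others. -/
noncomputable def sbs (y : σ → ℂ) (W : Finset σ) : MvPolynomial σ ℂ →ₐ[ℂ] MvPolynomial σ ℂ :=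
  aeval fun i => if i ∈ W then X i else C (y i)

noncomputable def cf (y : σ → ℂ) (W : Finset σ) (d : σ →₀ ℕ) : ℂ :=
  ∏ i, if i ∈ W then 1 else y i ^ d i

lemma sbs_monomial (y : σ → ℂ) (W : Finset σ) (d : σ →₀ ℕ) (c : ℂ) :
    sbs y W (monomial d c) = monomial (d.filter (· ∈ W)) (c * cf y W d) := by
  rw [sbs, aeval_monomial, monomial_eq, Finsupp.prod_fintype _ _ (by simp),
    Finsupp.prod_fintype _ _ (by simp), map_mul, cf, map_prod, mul_assoc, ← prod_mul_distrib]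
  congr 1
  refine Finset.prod_congr rfl fun i _ => ?_
  by_cases h : i ∈ W <;> simp [h]

lemma cf_ne_zero {y : σ → ℂ} {W : Finset σ} {d : σ →₀ ℕ} :
    cf y W d ≠ 0 ↔ ∀ i, i ∉ W → y i = 0 → d i = 0 := by
  rw [cf, Finset.prod_ne_zero_iff]
  refine ⟨fun h i h1 h2 => ?_, fun h i _ => ?_⟩
  · have := h i (mem_univ _)
    by_contra h3
    simp [h1, h2, h3] at this
  · by_cases h1 : i ∈ W
    · simp [h1]
    · by_cases h2 : y i = 0
      · simp [h1, h i h1 h2]
      · simp [h1, h2]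

lemma eval_sbs (y : σ → ℂ) (W : Finset σ) (g : MvPolynomial σ ℂ) :
    eval y (sbs y W g) = eval y g := by
  have : (aeval y : MvPolynomial σ ℂ →ₐ[ℂ] ℂ).comp (sbs y W) = aeval y := by
    ext i
    by_cases h : i ∈ W <;> simp [sbs, h]
  simpa using DFunLike.congr_fun this g

lemma weight_mem (w : σ → K) (G : AddSubmonoid K) (d : σ →₀ ℕ) (h : ∀ i, d i ≠ 0 → w i ∈ G) :
    weight w d ∈ G := by
  rw [weight_apply, Finsupp.sum]
  exact G.sum_mem fun i hi => G.nsmul_mem (h i (Finsupp.mem_support_iff.1 hi)) _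

lemma sbs_mem {w : σ → K} {φ : K →+ ℤ} {G : AddSubgroup K} {W : Finset σ} {y : σ → ℂ}
    (hG : ∀ i, i ∉ W → y i ≠ 0 → w i ∈ G ∧ 0 ≤ φ (w i)) {b : K} {g : MvPolynomial σ ℂ}
    (hg : g ∈ Sb w b) : sbs y W g ∈ restrictSupport ℂ (Eb w φ G W b) := by
  rw [g.as_sum, map_sum]
  refine Submodule.sum_mem _ fun d hd => ?_
  have h1 : weight w d = b := hg (MvPolynomial.mem_support_iff.1 hd)
  rw [sbs_monomial, monomial_mem_restrictSupport]
  by_cases h2 : cf y W d = 0
  · exact Or.inr (by simp [h2])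
  have h3 : ∀ i, (d.filter (· ∉ W)) i ≠ 0 → w i ∈ G ∧ 0 ≤ φ (w i) := fun i hi => by
    by_cases h : i ∈ W
    · simp [h] at hi
    · exact hG i h fun h0 => hi (by simp [h, cf_ne_zero.1 h2 i h h0])
  have h4 : b = weight w (d.filter (· ∈ W)) + weight w (d.filter (· ∉ W)) := by
    rw [← map_add, Finsupp.filter_add_filter_not, h1]
  refine Or.inl ⟨fun i hi => by simp [hi], ?_, ?_⟩
  · have := weight_mem w ((AddSubmonoid.nonneg ℤ).comap φ) _ fun i hi => (h3 i hi).2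
    have h5 : 0 ≤ φ (weight w (d.filter (· ∉ W))) := this
    rw [h4, map_add]
    omega
  · rw [h4, add_sub_cancel_left]
    exact weight_mem w G.toAddSubmonoid _ fun i hi => (h3 i hi).1

lemma Eb_mul {w : σ → K} {φ : K →+ ℤ} {G : AddSubgroup K} {W : Finset σ} {b c : K}
    {g h : MvPolynomial σ ℂ} (hg : g ∈ restrictSupport ℂ (Eb w φ G W b))
    (hh : h ∈ restrictSupport ℂ (Eb w φ G W c)) :
    g * h ∈ restrictSupport ℂ (Eb w φ G W (b + c)) := by
  classical
  have := Submodule.mul_mem_mul hg hh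
  rw [← restrictSupport_add] at this
  refine restrictSupport_mono ℂ ?_ this
  rintro _ ⟨d, ⟨h1, h2, h3⟩, e, ⟨h4, h5, h6⟩, rfl⟩
  refine ⟨h1.add h4, by simp only [map_add]; omega, ?_⟩
  have := G.add_mem h3 h6
  simp only [map_add]
  convert this using 1
  abel

lemma finrank_restrict (E : Set (σ →₀ ℕ)) : finrank ℂ (restrictSupport ℂ E) = E.ncard :=
  finrank_eq_nat_card_basis (basisRestrictSupport ℂ E)

lemma fin_restrict {E : Set (σ →₀ ℕ)} (h : E.Finite) :
    FiniteDimensional ℂ (restrictSupport ℂ E) :=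
  have := h.to_subtype
  Module.Finite.of_basis (basisRestrictSupport ℂ E)

/-- The slice map followed by the quotient by the restricted equation. -/
noncomputable def qs (y : σ → ℂ) (W : Finset σ) (f : MvPolynomial σ ℂ) :
    MvPolynomial σ ℂ →ₐ[ℂ] (MvPolynomial σ ℂ ⧸ Ideal.span {sbs y W f}) :=
  (Ideal.Quotient.mkₐ ℂ _).comp (sbs y W)

lemma qs_eq_zero {y : σ → ℂ} {W : Finset σ} {f g : MvPolynomial σ ℂ} :
    qs y W f g = 0 ↔ sbs y W f ∣ sbs y W g := by
  simp [qs, Ideal.Quotient.eq_zero_iff_mem, Ideal.mem_span_singleton]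

noncomputable def hq (w : σ → K) (y : σ → ℂ) (W : Finset σ) (f : MvPolynomial σ ℂ) (b : K) : ℕ :=
  finrank ℂ ((Sb w b).map (qs y W f).toLinearMap)

lemma hq_step {w : σ → K} {φ : K →+ ℤ} {G : AddSubgroup K} {W : Finset σ} {y : σ → ℂ}
    (hG : ∀ i, i ∉ W → y i ≠ 0 → w i ∈ G ∧ 0 ≤ φ (w i)) (hc : ∀ i ∈ W, 0 < φ (w i))
    (f : MvPolynomial σ ℂ) (b : K) (Q : Submodule ℂ (MvPolynomial σ ℂ))
    (hQ : Q ≤ restrictSupport ℂ (Eb w φ G W b)) (hQ' : ∀ g ∈ Q, sbs y W f ∣ g) :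
    hq w y W f b + finrank ℂ Q ≤ (Eb w φ G W b).ncard := by
  have := fin_restrict (fin_Eb G hc b)
  set π := (Ideal.Quotient.mkₐ ℂ (Ideal.span {sbs y W f})).toLinearMap with hπ
  rw [← finrank_restrict, ← finrank_map_add π (restrictSupport ℂ (Eb w φ G W b))]
  refine Nat.add_le_add (Submodule.finrank_mono ?_) (Submodule.finrank_mono ?_)
  · rintro _ ⟨g, hg, rfl⟩
    exact ⟨_, sbs_mem hG hg, rfl⟩
  · intro g hg
    refine ⟨hQ hg, ?_⟩
    simpa [hπ, Ideal.Quotient.eq_zero_iff_mem, Ideal.mem_span_singleton] using hQ' g hg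

lemma hq_sum {w : σ → K} {φ : K →+ ℤ} {G : AddSubgroup K} {W : Finset σ} {y : σ → ℂ}
    (hG : ∀ i, i ∉ W → y i ≠ 0 → w i ∈ G ∧ 0 ≤ φ (w i)) (hc : ∀ i ∈ W, 0 < φ (w i))
    {f : MvPolynomial σ ℂ} {μ : K} (hf : f ∈ Sb w μ) (hF : sbs y W f ≠ 0) (b : K) (s : ℕ) :
    ∑ j ∈ range s, hq w y W f (b - j • μ) + (Eb w φ G W (b - s • μ)).ncard ≤
      (Eb w φ G W b).ncard := by
  induction s with
  | zero => simp
  | succ s ih =>
    set m : MvPolynomial σ ℂ →ₗ[ℂ] MvPolynomial σ ℂ := LinearMap.mulLeft ℂ (sbs y W f) with hm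
    have hinj : Function.Injective m := fun a c hac => mul_left_cancel₀ hF hac
    have := hq_step hG hc f (b - s • μ)
      ((restrictSupport ℂ (Eb w φ G W (b - (s + 1) • μ))).map m) (by
        rintro _ ⟨g, hg, rfl⟩
        have := Eb_mul (sbs_mem hG hf) hg
        rwa [show μ + (b - (s + 1) • μ) = b - s • μ by rw [add_smul, one_smul]; abel] at this) (by
        rintro _ ⟨g, _, rfl⟩
        exact dvd_mul_right _ _)
    rw [← (Submodule.equivMapOfInjective m hinj _).finrank_eq, finrank_restrict] at this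
    rw [sum_range_succ]
    omega

lemma card_Simp' {W : Finset σ} {c : σ → ℤ} (hc : ∀ i ∈ W, 0 < c i) (a : ℤ) (ha : 0 ≤ a) (t : ℕ) :
    ((Simp W c (t * a)).ncard : ℚ) ≤ (1 / (W.card.factorial * ((∏ i ∈ W, c i : ℤ) : ℚ))) *
      (a * t + ((∑ i ∈ W, c i : ℤ) : ℚ)) ^ W.card := by
  have h1 := card_Simp c W hc (t * a) (by positivity)
  have hP : (0 : ℚ) < ((∏ i ∈ W, c i : ℤ) : ℚ) := by exact_mod_cast prod_pos hc
  rw [one_div, ← div_eq_inv_mul, le_div_iff₀ (by positivity), mul_comm (a : ℚ)]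
  exact_mod_cast h1

section

variable {w : σ → K} (fd : ∀ b, FiniteDimensional ℂ (Sb w b)) {A μ : K} {f : MvPolynomial σ ℂ}
  (hf : f ∈ Sb w μ) (free : ∀ I, SS w A I → ZP f I → Gen w I) {φ : K →+ ℤ} (ha : 0 ≤ φ A)
  {y : σ → ℂ}

include fd hf free ha

lemma grow_zero {W : Finset σ} (hG : ∀ i, i ∉ W → y i ≠ 0 → 0 ≤ φ (w i))
    (hc : ∀ i ∈ W, 0 < φ (w i))
    (low : ∃ k, 0 < k ∧ ∀ t, 0 < t → t ^ W.card ≤ hq w y W f ((k * t) • A)) :
    ∏ i ∈ W, φ (w i) ≤ φ A ^ W.card := by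
  have hP : (0 : ℚ) < ((∏ i ∈ W, φ (w i) : ℤ) : ℚ) := by exact_mod_cast prod_pos hc
  have := key W.card 1 (fun _ t => hq w y W f (t • A))
    (fun _ => by
      have := image_PA w fd A μ f hf free (qs y W f) (qs_eq_zero.2 dvd_rfl) 0
      exact this.of_eq (Eventually.of_forall fun t => by simp only []; rw [zero_add]; rfl))
    (fun _ => low) _ (φ A) _ (Eventually.of_forall fun t => by
      refine le_trans ?_ (card_Simp' hc (φ A) ha t)
      have h1 := hq_step (G := ⊤) (fun i h1 h2 => ⟨trivial, hG i h1 h2⟩) hc f (t • A) ⊥ bot_le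
        (fun g hg => by rw [(Submodule.mem_bot ℂ).1 hg]; exact dvd_zero _)
      have h2 : (Eb w φ ⊤ W (t • A)).ncard ≤ (Simp W (fun i => φ (w i)) (t * φ A)).ncard :=
        Set.ncard_le_ncard (fun d hd => ⟨hd.1, by
          have := hd.2.1
          rwa [map_weight, map_nsmul, nsmul_eq_mul] at this⟩) (fin_Simp hc _)
      simp only [range_one, sum_singleton]
      exact_mod_cast (Nat.le_add_right _ _).trans (h1.trans h2))
  have h3 : (0 : ℚ) < W.card.factorial := by positivity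
  rw [← mul_assoc, mul_one_div, div_mul_cancel_left₀ h3.ne', ← div_eq_inv_mul, Nat.cast_one,
    le_div_iff₀ hP, one_mul] at this
  exact_mod_cast this

lemma grow {W : Finset σ} {z : σ} {G : AddSubgroup K}
    (hG : ∀ i, i ∉ insert z W → y i ≠ 0 → w i ∈ G ∧ 0 ≤ φ (w i))
    (hc : ∀ i ∈ insert z W, 0 < φ (w i)) {π : ℕ} (hπ : 0 < π)
    (hper : ∀ α : ℤ, α • w z ∈ G ↔ (π : ℤ) ∣ α) (hgen : ∀ g, ∃ α : ℤ, g - α • w z ∈ G)
    (hF : sbs y (insert z W) f ≠ 0)
    (low : ∀ b, ∃ k, 0 < k ∧ ∀ t, 0 < t → t ^ W.card ≤ hq w y (insert z W) f (b + (k * t) • A)) :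
    π * φ (w z) * ∏ i ∈ W, φ (w i) ≤ φ μ * φ A ^ W.card := by
  have hc' : ∀ i ∈ W, 0 < φ (w i) := fun i hi => hc i (mem_insert_of_mem hi)
  have hcz := hc z (mem_insert_self _ _)
  have hP : (0 : ℚ) < ((∏ i ∈ W, φ (w i) : ℤ) : ℚ) := by exact_mod_cast prod_pos hc'
  have hμ : 0 ≤ φ μ := by
    obtain ⟨d, hd⟩ := MvPolynomial.support_nonempty.2 hF
    have h1 := (mem_restrictSupport_iff ℂ).1 (sbs_mem hG hf) hd
    refine le_trans ?_ h1.2.1
    rw [map_weight]
    exact weight_nonneg (fun i hi => (hc i hi).le) h1.1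
  have main : ∀ s : ℕ, s * (π * φ (w z)) * ∏ i ∈ W, φ (w i) ≤ (s * φ μ + 1) * φ A ^ W.card := by
    intro s
    set s' : ℕ := s * (π * (φ (w z)).toNat) with hs'
    set n : ℕ := s * (φ μ).toNat with hn
    have e1 : (s' : ℤ) = s * (π * φ (w z)) := by
      rw [hs']; push_cast; rw [Int.toNat_of_nonneg hcz.le]
    have e2 : (n : ℤ) = s * φ μ := by rw [hn]; push_cast; rw [Int.toNat_of_nonneg hμ]
    have := key W.card s' (fun j t => hq w y (insert z W) f (-(j • μ) + t • A))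
      (fun j => image_PA w fd A μ f hf free (qs y _ f) (qs_eq_zero.2 dvd_rfl) _)
      (fun j => low _) ((n + 1) * (1 / (W.card.factorial * ((∏ i ∈ W, φ (w i) : ℤ) : ℚ)))) (φ A) _
      (Eventually.of_forall fun t => by
        rw [mul_assoc]
        refine le_trans ?_ (mul_le_mul_of_nonneg_left (card_Simp' hc' (φ A) ha t) (by positivity))
        have h1 := hq_sum hG hc hf hF (t • A) s'
        have h2 := card_Eb hc hπ hper hgen (t • A) (s' • μ) n (by
          rw [map_nsmul, nsmul_eq_mul, e1, e2]; exact le_of_eq (by ring))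
        rw [map_nsmul, nsmul_eq_mul] at h2
        simp only [neg_add_eq_sub]
        exact_mod_cast (by omega : ∑ j ∈ range s', hq w y (insert z W) f (t • A - j • μ) ≤
          (n + 1) * (Simp W (fun i => φ (w i)) (t * φ A)).ncard))
    have h3 : (0 : ℚ) < W.card.factorial := by positivity
    have h4 : (s' : ℚ) * ((∏ i ∈ W, φ (w i) : ℤ) : ℚ) ≤ (n + 1) * (φ A : ℚ) ^ W.card := by
      rw [← le_div_iff₀ hP]
      refine this.trans (le_of_eq ?_)
      field_simp
    rw [← e1, ← e2]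
    exact_mod_cast h4
  by_contra hlt
  push Not at hlt
  have h5 := main ((φ A ^ W.card).toNat + 1)
  have h6 : (0 : ℤ) ≤ φ A ^ W.card := by positivity
  push_cast at h5
  rw [Int.toNat_of_nonneg h6] at h5
  nlinarith

end

end Pool.Agent.Lib.MP_9ff3e7_ag.Cox
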