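import Pool.Agent.Lib.MP_9ff3e7_ag.CoxPoly

/-! Hilbert functions along an ample ray are eventually polynomial when the action is free. -/

namespace Pool.Agent.Lib.MP_9ff3e7_ag.Cox

open Filter MvPolynomial Finset Module Finsupp

variable {σ K : Type*} [AddCommGroup K]

def On (I : Finset σ) (d : σ →₀ ℕ) : Prop := ∀ i, i ∉ I → d i = 0

def SS (w : σ → K) (A : K) (I : Finset σ) : Prop :=
  ∃ k : ℕ, 0 < k ∧ ∃ d, On I d ∧ weight w d = k • A

def ZP (f : MvPolynomial σ ℂ) (I : Finset σ) : Prop :=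
  ∃ y : σ → ℂ, eval y f = 0 ∧ ∀ i, y i ≠ 0 ↔ i ∈ I

def Gen (w : σ → K) (I : Finset σ) : Prop := AddSubgroup.closure (w '' (I : Set σ)) = ⊤

abbrev Sb (w : σ → K) (b : K) : Submodule ℂ (MvPolynomial σ ℂ) :=
  weightedHomogeneousSubmodule ℂ w b

def Hom (w : σ → K) (J : Ideal (MvPolynomial σ ℂ)) : Prop :=
  ∀ g ∈ J, ∀ b, weightedHomogeneousComponent w b g ∈ J

def PA (A : K) (h : K → ℚ) : Prop := ∀ b, EvPoly fun t => h (b + t • A)

noncomputable def hf (w : σ → K) (J : Ideal (MvPolynomial σ ℂ)) (b : K) : ℚ :=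
  finrank ℂ (Sb w b) - finrank ℂ (Sb w b ⊓ J.restrictScalars ℂ : Submodule ℂ _)

lemma comp_mul_X (w : σ → K) (b : K) (i : σ) (g : MvPolynomial σ ℂ) :
    weightedHomogeneousComponent w b (g * X i) =
      weightedHomogeneousComponent w (b - w i) g * X i := by
  classical
  ext d
  rw [coeff_weightedHomogeneousComponent, coeff_mul_X', coeff_mul_X',
    coeff_weightedHomogeneousComponent]
  by_cases h : i ∈ d.support
  · have e : d = d - Finsupp.single i 1 + Finsupp.single i 1 := by
      rw [tsub_add_cancel_of_le]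
      rw [Finsupp.single_le_iff]
      exact Nat.pos_of_ne_zero (Finsupp.mem_support_iff.1 h)
    have e2 : weight w d = weight w (d - Finsupp.single i 1) + w i := by
      conv_lhs => rw [e]
      rw [map_add, weight_single, one_smul]
    simp only [h, if_true, e2, eq_sub_iff_add_eq]
  · simp [h]

lemma fin_weight [Finite σ] (w : σ → K) (hp : ∀ d : σ →₀ ℕ, weight w d = 0 → d = 0) (b : K) :
    {d : σ →₀ ℕ | weight w d = b}.Finite := by
  refine WellQuasiOrderedLE.finite_of_isAntichain fun d hd e he hne hle => hne ?_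
  have h1 : weight w e = weight w (e - d) + weight w d := by
    rw [← map_add, tsub_add_cancel_of_le hle]
  rw [show weight w e = b from he, show weight w d = b from hd, right_eq_add] at h1
  exact hle.antisymm (tsub_eq_zero_iff_le.1 (hp _ h1))

lemma fin_Sb [Finite σ] (w : σ → K) (hp : ∀ d : σ →₀ ℕ, weight w d = 0 → d = 0) (b : K) :
    FiniteDimensional ℂ (Sb w b) := by
  unfold Sb
  rw [weightedHomogeneousSubmodule_eq_finsupp_supported]
  have := (fin_weight w hp b).to_subtype
  exact Module.Finite.of_basis (basisRestrictSupport ℂ {d | weight w d = b})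

lemma Hom.colon {w : σ → K} {J : Ideal (MvPolynomial σ ℂ)} (h : Hom w J) (i : σ) :
    Hom w (J.colon {X i}) := fun g hg b => by
  rw [Submodule.mem_colon_singleton, smul_eq_mul] at hg ⊢
  have := h _ hg (b + w i)
  rwa [comp_mul_X, add_sub_cancel_right] at this

lemma Hom.sup {w : σ → K} {J : Ideal (MvPolynomial σ ℂ)} (h : Hom w J) (i : σ) :
    Hom w (J ⊔ Ideal.span {X i}) := fun g hg b => by
  obtain ⟨a, ha, c, hc, rfl⟩ := Submodule.mem_sup.1 hg
  obtain ⟨c, rfl⟩ := Ideal.mem_span_singleton'.1 hc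
  rw [map_add, comp_mul_X]
  exact Submodule.add_mem_sup (h a ha b) (Ideal.mem_span_singleton'.2 ⟨_, rfl⟩)

lemma hf_split {w : σ → K} (fd : ∀ b, FiniteDimensional ℂ (Sb w b))
    {J : Ideal (MvPolynomial σ ℂ)} (h : Hom w J) (i : σ) (b : K) :
    hf w J b = hf w (J.colon {X i}) (b - w i) + hf w (J ⊔ Ideal.span {X i}) b := by
  set m : MvPolynomial σ ℂ →ₗ[ℂ] MvPolynomial σ ℂ := LinearMap.mulRight ℂ (X i) with hm
  have hinj : Function.Injective m := fun a c hac =>
    mul_right_cancel₀ (X_ne_zero i) hac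
  have hmem : ∀ g ∈ Sb w (b - w i), g * X i ∈ Sb w b := fun g hg => by
    have := IsWeightedHomogeneous.mul hg (isWeightedHomogeneous_X ℂ w i)
    rwa [sub_add_cancel] at this
  have e1 : (Sb w b ⊓ (J ⊔ Ideal.span {X i}).restrictScalars ℂ : Submodule ℂ _) =
      (Sb w b ⊓ J.restrictScalars ℂ) ⊔ (Sb w (b - w i)).map m := by
    apply le_antisymm
    · rintro g ⟨hg1, hg2⟩
      obtain ⟨a, ha, c, hc, rfl⟩ := Submodule.mem_sup.1 (show g ∈ J ⊔ Ideal.span {X i} from hg2)
      obtain ⟨c, rfl⟩ := Ideal.mem_span_singleton'.1 hc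
      rw [← IsWeightedHomogeneous.weightedHomogeneousComponent_same hg1, map_add, comp_mul_X]
      exact Submodule.add_mem_sup ⟨weightedHomogeneousComponent_mem _ _ _, h a ha b⟩
        ⟨_, weightedHomogeneousComponent_mem _ _ _, rfl⟩
    · refine sup_le (inf_le_inf_left _ fun g hg => Ideal.mem_sup_left hg) ?_
      rintro _ ⟨g, hg, rfl⟩
      exact ⟨hmem g hg, Ideal.mem_sup_right (Ideal.mem_span_singleton'.2 ⟨_, rfl⟩)⟩
  have e2 : ((Sb w b ⊓ J.restrictScalars ℂ) ⊓ (Sb w (b - w i)).map m : Submodule ℂ _) =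
      (Sb w (b - w i) ⊓ (J.colon {X i}).restrictScalars ℂ).map m := by
    apply le_antisymm
    · rintro _ ⟨⟨_, h2⟩, g, hg, rfl⟩
      exact ⟨g, ⟨hg, Submodule.mem_colon_singleton.2 h2⟩, rfl⟩
    · rintro _ ⟨g, ⟨h1, h2⟩, rfl⟩
      exact ⟨⟨hmem g h1, Submodule.mem_colon_singleton.1 h2⟩, g, h1, rfl⟩
  have := fd b
  have := fd (b - w i)
  have e3 := Submodule.finrank_sup_add_finrank_inf_eq (Sb w b ⊓ J.restrictScalars ℂ)
    ((Sb w (b - w i)).map m)
  rw [← e1, e2, ← (Submodule.equivMapOfInjective m hinj _).finrank_eq,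
    ← (Submodule.equivMapOfInjective m hinj _).finrank_eq] at e3
  have e4 := congrArg (Nat.cast : ℕ → ℚ) e3
  push_cast at e4
  unfold hf
  linarith

lemma PA.shift {A : K} {h : K → ℚ} (hh : PA A h) (c : K) : PA A fun b => h (b - c) := fun b => by
  simpa [sub_add_eq_add_sub] using hh (b - c)

lemma PA.add {A : K} {g h : K → ℚ} (hg : PA A g) (hh : PA A h) : PA A fun b => g b + h b :=
  fun b => (hg b).add (hh b)

lemma PA.neg {A : K} {g : K → ℚ} (hg : PA A g) : PA A fun b => - g b := fun b => (hg b).neg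

/-- The classes `c` such that the `c`-difference of `h` is polynomial along `A`. -/
def diffs (A : K) (h : K → ℚ) : AddSubgroup K where
  carrier := {c | PA A fun b => h b - h (b - c)}
  zero_mem' := fun b => by simpa using evPoly_zero
  add_mem' := fun {c d} hc hd => by
    simp only [Set.mem_ofPred_eq] at hc hd ⊢
    have := PA.add hc (PA.shift hd c)
    simpa [sub_sub] using this
  neg_mem' := fun {c} hc => by
    simp only [Set.mem_ofPred_eq] at hc ⊢
    have := PA.neg (PA.shift hc (-c))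
    simpa using this

lemma exists_point [Fintype σ] (J : Ideal (MvPolynomial σ ℂ)) (I : Finset σ) (hJ : J ≠ ⊤)
    (h : ∀ i ∈ I, J.colon {X i} = J) : ∃ y : σ → ℂ, (∀ g ∈ J, eval y g = 0) ∧ ∀ i ∈ I, y i ≠ 0 := by
  by_contra hn
  push Not at hn
  have h1 : (∏ i ∈ I, X i : MvPolynomial σ ℂ) ∈ J.radical := by
    rw [← vanishingIdeal_zeroLocus_eq_radical (K := ℂ)]
    intro y hy
    obtain ⟨i, hi, h0⟩ := hn y fun g hg => by simpa using hy g hg
    rw [map_prod]
    exact Finset.prod_eq_zero hi (by simpa using h0)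
  let P : Submonoid (MvPolynomial σ ℂ) :=
    { carrier := {r | ∀ g, g * r ∈ J → g ∈ J}
      one_mem' := fun g hg => by simpa using hg
      mul_mem' := fun {a b} ha hb g hg => ha g (hb _ (by rwa [mul_assoc])) }
  have h2 : (∏ i ∈ I, X i : MvPolynomial σ ℂ) ∈ P := P.prod_mem fun i hi g hg => by
    rw [← h i hi]
    exact Submodule.mem_colon_singleton.2 hg
  obtain ⟨n, hn⟩ := h1
  exact hJ ((Ideal.eq_top_iff_one _).2 (P.pow_mem h2 n 1 (by simpa using hn)))

lemma ev_empty [Fintype σ] (w : σ → K) (A b : K) (I : Finset σ) (h : ¬ SS w A I) :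
    ∀ᶠ t : ℕ in atTop, ∀ d, On I d → weight w d ≠ b + t • A := by
  by_contra hn
  rw [not_eventually] at hn
  obtain ⟨φ, hφ, h1⟩ := extraction_of_frequently_atTop hn
  push Not at h1
  choose u hu hw using h1
  obtain ⟨i, j, hij, hle⟩ := wellQuasiOrdered_le u
  refine h ⟨φ j - φ i, Nat.sub_pos_of_lt (hφ hij), u j - u i, fun l hl => by simp [hu j l hl], ?_⟩
  have e : weight w (u j) = weight w (u j - u i) + weight w (u i) := by
    rw [← map_add, tsub_add_cancel_of_le hle]
  rw [hw, hw] at e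
  have e2 : φ j • A = (φ j - φ i) • A + φ i • A := by
    rw [← add_smul, Nat.sub_add_cancel (hφ hij).le]
  rw [e2] at e
  have : weight w (u j - u i) + (b + φ i • A) = (φ j - φ i) • A + (b + φ i • A) := by
    rw [← e]; abel
  exact add_right_cancel this

lemma hf_eq_zero (w : σ → K) (J : Ideal (MvPolynomial σ ℂ)) (b : K) (I : Finset σ)
    (hI : ∀ i, i ∉ I → X i ∈ J) (h : ∀ d, On I d → weight w d ≠ b) : hf w J b = 0 := by
  have : (Sb w b ⊓ J.restrictScalars ℂ : Submodule ℂ _) = Sb w b := by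
    refine inf_eq_left.2 fun g hg => ?_
    change g ∈ J
    rw [g.as_sum]
    refine J.sum_mem fun d hd => ?_
    have h1 := hg (MvPolynomial.mem_support_iff.1 hd)
    have h2 : ¬ On I d := fun h2 => h d h2 h1
    unfold On at h2
    push Not at h2
    obtain ⟨i, hi, h3⟩ := h2
    have : X i ∣ monomial d (coeff d g) := by
      rw [X_dvd_monomial]; exact Or.inr h3
    obtain ⟨c, hc⟩ := this
    rw [hc]
    exact J.mul_mem_right _ (hI i hi)
  rw [hf, this, sub_self]

theorem hf_PA [Fintype σ] (w : σ → K) (fd : ∀ b, FiniteDimensional ℂ (Sb w b)) (A : K)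
    (f : MvPolynomial σ ℂ) (free : ∀ I, SS w A I → ZP f I → Gen w I)
    (J : Ideal (MvPolynomial σ ℂ)) : Hom w J → f ∈ J → PA A (hf w J) := by
  classical
  induction J using WellFoundedGT.induction with
  | ind J ih =>
  intro hJ hf0
  have hs : ∀ i, X i ∉ J → PA A (hf w (J ⊔ Ideal.span {X i})) := fun i hi =>
    ih _ (lt_of_le_of_ne le_sup_left fun e => hi (by
      rw [e]; exact Ideal.mem_sup_right (Ideal.mem_span_singleton_self _))) (hJ.sup i)
      (Ideal.mem_sup_left hf0)
  have hle : ∀ i, J ≤ J.colon {X i} := fun i g hg =>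
    Submodule.mem_colon_singleton.2 (J.mul_mem_right _ hg)
  by_cases h1 : ∃ i, X i ∉ J ∧ J.colon {X i} ≠ J
  · obtain ⟨i, hi, h2⟩ := h1
    have := ((ih _ (lt_of_le_of_ne (hle i) h2.symm) (hJ.colon i) (hle i hf0)).shift (w i)).add
      (hs i hi)
    simpa only [← hf_split fd hJ i] using this
  push Not at h1
  set I : Finset σ := univ.filter fun i => X i ∉ J with hI
  have hI' : ∀ i, i ∉ I → X i ∈ J := fun i hi => by simpa [hI] using hi
  by_cases hS : SS w A I ∧ J ≠ ⊤
  · obtain ⟨y, hy1, hy2⟩ := exists_point J I hS.2 fun i hi => h1 i (by simpa [hI] using hi)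
    have hG := free I hS.1 ⟨y, hy1 f hf0, fun i => ⟨fun h0 => by
      by_contra hi
      exact h0 (by simpa using hy1 _ (hI' i hi)), hy2 i⟩⟩
    have hA : A ∈ diffs A (hf w J) := by
      have : AddSubgroup.closure (w '' (I : Set σ)) ≤ diffs A (hf w J) := by
        rw [AddSubgroup.closure_le]
        rintro _ ⟨i, hi, rfl⟩
        have hi' : X i ∉ J := by simpa [hI] using hi
        have h2 := hs i hi'
        have h3 : hf w (J ⊔ Ideal.span {X i}) = fun b => hf w J b - hf w J (b - w i) := by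
          funext b
          have := hf_split fd hJ i b
          rw [h1 i hi'] at this
          linarith
        rwa [h3] at h2
      exact this (by rw [hG]; trivial)
    intro b
    refine EvPoly.of_diff ((hA (b + A)).of_eq (Eventually.of_forall fun t => ?_))
    have e1 : b + (t + 1) • A = b + A + t • A := by rw [add_smul, one_smul]; abel
    have e2 : b + A + t • A - A = b + t • A := by abel
    simp only [e1, e2]
  · intro b
    refine evPoly_zero.of_eq ?_
    by_cases hT : J = ⊤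
    · exact Eventually.of_forall fun t => by
        rw [hf, hT, Submodule.restrictScalars_top, inf_top_eq, sub_self]
    · filter_upwards [ev_empty w A b I fun h => hS ⟨h, hT⟩] with t ht
      exact hf_eq_zero w J _ I hI' ht

lemma finrank_map_add {V T : Type*} [AddCommGroup V] [Module ℂ V] [AddCommGroup T] [Module ℂ T]
    (ψ : V →ₗ[ℂ] T) (p : Submodule ℂ V) [FiniteDimensional ℂ p] :
    finrank ℂ (p.map ψ) + finrank ℂ (p ⊓ LinearMap.ker ψ : Submodule ℂ V) = finrank ℂ p := by
  rw [← (ψ.domRestrict p).finrank_range_add_finrank_ker, LinearMap.range_domRestrict,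
    LinearMap.ker_domRestrict, ← (Submodule.comapSubtypeEquivOfLe
      (inf_le_left : p ⊓ LinearMap.ker ψ ≤ p)).finrank_eq, Submodule.comap_inf,
    Submodule.comap_subtype_self, top_inf_eq]

/-- The dimension of the image of the graded pieces under a map killing `f`. -/
theorem image_PA [Fintype σ] (w : σ → K) (fd : ∀ b, FiniteDimensional ℂ (Sb w b)) (A μ : K)
    (f : MvPolynomial σ ℂ) (hμ : f ∈ Sb w μ) (free : ∀ I, SS w A I → ZP f I → Gen w I)
    {T : Type*} [CommRing T] [Algebra ℂ T] (ψ : MvPolynomial σ ℂ →ₐ[ℂ] T) (h0 : ψ f = 0) :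
    PA A fun b => (finrank ℂ ((Sb w b).map ψ.toLinearMap) : ℚ) := by
  classical
  let _ := weightedGradedAlgebra ℂ w
  set J := (Ideal.homogeneousCore (weightedHomogeneousSubmodule ℂ w) (RingHom.ker ψ)) with hJ
  have hm : ∀ b, ∀ g ∈ Sb w b, ψ g = 0 → g ∈ J.toIdeal := fun b g hg h =>
    Ideal.mem_homogeneousCore_of_homogeneous_of_mem ⟨b, hg⟩ h
  have h1 := hf_PA w fd A f free J.toIdeal
    (fun g hg b => weightedHomogeneousComponent_mem_of_mem ℂ w J.isHomogeneous hg b) (hm μ f hμ h0)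
  have h2 : hf w J.toIdeal = fun b => (finrank ℂ ((Sb w b).map ψ.toLinearMap) : ℚ) := by
    funext b
    have := fd b
    have e : (Sb w b ⊓ J.toIdeal.restrictScalars ℂ : Submodule ℂ _) =
        Sb w b ⊓ LinearMap.ker ψ.toLinearMap := by
      ext g
      exact ⟨fun h => ⟨h.1, Ideal.toIdeal_homogeneousCore_le _ _ h.2⟩,
        fun h => ⟨h.1, hm b g h.1 h.2⟩⟩
    rw [hf, e, ← finrank_map_add ψ.toLinearMap (Sb w b)]
    push_cast
    ring
  rwa [h2] at h1

end Pool.Agent.Lib.MP_9ff3e7_ag.Cox
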