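import Pool.Agent.Lib.MP_9ff3e7_ag.CoxGrow

/-! Lower bounds for the Hilbert functions of slices, and the two degree inequalities. -/

set_option linter.unusedSectionVars false

namespace Pool.Agent.Lib.MP_9ff3e7_ag.Cox

open Filter MvPolynomial Finset Module Finsupp

universe u

variable {σ : Type u} {K : Type*} [AddCommGroup K] [Fintype σ] [DecidableEq σ]

def RepM (w : σ → K) (I : Finset σ) : AddSubmonoid K where
  carrier := {g | ∃ d, On I d ∧ weight w d = g}
  zero_mem' := ⟨0, on_zero I, map_zero _⟩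
  add_mem' := by
    rintro _ _ ⟨d, h1, rfl⟩ ⟨e, h2, rfl⟩
    exact ⟨d + e, h1.add h2, map_add _ _ _⟩

def Big (w : σ → K) (A : K) (I : Finset σ) : Prop :=
  ∃ k : ℕ, 0 < k ∧ k • A ∈ RepM w I ∧ ∀ g, ∃ n : ℕ, g + n • k • A ∈ RepM w I

lemma weight_eq_sum' (w : σ → K) (d : σ →₀ ℕ) : weight w d = ∑ i, d i • w i := by
  rw [weight_apply, Finsupp.sum_fintype _ _ (by simp)]

lemma Big.box {w : σ → K} {A : K} {I : Finset σ} (h : Big w A I) (b : K) :
    ∃ k, 0 < k ∧ ∀ t, 0 < t → ∀ d : σ →₀ ℕ, (∀ i, d i < t) →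
      b + (k * t) • A - weight w d ∈ RepM w I := by
  obtain ⟨k, hk, h1, h2⟩ := h
  choose n hn using h2
  set m : ℕ := n b + ∑ i, n (-w i) + 1 with hm
  have h3 : ∀ g, n g ≤ m → g + m • k • A ∈ RepM w I := fun g hg => by
    have := (RepM w I).add_mem (hn g) ((RepM w I).nsmul_mem h1 (m - n g))
    rwa [add_assoc, ← add_smul, Nat.add_sub_cancel' hg] at this
  refine ⟨(Fintype.card σ + 1) * (m * k), by positivity, fun t ht d hd => ?_⟩
  have h4 : ∑ i, d i ≤ Fintype.card σ * t := by
    have := Finset.sum_le_sum (s := univ) fun i _ => (hd i).le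
    simpa using this
  obtain ⟨r, hr⟩ : ∃ r, (Fintype.card σ + 1) * t = 1 + ∑ i, d i + r :=
    Nat.exists_eq_add_of_le (by nlinarith)
  have h5 := (RepM w I).add_mem ((RepM w I).add_mem (h3 b (by omega))
    ((RepM w I).sum_mem (t := univ) fun i _ => (RepM w I).nsmul_mem (h3 (-w i) (by
      have := Finset.single_le_sum (f := fun i => n (-w i)) (fun _ _ => Nat.zero_le _) (mem_univ i)
      omega)) (d i))) ((RepM w I).nsmul_mem ((RepM w I).nsmul_mem h1 m) r)
  convert h5 using 1
  rw [show (Fintype.card σ + 1) * (m * k) * t = ((Fintype.card σ + 1) * t) * (m * k) by ring, hr,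
    mul_smul, mul_smul, weight_eq_sum', add_smul, add_smul, Finset.sum_smul]
  simp only [smul_add, smul_neg, sum_add_distrib, sum_neg_distrib, one_smul]
  abel

/-- Monomials with distinct exponents on `V` stay independent modulo the restricted equation. -/
def Indep (y : σ → ℂ) (W V I : Finset σ) (f : MvPolynomial σ ℂ) : Prop :=
  ∀ (ι : Type u) [Fintype ι] (d n : ι → σ →₀ ℕ) (c : ι → ℂ), Function.Injective d →
    (∀ a, On V (d a)) → (∀ a, On I (n a)) →
    sbs y W f ∣ ∑ a, sbs y W (monomial (n a + d a) (c a)) → ∀ a, c a = 0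

lemma low_of_indep {w : σ → K} (fd : ∀ b, FiniteDimensional ℂ (Sb w b)) {A : K} {I W V : Finset σ}
    (h : Big w A I) {y : σ → ℂ} {f : MvPolynomial σ ℂ} (hi : Indep y W V I f) (b : K) :
    ∃ k, 0 < k ∧ ∀ t, 0 < t → t ^ V.card ≤ hq w y W f (b + (k * t) • A) := by
  obtain ⟨k, hk, h1⟩ := h.box b
  refine ⟨k, hk, fun t ht => ?_⟩
  let d : (V → Fin t) → σ →₀ ℕ := fun a =>
    Finsupp.equivFunOnFinite.symm fun i => if h : i ∈ V then (a ⟨i, h⟩ : ℕ) else 0
  have hd : ∀ a i, d a i = if h : i ∈ V then (a ⟨i, h⟩ : ℕ) else 0 := fun _ _ => rfl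
  have h2 : ∀ a, ∃ n, On I n ∧ weight w n = b + (k * t) • A - weight w (d a) := fun a =>
    h1 t ht (d a) fun i => by
      rw [hd]
      split_ifs
      · exact Fin.is_lt _
      · exact ht
  choose n hn hw using h2
  have := fd (b + (k * t) • A)
  let v : (V → Fin t) → (Sb w (b + (k * t) • A)).map (qs y W f).toLinearMap := fun a =>
    ⟨qs y W f (monomial (n a + d a) 1), _, isWeightedHomogeneous_monomial _ _ _ (by
      rw [map_add, hw, sub_add_cancel]), rfl⟩
  have hv : LinearIndependent ℂ v := by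
    rw [Fintype.linearIndependent_iff]
    intro c hc
    refine hi _ d n c (fun a a' e => ?_) (fun a i hi => by simp [hd, hi]) hn ?_
    · funext ⟨i, hi⟩
      have := DFunLike.congr_fun e i
      simp only [hd, hi, dif_pos] at this
      exact Fin.ext this
    · rw [← map_sum, ← qs_eq_zero, map_sum]
      have := congrArg Subtype.val hc
      simp only [AddSubmonoidClass.coe_finsetSum, SetLike.val_smul, ZeroMemClass.coe_zero, v] at this
      rw [← this]
      refine Finset.sum_congr rfl fun a _ => ?_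
      rw [← map_smul, smul_monomial, smul_eq_mul, mul_one]
  simpa [hq] using hv.fintype_card_le_finrank

lemma coeff_zero_of_sum {ι : Type*} (s : Finset ι) (D : ι → σ →₀ ℕ) (hD : Function.Injective D)
    (c : ι → ℂ) (h : ∑ a ∈ s, monomial (D a) (c a) = (0 : MvPolynomial σ ℂ)) :
    ∀ a ∈ s, c a = 0 := fun a ha => by
  have := congrArg (coeff (D a)) h
  rw [coeff_sum, Finset.sum_eq_single a (fun b _ hb => by simp [hD.ne hb]) (by simp [ha])] at this
  simpa using this

section

variable {y : σ → ℂ} {I : Finset σ} (hy : ∀ i, y i ≠ 0 ↔ i ∈ I) {f : MvPolynomial σ ℂ}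

include hy

lemma cf_ne {W V : Finset σ} (hV : V ⊆ W) {n d : σ →₀ ℕ} (hn : On I n) (hd : On V d) :
    cf y W (n + d) ≠ 0 := cf_ne_zero.2 fun i h1 h2 => by
  have : i ∉ I := fun h => (hy i).2 h h2
  simp [hn i this, hd i fun h => h1 (hV h)]

omit hy in
lemma filter_eq {W V : Finset σ} (hW : Disjoint W I) (hV : V ⊆ W) {n d : σ →₀ ℕ} (hn : On I n)
    (hd : On V d) : (n + d).filter (· ∈ W) = d := by
  ext i
  by_cases h : i ∈ W
  · simp [h, hn i (Finset.disjoint_left.1 hW h)]
  · simp [h, hd i fun h' => h (hV h')]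

lemma indep_zero {W : Finset σ} (hW : Disjoint W I) (h0 : sbs y W f = 0) : Indep y W W I f := by
  intro ι _ d n c hd h1 h2 h a
  rw [h0, zero_dvd_iff] at h
  simp only [sbs_monomial, fun a => filter_eq hW Subset.rfl (h2 a) (h1 a)] at h
  exact (mul_eq_zero.1 (coeff_zero_of_sum _ d hd _ h a (mem_univ _))).resolve_right
    (cf_ne hy Subset.rfl (h2 a) (h1 a))

lemma indep_deg {W : Finset σ} (hW : Disjoint W I) (h0 : sbs y W f ≠ 0) {z : σ}
    (hz : 0 < degreeOf z (sbs y W f)) : Indep y W (W.erase z) I f := by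
  intro ι _ d n c hd h1 h2 h a
  simp only [sbs_monomial, fun a => filter_eq hW (erase_subset z W) (h2 a) (h1 a)] at h
  obtain ⟨q, hq⟩ := h
  have h3 : q = 0 := by
    by_contra h3
    have h4 := congrArg (degreeOf z) hq
    rw [degreeOf_mul_eq h0 h3] at h4
    have h5 : degreeOf z (∑ a, monomial (d a) (c a * cf y W (n a + d a))) ≤ 0 :=
      (degreeOf_sum_le _ _ _).trans (Finset.sup_le fun a _ => degreeOf_le_iff.2 fun m hm => by
        rw [mem_singleton.1 (support_monomial_subset hm), h1 a z (notMem_erase _ _)])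
    omega
  rw [h3, mul_zero] at hq
  exact (mul_eq_zero.1 (coeff_zero_of_sum _ d hd _ hq a (mem_univ _))).resolve_right
    (cf_ne hy (erase_subset z W) (h2 a) (h1 a))

lemma exists_deg {W : Finset σ} (h0 : sbs y W f ≠ 0) (hf : eval y f = 0) :
    ∃ z ∈ W, 0 < degreeOf z (sbs y W f) := by
  by_contra h
  push Not at h
  have h1 : sbs y W f = C (coeff 0 (sbs y W f)) := by
    ext m
    rw [coeff_C]
    split_ifs with hm
    · rw [hm]
    · by_contra h2
      refine hm (Finsupp.ext fun i => ?_)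
      have h3 := MvPolynomial.mem_support_iff.2 h2
      by_cases hi : i ∈ W
      · have := (monomial_le_degreeOf i h3).trans (h i hi)
        simp only [Finsupp.coe_zero, Pi.zero_apply]
        omega
      · have := sbs_mem (w := fun _ => (0 : ℤ)) (φ := 0) (G := ⊤) (W := W) (y := y) (b := 0) (g := f)
          (fun _ _ _ => ⟨trivial, le_rfl⟩) (fun d _ => by simp [weight_apply])
        exact (((mem_restrictSupport_iff ℂ).1 this h3).1 i hi).symm
  have h2 := eval_sbs y W f
  rw [h1, eval_C, hf] at h2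
  exact h0 (by rw [h1, h2, C_0])

lemma indep_edge {V : Finset σ} (hV : Disjoint V I) {z : σ} (hz : z ∈ I) (h0 : sbs y {z} f ≠ 0)
    (hf : eval y f = 0) : Indep y (insert z V) V I f := by
  intro ι _ d n c hd h1 h2 h
  have hzV : z ∉ V := fun h => Finset.disjoint_left.1 hV h hz
  set W := insert z V with hW
  let θ : MvPolynomial σ ℂ →ₐ[ℂ] Polynomial (MvPolynomial σ ℂ) :=
    aeval fun i => Polynomial.monomial (if i ∈ V then 1 else 0) (X i)
  have hθ : ∀ m r, θ (monomial m r) =
      Polynomial.monomial (∑ i, if i ∈ V then m i else 0) (monomial m r) := fun m r => by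
    rw [aeval_monomial, monomial_eq, Finsupp.prod_fintype _ _ (by simp),
      Finsupp.prod_fintype _ _ (by simp), ← Polynomial.C_mul_monomial]
    congr 1
    simp only [Polynomial.monomial_pow]
    induction (univ : Finset σ) using Finset.induction_on with
    | empty => simp
    | insert i s hi ih =>
      rw [prod_insert hi, prod_insert hi, sum_insert hi, ih, Polynomial.monomial_mul_monomial]
      simp
  have hF : (θ (sbs y W f)).coeff 0 = sbs y {z} f := by
    have : ((Polynomial.aeval (0 : MvPolynomial σ ℂ)).restrictScalars ℂ).comp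
        (θ.comp (sbs y W)) = sbs y {z} := by
      ext1 i
      by_cases h1 : i = z
      · simp [sbs, θ, h1, hW, hzV]
      · by_cases h2 : i ∈ V
        · have : y i = 0 := by
            by_contra h3
            exact Finset.disjoint_left.1 hV h2 ((hy i).1 h3)
          simp [sbs, θ, h1, hW, h2, this]
        · simp [sbs, θ, h1, hW, h2]
    rw [← this, Polynomial.coeff_zero_eq_eval_zero]
    simp
  have hτ : sbs y V (sbs y {z} f) = 0 := by
    have : (sbs y V).comp (sbs y {z}) = (Algebra.ofId ℂ _).comp (aeval y) := by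
      ext1 i
      by_cases h1 : i = z <;> simp [sbs, h1, hzV, Algebra.ofId_apply]
    have := DFunLike.congr_fun this f
    simpa [hf] using this
  set D : ι → σ →₀ ℕ := fun a => (n a + d a).filter (· ∈ W) with hD
  have hDV : ∀ a, (D a).filter (· ∈ V) = d a := fun a => by
    ext i
    by_cases h : i ∈ V
    · simp [hD, hW, h, h2 a i (Finset.disjoint_left.1 hV h)]
    · simp [h, h1 a i h]
  set c' : ι → ℂ := fun a => c a * cf y W (n a + d a) with hc'
  simp only [sbs_monomial] at h
  obtain ⟨q, hq⟩ := h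
  change ∑ a, monomial (D a) (c' a) = _ at hq
  set e : ι → ℕ := fun a => ∑ i, if i ∈ V then D a i else 0 with he
  have key : ∀ k, (θ (∑ a, monomial (D a) (c' a))).coeff k =
      ∑ a ∈ univ.filter fun a => e a = k, monomial (D a) (c' a) := fun k => by
    rw [map_sum, Polynomial.finsetSum_coeff, Finset.sum_filter]
    exact Finset.sum_congr rfl fun a _ => by rw [hθ, Polynomial.coeff_monomial]
  have h3 : θ (∑ a, monomial (D a) (c' a)) = 0 := by
    rw [← Polynomial.trailingCoeff_eq_zero]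
    have h4 : sbs y V (θ (∑ a, monomial (D a) (c' a))).trailingCoeff = 0 := by
      rw [hq, map_mul, Polynomial.trailingCoeff_mul,
        Polynomial.trailingCoeff_eq_coeff_zero (by rwa [hF]), hF, map_mul, hτ, zero_mul]
    rw [Polynomial.trailingCoeff, key] at h4 ⊢
    rw [map_sum] at h4
    simp only [sbs_monomial, hDV] at h4
    refine Finset.sum_eq_zero fun a ha => ?_
    have h5 : cf y V (D a) ≠ 0 := cf_ne_zero.2 fun i h6 h7 => by
      have : i ∉ I := fun h => (hy i).2 h h7
      simp [hD, Finsupp.filter_apply, h2 a i this, h1 a i h6]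
    rw [(mul_eq_zero.1 (coeff_zero_of_sum _ d hd _ h4 a ha)).resolve_right h5, monomial_zero]
  intro a
  have h4 := key (e a)
  rw [h3, Polynomial.coeff_zero] at h4
  have h5 := coeff_zero_of_sum _ D (fun a b hab => hd (by rw [← hDV, ← hDV, hab])) c' h4.symm a
    (by simp)
  exact (mul_eq_zero.1 h5).resolve_right (cf_ne hy (subset_insert _ _) (h2 a) (h1 a))

end

lemma bern (a : ℤ) (ha : 0 < a) (c : σ → ℤ) (V : Finset σ) : (∀ u ∈ V, a < c u) →
    a ^ V.card * (a + ∑ u ∈ V, (c u - a)) ≤ a * ∏ u ∈ V, c u := by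
  induction V using Finset.induction_on with
  | empty => simp
  | insert z V hz ih =>
    intro h
    have h1 := ih fun u hu => h u (mem_insert_of_mem hu)
    have h2 := h z (mem_insert_self _ _)
    have h3 : 0 ≤ ∑ u ∈ V, (c u - a) :=
      sum_nonneg fun u hu => sub_nonneg.2 (h u (mem_insert_of_mem hu)).le
    rw [card_insert_of_notMem hz, prod_insert hz, sum_insert hz, pow_succ]
    have h4 : 0 < a ^ V.card := by positivity
    have h5 := mul_le_mul_of_nonneg_left h1 (ha.trans h2).le
    nlinarith [mul_nonneg (mul_nonneg h4.le h3) (sub_nonneg.2 h2.le)]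

section

variable {w : σ → K} (fd : ∀ b, FiniteDimensional ℂ (Sb w b)) {A μ : K} {f : MvPolynomial σ ℂ}
  (hf : f ∈ Sb w μ) (free : ∀ I, SS w A I → ZP f I → Gen w I) {φ : K →+ ℤ} (ha : 0 < φ A)
  {y : σ → ℂ} {I : Finset σ} (hy : ∀ i, y i ≠ 0 ↔ i ∈ I) (h0 : eval y f = 0) (hB : Big w A I)
  (hI : ∀ i ∈ I, 0 ≤ φ (w i)) {V : Finset σ} (hV : Disjoint V I) (hc : ∀ u ∈ V, φ A < φ (w u))

include fd hf free ha hy h0 hB hI hV hc

theorem lemN (hne : V.Nonempty) : φ A + ∑ u ∈ V, (φ (w u) - φ A) ≤ φ μ := by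
  have hc' : ∀ u ∈ V, 0 < φ (w u) := fun u hu => ha.trans (hc u hu)
  have hb := bern (φ A) ha (fun u => φ (w u)) V hc
  have hp : 0 < φ A ^ V.card := by positivity
  by_cases hF : sbs y V f = 0
  · have h1 := grow_zero fd hf free ha.le (fun i _ h => hI i ((hy i).1 h)) hc' (by
      simpa only [zero_add] using low_of_indep fd hB (indep_zero hy hV hF) 0)
    have h2 : 0 < ∑ u ∈ V, (φ (w u) - φ A) := sum_pos (fun u hu => sub_pos.2 (hc u hu)) hne
    nlinarith [mul_pos hp h2]
  · obtain ⟨z, hz, hd⟩ := exists_deg hy hF h0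
    have e := insert_erase hz
    have h1 := grow fd hf free ha.le (W := V.erase z) (z := z) (G := ⊤) (y := y)
      (fun i _ h => ⟨trivial, hI i ((hy i).1 h)⟩) (by rwa [e]) one_pos (by simp)
      (fun _ => ⟨0, trivial⟩) (by rwa [e]) (by
        rw [e]; exact low_of_indep fd hB (indep_deg hy hV hF hd))
    rw [Nat.cast_one, one_mul, mul_prod_erase V (fun i => φ (w i)) hz] at h1
    have h2 : φ A ^ V.card = φ A * φ A ^ (V.erase z).card := by
      rw [← card_erase_add_one hz, pow_succ']
    refine le_of_mul_le_mul_left (hb.trans ?_) hp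
    rw [h2]
    nlinarith

theorem lemE {z : σ} (hz : z ∈ I) (hcz : 0 < φ (w z)) {G : AddSubgroup K}
    (hG : ∀ i ∈ I, i ≠ z → w i ∈ G) {π : ℕ} (hπ : 0 < π)
    (hper : ∀ α : ℤ, α • w z ∈ G ↔ (π : ℤ) ∣ α) (hgen : ∀ g, ∃ α : ℤ, g - α • w z ∈ G)
    (hF : sbs y {z} f ≠ 0) :
    π * φ (w z) * (φ A + ∑ u ∈ V, (φ (w u) - φ A)) ≤ φ A * φ μ := by
  have hb := bern (φ A) ha (fun u => φ (w u)) V hc
  have hp : 0 < φ A ^ V.card := by positivity
  have hF' : sbs y (insert z V) f ≠ 0 := fun h => hF (by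
    have : (sbs y {z}).comp (sbs y (insert z V)) = sbs y {z} := by
      ext1 i
      by_cases h1 : i = z
      · simp [sbs, h1]
      · by_cases h2 : i ∈ V <;> simp [sbs, h1, h2]
    rw [← this, AlgHom.comp_apply, h, map_zero])
  have h1 := grow fd hf free ha.le (W := V) (z := z) (G := G) (y := y)
    (fun i h1 h => ⟨hG i ((hy i).1 h) (by rintro rfl; exact h1 (mem_insert_self _ _)),
      hI i ((hy i).1 h)⟩) (fun i hi => by
        rcases mem_insert.1 hi with rfl | hi
        · exact hcz
        · exact ha.trans (hc i hi)) hπ hper hgen hF'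
      (low_of_indep fd hB (indep_edge hy hV hz hF h0))
  refine le_of_mul_le_mul_left ?_ hp
  have h2 : (0 : ℤ) ≤ π * φ (w z) := by positivity
  nlinarith [mul_le_mul_of_nonneg_left hb h2, mul_le_mul_of_nonneg_left h1 ha.le]

end

end Pool.Agent.Lib.MP_9ff3e7_ag.Cox
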