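import Pool.Agent.Lib.MP_9ff3e7_ag.CoxSupp

/-! Fujita freeness for free quotients of smooth hypersurfaces. -/

set_option linter.unusedSectionVars false

namespace Pool.Agent.Lib.MP_9ff3e7_ag.Cox

open MvPolynomial Finset Finsupp Module

universe u

variable {σ : Type u} {K : Type*} [AddCommGroup K] [Fintype σ] [DecidableEq σ]

lemma Gen.surj {w : σ → K} {I : Finset σ} (h : Gen w I) :
    Function.Surjective ((zw w).domRestrict (ZOn I)) := fun g => by
  obtain ⟨n, h1, h2⟩ := h.rep g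
  exact ⟨⟨n, h1⟩, h2⟩

lemma Gen.mk {w : σ → K} {I : Finset σ} (h : Gen w I) (c : (σ → ℤ) →ₗ[ℤ] ℤ)
    (hc : ∀ v ∈ Rel w I, c v = 0) : ∃ φ : K →+ ℤ, ∀ n ∈ ZOn I, φ (zw w n) = c n := by
  refine ⟨((zw w).domRestrict (ZOn I)).toAddMonoidHom.liftOfSurjective h.surj
    ⟨(c.domRestrict (ZOn I)).toAddMonoidHom, fun v hv => hc v ⟨v.2, hv⟩⟩, fun n hn => ?_⟩
  exact AddMonoidHom.liftOfRightInverse_comp_apply _ _ _ _ (⟨n, hn⟩ : ZOn I)

lemma Gen.rank {w : σ → K} {I : Finset σ} (h : Gen w I) :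
    finrank ℤ K ≤ I.card ∧ ∀ v ∈ Rel w I, v ≠ 0 → finrank ℤ K + 1 ≤ I.card := by
  have h1 := Submodule.finrank_quotient_add_finrank (LinearMap.ker ((zw w).domRestrict (ZOn I)))
  rw [(LinearMap.quotKerEquivOfSurjective _ h.surj).finrank_eq] at h1
  have h2 : finrank ℤ (ZOn I) ≤ I.card := by
    have := LinearMap.finrank_le_finrank_of_injective
      (f := (LinearMap.funLeft ℤ ℤ (Subtype.val : I → σ)).domRestrict (ZOn I)) fun a b hab => by
        ext i
        by_cases hi : i ∈ I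
        · exact congrFun hab ⟨i, hi⟩
        · rw [a.2 i hi, b.2 i hi]
    simpa using this
  refine ⟨by omega, fun v hv h0 => ?_⟩
  have h3 : 1 ≤ finrank ℤ (LinearMap.ker ((zw w).domRestrict (ZOn I))) :=
    Submodule.one_le_finrank_iff.2 fun e => h0 (by
      have : (⟨v, hv.1⟩ : ZOn I) ∈ LinearMap.ker ((zw w).domRestrict (ZOn I)) := hv.2
      rw [e] at this
      exact congrArg Subtype.val ((Submodule.mem_bot ℤ).1 this))
  omega

lemma single_mem {I : Finset σ} {i : σ} (hi : i ∈ I) (α : ℤ) : Pi.single i α ∈ ZOn I :=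
  fun _ hj => Pi.single_eq_of_ne (by rintro rfl; exact hj hi) _

lemma zw_single (w : σ → K) (i : σ) (α : ℤ) : zw w (Pi.single i α) = α • w i :=
  Fintype.linearCombination_apply_single _ _ _ _

lemma phi_bound (w : σ → K) (φ : K →+ ℤ) (A μ : K) (m : ℕ) (I V : Finset σ) (hV : Disjoint V I)
    (h : ∀ u, u ∉ I → u ∉ V → φ (w u) ≤ φ A) :
    φ μ - ∑ i ∈ I, φ (w i) - ∑ u ∈ V, (φ (w u) - φ A) + (m + I.card - Fintype.card σ) * φ A ≤
      φ (μ - ∑ i, w i + m • A) := by
  have hs : V ⊆ Iᶜ := fun u hu => mem_compl.2 (Finset.disjoint_left.1 hV hu)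
  have h1 : ∑ u ∈ Iᶜ \ V, (φ (w u) - φ A) ≤ 0 := sum_nonpos fun u hu =>
    sub_nonpos.2 (h u (mem_compl.1 (mem_sdiff.1 hu).1) (mem_sdiff.1 hu).2)
  have h2 := sum_sdiff (f := fun u => φ (w u) - φ A) hs
  have h3 := sum_add_sum_compl I fun u => φ (w u)
  have h4 : ((Iᶜ).card : ℤ) = Fintype.card σ - I.card := by
    have := card_add_card_compl I
    omega
  rw [sum_sub_distrib (s := Iᶜ), sum_const, nsmul_eq_mul, h4] at h2
  rw [map_add, map_sub, map_sum, map_nsmul, nsmul_eq_mul]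
  linarith

section

variable {w : σ → K} (hp : ∀ d : σ →₀ ℕ, weight w d = 0 → d = 0) {A μ : K} {f : MvPolynomial σ ℂ}
  (hf : f ∈ Sb w μ) (free : ∀ I, SS w A I → ZP f I → Gen w I)
  {y : σ → ℂ} {I : Finset σ} (hy : ∀ i, y i ≠ 0 ↔ i ∈ I) (h0 : eval y f = 0) (hS : SS w A I)
  {m : ℕ}

include hp hf free hy h0 hS

lemma coord {l : σ} (hl : l ∈ I) (hc : ∀ v ∈ Rel w I, v l = 0) {n : σ → ℤ} (hn : n ∈ ZOn I)
    (hB : zw w n = μ - ∑ i, w i + m • A) {d : σ →₀ ℕ} (hd : d ∈ f.support)
    (H : (On I d ∧ Fintype.card σ + 1 ≤ m + I.card) ∨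
      (Fintype.card σ ≤ m + I.card ∧ ∃ i, i ∉ I ∧ 0 < d i ∧ On I (d - Finsupp.single i 1))) :
    0 ≤ n l := by
  have hZ : ZP f I := ⟨y, h0, hy⟩
  have hG := free I hS hZ
  obtain ⟨u, k, hu, hu'⟩ := interior hf free hS hZ
  obtain ⟨φ, hφ⟩ := hG.mk (LinearMap.proj l) hc
  simp only [LinearMap.proj_apply] at hφ
  have h1 : ∀ i ∈ I, φ (w i) = if l = i then 1 else 0 := fun i hi => by
    rw [← one_smul ℤ (w i), ← zw_single, hφ _ (single_mem hi 1), Pi.single_apply]
  have h2 : ∑ i ∈ I, φ (w i) = 1 := by rw [sum_congr rfl h1]; simp [hl]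
  have ha : 0 < φ A := by
    have := hφ u hu.2.1
    rw [hu.2.2.1, map_nsmul, nsmul_eq_mul] at this
    have h3 := hu' l hl
    by_contra h4
    nlinarith [Int.natCast_nonneg k]
  have hw : weight w d = μ := hf (MvPolynomial.mem_support_iff.1 hd)
  have hon : ∀ e, On I e → 0 ≤ φ (weight w e) := fun e he => by
    rw [← zw_iv, hφ _ he.iv]; exact Int.natCast_nonneg _
  have hm : (0 : ℤ) ≤ m + I.card - Fintype.card σ := by rcases H with H | H <;> omega
  rw [← hφ n hn, hB]
  set V := Iᶜ.filter fun u => φ A < φ (w u) with hV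
  have hVI : Disjoint V I := Finset.disjoint_left.2 fun u hu => mem_compl.1 (mem_filter.1 hu).1
  have hV' : ∀ u, u ∉ I → u ∉ V → φ (w u) ≤ φ A := fun u h1 h2 => by simpa [hV, h1] using h2
  rcases V.eq_empty_or_nonempty with e | e
  · rw [e] at hV'
    rcases H with ⟨H1, H2⟩ | ⟨_, i, H1, H2, H3⟩
    · have h3 := phi_bound w φ A μ m I ∅ (disjoint_empty_left _) hV'
      have h4 := hon d H1
      have h5 : (1 : ℤ) ≤ m + I.card - Fintype.card σ := by omega
      rw [hw] at h4
      rw [sum_empty] at h3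
      nlinarith
    · have h3 := phi_bound w φ A μ m I {i} (disjoint_singleton_left.2 H1)
        fun u h1 _ => hV' u h1 (notMem_empty _)
      have h4 := hon _ H3
      rw [weight_sub_single w (n := 1) H2, hw, one_smul, map_sub] at h4
      rw [sum_singleton] at h3
      nlinarith
  · have h3 := phi_bound w φ A μ m I V hVI hV'
    have h4 := lemN (fin_Sb w hp) hf free ha hy h0 (big_of hu hu' hG)
      (fun i hi => by rw [h1 i hi]; split_ifs <;> simp) hVI (fun u hu => (mem_filter.1 hu).2) e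
    nlinarith

lemma pair {v : σ → ℤ} (hv : v ∈ Rel w I) (hc : ∀ v' ∈ Rel w I, ∃ t : ℤ, v' = t • v) {l l' : σ}
    (hl : 0 < v l) (hl' : v l' < 0) {n : σ → ℤ} (hn : n ∈ ZOn I)
    (hB : zw w n = μ - ∑ i, w i + m • A) {p : σ →₀ ℕ} (hd : p ∈ f.support) (hd' : On I p)
    (H : Fintype.card σ + 1 ≤ m + I.card) : -(n l / v l) ≤ n l' / -v l' := by
  have hZ : ZP f I := ⟨y, h0, hy⟩
  have hG := free I hS hZ
  obtain ⟨u, k, hu, hu'⟩ := interior hf free hS hZ
  have hlI : l ∈ I := by
    by_contra h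
    exact hl.ne' (hv.1 l h)
  have hlI' : l' ∈ I := by
    by_contra h
    exact hl'.ne (hv.1 l' h)
  have hne : l ≠ l' := by rintro rfl; omega
  set P := v l with hP
  set Q := -v l' with hQ
  have hQ0 : 0 < Q := by omega
  obtain ⟨φ, hφ⟩ := hG.mk (Q • LinearMap.proj l + P • LinearMap.proj l') fun v' hv' => by
    obtain ⟨t, rfl⟩ := hc v' hv'
    simp only [LinearMap.add_apply, LinearMap.smul_apply, LinearMap.proj_apply, Pi.smul_apply,
      smul_eq_mul, hP, hQ]
    ring
  replace hφ : ∀ n ∈ ZOn I, φ (zw w n) = Q * n l + P * n l' := hφ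
  have h1 : ∀ i ∈ I, φ (w i) = (if l = i then Q else 0) + if l' = i then P else 0 := fun i hi => by
    rw [← one_smul ℤ (w i), ← zw_single, hφ _ (single_mem hi 1), Pi.single_apply, Pi.single_apply]
    simp
  have h2 : ∑ i ∈ I, φ (w i) = Q + P := by
    rw [sum_congr rfl h1, sum_add_distrib]; simp [hlI, hlI']
  have h1' : ∀ i ∈ I, 0 ≤ φ (w i) := fun i hi => by rw [h1 i hi]; split_ifs <;> omega
  have hwl : φ (w l) = Q := by rw [h1 l hlI]; simp [hne.symm]
  have ha : 0 < φ A := by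
    have := hφ u hu.2.1
    rw [hu.2.2.1, map_nsmul, nsmul_eq_mul] at this
    have h3 := add_pos (mul_pos hQ0 (hu' l hlI)) (mul_pos hl (hu' l' hlI'))
    by_contra h4
    nlinarith [Int.natCast_nonneg k]
  set V := Iᶜ.filter fun u => φ A < φ (w u) with hV
  have hVI : Disjoint V I := Finset.disjoint_left.2 fun u hu => mem_compl.1 (mem_filter.1 hu).1
  have hV' : ∀ u, u ∉ I → u ∉ V → φ (w u) ≤ φ A := fun u h1 h2 => by simpa [hV, h1] using h2
  have hV2 : ∀ u ∈ V, φ A < φ (w u) := fun u hu => (mem_filter.1 hu).2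
  have hsub : ∀ n ∈ ZOn I, n - Pi.single l (n l) ∈ ZOn (I.erase l) := fun n hn j hj => by
    by_cases e : j = l
    · simp [e]
    · simp [e, hn j fun h => hj (mem_erase.2 ⟨e, h⟩)]
  have hE := lemE (fin_Sb w hp) hf free ha hy h0 (big_of hu hu' hG) h1' hVI hV2 hlI
    (hwl ▸ hQ0) (G := ((ZOn (I.erase l)).map (zw w)).toAddSubgroup)
    (fun i hi e => ⟨_, single_mem (mem_erase.2 ⟨e, hi⟩) 1, by rw [zw_single, one_smul]⟩)
    (π := P.toNat) (by omega) (fun α => by
      rw [Int.toNat_of_nonneg hl.le]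
      constructor
      · rintro ⟨n', h3, h4⟩
        obtain ⟨t, ht⟩ := hc (Pi.single l α - n') ⟨(ZOn I).sub_mem (single_mem hlI α)
          fun j hj => h3 j fun h => hj (mem_of_mem_erase h), by
            change zw w _ = 0
            rw [map_sub, zw_single, h4, sub_self]⟩
        have := congrFun ht l
        simp only [Pi.sub_apply, Pi.single_eq_same, h3 l (notMem_erase _ _), sub_zero,
          Pi.smul_apply, smul_eq_mul] at this
        exact ⟨t, by rw [this, mul_comm]⟩
      · rintro ⟨t, rfl⟩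
        refine ⟨_, (ZOn _).neg_mem (hsub _ ((ZOn I).smul_mem t hv.1)), ?_⟩
        rw [map_neg, map_sub, map_smul, show zw w v = 0 from hv.2, zw_single]
        simp [mul_comm, hP])
    (fun g => by
      obtain ⟨n', h3, rfl⟩ := hG.rep g
      exact ⟨n' l, _, hsub n' h3, by rw [map_sub, zw_single]⟩) (fun hF => by
      have h3 := congrArg (coeff (p.filter (· ∈ ({l} : Finset σ)))) hF
      rw [f.as_sum, map_sum, coeff_sum, Finset.sum_eq_single p (fun d h4 h5 => by
        rw [sbs_monomial, coeff_monomial]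
        split_ifs with h6
        · by_contra h7
          have h8 : On I d := fun i hi => cf_ne_zero.1 (right_ne_zero_of_mul h7) i
            (by rw [mem_singleton]; rintro rfl; exact hi hlI) (by
              by_contra h; exact hi ((hy i).1 h))
          obtain ⟨t, ht⟩ := hc _ (rel_sub hf h4 hd h8 hd')
          have h9 : d l = p l := by simpa using DFunLike.congr_fun h6 l
          have h10 := congrFun ht l
          simp only [Pi.sub_apply, iv, h9, sub_self, Pi.smul_apply, smul_eq_mul] at h10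
          rw [(mul_eq_zero.1 h10.symm).resolve_right hl.ne', zero_smul, sub_eq_zero] at ht
          exact h5 (Finsupp.ext fun i => by simpa [iv] using congrFun ht i)
        · rfl) (fun h => absurd hd h), sbs_monomial, coeff_monomial, if_pos rfl, coeff_zero] at h3
      refine mul_ne_zero (MvPolynomial.mem_support_iff.1 hd) (cf_ne_zero.2 fun i _ h => ?_) h3
      exact hd' i fun hi => (hy i).2 hi h)
  rw [Int.toNat_of_nonneg hl.le, hwl] at hE
  have h3 := phi_bound w φ A μ m I V hVI hV'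
  rw [← hB, hφ n hn, h2] at h3
  have h4 : 0 ≤ ∑ u ∈ V, (φ (w u) - φ A) := sum_nonneg fun u hu => sub_nonneg.2 (hV2 u hu).le
  have h5 : P * Q < φ μ - ∑ u ∈ V, (φ (w u) - φ A) + φ A := by
    by_cases h5 : φ A ≤ P * Q
    · have : φ A * (P * Q + ∑ u ∈ V, (φ (w u) - φ A)) ≤ φ A * φ μ := by nlinarith
      have := le_of_mul_le_mul_left this ha
      omega
    · rcases V.eq_empty_or_nonempty with e | e
      · rw [e, sum_empty] at hE ⊢
        have : φ A * (P * Q) ≤ φ A * φ μ := by nlinarith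
        have := le_of_mul_le_mul_left this ha
        omega
      · have := lemN (fin_Sb w hp) hf free ha hy h0 (big_of hu hu' hG) h1' hVI hV2 e
        omega
  have h6 : (1 : ℤ) ≤ m + I.card - Fintype.card σ := by omega
  have h7 : P * Q - P - Q < Q * n l + P * n l' := by nlinarith
  by_contra h8
  have e1 := Int.mul_ediv_add_emod (n l) P
  have e2 := Int.mul_ediv_add_emod (n l') Q
  have e3 : n l % P ≤ P - 1 := by have := Int.emod_lt_of_pos (n l) hl; omega
  have e4 : n l' % Q ≤ Q - 1 := by have := Int.emod_lt_of_pos (n l') hQ0; omega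
  have e5 : n l / P + n l' / Q ≤ -1 := by omega
  nlinarith [mul_le_mul_of_nonneg_left e5 (mul_pos hl hQ0).le,
    mul_le_mul_of_nonneg_left e3 hQ0.le, mul_le_mul_of_nonneg_left e4 hl.le]

theorem main_min (hmin : ∀ J ⊆ I, SS w A J → ZP f J → J = I)
    (smooth : ∃ i, eval y (pderiv i f) ≠ 0) (hm : Fintype.card σ ≤ m + finrank ℤ K) :
    μ - ∑ i, w i + m • A ∈ RepM w I := by
  have hZ : ZP f I := ⟨y, h0, hy⟩
  have hG := free I hS hZ
  obtain ⟨n, hn, hB⟩ := hG.rep (μ - ∑ i, w i + m • A)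
  by_cases h1 : ∀ d ∈ f.support, ¬ On I d
  · have h2 := rel_zero hp hS hmin h1
    obtain ⟨i, hi⟩ := smooth
    obtain ⟨e, h3, h4⟩ := exists_on hy hi
    rw [MvPolynomial.mem_support_iff, coeff_pderiv] at h3
    have h5 := MvPolynomial.mem_support_iff.2 (left_ne_zero_of_mul h3)
    rw [← hB]
    refine mem_RepM hn fun l => ?_
    by_cases hl : l ∈ I
    · refine coord hp hf free hy h0 hS hl (fun v hv => by rw [h2 v hv]; rfl) hn hB h5
        (Or.inr ⟨by have := hG.rank.1; omega, i, fun h => h1 _ h5 (h4.add (on_single h 1)),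
          by simp, by simpa using h4⟩)
    · exact (hn l hl).ge
  push Not at h1
  obtain ⟨p, p1, p2⟩ := h1
  obtain ⟨q, q1, q2, q3⟩ : ∃ q ∈ f.support, On I q ∧ q ≠ p := by
    by_contra h
    push Not at h
    exact hZ.not_one ⟨p, p1, p2, h⟩
  obtain ⟨v, hv, hv0, hc⟩ := cyclic (minors hp hS hmin hf q3 q1 p1 q2 p2)
    (rel_sub hf q1 p1 q2 p2) fun h => q3 (Finsupp.ext fun i => by
      simpa [iv, sub_eq_zero] using congrFun h i)
  have H : Fintype.card σ + 1 ≤ m + I.card := by have := hG.rank.2 v hv hv0; omega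
  obtain ⟨l, hl, hmax⟩ := Finset.exists_max_image (univ.filter fun i => 0 < v i)
    (fun i => -(n i / v i)) (by
      obtain ⟨i, hi⟩ := exists_pos hp hv.2 hv0
      exact ⟨i, by simpa using hi⟩)
  have hl' : 0 < v l := (mem_filter.1 hl).2
  have := mem_RepM (w := w) ((ZOn I).add_mem hn ((ZOn I).smul_mem (-(n l / v l)) hv.1)) fun j => by
    simp only [Pi.add_apply, Pi.smul_apply, smul_eq_mul]
    rcases lt_trichotomy (v j) 0 with h | h | h
    · have h2 := pair hp hf free hy h0 hS hv hc hl' h hn hB p1 p2 H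
      have h3 := Int.mul_ediv_add_emod (n j) (-v j)
      have h4 := Int.emod_nonneg (n j) (b := -v j) (by omega)
      nlinarith
    · rw [h, mul_zero, add_zero]
      by_cases hj : j ∈ I
      · exact coord hp hf free hy h0 hS hj (fun v' hv' => by
          obtain ⟨t, rfl⟩ := hc v' hv'
          simp [h]) hn hB p1 (Or.inl ⟨p2, H⟩)
      · exact (hn j hj).ge
    · have h2 := hmax j (by simpa using h)
      have h3 := Int.mul_ediv_add_emod (n j) (v j)
      have h4 := Int.emod_nonneg (n j) h.ne'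
      nlinarith
  rwa [map_add, map_smul, show zw w v = 0 from hv.2, smul_zero, add_zero, hB] at this

end

theorem main {w : σ → K} (hp : ∀ d : σ →₀ ℕ, weight w d = 0 → d = 0) {A μ : K} {f : MvPolynomial σ ℂ}
    (hf : f ∈ Sb w μ) (free : ∀ I, SS w A I → ZP f I → Gen w I)
    (smooth : ∀ y I, (∀ i, y i ≠ 0 ↔ i ∈ I) → eval y f = 0 → SS w A I →
      ∃ i, eval y (pderiv i f) ≠ 0) {m : ℕ} (hm : Fintype.card σ ≤ m + finrank ℤ K)
    (I : Finset σ) : SS w A I → ZP f I → μ - ∑ i, w i + m • A ∈ RepM w I := by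
  induction I using Finset.strongInduction with
  | H I ih =>
  intro hS hZ
  by_cases h : ∀ J ⊆ I, SS w A J → ZP f J → J = I
  · obtain ⟨y, h0, hy⟩ := hZ
    exact main_min hp hf free hy h0 hS h (smooth y I hy h0 hS) hm
  · push Not at h
    obtain ⟨J, h1, h2, h3, h4⟩ := h
    obtain ⟨d, h5, h6⟩ := ih J (Finset.ssubset_iff_subset_ne.2 ⟨h1, h4⟩) h2 h3
    exact ⟨d, h5.mono h1, h6⟩

lemma gen_of_free {w : σ → K} {y : σ → ℂ} {I : Finset σ} (hy : ∀ i, y i ≠ 0 ↔ i ∈ I)
    (h : ∀ χ : AddChar K ℂ, (∀ i, χ (w i) * y i = y i) → χ = 1) : Gen w I := by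
  by_contra hn
  set G := AddSubgroup.closure (w '' (I : Set σ)) with hG
  obtain ⟨g, hg⟩ : ∃ g, g ∉ G := by
    by_contra h1
    push Not at h1
    exact hn (eq_top_iff.2 fun g _ => h1 g)
  obtain ⟨c, hc⟩ := CharacterModule.exists_character_apply_ne_zero_of_ne_zero
    (a := (g : K ⧸ G)) (by rwa [Ne, QuotientAddGroup.eq_zero_iff])
  let e : ℚ →+ Additive ℂ :=
    { toFun := fun q => Additive.ofMul (Complex.exp (2 * Real.pi * Complex.I * q))
      map_zero' := by simp
      map_add' := fun a b => by rw [← ofMul_mul, ← Complex.exp_add]; push_cast; ring_nf }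
  have he : ∀ q : ℚ, e q = 0 ↔ q ∈ AddSubgroup.zmultiples (1 : ℚ) := fun q => by
    change Complex.exp _ = 1 ↔ _
    rw [Complex.exp_eq_one_iff, AddSubgroup.mem_zmultiples_iff]
    refine exists_congr fun n => ?_
    rw [mul_comm (n : ℂ), mul_right_inj' Complex.two_pi_I_ne_zero, zsmul_eq_mul, mul_one, eq_comm]
    exact_mod_cast Iff.rfl
  let e' : AddCircle (1 : ℚ) →+ Additive ℂ := QuotientAddGroup.lift _ e fun q hq => (he q).2 hq
  have he' : ∀ x, e' x = 0 → x = 0 := fun x hx => by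
    induction x using QuotientAddGroup.induction_on with
    | H q => exact (QuotientAddGroup.eq_zero_iff q).2 ((he q).1 hx)
  let ψ : K →+ Additive ℂ := e'.comp ((show K ⧸ G →+ _ from c).comp (QuotientAddGroup.mk' G))
  have h1 := h (AddChar.toAddMonoidHomEquiv.symm ψ) fun i => by
    by_cases hi : i ∈ I
    · have : ((w i : K) : K ⧸ G) = 0 :=
        (QuotientAddGroup.eq_zero_iff _).2 (AddSubgroup.subset_closure ⟨i, hi, rfl⟩)
      have h2 : ψ (w i) = 0 := by
        change e' (c ((w i : K) : K ⧸ G)) = 0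
        rw [this, map_zero, map_zero]
      simp [h2]
    · have : y i = 0 := by
        by_contra h2
        exact hi ((hy i).1 h2)
      simp [this]
  have h2 := DFunLike.congr_fun h1 g
  exact hc (he' _ h2)

end Pool.Agent.Lib.MP_9ff3e7_ag.Cox
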