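import Mathlib

/-! Eventually polynomial functions and their leading coefficients. -/

namespace Pool.Agent.Lib.MP_9ff3e7_ag.Cox

open Filter Polynomial Finset

def EvPoly (h : ℕ → ℚ) : Prop := ∃ p : ℚ[X], ∀ᶠ t : ℕ in atTop, h t = p.eval (t : ℚ)

lemma EvPoly.add {g h : ℕ → ℚ} (hg : EvPoly g) (hh : EvPoly h) : EvPoly fun t => g t + h t := by
  obtain ⟨p, hp⟩ := hg
  obtain ⟨q, hq⟩ := hh
  exact ⟨p + q, by filter_upwards [hp, hq] with t h1 h2; simp [h1, h2]⟩

lemma EvPoly.neg {g : ℕ → ℚ} (hg : EvPoly g) : EvPoly fun t => - g t := by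
  obtain ⟨p, hp⟩ := hg
  exact ⟨-p, by filter_upwards [hp] with t h1; simp [h1]⟩

lemma EvPoly.of_eq {g h : ℕ → ℚ} (hg : EvPoly g) (e : ∀ᶠ t in atTop, h t = g t) : EvPoly h := by
  obtain ⟨p, hp⟩ := hg
  exact ⟨p, by filter_upwards [hp, e] with t h1 h2; rw [h2, h1]⟩

lemma evPoly_zero : EvPoly fun _ => 0 := ⟨0, by simp⟩

lemma exists_antidiff (q : ℚ[X]) : ∃ p : ℚ[X], ∀ x : ℚ, p.eval (x + 1) - p.eval x = q.eval x := by
  induction q using Polynomial.induction_on' with
  | add p q hp hq =>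
    obtain ⟨a, ha⟩ := hp
    obtain ⟨b, hb⟩ := hq
    exact ⟨a + b, fun x => by simp only [eval_add]; linarith [ha x, hb x]⟩
  | monomial n c =>
    refine ⟨C (c / (n + 1)) * Polynomial.bernoulli (n + 1), fun x => ?_⟩
    have := Polynomial.bernoulli_eval_one_add (n + 1) x
    rw [add_comm x 1]
    simp only [eval_mul, eval_C, this, eval_monomial, Nat.add_sub_cancel]
    have : (n : ℚ) + 1 ≠ 0 := by positivity
    push_cast
    field_simp
    ring

lemma EvPoly.of_diff {h : ℕ → ℚ} (hd : EvPoly fun t => h (t + 1) - h t) : EvPoly h := by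
  obtain ⟨q, hq⟩ := hd
  obtain ⟨p, hp⟩ := exists_antidiff q
  obtain ⟨n, hn⟩ := eventually_atTop.1 hq
  refine ⟨p + C (h n - p.eval (n : ℚ)), eventually_atTop.2 ⟨n, fun t ht => ?_⟩⟩
  induction t, ht using Nat.le_induction with
  | base => simp
  | succ t ht ih =>
    have h1 := hn t ht
    have h2 := hp t
    simp only [eval_add, eval_C] at ih ⊢
    push_cast
    linarith

lemma lead_nonneg (r : ℚ[X]) (h : ∀ᶠ t : ℕ in atTop, 0 ≤ r.eval (t : ℚ)) : 0 ≤ r.leadingCoeff := by
  by_contra hneg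
  push Not at hneg
  by_cases hd : 0 < r.degree
  · have h1 := (r.tendsto_atBot_of_leadingCoeff_nonpos hd hneg.le).comp
      (tendsto_natCast_atTop_atTop (R := ℚ))
    obtain ⟨t, h2, h3⟩ := (h.and (h1.eventually (eventually_lt_atBot 0))).exists
    exact absurd h2 (not_le.2 h3)
  · push Not at hd
    obtain ⟨t, ht⟩ := h.exists
    rw [eq_C_of_degree_le_zero hd] at ht hneg
    simp only [eval_C, leadingCoeff_C] at ht hneg
    exact absurd ht (not_le.2 hneg)

lemma coeff_nonneg (r : ℚ[X]) (e : ℕ) (hd : r.natDegree ≤ e)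
    (h : ∀ᶠ t : ℕ in atTop, 0 ≤ r.eval (t : ℚ)) : 0 ≤ r.coeff e := by
  rcases hd.eq_or_lt with h1 | h1
  · rw [← h1]; exact lead_nonneg r h
  · rw [coeff_eq_zero_of_natDegree_lt h1]

lemma natDegree_le_of_le (p q : ℚ[X]) (e : ℕ) (hq : q.natDegree ≤ e)
    (h : ∀ᶠ t : ℕ in atTop, 0 ≤ p.eval (t : ℚ) ∧ p.eval (t : ℚ) ≤ q.eval (t : ℚ)) :
    p.natDegree ≤ e := by
  by_contra hlt
  push Not at hlt
  have h1 := lead_nonneg p (h.mono fun t ht => ht.1)
  have h2 := coeff_nonneg (q - p) p.natDegree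
    ((natDegree_sub_le q p).trans (max_le (by omega) le_rfl))
    (h.mono fun t ht => by simp only [eval_sub]; linarith [ht.2])
  rw [coeff_sub, coeff_eq_zero_of_natDegree_lt (by omega)] at h2
  have h3 : p.leadingCoeff = 0 := by unfold leadingCoeff at h1 ⊢; linarith
  rw [leadingCoeff_eq_zero] at h3
  simp [h3] at hlt

lemma one_le_fact_mul (p : ℚ[X]) (e : ℕ) (hd : p.natDegree ≤ e) (hc : 0 < p.coeff e)
    (hi : ∀ᶠ t : ℕ in atTop, ∃ z : ℤ, p.eval (t : ℚ) = z) : 1 ≤ (e.factorial : ℚ) * p.coeff e := by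
  have he : p.natDegree = e := le_antisymm hd (le_natDegree_of_ne_zero hc.ne')
  obtain ⟨n, hn⟩ := eventually_atTop.1 hi
  have h1 := congrFun p.fwdDiff_iter_degree_eq_factorial (n : ℚ)
  rw [fwdDiff_iter_eq_sum_shift, leadingCoeff, he] at h1
  choose! z hz using hn
  have h2 : ((∑ k ∈ range (e + 1), (-1) ^ (e - k) * (e.choose k : ℤ) * z (n + k) : ℤ) : ℚ) =
      e.factorial * p.coeff e := by
    have : (p.coeff e • (e.factorial : ℚ → ℚ)) (n : ℚ) = e.factorial * p.coeff e := by
      simp [mul_comm]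
    rw [← this, ← h1]
    push_cast
    refine Finset.sum_congr rfl fun k _ => ?_
    rw [← hz (n + k) (by omega)]
    simp
  have h3 : (0 : ℚ) < e.factorial * p.coeff e := by positivity
  rw [← h2] at h3 ⊢
  exact_mod_cast h3

/-- A sum of `s` eventually polynomial counting functions, each growing at least like `t ^ e`. -/
lemma key (e s : ℕ) (h : ℕ → ℕ → ℕ) (hp : ∀ j, EvPoly fun t => (h j t : ℚ))
    (low : ∀ j, ∃ k, 0 < k ∧ ∀ t, 0 < t → t ^ e ≤ h j (k * t)) (γ a β : ℚ)
    (up : ∀ᶠ t : ℕ in atTop, ∑ j ∈ range s, (h j t : ℚ) ≤ γ * (a * t + β) ^ e) :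
    (s : ℚ) ≤ e.factorial * (γ * a ^ e) := by
  choose p hp using hp
  set q : ℚ[X] := C γ * (C a * X + C β) ^ e with hq
  have hlin : (C a * X + C β : ℚ[X]).natDegree ≤ 1 := natDegree_linear_le
  have hqd : q.natDegree ≤ e := (natDegree_C_mul_le _ _).trans
    (natDegree_pow_le.trans (by nlinarith))
  have hqc : q.coeff e = γ * a ^ e := by
    have := coeff_pow_of_natDegree_le (m := e) hlin
    rw [mul_one] at this
    rw [hq, coeff_C_mul, this]
    simp
  have hqe : ∀ t : ℚ, q.eval t = γ * (a * t + β) ^ e := fun t => by simp [hq]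
  have hd : ∀ j ∈ range s, (p j).natDegree ≤ e := fun j hj => by
    refine natDegree_le_of_le _ q e hqd ?_
    filter_upwards [hp j, up] with t h1 h2
    rw [← h1, hqe]
    exact ⟨by positivity, (single_le_sum (f := fun j => (h j t : ℚ))
      (fun i _ => by positivity) hj).trans h2⟩
  have hc : ∀ j ∈ range s, 1 ≤ (e.factorial : ℚ) * (p j).coeff e := fun j hj => by
    obtain ⟨k, hk, hl⟩ := low j
    refine one_le_fact_mul _ e (hd j hj) ?_ ((hp j).mono fun t ht => ⟨h j t, by simp [← ht]⟩)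
    have h1 := coeff_nonneg ((p j).comp (C (k : ℚ) * X) - X ^ e) e
      ((natDegree_sub_le _ _).trans (max_le (natDegree_comp_le.trans (by
        have : (C (k : ℚ) * X).natDegree ≤ 1 := (natDegree_C_mul_le _ _).trans natDegree_X_le
        nlinarith [hd j hj])) (by simp))) (by
        have ht : Tendsto (fun t : ℕ => k * t) atTop atTop :=
          tendsto_id.const_mul_atTop' hk
        filter_upwards [ht.eventually (hp j), eventually_gt_atTop 0] with t h1 h2
        have h3 : ((t : ℚ)) ^ e ≤ h j (k * t) := by exact_mod_cast hl t h2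
        simp only [eval_sub, eval_comp, eval_mul, eval_C, eval_X, eval_pow]
        push_cast at h1
        linarith)
    rw [coeff_sub, comp_C_mul_X_coeff, coeff_X_pow_self] at h1
    by_contra hn
    push Not at hn
    have : (0 : ℚ) ≤ (k : ℚ) ^ e := by positivity
    nlinarith
  have h1 := coeff_nonneg (q - ∑ j ∈ range s, p j) e
    ((natDegree_sub_le _ _).trans (max_le hqd (natDegree_sum_le_of_forall_le _ _ hd))) (by
      filter_upwards [(eventually_all_finset (range s)).2 fun j _ => hp j, up] with t h1 h2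
      rw [eval_sub, hqe, eval_finsetSum, ← Finset.sum_congr rfl h1]
      linarith)
  rw [coeff_sub, hqc, finsetSum_coeff] at h1
  have h2 := sum_le_sum hc
  rw [sum_const, card_range, nsmul_eq_mul, mul_one, ← mul_sum] at h2
  have : (0 : ℚ) ≤ e.factorial := by positivity
  nlinarith

end Pool.Agent.Lib.MP_9ff3e7_ag.Cox
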