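import Pool.Agent.Lib.MP_9ff3e7_ag.CoxLow

/-! Supports of semistable points of a hypersurface. -/

set_option linter.unusedSectionVars false

namespace Pool.Agent.Lib.MP_9ff3e7_ag.Cox

open MvPolynomial Finset Finsupp

universe u

variable {σ : Type u} {K : Type*} [AddCommGroup K] [Fintype σ] [DecidableEq σ]

def One (f : MvPolynomial σ ℂ) (I : Finset σ) : Prop :=
  ∃ m ∈ f.support, On I m ∧ ∀ d ∈ f.support, On I d → d = m

lemma eval_monomial_ne {y : σ → ℂ} {I : Finset σ} (hy : ∀ i, y i ≠ 0 ↔ i ∈ I) {d : σ →₀ ℕ} {c : ℂ} :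
    eval y (monomial d c) ≠ 0 ↔ c ≠ 0 ∧ On I d := by
  rw [eval_monomial, mul_ne_zero_iff, Finsupp.prod_fintype _ _ (by simp), Finset.prod_ne_zero_iff]
  refine and_congr_right fun _ => ⟨fun h i hi => ?_, fun h i _ => ?_⟩
  · have h1 : y i = 0 := by
      by_contra h1
      exact hi ((hy i).1 h1)
    simpa [h1] using h i (mem_univ _)
  · by_cases hi : i ∈ I
    · exact pow_ne_zero _ ((hy i).2 hi)
    · simp [h i hi]

lemma exists_on {y : σ → ℂ} {I : Finset σ} (hy : ∀ i, y i ≠ 0 ↔ i ∈ I) {g : MvPolynomial σ ℂ}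
    (h : eval y g ≠ 0) : ∃ d ∈ g.support, On I d := by
  rw [g.as_sum, map_sum] at h
  obtain ⟨d, h1, h2⟩ := Finset.exists_ne_zero_of_sum_ne_zero h
  exact ⟨d, h1, ((eval_monomial_ne hy).1 h2).2⟩

lemma ZP.not_one {f : MvPolynomial σ ℂ} {I : Finset σ} (h : ZP f I) : ¬ One f I := by
  rintro ⟨m, h1, h2, h3⟩
  obtain ⟨y, h4, hy⟩ := h
  rw [f.as_sum, map_sum, Finset.sum_eq_single m (fun d hd hne => by
    by_contra h5
    exact hne (h3 d hd ((eval_monomial_ne hy).1 h5).2)) (fun h => absurd h1 h)] at h4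
  exact (eval_monomial_ne hy).2 ⟨MvPolynomial.mem_support_iff.1 h1, h2⟩ h4

lemma coeff_sbs_zero (I : Finset σ) (f : MvPolynomial σ ℂ) {d : σ →₀ ℕ} (hd : On I d) :
    coeff d (sbs 0 I f) = coeff d f := by
  induction f using MvPolynomial.induction_on' with
  | add p q hp hq => simp [hp, hq]
  | monomial m c =>
    rw [sbs_monomial]
    by_cases hm : On I m
    · have e1 : m.filter (· ∈ I) = m := by
        ext i
        by_cases h : i ∈ I
        · simp [h]
        · simp [h, hm i h]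
      have e2 : cf 0 I m = 1 := Finset.prod_eq_one fun i _ => by
        by_cases h : i ∈ I
        · simp [h]
        · simp [h, hm i h]
      rw [e1, e2, mul_one]
    · have e2 : cf 0 I m = 0 := by
        by_contra h
        exact hm fun i hi => cf_ne_zero.1 h i hi rfl
      have : m ≠ d := by rintro rfl; exact hm hd
      simp [e2, this]

lemma zp_of_not_one {f : MvPolynomial σ ℂ} {I : Finset σ} (h : ¬ One f I) : ZP f I := by
  by_contra hn
  have h1 : (∏ i ∈ I, X i : MvPolynomial σ ℂ) ∈ (Ideal.span {sbs 0 I f}).radical := by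
    rw [← vanishingIdeal_zeroLocus_eq_radical (K := ℂ)]
    intro y hy
    by_contra h2
    rw [map_prod, ← Ne, Finset.prod_ne_zero_iff] at h2
    refine hn ⟨fun i => if i ∈ I then y i else 0, ?_, fun i => ?_⟩
    · have e : (aeval y : MvPolynomial σ ℂ →ₐ[ℂ] ℂ).comp (sbs 0 I) =
          aeval fun i => if i ∈ I then y i else 0 := by
        ext i
        by_cases h : i ∈ I <;> simp [sbs, h]
      have := hy _ (Ideal.mem_span_singleton_self _)
      rw [← AlgHom.comp_apply, e] at this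
      simpa using this
    · by_cases hi : i ∈ I
      · simpa [hi] using h2 i hi
      · simp [hi]
  obtain ⟨n, hn'⟩ := h1
  rw [Ideal.mem_span_singleton] at hn'
  have e : (∏ i ∈ I, X i : MvPolynomial σ ℂ) ^ n =
      monomial (n • ∑ i ∈ I, Finsupp.single i 1) 1 := by
    rw [show (1 : ℂ) = 1 ^ n by simp, ← monomial_pow, monomial_sum_one]
    rfl
  rw [e, dvd_monomial_iff_exists one_ne_zero] at hn'
  obtain ⟨m, b, h2, h3, h4⟩ := hn'
  have hb : b ≠ 0 := by rintro rfl; simp at h3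
  have hm : On I m := fun i hi => by
    have := h2 i
    have e2 : (∑ j ∈ I, Finsupp.single j 1 : σ →₀ ℕ) i = 0 := by
      rw [Finsupp.finsetSum_apply]
      exact Finset.sum_eq_zero fun j hj => Finsupp.single_eq_of_ne (by rintro rfl; exact hi hj)
    rw [Finsupp.smul_apply, e2, smul_zero] at this
    omega
  refine h ⟨m, ?_, hm, fun d hd hd' => ?_⟩
  · rw [MvPolynomial.mem_support_iff, ← coeff_sbs_zero I f hm, h4]
    simpa using hb
  · rw [MvPolynomial.mem_support_iff, ← coeff_sbs_zero I f hd', h4, coeff_monomial] at hd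
    by_contra hne
    simp [Ne.symm hne] at hd

/-- Degree of an integer exponent vector. -/
noncomputable abbrev zw (w : σ → K) : (σ → ℤ) →ₗ[ℤ] K := Fintype.linearCombination ℤ w

def iv (d : σ →₀ ℕ) : σ → ℤ := fun i => d i

lemma zw_iv (w : σ → K) (d : σ →₀ ℕ) : zw w (iv d) = weight w d := by
  simp [Fintype.linearCombination_apply, weight_eq_sum', iv]

def ZOn (I : Finset σ) : Submodule ℤ (σ → ℤ) where
  carrier := {v | ∀ i, i ∉ I → v i = 0}
  zero_mem' := fun _ _ => rfl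
  add_mem' := fun ha hb i hi => by simp [ha i hi, hb i hi]
  smul_mem' := fun c _ ha i hi => by simp [ha i hi]

lemma On.iv {I : Finset σ} {d : σ →₀ ℕ} (h : On I d) : iv d ∈ ZOn I :=
  fun i hi => by simp [Cox.iv, h i hi]

noncomputable def Rel (w : σ → K) (I : Finset σ) : Submodule ℤ (σ → ℤ) :=
  ZOn I ⊓ LinearMap.ker (zw w)

lemma mem_RepM {w : σ → K} {I : Finset σ} {u : σ → ℤ} (h1 : u ∈ ZOn I) (h2 : ∀ i, 0 ≤ u i) :
    zw w u ∈ RepM w I := by
  refine ⟨Finsupp.equivFunOnFinite.symm fun i => (u i).toNat, fun i hi => by simp [h1 i hi], ?_⟩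
  rw [← zw_iv]
  congr 1
  funext i
  simp [iv, h2 i]

def Pt (w : σ → K) (A : K) (I : Finset σ) (u : σ → ℤ) (k : ℕ) : Prop :=
  (∀ i, 0 ≤ u i) ∧ u ∈ ZOn I ∧ zw w u = k • A ∧ 0 < k

lemma ss_iff {w : σ → K} {A : K} {I : Finset σ} : SS w A I ↔ ∃ u k, Pt w A I u k := by
  constructor
  · rintro ⟨k, hk, d, h1, h2⟩
    exact ⟨iv d, k, fun i => Int.natCast_nonneg _, h1.iv, by rw [zw_iv, h2], hk⟩
  · rintro ⟨u, k, h1, h2, h3, h4⟩
    exact ⟨k, h4, by rw [← h3]; exact mem_RepM h2 h1⟩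

lemma Gen.rep {w : σ → K} {I : Finset σ} (h : Gen w I) (g : K) : ∃ n ∈ ZOn I, zw w n = g := by
  have : AddSubgroup.closure (w '' (I : Set σ)) ≤ ((ZOn I).map (zw w)).toAddSubgroup := by
    rw [AddSubgroup.closure_le]
    rintro _ ⟨i, hi, rfl⟩
    exact ⟨Pi.single i 1, fun j hj => Pi.single_eq_of_ne (by rintro rfl; exact hj hi) _,
      by simp [Fintype.linearCombination_apply_single]⟩
  exact this (by rw [h]; trivial)

def sp (u : σ → ℤ) : Finset σ := univ.filter fun i => u i ≠ 0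

lemma mem_sp {u : σ → ℤ} {i : σ} : i ∈ sp u ↔ u i ≠ 0 := by simp [sp]

lemma Pt.sp_sub {w : σ → K} {A : K} {I : Finset σ} {u : σ → ℤ} {k : ℕ} (h : Pt w A I u k) :
    sp u ⊆ I := fun i hi => by
  by_contra h1
  exact mem_sp.1 hi (h.2.1 i h1)

lemma Pt.ss {w : σ → K} {A : K} {I : Finset σ} {u : σ → ℤ} {k : ℕ} (h : Pt w A I u k) :
    SS w A (sp u) :=
  ss_iff.2 ⟨u, k, h.1, fun i hi => by simpa [mem_sp] using hi, h.2.2⟩

lemma big_mul (u v : σ → ℤ) :
    ∃ N : ℕ, 0 < N ∧ ∀ j, 0 < u j → 0 < (N : ℤ) * u j + v j := by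
  refine ⟨∑ j, (v j).natAbs + 1, Nat.succ_pos _, fun j hj => ?_⟩
  have h1 : (v j).natAbs ≤ ∑ j, (v j).natAbs :=
    Finset.single_le_sum (f := fun j => (v j).natAbs) (fun _ _ => Nat.zero_le _) (mem_univ j)
  have h2 : -v j < ((∑ j, (v j).natAbs + 1 : ℕ) : ℤ) := by omega
  nlinarith [Int.natCast_nonneg (∑ j, (v j).natAbs + 1)]

/-- Adding a relation which is nonnegative off the support. -/
lemma Pt.move {w : σ → K} {A : K} {I : Finset σ} {u : σ → ℤ} {k : ℕ} (h : Pt w A I u k)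
    {v : σ → ℤ} (hv : v ∈ Rel w I) (h0 : ∀ j, u j = 0 → 0 ≤ v j) :
    ∃ N : ℕ, 0 < N ∧ Pt w A I ((N : ℤ) • u + v) (N * k) ∧ sp u ⊆ sp ((N : ℤ) • u + v) := by
  obtain ⟨N, hN, h1⟩ := big_mul u v
  refine ⟨N, hN, ⟨fun j => ?_, (ZOn I).add_mem ((ZOn I).smul_mem _ h.2.1) hv.1, ?_,
    Nat.mul_pos hN h.2.2.2⟩, fun j hj => ?_⟩
  · rcases (h.1 j).eq_or_lt with e | e
    · simpa [← e] using h0 j e.symm
    · exact (h1 j e).le
  · rw [map_add, map_smul, h.2.2.1, show zw w v = 0 from hv.2, add_zero, mul_smul, natCast_zsmul]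
  · exact mem_sp.2 (h1 j ((h.1 j).lt_of_ne' (mem_sp.1 hj))).ne'

lemma rel_sub {w : σ → K} {μ : K} {f : MvPolynomial σ ℂ} (hf : f ∈ Sb w μ) {I : Finset σ}
    {p q : σ →₀ ℕ} (hp : p ∈ f.support) (hq : q ∈ f.support) (hp' : On I p) (hq' : On I q) :
    iv p - iv q ∈ Rel w I :=
  ⟨(ZOn I).sub_mem hp'.iv hq'.iv, by
    change zw w _ = 0
    rw [map_sub, zw_iv, zw_iv, hf (MvPolynomial.mem_support_iff.1 hp),
      hf (MvPolynomial.mem_support_iff.1 hq), sub_self]⟩

theorem interior {w : σ → K} {A μ : K} {f : MvPolynomial σ ℂ} (hf : f ∈ Sb w μ)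
    (free : ∀ I, SS w A I → ZP f I → Gen w I) {I : Finset σ} (hS : SS w A I) (hZ : ZP f I) :
    ∃ u k, Pt w A I u k ∧ ∀ i ∈ I, 0 < u i := by
  classical
  obtain ⟨J, hJ, hmax⟩ := Finset.exists_max_image
    (univ.filter fun J : Finset σ => ∃ u k, Pt w A I u k ∧ sp u = J) card (by
      obtain ⟨u, k, h⟩ := ss_iff.1 hS
      exact ⟨sp u, by simpa using ⟨u, ⟨k, h⟩, rfl⟩⟩)
  obtain ⟨u, k, h, rfl⟩ := (mem_filter.1 hJ).2
  refine ⟨u, k, h, fun i hi => (h.1 i).lt_of_ne fun e => ?_⟩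
  have ext : ∀ v ∈ Rel w I, (∀ j, u j = 0 → 0 ≤ v j) → ∀ j, u j = 0 → v j = 0 := by
    intro v hv h0 j hj
    obtain ⟨N, _, h1, h2⟩ := h.move hv h0
    have h3 := eq_of_subset_of_card_le h2 (hmax _ (by simpa using ⟨_, ⟨_, h1⟩, rfl⟩))
    by_contra h4
    have : j ∈ sp ((N : ℤ) • u + v) := mem_sp.2 (by simpa [hj] using h4)
    rw [← h3] at this
    exact mem_sp.1 this hj
  by_cases h1 : One f (sp u)
  · obtain ⟨m, h2, h3, h4⟩ := h1
    refine hZ.not_one ⟨m, h2, h3.mono h.sp_sub, fun d h5 h6 => h4 d h5 fun j hj => ?_⟩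
    have h7 : ∀ j, u j = 0 → m j = 0 := fun j hj => h3 j (by simp [mem_sp, hj])
    have hj' : u j = 0 := by simpa [mem_sp] using hj
    have := ext _ (rel_sub hf h5 h2 h6 (h3.mono h.sp_sub))
      (fun j hj => by simp [iv, h7 j hj]) j hj'
    simpa [iv, h7 j hj'] using this
  · obtain ⟨n, h2, h3⟩ := (free _ h.ss (zp_of_not_one h1)).rep (w i)
    have h7 : ∀ j, u j = 0 → n j = 0 := fun j hj => h2 j (by simp [mem_sp, hj])
    have := ext (Pi.single i 1 - n) ⟨fun j hj => by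
        have : j ≠ i := by rintro rfl; exact hj hi
        simp [this, h7 j (h.2.1 j hj)], by
        change zw w _ = 0
        simp [h3, Fintype.linearCombination_apply_single]⟩
      (fun j hj => by
        rw [Pi.sub_apply, h7 j hj, sub_zero, Pi.single_apply]
        split_ifs <;> simp) i e.symm
    simp [h7 i e.symm] at this

lemma big_of {w : σ → K} {A : K} {I : Finset σ} {u : σ → ℤ} {k : ℕ} (h : Pt w A I u k)
    (hu : ∀ i ∈ I, 0 < u i) (hG : Gen w I) : Big w A I := by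
  refine ⟨k, h.2.2.2, by rw [← h.2.2.1]; exact mem_RepM h.2.1 h.1, fun g => ?_⟩
  obtain ⟨n, h1, rfl⟩ := hG.rep g
  obtain ⟨N, _, h2⟩ := big_mul u n
  refine ⟨N, ?_⟩
  have := mem_RepM (w := w) ((ZOn I).add_mem h1 ((ZOn I).smul_mem (N : ℤ) h.2.1)) fun i => by
    by_cases hi : i ∈ I
    · have := h2 i (hu i hi)
      simp only [Pi.add_apply, Pi.smul_apply, smul_eq_mul]
      omega
    · simp [h1 i hi, h.2.1 i hi]
  rwa [map_add, map_smul, h.2.2.1, natCast_zsmul] at this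

lemma exists_pos {w : σ → K} (hp : ∀ d : σ →₀ ℕ, weight w d = 0 → d = 0) {v : σ → ℤ}
    (h : zw w v = 0) (h0 : v ≠ 0) : ∃ i, 0 < v i := by
  by_contra hn
  push Not at hn
  let d : σ →₀ ℕ := Finsupp.equivFunOnFinite.symm fun i => (-v i).toNat
  have hd : iv d = -v := funext fun i => by simp [iv, d, hn i]
  have h1 := hp d (by rw [← zw_iv, hd, map_neg, h, neg_zero])
  rw [h1] at hd
  exact h0 (neg_eq_zero.1 hd.symm)

section

variable {w : σ → K} (hp : ∀ d : σ →₀ ℕ, weight w d = 0 → d = 0) {A μ : K} {f : MvPolynomial σ ℂ}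
  {I : Finset σ} (hS : SS w A I) (hmin : ∀ J ⊆ I, SS w A J → ZP f J → J = I)

include hp hS hmin

theorem rel_zero (h0 : ∀ d ∈ f.support, ¬ On I d) : ∀ v ∈ Rel w I, v = 0 := by
  intro v hv
  by_contra hne
  obtain ⟨u, k, h⟩ := ss_iff.1 hS
  obtain ⟨i, hi, hm⟩ := Finset.exists_min_image (univ.filter fun i => 0 < v i)
    (fun i => (u i : ℚ) / v i) (by
      obtain ⟨i, hi⟩ := exists_pos hp hv.2 hne
      exact ⟨i, by simpa using hi⟩)
  have hi' : 0 < v i := (mem_filter.1 hi).2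
  have hI : i ∈ I := by
    by_contra h1
    exact hi'.ne' (hv.1 i h1)
  have h1 : Pt w A (I.erase i) (v i • u - u i • v) ((v i).toNat * k) := by
    refine ⟨fun j => ?_, fun j hj => ?_, ?_, Nat.mul_pos (by omega) h.2.2.2⟩
    · simp only [Pi.sub_apply, Pi.smul_apply, smul_eq_mul, sub_nonneg]
      by_cases hj : 0 < v j
      · have := hm j (by simpa using hj)
        rw [div_le_div_iff₀ (by exact_mod_cast hi') (by exact_mod_cast hj)] at this
        rw [mul_comm (v i)]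
        exact_mod_cast this
      · nlinarith [h.1 i, h.1 j]
    · by_cases e : j = i
      · simp [e, mul_comm]
      · have : j ∉ I := fun h => hj (mem_erase.2 ⟨e, h⟩)
        simp [hv.1 j this, h.2.1 j this]
    · rw [map_sub, map_smul, map_smul, h.2.2.1, show zw w v = 0 from hv.2, smul_zero, sub_zero,
        mul_smul, ← natCast_zsmul _ (v i).toNat, Int.toNat_of_nonneg hi'.le]
  have := hmin _ (erase_subset i I) (ss_iff.2 ⟨_, _, h1⟩) (zp_of_not_one fun ⟨m, h2, h3, _⟩ =>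
    h0 m h2 (h3.mono (erase_subset i I)))
  exact notMem_erase i I (by rwa [this])

omit hmin in
lemma exists_minimiser (c : (σ → ℤ) →ₗ[ℤ] ℤ) :
    ∃ u k, Pt w A I u k ∧ ∀ u' k', Pt w A I u' k' → c u * k' ≤ c u' * k := by
  let P : AddSubmonoid ((σ →₀ ℕ) × ℕ) :=
    { carrier := {x | On I x.1 ∧ weight w x.1 = x.2 • A}
      zero_mem' := ⟨on_zero I, by simp⟩
      add_mem' := fun ha hb => ⟨ha.1.add hb.1, by
        simp only [Prod.fst_add, Prod.snd_add, map_add, add_smul, ha.2, hb.2]⟩ }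
  obtain ⟨S, hSP⟩ : P.FG := AddSubmonoid.fg_of_subtractive fun x hx y hxy =>
    ⟨fun i hi => by simpa [hx.1 i hi] using hxy.1 i hi, by
      have := hxy.2
      simp only [Prod.fst_add, Prod.snd_add, map_add, add_smul, hx.2] at this
      exact add_left_cancel this⟩
  have hSP' : ∀ x ∈ S, x ∈ P := fun x hx => hSP ▸ AddSubmonoid.subset_closure hx
  obtain ⟨x, hx, hm⟩ := Finset.exists_min_image (S.filter fun x => 0 < x.2)
    (fun x => (c (iv x.1) : ℚ) / x.2) (by
      by_contra hn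
      obtain ⟨k, hk, d, h1, h2⟩ := hS
      have h3 : (d, k) ∈ AddSubmonoid.closure (S : Set _) := hSP ▸ ⟨h1, h2⟩
      have h4 : ∀ x ∈ AddSubmonoid.closure (S : Set ((σ →₀ ℕ) × ℕ)), x.2 = 0 := fun x hx => by
        induction hx using AddSubmonoid.closure_induction with
        | mem x hx =>
          by_contra h
          exact hn ⟨x, mem_filter.2 ⟨hx, Nat.pos_of_ne_zero h⟩⟩
        | zero => rfl
        | add x y _ _ h1 h2 => simp [h1, h2]
      exact hk.ne' (h4 _ h3))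
  obtain ⟨hx1, hx2⟩ := mem_filter.1 hx
  refine ⟨iv x.1, x.2, ⟨fun i => Int.natCast_nonneg _, (hSP' x hx1).1.iv, by
    rw [zw_iv, (hSP' x hx1).2], hx2⟩, fun u' k' h' => ?_⟩
  have h4 : ∀ z ∈ AddSubmonoid.closure (S : Set ((σ →₀ ℕ) × ℕ)),
      c (iv x.1) * z.2 ≤ c (iv z.1) * x.2 := fun z hz => by
    induction hz using AddSubmonoid.closure_induction with
    | mem z hz =>
      by_cases h : 0 < z.2
      · have := hm z (mem_filter.2 ⟨hz, h⟩)
        rw [div_le_div_iff₀ (by exact_mod_cast hx2) (by exact_mod_cast h)] at this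
        exact_mod_cast this
      · have h5 : z.2 = 0 := by omega
        have h6 : -iv z.1 = 0 := by
          by_contra h6
          obtain ⟨i, hi⟩ := exists_pos hp (w := w) (by
            rw [map_neg, zw_iv, (hSP' z hz).2, h5, zero_smul, neg_zero]) h6
          simp only [Pi.neg_apply, iv] at hi
          omega
        simp [h5, neg_eq_zero.1 h6]
    | zero => simp [show iv (0 : σ →₀ ℕ) = 0 from rfl]
    | add y z _ _ h1 h2 =>
      have : iv (y + z).1 = iv y.1 + iv z.1 := by funext i; simp [iv]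
      rw [this, map_add]
      simp only [Prod.snd_add]
      push_cast
      linarith
  let d : σ →₀ ℕ := Finsupp.equivFunOnFinite.symm fun i => (u' i).toNat
  have hd : iv d = u' := funext fun i => by simp [iv, d, h'.1 i]
  have := h4 (d, k') (hSP ▸ ⟨fun i hi => by simp [d, h'.2.1 i hi], by
    rw [← zw_iv, hd, h'.2.2.1]⟩)
  rwa [hd] at this

lemma no_edge (hf : f ∈ Sb w μ) (c : (σ → ℤ) →ₗ[ℤ] ℤ) {v : σ → ℤ} (hv : v ∈ Rel w I) (hc : c v < 0)
    {p q : σ →₀ ℕ} (hpq : p ≠ q) (h1 : p ∈ f.support) (h2 : q ∈ f.support) (h3 : On I p)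
    (h4 : On I q) (h5 : ∀ m ∈ f.support, On I m → c (iv p) ≤ c (iv m) ∧ c (iv q) ≤ c (iv m)) :
    False := by
  obtain ⟨u, k, h, hm⟩ := exists_minimiser hp hS c
  have hk : (0 : ℤ) < k := by exact_mod_cast h.2.2.2
  have one : ∀ u' k', Pt w A I u' k' → c u' * k ≤ c u * k' → One f (sp u') := by
    intro u' k' h' hle
    by_contra hn
    have e := hmin _ h'.sp_sub h'.ss (zp_of_not_one hn)
    obtain ⟨N, hN, h6, _⟩ := h'.move hv fun j hj => (hv.1 j (by rw [← e]; simp [mem_sp, hj])).ge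
    have h7 := hm _ _ h6
    rw [map_add, map_smul, smul_eq_mul] at h7
    push_cast at h7
    have : (0 : ℤ) < N := by exact_mod_cast hN
    nlinarith
  obtain ⟨m, m1, m2, _⟩ := one u k h le_rfl
  have m3 := m2.mono h.sp_sub
  have m4 : ∀ j, u j = 0 → m j = 0 := fun j hj => m2 j (by simp [mem_sp, hj])
  obtain ⟨N, hN, h6, h7⟩ := h.move ((Rel w I).add_mem (rel_sub hf h1 m1 h3 m3)
    (rel_sub hf h2 m1 h4 m3)) fun j hj => by
      simp only [Pi.add_apply, Pi.sub_apply, iv, m4 j hj]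
      omega
  obtain ⟨m', _, _, h8⟩ := one _ _ h6 (by
    simp only [map_add, map_smul, map_sub, smul_eq_mul]
    push_cast
    nlinarith [h5 m m1 m3])
  have h9 : ∀ j, j ∉ sp ((N : ℤ) • u + (iv p - iv m + (iv q - iv m))) → p j = 0 ∧ q j = 0 := by
    intro j hj
    have e1 : u j = 0 := by
      by_contra e1
      exact hj (h7 (mem_sp.2 e1))
    simp only [mem_sp, ne_eq, not_not, Pi.add_apply, Pi.smul_apply, Pi.sub_apply, iv, e1,
      m4 j e1] at hj
    simp only [smul_zero] at hj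
    omega
  exact hpq ((h8 p h1 fun j hj => (h9 j hj).1).trans (h8 q h2 fun j hj => (h9 j hj).2).symm)

theorem minors (hf : f ∈ Sb w μ) {p q : σ →₀ ℕ} (hpq : p ≠ q) (h1 : p ∈ f.support)
    (h2 : q ∈ f.support) (h3 : On I p) (h4 : On I q) :
    ∀ v ∈ Rel w I, ∀ v' ∈ Rel w I, ∀ i j, v i * v' j = v j * v' i := by
  classical
  intro v hv v' hv' i j
  by_contra hne
  have main : ∀ α β : ℤ, (α ≠ 0 ∨ β ≠ 0) → ∀ p q : σ →₀ ℕ, p ≠ q → p ∈ f.support → q ∈ f.support →
      On I p → On I q → (∀ m ∈ f.support, On I m → α * p i + β * p j ≤ α * m i + β * m j ∧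
        α * q i + β * q j ≤ α * m i + β * m j) → False := by
    intro α β hab p q hpq h1 h2 h3 h4 h5
    let c : (σ → ℤ) →ₗ[ℤ] ℤ := α • LinearMap.proj i + β • LinearMap.proj j
    have hc : ∀ x, c x = α * x i + β * x j := fun _ => rfl
    have h6 : ∃ x ∈ Rel w I, c x ≠ 0 := by
      by_contra hn
      push Not at hn
      have e1 := hn v hv
      have e2 := hn v' hv'
      rw [hc] at e1 e2
      rcases hab with h | h
      · exact hne (mul_left_cancel₀ h (by linear_combination v' j * e1 - v j * e2))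
      · exact hne (mul_left_cancel₀ h (by linear_combination v i * e2 - v' i * e1))
    obtain ⟨x, hx, h7⟩ := h6
    rcases h7.lt_or_gt with h8 | h8
    · exact no_edge hp hS hmin hf c hx h8 hpq h1 h2 h3 h4 h5
    · exact no_edge hp hS hmin hf c ((Rel w I).neg_mem hx) (by simpa using h8) hpq h1 h2 h3 h4 h5
  set T := f.support.filter (On I) with hT
  obtain ⟨r, hr, hm⟩ := Finset.exists_min_image T (fun m => m i) ⟨p, mem_filter.2 ⟨h1, h3⟩⟩
  obtain ⟨hr1, hr2⟩ := mem_filter.1 hr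
  by_cases h5 : ∃ s ∈ T, s ≠ r ∧ s i = r i
  · obtain ⟨s, hs, h6, h7⟩ := h5
    refine main 1 0 (Or.inl one_ne_zero) s r h6 (mem_filter.1 hs).1 hr1 (mem_filter.1 hs).2 hr2
      fun m m1 m2 => ?_
    have := hm m (mem_filter.2 ⟨m1, m2⟩)
    simp only [one_mul, zero_mul, add_zero, h7]
    omega
  push Not at h5
  have h6 : ∀ s ∈ T.erase r, (0 : ℤ) < s i - r i := fun s hs => by
    have := hm s (mem_of_mem_erase hs)
    have := h5 s (mem_of_mem_erase hs) (ne_of_mem_erase hs)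
    omega
  obtain ⟨s, hs, hm'⟩ := Finset.exists_min_image (T.erase r)
    (fun m => (((m j : ℤ) - r j : ℤ) : ℚ) / ((m i : ℤ) - r i : ℤ)) (by
      by_cases e : p = r
      · exact ⟨q, mem_erase.2 ⟨by rw [← e]; exact hpq.symm, mem_filter.2 ⟨h2, h4⟩⟩⟩
      · exact ⟨p, mem_erase.2 ⟨e, mem_filter.2 ⟨h1, h3⟩⟩⟩)
  obtain ⟨hs1, hs2⟩ := mem_filter.1 (mem_of_mem_erase hs)
  refine main (-(s j - r j)) (s i - r i) (Or.inr (h6 s hs).ne') s r (ne_of_mem_erase hs) hs1 hr1
    hs2 hr2 fun m m1 m2 => ?_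
  have h7 : ((s j : ℤ) - r j) * (m i - r i) ≤ (m j - r j) * (s i - r i) := by
    by_cases e : m = r
    · simp [e]
    · have hm2 : m ∈ T.erase r := mem_erase.2 ⟨e, mem_filter.2 ⟨m1, m2⟩⟩
      have := hm' m hm2
      rw [div_le_div_iff₀ (by exact_mod_cast h6 s hs) (by exact_mod_cast h6 m hm2)] at this
      exact_mod_cast this
  constructor <;> nlinarith

end

lemma cyclic {L : Submodule ℤ (σ → ℤ)} (h : ∀ v ∈ L, ∀ v' ∈ L, ∀ i j, v i * v' j = v j * v' i)
    {v₁ : σ → ℤ} (h1 : v₁ ∈ L) (h0 : v₁ ≠ 0) :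
    ∃ v ∈ L, v ≠ 0 ∧ ∀ v' ∈ L, ∃ t : ℤ, v' = t • v := by
  classical
  obtain ⟨l, hl⟩ := Function.ne_iff.1 h0
  have hex : ∃ n : ℕ, 0 < n ∧ ∃ v ∈ L, v l = n := by
    refine ⟨(v₁ l * v₁ l).toNat, ?_, v₁ l • v₁, L.smul_mem _ h1, ?_⟩
    · have := mul_self_pos.2 hl
      omega
    · simp [mul_self_nonneg]
  obtain ⟨hn, v, hv, e⟩ := Nat.find_spec hex
  have hv0 : 0 < v l := by omega
  refine ⟨v, hv, fun h => by simp [h] at hv0, fun v' hv' => ⟨v' l / v l, ?_⟩⟩
  have h2 := L.sub_mem hv' (L.smul_mem (v' l / v l) hv)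
  have h3 : (v' - (v' l / v l) • v) l = v' l % v l := by
    simp [Int.emod_def, mul_comm]
  have h4 := Int.emod_nonneg (v' l) hv0.ne'
  have h5 := Int.emod_lt_of_pos (v' l) hv0
  have h6 : v' l % v l = 0 := by
    by_contra h6
    exact Nat.find_min hex (m := (v' l % v l).toNat) (by omega) ⟨by omega, _, h2, by omega⟩
  refine sub_eq_zero.1 (funext fun i => ?_)
  have := h _ h2 v hv i l
  rw [h3, h6, zero_mul] at this
  exact (mul_eq_zero.1 this).resolve_right hv0.ne'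

end Pool.Agent.Lib.MP_9ff3e7_ag.Cox
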