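import Pool.Agent.Lib.MP_9ff3e7_ag.Three

namespace Pool.Agent.Lib.MP_9ff3e7_ag

open Finset

lemma cyclic {α : Type} (P : (α → ℤ) → Prop) (ψ : (α → ℤ) → ℤ) (h0 : P 0)
    (hP : ∀ z w (k : ℤ), P z → P w → P (z - k • w))
    (hψ : ∀ z w (k : ℤ), ψ (z - k • w) = ψ z - k * ψ w) :
    ∃ w, P w ∧ ∀ z, P z → ∃ k : ℤ, ψ (z - k • w) = 0 := by
  classical
  by_cases h : ∃ n : ℕ, ∃ w, P w ∧ ψ w ≠ 0 ∧ (ψ w).natAbs = n
  · obtain ⟨w, hw, hw0, hn⟩ := Nat.find_spec h
    refine ⟨w, hw, fun z hz => ⟨ψ z / ψ w, ?_⟩⟩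
    by_contra hne
    have h1 := Nat.find_min' h ⟨_, hP z w (ψ z / ψ w) hz hw, hne, rfl⟩
    have h2 : ψ (z - (ψ z / ψ w) • w) = ψ z % ψ w := by rw [hψ, Int.emod_def]; ring
    rw [h2, ← hn] at h1
    have h3 := Int.emod_lt_abs (ψ z) hw0
    have h4 := Int.emod_nonneg (ψ z) hw0
    have h5 : ((ψ w).natAbs : ℤ) ≤ ((ψ z % ψ w).natAbs : ℤ) := by exact_mod_cast h1
    rw [Int.natCast_natAbs, Int.natCast_natAbs, abs_of_nonneg h4] at h5
    linarith
  · push Not at h
    refine ⟨0, h0, fun z hz => ⟨0, ?_⟩⟩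
    by_contra hne
    exact h _ _ (hP z 0 0 hz h0) hne rfl

lemma exists_basis (a : Fin 4 → ℕ) (ha : ∀ i, 0 < a i) {v1 : Fin 4 → ℤ} (h0 : dg a v1 = 0)
    (hv1 : v1 ≠ 0) (hmin : ∀ z, dg a z = 0 ∧ z ≠ 0 → nrm a v1 ≤ nrm a z) {v : Fin 4 → ℤ}
    (hv0 : dg a v = 0) (hv : ∀ k : ℤ, v ≠ k • v1) :
    ∃ v2 v3 : Fin 4 → ℤ, (∀ z, dg a z = 0 → ∃ k1 k2 k3 : ℤ, z = k1 • v1 + k2 • v2 + k3 • v3) ∧
      ∃ k1 k2 : ℤ, v = k1 • v1 + k2 • v2 := by
  have ha0 : (a 0 : ℤ) ≠ 0 := by exact_mod_cast (ha 0).ne'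
  have h0' := h0
  simp only [dg, Fin.sum_univ_four] at h0'
  have par : ∀ z, dg a z = 0 → v1 2 * z 3 - v1 3 * z 2 = 0 → v1 3 * z 1 - v1 1 * z 3 = 0 →
      v1 1 * z 2 - v1 2 * z 1 = 0 → ∃ k : ℤ, z = k • v1 := by
    intro z hz e1 e2 e3
    have hz' := hz
    simp only [dg, Fin.sum_univ_four] at hz'
    by_cases c1 : v1 1 = 0
    · by_cases c2 : v1 2 = 0
      · by_cases c3 : v1 3 = 0
        · exfalso
          apply hv1
          have c0 : v1 0 = 0 := by
            rw [c1, c2, c3] at h0'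
            exact (mul_eq_zero.1 (by linarith : (a 0 : ℤ) * v1 0 = 0)).resolve_left ha0
          funext l
          fin_cases l <;> assumption
        · refine primitive_of_min a ha h0 hv1 hmin z hz (z 3) (v1 3) c3 (funext fun l => ?_)
          fin_cases l <;> simp only [Pi.smul_apply, smul_eq_mul, Fin.zero_eta, Fin.mk_one,
            Fin.reduceFinMk]
          · apply mul_left_cancel₀ ha0
            linear_combination v1 3 * hz' - z 3 * h0' - a 1 * e2 + a 2 * e1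
          · linear_combination e2
          · linear_combination -e1
          · ring
      · refine primitive_of_min a ha h0 hv1 hmin z hz (z 2) (v1 2) c2 (funext fun l => ?_)
        fin_cases l <;> simp only [Pi.smul_apply, smul_eq_mul, Fin.zero_eta, Fin.mk_one,
          Fin.reduceFinMk]
        · apply mul_left_cancel₀ ha0
          linear_combination v1 2 * hz' - z 2 * h0' + a 1 * e3 - a 3 * e1
        · linear_combination -e3
        · ring
        · linear_combination e1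
    · refine primitive_of_min a ha h0 hv1 hmin z hz (z 1) (v1 1) c1 (funext fun l => ?_)
      fin_cases l <;> simp only [Pi.smul_apply, smul_eq_mul, Fin.zero_eta, Fin.mk_one,
        Fin.reduceFinMk]
      · apply mul_left_cancel₀ ha0
        linear_combination v1 1 * hz' - z 1 * h0' - a 2 * e3 + a 3 * e2
      · ring
      · linear_combination e3
      · linear_combination -e2
  set n1 := v1 2 * v 3 - v1 3 * v 2 with hn1
  set n2 := v1 3 * v 1 - v1 1 * v 3 with hn2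
  set n3 := v1 1 * v 2 - v1 2 * v 1 with hn3
  have hn : n1 ^ 2 + n2 ^ 2 + n3 ^ 2 ≠ 0 := by
    intro h
    obtain ⟨k, hk⟩ := par v hv0 (by nlinarith) (by nlinarith) (by nlinarith)
    exact hv k hk
  have hperp : n1 * v1 1 + n2 * v1 2 + n3 * v1 3 = 0 := by rw [hn1, hn2, hn3]; ring
  obtain ⟨v3, h3, H3⟩ := cyclic (fun z : Fin 4 → ℤ => dg a z = 0)
    (fun z => n1 * z 1 + n2 * z 2 + n3 * z 3) (by simp [dg])
    (fun z w k h1 h2 => by rw [dg_sub_smul, h1, h2]; ring)
    (fun z w k => by simp only [Pi.sub_apply, Pi.smul_apply, smul_eq_mul]; ring)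
  obtain ⟨v2, h2, H2⟩ := cyclic
    (fun z : Fin 4 → ℤ => dg a z = 0 ∧ n1 * z 1 + n2 * z 2 + n3 * z 3 = 0)
    (fun z => n1 * (v1 2 * z 3 - v1 3 * z 2) + n2 * (v1 3 * z 1 - v1 1 * z 3) +
      n3 * (v1 1 * z 2 - v1 2 * z 1)) (by simp [dg])
    (fun z w k h1 h2 => ⟨by rw [dg_sub_smul, h1.1, h2.1]; ring, by
      simp only [Pi.sub_apply, Pi.smul_apply, smul_eq_mul]
      linear_combination h1.2 - k * h2.2⟩)
    (fun z w k => by simp only [Pi.sub_apply, Pi.smul_apply, smul_eq_mul]; ring)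
  have two : ∀ z, dg a z = 0 → n1 * z 1 + n2 * z 2 + n3 * z 3 = 0 →
      ∃ k1 k2 : ℤ, z = k1 • v1 + k2 • v2 := by
    intro z hz hz'
    obtain ⟨k2, hk2⟩ := H2 z ⟨hz, hz'⟩
    have e0 : dg a (z - k2 • v2) = 0 := by rw [dg_sub_smul, hz, h2.1]; ring
    have e1 : n1 * (z - k2 • v2) 1 + n2 * (z - k2 • v2) 2 + n3 * (z - k2 • v2) 3 = 0 := by
      simp only [Pi.sub_apply, Pi.smul_apply, smul_eq_mul]
      linear_combination hz' - k2 * h2.2
    generalize hw : z - k2 • v2 = w at hk2 e0 e1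
    obtain ⟨k1, hk1⟩ := par w e0
      (mul_left_cancel₀ hn (by
        linear_combination n1 * hk2 + (n3 * v1 2 - n2 * v1 3) * e1 - (n3 * w 2 - n2 * w 3) * hperp))
      (mul_left_cancel₀ hn (by
        linear_combination n2 * hk2 + (n1 * v1 3 - n3 * v1 1) * e1 - (n1 * w 3 - n3 * w 1) * hperp))
      (mul_left_cancel₀ hn (by
        linear_combination n3 * hk2 + (n2 * v1 1 - n1 * v1 2) * e1 - (n2 * w 1 - n1 * w 2) * hperp))
    exact ⟨k1, k2, by rw [← hk1, ← hw]; abel⟩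
  refine ⟨v2, v3, fun z hz => ?_, two v hv0 (by rw [hn1, hn2, hn3]; ring)⟩
  obtain ⟨k3, hk3⟩ := H3 z hz
  obtain ⟨k1, k2, hk⟩ := two (z - k3 • v3) (by rw [dg_sub_smul, hz, h3]; ring) hk3
  exact ⟨k1, k2, k3, by rw [← hk]; abel⟩

lemma tri_perm (X Y : Fin 4 → ℝ) (σ : Equiv.Perm (Fin 4)) :
    |tri X Y (σ 1) (σ 2) (σ 3)| + |tri X Y (σ 0) (σ 2) (σ 3)| +
      |tri X Y (σ 0) (σ 1) (σ 3)| + |tri X Y (σ 0) (σ 1) (σ 2)| =
    |tri X Y 1 2 3| + |tri X Y 0 2 3| + |tri X Y 0 1 3| + |tri X Y 0 1 2| := by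
  set T : Fin 4 → ℝ := ![|tri X Y 1 2 3|, |tri X Y 0 2 3|, |tri X Y 0 1 3|, |tri X Y 0 1 2|] with hT
  have key : ∀ i j k l : Fin 4, i ≠ j → i ≠ k → i ≠ l → j ≠ k → j ≠ l → k ≠ l →
      |tri X Y j k l| = T i := by
    intro i j k l h1 h2 h3 h4 h5 h6
    fin_cases i <;> fin_cases j <;> fin_cases k <;> fin_cases l <;>
      first
        | exact absurd rfl h1 | exact absurd rfl h2 | exact absurd rfl h3
        | exact absurd rfl h4 | exact absurd rfl h5 | exact absurd rfl h6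
        | rfl
        | (simp only [hT, Fin.zero_eta, Fin.mk_one, Fin.reduceFinMk, Matrix.cons_val]
           rw [← sq_eq_sq_iff_abs_eq_abs]
           unfold tri
           ring)
  have ne : ∀ i j : Fin 4, i ≠ j → σ i ≠ σ j := fun i j h => σ.injective.ne h
  rw [key (σ 0) _ _ _ (ne _ _ (by decide)) (ne _ _ (by decide)) (ne _ _ (by decide))
      (ne _ _ (by decide)) (ne _ _ (by decide)) (ne _ _ (by decide)),
    key (σ 1) (σ 0) _ _ (ne _ _ (by decide)) (ne _ _ (by decide)) (ne _ _ (by decide))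
      (ne _ _ (by decide)) (ne _ _ (by decide)) (ne _ _ (by decide)),
    key (σ 2) (σ 0) _ _ (ne _ _ (by decide)) (ne _ _ (by decide)) (ne _ _ (by decide))
      (ne _ _ (by decide)) (ne _ _ (by decide)) (ne _ _ (by decide)),
    key (σ 3) (σ 0) _ _ (ne _ _ (by decide)) (ne _ _ (by decide)) (ne _ _ (by decide))
      (ne _ _ (by decide)) (ne _ _ (by decide)) (ne _ _ (by decide))]
  have := Equiv.sum_comp σ T
  simp only [Fin.sum_univ_four] at this
  rw [this]
  rfl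

lemma exists_dual (a : Fin 4 → ℕ) (z1 v1 v2 v3 : Fin 4 → ℤ) (hz1 : ∑ l, (a l : ℤ) * z1 l = 1)
    (hb : ∀ z, dg a z = 0 → ∃ k1 k2 k3 : ℤ, z = k1 • v1 + k2 • v2 + k3 • v3) :
    ∃ f1 f2 f3 : Fin 4 → ℤ,
      (∀ j i, v1 j * f1 i + v2 j * f2 i + v3 j * f3 i + z1 j * a i = if j = i then 1 else 0) ∧
      ∑ l, f2 l * v1 l = 0 ∧ ∑ l, f3 l * v1 l = 0 ∧ ∑ l, f2 l * v2 l = 1 ∧ ∑ l, f3 l * v2 l = 0 ∧
      ∑ l, f2 l * v3 l = 0 ∧ ∑ l, f3 l * v3 l = 1 ∧ ∑ l, (a l : ℤ) * v2 l = 0 ∧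
      ∑ l, (a l : ℤ) * v3 l = 0 := by
  have h1 : ∀ i, dg a (Pi.single i 1 - (a i : ℤ) • z1) = 0 := by
    intro i
    rw [dg_sub_smul]
    have : dg a (Pi.single i 1) = a i := by
      unfold dg
      rw [Finset.sum_eq_single i]
      · simp
      · intro l _ hl; simp [hl]
      · simp
    rw [this, dg, hz1]; ring
  choose f1 f2 f3 hf using fun i => hb _ (h1 i)
  have h2 : ∀ j i, v1 j * f1 i + v2 j * f2 i + v3 j * f3 i + z1 j * a i = if j = i then 1 else 0 := by
    intro j i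
    have := congrFun (hf i) j
    simp only [Pi.sub_apply, Pi.add_apply, Pi.smul_apply, smul_eq_mul, Pi.single_apply] at this
    linarith
  let M : Matrix (Fin 4) (Fin 4) ℤ := Matrix.of fun j c => ![v1 j, v2 j, v3 j, z1 j] c
  let N : Matrix (Fin 4) (Fin 4) ℤ := Matrix.of fun c i => ![f1 i, f2 i, f3 i, (a i : ℤ)] c
  have h3 : M * N = 1 := by
    ext j i
    rw [Matrix.mul_apply, Fin.sum_univ_four, Matrix.one_apply]
    exact h2 j i
  have h4 : N * M = 1 := mul_eq_one_comm.1 h3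
  have h5 : ∀ c d, ∑ l, N c l * M l d = if c = d then 1 else 0 := fun c d => by
    rw [← Matrix.mul_apply, h4, Matrix.one_apply]
  exact ⟨f1, f2, f3, h2, h5 1 0, h5 2 0, h5 1 1, h5 2 1, h5 1 2, h5 2 2, h5 3 1, h5 3 2⟩

theorem cert_four (a : Fin 4 → ℕ) (ha : ∀ i, 0 < a i) (hg : ∀ p : ℕ, p.Prime → ∃ i, ¬ p ∣ a i)
    (Sup : ℝ → ℝ → Prop) (mono : ∀ s E E', Sup s E → E' ≤ E → Sup s E')
    (S0 : ∀ s : ℝ, (∀ v, dg a v = 0 → (nrm a v : ℝ) < 2 * s → v = 0) → Sup s (∏ i, (a i : ℝ)))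
    (S1 : ∀ (s : ℝ) v, dg a v = 0 → v ≠ 0 →
      (∀ z, dg a z = 0 → (nrm a z : ℝ) < 2 * s → ∃ k : ℤ, z = k • v) →
      Sup s (2 * (∏ i, (a i : ℝ)) / nrm a v))
    (S2 : ∀ (s : ℝ) (φ : Fin 4 → ℤ) (i j : Fin 4),
      (∀ z, dg a z = 0 → (nrm a z : ℝ) < 2 * s → ∑ l, φ l * z l = 0) →
      (∀ l, (φ l : ℝ) / a l ≤ φ i / a i) → (∀ l, (φ j : ℝ) / a j ≤ φ l / a l) →
      (φ j : ℝ) / a j < φ i / a i → Sup s (1 / ((φ i : ℝ) / a i - φ j / a j)))
    (S3 : ∀ s, Sup s 1)
    (m : ℕ) (hm : ∀ γ : Fin 4 → ℕ, ∑ l, a l * γ l ≠ m) :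
    Cert Sup (m + ∑ i, (a i : ℝ) - 1 / 2 - 3) := by
  obtain ⟨z1, hz1⟩ := exists_bezout (fun i => (a i : ℤ)) fun p hp => by
    obtain ⟨i, hi⟩ := hg p hp
    exact ⟨i, fun h => hi (Int.natCast_dvd_natCast.1 h)⟩
  obtain ⟨u, hu0, hu1, hu3, hu2⟩ := pair_vec a ha (show (0 : Fin 4) ≠ 1 by decide)
  obtain ⟨u', hu0', hu1', hu3', hu2'⟩ := pair_vec a ha (show (2 : Fin 4) ≠ 3 by decide)
  obtain ⟨v1, ⟨hv10, hv1⟩, hmin⟩ := exists_min_nrm a (fun v => dg a v = 0 ∧ v ≠ 0)
    ⟨u, hu0, fun h => hu1 (by simp [h])⟩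
  have ha' : ∀ l, (0 : ℝ) < a l := fun l => by exact_mod_cast ha l
  have ha1 : ∀ l, (1 : ℝ) ≤ a l := fun l => by exact_mod_cast ha l
  have hpair : ∀ i j, i ≠ j → (nrm a v1 : ℝ) ≤ 2 * (a i * a j) := by
    intro i j hij
    obtain ⟨w, hw0, hw1, -, hw2⟩ := pair_vec a ha hij
    have := hmin w ⟨hw0, fun h => hw1 (by simp [h])⟩
    rw [hw2] at this
    exact_mod_cast this
  have hone : (∀ k : ℤ, u ≠ k • v1) ∨ (∀ k : ℤ, u' ≠ k • v1) := by
    by_contra hcon
    push Not at hcon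
    obtain ⟨⟨k, hk⟩, ⟨k', hk'⟩⟩ := hcon
    have e1 := hu3 2 (by decide) (by decide)
    rw [hk] at e1 hu1
    rw [hk'] at hu1'
    simp only [Pi.smul_apply, smul_eq_mul] at e1 hu1 hu1'
    rcases mul_eq_zero.1 e1 with h | h
    · exact hu1 (by rw [h, zero_mul])
    · exact hu1' (by rw [h, mul_zero])
  obtain ⟨v, ⟨hv0, hv⟩, hmin2⟩ := exists_min_nrm a (fun v => dg a v = 0 ∧ ∀ k : ℤ, v ≠ k • v1)
    (hone.elim (fun h => ⟨u, hu0, h⟩) fun h => ⟨u', hu0', h⟩)
  set D : ℝ := ∏ l, (a l : ℝ) with hD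
  have hD' : D = a 0 * a 1 * a 2 * a 3 := by rw [hD, Fin.prod_univ_four]
  have hDpos : 0 < D := Finset.prod_pos fun l _ => ha' l
  set τ : ℝ := (nrm a v1 : ℝ) / 2 with hτ
  have hτ1 : 1 ≤ τ := by
    have : (2 : ℝ) ≤ nrm a v1 := by exact_mod_cast two_le_nrm a ha hv10 hv1
    rw [hτ]; linarith
  have hvne : v ≠ 0 := fun h => hv 0 (by simp [h])
  have hN : (2 : ℝ) ≤ nrm a v := by exact_mod_cast two_le_nrm a ha hv0 hvne
  have hτt : τ * (nrm a v / 2) ≤ D := by
    rcases hone with h | h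
    · have h1 := hmin2 u ⟨hu0, h⟩
      rw [hu2] at h1
      have h2 : (nrm a v : ℝ) ≤ 2 * (a 0 * a 1) := by exact_mod_cast h1
      have h3 := hpair 2 3 (by decide)
      calc τ * (nrm a v / 2) ≤ (a 2 * a 3) * (a 0 * a 1) :=
            mul_le_mul (by rw [hτ]; linarith) (by linarith) (by linarith) (by positivity)
        _ = D := by rw [hD']; ring
    · have h1 := hmin2 u' ⟨hu0', h⟩
      rw [hu2'] at h1
      have h2 : (nrm a v : ℝ) ≤ 2 * (a 2 * a 3) := by exact_mod_cast h1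
      have h3 := hpair 0 1 (by decide)
      calc τ * (nrm a v / 2) ≤ (a 0 * a 1) * (a 2 * a 3) :=
            mul_le_mul (by rw [hτ]; linarith) (by linarith) (by linarith) (by positivity)
        _ = D := by rw [hD']; ring
  obtain ⟨v2, v3, hbas, k1, k2, hk⟩ := exists_basis a ha hv10 hv1 hmin hv0 hv
  obtain ⟨f1, f2, f3, hdec, d21, d31, d22, d32, d23, d33, da2, da3⟩ :=
    exists_dual a z1 v1 v2 v3 hz1 hbas
  have hk2 : k2 ≠ 0 := by
    rintro rfl
    exact hv k1 (by simpa using hk)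
  obtain ⟨i, -, hi⟩ := Finset.exists_max_image univ (fun l => (f3 l : ℝ) / a l) Finset.univ_nonempty
  obtain ⟨j, -, hj⟩ := Finset.exists_min_image univ (fun l => (f3 l : ℝ) / a l) Finset.univ_nonempty
  simp only [Finset.mem_univ, true_imp_iff] at hi hj
  set A := (f3 i : ℝ) / a i with hA
  set B := (f3 j : ℝ) / a j with hB
  have hw0 : 0 < A - B := by
    have h1 := width_bound a ha f3 A B hi hj (v := v3) da3
    rw [d33] at h1
    have h2 : (0 : ℝ) ≤ nrm a v3 := by exact_mod_cast nrm_nonneg a v3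
    by_contra h
    push Not at h
    have := mul_nonpos_of_nonneg_of_nonpos h2 h
    norm_num at h1
    linarith
  have hτw : τ ≤ D * (A - B) := by
    have hij : i ≠ j := by
      rintro rfl
      rw [hA, hB] at hw0
      linarith
    have h1 : (1 : ℝ) ≤ a i * a j * (A - B) := by
      have e : a i * a j * (A - B) = ((f3 i * a j - f3 j * a i : ℤ) : ℝ) := by
        have := (ha' i).ne'; have := (ha' j).ne'
        rw [hA, hB]; push_cast; field_simp
      have h2 : 0 < a i * a j * (A - B) := mul_pos (mul_pos (ha' i) (ha' j)) hw0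
      rw [e] at h2 ⊢
      have : 0 < f3 i * a j - f3 j * a i := by exact_mod_cast h2
      exact_mod_cast this
    obtain ⟨k, l, hkl, e⟩ : ∃ k l : Fin 4, k ≠ l ∧ (a i : ℝ) * a j * (a k * a l) = D := by
      rw [hD']
      clear_value A B
      revert hij
      generalize i = i
      generalize j = j
      intro hij
      fin_cases i <;> fin_cases j <;>
        first
          | exact absurd rfl hij
          | exact ⟨2, 3, by decide, by simp only [Fin.zero_eta, Fin.mk_one]; ring1⟩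
          | exact ⟨1, 3, by decide, by simp only [Fin.zero_eta, Fin.reduceFinMk]; ring1⟩
          | exact ⟨1, 2, by decide, by simp only [Fin.zero_eta, Fin.reduceFinMk]; ring1⟩
          | exact ⟨0, 3, by decide, by simp only [Fin.mk_one, Fin.reduceFinMk]; ring1⟩
          | exact ⟨0, 2, by decide, by simp only [Fin.mk_one, Fin.reduceFinMk]; ring1⟩
          | exact ⟨0, 1, by decide, by simp only [Fin.reduceFinMk]; ring1⟩
    have h2 := hpair k l hkl
    have h3 : 0 < (a k : ℝ) * a l := mul_pos (ha' k) (ha' l)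
    rw [← e, hτ]
    nlinarith
  -- the area of the projected tetrahedron
  set X : Fin 4 → ℝ := fun l => (f2 l : ℝ) / a l with hX
  set Y : Fin 4 → ℝ := fun l => (f3 l : ℝ) / a l with hY
  have harea : 2 * τ ≤ D * (|tri X Y 1 2 3| + |tri X Y 0 2 3| + |tri X Y 0 1 3| + |tri X Y 0 1 2|) := by
    set κ : Fin 4 → ℤ :=
      ![a 1 * (f2 2 * f3 3 - f2 3 * f3 2) - a 2 * (f2 1 * f3 3 - f2 3 * f3 1) +
          a 3 * (f2 1 * f3 2 - f2 2 * f3 1),
        -(a 0 * (f2 2 * f3 3 - f2 3 * f3 2) - a 2 * (f2 0 * f3 3 - f2 3 * f3 0) +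
          a 3 * (f2 0 * f3 2 - f2 2 * f3 0)),
        a 0 * (f2 1 * f3 3 - f2 3 * f3 1) - a 1 * (f2 0 * f3 3 - f2 3 * f3 0) +
          a 3 * (f2 0 * f3 1 - f2 1 * f3 0),
        -(a 0 * (f2 1 * f3 2 - f2 2 * f3 1) - a 1 * (f2 0 * f3 2 - f2 2 * f3 0) +
          a 2 * (f2 0 * f3 1 - f2 1 * f3 0))] with hκ
    have h1 : dg a κ = 0 := by
      simp only [dg, Fin.sum_univ_four, hκ, Matrix.cons_val]; ring
    have h2 : κ ≠ 0 := by
      intro h
      have e0 := congrFun h 0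
      have e1 := congrFun h 1
      have e2 := congrFun h 2
      have e3 := congrFun h 3
      simp only [hκ, Matrix.cons_val, Pi.zero_apply] at e0 e1 e2 e3
      simp only [Fin.sum_univ_four] at hz1 d22 d32 d23 d33 da2 da3
      have bc : ∀ p q : ℤ, p = f2 0 * z1 0 + f2 1 * z1 1 + f2 2 * z1 2 + f2 3 * z1 3 →
          q = f3 0 * z1 0 + f3 1 * z1 1 + f3 2 * z1 2 + f3 3 * z1 3 →
          (1 : ℤ) * (1 * 1 - 0 * 0) - 0 * (p * 1 - 0 * q) + 0 * (p * 0 - 1 * q) = 0 := by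
        intro p q hp hq
        nth_rewrite 1 [← hz1]
        nth_rewrite 1 [← d22]
        nth_rewrite 1 [← d33]
        nth_rewrite 1 [← d23]
        nth_rewrite 1 [← d32]
        nth_rewrite 1 [← da2]
        nth_rewrite 1 [← d33]
        nth_rewrite 1 [← d23]
        nth_rewrite 1 [← da3]
        nth_rewrite 1 [← d32]
        nth_rewrite 1 [← d22]
        rw [hp, hq]
        linear_combination
          (z1 1 * (v2 2 * v3 3 - v2 3 * v3 2) - z1 2 * (v2 1 * v3 3 - v2 3 * v3 1) +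
            z1 3 * (v2 1 * v3 2 - v2 2 * v3 1)) * e0 -
          (z1 0 * (v2 2 * v3 3 - v2 3 * v3 2) - z1 2 * (v2 0 * v3 3 - v2 3 * v3 0) +
            z1 3 * (v2 0 * v3 2 - v2 2 * v3 0)) * e1 +
          (z1 0 * (v2 1 * v3 3 - v2 3 * v3 1) - z1 1 * (v2 0 * v3 3 - v2 3 * v3 0) +
            z1 3 * (v2 0 * v3 1 - v2 1 * v3 0)) * e2 -
          (z1 0 * (v2 1 * v3 2 - v2 2 * v3 1) - z1 1 * (v2 0 * v3 2 - v2 2 * v3 0) +
            z1 2 * (v2 0 * v3 1 - v2 1 * v3 0)) * e3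
      have := bc _ _ rfl rfl
      norm_num at this
    have h3 : (nrm a v1 : ℝ) ≤ nrm a κ := by exact_mod_cast hmin κ ⟨h1, h2⟩
    have h4 : (nrm a κ : ℝ) =
        D * (|tri X Y 1 2 3| + |tri X Y 0 2 3| + |tri X Y 0 1 3| + |tri X Y 0 1 2|) := by
      have q : ∀ (l : Fin 4) (T : ℝ), ((a l : ℝ) * κ l) ^ 2 = (D * T) ^ 2 →
          (a l : ℝ) * |(κ l : ℝ)| = D * |T| := by
        intro l T h
        rw [← abs_of_pos (ha' l), ← abs_of_pos hDpos, ← abs_mul, ← abs_mul]
        exact (sq_eq_sq_iff_abs_eq_abs _ _).1 h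
      have := (ha' 0).ne'; have := (ha' 1).ne'; have := (ha' 2).ne'; have := (ha' 3).ne'
      simp only [nrm, Fin.sum_univ_four]
      push_cast
      rw [q 0 (tri X Y 1 2 3), q 1 (tri X Y 0 2 3), q 2 (tri X Y 0 1 3), q 3 (tri X Y 0 1 2)]
      · ring
      all_goals
        simp only [hκ, Matrix.cons_val, hD', tri, hX, hY]
        push_cast
        field_simp
        ring
    rw [hτ, ← h4]; linarith
  set t := m + ∑ l, (a l : ℝ) - 1 / 2 - τ with ht
  obtain ⟨a2, a3, p2, p3, hsum, hb2, hb3, hb23⟩ : ∃ a2 a3 : ℝ, 0 ≤ a2 ∧ 0 ≤ a3 ∧ t ≤ a2 + a3 ∧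
      a2 ≤ nrm a v / 2 ∧ a3 * (A - B) ≤ 1 ∧ a2 * a3 * τ ≤ D := by
    by_cases ht0 : t ≤ 0
    · exact ⟨0, 0, le_rfl, le_rfl, by linarith, by linarith, by linarith, by linarith⟩
    push Not at ht0
    have hS : 0 < ∑ l, (a l : ℝ) := Finset.sum_pos (fun l _ => ha' l) Finset.univ_nonempty
    set η := 1 / (2 * ∑ l, (a l : ℝ)) with hη
    have hη0 : 0 < η := by positivity
    set o : Fin 4 → ℝ := fun l => ((max (-v1 l) 0 : ℤ) : ℝ) - 1 + η with ho
    obtain ⟨b2, b3, p2, p3, hs, c1, c2, c3⟩ := planar (fun l => t * X l) (fun l => t * Y l)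
      (-∑ l, (f2 l : ℝ) * o l) (-∑ l, (f3 l : ℝ) * o l) (t ^ 2 * (2 * τ / D)) (fun σ => by
        rw [tri_perm]
        have e : ∀ i j k, |tri (fun l => t * X l) (fun l => t * Y l) i j k| = t ^ 2 * |tri X Y i j k| := by
          intro i j k
          rw [← abs_of_nonneg (sq_nonneg t), ← abs_mul]
          congr 1; unfold tri; ring
        rw [e, e, e, e, ← mul_add, ← mul_add, ← mul_add]
        refine mul_le_mul_of_nonneg_left ?_ (sq_nonneg t)
        rw [div_le_iff₀ hDpos]; linarith) (by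
        intro l hl hl1 n2 n3 e2 e3
        set r : Fin 4 → ℝ := fun j => o j + l j * t / a j with hr
        have n0 := (ha' 0).ne'; have n1 := (ha' 1).ne'; have n2' := (ha' 2).ne'; have n3' := (ha' 3).ne'
        have r1 : ∑ j, (a j : ℝ) * r j = m := by
          have h5 : (2 : ℝ) * ∑ l, (a l : ℝ) * ((max (-v1 l) 0 : ℤ) : ℝ) = nrm a v1 := by
            exact_mod_cast sum_neg_part a hv10
          have h6 : η * ∑ l, (a l : ℝ) = 1 / 2 := by rw [hη]; field_simp
          have h7 : ∑ j, (a j : ℝ) * r j = ∑ j, (a j : ℝ) * o j + t * ∑ j, l j := by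
            simp only [hr, Fin.sum_univ_four]; field_simp; ring
          rw [h7, hl1]
          simp only [ho, Fin.sum_univ_four] at h5 h6 ht ⊢
          rw [ht, hτ]; linarith
        have r2 : ∑ j, (f2 j : ℝ) * r j = n2 := by
          have h7 : ∑ j, (f2 j : ℝ) * r j = ∑ j, (f2 j : ℝ) * o j + ∑ j, l j * (t * X j) := by
            simp only [hr, hX, Fin.sum_univ_four]; ring
          rw [h7, e2]; ring
        have r3 : ∑ j, (f3 j : ℝ) * r j = n3 := by
          have h7 : ∑ j, (f3 j : ℝ) * r j = ∑ j, (f3 j : ℝ) * o j + ∑ j, l j * (t * Y j) := by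
            simp only [hr, hY, Fin.sum_univ_four]; ring
          rw [h7, e3]; ring
        obtain ⟨γ, hγ⟩ := round_along a v1 (fun j => m * z1 j + n2 * v2 j + n3 * v3 j) hv10 m (by
            simp only [dg, Fin.sum_univ_four] at hz1 da2 da3 ⊢
            linear_combination (m : ℤ) * hz1 + n2 * da2 + n3 * da3) (∑ j, (f1 j : ℝ) * r j) (by
          intro j
          have h1 : ((max (-v1 j) 0 : ℤ) : ℝ) - 1 < r j := by
            have := div_nonneg (mul_nonneg (hl j) ht0.le) (ha' j).le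
            simp only [hr, ho]; linarith
          refine h1.trans_eq ?_
          have h2 : r j = ∑ i, ((if j = i then 1 else 0 : ℤ) : ℝ) * r i := by simp
          rw [h2]
          simp only [← hdec]
          push_cast
          rw [← r1, ← r2, ← r3]
          simp only [Fin.sum_univ_four]; ring)
        exact hm γ hγ)
    refine ⟨t * b2, t * b3, by positivity, by positivity, by rw [← mul_add, hs, mul_one], ?_, ?_, ?_⟩
    · obtain ⟨w, hw0', hwN, hw3, hw2⟩ : ∃ w : Fin 4 → ℤ, dg a w = 0 ∧ nrm a w = nrm a v ∧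
          ∑ l, f3 l * w l = 0 ∧ 1 ≤ ∑ l, f2 l * w l := by
        have e3 : ∑ l, f3 l * v l = 0 := by
          rw [hk]
          simp only [Fin.sum_univ_four, Pi.add_apply, Pi.smul_apply, smul_eq_mul] at d31 d32 ⊢
          linear_combination k1 * d31 + k2 * d32
        have e2 : ∑ l, f2 l * v l = k2 := by
          rw [hk]
          simp only [Fin.sum_univ_four, Pi.add_apply, Pi.smul_apply, smul_eq_mul] at d21 d22 ⊢
          linear_combination k1 * d21 + k2 * d22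
        rcases lt_or_gt_of_ne hk2 with h | h
        · refine ⟨(-1 : ℤ) • v, ?_, by rw [nrm_smul]; simp, ?_, ?_⟩
          · simp only [dg, Fin.sum_univ_four, Pi.smul_apply, smul_eq_mul] at hv0 ⊢; linarith
          · simp only [Fin.sum_univ_four, Pi.smul_apply, smul_eq_mul] at e3 ⊢; linarith
          · simp only [Fin.sum_univ_four, Pi.smul_apply, smul_eq_mul] at e2 ⊢; linarith
        · exact ⟨v, hv0, rfl, e3, by omega⟩
      set N : ℝ := ((nrm a v : ℤ) : ℝ) with hNdef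
      have hN0 : 0 < N := by linarith
      have s1 : (2 : ℝ) * ∑ l, (a l : ℝ) * max (-(w l : ℝ)) 0 = N := by
        rw [hNdef, ← hwN]; exact_mod_cast sum_neg_part a hw0'
      have s0 : ∑ l, (a l : ℝ) * w l = 0 := by
        have : ((dg a w : ℤ) : ℝ) = 0 := by exact_mod_cast hw0'
        simpa [dg] using this
      have s3 : ∑ l, (f3 l : ℝ) * w l = 0 := by exact_mod_cast hw3
      have s2 : (1 : ℝ) ≤ ∑ l, (f2 l : ℝ) * w l := by exact_mod_cast hw2
      have n0 := (ha' 0).ne'; have n1 := (ha' 1).ne'; have n2' := (ha' 2).ne'; have n3' := (ha' 3).ne'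
      have h1 := c1 (fun l => 2 * (a l * (max (-(w l : ℝ)) 0 + w l)) / N)
        (fun l => 2 * (a l * max (-(w l : ℝ)) 0) / N)
        (fun l => div_nonneg (mul_nonneg zero_le_two (mul_nonneg (ha' l).le (by
          have := le_max_left (-(w l : ℝ)) 0; linarith))) hN0.le)
        (by simp only [Fin.sum_univ_four] at s1 s0 ⊢; field_simp; linarith)
        (fun l => div_nonneg (mul_nonneg zero_le_two (mul_nonneg (ha' l).le (le_max_right _ _))) hN0.le)
        (by simp only [Fin.sum_univ_four] at s1 ⊢; field_simp; linarith)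
        (by simp only [Fin.sum_univ_four, hY] at s3 ⊢; field_simp; linear_combination s3)
      have h2 : ∑ l, 2 * (a l * (max (-(w l : ℝ)) 0 + w l)) / N * (t * X l) -
          ∑ l, 2 * (a l * max (-(w l : ℝ)) 0) / N * (t * X l) = 2 * t / N * ∑ l, (f2 l : ℝ) * w l := by
        simp only [Fin.sum_univ_four, hX]; field_simp; ring
      rw [h2] at h1
      have h3 : b2 * (2 * t / N) ≤ 1 :=
        le_trans (mul_le_mul_of_nonneg_left (le_mul_of_one_le_right (by positivity) s2) p2) h1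
      rw [← mul_div_assoc, div_le_one hN0] at h3
      linarith
    · have := c2 i j
      simp only [hY] at this
      rw [hA, hB]; linarith
    · rw [← mul_div_assoc, ← mul_div_assoc, div_le_iff₀ hDpos] at c3
      nlinarith
  have hb3' : a3 ≤ 1 / (A - B) := by rw [le_div_iff₀ hw0]; exact hb3
  have hτ0 : 0 < τ := by linarith
  have hprod : τ * max a2 1 * max a3 1 ≤ D := by
    rcases le_total a2 1 with h | h <;> rcases le_total a3 1 with h' | h'
    · rw [max_eq_right h, max_eq_right h']; nlinarith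
    · rw [max_eq_right h, max_eq_left h']
      have := mul_le_mul_of_nonneg_right hτw p3
      nlinarith
    · rw [max_eq_left h, max_eq_right h']
      have := mul_le_mul_of_nonneg_left hb2 hτ0.le
      linarith
    · rw [max_eq_left h, max_eq_left h']; linarith
  have m2 := le_max_right a2 1
  have m3 := le_max_right a3 1
  have hite : ∀ s b : ℝ, 1 ≤ b → (if s ≤ b then b else 1) ≤ b ∧ 0 ≤ (if s ≤ b then b else 1) := by
    intro s b hb
    split_ifs <;> constructor <;> linarith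
  refine cert3 Sup τ (max a2 1) (max a3 1) _ hτ1 m2 m3 ?_ ?_
  · intro s hs
    obtain ⟨i2, j2⟩ := hite s _ m2
    obtain ⟨i3, j3⟩ := hite s _ m3
    by_cases h1 : s ≤ τ
    · refine mono s _ _ (S0 s fun z hz hz' => ?_) ?_
      · by_contra h
        have : (nrm a v1 : ℝ) ≤ nrm a z := by exact_mod_cast hmin z ⟨hz, h⟩
        rw [hτ] at h1; linarith
      · rw [if_pos h1]
        exact le_trans (mul_le_mul (mul_le_mul_of_nonneg_left i2 hτ0.le) i3 j3 (by positivity)) hprod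
    rw [if_neg h1, one_mul]
    by_cases h2 : s ≤ max a2 1
    · have h3 : s ≤ a2 := (le_max_iff.1 h2).resolve_right (by linarith)
      refine mono s _ _ (S1 s v1 hv10 hv1 fun z hz hz' => ?_) ?_
      · by_contra h
        push Not at h
        have : (nrm a v : ℝ) ≤ nrm a z := by exact_mod_cast hmin2 z ⟨hz, h⟩
        linarith
      · have e : 2 * D / nrm a v1 = D / τ := by rw [hτ]; field_simp
        rw [e, le_div_iff₀ hτ0]
        have := mul_le_mul i2 i3 j3 (by linarith)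
        nlinarith
    rw [if_neg h2, one_mul]
    split_ifs with h3
    · have h4 : s ≤ a3 := (le_max_iff.1 h3).resolve_right (by linarith)
      refine mono s _ _ (S2 s f3 i j (fun z hz hz' => ?_) hi hj (by linarith)) ?_
      · have h5 := width_bound a ha f3 A B hi hj hz
        have h6 : |((∑ l, f3 l * z l : ℤ) : ℝ)| < 1 := by nlinarith
        have h7 : |∑ l, f3 l * z l| < 1 := by exact_mod_cast h6
        exact Int.abs_lt_one_iff.1 h7
      · rw [max_eq_left (by linarith)]; exact hb3'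
    · exact S3 s
  · have := le_max_left a2 1
    have := le_max_left a3 1
    linarith

end Pool.Agent.Lib.MP_9ff3e7_ag
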