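import Pool.Agent.Lib.MP_9ff3e7_ag.GRun

namespace Pool.Agent.Lib.MP_9ff3e7_ag.G

open Finset

set_option linter.unusedSectionVars false

variable {ι : Type} [Fintype ι] {a : ι → ℕ} {r : ℕ} {b : ℕ → ι → ℝ} {lam β : ℕ → ℝ} {R : ℝ}

/-- A bound for the number of staircases supported on the indices from `k` on. -/
def Bnd (a : ι → ℕ) (r : ℕ) (b : ℕ → ι → ℝ) (β : ℕ → ℝ) (R : ℝ) (k : ℕ) (w : ℝ) : Prop :=
  ∃ (κ : Finset ℕ) (c : ℝ), κ ⊆ Ico k r ∧ 0 ≤ c ∧ ∀ t τ : ℝ, 0 ≤ t → 0 ≤ τ → ∀ A : Finset (ℕ → ℕ),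
    (∀ x ∈ A, ∀ l, l ∉ Ico k r → x l = 0) → (∀ x ∈ A, S a r b t fun l => (x l : ℝ)) →
    (∀ x ∈ A, ∑ l ∈ κ, β l * x l ≤ τ) →
    (A.card : ℝ) ≤ Real.exp (-w) * ((τ + c) ^ κ.card / κ.card.factorial) *
      ((t + c) / R) ^ (r - k - κ.card)

lemma Bnd.base : Bnd a r b β R r 0 := by
  refine ⟨∅, 0, empty_subset _, le_rfl, fun t τ _ _ A h1 _ _ => ?_⟩
  have : A.card ≤ 1 := card_le_one.2 fun x hx y hy => funext fun l => by
    rw [h1 x hx l (by simp), h1 y hy l (by simp)]
  simpa using this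

lemma telescope (ρ : ℕ) (β : ℝ) (N : ℕ) : ∀ y : ℝ, 0 ≤ y + β → (∀ n < N, 0 ≤ y - n * β) →
    (ρ + 1) * β * ∑ n ∈ range N, (y - n * β) ^ ρ ≤ (y + β) ^ (ρ + 1) := by
  induction N with
  | zero => intro y h _; simpa using pow_nonneg h _
  | succ N ih =>
    intro y _ h
    have hy : 0 ≤ y := by simpa using h 0 (by omega)
    have h1 := ih (y - β) (by linarith) fun n hn => by
      have := h (n + 1) (by omega)
      push_cast at this; linarith
    have h2 := pow_add_mul_le_add_pow hy (show 0 ≤ 2 * y + β by linarith) (ρ + 1)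
    rw [sum_range_succ', mul_add]
    rw [sum_congr rfl (g := fun n : ℕ => (y - β - n * β) ^ ρ) fun n _ => by push_cast; ring_nf]
    simp only [sub_add_cancel, add_tsub_cancel_right, Nat.cast_zero, zero_mul, sub_zero] at h1 h2 ⊢
    push_cast at h2
    linarith

lemma Bnd.keep (hR : 0 < R) (hβ0 : ∀ l, 0 ≤ β l) {k : ℕ} (hk : k < r) (hβ : 0 < β k) {w : ℝ}
    (h : Bnd a r b β R (k + 1) w) : Bnd a r b β R k (w + Real.log (β k)) := by
  classical
  obtain ⟨κ, c, hκ, hc, h⟩ := h
  have hkκ : k ∉ κ := fun h => by have := mem_Ico.1 (hκ h); omega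
  refine ⟨insert k κ, c + β k, ?_, by linarith, fun t τ ht hτ A h1 h2 h3 => ?_⟩
  · intro l hl
    rcases mem_insert.1 hl with rfl | hl
    · exact mem_Ico.2 ⟨le_rfl, hk⟩
    · have := mem_Ico.1 (hκ hl)
      exact mem_Ico.2 ⟨by omega, this.2⟩
  simp only [sum_insert hkκ] at h3
  have hN : ∀ n < ⌊τ / β k⌋₊ + 1, 0 ≤ τ - n * β k := fun n hn => by
    have h4 : (n : ℝ) ≤ ⌊τ / β k⌋₊ := by exact_mod_cast Nat.lt_succ_iff.1 hn
    have h5 := h4.trans (Nat.floor_le (div_nonneg hτ hβ.le))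
    rw [le_div_iff₀ hβ] at h5
    linarith
  have e1 := card_eq_sum_card_fiberwise (s := A) (t := range (⌊τ / β k⌋₊ + 1)) (f := fun x => x k)
    (fun x hx => by
      have h4 := h3 x hx
      have h5 : 0 ≤ ∑ l ∈ κ, β l * x l := sum_nonneg fun l _ => mul_nonneg (hβ0 l) (Nat.cast_nonneg _)
      have h6 : (x k : ℝ) ≤ τ / β k := by rw [le_div_iff₀ hβ]; linarith
      simpa [Nat.lt_succ_iff] using Nat.le_floor h6)
  have e2 : ∀ n ∈ range (⌊τ / β k⌋₊ + 1), ((A.filter fun x => x k = n).card : ℝ) ≤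
      Real.exp (-w) * ((τ + c - n * β k) ^ κ.card / κ.card.factorial) *
        ((t + c) / R) ^ (r - (k + 1) - κ.card) := by
    intro n hn
    have := h t (τ - n * β k) ht (hN n (mem_range.1 hn))
      ((A.filter fun x => x k = n).image fun x => Function.update x k 0) (by
        simp only [mem_image, mem_filter]
        rintro _ ⟨x, hx, rfl⟩ l hl
        by_cases e : l = k
        · simp [e]
        · rw [Function.update_of_ne e]
          exact h1 x hx.1 l (by simp only [mem_Ico] at hl ⊢; omega)) (by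
        simp only [mem_image, mem_filter]
        rintro _ ⟨x, hx, rfl⟩
        refine (h2 x hx.1).down fun l _ => ⟨Nat.cast_nonneg _, ?_⟩
        by_cases e : l = k
        · simp [e]
        · rw [Function.update_of_ne e]) (by
        simp only [mem_image, mem_filter]
        rintro _ ⟨x, hx, rfl⟩
        have h4 := h3 x hx.1
        rw [hx.2] at h4
        rw [sum_congr rfl (g := fun l => β l * x l) fun l hl => by
          rw [Function.update_of_ne (by rintro rfl; exact hkκ hl)]]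
        linarith)
    rw [card_image_of_injOn (fun x hx y hy e => by
      have hx' := mem_filter.1 (mem_coe.1 hx)
      have hy' := mem_filter.1 (mem_coe.1 hy)
      funext l
      by_cases e1 : l = k
      · rw [e1, hx'.2, hy'.2]
      · simpa [Function.update_of_ne e1] using congrFun e l)] at this
    rwa [show τ - n * β k + c = τ + c - n * β k by ring] at this
  have e3 := telescope κ.card (β k) (⌊τ / β k⌋₊ + 1) (τ + c) (by linarith)
    fun n hn => by linarith [hN n hn]
  rw [e1, Nat.cast_sum, card_insert_of_notMem hkκ]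
  refine (sum_le_sum e2).trans ?_
  rw [← sum_mul, ← mul_sum, ← sum_div, show r - k - (κ.card + 1) = r - (k + 1) - κ.card by omega]
  refine mul_le_mul ?_ (pow_le_pow_left₀ (by positivity) (by gcongr; linarith) _) (by positivity)
    (by positivity)
  rw [neg_add, Real.exp_add, Real.exp_neg (Real.log _), Real.exp_log hβ, mul_assoc]
  refine mul_le_mul_of_nonneg_left ?_ (by positivity)
  rw [Nat.factorial_succ, ← add_assoc, ← mul_div_assoc, div_le_div_iff₀ (by positivity) (by positivity),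
    mul_assoc, le_inv_mul_iff₀ hβ]
  push_cast
  have := mul_le_mul_of_nonneg_right e3 (show (0 : ℝ) ≤ κ.card.factorial by positivity)
  linarith

lemma Bnd.block (hR : 0 < R) {k j : ℕ} (hk : k + j ≤ r) {w ω c0 : ℝ} (hc0 : 0 ≤ c0)
    (hb : ∀ t : ℝ, 0 ≤ t → ∀ A : Finset (ℕ → ℕ), (∀ x ∈ A, ∀ l, l ∉ Ico k (k + j) → x l = 0) →
      (∀ x ∈ A, S a r b t fun l => (x l : ℝ)) → (A.card : ℝ) ≤ Real.exp (-ω) * ((t + c0) / R) ^ j)
    (h : Bnd a r b β R (k + j) w) : Bnd a r b β R k (w + ω) := by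
  classical
  obtain ⟨κ, c, hκ, hc, h⟩ := h
  refine ⟨κ, c + c0, hκ.trans (Ico_subset_Ico (by omega) le_rfl), by linarith,
    fun t τ ht hτ A h1 h2 h3 => ?_⟩
  let f1 : (ℕ → ℕ) → ℕ → ℕ := fun x l => if l < k + j then x l else 0
  let f2 : (ℕ → ℕ) → ℕ → ℕ := fun x l => if l < k + j then 0 else x l
  have g1 := hb t ht (A.image f1) (by
      simp only [mem_image]
      rintro _ ⟨x, hx, rfl⟩ l hl
      simp only [f1]
      split_ifs with e
      · exact h1 x hx l (by simp only [mem_Ico] at hl ⊢; omega)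
      · rfl) (by
      simp only [mem_image]
      rintro _ ⟨x, hx, rfl⟩
      refine (h2 x hx).down fun l _ => ⟨Nat.cast_nonneg _, ?_⟩
      simp only [f1]
      split_ifs <;> simp)
  have g2 := h t τ ht hτ (A.image f2) (by
      simp only [mem_image]
      rintro _ ⟨x, hx, rfl⟩ l hl
      simp only [f2]
      split_ifs with e
      · rfl
      · exact h1 x hx l (by simp only [mem_Ico] at hl ⊢; omega)) (by
      simp only [mem_image]
      rintro _ ⟨x, hx, rfl⟩
      refine (h2 x hx).down fun l _ => ⟨Nat.cast_nonneg _, ?_⟩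
      simp only [f2]
      split_ifs <;> simp) (by
      simp only [mem_image]
      rintro _ ⟨x, hx, rfl⟩
      refine le_trans (le_of_eq (sum_congr rfl fun l hl => ?_)) (h3 x hx)
      have := mem_Ico.1 (hκ hl)
      simp only [f2]
      rw [if_neg (by omega)])
  have g3 := card_le_card_of_injOn (s := A) (t := A.image f1 ×ˢ A.image f2) (fun x => (f1 x, f2 x))
    (fun x hx => mem_coe.2 (mem_product.2 ⟨mem_image_of_mem _ hx, mem_image_of_mem _ hx⟩))
    (fun x _ y _ e => funext fun l => by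
      have e1 := congrFun (congrArg Prod.fst e) l
      have e2 := congrFun (congrArg Prod.snd e) l
      simp only [f1, f2] at e1 e2
      split_ifs at e1 e2
      exacts [e1, e2])
  rw [card_product] at g3
  have g4 : (A.card : ℝ) ≤ (A.image f1).card * (A.image f2).card := by exact_mod_cast g3
  have g5 : κ.card ≤ r - (k + j) := by simpa using card_le_card hκ
  refine g4.trans ((mul_le_mul g1 g2 (by positivity) (by positivity)).trans ?_)
  rw [show r - k - κ.card = j + (r - (k + j) - κ.card) by omega, pow_add, neg_add, Real.exp_add]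
  have g6 : ((t + c0) / R) ^ j ≤ ((t + (c + c0)) / R) ^ j := by gcongr; linarith
  have g7 : ((t + c) / R) ^ (r - (k + j) - κ.card) ≤ ((t + (c + c0)) / R) ^ (r - (k + j) - κ.card) := by
    gcongr; linarith
  have g8 : (τ + c) ^ κ.card / κ.card.factorial ≤ (τ + (c + c0)) ^ κ.card / κ.card.factorial := by
    gcongr; linarith
  calc _ = Real.exp (-w) * Real.exp (-ω) * ((τ + c) ^ κ.card / κ.card.factorial) *
        (((t + c0) / R) ^ j * ((t + c) / R) ^ (r - (k + j) - κ.card)) := by ring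
    _ ≤ _ := by gcongr

lemma Bnd.run (hR : 0 < R) (ha : ∀ i, 0 < a i) (hA : 0 < ∑ i, (a i : ℝ)) (hK : KZ a r b lam)
    {i j : ℕ} (hj : i + 1 + j ≤ r) {z : ℝ} (hz : 0 < z) (hz' : z ≤ lam i) {w : ℝ}
    (h : Bnd a r b β R (i + 1 + j) w) :
    Bnd a r b β R (i + 1) (w + (j * Real.log (z / R) - Real.log (j + 1))) := by
  have hc : 0 ≤ ∑ l ∈ range r, lam l := sum_nonneg fun l hl => (hK.pos ha (mem_range.1 hl)).le
  refine h.block hR hj hc fun t ht A h1 h2 => ?_
  refine (run_count ha hA hK i j (by omega) t ht A (by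
    rwa [show i + (j + 1) = i + 1 + j by omega]) h2).trans ?_
  rw [neg_sub, Real.exp_sub, Real.exp_log (by positivity), Real.exp_nat_mul,
    Real.exp_log (div_pos hz hR), div_mul_eq_mul_div, mul_div_assoc, ← div_pow,
    div_div_div_cancel_right₀ hR.ne']
  have := hz.trans_le hz'
  gcongr

lemma Bnd.one (hR : 0 < R) (ha : ∀ i, 0 < a i) (hK : KZ a r b lam)
    {i : ℕ} (hi : i < r) (hz : R ≤ lam i) {w : ℝ}
    (h : Bnd a r b β R (i + 1) w) : Bnd a r b β R i w := by
  have hc : 0 ≤ ∑ l ∈ range r, lam l := sum_nonneg fun l hl => (hK.pos ha (mem_range.1 hl)).le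
  have := h.block (ω := 0) hR hi hc fun t ht A h1 h2 => by
    refine (one_count ha hK i hi t ht A h1 h2).trans ?_
    simp only [neg_zero, Real.exp_zero, one_mul, pow_one]
    gcongr
  simpa using this

lemma Bnd.final (hβ0 : ∀ l, 0 ≤ β l) (hR : 0 < R) (hrR : (r : ℝ) ≤ R)
    (hβ : ∀ t x, (∀ l, 0 ≤ x l) → S a r b t x → ∑ l ∈ range r, β l * x l ≤ t) {k : ℕ} {w : ℝ}
    (h : Bnd a r b β R k w) : ∃ c : ℝ, 0 ≤ c ∧ ∀ t : ℝ, 0 ≤ t → ∀ A : Finset (ℕ → ℕ),
      (∀ x ∈ A, ∀ l, l ∉ Ico k r → x l = 0) → (∀ x ∈ A, S a r b t fun l => (x l : ℝ)) →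
      (A.card : ℝ) ≤ Real.exp (-w) * ((t + c) ^ (r - k) / (r - k).factorial) := by
  obtain ⟨κ, c, hκ, hc, h⟩ := h
  refine ⟨c, hc, fun t ht A h1 h2 => (h t t ht ht A h1 h2 fun x hx => ?_).trans ?_⟩
  · refine le_trans (sum_le_sum_of_subset_of_nonneg (fun l hl => mem_range.2 (mem_Ico.1 (hκ hl)).2)
      fun l _ _ => mul_nonneg (hβ0 l) (Nat.cast_nonneg _)) (hβ t _ (fun _ => Nat.cast_nonneg _) (h2 x hx))
  have g5 : κ.card ≤ r - k := by simpa using card_le_card hκ
  rw [mul_assoc]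
  refine mul_le_mul_of_nonneg_left ?_ (by positivity)
  set n := r - k with hn
  set g := n - κ.card with hh
  have e1 := Nat.factorial_mul_descFactorial (show g ≤ n by omega)
  rw [show n - g = κ.card by omega] at e1
  have e2 : (n.descFactorial g : ℝ) ≤ R ^ g := by
    have e3 : (n.descFactorial g : ℝ) ≤ (n : ℝ) ^ g := by exact_mod_cast Nat.descFactorial_le_pow n g
    have e4 : (n : ℝ) ≤ r := by exact_mod_cast Nat.sub_le r k
    exact e3.trans (pow_le_pow_left₀ (by positivity) (e4.trans hrR) _)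
  rw [div_pow, div_mul_div_comm, ← pow_add, show κ.card + g = n by omega]
  refine div_le_div_of_nonneg_left (by positivity) (by positivity) ?_
  rw [← e1]
  push_cast
  gcongr

end Pool.Agent.Lib.MP_9ff3e7_ag.G
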