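import Mathlib

namespace Pool.Agent.Lib.MP_9ff3e7_ag

open MvPolynomial Finset

/-- The prime ideal generated by the variables in `T`. -/
noncomputable def killIdeal {ι : Type} [DecidableEq ι] (T : Finset ι) : Ideal (MvPolynomial ι ℂ) :=
  RingHom.ker (aeval (R := ℂ) (fun i => if i ∈ T then (0 : MvPolynomial ι ℂ) else X i))

instance {ι : Type} [DecidableEq ι] (T : Finset ι) : (killIdeal T).IsPrime :=
  RingHom.ker_isPrime _

lemma card_le_height_kill {ι : Type} [DecidableEq ι] (T : Finset ι) :
    (T.card : ℕ∞) ≤ (killIdeal T).height := by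
  induction T using Finset.induction_on with
  | empty => simp
  | insert a T ha ih =>
    have hlt : killIdeal T < killIdeal (insert a T) := by
      refine lt_of_le_of_ne ?_ ?_
      · intro p hp
        have key : (aeval (R := ℂ) (fun i => if i ∈ insert a T then (0 : MvPolynomial ι ℂ) else X i)).comp
            (aeval (R := ℂ) (fun i => if i ∈ T then (0 : MvPolynomial ι ℂ) else X i)) =
            aeval (R := ℂ) (fun i => if i ∈ insert a T then (0 : MvPolynomial ι ℂ) else X i) := by
          ext1 i
          by_cases hi : i ∈ T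
          · simp [hi]
          · simp [hi]
        have h2 := DFunLike.congr_fun key p
        simp only [killIdeal, RingHom.mem_ker] at hp ⊢
        rw [← h2, AlgHom.comp_apply, hp, map_zero]
      · intro h
        have h1 : (X a : MvPolynomial ι ℂ) ∈ killIdeal (insert a T) := by
          simp [killIdeal, RingHom.mem_ker]
        rw [← h] at h1
        simp [killIdeal, RingHom.mem_ker, ha] at h1
    have := Ideal.height_add_one_le_of_lt_of_isPrime hlt
    rw [Finset.card_insert_of_notMem ha]
    push_cast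
    exact le_trans (by gcongr) this

/-- Fewer equations than unknowns through the origin have a nonzero solution. -/
lemma card_le_of_only_zero {ι κ : Type} [Fintype ι] [DecidableEq ι] (J : Finset ι) (T : Finset κ)
    (h : κ → MvPolynomial ι ℂ) (h0 : ∀ k ∈ T, eval 0 (h k) = 0)
    (hz : ∀ y : ι → ℂ, (∀ i, y i ≠ 0 → i ∈ J) → (∀ k ∈ T, eval y (h k) = 0) → y = 0) :
    J.card ≤ T.card := by
  classical
  set s : Finset (MvPolynomial ι ℂ) := T.image h ∪ Jᶜ.image X with hs
  have hZ : zeroLocus ℂ (Ideal.span (s : Set (MvPolynomial ι ℂ))) = {0} := by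
    rw [zeroLocus_span]
    ext y
    simp only [Set.mem_ofPred_eq, Set.mem_singleton_iff]
    constructor
    · intro hy
      apply hz y
      · intro i hi
        by_contra hiJ
        have := hy (X i) (by simp [hs, hiJ])
        simp at this
        exact hi this
      · intro k hk
        have := hy (h k) (by
          simp only [hs, Finset.coe_union, Finset.coe_image, Set.mem_union, Set.mem_image]
          exact Or.inl ⟨k, hk, rfl⟩)
        simpa [aeval_eq_eval] using this
    · rintro rfl p hp
      simp only [hs, Finset.coe_union, Finset.coe_image, Set.mem_union, Set.mem_image] at hp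
      rcases hp with ⟨k, hk, rfl⟩ | ⟨i, _, rfl⟩
      · simpa [aeval_eq_eval] using h0 k hk
      · simp
  have hrad := vanishingIdeal_zeroLocus_eq_radical (K := ℂ) (Ideal.span (s : Set (MvPolynomial ι ℂ)))
  rw [hZ] at hrad
  have hmin : vanishingIdeal ℂ ({0} : Set (ι → ℂ)) ∈
      (Ideal.span (s : Set (MvPolynomial ι ℂ))).minimalPrimes := by
    rw [← Ideal.radical_minimalPrimes, ← hrad, Ideal.minimalPrimes_eq_subsingleton_self]
    rfl
  have h1 := Ideal.height_le_card_of_mem_minimalPrimes_span_finset hmin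
  have h2 : killIdeal (Finset.univ : Finset ι) ≤ vanishingIdeal ℂ ({0} : Set (ι → ℂ)) := by
    intro p hp
    rw [mem_vanishingIdeal_singleton_iff]
    have key : (aeval (R := ℂ) (0 : ι → ℂ)).comp
        (aeval (R := ℂ) (fun i => if i ∈ (Finset.univ : Finset ι) then (0 : MvPolynomial ι ℂ) else X i)) =
        aeval (R := ℂ) (0 : ι → ℂ) := by
      ext1 i
      simp
    have h3 := DFunLike.congr_fun key p
    simp only [killIdeal, RingHom.mem_ker] at hp
    rw [← h3, AlgHom.comp_apply, hp, map_zero]
  have h3 := (card_le_height_kill (Finset.univ : Finset ι)).trans ((Ideal.height_mono h2).trans h1)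
  have h4 : (Finset.univ : Finset ι).card ≤ s.card := by exact_mod_cast h3
  have h5 : s.card ≤ T.card + Jᶜ.card :=
    (Finset.card_union_le _ _).trans (add_le_add Finset.card_image_le Finset.card_image_le)
  have h6 := Finset.card_add_card_compl J
  rw [Finset.card_univ] at h4
  omega

lemma factorization_eq_sum (n p M : ℕ) (hp : p.Prime) (hn : n ≠ 0) (hM : n < M) :
    n.factorization p = ∑ r ∈ Finset.Ico 1 M, if p ^ r ∣ n then 1 else 0 := by
  rw [← Finset.card_filter, Nat.factorization_eq_card_pow_dvd_of_lt hp (Nat.pos_of_ne_zero hn)]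
  exact lt_trans hM (Nat.lt_pow_self hp.one_lt)

/-- Counting multiples of every prime power gives divisibility of products. -/
lemma prod_dvd_of_counts {ι κ : Type} (B : Finset ι) (T : Finset κ) (b : ι → ℕ) (e : κ → ℕ)
    (hb : ∀ i ∈ B, 0 < b i) (he : ∀ k ∈ T, 0 < e k)
    (hc : ∀ p r : ℕ, p.Prime → 1 ≤ r →
      (B.filter (fun i => p ^ r ∣ b i)).card ≤ (T.filter (fun k => p ^ r ∣ e k)).card) :
    ∏ i ∈ B, b i ∣ ∏ k ∈ T, e k := by
  have hB : ∏ i ∈ B, b i ≠ 0 := Finset.prod_ne_zero_iff.2 fun i hi => (hb i hi).ne'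
  have hT : ∏ k ∈ T, e k ≠ 0 := Finset.prod_ne_zero_iff.2 fun i hi => (he i hi).ne'
  rw [← Nat.factorization_prime_le_iff_dvd hB hT]
  intro p hp
  rw [Nat.factorization_prod fun i hi => (hb i hi).ne', Nat.factorization_prod fun i hi => (he i hi).ne']
  simp only [Finsupp.finsetSum_apply]
  set M := ∑ i ∈ B, b i + ∑ k ∈ T, e k + 1
  have e1 : ∑ i ∈ B, (b i).factorization p =
      ∑ i ∈ B, ∑ r ∈ Finset.Ico 1 M, if p ^ r ∣ b i then 1 else 0 :=
    Finset.sum_congr rfl fun i hi => factorization_eq_sum _ _ _ hp (hb i hi).ne' (by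
      have := Finset.single_le_sum (f := b) (fun _ _ => Nat.zero_le _) hi
      omega)
  have e2 : ∑ k ∈ T, (e k).factorization p =
      ∑ k ∈ T, ∑ r ∈ Finset.Ico 1 M, if p ^ r ∣ e k then 1 else 0 :=
    Finset.sum_congr rfl fun i hi => factorization_eq_sum _ _ _ hp (he i hi).ne' (by
      have := Finset.single_le_sum (f := e) (fun _ _ => Nat.zero_le _) hi
      omega)
  rw [e1, e2, Finset.sum_comm, Finset.sum_comm (s := T)]
  refine Finset.sum_le_sum fun r hr => ?_
  rw [← Finset.card_filter, ← Finset.card_filter]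
  exact hc p r hp (Finset.mem_Ico.1 hr).1

/-- A system whose zeros have trivial stabilisers has degree product divisible by the
weight product. -/
lemma supply {ι κ : Type} [Fintype ι] [DecidableEq ι] (B : Finset ι) (T : Finset κ) (b : ι → ℕ)
    (e : κ → ℕ) (h : κ → MvPolynomial ι ℂ) (hb : ∀ i ∈ B, 0 < b i) (he : ∀ k ∈ T, 0 < e k)
    (hom : ∀ k ∈ T, ∀ (ζ : ℂ) (y : ι → ℂ), (∀ i, y i ≠ 0 → i ∈ B) →
      eval (fun i => ζ ^ b i * y i) (h k) = ζ ^ e k * eval y (h k))
    (free : ∀ p : ℕ, p.Prime → ∀ y : ι → ℂ, (∀ i, y i ≠ 0 → i ∈ B ∧ p ∣ b i) →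
      (∀ k ∈ T, eval y (h k) = 0) → y = 0) :
    ∏ i ∈ B, b i ∣ ∏ k ∈ T, e k := by
  classical
  refine prod_dvd_of_counts B T b e hb he fun p r hp hr => ?_
  refine card_le_of_only_zero _ _ h ?_ ?_
  · intro k hk
    have hk' := (Finset.mem_filter.1 hk).1
    have := hom k hk' 0 0 (by simp)
    simp only [Pi.zero_apply, mul_zero] at this
    rw [zero_pow (he k hk').ne', zero_mul] at this
    exact this
  · intro y hy hk
    have hq : p ^ r ≠ 0 := pow_ne_zero _ hp.ne_zero
    refine free p hp y (fun i hi => ?_) fun k hkT => ?_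
    · have := Finset.mem_filter.1 (hy i hi)
      exact ⟨this.1, (dvd_pow_self p (by omega)).trans this.2⟩
    · by_cases hd : p ^ r ∣ e k
      · exact hk k (Finset.mem_filter.2 ⟨hkT, hd⟩)
      · have hζ := Complex.isPrimitiveRoot_exp (p ^ r) hq
        set ζ := Complex.exp (2 * Real.pi * Complex.I / (p ^ r : ℕ))
        have h1 := hom k hkT ζ y fun i hi => (Finset.mem_filter.1 (hy i hi)).1
        have h2 : (fun i => ζ ^ b i * y i) = y := by
          funext i
          by_cases hi : y i = 0
          · simp [hi]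
          · rw [(hζ.pow_eq_one_iff_dvd _).2 (Finset.mem_filter.1 (hy i hi)).2, one_mul]
        rw [h2] at h1
        have h3 : ζ ^ e k ≠ 1 := fun h => hd ((hζ.pow_eq_one_iff_dvd _).1 h)
        by_contra h4
        apply h3
        have : (ζ ^ e k - 1) * eval y (h k) = 0 := by linear_combination -h1
        rcases mul_eq_zero.1 this with h5 | h5
        · linear_combination h5
        · exact absurd h5 h4

end Pool.Agent.Lib.MP_9ff3e7_ag
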