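import Pool.Agent.Lib.MP_9ff3e7_ag.GSup
import Pool.Agent.Lib.MP_9ff3e7_ag.Supply

namespace Pool.Agent.Lib.MP_9ff3e7_ag.G

open Finset MvPolynomial

set_option linter.unusedSectionVars false

section gens

variable {ι : Type} [Fintype ι] [DecidableEq ι] {a : ι → ℕ}

lemma sum_sgl (a : ι → ℕ) (i : ι) (k : ℕ) : ∑ l, a l * (Pi.single i k : ι → ℕ) l = a i * k := by
  rw [sum_eq_single i (fun l _ hl => by simp [hl]) (by simp)]; simp

lemma card_le_min (ha : ∀ i, 0 < a i) (i0 : ι) (hmin : ∀ i, a i0 ≤ a i)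
    (gen : ∀ i (γ : ι → ℕ), γ i = 0 → ∑ l, a l * γ l ≠ a i) : Fintype.card ι ≤ a i0 := by
  have key : ∀ i j, i ≠ j → a i ≤ a j → a i % a i0 ≠ a j % a i0 := by
    intro i j hij hle e
    obtain ⟨k, hk⟩ := (Nat.modEq_iff_dvd' hle).1 e
    refine gen j (Pi.single i 1 + Pi.single i0 k) ?_ ?_
    · by_cases e0 : j = i0
      · have h1 := hmin i
        have h2 := ha i0
        have : k = 0 := by
          by_contra h
          have := Nat.le_mul_of_pos_right (a i0) (Nat.pos_of_ne_zero h)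
          rw [e0] at hk hle
          omega
        simp [this, hij.symm]
      · simp [hij.symm, e0]
    · simp only [Pi.add_apply, mul_add, sum_add_distrib, sum_sgl]
      omega
  have := card_le_card_of_injOn (s := (univ : Finset ι)) (t := range (a i0)) (fun i => a i % a i0)
    (fun i _ => by simpa using Nat.mod_lt _ (ha i0)) fun i _ j _ e => by
      by_contra h
      rcases le_total (a i) (a j) with h1 | h1
      · exact key i j h h1 e
      · exact key j i (Ne.symm h) h1 e.symm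
  simpa using this

lemma rel_bound (ha : ∀ i, 0 < a i) (i0 : ι) (hmin : ∀ i, a i0 ≤ a i)
    (gen : ∀ i (γ : ι → ℕ), γ i = 0 → ∑ l, a l * γ l ≠ a i) (v : ι → ℝ) (h1 : IsInt v)
    (h2 : dg a v = 0) (h3 : v ≠ 0) : 2 * (a i0 : ℝ) + 2 ≤ nm a v := by
  wlog h0 : v i0 ≤ 0 generalizing v
  · have := this (-v) (by simpa using h1.smul (-1)) (by rw [map_neg, h2, neg_zero]) (neg_ne_zero.2 h3)
      (by simp only [Pi.neg_apply]; linarith)
    rwa [nm_neg] at this
  choose n hn using h1
  let p : ι → ℕ := fun i => (n i).toNat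
  let q : ι → ℕ := fun i => (-n i).toNat
  have e1 : ∀ i, v i = p i - q i := fun i => by
    rw [hn i]; exact_mod_cast (Int.toNat_sub_toNat_neg (n i)).symm
  have e2 : ∀ i, |v i| = p i + q i := fun i => by
    rw [hn i]
    have : |n i| = (p i : ℤ) + q i := by simp only [p, q]; rcases abs_cases (n i) with h | h <;> omega
    exact_mod_cast this
  have e3 : ∑ i, a i * p i = ∑ i, a i * q i := by
    rw [dg_apply] at h2
    simp only [e1, mul_sub, sum_sub_distrib, sub_eq_zero] at h2
    exact_mod_cast h2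
  have e4 : nm a v = (∑ i, a i * p i : ℕ) := by
    have : ((∑ i, a i * p i : ℕ) : ℝ) = (∑ i, a i * q i : ℕ) := by rw [e3]
    push_cast at this ⊢
    simp only [nm, e2, mul_add, sum_add_distrib]
    linarith
  have p0 : p i0 = 0 := by
    have : n i0 ≤ 0 := by rw [hn i0] at h0; exact_mod_cast h0
    simp only [p]; omega
  have big : ∀ i, (a i0 + 1) * p i ≤ a i * p i := fun i => by
    by_cases e : i = i0
    · simp [e, p0]
    · refine Nat.mul_le_mul_right _ (lt_of_le_of_ne (hmin i) fun h => ?_)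
      exact gen i (Pi.single i0 1) (by simp [e]) (by rw [sum_sgl, mul_one, h])
  have two : 2 ≤ ∑ i, p i := by
    by_contra h
    by_cases hz : ∀ i, p i = 0
    · have : ∑ i, a i * q i = 0 := by rw [← e3]; simp [hz]
      refine h3 (funext fun i => ?_)
      have h4 := (sum_eq_zero_iff.1 this) i (mem_univ _)
      have h5 := ha i
      have h6 : q i = 0 := by simpa [h5.ne'] using h4
      simp [e1, hz i, h6]
    · push Not at hz
      obtain ⟨i, hi⟩ := hz
      have h4 := add_sum_erase univ p (mem_univ i)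
      have h5 : ∀ l, l ≠ i → p l = 0 := fun l hl => by
        have := single_le_sum (f := p) (fun _ _ => Nat.zero_le _) (mem_erase.2 ⟨hl, mem_univ l⟩)
        omega
      refine gen i q (by simp only [p, q] at hi ⊢; omega) ?_
      rw [← e3, sum_eq_single i (fun l _ hl => by simp [h5 l hl]) (by simp), show p i = 1 by omega,
        mul_one]
  have := sum_le_sum fun i (_ : i ∈ univ) => big i
  rw [← mul_sum] at this
  have h4 : (a i0 + 1) * 2 ≤ ∑ i, a i * p i := (Nat.mul_le_mul_left _ two).trans this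
  have h5 : (((a i0 + 1) * 2 : ℕ) : ℝ) ≤ (∑ i, a i * p i : ℕ) := by exact_mod_cast h4
  rw [e4]
  push_cast at h5 ⊢
  linarith

lemma exists_p0 (h : ∀ p : ℕ, p.Prime → ∃ i, ¬ p ∣ a i) : ∃ p0 : ι → ℝ, IsInt p0 ∧ dg a p0 = 1 := by
  have : (1 : ℤ) ∈ Ideal.span (Set.range fun i => (a i : ℤ)) := by
    rw [← Ideal.eq_top_iff_one]
    by_contra h1
    obtain ⟨g, hg⟩ := (IsPrincipalIdealRing.principal (Ideal.span (Set.range fun i => (a i : ℤ)))).principal
    have h2 : g.natAbs ≠ 1 := fun e => h1 (by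
      rw [hg]; exact Ideal.span_singleton_eq_top.2 (Int.isUnit_iff_natAbs_eq.2 e))
    obtain ⟨p, hp, h3⟩ := Nat.exists_prime_and_dvd h2
    obtain ⟨i, hi⟩ := h p hp
    have : (a i : ℤ) ∈ Ideal.span {g} := by
      change _ ∈ Submodule.span ℤ {g}
      rw [← hg]; exact Ideal.subset_span ⟨i, rfl⟩
    exact hi (h3.trans (by simpa using Int.natAbs_dvd_natAbs.2 (Ideal.mem_span_singleton.1 this)))
  obtain ⟨c, hc⟩ := Ideal.mem_span_range_iff_exists_fun.1 this
  refine ⟨fun i => c i, fun i => ⟨c i, rfl⟩, ?_⟩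
  rw [dg_apply]
  simp only [mul_comm (a _ : ℝ)]
  exact_mod_cast hc

end gens

/-- The weight function on all levels. -/
noncomputable def GG (R x : ℝ) : ℝ := min (lm x) (G1 R (max x (2 * R + 4)))

lemma GG_mono {R x y : ℝ} (hR : 1 ≤ R) (hx : 1 ≤ x) (h : x ≤ y) : GG R x ≤ GG R y := by
  refine min_le_min ?_ (G1_mono (by linarith) (lt_max_of_lt_right (by linarith)) (max_le_max_right _ h))
  rcases hx.eq_or_lt with e | e
  · rw [← e]; simpa [lm] using lm_nonneg (hx.trans h)
  · exact lm_mono e h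

lemma GG_nonneg {R x : ℝ} (hR : 1 ≤ R) (hx : 1 ≤ x) : 0 ≤ GG R x :=
  le_min (lm_nonneg hx) ((G0_nonneg hR).trans
    (G1_mono (by linarith) (by linarith) (le_max_of_le_right (by linarith))))

lemma GG_high {R x : ℝ} (hR : 1 ≤ R) (hx : 2 * R + 4 ≤ x) : GG R x = G1 R x := by
  rw [GG, max_eq_left hx]
  refine min_eq_right (div_le_div_of_nonneg_right ?_ (Real.log_nonneg (by linarith)))
  have : 0 ≤ Ph R := by unfold Ph; linarith
  linarith

lemma GG_deg {R x : ℝ} (hR : 1 ≤ R) (hx : 1 ≤ x) :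
    Real.log x * GG R x ≤ x - 1 - if 2 * R + 4 ≤ x then Ph R else 0 := by
  split_ifs with h
  · rw [GG_high hR h, G1, mul_div_cancel₀ _ (Real.log_pos (by linarith)).ne']
  · rw [sub_zero, ← log_mul_lm hx]
    exact mul_le_mul_of_nonneg_left (min_le_left _ _) (Real.log_nonneg hx)

lemma GG_var (a u : ℕ) (ha : 2 ≤ a) (hu : 0 < u) :
    (u : ℝ) - 1 ≤ Real.log u * GG (a - 1) (if a + 2 ≤ u then (u + a : ℝ) else u) := by
  have ha' : (2 : ℝ) ≤ a := by exact_mod_cast ha
  have hu' : (1 : ℝ) ≤ u := by exact_mod_cast hu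
  split_ifs with h
  · have h' : (a : ℝ) + 2 ≤ u := by exact_mod_cast h
    rw [GG_high (by linarith) (by linarith), mul_comm]
    exact condU a u ha h
  · have h' : (u : ℝ) ≤ a + 2 := by exact_mod_cast (not_le.1 h).le
    rcases hu'.eq_or_lt with e | e
    · rw [← e]; simp
    rw [← log_mul_lm hu']
    refine mul_le_mul_of_nonneg_left (le_min le_rfl ((lm_mono e h').trans ?_)) (Real.log_nonneg hu')
    have := condU a (a + 2) ha le_rfl
    push_cast at this
    rw [max_eq_right (by linarith), lm, div_le_iff₀ (Real.log_pos (by linarith))]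
    rwa [show 2 * ((a : ℝ) - 1) + 4 = a + 2 + a by ring]

end Pool.Agent.Lib.MP_9ff3e7_ag.G
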