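import Mathlib

namespace Pool.Agent.Lib.MP_9ff3e7_ag.G

open Finset Polynomial

lemma coe_prod {κ : Type} (T : Finset κ) (d : κ → ℕ) :
    ((∏ k ∈ T, (1 - X ^ d k) : ℤ[X]) : PowerSeries ℤ) = ∏ k ∈ T, (1 - PowerSeries.X ^ d k) := by
  rw [← Polynomial.coeToPowerSeries.ringHom_apply, map_prod]
  simp

lemma prod_ne {R κ : Type} [CommRing R] [IsDomain R] (T : Finset κ) (d : κ → ℕ)
    (hd : ∀ k ∈ T, 0 < d k) : (∏ k ∈ T, (1 - X ^ d k) : R[X]) ≠ 0 :=
  prod_ne_zero_iff.2 fun k hk e => by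
    simpa [(hd k hk).ne'] using congrArg (eval 0) e

/-- Poles away from one cancel. -/
theorem exists_num {σ κ : Type} [Fintype σ] (w : σ → ℕ) (hw : ∀ i, 0 < w i) (T : Finset κ) (d : κ → ℕ)
    (H : PowerSeries ℤ) (K : ℤ[X]) (hK : (∏ i, (1 - PowerSeries.X ^ w i) : PowerSeries ℤ) * H = (K : PowerSeries ℤ))
    (hq : ∀ q : ℕ, 2 ≤ q → ∃ P : ℤ[X],
      (∏ i ∈ univ.filter (fun i => ¬ q ∣ w i), (1 - PowerSeries.X ^ w i) : PowerSeries ℤ) *
      (∏ k ∈ T.filter (fun k => q ∣ d k), (1 - PowerSeries.X ^ d k) : PowerSeries ℤ) * H =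
        (P : PowerSeries ℤ)) :
    ∃ N : ℤ[X], (∏ k ∈ T, (1 - PowerSeries.X ^ d k) : PowerSeries ℤ) *
      (1 - PowerSeries.X : PowerSeries ℤ) ^ Fintype.card σ * H = (N : PowerSeries ℤ) := by
  classical
  set F : ℤ[X] := K * (∏ k ∈ T, (1 - X ^ d k)) * (1 - X) ^ Fintype.card σ with hF
  have hq' : ∀ q : ℕ, 2 ≤ q → (∏ i ∈ univ.filter (fun i => q ∣ w i), (1 - X ^ w i) : ℤ[X]) ∣ F := by
    intro q h2
    obtain ⟨P, hP⟩ := hq q h2
    have : K * ∏ k ∈ T.filter (fun k => q ∣ d k), (1 - X ^ d k) =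
        (∏ i ∈ univ.filter (fun i => q ∣ w i), (1 - X ^ w i)) * P := by
      rw [← Polynomial.coe_inj, Polynomial.coe_mul, Polynomial.coe_mul, coe_prod, coe_prod, ← hK, ← hP,
        ← prod_filter_mul_prod_filter_not univ (fun i => q ∣ w i)]
      ring
    exact (Dvd.intro _ this.symm).trans (dvd_mul_of_dvd_left
      (mul_dvd_mul_left _ (prod_dvd_prod_of_subset _ _ _ (filter_subset _ _))) _)
  have dv : (∏ i, (1 - X ^ w i) : ℤ[X]) ∣ F := by
    have m : (∏ i, (X ^ w i - C 1) : ℤ[X]).Monic :=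
      monic_prod_of_monic _ _ fun i _ => monic_X_pow_sub_C _ (hw i).ne'
    refine (prod_dvd_prod_of_dvd _ _ fun i _ => ?_).trans
      ((map_dvd_map (Int.castRingHom ℂ) (RingHom.injective_int _) m).1 ?_)
    · exact ⟨-1, by simp⟩
    refine dvd_trans (b := ∏ i, (1 - X ^ w i)) ?_ ?_
    · rw [Polynomial.map_prod]
      exact prod_dvd_prod_of_dvd _ _ fun i _ => ⟨-1, by simp⟩
    by_cases h0 : F.map (Int.castRingHom ℂ) = 0
    · rw [h0]; exact dvd_zero _
    have hne := prod_ne (R := ℂ) univ w fun i _ => hw i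
    refine (IsAlgClosed.splits _).dvd_of_roots_le_roots hne (Multiset.le_iff_count.2 fun ζ => ?_)
    rw [count_roots, count_roots]
    suffices h : ∃ W1 W2 : ℂ[X], ∏ i, (1 - X ^ w i) = W1 * W2 ∧ ¬ W2.IsRoot ζ ∧
        W1 ∣ F.map (Int.castRingHom ℂ) by
      obtain ⟨W1, W2, e, h1, h2⟩ := h
      rw [e] at hne ⊢
      rw [rootMultiplicity_mul hne, rootMultiplicity_eq_zero h1, add_zero]
      exact rootMultiplicity_le_rootMultiplicity_of_dvd h0 h2 ζ
    by_cases h1 : ζ = 1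
    · refine ⟨(1 - X) ^ Fintype.card σ, ∏ i, ∑ j ∈ range (w i), X ^ j, ?_, ?_, ?_⟩
      · rw [← card_univ, ← prod_const, ← prod_mul_distrib]
        exact prod_congr rfl fun i _ => (mul_neg_geom_sum _ _).symm
      · simp only [h1, IsRoot, eval_prod, eval_geom_sum, one_pow, sum_const, card_range, nsmul_eq_mul,
          mul_one, prod_eq_zero_iff, Nat.cast_eq_zero, not_exists, not_and]
        exact fun i _ => (hw i).ne'
      · simp only [hF, Polynomial.map_mul, Polynomial.map_pow, Polynomial.map_sub, Polynomial.map_one,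
          map_X]
        exact dvd_mul_left _ _
    · refine ⟨_, _, (prod_filter_mul_prod_filter_not univ (fun i => orderOf ζ ∣ w i) _).symm, ?_, ?_⟩
      · simp only [IsRoot, eval_prod, prod_eq_zero_iff, mem_filter, eval_sub, eval_one, eval_pow, eval_X,
          not_exists, not_and, and_imp, sub_eq_zero]
        exact fun i _ hi e => hi (orderOf_dvd_iff_pow_eq_one.2 e.symm)
      · by_cases h2 : orderOf ζ = 0
        · rw [filter_eq_empty_iff.2 fun i _ => by rw [h2, zero_dvd_iff]; exact (hw i).ne']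
          simp
        · have := Polynomial.map_dvd (Int.castRingHom ℂ) (hq' (orderOf ζ) (by
            have : orderOf ζ ≠ 1 := fun e => h1 (orderOf_eq_one_iff.1 e)
            omega))
          simpa [Polynomial.map_prod] using this
  obtain ⟨N, hN⟩ := dv
  refine ⟨N, mul_left_cancel₀ (a := ((∏ i, (1 - X ^ w i) : ℤ[X]) : PowerSeries ℤ)) ?_ ?_⟩
  · rw [Ne, Polynomial.coe_eq_zero_iff]
    exact prod_ne univ w fun i _ => hw i
  · rw [← Polynomial.coe_mul, ← hN, hF, Polynomial.coe_mul, Polynomial.coe_mul, ← hK, coe_prod, coe_prod]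
    simp only [Polynomial.coe_pow, Polynomial.coe_sub, Polynomial.coe_one, Polynomial.coe_X]
    ring

lemma hasSum_poly_mul (A : ℤ[X]) (H : PowerSeries ℤ) (z s : ℝ)
    (h : HasSum (fun t => ((PowerSeries.coeff t H : ℤ) : ℝ) * z ^ t) s) :
    HasSum (fun t => ((PowerSeries.coeff t (A * H : PowerSeries ℤ) : ℤ) : ℝ) * z ^ t) (aeval z A * s) := by
  induction A using Polynomial.induction_on' with
  | add p q h1 h2 =>
    simpa [add_mul] using h1.add h2
  | monomial n c =>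
    rw [← hasSum_nat_add_iff' n, ← C_mul_X_pow_eq_monomial]
    simp only [Polynomial.coe_mul, Polynomial.coe_pow, Polynomial.coe_C, Polynomial.coe_X, mul_assoc,
      PowerSeries.coeff_C_mul, PowerSeries.coeff_X_pow_mul', le_add_iff_nonneg_left, zero_le, if_true,
      add_tsub_cancel_right]
    rw [sum_eq_zero fun i hi => by rw [if_neg (by simpa using hi)]; simp, sub_zero]
    have e1 : aeval z (C c * X ^ n : ℤ[X]) = c * z ^ n := by simp
    rw [e1]
    refine (h.mul_left (c * z ^ n)).congr_fun fun t => ?_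
    push_cast; ring

lemma eval_eq (A B : ℤ[X]) (H : PowerSeries ℤ) (e : (A * H : PowerSeries ℤ) = B) (z s : ℝ)
    (h : HasSum (fun t => ((PowerSeries.coeff t H : ℤ) : ℝ) * z ^ t) s) : aeval z A * s = aeval z B := by
  have h1 := hasSum_poly_mul A H z s h
  have h2 := hasSum_poly_mul B 1 z 1 (by
    convert hasSum_single (f := fun t => ((PowerSeries.coeff t (1 : PowerSeries ℤ) : ℤ) : ℝ) * z ^ t) 0
      fun t ht => by simp [PowerSeries.coeff_one, ht]
    simp)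
  rw [mul_one, mul_one, ← e] at h2
  exact h1.unique h2

lemma lim_le {f g : ℝ → ℝ} (hf : Continuous f) (hg : Continuous g)
    (h : ∀ z ∈ Set.Ioo (0 : ℝ) 1, f z ≤ g z) : f 1 ≤ g 1 :=
  le_on_closure h hf.continuousOn hg.continuousOn (by
    rw [closure_Ioo zero_ne_one]; exact ⟨zero_le_one, le_rfl⟩)

lemma series_bounds (h : ℕ → ℕ) (ρ P : ℕ) (W c : ℝ) (hc : 0 ≤ c) (hP : 0 < P)
    (h1 : ∀ t, (h t : ℝ) ≤ W * ((t + c) ^ ρ / ρ.factorial)) (h2 : ∀ ν, (ν + 1) ^ ρ ≤ h (ν * P))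
    (z : ℝ) (hz : z ∈ Set.Ioo (0 : ℝ) 1) : ∃ s, HasSum (fun t => (h t : ℝ) * z ^ t) s ∧
      (1 - z) ^ (ρ + 1) * s * z ^ ⌈c⌉₊ ≤ W ∧ 1 ≤ (1 - z) ^ (ρ + 1) * s * P ^ (ρ + 1) := by
  obtain ⟨z0, z1⟩ := hz
  have hW : 0 ≤ W := by
    by_contra hW
    have e1 := h1 0
    have e2 : (1 : ℝ) ≤ h 0 := by simpa using h2 0
    have : (0 : ℝ) ≤ (((0 : ℕ) : ℝ) + c) ^ ρ / ρ.factorial := by positivity
    nlinarith
  set n := ⌈c⌉₊
  have g := hasSum_choose_mul_geometric_of_norm_lt_one (𝕜 := ℝ) ρ (r := z)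
    (by rw [Real.norm_eq_abs, abs_of_pos z0]; exact z1)
  have g1 := ((hasSum_nat_add_iff' n).2 g).mul_left (W / z ^ n)
  have b1 : ∀ t, (h t : ℝ) * z ^ t ≤ W / z ^ n * (((t + n + ρ).choose ρ : ℝ) * z ^ (t + n)) := by
    intro t
    have e1 := Nat.pow_le_choose (α := ℝ) ρ (t + n + ρ)
    rw [show t + n + ρ + 1 - ρ = t + n + 1 by omega] at e1
    have e2 : ((t : ℝ) + c) ^ ρ / ρ.factorial ≤ ((t + n + 1 : ℕ) : ℝ) ^ ρ / ρ.factorial := by
      have := Nat.le_ceil c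
      gcongr
      push_cast; linarith
    have e3 := (h1 t).trans (mul_le_mul_of_nonneg_left (e2.trans e1) hW)
    rw [show W / z ^ n * (((t + n + ρ).choose ρ : ℝ) * z ^ (t + n)) =
      W * ((t + n + ρ).choose ρ : ℝ) * z ^ t by rw [pow_add]; field_simp]
    exact mul_le_mul_of_nonneg_right e3 (by positivity)
  have sm : Summable fun t => (h t : ℝ) * z ^ t :=
    Summable.of_nonneg_of_le (fun t => by positivity) b1 g1.summable
  have y0 : 0 < 1 - z := by linarith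
  refine ⟨_, sm.hasSum, ?_, ?_⟩
  · have e1 := hasSum_le b1 sm.hasSum g1
    have e2 : 0 ≤ ∑ i ∈ range n, (((i + ρ).choose ρ : ℝ) * z ^ i) := sum_nonneg fun _ _ => by positivity
    have e3 : ∑' t, (h t : ℝ) * z ^ t ≤ W / z ^ n * (1 / (1 - z) ^ (ρ + 1)) :=
      e1.trans (mul_le_mul_of_nonneg_left (by linarith) (by positivity))
    calc _ ≤ (1 - z) ^ (ρ + 1) * (W / z ^ n * (1 / (1 - z) ^ (ρ + 1))) * z ^ n := by gcongr
      _ = W := by field_simp
  · have zP : z ^ P < 1 := pow_lt_one₀ z0.le z1 hP.ne'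
    have g2 := hasSum_choose_mul_geometric_of_norm_lt_one (𝕜 := ℝ) ρ (r := z ^ P)
      (by rw [Real.norm_eq_abs, abs_of_pos (pow_pos z0 _)]; exact zP)
    have e1 := hasSum_le_inj (fun ν => ν * P) (mul_left_injective₀ hP.ne') (fun _ _ => by positivity)
      (fun ν => by
        have : (((ν + ρ).choose ρ : ℕ) : ℝ) ≤ h (ν * P) := by
          exact_mod_cast (Nat.choose_add_le_add_one_pow ν ρ).trans (h2 ν)
        rw [← pow_mul, mul_comm P]
        exact mul_le_mul_of_nonneg_right this (by positivity)) g2 sm.hasSum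
    have e2 : 1 - z ^ P ≤ (1 - z) * P := by
      have := one_add_mul_sub_le_pow (show -1 ≤ z by linarith) P
      linarith
    have e3 : (1 - z ^ P) ^ (ρ + 1) ≤ ((1 - z) * P) ^ (ρ + 1) := pow_le_pow_left₀ (by linarith) e2 _
    have e4 : 0 < (1 - z ^ P) ^ (ρ + 1) := pow_pos (by linarith) _
    rw [div_le_iff₀ e4] at e1
    refine e1.trans ?_
    rw [mul_right_comm, ← mul_pow, mul_comm]
    exact mul_le_mul_of_nonneg_right e3 (tsum_nonneg fun _ => by positivity)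

/-- The leading coefficient is a nonzero integer. -/
theorem prod_le_of_num {σ κ : Type} (U : Finset σ) (u : σ → ℕ) (T : Finset κ)
    (d : κ → ℕ) (hd : ∀ k ∈ T, 0 < d k) (n : ℕ) (N : ℤ[X]) (h : ℕ → ℕ)
    (e : (∏ k ∈ T, (1 - PowerSeries.X ^ d k) : PowerSeries ℤ) * (1 - PowerSeries.X : PowerSeries ℤ) ^ n *
      PowerSeries.mk (fun t => (h t : ℤ)) =
        (∏ i ∈ U, (1 - PowerSeries.X ^ u i) : PowerSeries ℤ) * (N : PowerSeries ℤ))
    (ρ P : ℕ) (W c : ℝ) (hc : 0 ≤ c) (hP : 0 < P)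
    (h1 : ∀ t, (h t : ℝ) ≤ W * ((t + c) ^ ρ / ρ.factorial)) (h2 : ∀ ν, (ν + 1) ^ ρ ≤ h (ν * P)) :
    ∏ i ∈ U, (u i : ℝ) ≤ W * ∏ k ∈ T, (d k : ℝ) := by
  let A : ℝ → ℝ := fun z => ∏ k ∈ T, ∑ j ∈ range (d k), z ^ j
  let B : ℝ → ℝ := fun z => ∏ i ∈ U, ∑ j ∈ range (u i), z ^ j
  have cA : Continuous A := by fun_prop
  have cB : Continuous B := by fun_prop
  have A1 : A 1 = ∏ k ∈ T, (d k : ℝ) := by simp [A]
  have B1 : B 1 = ∏ i ∈ U, (u i : ℝ) := by simp [B]
  have A0 : 0 < A 1 := A1 ▸ prod_pos fun k hk => Nat.cast_pos.2 (hd k hk)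
  have key : ∀ z ∈ Set.Ioo (0 : ℝ) 1, ∃ Φ : ℝ, Φ * z ^ ⌈c⌉₊ ≤ W ∧ 1 ≤ Φ * P ^ (ρ + 1) ∧ 0 ≤ A z ∧ 0 ≤ B z ∧
      A z * (1 - z) ^ (T.card + n) * Φ = (1 - z) ^ (U.card + (ρ + 1)) * B z * aeval z N := by
    intro z hz
    obtain ⟨s, g1, g2, g3⟩ := series_bounds h ρ P W c hc hP h1 h2 z hz
    have z0 := hz.1.le
    refine ⟨_, g2, g3, prod_nonneg fun _ _ => by positivity, prod_nonneg fun _ _ => by positivity, ?_⟩
    have := eval_eq ((∏ k ∈ T, (1 - X ^ d k)) * (1 - X) ^ n) ((∏ i ∈ U, (1 - X ^ u i)) * N)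
      (PowerSeries.mk fun t => (h t : ℤ)) (by
      rw [Polynomial.coe_mul, Polynomial.coe_mul, coe_prod, coe_prod, ← e]; simp) z s (by simpa using g1)
    simp only [map_mul, map_prod, map_pow, map_sub, map_one, aeval_X] at this
    simp only [← mul_neg_geom_sum, prod_mul_distrib, prod_const] at this
    simp only [A, B, pow_add (1 - z) T.card, pow_add (1 - z) U.card]
    linear_combination (1 - z) ^ (ρ + 1) * this
  have low : ∀ (f : ℝ → ℝ), Continuous f → f 1 = 0 →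
      (∀ z ∈ Set.Ioo (0 : ℝ) 1, A z ≤ f z) → False := fun f hf e1 e2 => by
    have := lim_le cA hf e2
    linarith
  have N0 : N ≠ 0 := by
    rintro rfl
    refine low 0 continuous_const rfl fun z hz => ?_
    obtain ⟨Φ, _, g2, _, _, g5⟩ := key z hz
    have y0 : 0 < (1 - z) ^ (T.card + n) := pow_pos (by linarith [hz.2]) _
    have : Φ ≠ 0 := by rintro rfl; norm_num at g2
    simp only [map_zero, mul_zero, mul_eq_zero, this, y0.ne', or_false] at g5
    simp [g5]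
  obtain ⟨N1, e1, e2⟩ := exists_eq_pow_rootMultiplicity_mul_and_not_dvd N N0 1
  set κ0 := N.rootMultiplicity 1
  have cN : Continuous fun z : ℝ => |aeval z N1| := N1.continuous_aeval.abs
  have n1 : 1 ≤ |aeval (1 : ℝ) N1| := by
    rw [dvd_iff_isRoot] at e2
    have : aeval (1 : ℝ) N1 = ((eval 1 N1 : ℤ) : ℝ) := by
      simpa using aeval_algebraMap_apply ℝ (1 : ℤ) N1
    rw [this]
    exact_mod_cast Int.one_le_abs e2
  have key2 : ∀ z ∈ Set.Ioo (0 : ℝ) 1, ∃ Φ : ℝ, Φ * z ^ ⌈c⌉₊ ≤ W ∧ 1 ≤ Φ * P ^ (ρ + 1) ∧ 0 ≤ A z ∧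
      0 ≤ B z ∧ 0 ≤ Φ ∧ A z * (1 - z) ^ (T.card + n) * Φ =
        (1 - z) ^ (U.card + (ρ + 1) + κ0) * (B z * |aeval z N1|) := by
    intro z hz
    obtain ⟨Φ, g1, g2, g3, g4, g5⟩ := key z hz
    have y0 : 0 < 1 - z := by linarith [hz.2]
    have g6 : 0 ≤ Φ := by
      by_contra g
      have : (0 : ℝ) ≤ P ^ (ρ + 1) := by positivity
      nlinarith
    refine ⟨Φ, g1, g2, g3, g4, g6, ?_⟩
    have := congrArg abs g5
    rw [abs_of_nonneg (by positivity), abs_mul, abs_of_nonneg (by positivity), e1] at this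
    rw [this, map_mul, abs_mul, map_pow, abs_pow, map_sub, aeval_X, aeval_C, map_one, abs_sub_comm,
      abs_of_pos y0, pow_add _ _ κ0]
    ring
  rcases le_or_gt (U.card + (ρ + 1) + κ0) (T.card + n) with hle | hlt
  · obtain ⟨j, hj⟩ := Nat.exists_eq_add_of_le hle
    have := lim_le (f := fun z => B z * |aeval z N1| * z ^ ⌈c⌉₊) (g := fun z => W * A z) (by fun_prop)
      (by fun_prop) fun z hz => by
        obtain ⟨Φ, g1, _, g3, _, g6, g5⟩ := key2 z hz
        have y0 : 0 < 1 - z := by linarith [hz.2]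
        have g7 : B z * |aeval z N1| = A z * (1 - z) ^ j * Φ := by
          refine mul_left_cancel₀ (pow_pos y0 (U.card + (ρ + 1) + κ0)).ne' ?_
          rw [← g5, hj, pow_add _ _ j]; ring
        have g8 : (1 - z) ^ j ≤ 1 := pow_le_one₀ y0.le (by linarith [hz.1])
        have z0 := hz.1.le
        rw [g7, mul_assoc, mul_comm W]
        exact mul_le_mul (mul_le_of_le_one_right g3 g8) g1 (by positivity) g3
    simp only [one_pow, mul_one, A1, B1] at this
    exact le_trans (le_mul_of_one_le_right (by positivity) n1) this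
  · obtain ⟨j, hj⟩ := Nat.exists_eq_add_of_lt hlt
    refine (low (fun z => (1 - z) ^ (j + 1) * (B z * |aeval z N1|) * P ^ (ρ + 1)) (by fun_prop) (by simp)
      fun z hz => ?_).elim
    obtain ⟨Φ, _, g2, g3, _, g6, g5⟩ := key2 z hz
    have y0 : 0 < 1 - z := by linarith [hz.2]
    have g7 : A z * Φ = (1 - z) ^ (j + 1) * (B z * |aeval z N1|) := by
      refine mul_left_cancel₀ (pow_pos y0 (T.card + n)).ne' ?_
      rw [hj, add_assoc _ j, pow_add _ _ (j + 1)] at g5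
      linear_combination g5
    rw [← g7, mul_assoc]
    exact le_mul_of_one_le_right g3 g2

end Pool.Agent.Lib.MP_9ff3e7_ag.G
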