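import Pool.Agent.Lib.MP_9ff3e7_ag.GProf

namespace Pool.Agent.Lib.MP_9ff3e7_ag.G

open Finset

set_option linter.unusedSectionVars false

variable {ι : Type} [Fintype ι] {a : ι → ℕ} {r : ℕ} {b : ℕ → ι → ℝ} {lam β : ℕ → ℝ} {R : ℝ}

/-- An exponent vector as a real vector. -/
def cv (v : ι → ℕ) : ι → ℝ := fun i => v i

lemma dg_cv (v : ι → ℕ) : dg a (cv v) = (∑ i, a i * v i : ℕ) := by simp [dg_apply, cv]

lemma cv_int (v : ι → ℕ) : IsInt (cv v) := fun i => ⟨v i, by simp [cv]⟩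

lemma cv_nonneg (v : ι → ℕ) : 0 ≤ cv v := fun _ => Nat.cast_nonneg _

/-- A subtorus containing all relations of degree below `s`, with Hilbert function of
leading coefficient at most `W`. -/
def Level (a : ι → ℕ) (s W : ℝ) : Prop := ∃ (U : Submodule ℝ (ι → ℝ)) (ρ : ℕ),
  (∀ v v' : ι → ℕ, ∑ i, a i * v i = ∑ i, a i * v' i → ((∑ i, a i * v i : ℕ) : ℝ) < s →
    cv v - cv v' ∈ U) ∧
  (∃ c : ℝ, 0 ≤ c ∧ ∀ t : ℕ, ∀ A : Finset (ι → ℕ), (∀ v ∈ A, ∑ i, a i * v i = t) →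
    (∀ v ∈ A, ∀ v' ∈ A, cv v - cv v' ∈ U → v = v') →
    (A.card : ℝ) ≤ W * ((t + c) ^ ρ / ρ.factorial)) ∧
  ∃ P : ℕ, 0 < P ∧ ∀ ν : ℕ, ∃ A : Finset (ι → ℕ), (∀ v ∈ A, ∑ i, a i * v i = ν * P) ∧
    (∀ v ∈ A, ∀ v' ∈ A, cv v - cv v' ∈ U → v = v') ∧ (ν + 1) ^ ρ ≤ A.card

lemma lower (hA : 0 < ∑ i, (a i : ℝ)) (h : KZ a r b lam) (k : ℕ) (hk : k ≤ r) :
    ∃ P : ℕ, 0 < P ∧ ∀ ν : ℕ, ∃ A : Finset (ι → ℕ), (∀ v ∈ A, ∑ i, a i * v i = ν * P) ∧
    (∀ v ∈ A, ∀ v' ∈ A, cv v - cv v' ∈ V b k → v = v') ∧ (ν + 1) ^ (r - k) ≤ A.card := by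
  classical
  obtain ⟨D, hD0, hD⟩ : ∃ D : ℕ, 0 < D ∧ ∀ i, ∑ l ∈ Ico k r, |b l i| ≤ D := by
    refine ⟨⌈∑ i, ∑ l ∈ Ico k r, |b l i|⌉₊ + 1, by omega, fun i => ?_⟩
    have h1 := single_le_sum (f := fun i => ∑ l ∈ Ico k r, |b l i|)
      (fun _ _ => sum_nonneg fun _ _ => abs_nonneg _) (mem_univ i)
    have h2 := Nat.le_ceil (∑ i, ∑ l ∈ Ico k r, |b l i|)
    push_cast; linarith
  have hA' : 0 < ∑ i, a i := by exact_mod_cast hA
  refine ⟨D * ∑ i, a i, by positivity, fun ν => ?_⟩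
  let e : (↥(Ico k r) → ℕ) → ℕ → ℕ := fun m l => if hl : l ∈ Ico k r then m ⟨l, hl⟩ else 0
  let y : (↥(Ico k r) → ℕ) → ι → ℝ := fun m => (fun _ => (ν * D : ℝ)) + ∑ l ∈ Ico k r, (e m l : ℝ) • b l
  have ex : ∀ m, ∃ v : ι → ℕ, (∀ l, m l < ν + 1) → cv v = y m := by
    intro m
    have h1 : IsInt (y m) := IsInt.add (fun _ => ⟨ν * D, by simp⟩) (IsInt.sum _ _ fun l hl => by
      simpa using (h.int l (mem_Ico.1 hl).2).smul (e m l))
    choose n hn using h1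
    refine ⟨fun i => (n i).toNat, fun hm => funext fun i => ?_⟩
    have h2 : 0 ≤ y m i := by
      have h3 : ∀ l ∈ Ico k r, -(ν * |b l i|) ≤ (e m l : ℝ) * b l i := fun l hl => by
        have h4 : (e m l : ℝ) ≤ ν := by
          simp only [e, dif_pos hl]; exact_mod_cast Nat.lt_succ_iff.1 (hm _)
        have h5 : (0 : ℝ) ≤ e m l := Nat.cast_nonneg _
        nlinarith [neg_abs_le (b l i), abs_nonneg (b l i)]
      have h6 := sum_le_sum h3
      rw [sum_neg_distrib, ← mul_sum] at h6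
      have h7 := mul_le_mul_of_nonneg_left (hD i) (Nat.cast_nonneg (α := ℝ) ν)
      simp only [y, Pi.add_apply, Finset.sum_apply, Pi.smul_apply, smul_eq_mul]
      linarith
    rw [hn i] at h2 ⊢
    have h3 : (((n i).toNat : ℕ) : ℤ) = n i := Int.toNat_of_nonneg (by exact_mod_cast h2)
    simp only [cv]
    exact_mod_cast h3
  choose v hv using ex
  have inj : ∀ m ∈ Fintype.piFinset fun _ : ↥(Ico k r) => range (ν + 1),
      ∀ m' ∈ Fintype.piFinset fun _ : ↥(Ico k r) => range (ν + 1),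
      cv (v m) - cv (v m') ∈ V b k → m = m' := by
    intro m hm m' hm' hV
    simp only [Fintype.mem_piFinset, mem_range] at hm hm'
    rw [hv m hm, hv m' hm'] at hV
    simp only [y, add_sub_add_left_eq_sub, ← sum_sub_distrib, ← sub_smul] at hV
    have := h.indep k (r - k) (by omega) _ (by rwa [show k + (r - k) = r by omega])
    funext l
    have h1 := this l (by rw [show k + (r - k) = r by omega]; exact l.2)
    simp only [e, dif_pos l.2] at h1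
    exact_mod_cast sub_eq_zero.1 h1
  refine ⟨(Fintype.piFinset fun _ : ↥(Ico k r) => range (ν + 1)).image v, ?_, ?_, ?_⟩
  · simp only [mem_image]
    rintro _ ⟨m, hm, rfl⟩
    simp only [Fintype.mem_piFinset, mem_range] at hm
    have h1 := dg_cv (a := a) (v m)
    rw [hv m hm] at h1
    simp only [y, map_add, map_sum, map_smul] at h1
    rw [sum_eq_zero fun l hl => by rw [h.deg0 l (mem_Ico.1 hl).2, smul_zero], add_zero, dg_apply,
      ← sum_mul] at h1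
    have : ((∑ i, a i * v m i : ℕ) : ℝ) = (ν * (D * ∑ i, a i) : ℕ) := by
      rw [← h1]; push_cast; ring
    exact_mod_cast this
  · simp only [mem_image]
    rintro _ ⟨m, hm, rfl⟩ _ ⟨m', hm', rfl⟩ hV
    rw [inj m hm m' hm' hV]
  · rw [card_image_of_injOn fun m hm m' hm' e => inj m hm m' hm' (by simp [e])]
    simp

lemma upper (ha : ∀ i, 0 < a i) (h : KZ a r b lam) (full : ∀ v, dg a v = 0 → v ∈ V b r)
    (p0 : ι → ℝ) (hp0 : IsInt p0) (hd : dg a p0 = 1) (k : ℕ) (hk : k ≤ r) (t : ℕ)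
    (A : Finset (ι → ℕ)) (h1 : ∀ v ∈ A, ∑ i, a i * v i = t)
    (h2 : ∀ v ∈ A, ∀ v' ∈ A, cv v - cv v' ∈ V b k → v = v') :
    ∃ A' : Finset (ℕ → ℕ), A'.card = A.card ∧ (∀ x ∈ A', ∀ l, l ∉ Ico k r → x l = 0) ∧
      ∀ x ∈ A', S a r b t fun l => (x l : ℝ) := by
  classical
  have ex : ∀ v, ∃ c : ℕ → ℤ, v ∈ A → cv v - (t : ℝ) • p0 = ∑ l ∈ range r, (c l : ℝ) • b l := by
    intro v
    by_cases hv : v ∈ A
    · obtain ⟨c, hc⟩ := h.sat ha le_rfl ((cv_int v).sub (by simpa using hp0.smul t))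
        (full _ (by rw [map_sub, map_smul, dg_cv, h1 v hv, hd]; simp))
      exact ⟨c, fun _ => hc⟩
    · exact ⟨0, fun h => absurd h hv⟩
  choose c hc using ex
  obtain ⟨n, rfl⟩ : ∃ n, r = k + n := ⟨r - k, by omega⟩
  have sp : ∀ v ∈ A, cv v = (t : ℝ) • p0 + ∑ l ∈ Ico k (k + n), (c v l : ℝ) • b l +
      ∑ l ∈ range k, (c v l : ℝ) • b l := fun v hv => by
    rw [add_assoc, add_comm (∑ l ∈ Ico k (k + n), _), sum_range_add_sum_Ico _ hk, ← hc v hv]; abel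
  obtain ⟨m, m1, m2, m3⟩ := compress (b := b) cone_QK k n ((t : ℝ) • p0) A c (fun v hv v' hv' e => by
      refine h2 v hv v' hv' ?_
      rw [sp v hv, sp v' hv', sum_congr rfl (s₁ := Ico k (k + n)) fun l hl => by rw [e l hl],
        add_sub_add_left_eq_sub]
      exact Submodule.sub_mem _ (mem_V_iff.2 ⟨_, rfl⟩) (mem_V_iff.2 ⟨_, rfl⟩))
    fun v hv => Tr_zero_iff.2 ⟨_, mem_V_iff.2 ⟨_, rfl⟩, by rw [← sp v hv]; exact cv_nonneg v⟩
  refine ⟨A.image m, card_image_of_injOn fun v hv v' hv' e => m1 v hv v' hv' e, ?_, ?_⟩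
  · simp only [mem_image]
    rintro _ ⟨v, _, rfl⟩
    exact m2 v
  · simp only [mem_image]
    rintro _ ⟨v, hv, rfl⟩
    exact ⟨_, by rw [map_smul, hd]; simp, m3 v hv⟩

/-- The geometric certificate attached to a gap. -/
theorem geo (ha : ∀ i, 0 < a i) (hr : r + 1 = Fintype.card ι) (hr0 : 0 < r) (hrR : (r : ℝ) ≤ R)
    (rel : ∀ v, IsInt v → dg a v = 0 → v ≠ 0 → 2 * R + 4 ≤ nm a v)
    (p0 : ι → ℝ) (hp0 : IsInt p0) (hd : dg a p0 = 1) (m : ℕ) (hm : ∀ γ : ι → ℕ, ∑ i, a i * γ i ≠ m) :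
    ∃ σ ω : ℕ → ℝ, (∀ l, 2 * R + 4 ≤ σ l) ∧
      m + ∑ i, (a i : ℝ) ≤ r * (Ph R + 1) + ∑ l ∈ range r, ω l * G1 R (σ l) ∧
      ∀ s, Level a s (Real.exp (-∑ l ∈ (range r).filter (fun l => s ≤ σ l), ω l)) := by
  classical
  have hR : 1 ≤ R := le_trans (by exact_mod_cast hr0) hrR
  obtain ⟨i0⟩ : Nonempty ι := Fintype.card_pos_iff.1 (by omega)
  have hA : 0 < ∑ i, (a i : ℝ) := sum_pos (fun i _ => Nat.cast_pos.2 (ha i)) ⟨i0, mem_univ _⟩
  obtain ⟨b, lam, hK, full⟩ := exists_KZ ha r hr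
  obtain ⟨β, β0, β1, β2⟩ := exists_beta hA hK (m + ∑ i, (a i : ℝ)) fun t ht =>
    S.gap hA hK full m _ (hp0.smul ((m + ∑ i, a i : ℕ) : ℤ)) (by
        rw [map_smul, hd]; simp) hm ht
  have β3 : ∀ l < r, β l ≤ lam l := fun l hl => by
    have := β2 _ _ (fun i => by by_cases e : i = l <;> simp [e]) (S.single hA hK hl)
    rwa [sum_eq_single l (fun j _ hj => by simp [hj]) (fun h => absurd (mem_range.2 hl) h),
      Pi.single_eq_same, mul_one] at this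
  have h0 : 2 * R + 4 ≤ lam 0 := by
    obtain ⟨w, hw, h1⟩ := hK.att 0 hr0
    rw [show w = 0 by simpa [V] using hw, add_zero] at h1
    exact (rel _ (hK.int 0 hr0) (hK.deg0 0 hr0) fun e => hK.nmem 0 hr0 (by simp [e])).trans h1
  obtain ⟨ω, ω1, ω2⟩ := profile hR hrR ha hA hK β0 β3 (by linarith) hr0
  refine ⟨sig lam, ω, fun l => h0.trans (sig_mono lam (Nat.zero_le l)), ?_, fun s => ?_⟩
  · simp only [sum_add_distrib, sum_sub_distrib, sum_const, card_range, nsmul_eq_mul] at ω2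
    simp only [mul_comm (ω _)]
    linarith
  have ex : ∃ k, k = r ∨ s ≤ sig lam k := ⟨r, Or.inl rfl⟩
  set k := Nat.find ex with hk
  have k1 : k ≤ r := Nat.find_min' ex (Or.inl rfl)
  have k2 : k = r ∨ s ≤ sig lam k := Nat.find_spec ex
  have k3 : ∀ l < k, sig lam l < s := fun l hl => not_le.1 fun h => Nat.find_min ex hl (Or.inr h)
  have e : (range r).filter (fun l => s ≤ sig lam l) = Ico k r := by
    ext l
    simp only [mem_filter, mem_range, mem_Ico]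
    constructor
    · exact fun h => ⟨not_lt.1 fun h1 => absurd (k3 l h1) (not_lt.2 h.2), h.1⟩
    · exact fun h => ⟨h.2, (k2.resolve_left (by omega)).trans (sig_mono lam h.1)⟩
  rw [e]
  have hi : k = r ∨ 2 * R ≤ lam k := by
    refine k2.imp id fun h => ?_
    rcases hk0 : k with _ | j
    · linarith
    · rw [hk0] at h
      have h1 := k3 j (by omega)
      have h2 : lam 0 ≤ sig lam j := sig_mono lam (Nat.zero_le j)
      rcases le_max_iff.1 h with h | h <;> linarith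
  obtain ⟨c, c0, c1⟩ := (ω1 k k1 hi).final β0 (by linarith) hrR β2
  refine ⟨V b k, r - k, fun v v' e1 e2 => ?_, ⟨c, c0, fun t A h1 h2 => ?_⟩, lower hA hK k k1⟩
  · have d0 : dg a (cv v - cv v') = 0 := by rw [map_sub, dg_cv, dg_cv, e1, sub_self]
    by_cases hkr : k = r
    · rw [hkr]; exact full _ d0
    obtain ⟨i, i1, i2⟩ := sig_eq lam k
    refine V_mono i1 ?_
    by_contra h
    have h1 := nm_sub_le (a := a) (cv_nonneg v) (cv_nonneg v')
    rw [dg_cv, dg_cv, ← e1, add_self_div_two] at h1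
    have := hK.min i (by omega) _ _ ((cv_int v).sub (cv_int v')) d0 h
      ⟨0, Submodule.zero_mem _, by rw [add_zero]⟩
    have := k2.resolve_left hkr
    linarith
  · obtain ⟨A', g1, g2, g3⟩ := upper ha hK full p0 hp0 hd k k1 t A h1 h2
    rw [← g1]
    exact c1 t (Nat.cast_nonneg _) A' g2 g3

end Pool.Agent.Lib.MP_9ff3e7_ag.G
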