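import Mathlib

namespace Pool.Agent.Lib.MP_9ff3e7_ag.G

open Finset MvPolynomial

set_option linter.unusedSectionVars false

variable {σ : Type} [Fintype σ] {w : σ → ℕ}

lemma comp_mul {g : MvPolynomial σ ℂ} {s : ℕ} (hg : g.IsWeightedHomogeneous w s)
    (c : MvPolynomial σ ℂ) (t : ℕ) : weightedHomogeneousComponent w t (g * c) =
      if s ≤ t then g * weightedHomogeneousComponent w (t - s) c else 0 := by
  let := weightedGradedAlgebra ℂ w
  have := DirectSum.coe_decompose_mul_of_left_mem (weightedHomogeneousSubmodule ℂ w) (a := g) (b := c)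
    t hg
  simp only [← weightedDecomposition.decompose'_apply]
  exact this

lemma sum_comp (g : MvPolynomial σ ℂ) :
    ∑ s ∈ range (weightedTotalDegree w g + 1), weightedHomogeneousComponent w s g = g := by
  ext d
  simp only [coeff_sum, coeff_weightedHomogeneousComponent, sum_ite_eq, mem_range]
  split_ifs with h
  · rfl
  · by_contra h1
    exact h (Nat.lt_succ_of_le (le_weightedTotalDegree w (mem_support_iff.2 (Ne.symm h1))))

/-- Homogeneous ideals. -/
def Hom (w : σ → ℕ) (I : Ideal (MvPolynomial σ ℂ)) : Prop :=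
  ∀ p ∈ I, ∀ t, weightedHomogeneousComponent w t p ∈ I

/-- The graded piece of an ideal. -/
noncomputable def pc (w : σ → ℕ) (I : Ideal (MvPolynomial σ ℂ)) (t : ℕ) :
    Submodule ℂ (MvPolynomial σ ℂ) := I.restrictScalars ℂ ⊓ weightedHomogeneousSubmodule ℂ w t

lemma mem_pc {I : Ideal (MvPolynomial σ ℂ)} {t : ℕ} {p : MvPolynomial σ ℂ} :
    p ∈ pc w I t ↔ p ∈ I ∧ p.IsWeightedHomogeneous w t := Iff.rfl

lemma pc_fin (hw : ∀ i, 0 < w i) (I : Ideal (MvPolynomial σ ℂ)) (t : ℕ) :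
    FiniteDimensional ℂ (pc w I t) := by
  have : FiniteDimensional ℂ (weightedHomogeneousSubmodule ℂ w t) :=
    Module.Finite.iff_fg.2 (weightedHomogeneousSubmodule_fg ℂ w (fun i => (hw i).ne') t)
  exact Submodule.finiteDimensional_of_le inf_le_right

/-- The Hilbert series of a subquotient. -/
noncomputable def Hs (w : σ → ℕ) (I J : Ideal (MvPolynomial σ ℂ)) : PowerSeries ℤ :=
  PowerSeries.mk fun t => (Module.finrank ℂ (pc w J t) : ℤ) - Module.finrank ℂ (pc w I t)

/-- The ideal `I + h J`. -/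
noncomputable def I1 (h : MvPolynomial σ ℂ) (I J : Ideal (MvPolynomial σ ℂ)) :
    Ideal (MvPolynomial σ ℂ) := I ⊔ Submodule.map (LinearMap.mulLeft _ h) J

/-- The ideal `J ∩ (I : h)`. -/
noncomputable def I2 (h : MvPolynomial σ ℂ) (I J : Ideal (MvPolynomial σ ℂ)) :
    Ideal (MvPolynomial σ ℂ) := J ⊓ Submodule.comap (LinearMap.mulLeft _ h) I

variable {h : MvPolynomial σ ℂ} {I J : Ideal (MvPolynomial σ ℂ)} {e : ℕ}

lemma mem_I1 {p : MvPolynomial σ ℂ} : p ∈ I1 h I J ↔ ∃ i ∈ I, ∃ j ∈ J, p = i + h * j := by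
  simp only [I1, Submodule.mem_sup, Submodule.mem_map, LinearMap.mulLeft_apply]
  constructor
  · rintro ⟨i, hi, _, ⟨j, hj, rfl⟩, rfl⟩
    exact ⟨i, hi, j, hj, rfl⟩
  · rintro ⟨i, hi, j, hj, rfl⟩
    exact ⟨i, hi, _, ⟨j, hj, rfl⟩, rfl⟩

lemma mem_I2 {p : MvPolynomial σ ℂ} : p ∈ I2 h I J ↔ p ∈ J ∧ h * p ∈ I := Iff.rfl

lemma Hom.i1 (hh : h.IsWeightedHomogeneous w e) (hI : Hom w I) (hJ : Hom w J) : Hom w (I1 h I J) := by
  intro p hp t
  obtain ⟨i, hi, j, hj, rfl⟩ := mem_I1.1 hp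
  rw [map_add, comp_mul hh]
  split_ifs
  · exact mem_I1.2 ⟨_, hI i hi t, _, hJ j hj _, rfl⟩
  · exact mem_I1.2 ⟨_, hI i hi t, 0, J.zero_mem, by simp⟩

lemma Hom.i2 (hh : h.IsWeightedHomogeneous w e) (hI : Hom w I) (hJ : Hom w J) : Hom w (I2 h I J) := by
  intro p hp t
  refine mem_I2.2 ⟨hJ p hp.1 t, ?_⟩
  have := hI _ (mem_I2.1 hp).2 (t + e)
  rwa [comp_mul hh, if_pos (by omega), add_tsub_cancel_right] at this

lemma pc_low (hh : h.IsWeightedHomogeneous w e) (hI : Hom w I) {t : ℕ} (ht : t < e) :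
    pc w (I1 h I J) t = pc w I t := by
  ext p
  simp only [mem_pc]
  refine and_congr_left fun hp => ⟨fun h1 => ?_, fun h1 => mem_I1.2 ⟨p, h1, 0, J.zero_mem, by simp⟩⟩
  obtain ⟨i, hi, j, _, rfl⟩ := mem_I1.1 h1
  rw [← hp.weightedHomogeneousComponent_same, map_add, comp_mul hh, if_neg (by omega), add_zero]
  exact hI i hi t

lemma pc_high (hw : ∀ i, 0 < w i) (hh : h.IsWeightedHomogeneous w e) (hI : Hom w I) (hJ : Hom w J)
    (n : ℕ) : Module.finrank ℂ (pc w (I1 h I J) (n + e)) + Module.finrank ℂ (pc w (I2 h I J) n) =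
      Module.finrank ℂ (pc w I (n + e)) + Module.finrank ℂ (pc w J n) := by
  by_cases h0 : h = 0
  · have e1 : I1 h I J = I := by
      ext p; simpa [mem_I1, h0] using fun _ => ⟨0, J.zero_mem⟩
    have e2 : I2 h I J = J := by ext p; simp [mem_I2, h0]
    rw [e1, e2]
  have inj : Function.Injective (LinearMap.mulLeft ℂ h) := mul_right_injective₀ h0
  have e1 : pc w (I1 h I J) (n + e) =
      pc w I (n + e) ⊔ Submodule.map (LinearMap.mulLeft ℂ h) (pc w J n) := by
    ext p
    simp only [Submodule.mem_sup, Submodule.mem_map, LinearMap.mulLeft_apply, mem_pc]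
    constructor
    · rintro ⟨h1, hp⟩
      obtain ⟨i, hi, j, hj, rfl⟩ := mem_I1.1 h1
      refine ⟨_, ⟨hI i hi (n + e), weightedHomogeneousComponent_isWeightedHomogeneous _ _⟩, _,
        ⟨_, ⟨hJ j hj n, weightedHomogeneousComponent_isWeightedHomogeneous _ _⟩, rfl⟩, ?_⟩
      rw [← hp.weightedHomogeneousComponent_same, map_add, comp_mul hh, if_pos (by omega),
        add_tsub_cancel_right]
    · rintro ⟨i, hi, _, ⟨j, hj, rfl⟩, rfl⟩
      exact ⟨mem_I1.2 ⟨i, hi.1, j, hj.1, rfl⟩, hi.2.add (add_comm e n ▸ hh.mul hj.2)⟩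
  have e2 : pc w I (n + e) ⊓ Submodule.map (LinearMap.mulLeft ℂ h) (pc w J n) =
      Submodule.map (LinearMap.mulLeft ℂ h) (pc w (I2 h I J) n) := by
    ext p
    simp only [Submodule.mem_inf, Submodule.mem_map, LinearMap.mulLeft_apply, mem_pc, mem_I2]
    constructor
    · rintro ⟨h1, j, hj, rfl⟩
      exact ⟨j, ⟨⟨hj.1, h1.1⟩, hj.2⟩, rfl⟩
    · rintro ⟨j, hj, rfl⟩
      exact ⟨⟨hj.1.2, add_comm e n ▸ hh.mul hj.2⟩, j, ⟨hj.1.1, hj.2⟩, rfl⟩
  have := pc_fin hw I (n + e)
  have := pc_fin hw J n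
  have e3 := Submodule.finrank_sup_add_finrank_inf_eq (pc w I (n + e))
    (Submodule.map (LinearMap.mulLeft ℂ h) (pc w J n))
  rw [← e1, e2, ← (Submodule.equivMapOfInjective _ inj _).finrank_eq,
    ← (Submodule.equivMapOfInjective _ inj _).finrank_eq] at e3
  exact e3

lemma Hs_step (hw : ∀ i, 0 < w i) (hh : h.IsWeightedHomogeneous w e) (hI : Hom w I) (hJ : Hom w J) :
    (1 - PowerSeries.X ^ e) * Hs w I J =
      Hs w (I1 h I J) J - PowerSeries.X ^ e * Hs w I (I2 h I J) := by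
  ext t
  simp only [sub_mul, one_mul, map_sub, PowerSeries.coeff_X_pow_mul', Hs, PowerSeries.coeff_mk]
  split_ifs with ht
  · obtain ⟨n, rfl⟩ : ∃ n, t = n + e := ⟨t - e, by omega⟩
    have := pc_high hw hh hI hJ n
    rw [add_tsub_cancel_right]
    omega
  · rw [pc_low hh hI (by omega)]

lemma Hs_base (hJ : Hom w J) (hIJ : I ≤ J)
    (hz : ∀ y : σ → ℂ, (∀ g, (∀ p ∈ J, g * p ∈ I) → eval y g = 0) → y = 0) :
    ∃ Q : Polynomial ℤ, Hs w I J = Q := by
  classical
  set A : Ideal (MvPolynomial σ ℂ) := I.colon J with hA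
  have mA : ∀ g, g ∈ A ↔ ∀ p ∈ J, g * p ∈ I := fun g => Submodule.mem_colon
  have rad : ∀ i, ∃ n, (X i : MvPolynomial σ ℂ) ^ n ∈ A := fun i => by
    have : (X i : MvPolynomial σ ℂ) ∈ A.radical := by
      rw [← vanishingIdeal_zeroLocus_eq_radical (K := ℂ), mem_vanishingIdeal_iff]
      intro y hy
      rw [hz y fun g hg => by simpa [aeval_eq_eval] using hy g ((mA g).2 hg)]
      simp
    exact this
  choose n hn using rad
  have big : ∀ t, ∑ i, w i * n i < t → ∀ c : MvPolynomial σ ℂ, c.IsWeightedHomogeneous w t → c ∈ A := by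
    intro t ht c hc
    rw [c.as_sum]
    refine A.sum_mem fun d hd => ?_
    have h1 := hc (mem_support_iff.1 hd)
    obtain ⟨i, hi⟩ : ∃ i, n i ≤ d i := by
      by_contra h2
      push Not at h2
      have h3 : ∑ i, w i * d i ≤ ∑ i, w i * n i :=
        sum_le_sum fun i _ => Nat.mul_le_mul_left _ (h2 i).le
      rw [Finsupp.weight_apply, Finsupp.sum_fintype _ _ (by simp)] at h1
      simp only [smul_eq_mul, mul_comm (d _)] at h1
      omega
    have : monomial d (coeff d c) = monomial (d - Finsupp.single i (n i)) (coeff d c) * X i ^ n i := by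
      rw [X_pow_eq_monomial, monomial_mul, mul_one, tsub_add_cancel_of_le (Finsupp.single_le_iff.2 hi)]
    rw [this]
    exact A.mul_mem_left _ (hn i)
  obtain ⟨G, hG⟩ := (IsNoetherian.noetherian J : J.FG)
  set D := ∑ i, w i * n i + G.sup (weightedTotalDegree w) with hD
  have key : ∀ p ∈ J, ∀ c t, D < t → weightedHomogeneousComponent w t (p * c) ∈ I := by
    intro p hp
    rw [← hG] at hp
    induction hp using Submodule.span_induction with
    | mem g hg =>
      intro c t ht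
      have hgJ : g ∈ J := hG ▸ Submodule.subset_span hg
      have h1 : weightedTotalDegree w g ≤ G.sup (weightedTotalDegree w) := le_sup hg
      rw [← sum_comp (w := w) g, sum_mul, map_sum]
      refine I.sum_mem fun s hs => ?_
      have := mem_range.1 hs
      rw [comp_mul (weightedHomogeneousComponent_isWeightedHomogeneous _ _), if_pos (by omega), mul_comm]
      exact (mA _).1 (big _ (by omega) _ (weightedHomogeneousComponent_isWeightedHomogeneous _ _)) _
        (hJ g hgJ s)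
    | zero => intro c t _; simp
    | add p q _ _ h1 h2 => intro c t ht; rw [add_mul, map_add]; exact I.add_mem (h1 c t ht) (h2 c t ht)
    | smul a p _ h1 => intro c t ht; rw [smul_eq_mul, mul_comm a, mul_assoc]; exact h1 _ t ht
  refine ⟨PowerSeries.trunc (D + 1) (Hs w I J), ?_⟩
  ext t
  rw [Polynomial.coeff_coe, PowerSeries.coeff_trunc]
  split_ifs with ht
  · rfl
  · have : pc w J t = pc w I t := by
      ext p
      simp only [mem_pc]
      refine and_congr_left fun hp => ⟨fun h1 => ?_, fun h1 => hIJ h1⟩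
      have := key p h1 1 t (by omega)
      rwa [mul_one, hp.weightedHomogeneousComponent_same] at this
    rw [Hs, PowerSeries.coeff_mk, this, sub_self]

/-- Hilbert Serre with respect to a system of forms without common zero on the support. -/
theorem Hs_poly (hw : ∀ i, 0 < w i) {κ : Type} (T : Finset κ) (f : κ → MvPolynomial σ ℂ) (d : κ → ℕ)
    (hf : ∀ k ∈ T, (f k).IsWeightedHomogeneous w (d k)) : ∀ I J : Ideal (MvPolynomial σ ℂ),
    Hom w I → Hom w J → I ≤ J →
    (∀ y : σ → ℂ, (∀ g, (∀ p ∈ J, g * p ∈ I) → eval y g = 0) → (∀ k ∈ T, eval y (f k) = 0) → y = 0) →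
    ∃ Q : Polynomial ℤ, (∏ k ∈ T, (1 - PowerSeries.X ^ d k)) * Hs w I J = Q := by
  classical
  induction T using Finset.induction_on with
  | empty =>
    intro I J _ hJ hIJ hz
    simpa using Hs_base hJ hIJ fun y hy => hz y hy (by simp)
  | insert k T hk ih =>
    intro I J hI hJ hIJ hz
    have hh := hf k (mem_insert_self _ _)
    have ih' := ih fun k hk => hf k (mem_insert_of_mem hk)
    obtain ⟨Q1, h1⟩ := ih' (I1 (f k) I J) J (hI.i1 hh hJ) hJ (fun p hp => by
        obtain ⟨i, hi, j, hj, rfl⟩ := mem_I1.1 hp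
        exact J.add_mem (hIJ hi) (J.mul_mem_left _ hj)) fun y h1 h2 =>
      hz y (fun g hg => h1 g fun p hp => mem_I1.2 ⟨_, hg p hp, 0, J.zero_mem, by simp⟩) (by
        simp only [mem_insert, forall_eq_or_imp]
        exact ⟨h1 _ fun p hp => mem_I1.2 ⟨0, I.zero_mem, p, hp, by simp⟩, h2⟩)
    obtain ⟨Q2, h2⟩ := ih' I (I2 (f k) I J) hI (hI.i2 hh hJ)
      (fun p hp => mem_I2.2 ⟨hIJ hp, I.mul_mem_left _ hp⟩) fun y h1 h2 =>
      hz y (fun g hg => h1 g fun p hp => hg p hp.1) (by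
        simp only [mem_insert, forall_eq_or_imp]
        exact ⟨h1 _ fun p hp => (mem_I2.1 hp).2, h2⟩)
    refine ⟨Q1 - Polynomial.X ^ d k * Q2, ?_⟩
    rw [prod_insert hk, mul_comm (1 - _), mul_assoc, Hs_step hw hh hI hJ, mul_sub, h1, mul_left_comm, h2]
    simp

end Pool.Agent.Lib.MP_9ff3e7_ag.G
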