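import Pool.Agent.Lib.MP_9ff3e7_ag.GTr

namespace Pool.Agent.Lib.MP_9ff3e7_ag.G

open Finset

set_option linter.unusedSectionVars false

variable {ι : Type} [Fintype ι]

/-- The weighted degree. -/
noncomputable def dg (a : ι → ℕ) : (ι → ℝ) →ₗ[ℝ] ℝ where
  toFun v := ∑ i, (a i : ℝ) * v i
  map_add' v w := by simp [mul_add, sum_add_distrib]
  map_smul' c v := by simp [mul_sum, mul_left_comm]

lemma dg_apply (a : ι → ℕ) (v : ι → ℝ) : dg a v = ∑ i, (a i : ℝ) * v i := rfl

/-- The degree of a relation. -/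
noncomputable def nm (a : ι → ℕ) (v : ι → ℝ) : ℝ := (∑ i, (a i : ℝ) * |v i|) / 2

/-- Integral vectors. -/
def IsInt (v : ι → ℝ) : Prop := ∀ i, ∃ n : ℤ, v i = n

lemma IsInt.add {v w : ι → ℝ} (hv : IsInt v) (hw : IsInt w) : IsInt (v + w) := fun i => by
  obtain ⟨n, h1⟩ := hv i
  obtain ⟨m, h2⟩ := hw i
  exact ⟨n + m, by simp [h1, h2]⟩

lemma IsInt.smul {v : ι → ℝ} (hv : IsInt v) (c : ℤ) : IsInt ((c : ℝ) • v) := fun i => by
  obtain ⟨n, h1⟩ := hv i
  exact ⟨c * n, by simp [h1]⟩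

lemma IsInt.sub {v w : ι → ℝ} (hv : IsInt v) (hw : IsInt w) : IsInt (v - w) := fun i => by
  obtain ⟨n, h1⟩ := hv i
  obtain ⟨m, h2⟩ := hw i
  exact ⟨n - m, by simp [h1, h2]⟩

lemma IsInt.sum {κ : Type} (s : Finset κ) (v : κ → ι → ℝ) (h : ∀ k ∈ s, IsInt (v k)) :
    IsInt (∑ k ∈ s, v k) :=
  Finset.sum_induction _ _ (fun _ _ => IsInt.add) (fun _ => ⟨0, by simp⟩) h

variable {a : ι → ℕ}

lemma nm_nonneg (v : ι → ℝ) : 0 ≤ nm a v :=
  div_nonneg (sum_nonneg fun _ _ => by positivity) (by norm_num)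

lemma nm_add (v w : ι → ℝ) : nm a (v + w) ≤ nm a v + nm a w := by
  unfold nm
  rw [← add_div, ← sum_add_distrib]
  refine div_le_div_of_nonneg_right (sum_le_sum fun i _ => ?_) (by norm_num)
  rw [← mul_add]
  exact mul_le_mul_of_nonneg_left (abs_add_le _ _) (Nat.cast_nonneg _)

lemma nm_smul (c : ℝ) (v : ι → ℝ) : nm a (c • v) = |c| * nm a v := by
  unfold nm
  rw [← mul_div_assoc, mul_sum]
  congr 1
  exact sum_congr rfl fun i _ => by simp [abs_mul, mul_left_comm]

lemma nm_neg (v : ι → ℝ) : nm a (-v) = nm a v := by simp [nm]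

lemma nm_sum {κ : Type} (s : Finset κ) (v : κ → ι → ℝ) : nm a (∑ k ∈ s, v k) ≤ ∑ k ∈ s, nm a (v k) := by
  classical
  induction s using Finset.induction_on with
  | empty => simp [nm]
  | insert k s hk ih => rw [sum_insert hk, sum_insert hk]; linarith [nm_add (a := a) (v k) (∑ k ∈ s, v k)]

lemma abs_le_nm (ha : ∀ i, 0 < a i) (v : ι → ℝ) (i : ι) : |v i| ≤ 2 * nm a v := by
  have h1 : (a i : ℝ) * |v i| ≤ ∑ i, (a i : ℝ) * |v i| :=
    single_le_sum (f := fun i => (a i : ℝ) * |v i|) (fun _ _ => by positivity) (mem_univ i)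
  have h2 : (1 : ℝ) ≤ a i := Nat.one_le_cast.2 (ha i)
  unfold nm
  nlinarith [abs_nonneg (v i)]

lemma nm_sub_le {p q : ι → ℝ} (hp : 0 ≤ p) (hq : 0 ≤ q) : nm a (p - q) ≤ (dg a p + dg a q) / 2 := by
  unfold nm
  rw [dg_apply, dg_apply, ← sum_add_distrib]
  refine div_le_div_of_nonneg_right (sum_le_sum fun i _ => ?_) (by norm_num)
  rw [← mul_add]
  refine mul_le_mul_of_nonneg_left ?_ (Nat.cast_nonneg _)
  have h1 := hp i
  have h2 := hq i
  simp only [Pi.zero_apply, Pi.sub_apply] at h1 h2 ⊢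
  exact abs_le.2 ⟨by linarith, by linarith⟩

/-- A relation is the difference of two nonnegative vectors of its degree. -/
lemma exists_neg_part {v : ι → ℝ} (hv : dg a v = 0) :
    ∃ p : ι → ℝ, 0 ≤ p ∧ 0 ≤ p + v ∧ dg a p = nm a v := by
  refine ⟨fun i => (|v i| - v i) / 2, fun i => ?_, fun i => ?_, ?_⟩
  · have := le_abs_self (v i)
    simp only [Pi.zero_apply]; linarith
  · have := neg_abs_le (v i)
    simp only [Pi.zero_apply, Pi.add_apply]; linarith
  · rw [dg_apply] at hv ⊢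
    unfold nm
    have : ∑ i, (a i : ℝ) * ((|v i| - v i) / 2) =
        (∑ i, (a i : ℝ) * |v i| - ∑ i, (a i : ℝ) * v i) / 2 := by
      rw [← sum_sub_distrib, sum_div]
      exact sum_congr rfl fun i _ => by ring
    rw [this, hv, sub_zero]

lemma exists_min_nm (ha : ∀ i, 0 < a i) (W : Submodule ℝ (ι → ℝ)) (v : ι → ℝ) :
    ∃ w ∈ W, ∀ w' ∈ W, nm a (v + w) ≤ nm a (v + w') := by
  have hc : Continuous fun w : ι → ℝ => nm a (v + w) := by
    unfold nm; fun_prop
  have hK : IsCompact (Metric.closedBall (0 : ι → ℝ) (4 * nm a v) ∩ W) :=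
    (isCompact_closedBall _ _).inter_right W.closed_of_finiteDimensional
  have h0 : (0 : ι → ℝ) ∈ Metric.closedBall (0 : ι → ℝ) (4 * nm a v) ∩ W :=
    ⟨Metric.mem_closedBall_self (by linarith [nm_nonneg (a := a) v]), W.zero_mem⟩
  obtain ⟨w, hw, hmin⟩ := hK.exists_isMinOn ⟨0, h0⟩ hc.continuousOn
  refine ⟨w, hw.2, fun w' hw' => ?_⟩
  by_cases h : nm a (v + w') ≤ nm a v
  · refine hmin ⟨?_, hw'⟩
    rw [mem_closedBall_zero_iff, pi_norm_le_iff_of_nonneg (by linarith [nm_nonneg (a := a) v])]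
    intro i
    have h1 := abs_le_nm ha w' i
    have h2 := nm_add (a := a) (v + w') (-v)
    rw [nm_neg, show v + w' + -v = w' by abel] at h2
    rw [Real.norm_eq_abs]
    linarith
  · have := hmin h0
    simp only [Set.mem_ofPred_eq, add_zero] at this
    linarith

lemma finite_nm (ha : ∀ i, 0 < a i) (R : ℝ) : {v : ι → ℝ | IsInt v ∧ nm a v ≤ R}.Finite := by
  classical
  refine ((Fintype.piFinset fun _ : ι => Icc (-⌈2 * R⌉) ⌈2 * R⌉).finite_toSet.image
    fun c i => (c i : ℝ)).subset ?_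
  rintro v ⟨h1, h2⟩
  choose c hc using h1
  refine ⟨c, ?_, funext fun i => (hc i).symm⟩
  simp only [Fintype.coe_piFinset, Set.mem_pi, Set.mem_univ, coe_Icc, Set.mem_Icc, true_implies]
  intro i
  have h3 := abs_le_nm ha v i
  have h4 := Int.le_ceil (2 * R)
  rw [hc i] at h3
  have h5 : ((|c i| : ℤ) : ℝ) ≤ (⌈2 * R⌉ : ℤ) := by push_cast; linarith
  exact abs_le.1 (by exact_mod_cast h5)

/-- Projected norm at most `t`. -/
def Nle (a : ι → ℕ) (b : ℕ → ι → ℝ) (l : ℕ) (v : ι → ℝ) (t : ℝ) : Prop :=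
  ∃ w ∈ V b l, nm a (v + w) ≤ t

/-- A Korkine Zolotarev family of relations. -/
structure KZ (a : ι → ℕ) (r : ℕ) (b : ℕ → ι → ℝ) (lam : ℕ → ℝ) : Prop where
  int : ∀ l < r, IsInt (b l)
  deg0 : ∀ l < r, dg a (b l) = 0
  nmem : ∀ l < r, b l ∉ V b l
  att : ∀ l < r, Nle a b l (b l) (lam l)
  min : ∀ l < r, ∀ v t, IsInt v → dg a v = 0 → v ∉ V b l → Nle a b l v t → lam l ≤ t

variable {r : ℕ} {b : ℕ → ι → ℝ} {lam : ℕ → ℝ}

lemma KZ.dgV (h : KZ a r b lam) {l : ℕ} (hl : l ≤ r) {v : ι → ℝ} (hv : v ∈ V b l) : dg a v = 0 := by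
  obtain ⟨c, rfl⟩ := mem_V_iff.1 hv
  rw [map_sum]
  exact sum_eq_zero fun i hi => by
    rw [map_smul, h.deg0 i (by have := mem_range.1 hi; omega), smul_zero]

lemma KZ.step (ha : ∀ i, 0 < a i) (h : KZ a r b lam) (v0 : ι → ℝ) (h1 : IsInt v0) (h2 : dg a v0 = 0)
    (h3 : v0 ∉ V b r) : ∃ b' lam', KZ a (r + 1) b' lam' := by
  choose w hw hmin using exists_min_nm ha (V b r)
  set R := nm a (v0 + w v0) with hR
  have red : ∀ v, IsInt v → dg a v = 0 → v ∉ V b r → nm a (v + w v) ≤ R →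
      ∃ v', (IsInt v' ∧ nm a v' ≤ R + ∑ l ∈ range r, nm a (b l)) ∧ dg a v' = 0 ∧ v' ∉ V b r ∧
        nm a (v' + w v') ≤ nm a (v + w v) := by
    intro v g1 g2 g3 g4
    obtain ⟨c, hc⟩ := mem_V_iff.1 (hw v)
    set u : ι → ℝ := ∑ l ∈ range r, ((⌊c l⌋ : ℤ) : ℝ) • b l with hu
    have huV : u ∈ V b r := mem_V_iff.2 ⟨_, hu⟩
    refine ⟨v + u, ⟨g1.add (IsInt.sum _ _ fun l hl => (h.int l (mem_range.1 hl)).smul _), ?_⟩, ?_,
      fun g => g3 (by simpa using Submodule.sub_mem _ g huV), ?_⟩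
    · have e : v + u = (v + w v) + ∑ l ∈ range r, (-Int.fract (c l)) • b l := by
        rw [hc, hu, add_assoc, ← sum_add_distrib]
        congr 1
        exact sum_congr rfl fun l _ => by rw [← add_smul, Int.fract]; congr 1; ring
      rw [e]
      refine (nm_add _ _).trans (add_le_add g4 ((nm_sum _ _).trans (sum_le_sum fun l _ => ?_)))
      rw [nm_smul, abs_neg, abs_of_nonneg (Int.fract_nonneg _)]
      exact mul_le_of_le_one_left (nm_nonneg _) (Int.fract_lt_one _).le
    · rw [map_add, g2, h.dgV le_rfl huV, add_zero]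
    · have := hmin (v + u) (w v - u) (Submodule.sub_mem _ (hw v) huV)
      rwa [show v + u + (w v - u) = v + w v by abel] at this
  have fin : {v : ι → ℝ | (IsInt v ∧ nm a v ≤ R + ∑ l ∈ range r, nm a (b l)) ∧ dg a v = 0 ∧
      v ∉ V b r}.Finite := (finite_nm ha _).subset fun v hv => hv.1
  obtain ⟨v1, g1, g2, g3, g4⟩ := red v0 h1 h2 h3 le_rfl
  obtain ⟨v, ⟨⟨k1, _⟩, k2, k3⟩, hv⟩ := Set.exists_min_image _ (fun v => nm a (v + w v)) fin
    ⟨v1, g1, g2, g3⟩
  have hV : ∀ l ≤ r, V (Function.update b r v) l = V b l := fun l hl =>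
    V_congr fun i hi => Function.update_of_ne (by omega) _ _
  have cases : ∀ l < r + 1, l < r ∧ Function.update b r v l = b l ∧
      Function.update lam r (nm a (v + w v)) l = lam l ∨ l = r ∧ Function.update b r v l = v ∧
      Function.update lam r (nm a (v + w v)) l = nm a (v + w v) := by
    intro l hl
    by_cases e : l = r
    · right; subst e; simp
    · left; exact ⟨by omega, Function.update_of_ne e _ _, Function.update_of_ne e _ _⟩
  refine ⟨Function.update b r v, Function.update lam r (nm a (v + w v)), ?_, ?_, ?_, ?_, ?_⟩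
  · intro l hl
    rcases cases l hl with ⟨e1, e2, _⟩ | ⟨_, e2, _⟩ <;> rw [e2]
    exacts [h.int l e1, k1]
  · intro l hl
    rcases cases l hl with ⟨e1, e2, _⟩ | ⟨_, e2, _⟩ <;> rw [e2]
    exacts [h.deg0 l e1, k2]
  · intro l hl
    rw [hV l (by omega)]
    rcases cases l hl with ⟨e1, e2, _⟩ | ⟨e1, e2, _⟩ <;> rw [e2]
    exacts [h.nmem l e1, e1 ▸ k3]
  · intro l hl
    unfold Nle
    rw [hV l (by omega)]
    rcases cases l hl with ⟨e1, e2, e3⟩ | ⟨e1, e2, e3⟩ <;> rw [e2, e3]
    exacts [h.att l e1, ⟨w v, e1 ▸ hw v, le_rfl⟩]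
  · intro l hl u t u1 u2 u3 u4
    unfold Nle at u4
    rw [hV l (by omega)] at u3 u4
    rcases cases l hl with ⟨e1, _, e3⟩ | ⟨e1, _, e3⟩ <;> rw [e3]
    · exact h.min l e1 u t u1 u2 u3 u4
    · subst e1
      obtain ⟨w', u5, u6⟩ := u4
      have u7 := (hmin u w' u5).trans u6
      by_cases u8 : nm a (u + w u) ≤ R
      · obtain ⟨u', q1, q2, q3, q4⟩ := red u u1 u2 u3 u8
        exact (hv u' ⟨q1, q2, q3⟩).trans (q4.trans u7)
      · have := hv v1 ⟨g1, g2, g3⟩
        linarith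

lemma finrank_V_le (b : ℕ → ι → ℝ) (l : ℕ) : Module.finrank ℝ (V b l) ≤ l := by
  induction l with
  | zero => exact (finrank_bot ℝ (ι → ℝ)).le
  | succ l ih =>
    have h1 := Submodule.finrank_add_le_finrank_add_finrank (V b l) (Submodule.span ℝ {b l})
    have h2 : Module.finrank ℝ (Submodule.span ℝ ({b l} : Set (ι → ℝ))) ≤ 1 := by
      simpa using finrank_span_le_card (R := ℝ) ({b l} : Set (ι → ℝ))
    exact h1.trans (add_le_add ih h2)

lemma KZ.le_finrank (h : KZ a r b lam) {l : ℕ} (hl : l ≤ r) : l ≤ Module.finrank ℝ (V b l) := by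
  induction l with
  | zero => simp
  | succ l ih =>
    have : V b l < V b (l + 1) := lt_of_le_of_ne (V_mono (by omega)) fun e =>
      h.nmem l (by omega) (e ▸ b_mem_V (by omega))
    have := Submodule.finrank_lt_finrank_of_lt this
    have := ih (by omega)
    omega

lemma finrank_ker (ha : ∀ i, 0 < a i) (i0 : ι) :
    Module.finrank ℝ (LinearMap.ker (dg a)) + 1 = Fintype.card ι := by
  classical
  have h1 := LinearMap.finrank_range_add_finrank_ker (dg a)
  have h2 : LinearMap.range (dg a) = ⊤ := by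
    rw [LinearMap.range_eq_top]
    intro t
    refine ⟨Pi.single i0 (t / a i0), ?_⟩
    have : (a i0 : ℝ) ≠ 0 := Nat.cast_ne_zero.2 (ha i0).ne'
    rw [dg_apply, Finset.sum_eq_single i0 (fun j _ hj => by simp [hj]) (by simp)]
    simp; field_simp
  rw [h2] at h1
  simp only [finrank_top, Module.finrank_self, Module.finrank_fintype_fun_eq_card] at h1
  omega

theorem exists_KZ (ha : ∀ i, 0 < a i) (r : ℕ) (hr : r + 1 = Fintype.card ι) :
    ∃ b lam, KZ a r b lam ∧ ∀ v, dg a v = 0 → v ∈ V b r := by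
  classical
  obtain ⟨i0⟩ : Nonempty ι := Fintype.card_pos_iff.1 (by omega)
  have hk := finrank_ker ha i0
  have key : ∀ n ≤ r, ∃ b lam, KZ a n b lam := by
    intro n hn
    induction n with
    | zero => exact ⟨0, 0, by constructor <;> intro l hl <;> omega⟩
    | succ n ih =>
      obtain ⟨b, lam, h⟩ := ih (by omega)
      by_contra hne
      have all : ∀ v, IsInt v → dg a v = 0 → v ∈ V b n := fun v h1 h2 => by
        by_contra h3
        exact hne (h.step ha v h1 h2 h3)
      have hle : LinearMap.ker (dg a) ≤ V b n := by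
        intro v hv
        rw [LinearMap.mem_ker] at hv
        have ha0 : (a i0 : ℝ) ≠ 0 := Nat.cast_ne_zero.2 (ha i0).ne'
        let e : ι → ι → ℝ := fun i => (a i0 : ℝ) • Pi.single i 1 - (a i : ℝ) • Pi.single i0 1
        have dgs : ∀ i, dg a (Pi.single i 1) = a i := fun i => by
          rw [dg_apply, Finset.sum_eq_single i (fun j _ hj => by simp [hj]) (by simp)]; simp
        have ints : ∀ i, IsInt (Pi.single i 1 : ι → ℝ) := fun i j => by
          by_cases e : j = i
          · exact ⟨1, by simp [e]⟩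
          · exact ⟨0, by simp [e]⟩
        have he : ∀ i, e i ∈ V b n := fun i => all _
          (by simpa using ((ints i).smul (a i0)).sub ((ints i0).smul (a i)))
          (by simp only [e, map_sub, map_smul, dgs, smul_eq_mul]; ring)
        have : v = ∑ i, (v i / a i0) • e i := by
          simp only [e, smul_sub, smul_smul, sum_sub_distrib, ← sum_smul]
          have e1 : ∑ i, v i / a i0 * a i = 0 := by
            rw [dg_apply] at hv
            rw [← zero_div (a i0 : ℝ), ← hv, sum_div]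
            exact sum_congr rfl fun i _ => by ring
          rw [e1, zero_smul, sub_zero]
          funext j
          rw [Finset.sum_apply, Finset.sum_eq_single j (fun i _ hi => by simp [Ne.symm hi]) (by simp)]
          simp; field_simp
        rw [this]
        exact Submodule.sum_mem _ fun i _ => Submodule.smul_mem _ _ (he i)
      have := Submodule.finrank_mono hle
      have := finrank_V_le b n
      omega
  obtain ⟨b, lam, h⟩ := key r le_rfl
  refine ⟨b, lam, h, fun v hv => ?_⟩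
  have hle : V b r ≤ LinearMap.ker (dg a) := fun w hw => h.dgV le_rfl hw
  rw [Submodule.eq_of_le_of_finrank_le hle (by have := h.le_finrank le_rfl; omega)]
  exact hv

lemma KZ.pos (ha : ∀ i, 0 < a i) (h : KZ a r b lam) {l : ℕ} (hl : l < r) : 0 < lam l := by
  obtain ⟨w, hw, h1⟩ := h.att l hl
  by_contra h2
  refine h.nmem l hl ?_
  have : b l = -w := by
    funext i
    have h3 := abs_le_nm ha (b l + w) i
    have h4 : |(b l + w) i| ≤ 0 := by linarith
    have h5 := abs_nonpos_iff.1 h4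
    simp only [Pi.add_apply, Pi.neg_apply] at h5 ⊢
    linarith
  rw [this]
  exact Submodule.neg_mem _ hw

lemma KZ.sat (ha : ∀ i, 0 < a i) (h : KZ a r b lam) {l : ℕ} (hl : l ≤ r) : ∀ {v : ι → ℝ}, IsInt v →
    v ∈ V b l → ∃ c : ℕ → ℤ, v = ∑ i ∈ range l, (c i : ℝ) • b i := by
  induction l with
  | zero => intro v _ hv; exact ⟨0, by simpa [V] using hv⟩
  | succ l ih =>
    intro v h1 hv
    obtain ⟨w, hw, θ, e⟩ := mem_V_succ.1 hv
    have hl' : l < r := by omega
    have h2 : IsInt (v - ((⌊θ⌋ : ℤ) : ℝ) • b l) := h1.sub ((h.int l hl').smul _)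
    have e2 : v - ((⌊θ⌋ : ℤ) : ℝ) • b l = w + Int.fract θ • b l := by
      rw [e, Int.fract, sub_smul]; abel
    have h3 : v - ((⌊θ⌋ : ℤ) : ℝ) • b l ∈ V b l := by
      by_contra h4
      obtain ⟨w0, hw0, h5⟩ := h.att l hl'
      have := h.min l hl' _ (Int.fract θ * lam l) h2 (by
          rw [map_sub, map_smul, h.dgV hl hv, h.deg0 l hl']; simp) h4
        ⟨Int.fract θ • w0 - w, Submodule.sub_mem _ (Submodule.smul_mem _ _ hw0) hw, by
          rw [e2, show w + Int.fract θ • b l + (Int.fract θ • w0 - w) = Int.fract θ • (b l + w0) by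
            rw [smul_add]; abel, nm_smul, abs_of_nonneg (Int.fract_nonneg _)]
          exact mul_le_mul_of_nonneg_left h5 (Int.fract_nonneg _)⟩
      have h6 := h.pos ha hl'
      have h7 := Int.fract_lt_one θ
      nlinarith
    obtain ⟨c, hc⟩ := ih hl'.le h2 h3
    refine ⟨Function.update c l ⌊θ⌋, ?_⟩
    rw [sum_range_succ, Function.update_self,
      sum_congr rfl (g := fun i => (c i : ℝ) • b i) fun i hi => by
        rw [Function.update_of_ne (by have := mem_range.1 hi; omega)], ← hc]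
    abel

lemma KZ.indep (h : KZ a r b lam) (k n : ℕ) (hn : k + n ≤ r) (e : ℕ → ℝ)
    (he : ∑ i ∈ Ico k (k + n), e i • b i ∈ V b k) : ∀ i ∈ Ico k (k + n), e i = 0 := by
  induction n with
  | zero => simp
  | succ n ih =>
    rw [← add_assoc, sum_Ico_succ_top (by omega)] at he
    have h1 : ∑ i ∈ Ico k (k + n), e i • b i ∈ V b (k + n) :=
      Submodule.sum_mem _ fun i hi => Submodule.smul_mem _ _ (b_mem_V (mem_Ico.1 hi).2)
    have h2 : e (k + n) = 0 := by
      by_contra h3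
      have h4 := Submodule.sub_mem _ (V_mono (Nat.le_add_right k n) he) h1
      rw [add_sub_cancel_left] at h4
      exact h.nmem (k + n) (by omega) ((Submodule.smul_mem_iff _ h3).1 h4)
    rw [h2, zero_smul, add_zero] at he
    intro i hi
    by_cases e1 : i = k + n
    · rw [e1, h2]
    · exact ih (by omega) he i (by simp only [mem_Ico] at hi ⊢; omega)

end Pool.Agent.Lib.MP_9ff3e7_ag.G
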