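import Pool.Agent.Lib.MP_9ff3e7_ag.GCore

namespace Pool.Agent.Lib.MP_9ff3e7_ag.G

open Finset MvPolynomial

set_option linter.unusedSectionVars false

variable {σ κ : Type} [Fintype σ] [DecidableEq σ] {w : σ → ℕ} {d : κ → ℕ}

lemma eval_zero {g : MvPolynomial σ ℂ} {e : ℕ} (hg : g.IsWeightedHomogeneous w e) (he : 0 < e) :
    eval 0 g = 0 := by
  by_contra h
  have := dvd_of_eval (q := 0) hg h fun i hi => absurd rfl hi
  simp at this; omega

lemma two_vars {m : σ →₀ ℕ} {u : σ} (hu : m u ≠ 0) (hm : m ≠ Finsupp.single u 1) :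
    ∃ l, m l ≠ 0 ∧ w u + w l ≤ Finsupp.weight w m := by
  have e := tsub_add_cancel_of_le (Finsupp.single_le_iff.2 (Nat.one_le_iff_ne_zero.2 hu))
  obtain ⟨l, hl⟩ : ∃ l, (m - Finsupp.single u 1 : σ →₀ ℕ) l ≠ 0 := by
    by_contra h
    push Not at h
    exact hm (by rw [← e, show m - Finsupp.single u 1 = 0 from Finsupp.ext h, zero_add])
  refine ⟨l, fun h => hl (by simp [h]), ?_⟩
  rw [← e, map_add, Finsupp.weight_single, one_smul, add_comm, add_le_add_iff_right, wt_eq]
  exact le_trans (Nat.le_mul_of_pos_right _ (Nat.pos_of_ne_zero hl))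
    (single_le_sum (f := fun i => w i * (m - Finsupp.single u 1 : σ →₀ ℕ) i) (fun _ _ => Nat.zero_le _) (mem_univ l))

theorem core (hw : ∀ i, 0 < w i) (hd : ∀ j, 0 < d j) {A : Finset σ} {J : Finset κ}
    {f : κ → MvPolynomial σ ℂ} (hS : Sys w d A J f) (x : σ → ℂ) (I : Finset σ)
    (hI : ∀ i, x i ≠ 0 ↔ i ∈ I) (hIA : I ⊆ A) (hx0 : x ≠ 0) (hx : ∀ j ∈ J, eval x (f j) = 0)
    (nl : ∀ j ∈ J, ∀ i ∈ A, Finsupp.single i 1 ∉ (f j).support)
    (mn : ∀ y : σ → ℂ, y ≠ 0 → (∀ i, y i ≠ 0 → i ∈ I) → (∀ j ∈ J, eval y (f j) = 0) →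
      ∀ i ∈ I, y i ≠ 0)
    (gen : ∀ (i : ↥I) (γ : ↥I → ℕ), γ i = 0 → ∑ l : ↥I, w l * γ l ≠ w i)
    (m : ℕ) (hm : ∀ γ : ↥I → ℕ, ∑ l : ↥I, w l * γ l ≠ m) :
    (m : ℝ) + 1 + ∑ i ∈ A, ((w i : ℝ) - 1) ≤ ∑ j ∈ J, ((d j : ℝ) - 1) := by
  classical
  obtain ⟨i1, hi1⟩ := Function.ne_iff.1 hx0
  obtain ⟨i0, _, hmin⟩ := exists_min_image (univ : Finset ↥I) (fun i => w i)
    ⟨⟨i1, (hI i1).1 hi1⟩, mem_univ _⟩
  replace hmin := fun i => hmin i (mem_univ i)
  have ha : ∀ i : ↥I, 0 < w i := fun i => hw i
  have fr : ∀ p : ℕ, p.Prime → ∃ i : ↥I, ¬ p ∣ w i := fun p hp => by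
    obtain ⟨i, h1, h2⟩ := hS.free x hx0 (fun i hi => hIA ((hI i).1 hi)) hx p hp
    exact ⟨⟨i, (hI i).1 h1⟩, h2⟩
  set a0 := w i0 with ha0
  have a2 : 2 ≤ a0 := by
    by_contra h
    have := hw i0
    exact hm (Pi.single i0 m) (by rw [sum_sgl (fun l : ↥I => w l), show w i0 = 1 by omega, one_mul])
  have a2' : (2 : ℝ) ≤ a0 := by exact_mod_cast a2
  have hc := card_le_min ha i0 hmin gen
  obtain ⟨r, hr⟩ : ∃ r, r + 1 = Fintype.card ↥I :=
    ⟨Fintype.card ↥I - 1, by have := Fintype.card_pos_iff.2 ⟨i0⟩; omega⟩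
  have r0 : 0 < r := by
    by_contra h
    obtain ⟨p, hp, h1⟩ := Nat.exists_prime_and_dvd (show a0 ≠ 1 by omega)
    obtain ⟨i, hi⟩ := fr p hp
    exact hi (Fintype.card_le_one_iff.1 (by omega) i0 i ▸ h1)
  set R : ℝ := a0 - 1 with hR
  have R1 : 1 ≤ R := by linarith
  have rel : ∀ v, IsInt v → dg (fun i : ↥I => w i) v = 0 → v ≠ 0 →
      2 * R + 4 ≤ nm (fun i : ↥I => w i) v := fun v h1 h2 h3 => by
    have := rel_bound ha i0 hmin gen v h1 h2 h3
    linarith
  obtain ⟨p0, p1, p2⟩ := exists_p0 fr
  obtain ⟨s, ω, s1, s2, s3⟩ := geo ha hr r0 (by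
    have : ((r + 1 : ℕ) : ℝ) ≤ a0 := by exact_mod_cast hr ▸ hc
    push_cast at this; linarith) rel p0 p1 p2 m hm
  have cnt : r ≤ (J.filter fun j => 2 * R + 4 ≤ d j).card := by
    have := card_le_of_only_zero (I.erase i0) (J.filter fun j => 2 * R + 4 ≤ d j) f
      (fun j hj => eval_zero (hS.hom j (mem_filter.1 hj).1) (hd j)) fun y h1 h2 => by
        by_contra h0
        have h3 : ∀ i, y i ≠ 0 → i ∈ I := fun i hi => mem_of_mem_erase (h1 i hi)
        refine (mem_erase.1 (h1 i0 (mn y h0 h3 (fun j hj => ?_) i0 i0.2))).1 rfl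
        by_cases hj' : 2 * R + 4 ≤ d j
        · exact h2 j (mem_filter.2 ⟨hj, hj'⟩)
        by_contra h4
        obtain ⟨m0, g1, g2⟩ := exists_mono h4
        have g3 : In I m0 := fun i hi => h3 i (g2 i hi)
        have e := hx j hj
        rw [MvPolynomial.eval_eq, sum_eq_single m0 (fun m' g4 g5 => ?_) fun h => absurd g1 h] at e
        · exact mul_ne_zero (mem_support_iff.1 g1) (prod_ne_zero_iff.2 fun i hi =>
            pow_ne_zero _ ((hI i).2 (g3 i (Finsupp.mem_support_iff.1 hi)))) e
        by_cases g6 : In I m'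
        · exfalso
          have e1 := hS.hom j hj (mem_support_iff.1 g1)
          have e2 := hS.hom j hj (mem_support_iff.1 g4)
          rw [wt_in g3] at e1
          rw [wt_in g6] at e2
          have g7 := nm_sub_le (a := fun i : ↥I => w i) (cv_nonneg fun i : ↥I => m' i)
            (cv_nonneg fun i : ↥I => m0 i)
          rw [dg_cv, dg_cv, e1, e2, add_self_div_two] at g7
          refine hj' ((rel _ ((cv_int _).sub (cv_int _)) (by
            rw [map_sub, dg_cv, dg_cv, e1, e2, sub_self]) fun h => g5 ?_).trans g7)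
          ext i
          by_cases hi : i ∈ I
          · have := congrFun h ⟨i, hi⟩
            simp only [cv, Pi.sub_apply, Pi.zero_apply, sub_eq_zero] at this
            exact_mod_cast this
          · rw [show m' i = 0 from by_contra fun h => hi (g6 i h),
              show m0 i = 0 from by_contra fun h => hi (g3 i h)]
        · simp only [In, not_forall] at g6
          obtain ⟨i, g7, g8⟩ := g6
          have : x i = 0 := by_contra fun h => g8 ((hI i).1 h)
          rw [prod_eq_zero (Finsupp.mem_support_iff.2 g7) (by rw [this, zero_pow g7]), mul_zero]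
    rw [card_erase_of_mem i0.2] at this
    rw [Fintype.card_coe] at hr
    omega
  let ψ : σ → ℝ := fun u => if a0 + 2 ≤ w u then (w u + a0 : ℝ) else w u
  have w1 : ∀ u, (1 : ℝ) ≤ w u := fun u => Nat.one_le_cast.2 (hw u)
  have d1 : ∀ j, (1 : ℝ) ≤ d j := fun j => Nat.one_le_cast.2 (hd j)
  have lev1 : ∀ z : κ ⊕ σ ⊕ ℕ, 1 ≤ Sum.elim (fun j => (d j : ℝ)) (Sum.elim ψ s) z := by
    rintro (j | u | l)
    · exact d1 j
    · have := w1 u
      simp only [Sum.elim_inr, Sum.elim_inl, ψ]
      split_ifs <;> linarith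
    · have := s1 l
      simp only [Sum.elim_inr]; linarith
  have key := mono_level (J.disjSum ((A \ I).disjSum (range r)))
    (Sum.elim (fun j => Real.log (d j)) (Sum.elim (fun u => -Real.log (w u)) fun l => -ω l))
    (Sum.elim (fun j => (d j : ℝ)) (Sum.elim ψ s)) (GG R) (fun z _ _ _ h => GG_mono R1 (lev1 z) h)
    (fun z _ => GG_nonneg R1 (lev1 z)) fun t => by
      have := supply2 hw hd hS x I ((A \ I).filter fun u => t ≤ ψ u) hI hIA
        ((filter_subset _ _).trans sdiff_subset)
        (disjoint_of_subset_left (filter_subset _ _) sdiff_disjoint) hx t _ (s3 t) (by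
          intro j hj ht m' g1 g2 u hu
          by_contra g3
          have g4 := mem_filter.1 ((mem_union.1 (g2 u hu)).resolve_right g3)
          obtain ⟨l, g5, g6⟩ := two_vars (w := w) hu (by
            rintro rfl; exact nl j hj u (mem_sdiff.1 g4.1).1 g1)
          rw [hS.hom j hj (mem_support_iff.1 g1)] at g6
          have g7 : (w u : ℝ) + w l ≤ d j := by exact_mod_cast g6
          have g8 := g4.2
          have := w1 l
          have := w1 u
          simp only [ψ] at g8
          split_ifs at g8 with g9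
          · rcases mem_union.1 (g2 l g5) with g10 | g10
            · have g11 := (mem_filter.1 g10).2
              simp only [ψ] at g11
              split_ifs at g11 with g12
              · have : (a0 : ℝ) + 2 ≤ w l := by exact_mod_cast g12
                linarith
              · linarith
            · have : (a0 : ℝ) ≤ w l := by exact_mod_cast hmin ⟨l, g10⟩
              linarith
          · linarith)
      have h1 := Real.log_le_log (prod_pos fun u _ => by linarith [w1 u]) this
      rw [Real.log_mul (Real.exp_pos _).ne' (prod_pos fun j _ => by linarith [d1 j]).ne', Real.log_exp,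
        Real.log_prod fun u _ => by linarith [w1 u], Real.log_prod fun j _ => by linarith [d1 j],
        sum_filter, sum_filter, sum_filter] at h1
      rw [sum_filter, sum_disjSum, sum_disjSum]
      change 0 ≤ ∑ j ∈ J, (if t ≤ d j then Real.log (d j) else 0) +
        (∑ u ∈ A \ I, (if t ≤ ψ u then -Real.log (w u) else 0) +
          ∑ l ∈ range r, if t ≤ s l then -ω l else 0)
      have e : ∀ (p : Prop) [Decidable p] (y : ℝ), (if p then -y else 0) = -if p then y else 0 := by
        intro p _ y; split_ifs <;> simp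
      simp only [e, sum_neg_distrib]
      linarith
  rw [sum_disjSum, sum_disjSum] at key
  simp only [Sum.elim_inl, Sum.elim_inr, neg_mul, sum_neg_distrib] at key
  have k1 := sum_le_sum fun j (_ : j ∈ J) => GG_deg R1 (d1 j)
  have k2 := sum_le_sum fun u (_ : u ∈ A \ I) => GG_var a0 (w u) a2 (hw u)
  rw [sum_sub_distrib, ← sum_filter, sum_const, nsmul_eq_mul] at k1
  rw [sum_congr rfl fun l (_ : l ∈ range r) => by rw [GG_high R1 (s1 l)]] at key
  have k3 : (r : ℝ) * Ph R ≤ (J.filter fun j => 2 * R + 4 ≤ d j).card * Ph R :=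
    mul_le_mul_of_nonneg_right (by exact_mod_cast cnt) (by unfold Ph; linarith)
  have k4 : ∑ i ∈ I, ((w i : ℝ) - 1) = ∑ i : ↥I, (w i : ℝ) - (r + 1) := by
    rw [sum_sub_distrib, sum_coe_sort I fun i => (w i : ℝ), sum_const, nsmul_eq_mul, mul_one,
      ← Fintype.card_coe, ← hr]
    push_cast; rfl
  rw [← sum_sdiff hIA, k4]
  linarith

lemma hom_sub {i : σ} {g p : MvPolynomial σ ℂ} {e : ℕ} (hg : g.IsWeightedHomogeneous w (w i))
    (hp : p.IsWeightedHomogeneous w e) :
    (aeval (Function.update X i g) p : MvPolynomial σ ℂ).IsWeightedHomogeneous w e := by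
  rw [p.as_sum, map_sum]
  refine IsWeightedHomogeneous.sum _ _ _ fun m hm => ?_
  rw [aeval_monomial, ← hp (mem_support_iff.1 hm), Finsupp.weight_apply]
  refine IsWeightedHomogeneous.C_mul (IsWeightedHomogeneous.prod _ _ _ fun l _ => ?_) _
  refine IsWeightedHomogeneous.pow ?_ _
  by_cases e : l = i
  · rw [e, Function.update_self]; exact hg
  · rw [Function.update_of_ne e]; exact isWeightedHomogeneous_X ℂ w l

lemma eval_sub' (i : σ) (g p : MvPolynomial σ ℂ) (y : σ → ℂ) :
    eval y (aeval (Function.update X i g) p : MvPolynomial σ ℂ) =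
      eval (Function.update y i (eval y g)) p := by
  rw [← coe_aeval_eq_eval, ← coe_aeval_eq_eval, RingHom.coe_coe, RingHom.coe_coe, ← AlgHom.comp_apply,
    comp_aeval]
  congr 2
  funext l
  by_cases e : l = i
  · simp [e]
  · simp [e]

lemma back {i : σ} {g : MvPolynomial σ ℂ} (hg : g.IsWeightedHomogeneous w (w i)) {y : σ → ℂ} {p : ℕ}
    (h : ∃ l, Function.update y i (eval y g) l ≠ 0 ∧ ¬ p ∣ w l) : ∃ l, y l ≠ 0 ∧ ¬ p ∣ w l := by
  by_contra h1
  push Not at h1
  obtain ⟨l, h2, h3⟩ := h
  by_cases e : l = i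
  · rw [e, Function.update_self] at h2
    exact h3 (e ▸ dvd_of_eval hg h2 h1)
  · rw [Function.update_of_ne e] at h2
    exact h3 (h1 l h2)

lemma eval_congr' {h : MvPolynomial σ ℂ} {i : σ} (hh : ∀ m ∈ h.support, m i = 0) (y : σ → ℂ) (c : ℂ) :
    eval (Function.update y i c) h = eval y h := by
  rw [MvPolynomial.eval_eq, MvPolynomial.eval_eq]
  refine sum_congr rfl fun m hm => congrArg _ (prod_congr rfl fun l hl => ?_)
  rw [Function.update_of_ne (by rintro rfl; exact Finsupp.mem_support_iff.1 hl (hh m hm))]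

theorem all (hw : ∀ i, 0 < w i) (hd : ∀ j, 0 < d j) (m n : ℕ) : ∀ (A : Finset σ) (J : Finset κ)
    (f : κ → MvPolynomial σ ℂ) (x : σ → ℂ) (I : Finset σ), A.card + I.card < n → Sys w d A J f →
    (∀ i, x i ≠ 0 ↔ i ∈ I) → I ⊆ A → x ≠ 0 → (∀ j ∈ J, eval x (f j) = 0) →
    ∑ j ∈ J, ((d j : ℝ) - 1) < (m : ℝ) + 1 + ∑ i ∈ A, ((w i : ℝ) - 1) →
    ∃ γ : σ →₀ ℕ, In I γ ∧ Finsupp.weight w γ = m := by
  classical
  induction n with
  | zero => intro A J f x I h; omega
  | succ n ih =>
    intro A J f x I hn hS hI hIA hx0 hx hm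
    have upd : ∀ i l, Function.update x i 0 l ≠ 0 ↔ l ∈ I.erase i := fun i l => by
      by_cases e : l = i
      · simp [e]
      · simp [e, hI l]
    by_cases nl : ∃ j ∈ J, ∃ i ∈ A, Finsupp.single i 1 ∈ (f j).support
    · obtain ⟨j, hj, i, hi, h1⟩ := nl
      have c0 := mem_support_iff.1 h1
      set c := coeff (Finsupp.single i 1) (f j) with hc
      have dj : w i = d j := by simpa [Finsupp.weight_single] using hS.hom j hj c0
      set h := f j - C c * X i with hh
      have h2 : h.IsWeightedHomogeneous w (w i) :=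
        (dj ▸ hS.hom j hj).sub ((isWeightedHomogeneous_X ℂ w i).C_mul c)
      have h3 : ∀ m ∈ h.support, m i = 0 := fun m hm => by
        by_contra h4
        by_cases e : m = Finsupp.single i 1
        · refine mem_support_iff.1 hm ?_
          rw [e, hh, coeff_sub, coeff_C_mul, coeff_X_same, mul_one, sub_self]
        · obtain ⟨l, _, h5⟩ := two_vars (w := w) h4 e
          have := hw l
          rw [h2 (mem_support_iff.1 hm)] at h5
          omega
      have h4 : ∀ y : σ → ℂ, eval y (f j) = c * y i + eval y h := fun y => by simp [hh]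
      have hg := h2.C_mul (-c⁻¹)
      have h5 : eval (Function.update x i 0) (C (-c⁻¹) * h) = x i := by
        have := h4 x
        rw [hx j hj] at this
        rw [map_mul, eval_C, eval_congr' h3, show eval x h = -(c * x i) by linear_combination -this]
        field_simp
      obtain ⟨γ, g1, g2⟩ := ih (A.erase i) (J.erase j)
        (fun k => aeval (Function.update X i (C (-c⁻¹) * h)) (f k)) (Function.update x i 0) (I.erase i)
        (by
          have := card_erase_lt_of_mem hi
          have := card_erase_le (s := I) (a := i)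
          omega)
        ⟨fun k hk => hom_sub hg (hS.hom k (mem_of_mem_erase hk)), fun y y0 y1 y2 p hp => by
          refine back hg (hS.free _ (fun e => y0 (funext fun l => ?_)) (fun l hl => ?_) (fun k hk => ?_) p hp)
          · by_contra h6
            have := congrFun e l
            rw [Function.update_of_ne (mem_erase.1 (y1 l h6)).1] at this
            exact h6 this
          · by_cases e : l = i
            · rwa [e]
            · rw [Function.update_of_ne e] at hl
              exact mem_of_mem_erase (y1 l hl)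
          · by_cases e : k = j
            · rw [e, h4, eval_congr' h3, Function.update_self, map_mul, eval_C]
              field_simp; ring
            · rw [← eval_sub']; exact y2 k (mem_erase.2 ⟨e, hk⟩)⟩
        (upd i) (erase_subset_erase _ hIA) (fun e => by
          rw [e, eval_zero hg (hw i)] at h5
          refine hx0 ?_
          rw [← e, h5, Function.update_eq_self])
        (fun k hk => by
          rw [eval_sub', h5, Function.update_idem, Function.update_eq_self]
          exact hx k (mem_of_mem_erase hk)) (by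
          rw [← add_sum_erase _ _ hj, ← add_sum_erase _ _ hi, dj] at hm
          linarith)
      exact ⟨γ, fun l hl => mem_of_mem_erase (g1 l hl), g2⟩
    by_cases mn : ∃ y : σ → ℂ, y ≠ 0 ∧ (∀ i, y i ≠ 0 → i ∈ I) ∧ (∀ j ∈ J, eval y (f j) = 0) ∧
        ∃ i ∈ I, y i = 0
    · obtain ⟨y, y0, y1, y2, i, hi, y3⟩ := mn
      have sub : (univ.filter fun l => y l ≠ 0) ⊆ I := fun l hl => y1 l (mem_filter.1 hl).2
      obtain ⟨γ, g1, g2⟩ := ih A J f y (univ.filter fun l => y l ≠ 0) (by
          have := card_lt_card (show _ ⊂ I from ⟨sub, fun h => (mem_filter.1 (h hi)).2 y3⟩)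
          omega) hS (by simp) (sub.trans hIA) y0 y2 hm
      exact ⟨γ, fun l hl => sub (g1 l hl), g2⟩
    let ext : (↥I → ℕ) → σ →₀ ℕ := fun v =>
      Finsupp.equivFunOnFinite.symm fun i => if h : i ∈ I then v ⟨i, h⟩ else 0
    have x1 : ∀ v, In I (ext v) := fun v i hi => by
      by_contra h
      exact hi (by simp [ext, h])
    have x2 : ∀ v (i : ↥I), ext v i = v i := fun v i => by simp [ext]
    have x3 : ∀ v, Finsupp.weight w (ext v) = ∑ l : ↥I, w l * v l := fun v => by
      rw [wt_in (x1 v)]
      exact sum_congr rfl fun i _ => by rw [x2]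
    by_cases gen : ∃ (i : ↥I) (γ : ↥I → ℕ), γ i = 0 ∧ ∑ l : ↥I, w l * γ l = w i
    · obtain ⟨i, v, v1, v2⟩ := gen
      set γ := ext v with hγ
      have γ1 : γ i = 0 := (x2 v i).trans v1
      have γ2 : Finsupp.weight w γ = w i := (x3 v).trans v2
      have nz : (γ.prod fun l k => x l ^ k) ≠ 0 := prod_ne_zero_iff.2 fun l hl =>
        pow_ne_zero _ ((hI l).2 (x1 v l (Finsupp.mem_support_iff.1 hl)))
      set h : MvPolynomial σ ℂ := monomial γ (x i / γ.prod fun l k => x l ^ k) with hh
      have h2 : h.IsWeightedHomogeneous w (w i) := isWeightedHomogeneous_monomial w γ _ γ2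
      have h3 : ∀ m ∈ h.support, m i = 0 := fun m hm => by
        rw [mem_singleton.1 (support_monomial_subset hm), γ1]
      have hg := (isWeightedHomogeneous_X ℂ w (i : σ)).add h2
      have h5 : eval (Function.update x i 0) (X (i : σ) + h) = x i := by
        rw [map_add, eval_X, Function.update_self, zero_add, eval_congr' h3, hh, eval_monomial,
          div_mul_cancel₀ _ nz]
      obtain ⟨γ', g1, g2⟩ := ih A J
        (fun k => aeval (Function.update X (i : σ) (X (i : σ) + h)) (f k)) (Function.update x i 0) (I.erase i)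
        (by have := card_erase_lt_of_mem i.2; omega)
        ⟨fun k hk => hom_sub hg (hS.hom k hk), fun y y0 y1 y2 p hp => by
          refine back hg (hS.free _ (fun e => y0 ?_) (fun l hl => ?_) (fun k hk => ?_) p hp)
          · have e1 : Function.update y i 0 = 0 := by
              rw [← Function.update_idem (eval y (X (i : σ) + h)), e]; simp
            have e2 := congrFun e i
            rw [Function.update_self, map_add, eval_X, ← eval_congr' h3 y 0, e1, eval_zero h2 (hw i),
              add_zero] at e2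
            rw [← e1, ← show y i = 0 from e2, Function.update_eq_self]
          · by_cases e : l = i
            · exact e ▸ hIA i.2
            · rw [Function.update_of_ne e] at hl
              exact y1 l hl
          · rw [← eval_sub']; exact y2 k hk⟩
        (upd i) ((erase_subset _ _).trans hIA) (fun e => by
          rw [e, eval_zero hg (hw i)] at h5
          exact (hI i).2 i.2 h5.symm)
        (fun k hk => by
          rw [eval_sub', h5, Function.update_idem, Function.update_eq_self]
          exact hx k hk) hm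
      exact ⟨γ', fun l hl => mem_of_mem_erase (g1 l hl), g2⟩
    by_contra gap
    push Not at nl mn gen gap
    exact absurd (core hw hd hS x I hI hIA hx0 hx nl mn gen m fun v e =>
      gap _ (x1 v) ((x3 v).trans e)) (not_le.2 hm)

end Pool.Agent.Lib.MP_9ff3e7_ag.G
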