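import Pool.Agent.Lib.MP_9ff3e7_ag.Major

namespace Pool.Agent.Lib.MP_9ff3e7_ag.G

open Finset

/-- The surplus per index. -/
noncomputable def Ph (R : ℝ) : ℝ := (2 * R + 1) / 3

/-- The weight function on high levels. -/
noncomputable def G1 (R x : ℝ) : ℝ := (x - 1 - Ph R) / Real.log x

lemma G1_mono {R x y : ℝ} (hR : 0 ≤ R) (hx : 1 < x) (hxy : x ≤ y) : G1 R x ≤ G1 R y := by
  have h1 := lm_mono hx hxy
  have h2 := Real.log_pos hx
  have h3 : Ph R / Real.log y ≤ Ph R / Real.log x :=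
    div_le_div_of_nonneg_left (by unfold Ph; positivity) h2 (Real.log_le_log (by linarith) hxy)
  unfold lm at h1
  unfold G1
  rw [sub_div _ (Ph R), sub_div _ (Ph R)]
  linarith

lemma G0_nonneg {R : ℝ} (hR : 1 ≤ R) : 0 ≤ G1 R (2 * R) :=
  div_nonneg (by unfold Ph; linarith) (Real.log_nonneg (by linarith))

lemma log_between {x y z : ℝ} (hx : 0 < x) (h1 : x ≤ z) (h2 : z ≤ y) :
    ∃ t : ℝ, 0 ≤ t ∧ t ≤ 1 ∧ z = (1 - t) * x + t * y ∧
      (1 - t) * Real.log x + t * Real.log y ≤ Real.log z := by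
  rcases (h1.trans h2).eq_or_lt with h | h
  · exact ⟨0, le_rfl, zero_le_one, by linarith, by rw [show z = x by linarith]; simp⟩
  have hd : 0 < y - x := by linarith
  have t0 : 0 ≤ (z - x) / (y - x) := div_nonneg (by linarith) hd.le
  have t1 : (z - x) / (y - x) ≤ 1 := (div_le_one hd).2 (by linarith)
  have e : z = (1 - (z - x) / (y - x)) * x + (z - x) / (y - x) * y := by field_simp; ring
  refine ⟨_, t0, t1, e, ?_⟩
  have := (strictConcaveOn_log_Ioi.concaveOn).2 (show x ∈ Set.Ioi 0 from hx)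
    (show y ∈ Set.Ioi 0 from hx.trans h) (sub_nonneg.2 t1) t0 (by ring)
  simp only [smul_eq_mul] at this
  rwa [← e] at this

lemma keep_high {R β σ : ℝ} (hR : 1 ≤ R) (h1 : 1 ≤ β) (h2 : β ≤ σ) (h3 : 2 * R ≤ σ) :
    0 ≤ Ph R + 1 - β + G1 R σ * Real.log β := by
  obtain ⟨t, t0, t1, e, h⟩ := log_between one_pos h1 h2
  have g0 := (G0_nonneg hR).trans (G1_mono (by linarith) (by linarith) h3)
  have g1 : G1 R σ * Real.log σ = σ - 1 - Ph R :=
    div_mul_cancel₀ _ (Real.log_pos (by linarith)).ne'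
  have g2 := mul_le_mul_of_nonneg_left h g0
  have g3 : 0 ≤ Ph R := by unfold Ph; linarith
  rw [Real.log_one, mul_zero, zero_add, mul_left_comm, g1] at g2
  nlinarith

lemma condC {R : ℝ} (hR : 1 ≤ R) : G1 R (2 * R) ≤ Ph R + 1 - R * Real.exp (-1) := by
  have he : Real.exp (-1) ≤ 0.36788 := by
    have := Real.exp_neg_one_lt_d9
    linarith
  have l2 := Real.log_two_gt_d9
  have hL := Real.log_pos (show 1 < 2 * R by linarith)
  have low : ∀ k : ℕ, k * Real.log 2 + 1 - 2 ^ k / (2 * R) ≤ Real.log (2 * R) := fun k => by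
    have h1 := Real.one_sub_inv_le_log_of_pos (show 0 < 2 * R / 2 ^ k by positivity)
    rw [Real.log_div (by positivity) (by positivity), Real.log_pow, inv_div] at h1
    linarith
  have hc : 0.29878 * R + 4 / 3 ≤ Ph R + 1 - R * Real.exp (-1) := by
    unfold Ph; nlinarith
  refine le_trans ?_ hc
  unfold G1 Ph
  rw [div_le_iff₀ hL]
  have key : ∀ u : ℝ, u ≤ Real.log (2 * R) → 2 * R - 1 - (2 * R + 1) / 3 ≤ (0.29878 * R + 4 / 3) * u →
      2 * R - 1 - (2 * R + 1) / 3 ≤ (0.29878 * R + 4 / 3) * Real.log (2 * R) := fun u h1 h2 =>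
    h2.trans (mul_le_mul_of_nonneg_left h1 (by positivity))
  have hR0 : 0 < R := by linarith
  have hi : R * R⁻¹ = 1 := mul_inv_cancel₀ hR0.ne'
  have hi0 : 0 < R⁻¹ := inv_pos.2 hR0
  rcases le_total R 2 with h2 | h2
  · have := low 1
    have e : (2 : ℝ) ^ 1 / (2 * R) = R⁻¹ := by field_simp
    rw [e] at this
    refine key (1.6931 - R⁻¹) (by push_cast at this; linarith) ?_
    have : R⁻¹ ≤ 1 := inv_le_one_of_one_le₀ hR
    nlinarith
  rcases le_total R (87 / 10) with h9 | h9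
  · have := low 3
    have e : (2 : ℝ) ^ 3 / (2 * R) = 4 * R⁻¹ := by field_simp; norm_num
    rw [e] at this
    refine key (3.0794 - 4 * R⁻¹) (by push_cast at this; linarith) ?_
    have h3 : R⁻¹ ≤ (107 / 10 - R) * (5 / 87) := by
      rw [inv_le_iff_one_le_mul₀ hR0]
      nlinarith [mul_nonneg (sub_nonneg.2 h2) (sub_nonneg.2 h9)]
    nlinarith
  · have := low 5
    have e : (2 : ℝ) ^ 5 / (2 * R) = 16 * R⁻¹ := by field_simp; norm_num
    rw [e] at this
    refine key (4.4657 - 16 * R⁻¹) (by push_cast at this; linarith) ?_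
    have h3 : R⁻¹ ≤ (87 / 10)⁻¹ := inv_anti₀ (by norm_num) h9
    nlinarith

lemma medium {R β : ℝ} (hR : 1 ≤ R) (j : ℕ) (hj : (j : ℝ) + 1 ≤ R) (h1 : R * Real.exp (-1) ≤ β)
    (h2 : β ≤ 2 * R) : 0 ≤ Ph R + 1 - β + j * (Ph R + 1 - R * Real.exp (-1)) +
      G1 R (2 * R) * (j * Real.log (β / R) - Real.log (j + 1) + Real.log β) := by
  have hR0 : 0 < R := by linarith
  have hθ : 0 < R * Real.exp (-1) := by positivity
  obtain ⟨t, t0, t1, e, h⟩ := log_between hθ h1 h2
  have g0 := G0_nonneg hR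
  have g1 : G1 R (2 * R) * Real.log (2 * R) = 2 * R - 1 - Ph R :=
    div_mul_cancel₀ _ (Real.log_pos (by linarith)).ne'
  have g2 := condC hR
  have g3 : Real.log (j + 1) ≤ Real.log R := Real.log_le_log (by positivity) hj
  have g4 : Real.log (j + 1) ≤ j * Real.log 2 := by
    rw [← Real.log_pow]
    refine Real.log_le_log (by positivity) ?_
    exact_mod_cast Nat.lt_two_pow_self
  rw [Real.log_mul hR0.ne' (Real.exp_pos _).ne', Real.log_exp, Real.log_mul two_ne_zero hR0.ne'] at h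
  rw [Real.log_mul two_ne_zero hR0.ne'] at g1
  rw [Real.log_div (by linarith) hR0.ne']
  set G := G1 R (2 * R)
  set c := Ph R + 1 - R * Real.exp (-1) with hc
  set L := Real.log R
  set M := Real.log 2
  set J := Real.log (j + 1)
  have hj0 : (0 : ℝ) ≤ j := Nat.cast_nonneg _
  have A : 0 ≤ c + j * c + G * (j * (-1) - J + (L + -1)) := by
    have a1 := mul_nonneg (show (0 : ℝ) ≤ j + 1 by linarith) (sub_nonneg.2 g2)
    have a2 := mul_nonneg g0 (sub_nonneg.2 g3)
    nlinarith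
  have B : 0 ≤ Ph R + 1 - 2 * R + j * c + G * (j * M - J + (M + L)) := by
    have a1 := mul_nonneg hj0 (g0.trans g2)
    have a2 := mul_nonneg g0 (sub_nonneg.2 g4)
    nlinarith
  have a1 := mul_nonneg (sub_nonneg.2 t1) A
  have a2 := mul_nonneg t0 B
  have a3 := mul_nonneg (mul_nonneg g0 (show (0 : ℝ) ≤ j + 1 by linarith)) (sub_nonneg.2 h)
  have e2 : Ph R + 1 - β = (1 - t) * c + t * (Ph R + 1 - 2 * R) := by rw [hc, e]; ring
  rw [e2]
  nlinarith

lemma condU (a u : ℕ) (ha : 2 ≤ a) (hu : a + 2 ≤ u) :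
    (u : ℝ) - 1 ≤ G1 (a - 1) (u + a) * Real.log u := by
  have ha' : (2 : ℝ) ≤ a := by exact_mod_cast ha
  have hu' : (a : ℝ) + 2 ≤ u := by exact_mod_cast hu
  have hL := Real.log_pos (show (1 : ℝ) < u + a by linarith)
  unfold G1 Ph
  rw [div_mul_eq_mul_div, le_div_iff₀ hL]
  rcases le_or_gt 21 u with h | h
  · have h' : (21 : ℝ) ≤ u := by exact_mod_cast h
    have h3 : 3 ≤ Real.log u := by
      rw [Real.le_log_iff_exp_le (by linarith)]
      have e1 := Real.exp_one_lt_d9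
      have e2 : Real.exp 3 = Real.exp 1 ^ 3 := by rw [← Real.exp_nat_mul]; norm_num
      have e3 : Real.exp 1 ^ 3 ≤ 2.7182818286 ^ 3 := pow_le_pow_left₀ (Real.exp_pos _).le e1.le _
      rw [e2]
      norm_num at e3
      linarith
    have h4 := Real.log_le_sub_one_of_pos (show (0 : ℝ) < (u + a) / u by positivity)
    rw [Real.log_div (by linarith) (by linarith)] at h4
    have h5 : ((u : ℝ) - 1) * ((u + a) / u - 1) ≤ a := by
      rw [show ((u : ℝ) + a) / u - 1 = a / u by field_simp; ring, ← mul_div_assoc,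
        div_le_iff₀ (by linarith)]
      nlinarith
    have h6 := mul_le_mul_of_nonneg_left h4 (show (0 : ℝ) ≤ u - 1 by linarith)
    nlinarith
  · have key : (u + a) ^ (3 * (u - 1)) ≤ u ^ (3 * (u - 1) + a + 1) := by
      have : ∀ u < 21, ∀ a < 19, 2 ≤ a → a + 2 ≤ u →
          (u + a) ^ (3 * (u - 1)) ≤ u ^ (3 * (u - 1) + a + 1) := by decide +kernel
      exact this u h a (by omega) ha hu
    have h1 : (((u + a) ^ (3 * (u - 1)) : ℕ) : ℝ) ≤ (u ^ (3 * (u - 1) + a + 1) : ℕ) := by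
      exact_mod_cast key
    push_cast at h1
    have h2 := Real.log_le_log (by positivity) h1
    rw [Real.log_pow, Real.log_pow] at h2
    push_cast [Nat.cast_sub (show 1 ≤ u by omega)] at h2
    linarith

lemma chain (M P : ℕ → Prop) (lo q : ℕ) (hq : P q)
    (step : ∀ p p', lo < p → p < p' → p' ≤ q → M p → (∀ l, p < l → l < p' → ¬ M l) → P p' → P p) :
    ∀ p, lo ≤ p → p < q → ∃ p', p < p' ∧ p' ≤ q ∧ (∀ l, p < l → l < p' → ¬ M l) ∧ P p' := by
  intro p h1 h2
  obtain ⟨n, hn⟩ : ∃ n, p + n + 1 = q := ⟨q - p - 1, by omega⟩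
  induction n generalizing p with
  | zero => exact ⟨q, h2, le_rfl, fun l _ _ => by omega, hq⟩
  | succ n ih =>
    obtain ⟨p', g1, g2, g3, g4⟩ := ih (p + 1) (by omega) (by omega) (by omega)
    by_cases hM : M (p + 1)
    · exact ⟨p + 1, by omega, by omega, fun l _ _ => by omega,
        step _ _ (by omega) g1 g2 hM g3 g4⟩
    · refine ⟨p', by omega, g2, fun l l1 l2 => ?_, g4⟩
      by_cases e : l = p + 1
      · rwa [e]
      · exact g3 l (by omega) l2

/-- The running maximum. -/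
noncomputable def sig (lam : ℕ → ℝ) : ℕ → ℝ
  | 0 => lam 0
  | l + 1 => max (sig lam l) (lam (l + 1))

lemma sig_mono (lam : ℕ → ℝ) : Monotone (sig lam) :=
  monotone_nat_of_le_succ fun _ => le_max_left _ _

lemma le_sig (lam : ℕ → ℝ) (l : ℕ) : lam l ≤ sig lam l := by
  cases l
  exacts [le_rfl, le_max_right _ _]

lemma sig_eq (lam : ℕ → ℝ) (l : ℕ) : ∃ i ≤ l, sig lam l = lam i := by
  induction l with
  | zero => exact ⟨0, le_rfl, rfl⟩
  | succ l ih =>
    obtain ⟨i, h1, h2⟩ := ih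
    rcases le_total (sig lam l) (lam (l + 1)) with h | h
    · exact ⟨l + 1, le_rfl, max_eq_right h⟩
    · exact ⟨i, by omega, (max_eq_left h).trans h2⟩

/-- Abel summation with signs. -/
lemma mono_level {ι : Type} (B : Finset ι) (q lev : ι → ℝ) (G : ℝ → ℝ)
    (hG : ∀ i ∈ B, ∀ j ∈ B, lev i ≤ lev j → G (lev i) ≤ G (lev j)) (hG0 : ∀ i ∈ B, 0 ≤ G (lev i))
    (h : ∀ s, 0 ≤ ∑ i ∈ B.filter (fun i => s ≤ lev i), q i) : 0 ≤ ∑ i ∈ B, q i * G (lev i) := by
  classical
  have := level_sum _ B B (fun i => max (-q i) 0) (fun i => G (lev i)) (fun i => max (q i) 0)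
    (fun i => G (lev i)) le_rfl (fun _ _ => le_max_right _ _) (fun _ _ => le_max_right _ _) hG0 hG0 (by
      intro s _
      rw [← sub_nonneg, ← sum_sub_distrib]
      simp only [max_zero_sub_max_neg_zero_eq_self]
      rcases (B.filter fun i => s ≤ G (lev i)).eq_empty_or_nonempty with h0 | h0
      · simp [h0]
      obtain ⟨i0, hi0, hmin⟩ := exists_min_image _ lev h0
      have hi0' := mem_filter.1 hi0
      convert h (lev i0) using 2
      ext i
      simp only [mem_filter]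
      exact ⟨fun hi => ⟨hi.1, hmin i (mem_filter.2 hi)⟩,
        fun hi => ⟨hi.1, hi0'.2.trans (hG _ hi0'.1 _ hi.1 hi.2)⟩⟩)
  rw [← sub_nonneg, ← sum_sub_distrib] at this
  simpa only [← sub_mul, max_zero_sub_max_neg_zero_eq_self] using this

end Pool.Agent.Lib.MP_9ff3e7_ag.G
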