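import Pool.Agent.Lib.MP_9ff3e7_ag.GBnd
import Pool.Agent.Lib.MP_9ff3e7_ag.GNum

namespace Pool.Agent.Lib.MP_9ff3e7_ag.G

open Finset

set_option linter.unusedSectionVars false

variable {ι : Type} [Fintype ι] {a : ι → ℕ} {r : ℕ} {b : ℕ → ι → ℝ} {lam β : ℕ → ℝ} {R : ℝ}

lemma Bnd.mono (hR : 0 < R) {k : ℕ} {w w' : ℝ} (h : Bnd a r b β R k w) (hw : w' ≤ w) :
    Bnd a r b β R k w' := by
  obtain ⟨κ, c, hκ, hc, h⟩ := h
  refine ⟨κ, c, hκ, hc, fun t τ ht hτ A h1 h2 h3 => (h t τ ht hτ A h1 h2 h3).trans ?_⟩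
  gcongr

lemma log_succ_le (j : ℕ) : Real.log (j + 1) ≤ j * Real.log 2 := by
  rw [← Real.log_pow]
  refine Real.log_le_log (by positivity) ?_
  exact_mod_cast Nat.lt_two_pow_self

lemma group (hR : 1 ≤ R) (hrR : (r : ℝ) ≤ R) (ha : ∀ i, 0 < a i) (hA : 0 < ∑ i, (a i : ℝ))
    (hK : KZ a r b lam) (hβ0 : ∀ l, 0 ≤ β l) (hβ : ∀ l < r, β l ≤ lam l) {k q : ℕ} (hk : k < q)
    (hq : q ≤ r) (h1 : 2 * R ≤ lam k) (h2 : ∀ l, k < l → l < q → lam l < 2 * R) {w σ : ℝ}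
    (hσ : lam k ≤ σ) (h : Bnd a r b β R q w) :
    ∃ ω, Bnd a r b β R k (w + ω) ∧ 0 ≤ ∑ l ∈ Ico k q, (Ph R + 1 - β l) + G1 R σ * ω := by
  have hR0 : 0 < R := by linarith
  have g0 := G0_nonneg hR
  have gc := g0.trans (condC hR)
  have gσ : G1 R (2 * R) ≤ G1 R σ := G1_mono hR0.le (by linarith) (by linarith)
  have free : ∀ p, k < p → p ≤ r → ∀ v, Bnd a r b β R p v → Bnd a r b β R (k + 1) v := by
    intro p e1 e2 v e3
    obtain ⟨j, rfl⟩ : ∃ j, p = k + 1 + j := ⟨p - (k + 1), by omega⟩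
    refine (e3.run hR0 ha hA hK e2 (by linarith) h1).mono hR0 ?_
    rw [mul_div_cancel_right₀ _ hR0.ne']
    linarith [log_succ_le j]
  have low : ∀ p p', (∀ l, p < l → l < p' → ¬ R * Real.exp (-1) ≤ β l) →
      ((p' - (p + 1) : ℕ) : ℝ) * (Ph R + 1 - R * Real.exp (-1)) ≤
        ∑ l ∈ Ico (p + 1) p', (Ph R + 1 - β l) := by
    intro p p' e
    have := card_nsmul_le_sum (Ico (p + 1) p') (fun l => Ph R + 1 - β l)
      (Ph R + 1 - R * Real.exp (-1)) fun l hl => by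
        have := e l (mem_Ico.1 hl).1 (mem_Ico.1 hl).2
        linarith
    simpa using this
  obtain ⟨p, e1, e2, e3, ωB, e4, e5⟩ := chain (fun l => R * Real.exp (-1) ≤ β l)
    (fun p => ∃ ω, Bnd a r b β R p (w + ω) ∧
      0 ≤ ∑ l ∈ Ico p q, (Ph R + 1 - β l) + G1 R (2 * R) * ω) k q ⟨0, by simpa using h, by simp⟩ (by
      rintro p p' e1 e2 e3 e4 e5 ⟨ω, e6, e7⟩
      obtain ⟨j, rfl⟩ : ∃ j, p' = p + 1 + j := ⟨p' - (p + 1), by omega⟩
      have hβp : 0 < β p := lt_of_lt_of_le (by positivity) e4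
      have e8 := (e6.run hR0 ha hA hK (by omega) hβp (hβ p (by omega))).keep hR0 hβ0 (by omega) hβp
      refine ⟨ω + (j * Real.log (β p / R) - Real.log (j + 1) + Real.log (β p)),
        by convert e8 using 1; ring, ?_⟩
      have e9 := low p _ e5
      rw [show p + 1 + j - (p + 1) = j by omega] at e9
      have e10 := medium hR j (by
        have : ((j + 1 : ℕ) : ℝ) ≤ r := by exact_mod_cast (by omega : j + 1 ≤ r)
        push_cast at this; linarith) e4 ((hβ p (by omega)).trans (h2 p e1 (by omega)).le)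
      rw [← sum_Ico_consecutive _ (show p ≤ p + 1 + j by omega) e3, sum_eq_sum_Ico_succ_bot e2, mul_add]
      linarith) k le_rfl hk
  obtain ⟨ω, f1, f2⟩ : ∃ ω, Bnd a r b β R (k + 1) (w + ω) ∧
      0 ≤ ∑ l ∈ Ico (k + 1) q, (Ph R + 1 - β l) + G1 R σ * ω := by
    have e6 := low k p e3
    have e7 : 0 ≤ ((p - (k + 1) : ℕ) : ℝ) * (Ph R + 1 - R * Real.exp (-1)) := by positivity
    rw [← sum_Ico_consecutive _ (show k + 1 ≤ p by omega) e2]
    rcases le_total 0 ωB with e8 | e8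
    · exact ⟨ωB, free p e1 (by omega) _ e4, by nlinarith⟩
    · exact ⟨0, by simpa using free q hk hq _ h, by nlinarith⟩
  rw [sum_eq_sum_Ico_succ_bot hk]
  rcases le_total 1 (β k) with e6 | e6
  · refine ⟨ω + Real.log (β k), by
      rw [← add_assoc]; exact f1.keep hR0 hβ0 (by omega) (by linarith), ?_⟩
    have := keep_high hR e6 ((hβ k (by omega)).trans hσ) (h1.trans hσ)
    rw [mul_add]; linarith
  · refine ⟨ω, f1.one hR0 ha hK (by omega) (by linarith), ?_⟩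
    have : 0 ≤ Ph R := by unfold Ph; linarith
    linarith

lemma profile (hR : 1 ≤ R) (hrR : (r : ℝ) ≤ R) (ha : ∀ i, 0 < a i) (hA : 0 < ∑ i, (a i : ℝ))
    (hK : KZ a r b lam) (hβ0 : ∀ l, 0 ≤ β l) (hβ : ∀ l < r, β l ≤ lam l) (h0 : 2 * R ≤ lam 0)
    (hr : 0 < r) : ∃ ω : ℕ → ℝ, (∀ k ≤ r, (k = r ∨ 2 * R ≤ lam k) → Bnd a r b β R k (∑ l ∈ Ico k r, ω l)) ∧
      0 ≤ ∑ l ∈ range r, (Ph R + 1 - β l + G1 R (sig lam l) * ω l) := by
  classical
  let P : ℕ → Prop := fun k => ∃ ω : ℕ → ℝ,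
    (∀ k', k ≤ k' → k' ≤ r → (k' = k ∨ k' = r ∨ 2 * R ≤ lam k') →
      Bnd a r b β R k' (∑ l ∈ Ico k' r, ω l)) ∧
    0 ≤ ∑ l ∈ Ico k r, (Ph R + 1 - β l + G1 R (sig lam l) * ω l)
  have step : ∀ p p', p < p' → p' ≤ r → 2 * R ≤ lam p → (∀ l, p < l → l < p' → ¬ 2 * R ≤ lam l) →
      P p' → P p := by
    rintro p p' e1 e2 e3 e4 ⟨ω, e5, e6⟩
    obtain ⟨ω0, e7, e8⟩ := group hR hrR ha hA hK hβ0 hβ e1 e2 e3
      (fun l l1 l2 => not_le.1 (e4 l l1 l2)) (le_sig lam p) (e5 p' le_rfl e2 (Or.inl rfl))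
    let ω' : ℕ → ℝ := fun l => if l = p then ω0 else if l < p' then 0 else ω l
    have s1 : ∀ l, p' ≤ l → ω' l = ω l := fun l hl => by
      simp only [ω']; rw [if_neg (by omega), if_neg (by omega)]
    have s2 : ∀ F : ℕ → ℝ, ∑ l ∈ Ico p p', F l * ω' l = F p * ω0 := fun F => by
      rw [sum_eq_single p (fun l hl e => by
        simp only [ω']; rw [if_neg e, if_pos (mem_Ico.1 hl).2, mul_zero]) (by simp [e1])]
      simp [ω']
    refine ⟨ω', fun k' k1 k2 k3 => ?_, ?_⟩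
    · by_cases e : k' = p
      · have := s2 fun _ => 1
        simp only [one_mul] at this
        rw [e, ← sum_Ico_consecutive _ e1.le e2, this,
          sum_congr rfl fun l hl => s1 l (mem_Ico.1 hl).1, add_comm]
        exact e7
      · have k4 : p' ≤ k' := by
          by_contra k5
          rcases k3 with k3 | k3 | k3
          · exact e k3
          · omega
          · exact e4 k' (by omega) (by omega) k3
        rw [sum_congr rfl fun l hl => s1 l (k4.trans (mem_Ico.1 hl).1)]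
        exact e5 k' k4 k2 (Or.inr (k3.resolve_left e))
    · rw [← sum_Ico_consecutive _ e1.le e2, sum_add_distrib, s2 fun l => G1 R (sig lam l),
        sum_congr rfl (s₁ := Ico p' r) fun l hl => by rw [s1 l (mem_Ico.1 hl).1]]
      linarith
  obtain ⟨p, e1, e2, e3, e4⟩ := chain (fun l => 2 * R ≤ lam l) P 0 r
    ⟨0, fun k' k1 k2 _ => by rw [le_antisymm k2 k1]; simpa using Bnd.base, by simp⟩
    (fun p p' _ => step p p') 0 le_rfl hr
  obtain ⟨ω, e5, e6⟩ := step 0 p e1 e2 h0 e3 e4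
  exact ⟨ω, fun k k1 k2 => e5 k (Nat.zero_le _) k1 (Or.inr k2), by rwa [range_eq_Ico]⟩

end Pool.Agent.Lib.MP_9ff3e7_ag.G
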