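import Pool.Agent.Lib.MP_9ff3e7_ag.GSep

namespace Pool.Agent.Lib.MP_9ff3e7_ag.G

open Finset Filter Topology

set_option linter.unusedSectionVars false

variable {ι : Type} [Fintype ι] {a : ι → ℕ} {r : ℕ} {b : ℕ → ι → ℝ} {lam : ℕ → ℝ}

/-- The cone over the difference body. -/
def QD (a : ι → ℕ) (z : (ι → ℝ) × ℝ) : Prop := nm a z.1 ≤ z.2

lemma cone_QD : Cone (QD a) :=
  ⟨fun p q h1 h2 => (nm_add p.1 q.1).trans (add_le_add h1 h2), fun t p h1 h2 => by
    change nm a (t • p.1) ≤ t * p.2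
    rw [nm_smul, abs_of_nonneg h1]
    exact mul_le_mul_of_nonneg_left h2 h1⟩

/-- The basis vectors placed in height zero. -/
def bD (b : ℕ → ι → ℝ) (l : ℕ) : (ι → ℝ) × ℝ := (b l, 0)

lemma sum_bD (s : Finset ℕ) (c : ℕ → ℝ) : ∑ l ∈ s, c l • bD b l = (∑ l ∈ s, c l • b l, 0) := by
  ext1
  · simp [Prod.fst_sum, bD]
  · simp [Prod.snd_sum, bD]

lemma TrD_iff {l : ℕ} {v : ι → ℝ} {t : ℝ} : Tr (QD a) (bD b) l 0 (v, t) ↔ Nle a b l v t := by
  rw [Tr_zero_iff]
  constructor
  · rintro ⟨w, hw, h⟩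
    obtain ⟨c, rfl⟩ := mem_V_iff.1 hw
    rw [sum_bD] at h
    exact ⟨_, mem_V_iff.2 ⟨c, rfl⟩, by simpa [QD] using h⟩
  · rintro ⟨w, hw, h⟩
    obtain ⟨c, rfl⟩ := mem_V_iff.1 hw
    exact ⟨_, mem_V_iff.2 ⟨c, rfl⟩, by rw [sum_bD]; simpa [QD] using h⟩

lemma reflect (h : KZ a r b lam) {l : ℕ} (hl : l ≤ r) {x y : ℕ → ℝ} : ∀ {p q : ι → ℝ},
    Tr QK b l x p → Tr QK b l y q →
      Tr (QD a) (bD b) l (x + y) (p - q, (dg a p + dg a q) / 2) := by
  induction l with
  | zero => intro p q h1 h2; exact nm_sub_le h1 h2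
  | succ l ih =>
    rintro p q ⟨c, h1, h2⟩ ⟨e, h3, h4⟩
    refine ⟨c - e - y l, ?_, ?_⟩
    · convert ih (by omega) h1 h4 using 1
      ext1
      · simp only [bD, Prod.fst_add, Prod.smul_fst]; simp only [add_smul, sub_smul]; abel
      · simp [bD, h.deg0 l hl]
    · convert ih (by omega) h2 h3 using 1
      ext1
      · simp only [bD, Prod.fst_add, Prod.smul_fst]; simp only [add_smul, sub_smul, Pi.add_apply]; abel
      · simp [bD, h.deg0 l hl]

lemma pigeon (h : KZ a r b lam) {κ : Type} (i n : ℕ) (hi : i < r) (hn : i + n ≤ r)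
    (A : Finset κ) (c : κ → ℕ → ℤ)
    (h1 : ∀ k ∈ A, ∀ k' ∈ A, (∀ l ∈ Ico i (i + n), c k l = c k' l) → k = k') (T : ℝ)
    (h2 : ∀ k ∈ A, Nle a b i (∑ l ∈ Ico i (i + n), (c k l : ℝ) • b l) T) (M : ℕ) (hM0 : 0 < M)
    (hM : 2 * T < M * lam i) : A.card ≤ M ^ n := by
  classical
  have : NeZero M := ⟨hM0.ne'⟩
  have := card_le_card_of_injOn (s := A) (t := (univ : Finset (↥(Ico i (i + n)) → ZMod M)))
    (fun k l => (c k l : ZMod M)) (fun _ _ => mem_coe.2 (mem_univ _)) (by
      intro k hk k' hk' e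
      have dv : ∀ l, ∃ z : ℤ, l ∈ Ico i (i + n) → c k' l - c k l = M * z := fun l => by
        by_cases hl : l ∈ Ico i (i + n)
        · obtain ⟨z, hz⟩ := (ZMod.intCast_eq_intCast_iff_dvd_sub _ _ _).1 (congrFun e ⟨l, hl⟩)
          exact ⟨z, fun _ => hz⟩
        · exact ⟨0, fun h => absurd h hl⟩
      choose z hz using dv
      have hMr : (0 : ℝ) < M := Nat.cast_pos.2 hM0
      by_cases hv : ∑ l ∈ Ico i (i + n), (z l : ℝ) • b l ∈ V b i
      · refine h1 k hk k' hk' fun l hl => ?_
        have h3 := h.indep i n hn _ hv l hl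
        have h4 : z l = 0 := by exact_mod_cast h3
        have := hz l hl
        rw [h4] at this
        omega
      · exfalso
        obtain ⟨w, hw, g⟩ := h2 k hk
        obtain ⟨w', hw', g'⟩ := h2 k' hk'
        have := h.min i hi _ (2 * T / M)
          (IsInt.sum _ _ fun l hl => (h.int l (by have := mem_Ico.1 hl; omega)).smul _)
          (by
            rw [map_sum]
            exact sum_eq_zero fun l hl => by
              rw [map_smul, h.deg0 l (by have := mem_Ico.1 hl; omega), smul_zero]) hv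
          ⟨(M : ℝ)⁻¹ • (w' - w), Submodule.smul_mem _ _ (Submodule.sub_mem _ hw' hw), by
            have e1 : ∑ l ∈ Ico i (i + n), (z l : ℝ) • b l =
                (M : ℝ)⁻¹ • (∑ l ∈ Ico i (i + n), (c k' l : ℝ) • b l -
                  ∑ l ∈ Ico i (i + n), (c k l : ℝ) • b l) := by
              rw [← sum_sub_distrib, smul_sum]
              refine sum_congr rfl fun l hl => ?_
              have : (c k' l : ℝ) - c k l = M * z l := by exact_mod_cast hz l hl
              rw [← sub_smul, this, smul_smul, inv_mul_cancel_left₀ hMr.ne']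
            rw [e1, ← smul_add, nm_smul, abs_of_pos (inv_pos.2 hMr), div_eq_inv_mul]
            refine mul_le_mul_of_nonneg_left ?_ (inv_pos.2 hMr).le
            have := nm_add (a := a) (∑ l ∈ Ico i (i + n), (c k' l : ℝ) • b l + w')
              (-(∑ l ∈ Ico i (i + n), (c k l : ℝ) • b l + w))
            rw [nm_neg] at this
            refine le_trans (le_of_eq ?_) (this.trans (by linarith))
            congr 1; abel⟩
        rw [le_div_iff₀ hMr] at this
        linarith)
  simpa using this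

lemma sum_pow_ge (j N : ℕ) : (N : ℝ) ^ (j + 1) ≤ (j + 1) * ∑ y ∈ range (N + 1), (y : ℝ) ^ j := by
  induction N with
  | zero => simp; positivity
  | succ N ih =>
    rw [sum_range_succ, mul_add]
    have h1 : (0 : ℝ) ≤ N := Nat.cast_nonneg _
    have h2 := one_add_mul_sub_le_pow (a := (N : ℝ) / (N + 1)) (by
      have : (0 : ℝ) ≤ (N : ℝ) / (N + 1) := by positivity
      linarith) (j + 1)
    have h3 : (0 : ℝ) < (N + 1 : ℝ) ^ (j + 1) := by positivity
    have h4 := mul_le_mul_of_nonneg_right h2 h3.le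
    rw [div_pow, div_mul_cancel₀ _ h3.ne'] at h4
    have h5 : (1 + ((j + 1 : ℕ) : ℝ) * ((N : ℝ) / (N + 1) - 1)) * (N + 1 : ℝ) ^ (j + 1) =
        (N + 1 : ℝ) ^ (j + 1) - (j + 1) * (N + 1 : ℝ) ^ j := by
      push_cast; field_simp; ring
    push_cast
    linarith

lemma le_one_of_pow (α C : ℝ) (j : ℕ) (h : ∀ N : ℕ, α * (N : ℝ) ^ j ≤ (N + C) ^ j) : α ≤ 1 := by
  have h1 : Tendsto (fun N : ℕ => (1 + C / N) ^ j) atTop (𝓝 ((1 + 0) ^ j)) :=
    ((tendsto_const_div_atTop_nhds_zero_nat C).const_add 1).pow j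
  rw [add_zero, one_pow] at h1
  refine ge_of_tendsto h1 ((eventually_gt_atTop 0).mono fun N hN => ?_)
  have h2 : (0 : ℝ) < N := Nat.cast_pos.2 hN
  have : (1 + C / N) = (N + C) / N := by field_simp
  rw [this, div_pow, le_div_iff₀ (by positivity)]
  exact h N

/-- Counting staircases supported on a run of indices after the anchor `i`. -/
theorem run_count (ha : ∀ i, 0 < a i) (hA : 0 < ∑ i, (a i : ℝ)) (h : KZ a r b lam) (i j : ℕ)
    (hj : i + (j + 1) ≤ r) (t : ℝ) (ht : 0 ≤ t) (A : Finset (ℕ → ℕ))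
    (h1 : ∀ x ∈ A, ∀ l, l ∉ Ico (i + 1) (i + (j + 1)) → x l = 0)
    (h2 : ∀ x ∈ A, S a r b t fun l => (x l : ℝ)) :
    (A.card : ℝ) ≤ (j + 1) * ((t + ∑ l ∈ range r, lam l) / lam i) ^ j := by
  classical
  have hi : i < r := by omega
  have hl := h.pos ha hi
  have hc : lam i ≤ ∑ l ∈ range r, lam l :=
    single_le_sum (fun l hl => (h.pos ha (mem_range.1 hl)).le) (mem_range.2 hi)
  set L := t + ∑ l ∈ range r, lam l with hL
  have hL0 : 0 < L := by linarith
  set η := lam i / L with hη
  have hη0 : 0 < η := div_pos hl hL0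
  set K := ⌈η⁻¹⌉₊ with hK
  have hK1 : 1 ≤ K * η := by
    have := Nat.le_ceil η⁻¹
    rwa [inv_le_iff_one_le_mul₀ hη0] at this
  let ν : ℕ → ℕ := fun y => ⌊(y + K) * η⌋₊
  have hν1 : ∀ y : ℕ, (y : ℝ) * η ≤ ν y := fun y => by
    have := Nat.lt_floor_add_one ((y + K) * η)
    simp only [ν]; nlinarith
  have hν2 : ∀ y : ℕ, (ν y : ℝ) * L ≤ (y + K) * lam i := fun y => by
    have := Nat.floor_le (show (0 : ℝ) ≤ (y + K) * η by positivity)
    rw [hη, ← mul_div_assoc, le_div_iff₀ hL0] at this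
    simpa only [ν, hη, mul_div_assoc] using this
  set B := Ico (i + 1) (i + (j + 1)) with hB
  have P1 : Tr (QD a) (bD b) (i + (j + 1)) (Pi.single i 2) (0, lam i) := by
    have e : ∀ l < i, (0 : ℕ → ℝ) l = (Pi.single i 2 : ℕ → ℝ) l := fun l hl => by
      rw [Pi.single_eq_of_ne (by omega)]; rfl
    obtain ⟨w, hw, g⟩ := h.att i hi
    refine Tr.up (show i + 1 ≤ _ by omega) (fun l h _ => Pi.single_eq_of_ne (by omega) _)
      ⟨-1, Tr.congr e ?_, Tr.congr e ?_⟩
    · have : Nle a b i (-b i) (lam i) := ⟨-w, Submodule.neg_mem _ hw, by rw [← neg_add, nm_neg]; exact g⟩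
      convert TrD_iff.2 this using 1
      simp [bD]
    · convert TrD_iff.2 (h.att i hi) using 1
      simp only [bD, Pi.single_eq_same]
      norm_num
  have P2 : ∀ x ∈ A, Tr (QD a) (bD b) (i + (j + 1))
      (fun l => if l ∈ B then 2 * ((x l : ℝ) + 1) else 0) (0, L) := by
    intro x hx
    obtain ⟨p, e, g⟩ := ((h2 x hx).add (S.ones hA h)).down
      (y := fun l => if l ∈ B then (x l : ℝ) + 1 else 0) fun l _ => by
        have : (0 : ℝ) ≤ x l := Nat.cast_nonneg _
        simp only [Pi.add_apply]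
        split_ifs <;> constructor <;> linarith
    obtain ⟨w, hw, g⟩ := g.descend hj
    have := reflect h hj g g
    rw [sub_self, map_add, h.dgV le_rfl hw, e, add_zero, add_self_div_two] at this
    refine this.congr fun l _ => ?_
    simp only [Pi.add_apply]
    split_ifs <;> ring
  have key : ∀ n : ℕ, ∑ y ∈ range n, A.card * ν y ^ j ≤ (n + K + 1) ^ (j + 1) := by
    intro n
    let F : Finset (Σ _ : ℕ, (ℕ → ℕ) × (↥B → ℕ)) :=
      (range n).sigma fun y => A ×ˢ Fintype.piFinset fun _ => range (ν y)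
    let m : (Σ _ : ℕ, (ℕ → ℕ) × (↥B → ℕ)) → ℕ → ℕ := fun k l =>
      if hl : l ∈ B then ν k.1 * k.2.1 l + k.2.2 ⟨l, hl⟩ else n - 1 - k.1
    have hiB : i ∉ B := by simp [hB]
    obtain ⟨c, c1, c2⟩ := decompress (b := bD b) (cone_QD (a := a)) i (j + 1)
      (0, (n + K) * lam i / 2) F m (by
        rintro ⟨y, x, z⟩ hk ⟨y', x', z'⟩ hk' e
        simp only [F, mem_sigma, mem_range, mem_product, Fintype.mem_piFinset] at hk hk'
        have e1 := e i (by simp)
        simp only [m, dif_neg hiB] at e1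
        obtain rfl : y = y' := by omega
        have e2 : ∀ l : ↥B, x l = x' l ∧ z l = z' l := fun l => by
          have e3 := e l (by have := mem_Ico.1 l.2; simp only [mem_Ico]; omega)
          simp only [m, dif_pos l.2, Subtype.coe_eta] at e3
          have g1 := hk.2.2 l
          have g2 := hk'.2.2 l
          have e4 : (ν y * x l + z l) / ν y = (ν y * x' l + z' l) / ν y := by rw [e3]
          rw [Nat.mul_add_div (by omega), Nat.mul_add_div (by omega), Nat.div_eq_of_lt g1,
            Nat.div_eq_of_lt g2, add_zero, add_zero] at e4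
          exact ⟨e4, by rw [e4] at e3; omega⟩
        obtain rfl : x = x' := funext fun l => by
          by_cases hl : l ∈ B
          · exact (e2 ⟨l, hl⟩).1
          · rw [h1 x hk.2.1 l hl, h1 x' hk'.2.1 l hl]
        obtain rfl : z = z' := funext fun l => (e2 l).2
        rfl) (by
        rintro ⟨y, x, z⟩ hk
        simp only [F, mem_sigma, mem_range, mem_product, Fintype.mem_piFinset] at hk
        have hy : (y : ℝ) + 1 ≤ n := by exact_mod_cast hk.1
        have g1 := P1.smul cone_QD (show (0 : ℝ) ≤ (n - y) / 2 by linarith)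
        have g2 := (P2 x hk.2.1).smul cone_QD (show (0 : ℝ) ≤ ν y / 2 by positivity)
        have g3 : Tr (QD a) (bD b) (i + (j + 1)) 0 (0, ((y + K) * lam i - ν y * L) / 2) :=
          Tr.up (Nat.zero_le _) (fun _ _ _ => rfl) (by
            change nm a 0 ≤ _
            have := hν2 y
            simp only [nm, Pi.zero_apply, abs_zero, mul_zero, sum_const_zero]
            linarith)
        have g4 := (g1.add cone_QD g2).add cone_QD g3
        have e : ((n - y : ℝ) / 2) • ((0 : ι → ℝ), lam i) + ((ν y : ℝ) / 2) • ((0 : ι → ℝ), L) +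
            (0, ((y + K) * lam i - ν y * L) / 2) = (0, (n + K) * lam i / 2) := by
          ext1
          · simp
          · simp; ring
        rw [e] at g4
        refine g4.down cone_QD fun l hl => ⟨by positivity, ?_⟩
        simp only [Pi.add_apply, Pi.smul_apply, smul_eq_mul, Pi.zero_apply, add_zero, m]
        by_cases hlB : l ∈ B
        · have hl' := mem_Ico.1 hlB
          rw [if_pos (by omega), dif_pos hlB, if_pos hlB, Pi.single_eq_of_ne (by omega)]
          have : ((z ⟨l, hlB⟩ : ℕ) : ℝ) + 1 ≤ ν y := by exact_mod_cast hk.2.2 ⟨l, hlB⟩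
          push_cast; linarith
        · rw [dif_neg hlB, if_neg hlB]
          by_cases hli : l = i
          · rw [hli, if_pos le_rfl, Pi.single_eq_same]
            have : ((n - 1 - y : ℕ) : ℝ) + 1 = n - y := by
              rw [Nat.cast_sub (by omega), Nat.cast_sub (by omega)]; push_cast; ring
            linarith
          · rw [if_neg (by simp only [hB, mem_Ico] at hlB; omega), Pi.single_eq_of_ne hli]
            simp)
    have := pigeon h i (j + 1) hi hj F c c1 ((n + K) * lam i / 2) (fun k hk => by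
      have := c2 k hk
      rw [sum_bD] at this
      exact TrD_iff.1 (by simpa using this)) (n + K + 1) (by omega) (by push_cast; linarith)
    refine le_trans (le_of_eq ?_) this
    simp only [F, card_sigma, card_product, Fintype.card_piFinset, card_range, prod_const, card_univ,
      Fintype.card_coe, hB, Nat.card_Ico]
    exact sum_congr rfl fun y _ => by congr 2; omega
  have fin := le_one_of_pow (A.card * η ^ j / (j + 1)) (K + 2) (j + 1) fun N => by
    have k1 : ((∑ y ∈ range (N + 1), A.card * ν y ^ j : ℕ) : ℝ) ≤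
        ((N + 1 + K + 1) ^ (j + 1) : ℕ) := by exact_mod_cast key (N + 1)
    push_cast at k1
    have k2 : ∑ y ∈ range (N + 1), (A.card : ℝ) * η ^ j * (y : ℝ) ^ j ≤
        ∑ y ∈ range (N + 1), (A.card : ℝ) * (ν y : ℝ) ^ j := sum_le_sum fun y _ => by
      rw [mul_assoc, ← mul_pow, mul_comm η]
      exact mul_le_mul_of_nonneg_left (pow_le_pow_left₀ (by positivity) (hν1 y) j) (by positivity)
    rw [← mul_sum] at k2
    have k3 := mul_le_mul_of_nonneg_left (sum_pow_ge j N)
      (show (0 : ℝ) ≤ A.card * η ^ j / (j + 1) by positivity)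
    have k4 : (A.card : ℝ) * η ^ j / (j + 1) * ((j + 1) * ∑ y ∈ range (N + 1), (y : ℝ) ^ j) =
        A.card * η ^ j * ∑ y ∈ range (N + 1), (y : ℝ) ^ j := by field_simp
    rw [show (N : ℝ) + (K + 2) = N + 1 + K + 1 by ring]
    linarith
  rw [div_le_one (by positivity), ← le_div_iff₀ (by positivity)] at fin
  refine fin.trans (le_of_eq ?_)
  rw [hη, div_pow, div_pow]
  field_simp

/-- Counting staircases supported on one index. -/
theorem one_count (ha : ∀ i, 0 < a i) (h : KZ a r b lam) (i : ℕ) (hi : i < r) (t : ℝ) (ht : 0 ≤ t)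
    (A : Finset (ℕ → ℕ)) (h1 : ∀ x ∈ A, ∀ l, l ∉ Ico i (i + 1) → x l = 0)
    (h2 : ∀ x ∈ A, S a r b t fun l => (x l : ℝ)) :
    (A.card : ℝ) ≤ (t + ∑ l ∈ range r, lam l) / lam i := by
  have hl := h.pos ha hi
  have hc : lam i ≤ ∑ l ∈ range r, lam l :=
    single_le_sum (fun l hl => (h.pos ha (mem_range.1 hl)).le) (mem_range.2 hi)
  have := card_le_card_of_injOn (s := A) (t := range (⌊t / lam i⌋₊ + 1)) (fun x => x i)
    (fun x hx => by
      have := (h2 x hx).lam_le h hi (Nat.cast_nonneg _)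
      rw [← le_div_iff₀ hl] at this
      simpa [Nat.lt_succ_iff] using Nat.le_floor this)
    (fun x hx y hy e => funext fun l => by
      by_cases hl : l = i
      · rw [hl]; exact e
      · rw [h1 x hx l (by simp only [mem_Ico]; omega), h1 y hy l (by simp only [mem_Ico]; omega)])
  rw [card_range] at this
  have h3 : (A.card : ℝ) ≤ ⌊t / lam i⌋₊ + 1 := by exact_mod_cast this
  have h4 := Nat.floor_le (div_nonneg ht hl.le)
  have h5 : 1 ≤ (∑ l ∈ range r, lam l) / lam i := (one_le_div hl).2 hc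
  rw [add_div]
  linarith

end Pool.Agent.Lib.MP_9ff3e7_ag.G
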