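import Pool.Agent.Lib.MP_9ff3e7_ag.GKZ

namespace Pool.Agent.Lib.MP_9ff3e7_ag.G

open Finset

set_option linter.unusedSectionVars false

variable {ι : Type} [Fintype ι] {a : ι → ℕ} {r : ℕ} {b : ℕ → ι → ℝ} {lam : ℕ → ℝ}

/-- The nonnegative orthant. -/
def QK (p : ι → ℝ) : Prop := 0 ≤ p

lemma cone_QK : Cone (QK (ι := ι)) :=
  ⟨fun _ _ h1 h2 => add_nonneg h1 h2, fun _ _ h1 h2 => smul_nonneg h1 h2⟩

/-- Staircases in degree `t`. -/
def S (a : ι → ℕ) (r : ℕ) (b : ℕ → ι → ℝ) (t : ℝ) (x : ℕ → ℝ) : Prop :=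
  ∃ p, dg a p = t ∧ Tr QK b r x p

lemma S.add {t u : ℝ} {x y : ℕ → ℝ} (h1 : S a r b t x) (h2 : S a r b u y) :
    S a r b (t + u) (x + y) := by
  obtain ⟨p, e1, h1⟩ := h1
  obtain ⟨q, e2, h2⟩ := h2
  exact ⟨p + q, by rw [map_add, e1, e2], h1.add cone_QK h2⟩

lemma S.smul {t c : ℝ} {x : ℕ → ℝ} (hc : 0 ≤ c) (h1 : S a r b t x) : S a r b (c * t) (c • x) := by
  obtain ⟨p, e1, h1⟩ := h1
  exact ⟨c • p, by rw [map_smul, e1, smul_eq_mul], h1.smul cone_QK hc⟩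

lemma S.down {t : ℝ} {x y : ℕ → ℝ} (h1 : S a r b t x) (h : ∀ i < r, 0 ≤ y i ∧ y i ≤ x i) :
    S a r b t y := by
  obtain ⟨p, e1, h1⟩ := h1
  exact ⟨p, e1, h1.down cone_QK h⟩

lemma S.congr {t : ℝ} {x y : ℕ → ℝ} (h1 : S a r b t x) (h : ∀ i < r, x i = y i) :
    S a r b t y := by
  obtain ⟨p, e1, h1⟩ := h1
  exact ⟨p, e1, h1.congr h⟩

lemma dg_nonneg {p : ι → ℝ} (hp : 0 ≤ p) : 0 ≤ dg a p :=
  sum_nonneg fun i _ => mul_nonneg (Nat.cast_nonneg _) (hp i)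

lemma S.nonneg (h : KZ a r b lam) {t : ℝ} {x : ℕ → ℝ} (h1 : S a r b t x) : 0 ≤ t := by
  obtain ⟨p, e1, h1⟩ := h1
  obtain ⟨w, hw, h2⟩ := h1.descend (Nat.zero_le r)
  have := dg_nonneg (a := a) h2
  rwa [map_add, h.dgV le_rfl hw, add_zero, e1] at this

lemma S.zero (hA : 0 < ∑ i, (a i : ℝ)) {t : ℝ} (ht : 0 ≤ t) : S a r b t 0 := by
  refine ⟨fun _ => t / ∑ i, (a i : ℝ), ?_, Tr.up (Nat.zero_le r) (fun _ _ _ => rfl) fun i =>
    div_nonneg ht hA.le⟩
  rw [dg_apply, ← sum_mul]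
  field_simp

lemma S.mono (hA : 0 < ∑ i, (a i : ℝ)) {t u : ℝ} {x : ℕ → ℝ} (h1 : S a r b t x) (h : t ≤ u) :
    S a r b u x := by
  simpa using h1.add (S.zero (r := r) (b := b) hA (sub_nonneg.2 h))

lemma S.single (hA : 0 < ∑ i, (a i : ℝ)) (h : KZ a r b lam) {l : ℕ} (hl : l < r) :
    S a r b (lam l) (Pi.single l 1) := by
  obtain ⟨w, hw, h1⟩ := h.att l hl
  obtain ⟨p, h2, h3, h4⟩ := exists_neg_part (a := a) (v := b l + w)
    (by rw [map_add, h.deg0 l hl, h.dgV hl.le hw, add_zero])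
  have e : ∀ i < l, (0 : ℕ → ℝ) i = (Pi.single l 1 : ℕ → ℝ) i := fun i hi => by
    rw [Pi.single_eq_of_ne (by omega)]; rfl
  refine S.mono hA ⟨p, h4, Tr.up (show l + 1 ≤ r from hl)
    (fun i h _ => Pi.single_eq_of_ne (by omega) _) ⟨0, ?_, ?_⟩⟩ h1
  · refine Tr.congr e (Tr_zero_iff.2 ⟨0, Submodule.zero_mem _, ?_⟩)
    simpa [QK] using h2
  · refine Tr.congr e (Tr_zero_iff.2 ⟨w, hw, ?_⟩)
    simpa [add_assoc, QK] using h3

lemma S.ones (hA : 0 < ∑ i, (a i : ℝ)) (h : KZ a r b lam) :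
    S a r b (∑ l ∈ range r, lam l) (fun _ => 1) := by
  have : ∀ n ≤ r, S a r b (∑ l ∈ range n, lam l) (∑ l ∈ range n, Pi.single l 1) := by
    intro n hn
    induction n with
    | zero => simpa using S.zero hA le_rfl
    | succ n ih => rw [sum_range_succ, sum_range_succ]; exact (ih (by omega)).add (S.single hA h hn)
  refine (this r le_rfl).congr fun i hi => ?_
  rw [Finset.sum_apply, sum_eq_single i (fun j _ hj => Pi.single_eq_of_ne (Ne.symm hj) _)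
    (fun h => absurd (mem_range.2 hi) h)]
  simp

lemma S.lam_le (h : KZ a r b lam) {t : ℝ} {x : ℕ → ℝ} (h1 : S a r b t x) {l : ℕ} (hl : l < r)
    (hx : 0 ≤ x l) : x l * lam l ≤ t := by
  have ht := h1.nonneg h
  rcases hx.eq_or_lt with e | hx
  · rw [← e, zero_mul]; exact ht
  obtain ⟨p, e1, h1⟩ := h1
  obtain ⟨w, hw, c, h2, h3⟩ := h1.descend (show l + 1 ≤ r from hl)
  obtain ⟨w2, hw2, h2⟩ := h2.descend (Nat.zero_le l)
  obtain ⟨w3, hw3, h3⟩ := h3.descend (Nat.zero_le l)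
  have h4 := nm_sub_le (a := a) h3 h2
  simp only [map_add, map_smul, h.deg0 l hl, h.dgV le_rfl hw, h.dgV hl.le hw2, h.dgV hl.le hw3, e1,
    smul_zero, add_zero] at h4
  have h5 := h.min l hl (b l) (t / x l) (h.int l hl) (h.deg0 l hl) (h.nmem l hl)
    ⟨(x l)⁻¹ • (w3 - w2), Submodule.smul_mem _ _ (Submodule.sub_mem _ hw3 hw2), by
      have e : b l + (x l)⁻¹ • (w3 - w2) =
          (x l)⁻¹ • (p + w + (c + x l) • b l + w3 - (p + w + c • b l + w2)) := by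
        rw [show p + w + (c + x l) • b l + w3 - (p + w + c • b l + w2) = x l • b l + (w3 - w2) by
          rw [add_smul]; abel, smul_add, smul_smul, inv_mul_cancel₀ hx.ne', one_smul]
      rw [e, nm_smul, abs_of_pos (inv_pos.2 hx), div_eq_inv_mul]
      exact mul_le_mul_of_nonneg_left (by linarith) (inv_pos.2 hx).le⟩
  rwa [le_div_iff₀ hx, mul_comm] at h5

lemma descent_int (h : KZ a r b lam) (δ : ι → ℝ) {l : ℕ} (hl : l ≤ r) : ∀ p : ι → ℝ, IsInt p →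
    Tr QK b l (fun _ => 1) (p - δ) → ∃ q : ι → ℝ, IsInt q ∧ dg a q = dg a p ∧ δ ≤ q := by
  induction l with
  | zero => intro p h1 h2; exact ⟨p, h1, rfl, sub_nonneg.1 h2⟩
  | succ l ih =>
    rintro p h1 ⟨c, h2, h3⟩
    have h4 := Tr.between cone_QK h2 h3 (Int.le_ceil c) (Int.ceil_lt_add_one c).le
    obtain ⟨q, g1, g2, g3⟩ := ih (by omega) (p + ((⌈c⌉ : ℤ) : ℝ) • b l)
      (h1.add ((h.int l hl).smul _)) (by convert h4 using 1; abel)
    exact ⟨q, g1, by rw [g2, map_add, map_smul, h.deg0 l hl, smul_zero, add_zero], g3⟩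

lemma S.gap (hA : 0 < ∑ i, (a i : ℝ)) (h : KZ a r b lam) (full : ∀ v, dg a v = 0 → v ∈ V b r)
    (m : ℕ) (p0 : ι → ℝ) (hp0 : IsInt p0) (hd : dg a p0 = m + ∑ i, (a i : ℝ))
    (hm : ∀ γ : ι → ℕ, ∑ i, a i * γ i ≠ m) {t : ℝ} (h1 : S a r b t fun _ => 1) :
    m + ∑ i, (a i : ℝ) ≤ t := by
  by_contra h2
  push Not at h2
  obtain ⟨p, e1, h1⟩ := h1
  set ε := (m + ∑ i, (a i : ℝ) - t) / ∑ i, (a i : ℝ) with hε
  have hε0 : 0 < ε := div_pos (by linarith) hA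
  have hδ : dg a (fun _ => ε) = m + ∑ i, (a i : ℝ) - t := by
    rw [dg_apply, ← sum_mul, hε]; field_simp
  have h3 := h1.shift (full (p0 - (fun _ => ε) - p) (by rw [map_sub, map_sub, hd, hδ, e1]; ring))
  obtain ⟨q, g1, g2, g3⟩ := descent_int h (fun _ => ε) le_rfl p0 hp0 (by convert h3 using 1; abel)
  choose n hn using g1
  have hn1 : ∀ i, 1 ≤ n i := fun i => by
    have := hε0.trans_le (g3 i)
    rw [hn i] at this
    have : 0 < n i := by exact_mod_cast this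
    omega
  refine hm (fun i => (n i - 1).toNat) ?_
  rw [hd, dg_apply] at g2
  have e : ∀ i, ((((n i - 1).toNat : ℕ)) : ℝ) = q i - 1 := fun i => by
    have : (((n i - 1).toNat : ℕ) : ℤ) = n i - 1 := Int.toNat_of_nonneg (by linarith [hn1 i])
    rw [hn i]
    exact_mod_cast this
  have : ((∑ i, a i * (n i - 1).toNat : ℕ) : ℝ) = m := by
    push_cast
    simp only [e, mul_sub, mul_one, sum_sub_distrib]
    linarith
  exact_mod_cast this

/-- A supporting functional of the cone of staircases. -/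
theorem exists_beta (hA : 0 < ∑ i, (a i : ℝ)) (h : KZ a r b lam) (μ : ℝ)
    (hμ : ∀ t, S a r b t (fun _ => 1) → μ ≤ t) :
    ∃ β : ℕ → ℝ, (∀ l, 0 ≤ β l) ∧ μ ≤ ∑ l ∈ range r, β l ∧
      ∀ t x, (∀ l, 0 ≤ x l) → S a r b t x → ∑ l ∈ range r, β l * x l ≤ t := by
  classical
  let T : (ℕ → ℝ) → Set ℝ := fun x => {t | ∃ y : ℕ → ℝ, (∀ l < r, x l ≤ y l) ∧ S a r b t y}
  have hne : ∀ x, (T x).Nonempty := fun x => by
    refine ⟨_, _, ?_, (S.ones hA h).smul (c := ∑ l ∈ range r, |x l|) (by positivity)⟩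
    intro l hl
    simpa using (le_abs_self _).trans
      (single_le_sum (f := fun l => |x l|) (fun _ _ => abs_nonneg _) (mem_range.2 hl))
  have hbd : ∀ x, BddBelow (T x) := fun x => ⟨0, fun t ⟨_, _, ht⟩ => ht.nonneg h⟩
  let N : (ℕ → ℝ) → ℝ := fun x => sInf (T x)
  have N0 : ∀ x, 0 ≤ N x := fun x => le_csInf (hne x) fun t ⟨_, _, ht⟩ => ht.nonneg h
  have Nle : ∀ (c : ℝ), 0 < c → ∀ x, N (c • x) ≤ c * N x := by
    intro c hc x
    rw [← div_le_iff₀' hc]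
    refine le_csInf (hne x) fun t ⟨y, h1, h2⟩ => ?_
    rw [div_le_iff₀' hc]
    exact csInf_le (hbd _) ⟨c • y, fun l hl => mul_le_mul_of_nonneg_left (h1 l hl) hc.le,
      h2.smul hc.le⟩
  have Nhom : ∀ (c : ℝ), 0 < c → ∀ x, N (c • x) = c * N x := by
    intro c hc x
    refine le_antisymm (Nle c hc x) ?_
    have := Nle c⁻¹ (inv_pos.2 hc) (c • x)
    rw [smul_smul, inv_mul_cancel₀ hc.ne', one_smul] at this
    rwa [← le_div_iff₀' hc, div_eq_inv_mul]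
  have Nadd : ∀ x y, N (x + y) ≤ N x + N y := by
    intro x y
    rw [← sub_le_iff_le_add]
    refine le_csInf (hne x) fun t ⟨x', h1, h2⟩ => ?_
    rw [sub_le_comm]
    refine le_csInf (hne y) fun u ⟨y', h3, h4⟩ => ?_
    rw [sub_le_iff_le_add']
    exact csInf_le (hbd _) ⟨x' + y', fun l hl => add_le_add (h1 l hl) (h3 l hl), h2.add h4⟩
  have Nneg : ∀ x : ℕ → ℝ, (∀ l < r, x l ≤ 0) → N x ≤ 0 := fun x hx =>
    csInf_le (hbd _) ⟨0, hx, S.zero hA le_rfl⟩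
  have one_ne : (fun _ => 1 : ℕ → ℝ) ≠ 0 := fun e => one_ne_zero (congrFun e 0)
  obtain ⟨g, hg1, hg2⟩ := exists_extension_of_le_sublinear
    (LinearPMap.mkSpanSingleton (K := ℝ) (fun _ => 1 : ℕ → ℝ) (N fun _ => 1) one_ne) N Nhom Nadd (by
      rintro ⟨x, hx⟩
      obtain ⟨c, rfl⟩ := Submodule.mem_span_singleton.1 hx
      erw [LinearPMap.mkSpanSingleton'_apply]
      simp only [RingHom.id_apply, smul_eq_mul]
      rcases lt_or_ge 0 c with hc | hc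
      · exact (Nhom c hc _).ge
      · exact (mul_nonpos_of_nonpos_of_nonneg hc (N0 _)).trans (N0 _))
  have g1 : g (fun _ => 1) = N fun _ => 1 := by
    have := hg1 ⟨_, Submodule.mem_span_singleton_self _⟩
    erw [LinearPMap.mkSpanSingleton_apply] at this
    exact this
  have gsum : ∀ x : ℕ → ℝ, g x = ∑ l ∈ range r, g (Pi.single l 1) * x l := by
    intro x
    set z := x - ∑ l ∈ range r, x l • (Pi.single l 1 : ℕ → ℝ) with hz
    have hz0 : ∀ l < r, z l = 0 := fun l hl => by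
      rw [hz, Pi.sub_apply, Finset.sum_apply, sum_eq_single l (fun j _ hj => by simp [Ne.symm hj])
        (fun h => absurd (mem_range.2 hl) h)]
      simp
    have e1 := (hg2 z).trans (Nneg z fun l hl => (hz0 l hl).le)
    have e2 := (hg2 (-z)).trans (Nneg (-z) fun l hl => by simp [hz0 l hl])
    rw [map_neg] at e2
    have e3 : g z = 0 := by linarith
    rw [hz, map_sub, map_sum, sub_eq_zero] at e3
    rw [e3]
    exact sum_congr rfl fun l _ => by rw [map_smul, smul_eq_mul, mul_comm]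
  refine ⟨fun l => g (Pi.single l 1), fun l => ?_, ?_, fun t x _ hS => ?_⟩
  · have := (hg2 (-Pi.single l 1)).trans (Nneg _ fun i _ => by
      by_cases e : i = l <;> simp [e])
    rw [map_neg] at this
    linarith
  · have e := gsum fun _ => 1
    simp only [mul_one] at e
    rw [← e, g1]
    exact le_csInf (hne _) fun t ⟨y, h1, h2⟩ => hμ t (h2.down fun i hi => ⟨zero_le_one, h1 i hi⟩)
  · rw [← gsum]
    exact (hg2 x).trans (csInf_le (hbd _) ⟨x, fun _ _ => le_rfl, hS⟩)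

end Pool.Agent.Lib.MP_9ff3e7_ag.G
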