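import Pool.Agent.Lib.MP_9ff3e7_ag.GTor
import Pool.Agent.Lib.MP_9ff3e7_ag.GCyc
import Pool.Agent.Lib.MP_9ff3e7_ag.GGeo

namespace Pool.Agent.Lib.MP_9ff3e7_ag.G

open Finset MvPolynomial

set_option linter.unusedSectionVars false

variable {σ κ : Type} [Fintype σ] [DecidableEq σ] {w : σ → ℕ} {d : κ → ℕ}

/-- A free system on the variables in `A` with the equations in `J`. -/
structure Sys (w : σ → ℕ) (d : κ → ℕ) (A : Finset σ) (J : Finset κ) (f : κ → MvPolynomial σ ℂ) :
    Prop where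
  hom : ∀ j ∈ J, (f j).IsWeightedHomogeneous w (d j)
  free : ∀ y : σ → ℂ, y ≠ 0 → (∀ i, y i ≠ 0 → i ∈ A) → (∀ j ∈ J, eval y (f j) = 0) →
    ∀ p : ℕ, p.Prime → ∃ i, y i ≠ 0 ∧ ¬ p ∣ w i

lemma wt_eq (w : σ → ℕ) (γ : σ →₀ ℕ) : Finsupp.weight w γ = ∑ i, w i * γ i := by
  rw [Finsupp.weight_apply, Finsupp.sum_fintype _ _ (by simp)]
  exact sum_congr rfl fun i _ => by simp [mul_comm]

lemma exists_mono {g : MvPolynomial σ ℂ} {y : σ → ℂ} (h : eval y g ≠ 0) :
    ∃ m ∈ g.support, ∀ i, m i ≠ 0 → y i ≠ 0 := by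
  rw [MvPolynomial.eval_eq] at h
  obtain ⟨m, hm, h1⟩ := exists_ne_zero_of_sum_ne_zero h
  refine ⟨m, hm, fun i hi h2 => h1 ?_⟩
  rw [prod_eq_zero (Finsupp.mem_support_iff.2 hi) (by rw [h2, zero_pow hi]), mul_zero]

lemma dvd_of_eval {g : MvPolynomial σ ℂ} {e q : ℕ} (hg : g.IsWeightedHomogeneous w e) {y : σ → ℂ}
    (h : eval y g ≠ 0) (hy : ∀ i, y i ≠ 0 → q ∣ w i) : q ∣ e := by
  obtain ⟨m, hm, h1⟩ := exists_mono h
  rw [← hg (mem_support_iff.1 hm), wt_eq]
  refine dvd_sum fun i _ => ?_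
  by_cases e : m i = 0
  · simp [e]
  · exact (hy i (h1 i e)).mul_right _

lemma wt_in {I : Finset σ} {m : σ →₀ ℕ} (hm : In I m) :
    Finsupp.weight w m = ∑ i : ↥I, w i * m i := by
  rw [wt_eq, sum_coe_sort I fun i => w i * m i]
  exact (sum_subset (subset_univ _) fun i _ hi => by
    rw [show m i = 0 from by_contra fun h => hi (hm i h), mul_zero]).symm

/-- The class of a monomial modulo a subtorus. -/
noncomputable def cls (w : σ → ℕ) (I : Finset σ) (L : Submodule ℝ (↥I → ℝ)) :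
    (σ →₀ ℕ) →+ ℕ × ((↥I → ℝ) ⧸ L) × (σ → ℕ) where
  toFun m := (Finsupp.weight w m, L.mkQ (cv fun i : ↥I => m i), fun i => if i ∈ I then 0 else m i)
  map_zero' := by
    refine Prod.ext (map_zero _) (Prod.ext ?_ (funext fun i => by simp))
    change L.mkQ _ = 0
    rw [show (cv fun i : ↥I => (0 : σ →₀ ℕ) i) = 0 from funext fun i => by simp [cv], map_zero]
  map_add' m m' := by
    refine Prod.ext (map_add _ _ _) (Prod.ext ?_ (funext fun i => ?_))
    · change L.mkQ _ = L.mkQ _ + L.mkQ _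
      rw [← map_add]
      congr 1
      funext i
      simp [cv]
    · by_cases h : i ∈ I <;> simp [h]

lemma cls_eq {I : Finset σ} {L : Submodule ℝ (↥I → ℝ)} {m m' : σ →₀ ℕ} (hm : In I m) (hm' : In I m')
    (h : Finsupp.weight w m = Finsupp.weight w m') : cls w I L m = cls w I L m' ↔
      (cv fun i : ↥I => m i) - (cv fun i : ↥I => m' i) ∈ L := by
  rw [← Submodule.Quotient.eq]
  refine ⟨fun e => congrArg (fun z => z.2.1) e, fun e => Prod.ext h (Prod.ext e (funext fun i => ?_))⟩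
  change (if i ∈ I then 0 else m i) = if i ∈ I then 0 else m' i
  split_ifs with hi
  · rfl
  · rw [show m i = 0 from by_contra fun h => hi (hm i h),
      show m' i = 0 from by_contra fun h => hi (hm' i h)]

open Classical in
theorem supply2 (hw : ∀ i, 0 < w i) (hd : ∀ j, 0 < d j) {A : Finset σ} {J : Finset κ}
    {f : κ → MvPolynomial σ ℂ} (hS : Sys w d A J f) (x : σ → ℂ) (I U : Finset σ)
    (hI : ∀ i, x i ≠ 0 ↔ i ∈ I) (hIA : I ⊆ A) (hUA : U ⊆ A) (hU : Disjoint U I)
    (hx : ∀ j ∈ J, eval x (f j) = 0) (s W : ℝ) (hL : Level (fun i : ↥I => w i) s W)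
    (H : ∀ j ∈ J, (d j : ℝ) < s → ∀ m ∈ (f j).support, In (U ∪ I) m → In I m) :
    ∏ u ∈ U, (w u : ℝ) ≤ W * ∏ j ∈ J.filter (fun j => s ≤ d j), (d j : ℝ) := by
  obtain ⟨L, ρ, l1, ⟨c, c0, l2⟩, P, P0, l3⟩ := hL
  let val : σ → ℂ := fun i => if i ∈ I then x i else 1
  have hv : ∀ i, val i ≠ 0 := fun i => by
    simp only [val]; split_ifs with h
    exacts [(hI i).2 h, one_ne_zero]
  set π := cls w I L with hπ
  set K := RingHom.ker (phi π (U ∪ I) val) with hK
  set T := J.filter (fun j => s ≤ d j) with hT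
  have k1 : ∀ j ∈ J, (d j : ℝ) < s → f j ∈ K := by
    intro j hj hs
    obtain ⟨g0, hg0⟩ : ∃ g0, ∀ m ∈ (f j).support, In I m → π m = g0 := by
      by_cases h : ∃ m0 ∈ (f j).support, In I m0
      · obtain ⟨m0, h1, h2⟩ := h
        refine ⟨π m0, fun m h3 h4 => ?_⟩
        have e1 := hS.hom j hj (mem_support_iff.1 h1)
        have e2 := hS.hom j hj (mem_support_iff.1 h3)
        refine (cls_eq h4 h2 (e2.trans e1.symm)).2 (l1 _ _ ?_ ?_)
        · rw [← wt_in h4, ← wt_in h2, e1, e2]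
        · rwa [← wt_in h4, e2]
      · exact ⟨0, fun m h1 h2 => absurd ⟨m, h1, h2⟩ h⟩
    have e := hx j hj
    rw [MvPolynomial.eval_eq] at e
    rw [hK, RingHom.mem_ker, (f j).as_sum, map_sum, sum_congr rfl (g := fun m =>
      (coeff m (f j) * ∏ i ∈ m.support, x i ^ m i) • AddMonoidAlgebra.single g0 (1 : ℂ)), ← sum_smul, e,
      zero_smul]
    intro m hm
    by_cases h : In (U ∪ I) m
    · have h' := H j hj hs m hm h
      rw [phi_in h, hg0 m hm h', AddMonoidAlgebra.smul_single, smul_eq_mul, mul_one]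
      congr 2
      exact prod_congr rfl fun i hi => by
        simp only [val, if_pos (h' i (Finsupp.mem_support_iff.1 hi))]
    · rw [phi_out h]
      simp only [In, not_forall] at h
      obtain ⟨i, h1, h2⟩ := h
      have : x i = 0 := by_contra fun h3 => h2 (mem_union_right _ ((hI i).1 h3))
      rw [prod_eq_zero (Finsupp.mem_support_iff.2 h1) (by rw [this, zero_pow h1]), mul_zero, zero_smul]
  have k2 : ∀ i, i ∉ U ∪ I → (X i : MvPolynomial σ ℂ) ∈ K := fun i hi => by
    rw [hK, RingHom.mem_ker, phi, aeval_X, if_neg hi]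
  have homK : Hom w K := hom_ker (fun g => g.1) fun _ => rfl
  have homT : Hom w ⊤ := fun _ _ _ => trivial
  obtain ⟨K0, hK0⟩ := Hs_poly hw univ X w (fun i _ => isWeightedHomogeneous_X ℂ w i) K ⊤ homK homT le_top
    fun y _ h => funext fun i => by simpa using h i (mem_univ _)
  obtain ⟨N, hN⟩ := exists_num w hw T d _ K0 hK0 fun q hq => by
    obtain ⟨Q, hQ⟩ := Hs_poly hw ((univ.filter fun i => ¬ q ∣ w i).disjSum (T.filter fun k => q ∣ d k))
      (Sum.elim X f) (Sum.elim w d) (by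
        rintro (i | j) h
        · exact isWeightedHomogeneous_X ℂ w i
        · exact hS.hom j (mem_filter.1 (mem_filter.1 (inr_mem_disjSum.1 h)).1).1) K ⊤ homK homT le_top
      fun y h1 h2 => by
        by_contra h0
        have h3 : ∀ g ∈ K, eval y g = 0 := fun g hg => h1 g fun p _ => K.mul_mem_right _ hg
        have h4 : ∀ i, y i ≠ 0 → q ∣ w i := fun i hi => by
          by_contra h
          exact hi (by simpa using h2 (Sum.inl i) (by simpa using h))
        obtain ⟨p, hp, h5⟩ := Nat.exists_prime_and_dvd (show q ≠ 1 by omega)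
        obtain ⟨i, h6, h7⟩ := hS.free y h0 (fun i hi => by
            by_contra h
            exact hi (by
              simpa using h3 _ (k2 i fun h' => h ((mem_union.1 h').elim (@hUA i) (@hIA i)))))
          (fun j hj => by
            by_cases hs : (d j : ℝ) < s
            · exact h3 _ (k1 j hj hs)
            · by_contra h
              exact h (h2 (Sum.inr j) (inr_mem_disjSum.2 (mem_filter.2
                ⟨mem_filter.2 ⟨hj, not_lt.1 hs⟩, dvd_of_eval (hS.hom j hj) h h4⟩)))) p hp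
        exact h7 (h5.trans (h4 i h6))
    refine ⟨Q, ?_⟩
    rw [prod_disjSum] at hQ
    exact hQ
  have e := Im_prod (π := π) hw U hU (fun u g => g.2.2 u) fun u hu m =>
    if_neg (disjoint_left.1 hU hu)
  rw [hK, Hs_ker hw hv] at hN
  refine prod_le_of_num U w T d (fun k _ => hd k) (Fintype.card σ) N (fun t => (Im hw π I t).card)
    (by rw [← e, ← hN]; ring) ρ P W c c0 P0 (fun t => ?_) fun ν => ?_
  · have ex : ∀ g, ∃ m, g ∈ Im hw π I t → (Finsupp.weight w m = t ∧ In I m) ∧ π m = g := fun g => by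
      by_cases h : g ∈ Im hw π I t
      · obtain ⟨m, hm⟩ := (mem_Im hw).1 h
        exact ⟨m, fun _ => hm⟩
      · exact ⟨0, fun h' => absurd h' h⟩
    choose m hm using ex
    have inj : ∀ g ∈ Im hw π I t, ∀ g' ∈ Im hw π I t,
        (cv fun i : ↥I => m g i) - (cv fun i : ↥I => m g' i) ∈ L → g = g' := fun g hg g' hg' e => by
      rw [← (hm g hg).2, ← (hm g' hg').2]
      exact (cls_eq (hm g hg).1.2 (hm g' hg').1.2 ((hm g hg).1.1.trans (hm g' hg').1.1.symm)).2 e
    have := l2 t ((Im hw π I t).image fun g (i : ↥I) => m g i) (by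
        simp only [mem_image]
        rintro _ ⟨g, hg, rfl⟩
        rw [← wt_in (hm g hg).1.2, (hm g hg).1.1]) (by
        simp only [mem_image]
        rintro _ ⟨g, hg, rfl⟩ _ ⟨g', hg', rfl⟩ e
        rw [inj g hg g' hg' e])
    rwa [card_image_of_injOn fun g hg g' hg' e => inj g hg g' hg' (by
      rw [e, sub_self]; exact L.zero_mem)] at this
  · obtain ⟨B, b1, b2, b3⟩ := l3 ν
    let ext : (↥I → ℕ) → σ →₀ ℕ := fun v =>
      Finsupp.equivFunOnFinite.symm fun i => if h : i ∈ I then v ⟨i, h⟩ else 0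
    have x1 : ∀ v, In I (ext v) := fun v i hi => by
      by_contra h
      exact hi (by simp [ext, h])
    have x2 : ∀ v, (fun i : ↥I => ext v i) = v := fun v => funext fun i => by simp [ext]
    have x3 : ∀ v ∈ B, Finsupp.weight w (ext v) = ν * P := fun v hv => by
      rw [wt_in (x1 v), ← b1 v hv]
      exact sum_congr rfl fun i _ => by rw [congrFun (x2 v) i]
    refine b3.trans (card_le_card_of_injOn (fun v => π (ext v))
      (fun v hv => mem_coe.2 ((mem_Im hw).2 ⟨_, ⟨x3 v hv, x1 v⟩, rfl⟩)) fun v hv v' hv' e => ?_)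
    have := (cls_eq (x1 v) (x1 v') ((x3 v hv).trans (x3 v' hv').symm)).1 e
    rw [x2, x2] at this
    exact b2 v hv v' hv' this

end Pool.Agent.Lib.MP_9ff3e7_ag.G
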