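import Pool.Agent.Lib.MP_9ff3e7_ag.GHil

namespace Pool.Agent.Lib.MP_9ff3e7_ag.G

open Finset MvPolynomial

set_option linter.unusedSectionVars false

variable {σ Γ : Type} [Fintype σ] [DecidableEq σ] [AddCancelCommMonoid Γ] {w : σ → ℕ}

/-- The monomial map to a monoid algebra. -/
noncomputable def phi (π : (σ →₀ ℕ) →+ Γ) (B : Finset σ) (val : σ → ℂ) :
    MvPolynomial σ ℂ →ₐ[ℂ] AddMonoidAlgebra ℂ Γ :=
  aeval fun i => if i ∈ B then .single (π (Finsupp.single i 1)) (val i) else 0

/-- Exponent vectors supported on `B`. -/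
def In (B : Finset σ) (m : σ →₀ ℕ) : Prop := ∀ i, m i ≠ 0 → i ∈ B

variable {π : (σ →₀ ℕ) →+ Γ} {B : Finset σ} {val : σ → ℂ}

lemma prod_single (m : σ →₀ ℕ) :
    (m.prod fun i k => (AddMonoidAlgebra.single (π (Finsupp.single i 1)) (val i)) ^ k) =
      AddMonoidAlgebra.single (π m) (m.prod fun i k => val i ^ k) := by
  induction m using Finsupp.induction_linear with
  | zero => simp [AddMonoidAlgebra.one_def]
  | add m m' h1 h2 =>
    rw [Finsupp.prod_add_index' (by simp) (fun _ _ _ => pow_add _ _ _),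
      Finsupp.prod_add_index' (by simp) (fun _ _ _ => pow_add _ _ _), h1, h2,
      AddMonoidAlgebra.single_mul_single, map_add]
  | single i k =>
    rw [Finsupp.prod_single_index (by simp), Finsupp.prod_single_index (by simp),
      AddMonoidAlgebra.single_pow, ← map_nsmul]
    simp

lemma phi_in {m : σ →₀ ℕ} (hm : In B m) (c : ℂ) : phi π B val (monomial m c) =
    .single (π m) (c * m.prod fun i k => val i ^ k) := by
  rw [phi, aeval_monomial, Finsupp.prod_congr (g2 := fun i k =>
    (AddMonoidAlgebra.single (π (Finsupp.single i 1)) (val i)) ^ k) fun i hi => by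
      rw [if_pos (hm i (Finsupp.mem_support_iff.1 hi))], prod_single, ← Algebra.smul_def,
    AddMonoidAlgebra.smul_single, smul_eq_mul]

lemma phi_out {m : σ →₀ ℕ} (hm : ¬ In B m) (c : ℂ) : phi π B val (monomial m c) = 0 := by
  simp only [In, not_forall] at hm
  obtain ⟨i, h1, h2⟩ := hm
  rw [phi, aeval_monomial, Finsupp.prod, prod_eq_zero (Finsupp.mem_support_iff.2 h1), mul_zero]
  rw [if_neg h2, zero_pow h1]

lemma hom_ker (δ : Γ → ℕ) (hδ : ∀ m, δ (π m) = Finsupp.weight w m) :
    Hom w (RingHom.ker (phi π B val)) := by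
  intro p hp t
  let pr : AddMonoidAlgebra ℂ Γ →ₗ[ℂ] AddMonoidAlgebra ℂ Γ :=
    (AddMonoidAlgebra.basis Γ ℂ).constr ℂ fun g => if t = δ g then .single g 1 else 0
  have hpr : ∀ g c, pr (.single g c) = if t = δ g then .single g c else 0 := fun g c => by
    have : AddMonoidAlgebra.single g c = c • AddMonoidAlgebra.basis Γ ℂ g := by
      simp [AddMonoidAlgebra.basis_apply]
    rw [this, map_smul, Module.Basis.constr_basis, ← this]
    split_ifs <;> simp
  have : ∀ p, phi π B val (weightedHomogeneousComponent w t p) = pr (phi π B val p) := by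
    intro p
    induction p using MvPolynomial.induction_on' with
    | add p q h1 h2 => simp only [map_add, h1, h2]
    | monomial m c =>
      rw [weightedHomogeneousComponent_of_mem (isWeightedHomogeneous_monomial w m c rfl)]
      by_cases hm : In B m
      · rw [phi_in hm, hpr, hδ]
        split_ifs
        · exact phi_in hm c
        · simp
      · rw [phi_out hm]
        split_ifs
        · rw [phi_out hm, map_zero]
        · simp
  rw [RingHom.mem_ker] at hp ⊢
  rw [this, hp, map_zero]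

open Classical in
/-- Classes of monomials of degree `t` supported on `B`. -/
noncomputable def Im (hw : ∀ i, 0 < w i) (π : (σ →₀ ℕ) →+ Γ) (B : Finset σ) (t : ℕ) : Finset Γ :=
  ((Finsupp.finite_of_nat_weight_eq w (fun i => (hw i).ne') t).toFinset.filter (In B)).image π

lemma mem_Im (hw : ∀ i, 0 < w i) {t : ℕ} {g : Γ} :
    g ∈ Im hw π B t ↔ ∃ m, (Finsupp.weight w m = t ∧ In B m) ∧ π m = g := by
  simp [Im]

lemma Hs_ker (hw : ∀ i, 0 < w i) (hv : ∀ i, val i ≠ 0) :
    Hs w (RingHom.ker (phi π B val)) ⊤ = PowerSeries.mk fun t => ((Im hw π B t).card : ℤ) := by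
  ext t
  simp only [Hs, PowerSeries.coeff_mk]
  have := pc_fin hw ⊤ t
  have h1 := LinearMap.finrank_range_add_finrank_ker ((phi π B val).toLinearMap.domRestrict (pc w ⊤ t))
  have h2 : LinearMap.ker ((phi π B val).toLinearMap.domRestrict (pc w ⊤ t)) =
      (pc w (RingHom.ker (phi π B val)) t).comap (pc w ⊤ t).subtype := by
    ext p
    simp only [LinearMap.mem_ker, LinearMap.domRestrict_apply, AlgHom.toLinearMap_apply,
      Submodule.mem_comap, Submodule.subtype_apply, mem_pc, RingHom.mem_ker]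
    exact ⟨fun h => ⟨h, p.2.2⟩, fun h => h.1⟩
  have h3 : LinearMap.range ((phi π B val).toLinearMap.domRestrict (pc w ⊤ t)) =
      Submodule.span ℂ (Set.range fun g : ↥(Im hw π B t) => AddMonoidAlgebra.basis Γ ℂ g) := by
    have nz : ∀ m : σ →₀ ℕ, (m.prod fun i k => val i ^ k) ≠ 0 := fun m =>
      prod_ne_zero_iff.2 fun i _ => pow_ne_zero _ (hv i)
    refine le_antisymm ?_ (Submodule.span_le.2 ?_)
    · rintro _ ⟨⟨p, hp⟩, rfl⟩
      simp only [LinearMap.domRestrict_apply, AlgHom.toLinearMap_apply]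
      rw [p.as_sum, map_sum]
      refine Submodule.sum_mem _ fun m hm => ?_
      by_cases h : In B m
      · rw [phi_in h, ← mul_one (_ * _), ← smul_eq_mul, ← AddMonoidAlgebra.smul_single]
        exact Submodule.smul_mem _ _ (Submodule.subset_span
          ⟨⟨π m, (mem_Im hw).2 ⟨m, ⟨hp.2 (mem_support_iff.1 hm), h⟩, rfl⟩⟩, by
            simp [AddMonoidAlgebra.basis_apply]⟩)
      · rw [phi_out h]; exact Submodule.zero_mem _
    · rintro _ ⟨⟨g, hg⟩, rfl⟩
      obtain ⟨m, ⟨e1, e2⟩, rfl⟩ := (mem_Im hw).1 hg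
      refine ⟨⟨monomial m (m.prod fun i k => val i ^ k)⁻¹, trivial,
        isWeightedHomogeneous_monomial w m _ e1⟩, ?_⟩
      simp only [LinearMap.domRestrict_apply, AlgHom.toLinearMap_apply, phi_in e2,
        inv_mul_cancel₀ (nz m), AddMonoidAlgebra.basis_apply]
  have li : LinearIndependent ℂ fun g : ↥(Im hw π B t) => AddMonoidAlgebra.basis Γ ℂ g :=
    (AddMonoidAlgebra.basis Γ ℂ).linearIndependent.comp _ Subtype.val_injective
  have le : pc w (RingHom.ker (phi π B val)) t ≤ pc w ⊤ t := fun p hp => ⟨trivial, hp.2⟩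
  rw [h2, h3, finrank_span_eq_card li, (Submodule.comapSubtypeEquivOfLe le).finrank_eq,
    Fintype.card_coe] at h1
  omega

lemma Im_step (hw : ∀ i, 0 < w i) {u : σ} (hu : u ∉ B) (χ : Γ → ℕ) (hχ : ∀ m, χ (π m) = m u) :
    (1 - PowerSeries.X ^ w u) * PowerSeries.mk (fun t => ((Im hw π (insert u B) t).card : ℤ)) =
      PowerSeries.mk fun t => ((Im hw π B t).card : ℤ) := by
  classical
  ext t
  simp only [sub_mul, one_mul, map_sub, PowerSeries.coeff_X_pow_mul', PowerSeries.coeff_mk]
  have e1 : (Im hw π (insert u B) t).filter (fun g => χ g = 0) = Im hw π B t := by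
    ext g
    simp only [mem_filter, mem_Im]
    constructor
    · rintro ⟨⟨m, ⟨h1, h2⟩, rfl⟩, h3⟩
      refine ⟨m, ⟨h1, fun i hi => (mem_insert.1 (h2 i hi)).resolve_left ?_⟩, rfl⟩
      rintro rfl
      exact hi (hχ m ▸ h3)
    · rintro ⟨m, ⟨h1, h2⟩, rfl⟩
      refine ⟨⟨m, ⟨h1, fun i hi => mem_insert_of_mem (h2 i hi)⟩, rfl⟩, ?_⟩
      rw [hχ]
      by_contra h
      exact hu (h2 u h)
  have ws : Finsupp.weight w (Finsupp.single u 1) = w u := by simp [Finsupp.weight_single]
  have e2 : (Im hw π (insert u B) t).filter (fun g => ¬ χ g = 0) =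
      if w u ≤ t then (Im hw π (insert u B) (t - w u)).image (· + π (Finsupp.single u 1)) else ∅ := by
    ext g
    simp only [mem_filter, mem_Im]
    constructor
    · rintro ⟨⟨m, ⟨h1, h2⟩, rfl⟩, h3⟩
      rw [hχ] at h3
      have e := tsub_add_cancel_of_le (Finsupp.single_le_iff.2 (Nat.one_le_iff_ne_zero.2 h3))
      have e' := congrArg (Finsupp.weight w) e
      rw [map_add, ws, h1] at e'
      rw [if_pos (by omega)]
      refine mem_image.2 ⟨π (m - Finsupp.single u 1), (mem_Im hw).2 ⟨_, ⟨by omega, fun i hi => h2 i ?_⟩,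
        rfl⟩, by rw [← map_add, e]⟩
      intro h
      exact hi (by simp [h])
    · intro h
      split_ifs at h with h0
      · obtain ⟨_, hg, rfl⟩ := mem_image.1 h
        obtain ⟨m, ⟨h1, h2⟩, rfl⟩ := (mem_Im hw).1 hg
        rw [← map_add]
        refine ⟨⟨_, ⟨by rw [map_add, ws]; omega, fun i hi => ?_⟩, rfl⟩, by rw [hχ]; simp⟩
        by_cases e : i = u
        · simp [e]
        · exact h2 i (by simpa [Finsupp.single_eq_of_ne e] using hi)
      · simp at h
  have e3 := card_filter_add_card_filter_not (s := Im hw π (insert u B) t) (fun g => χ g = 0)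
  rw [e1, e2] at e3
  split_ifs at e3 ⊢
  · rw [card_image_of_injective _ (add_left_injective _)] at e3
    omega
  · simp at e3; omega

lemma Im_prod (hw : ∀ i, 0 < w i) (U : Finset σ) (hU : Disjoint U B) (χ : σ → Γ → ℕ)
    (hχ : ∀ u ∈ U, ∀ m, χ u (π m) = m u) :
    (∏ u ∈ U, (1 - PowerSeries.X ^ w u)) * PowerSeries.mk (fun t => ((Im hw π (U ∪ B) t).card : ℤ)) =
      PowerSeries.mk fun t => ((Im hw π B t).card : ℤ) := by
  induction U using Finset.induction_on with
  | empty => simp
  | insert u U hu ih =>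
    rw [disjoint_insert_left] at hU
    rw [prod_insert hu, insert_union, mul_comm (1 - _), mul_assoc,
      Im_step hw (by simp [hu, hU.1]) (χ u) (hχ u (mem_insert_self _ _))]
    exact ih hU.2 fun u hu => hχ u (mem_insert_of_mem hu)

end Pool.Agent.Lib.MP_9ff3e7_ag.G
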