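import Mathlib

namespace Pool.Agent.Lib.MP_9ff3e7_ag.G

open Finset

variable {E : Type} [AddCommGroup E] [Module ℝ E]

/-- A convex cone given as a predicate. -/
structure Cone (Q : E → Prop) : Prop where
  add : ∀ p q, Q p → Q q → Q (p + q)
  smul : ∀ (t : ℝ) p, 0 ≤ t → Q p → Q (t • p)

/-- Staircases: iterated chords of prescribed lengths along the vectors `b`. -/
def Tr (Q : E → Prop) (b : ℕ → E) : ℕ → (ℕ → ℝ) → E → Prop
  | 0, _, p => Q p
  | l + 1, x, p => ∃ c : ℝ, Tr Q b l x (p + c • b l) ∧ Tr Q b l x (p + (c + x l) • b l)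

/-- The flag spanned by the vectors `b`. -/
def V (b : ℕ → E) : ℕ → Submodule ℝ E
  | 0 => ⊥
  | l + 1 => V b l ⊔ Submodule.span ℝ {b l}

variable {Q : E → Prop} {b : ℕ → E}

lemma mem_V_succ {l : ℕ} {v : E} : v ∈ V b (l + 1) ↔ ∃ w ∈ V b l, ∃ c : ℝ, v = w + c • b l := by
  simp only [V, Submodule.mem_sup, Submodule.mem_span_singleton]
  constructor
  · rintro ⟨w, hw, _, ⟨c, rfl⟩, rfl⟩
    exact ⟨w, hw, c, rfl⟩
  · rintro ⟨w, hw, c, rfl⟩
    exact ⟨w, hw, _, ⟨c, rfl⟩, rfl⟩

lemma V_mono {l l' : ℕ} (h : l ≤ l') : V b l ≤ V b l' := by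
  induction h with
  | refl => exact le_rfl
  | step _ ih => exact ih.trans le_sup_left

lemma b_mem_V {i l : ℕ} (h : i < l) : b i ∈ V b l :=
  V_mono h (mem_V_succ.2 ⟨0, Submodule.zero_mem _, 1, by simp⟩)

lemma V_congr {b' : ℕ → E} {l : ℕ} (h : ∀ i < l, b i = b' i) : V b l = V b' l := by
  induction l with
  | zero => rfl
  | succ l ih =>
    simp only [V]
    rw [ih fun i hi => h i (by omega), h l (by omega)]

lemma mem_V_iff {l : ℕ} {v : E} : v ∈ V b l ↔ ∃ c : ℕ → ℝ, v = ∑ i ∈ range l, c i • b i := by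
  constructor
  · induction l generalizing v with
    | zero => intro h; exact ⟨0, by simpa [V] using h⟩
    | succ l ih =>
      intro h
      obtain ⟨w, hw, c, rfl⟩ := mem_V_succ.1 h
      obtain ⟨e, rfl⟩ := ih hw
      refine ⟨Function.update e l c, ?_⟩
      rw [sum_range_succ, Function.update_self]
      congr 1
      exact sum_congr rfl fun i hi => by
        rw [Function.update_of_ne (by have := mem_range.1 hi; omega)]
  · rintro ⟨c, rfl⟩
    exact Submodule.sum_mem _ fun i hi => Submodule.smul_mem _ _ (b_mem_V (mem_range.1 hi))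

lemma Tr.add (hQ : Cone Q) {l : ℕ} : ∀ {x y : ℕ → ℝ} {p q : E},
    Tr Q b l x p → Tr Q b l y q → Tr Q b l (x + y) (p + q) := by
  induction l with
  | zero => intro x y p q h1 h2; exact hQ.add _ _ h1 h2
  | succ l ih =>
    rintro x y p q ⟨c, h1, h2⟩ ⟨e, h3, h4⟩
    refine ⟨c + e, ?_, ?_⟩
    · convert ih h1 h3 using 1
      rw [add_smul]; abel
    · convert ih h2 h4 using 1
      simp only [Pi.add_apply, add_smul]; abel

lemma Tr.smul (hQ : Cone Q) {l : ℕ} {t : ℝ} (ht : 0 ≤ t) : ∀ {x : ℕ → ℝ} {p : E},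
    Tr Q b l x p → Tr Q b l (t • x) (t • p) := by
  induction l with
  | zero => intro x p h; exact hQ.smul _ _ ht h
  | succ l ih =>
    rintro x p ⟨c, h1, h2⟩
    refine ⟨t * c, ?_, ?_⟩
    · convert ih h1 using 1
      rw [smul_add, smul_smul]
    · convert ih h2 using 1
      simp only [Pi.smul_apply, smul_eq_mul, smul_add, smul_smul, mul_add]

lemma Tr.congr {l : ℕ} : ∀ {x y : ℕ → ℝ} {p : E}, (∀ i < l, x i = y i) →
    Tr Q b l x p → Tr Q b l y p := by
  induction l with
  | zero => intro x y p _ h; exact h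
  | succ l ih =>
    rintro x y p h ⟨c, h1, h2⟩
    have h' : ∀ i < l, x i = y i := fun i hi => h i (by omega)
    exact ⟨c, ih h' h1, by rw [← h l (by omega)]; exact ih h' h2⟩

lemma Tr.shift {l : ℕ} : ∀ {x : ℕ → ℝ} {p w : E}, w ∈ V b l → Tr Q b l x p → Tr Q b l x (p + w) := by
  induction l with
  | zero => intro x p w hw h; rw [show w = 0 by simpa [V] using hw, add_zero]; exact h
  | succ l ih =>
    rintro x p w hw ⟨c, h1, h2⟩
    obtain ⟨w', hw', e, rfl⟩ := mem_V_succ.1 hw
    refine ⟨c - e, ?_, ?_⟩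
    · convert ih hw' h1 using 1
      rw [sub_smul]; abel
    · convert ih hw' h2 using 1
      simp only [add_smul, sub_smul]; abel

lemma Tr.between (hQ : Cone Q) {l : ℕ} {x : ℕ → ℝ} {p v : E} {c c' e : ℝ}
    (h1 : Tr Q b l x (p + c • v)) (h2 : Tr Q b l x (p + c' • v)) (h3 : c ≤ e) (h4 : e ≤ c') :
    Tr Q b l x (p + e • v) := by
  rcases (h3.trans h4).eq_or_lt with h | h
  · rw [show e = c by linarith]; exact h1
  have hd : 0 < c' - c := by linarith
  have := Tr.add hQ (Tr.smul hQ (div_nonneg (by linarith : 0 ≤ c' - e) hd.le) h1)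
    (Tr.smul hQ (div_nonneg (by linarith : 0 ≤ e - c) hd.le) h2)
  have e1 : (c' - e) / (c' - c) + (e - c) / (c' - c) = 1 := by field_simp; ring
  have e2 : (c' - e) / (c' - c) * c + (e - c) / (c' - c) * c' = e := by field_simp; ring
  convert this using 1
  · rw [← add_smul, e1, one_smul]
  · rw [smul_add, smul_add, smul_smul, smul_smul, add_add_add_comm, ← add_smul, ← add_smul, e1, e2,
      one_smul]

lemma Tr.down (hQ : Cone Q) {l : ℕ} : ∀ {x y : ℕ → ℝ} {p : E}, (∀ i < l, 0 ≤ y i ∧ y i ≤ x i) →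
    Tr Q b l x p → Tr Q b l y p := by
  induction l with
  | zero => intro x y p _ h; exact h
  | succ l ih =>
    rintro x y p h ⟨c, h1, h2⟩
    have h' : ∀ i < l, 0 ≤ y i ∧ y i ≤ x i := fun i hi => h i (by omega)
    have := h l (by omega)
    exact ⟨c, ih h' h1, ih h' (Tr.between hQ h1 h2 (by linarith) (by linarith))⟩

lemma Tr.up {l l' : ℕ} (hl : l ≤ l') {x : ℕ → ℝ} {p : E} (hx : ∀ i, l ≤ i → i < l' → x i = 0)
    (h : Tr Q b l x p) : Tr Q b l' x p := by
  induction hl with
  | refl => exact h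
  | @step n hn ih =>
    have := ih fun i h1 h2 => hx i h1 (by omega)
    exact ⟨0, by simpa using this, by simpa [hx n hn (by omega)] using this⟩

lemma Tr.descend {l l' : ℕ} (hl : l ≤ l') {x : ℕ → ℝ} : ∀ {p : E}, Tr Q b l' x p →
    ∃ w ∈ V b l', Tr Q b l x (p + w) := by
  induction hl with
  | refl => intro p h; exact ⟨0, Submodule.zero_mem _, by simpa using h⟩
  | @step n hn ih =>
    rintro p ⟨c, h1, _⟩
    obtain ⟨w, hw, h⟩ := ih h1
    exact ⟨w + c • b n, mem_V_succ.2 ⟨w, hw, c, rfl⟩, by convert h using 1; abel⟩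

lemma Tr_zero_iff {l : ℕ} {p : E} : Tr Q b l 0 p ↔ ∃ w ∈ V b l, Q (p + w) := by
  constructor
  · exact fun h => Tr.descend (Nat.zero_le l) h
  · rintro ⟨w, hw, h⟩
    have h1 : Tr Q b l 0 (p + w) := Tr.up (Nat.zero_le l) (fun _ _ _ => rfl) h
    simpa using h1.shift (Submodule.neg_mem _ hw)

open Classical in
/-- Compression: a family of lattice points gives as many integral staircases. -/
lemma compress (hQ : Cone Q) {ι : Type} (k : ℕ) (n : ℕ) : ∀ (p : E) (A : Finset ι) (c : ι → ℕ → ℤ),
    (∀ i ∈ A, ∀ j ∈ A, (∀ l ∈ Ico k (k + n), c i l = c j l) → i = j) →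
    (∀ i ∈ A, Tr Q b k 0 (p + ∑ l ∈ Ico k (k + n), (c i l : ℝ) • b l)) →
    ∃ m : ι → ℕ → ℕ, (∀ i ∈ A, ∀ j ∈ A, m i = m j → i = j) ∧ (∀ i l, l ∉ Ico k (k + n) → m i l = 0) ∧
      ∀ i ∈ A, Tr Q b (k + n) (fun l => (m i l : ℝ)) p := by
  induction n with
  | zero =>
    intro p A c h1 h2
    refine ⟨0, fun i hi j hj _ => h1 i hi j hj (by simp), fun _ _ _ => rfl, fun i hi => ?_⟩
    have := h2 i hi
    simp only [add_zero, Ico_self, sum_empty] at this
    exact this.congr (by simp)
  | succ n ih =>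
    intro p A c h1 h2
    have key : ∀ γ : ℤ, ∃ m : ι → ℕ → ℕ,
        (∀ i ∈ A.filter (fun i => c i (k + n) = γ), ∀ j ∈ A.filter (fun i => c i (k + n) = γ),
          m i = m j → i = j) ∧ (∀ i l, l ∉ Ico k (k + n) → m i l = 0) ∧
        ∀ i ∈ A.filter (fun i => c i (k + n) = γ),
          Tr Q b (k + n) (fun l => (m i l : ℝ)) (p + (γ : ℝ) • b (k + n)) := by
      intro γ
      refine ih _ _ c ?_ ?_
      · intro i hi j hj h
        have hi' := mem_filter.1 hi
        have hj' := mem_filter.1 hj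
        refine h1 i hi'.1 j hj'.1 fun l hl => ?_
        by_cases e : l = k + n
        · rw [e, hi'.2, hj'.2]
        · exact h l (by simp only [mem_Ico] at hl ⊢; omega)
      · intro i hi
        have hi' := mem_filter.1 hi
        have := h2 i hi'.1
        rw [← add_assoc, sum_Ico_succ_top (by omega), hi'.2] at this
        convert this using 1
        abel
    choose M hM1 hM2 hM3 using key
    let g : ι → ℤ := fun i => c i (k + n)
    let ms : ι → ℕ → ℕ := fun i => M (g i) i
    let Γ : ι → Finset ℤ := fun i => ((A.filter fun j => ms j = ms i).image g).filter (· < g i)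
    have hms : ∀ i, ms i (k + n) = 0 := fun i => hM2 _ _ _ (by simp)
    refine ⟨fun i => Function.update (ms i) (k + n) (Γ i).card, ?_, ?_, ?_⟩
    · intro i hi j hj h
      have e1 : ms i = ms j := by
        funext l
        by_cases e : l = k + n
        · rw [e, hms, hms]
        · have := congrFun h l
          simpa [Function.update_of_ne e] using this
      have e2 : (Γ i).card = (Γ j).card := by simpa using congrFun h (k + n)
      have lt : ∀ i ∈ A, ∀ j ∈ A, ms i = ms j → g i < g j → (Γ i).card < (Γ j).card := by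
        intro i hi j hj e1 hlt
        refine card_lt_card ⟨fun γ hγ => ?_, fun hs => ?_⟩
        · simp only [Γ, mem_filter, e1] at hγ ⊢
          exact ⟨hγ.1, hγ.2.trans hlt⟩
        · have : g i ∈ Γ j := by
            simp only [Γ, mem_filter, mem_image]
            exact ⟨⟨i, ⟨hi, e1⟩, rfl⟩, hlt⟩
          have := hs this
          simp [Γ] at this
      have e3 : g i = g j := by
        rcases lt_trichotomy (g i) (g j) with h | h | h
        · exact absurd (lt i hi j hj e1 h) (by omega)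
        · exact h
        · exact absurd (lt j hj i hi e1.symm h) (by omega)
      refine hM1 (g i) i (mem_filter.2 ⟨hi, rfl⟩) j (mem_filter.2 ⟨hj, e3.symm⟩) ?_
      simpa only [ms, e3] using e1
    · intro i l hl
      simp only [mem_Ico] at hl
      beta_reduce
      rw [Function.update_of_ne (show l ≠ k + n by omega)]
      exact hM2 _ _ _ (by simp only [mem_Ico]; omega)
    · intro i hi
      have hT : ∀ j ∈ A, ms j = ms i → Tr Q b (k + n)
          (fun l => (Function.update (ms i) (k + n) (Γ i).card l : ℝ)) (p + (g j : ℝ) • b (k + n)) := by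
        intro j hj e
        refine (hM3 (g j) j (mem_filter.2 ⟨hj, rfl⟩)).congr fun l hl => ?_
        rw [Function.update_of_ne (by omega), ← e]
      refine ⟨(g i : ℝ) - (Γ i).card, ?_, ?_⟩
      · rcases (Γ i).eq_empty_or_nonempty with h | h
        · simpa [h] using hT i hi rfl
        · have h3 := min'_mem _ h
          obtain ⟨h4, h5⟩ := mem_filter.1 h3
          obtain ⟨j, hj, h6⟩ := mem_image.1 h4
          have hj' := mem_filter.1 hj
          have h7 : Γ i ⊆ Ico (g j) (g i) := fun γ hγ =>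
            mem_Ico.2 ⟨h6 ▸ min'_le _ _ hγ, (mem_filter.1 hγ).2⟩
          have h8 := card_le_card h7
          rw [Int.card_Ico] at h8
          have h9 : ((Γ i).card : ℤ) ≤ g i - g j := by omega
          have h10 : (((Γ i).card : ℤ) : ℝ) ≤ ((g i - g j : ℤ) : ℝ) := by exact_mod_cast h9
          push_cast at h10
          exact Tr.between hQ (hT j hj'.1 hj'.2) (hT i hi rfl) (by linarith) (by
            have : (0 : ℝ) ≤ (Γ i).card := Nat.cast_nonneg _
            linarith)
      · simpa using hT i hi rfl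

open Classical in
/-- Decompression: a family of integral staircases gives as many lattice points. -/
lemma decompress (hQ : Cone Q) {ι : Type} (k : ℕ) (n : ℕ) : ∀ (p : E) (A : Finset ι) (m : ι → ℕ → ℕ),
    (∀ i ∈ A, ∀ j ∈ A, (∀ l ∈ Ico k (k + n), m i l = m j l) → i = j) →
    (∀ i ∈ A, Tr Q b (k + n) (fun l => if k ≤ l then (m i l : ℝ) + 1 else 0) p) →
    ∃ c : ι → ℕ → ℤ, (∀ i ∈ A, ∀ j ∈ A, (∀ l ∈ Ico k (k + n), c i l = c j l) → i = j) ∧
      ∀ i ∈ A, Tr Q b k 0 (p + ∑ l ∈ Ico k (k + n), (c i l : ℝ) • b l) := by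
  induction n with
  | zero =>
    intro p A m h1 h2
    refine ⟨0, fun i hi j hj _ => h1 i hi j hj (by simp), fun i hi => ?_⟩
    simp only [add_zero, Ico_self, sum_empty]
    exact (h2 i hi).congr fun l hl => by simp; omega
  | succ n ih =>
    intro p A m h1 h2
    let R : ι → ι → Prop := fun i j => ∀ l ∈ Ico k (k + n), m i l = m j l
    have top : ∀ i, ∃ j, i ∈ A → (j ∈ A ∧ R j i) ∧ ∀ j' ∈ A, R j' i → m j' (k + n) ≤ m j (k + n) := by
      intro i
      by_cases hi : i ∈ A
      · obtain ⟨j, hj, h⟩ := exists_max_image (A.filter fun j => R j i) (fun j => m j (k + n))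
          ⟨i, mem_filter.2 ⟨hi, fun _ _ => rfl⟩⟩
        exact ⟨j, fun _ => ⟨mem_filter.1 hj, fun j' h1 h2 => h j' (mem_filter.2 ⟨h1, h2⟩)⟩⟩
      · exact ⟨i, fun h => absurd h hi⟩
    have ex : ∀ s : ℕ → ℕ, ∃ c0 : ℝ, ∀ i ∈ A, (∀ l ∈ Ico k (k + n), m i l = s l) →
        Tr Q b (k + n) (fun l => if k ≤ l then (m i l : ℝ) + 1 else 0)
          (p + ((⌈c0⌉ + m i (k + n) : ℤ) : ℝ) • b (k + n)) := by
      intro s
      by_cases h : ∃ i ∈ A, ∀ l ∈ Ico k (k + n), m i l = s l
      · obtain ⟨i, hi, hs⟩ := h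
        obtain ⟨j, hj⟩ := top i
        obtain ⟨⟨hjA, hR⟩, hmax⟩ := hj hi
        obtain ⟨c0, h3, h4⟩ := h2 j hjA
        refine ⟨c0, fun i' hi' hs' => ?_⟩
        have hR' : R i' i := fun l hl => (hs' l hl).trans (hs l hl).symm
        have h5 : (m i' (k + n) : ℝ) ≤ m j (k + n) := by exact_mod_cast hmax i' hi' hR'
        have h6 := Int.le_ceil c0
        have h7 := Int.ceil_lt_add_one c0
        have h8 : (0 : ℝ) ≤ m i' (k + n) := Nat.cast_nonneg _
        refine (Tr.between hQ h3 h4 ?_ ?_).congr fun l hl => ?_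
        · push_cast; linarith
        · change _ ≤ c0 + (if k ≤ k + n then (m j (k + n) : ℝ) + 1 else 0)
          rw [if_pos (by omega)]; push_cast; linarith
        · split_ifs with h9
          · rw [hR l (mem_Ico.2 ⟨h9, hl⟩), hR' l (mem_Ico.2 ⟨h9, hl⟩)]
          · rfl
      · exact ⟨0, fun i hi hs => absurd ⟨i, hi, hs⟩ h⟩
    choose c0 hc0 using ex
    let tr : ι → ℕ → ℕ := fun i l => if l ∈ Ico k (k + n) then m i l else 0
    let g : ι → ℤ := fun i => ⌈c0 (tr i)⌉ + m i (k + n)
    have key : ∀ γ : ℤ, ∃ c : ι → ℕ → ℤ,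
        (∀ i ∈ A.filter (fun i => g i = γ), ∀ j ∈ A.filter (fun i => g i = γ),
          (∀ l ∈ Ico k (k + n), c i l = c j l) → i = j) ∧
        ∀ i ∈ A.filter (fun i => g i = γ),
          Tr Q b k 0 (p + (γ : ℝ) • b (k + n) + ∑ l ∈ Ico k (k + n), (c i l : ℝ) • b l) := by
      intro γ
      refine ih _ _ m ?_ ?_
      · intro i hi j hj h
        have hi' := mem_filter.1 hi
        have hj' := mem_filter.1 hj
        have e1 : tr i = tr j := by
          funext l
          simp only [tr]
          split_ifs with h9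
          · exact h l h9
          · rfl
        have e2 : g i = g j := hi'.2.trans hj'.2.symm
        simp only [g, e1] at e2
        refine h1 i hi'.1 j hj'.1 fun l hl => ?_
        by_cases e : l = k + n
        · rw [e]; omega
        · exact h l (by simp only [mem_Ico] at hl ⊢; omega)
      · intro i hi
        have hi' := mem_filter.1 hi
        rw [← hi'.2]
        exact hc0 (tr i) i hi'.1 fun l hl => by simp only [tr, if_pos hl]
    choose C hC1 hC2 using key
    refine ⟨fun i => Function.update (C (g i) i) (k + n) (g i), ?_, ?_⟩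
    · intro i hi j hj h
      have e3 : g i = g j := by simpa using h (k + n) (by simp)
      refine hC1 (g i) i (mem_filter.2 ⟨hi, rfl⟩) j (mem_filter.2 ⟨hj, e3.symm⟩) fun l hl => ?_
      have hl' := mem_Ico.1 hl
      have := h l (mem_Ico.2 ⟨hl'.1, by omega⟩)
      beta_reduce at this
      rw [Function.update_of_ne (show l ≠ k + n by omega),
        Function.update_of_ne (show l ≠ k + n by omega), ← e3] at this
      exact this
    · intro i hi
      have := hC2 (g i) i (mem_filter.2 ⟨hi, rfl⟩)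
      beta_reduce
      rw [← add_assoc, sum_Ico_succ_top (by omega), Function.update_self]
      convert this using 1
      rw [sum_congr rfl (g := fun l => (C (g i) i l : ℝ) • b l) fun l hl => by
        rw [Function.update_of_ne (by have := mem_Ico.1 hl; omega)]]
      abel

end Pool.Agent.Lib.MP_9ff3e7_ag.G
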