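import Pool.Agent.Lib.MP_9ff3e7_ag.Plane
import Pool.Agent.Lib.MP_9ff3e7_ag.Coprime

namespace Pool.Agent.Lib.MP_9ff3e7_ag

open Finset

variable {α : Type} [Fintype α]

/-- Twice the degree of a relation. -/
def nrm (a : α → ℕ) (v : α → ℤ) : ℤ := ∑ j, (a j : ℤ) * |v j|

/-- Degree of an integer vector. -/
def dg (a : α → ℕ) (v : α → ℤ) : ℤ := ∑ j, (a j : ℤ) * v j

lemma nrm_nonneg (a : α → ℕ) (v : α → ℤ) : 0 ≤ nrm a v :=
  Finset.sum_nonneg fun _ _ => mul_nonneg (Nat.cast_nonneg _) (abs_nonneg _)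

lemma nrm_smul (a : α → ℕ) (k : ℤ) (v : α → ℤ) : nrm a (k • v) = |k| * nrm a v := by
  unfold nrm
  rw [Finset.mul_sum]
  refine Finset.sum_congr rfl fun j _ => ?_
  simp only [Pi.smul_apply, smul_eq_mul, abs_mul]; ring

lemma nrm_pos (a : α → ℕ) (ha : ∀ i, 0 < a i) {v : α → ℤ} (hv : v ≠ 0) : 0 < nrm a v := by
  obtain ⟨j, hj⟩ := Function.ne_iff.1 hv
  refine Finset.sum_pos' (fun _ _ => mul_nonneg (Nat.cast_nonneg _) (abs_nonneg _))
    ⟨j, Finset.mem_univ _, mul_pos (by exact_mod_cast ha j) (abs_pos.2 hj)⟩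

lemma dg_sub_smul (a : α → ℕ) (z v : α → ℤ) (k : ℤ) : dg a (z - k • v) = dg a z - k * dg a v := by
  unfold dg
  rw [Finset.mul_sum, ← Finset.sum_sub_distrib]
  refine Finset.sum_congr rfl fun j _ => ?_
  simp only [Pi.sub_apply, Pi.smul_apply, smul_eq_mul]; ring

lemma two_le_nrm (a : α → ℕ) (ha : ∀ i, 0 < a i) {v : α → ℤ} (h0 : dg a v = 0) (hv : v ≠ 0) :
    2 ≤ nrm a v := by
  have h1 := nrm_pos a ha hv
  have h2 : nrm a v = 2 * ∑ j, (a j : ℤ) * max (v j) 0 - dg a v := by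
    unfold nrm dg
    rw [Finset.mul_sum, ← Finset.sum_sub_distrib]
    refine Finset.sum_congr rfl fun j _ => ?_
    rcases le_total 0 (v j) with h | h
    · rw [abs_of_nonneg h, max_eq_left h]; ring
    · rw [abs_of_nonpos h, max_eq_right h]; ring
  omega

lemma sum_neg_part (a : α → ℕ) {v : α → ℤ} (h0 : dg a v = 0) :
    2 * ∑ j, (a j : ℤ) * max (-v j) 0 = nrm a v := by
  have h2 : nrm a v = 2 * ∑ j, (a j : ℤ) * max (-v j) 0 + dg a v := by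
    unfold nrm dg
    rw [Finset.mul_sum, ← Finset.sum_add_distrib]
    refine Finset.sum_congr rfl fun j _ => ?_
    rcases le_total 0 (v j) with h | h
    · rw [abs_of_nonneg h, max_eq_right (by linarith)]; ring
    · rw [abs_of_nonpos h, max_eq_left (by linarith)]; ring
  omega

lemma exists_min_nrm (a : α → ℕ) (P : (α → ℤ) → Prop) (h : ∃ v, P v) :
    ∃ v, P v ∧ ∀ z, P z → nrm a v ≤ nrm a z := by
  classical
  have h1 : ∃ n : ℕ, ∃ v, P v ∧ nrm a v = n := by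
    obtain ⟨v, hv⟩ := h
    exact ⟨(nrm a v).toNat, v, hv, (Int.toNat_of_nonneg (nrm_nonneg a v)).symm⟩
  obtain ⟨v, hv, hn⟩ := Nat.find_spec h1
  refine ⟨v, hv, fun z hz => ?_⟩
  have := Nat.find_min' h1 (m := (nrm a z).toNat) ⟨z, hz, (Int.toNat_of_nonneg (nrm_nonneg a z)).symm⟩
  have := nrm_nonneg a z
  omega

lemma primitive_of_min (a : α → ℕ) (ha : ∀ i, 0 < a i) {v : α → ℤ} (h0 : dg a v = 0) (hv : v ≠ 0)
    (hmin : ∀ z, dg a z = 0 ∧ z ≠ 0 → nrm a v ≤ nrm a z) (z : α → ℤ) (hz : dg a z = 0)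
    (p q : ℤ) (hq : q ≠ 0) (h : q • z = p • v) : ∃ k : ℤ, z = k • v := by
  refine ⟨p / q, ?_⟩
  by_contra hne
  have h1 := hmin (z - (p / q) • v) ⟨by rw [dg_sub_smul, hz, h0]; simp, sub_ne_zero.2 hne⟩
  have h2 : q • (z - (p / q) • v) = (p % q) • v := by
    rw [smul_sub, h, smul_smul, ← sub_smul, Int.emod_def]
  have h3 := congrArg (nrm a) h2
  rw [nrm_smul, nrm_smul, abs_of_nonneg (Int.emod_nonneg p hq)] at h3
  have h4 := Int.emod_lt_abs p hq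
  have h5 := nrm_pos a ha hv
  have h6 : 0 < |q| := abs_pos.2 hq
  nlinarith

lemma width_bound (a : α → ℕ) (ha : ∀ i, 0 < a i) (φ : α → ℤ) (A B : ℝ)
    (hA : ∀ l, (φ l : ℝ) / a l ≤ A) (hB : ∀ l, B ≤ (φ l : ℝ) / a l) {v : α → ℤ} (h0 : dg a v = 0) :
    2 * |((∑ l, φ l * v l : ℤ) : ℝ)| ≤ nrm a v * (A - B) := by
  have h1 : (∑ l, (a l : ℝ) * v l) = 0 := by
    have : ((dg a v : ℤ) : ℝ) = 0 := by exact_mod_cast h0
    simpa [dg] using this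
  have h2 : 2 * ((∑ l, φ l * v l : ℤ) : ℝ) =
      ∑ l, (a l : ℝ) * v l * (2 * ((φ l : ℝ) / a l) - A - B) := by
    have : ∑ l, (a l : ℝ) * v l * (2 * ((φ l : ℝ) / a l) - A - B) =
        2 * ∑ l, (φ l : ℝ) * v l - (∑ l, (a l : ℝ) * v l) * (A + B) := by
      rw [Finset.mul_sum, Finset.sum_mul, ← Finset.sum_sub_distrib]
      refine Finset.sum_congr rfl fun l _ => ?_
      have : (a l : ℝ) ≠ 0 := by exact_mod_cast (ha l).ne'
      field_simp; ring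
    rw [this, h1]; push_cast; ring
  rw [← abs_two, ← abs_mul, h2]
  refine (Finset.abs_sum_le_sum_abs _ _).trans ?_
  unfold nrm
  push_cast
  rw [Finset.sum_mul]
  refine Finset.sum_le_sum fun l _ => ?_
  rw [abs_mul, abs_mul, abs_of_nonneg (Nat.cast_nonneg _)]
  refine mul_le_mul_of_nonneg_left ?_ (by positivity)
  have := hA l; have := hB l
  rw [abs_le]; constructor <;> linarith

/-- Rounding along a relation. -/
lemma round_along (a : α → ℕ) (v z : α → ℤ) (h0 : dg a v = 0) (m : ℕ) (hz : dg a z = m) (θ : ℝ)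
    (h : ∀ j, ((max (-v j) 0 : ℤ) : ℝ) - 1 < z j + θ * v j) :
    ∃ γ : α → ℕ, ∑ l, a l * γ l = m := by
  have h1 : ∀ j, 0 ≤ (z - (-⌈θ⌉) • v) j := by
    intro j
    have h2 := h j
    have h3 := Int.le_ceil θ
    have h4 := Int.ceil_lt_add_one θ
    have : (-1 : ℝ) < ((z - (-⌈θ⌉) • v) j : ℤ) := by
      simp only [Pi.sub_apply, Pi.smul_apply, smul_eq_mul]
      push_cast at h2 ⊢
      rcases le_total 0 (v j : ℝ) with h5 | h5
      · rw [max_eq_right (by linarith)] at h2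
        nlinarith
      · rw [max_eq_left (by linarith)] at h2
        nlinarith
    have : -1 < (z - (-⌈θ⌉) • v) j := by exact_mod_cast this
    omega
  refine ⟨fun j => ((z - (-⌈θ⌉) • v) j).toNat, ?_⟩
  have h2 := dg_sub_smul a z v (-⌈θ⌉)
  rw [h0, hz, mul_zero, sub_zero] at h2
  have : ((∑ l, a l * ((z - (-⌈θ⌉) • v) l).toNat : ℕ) : ℤ) = m := by
    rw [← h2]; unfold dg; push_cast
    exact Finset.sum_congr rfl fun l _ => by rw [Int.toNat_of_nonneg (h1 l)]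
  exact_mod_cast this

lemma exists_bezout (a : α → ℤ) (h : ∀ p : ℕ, p.Prime → ∃ i, ¬ (p : ℤ) ∣ a i) :
    ∃ z : α → ℤ, ∑ l, a l * z l = 1 := by
  classical
  have h1 : Ideal.span (Set.range a) = ⊤ := by
    obtain ⟨g, hg⟩ := (IsPrincipalIdealRing.principal (Ideal.span (Set.range a))).principal
    have hg' : ∀ i, g ∣ a i := fun i => by
      have : a i ∈ Ideal.span (Set.range a) := Ideal.subset_span ⟨i, rfl⟩
      rw [hg] at this
      exact Ideal.mem_span_singleton.1 this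
    by_cases hu : g.natAbs = 1
    · rw [hg]
      exact Ideal.span_singleton_eq_top.2 (Int.isUnit_iff_natAbs_eq.2 hu)
    · obtain ⟨p, hp, hpg⟩ := Nat.exists_prime_and_dvd hu
      obtain ⟨i, hi⟩ := h p hp
      exact absurd ((Int.natCast_dvd.2 hpg).trans (hg' i)) hi
  have h2 : (1 : ℤ) ∈ Ideal.span (Set.range a) := by rw [h1]; trivial
  obtain ⟨c, hc⟩ := (Submodule.mem_span_range_iff_exists_fun ℤ).1 h2
  exact ⟨c, by simpa [mul_comm] using hc⟩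

/-- Covering by four points in the plane. -/
lemma planar (X Y : Fin 4 → ℝ) (z2 z3 Q : ℝ)
    (hQ : ∀ σ : Equiv.Perm (Fin 4), Q ≤ |tri X Y (σ 1) (σ 2) (σ 3)| + |tri X Y (σ 0) (σ 2) (σ 3)| +
      |tri X Y (σ 0) (σ 1) (σ 3)| + |tri X Y (σ 0) (σ 1) (σ 2)|)
    (hno : ∀ l : Fin 4 → ℝ, (∀ j, 0 ≤ l j) → ∑ j, l j = 1 → ∀ n2 n3 : ℤ,
      ∑ j, l j * X j = z2 + n2 → ∑ j, l j * Y j = z3 + n3 → False) :
    ∃ a2 a3 : ℝ, 0 ≤ a2 ∧ 0 ≤ a3 ∧ a2 + a3 = 1 ∧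
      (∀ l l' : Fin 4 → ℝ, (∀ j, 0 ≤ l j) → ∑ j, l j = 1 → (∀ j, 0 ≤ l' j) → ∑ j, l' j = 1 →
        ∑ j, l j * Y j = ∑ j, l' j * Y j → a2 * (∑ j, l j * X j - ∑ j, l' j * X j) ≤ 1) ∧
      (∀ i j, a3 * (Y i - Y j) ≤ 1) ∧ a2 * a3 * Q ≤ 2 := by
  let C : ℝ → ℝ → Prop := fun y h => ∃ l l' : Fin 4 → ℝ, (∀ j, 0 ≤ l j) ∧ ∑ j, l j = 1 ∧
    (∀ j, 0 ≤ l' j) ∧ ∑ j, l' j = 1 ∧ ∑ j, l j * Y j = y ∧ ∑ j, l' j * Y j = y ∧
    ∑ j, l j * X j - ∑ j, l' j * X j = h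
  have comb : ∀ (l l' : Fin 4 → ℝ) (θ : ℝ) (W : Fin 4 → ℝ),
      ∑ j, ((1 - θ) * l j + θ * l' j) * W j = (1 - θ) * ∑ j, l j * W j + θ * ∑ j, l' j * W j := by
    intro l l' θ W
    simp only [Fin.sum_univ_four]; ring
  have comb1 : ∀ (l l' : Fin 4 → ℝ) (θ : ℝ), ∑ j, l j = 1 → ∑ j, l' j = 1 →
      ∑ j, ((1 - θ) * l j + θ * l' j) = 1 := by
    intro l l' θ h1 h2
    simp only [Fin.sum_univ_four] at *
    linear_combination (1 - θ) * h1 + θ * h2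
  have comb0 : ∀ (l l' : Fin 4 → ℝ) (θ : ℝ), (∀ j, 0 ≤ l j) → (∀ j, 0 ≤ l' j) → 0 ≤ θ → θ ≤ 1 →
      ∀ j, 0 ≤ (1 - θ) * l j + θ * l' j := fun l l' θ h1 h2 h3 h4 j =>
    add_nonneg (mul_nonneg (by linarith) (h1 j)) (mul_nonneg h3 (h2 j))
  have hT := tent C z3 (by
      rintro y h y' h' θ ⟨l1, l2, a1, a2, a3, a4, a5, a6, a7⟩ ⟨m1, m2, b1, b2, b3, b4, b5, b6, b7⟩ h0 h1
      refine ⟨fun j => (1 - θ) * l1 j + θ * m1 j, fun j => (1 - θ) * l2 j + θ * m2 j,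
        comb0 _ _ _ a1 b1 h0 h1, comb1 _ _ _ a2 b2, comb0 _ _ _ a3 b3 h0 h1, comb1 _ _ _ a4 b4,
        ?_, ?_, ?_⟩
      · rw [comb, a5, b5]
      · rw [comb, a6, b6]
      · rw [comb, comb, ← a7, ← b7]; ring) (by
      rintro n h ⟨l1, l2, a1, a2, a3, a4, a5, a6, a7⟩
      by_contra hh
      push Not at hh
      have h3 := Int.le_ceil (∑ j, l2 j * X j - z2)
      have h4 := Int.ceil_lt_add_one (∑ j, l2 j * X j - z2)
      obtain ⟨θ, t0, t1, t2⟩ := exists_theta (A := ∑ j, l2 j * X j) (B := ∑ j, l1 j * X j)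
        (Y := z2 + ⌈∑ j, l2 j * X j - z2⌉) (by linarith) (by linarith)
      refine hno (fun j => (1 - θ) * l2 j + θ * l1 j) (comb0 _ _ _ a3 a1 t0 t1) (comb1 _ _ _ a4 a2)
        ⌈∑ j, l2 j * X j - z2⌉ n ?_ ?_
      · rw [comb]; linarith
      · rw [comb, a5, a6]; ring)
  rcases hT with hT | ⟨p, κ1, κ2, h1, h2, ok⟩
  · refine ⟨1, 0, zero_le_one, le_rfl, by ring, fun l l' a1 a2 a3 a4 a5 => ?_, by simp, by simp⟩
    rw [one_mul]
    exact hT _ _ ⟨l, l', a1, a2, a3, a4, rfl, a5.symm, rfl⟩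
  have hb : 0 < 1 + (κ1 + κ2) := by linarith
  have sg : ∀ (i : Fin 4) (W : Fin 4 → ℝ), ∑ j, (Pi.single i 1 : Fin 4 → ℝ) j * W j = W i := by
    intro i W
    rw [Finset.sum_eq_single i]
    · simp
    · intro l _ hl; simp [hl]
    · simp
  have sg0 : ∀ (i j : Fin 4), 0 ≤ (Pi.single i 1 : Fin 4 → ℝ) j := by
    intro i j
    by_cases h : j = i
    · subst h; simp
    · simp [h]
  have sg1 : ∀ (i : Fin 4), ∑ j, (Pi.single i 1 : Fin 4 → ℝ) j = 1 := by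
    intro i; simp
  have seg : ∀ i j k l θ η, 0 ≤ θ → θ ≤ 1 → 0 ≤ η → η ≤ 1 →
      (1 - θ) * Y i + θ * Y j = (1 - η) * Y k + η * Y l →
      C ((1 - θ) * Y i + θ * Y j) (((1 - θ) * X i + θ * X j) - ((1 - η) * X k + η * X l)) := by
    intro i j k l θ η a b c d e
    refine ⟨fun m => (1 - θ) * (Pi.single i 1 : Fin 4 → ℝ) m + θ * (Pi.single j 1 : Fin 4 → ℝ) m,
      fun m => (1 - η) * (Pi.single k 1 : Fin 4 → ℝ) m + η * (Pi.single l 1 : Fin 4 → ℝ) m,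
      comb0 _ _ _ (sg0 i) (sg0 j) a b, comb1 _ _ _ (sg1 i) (sg1 j),
      comb0 _ _ _ (sg0 k) (sg0 l) c d, comb1 _ _ _ (sg1 k) (sg1 l), ?_, ?_, ?_⟩
    · rw [comb, sg, sg]
    · rw [comb, sg, sg, e]
    · rw [comb, comb, sg, sg, sg, sg]
  refine ⟨(κ1 + κ2) / (1 + (κ1 + κ2)), 1 / (1 + (κ1 + κ2)), by positivity, by positivity,
    by field_simp; ring, fun l l' a1 a2 a3 a4 a5 => ?_, fun i j => ?_, ?_⟩
  · obtain ⟨q1, q2⟩ := ok _ _ ⟨l, l', a1, a2, a3, a4, rfl, a5.symm, rfl⟩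
    rw [div_mul_eq_mul_div, div_le_one hb]
    linarith
  · have pt : ∀ m, C (Y m) 0 := fun m => by
      simpa using seg m m m m 0 0 le_rfl zero_le_one le_rfl zero_le_one rfl
    obtain ⟨-, q1⟩ := ok _ _ (pt i)
    obtain ⟨q2, -⟩ := ok _ _ (pt j)
    rw [div_mul_eq_mul_div, div_le_one hb]
    linarith
  · have hs := Tuple.monotone_sort Y
    have := area_le X Y C p κ1 κ2 h1 h2 ok seg (Tuple.sort Y 0) (Tuple.sort Y 1) (Tuple.sort Y 2)
      (Tuple.sort Y 3) (hs (by decide)) (hs (by decide)) (hs (by decide))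
    have h3 := mul_le_mul_of_nonneg_left (hQ (Tuple.sort Y)) (add_nonneg h1 h2)
    rw [div_mul_div_comm, div_mul_eq_mul_div, div_le_iff₀ (by positivity)]
    nlinarith

end Pool.Agent.Lib.MP_9ff3e7_ag
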