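import Pool.Agent.Lib.MP_9ff3e7_ag.Oracle

namespace Pool.Agent.Lib.MP_9ff3e7_ag

open Finset MvPolynomial

namespace Setup

variable {ι κ α : Type} [Fintype ι] [Fintype κ] [Fintype α] [DecidableEq ι] [DecidableEq α]
  (P : Setup ι κ α)

lemma bound (r : ℝ) (h : Cert P.Sup r) :
    r + ∑ i, (P.w i : ℝ) - ∑ l, (P.a l : ℝ) - Fintype.card ι + Fintype.card α ≤
      ∑ j, (P.d j : ℝ) - Fintype.card κ := by
  classical
  obtain ⟨T, _, β, h1, h2, h3⟩ := h
  set V : Finset ι := univ.filter fun u => P.x u = 0 with hV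
  have := sum_le_of_prod_levels ((univ : Finset T).disjSum V) (univ : Finset κ)
    (Sum.elim β fun i => (P.w i : ℝ)) (fun j => (P.d j : ℝ))
    (by
      rintro (l | u) _
      · exact h1 l
      · exact Nat.one_le_cast.2 (P.hw u))
    (fun j _ => Nat.one_le_cast.2 (P.hd j)) (fun s hs => by
      have h4 := h2 s hs
      unfold Sup U Setup.T at h4
      rw [Finset.prod_filter, Finset.prod_disjSum]
      rw [← Finset.filter_filter, Finset.prod_filter, Finset.prod_filter] at h4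
      exact h4)
  rw [Finset.sum_disjSum] at this
  simp only [Sum.elim_inl, Sum.elim_inr] at this
  have e1 : ∑ i, ((P.w i : ℝ) - 1) = ∑ l, ((P.a l : ℝ) - 1) + ∑ u ∈ V, ((P.w u : ℝ) - 1) := by
    rw [← Finset.sum_filter_add_sum_filter_not univ (fun u => P.x u = 0), add_comm]
    congr 1
    have : (univ.filter fun u => ¬ P.x u = 0) = univ.map ⟨P.e, P.inj⟩ := by
      ext u
      simpa using P.supp u
    rw [this, Finset.sum_map]
    rfl
  simp only [Finset.sum_sub_distrib, Finset.sum_const, Finset.card_univ, nsmul_eq_mul,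
    mul_one] at e1 this h3
  linarith

lemma hg [Nonempty α] (p : ℕ) (hp : p.Prime) : ∃ l, ¬ p ∣ P.a l := by
  obtain ⟨l⟩ := ‹Nonempty α›
  obtain ⟨i, h1, h2⟩ := P.free P.x (fun h => P.xe l (congrFun h _)) P.hx p hp
  obtain ⟨l, rfl⟩ := (P.supp i).1 h1
  exact ⟨l, h2⟩

end Setup

lemma rep {ι κ : Type} [Fintype ι] [Fintype κ] [DecidableEq ι] (n : ℕ) (P : Setup ι κ (Fin (n + 1)))
    (hc : n ≤ 3 ∨ ∀ i j, i ≠ j → (P.a i).Coprime (P.a j)) (m : ℕ)
    (hm : (∑ j, P.d j : ℤ) - ∑ i, P.w i + (Fintype.card ι - 1 - Fintype.card κ) + 1 ≤ m) :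
    ∃ γ : Fin (n + 1) → ℕ, ∑ l, P.a l * γ l = m := by
  by_contra h
  push Not at h
  have hm' : (∑ j, P.d j : ℝ) - ∑ i, (P.w i : ℝ) + (Fintype.card ι - 1 - Fintype.card κ) + 1 ≤ m := by
    exact_mod_cast hm
  have cop : 1 ≤ n → (∀ i j, i ≠ j → (P.a i).Coprime (P.a j)) → False := fun hn hco => by
    have : Nontrivial (Fin (n + 1)) := Fin.nontrivial_iff_two_le.2 (by omega)
    have := P.bound _ (cert_coprime P.a P.ha hco P.Sup P.mono (P.S4 hco) m h)
    linarith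
  obtain rfl | hn := Nat.eq_zero_or_pos n
  · have : P.a 0 = 1 := by
      by_contra h1
      obtain ⟨p, hp, h2⟩ := Nat.exists_prime_and_dvd h1
      obtain ⟨l, hl⟩ := P.hg p hp
      exact hl (by rwa [Fin.fin_one_eq_zero l])
    exact h (fun _ => m) (by simp [this])
  rcases hc with hc | hc
  · interval_cases n
    · refine cop le_rfl ?_
      have : (P.a 0).Coprime (P.a 1) := Nat.coprime_of_dvd fun p hp h1 h2 => by
        obtain ⟨l, hl⟩ := P.hg p hp
        fin_cases l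
        · exact hl h1
        · exact hl h2
      intro i j hij
      fin_cases i <;> fin_cases j
      · exact absurd rfl hij
      · exact this
      · exact this.symm
      · exact absurd rfl hij
    · have := P.bound _ (cert_three P.a P.ha P.hg P.Sup P.mono P.S0 P.S1 P.S3 m h)
      simp only [Fintype.card_fin] at this
      push_cast at this
      linarith
    · have := P.bound _ (cert_four P.a P.ha P.hg P.Sup P.mono P.S0 P.S1 P.S2 P.S3 m h)
      simp only [Fintype.card_fin] at this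
      push_cast at this
      linarith
  · exact cop hn hc

/-- The degree is a sum of weights of coordinates not vanishing at the point. -/
lemma rep_supp {ι κ : Type} [Fintype ι] [Fintype κ] [DecidableEq ι] (w : ι → ℕ) (d : κ → ℕ)
    (f : κ → MvPolynomial ι ℂ) (hw : ∀ i, 0 < w i) (hd : ∀ j, 0 < d j)
    (hf : ∀ j, (f j).IsWeightedHomogeneous w (d j))
    (free : ∀ y : ι → ℂ, y ≠ 0 → (∀ j, eval y (f j) = 0) → ∀ p : ℕ, p.Prime → ∃ i, y i ≠ 0 ∧ ¬ p ∣ w i)
    (x : ι → ℂ) (hx0 : x ≠ 0) (hx : ∀ j, eval x (f j) = 0)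
    (hc : Set.ncard {i | x i ≠ 0} ≤ 4 ∨ ∀ i j, x i ≠ 0 → x j ≠ 0 → i ≠ j → (w i).Coprime (w j))
    (m : ℕ) (hm : (∑ j, d j : ℤ) - ∑ i, w i + (Fintype.card ι - 1 - Fintype.card κ) + 1 ≤ m) :
    ∃ γ : ι → ℕ, (∀ i, γ i ≠ 0 → x i ≠ 0) ∧ ∑ i, w i * γ i = m := by
  classical
  set S : Finset ι := univ.filter fun i => x i ≠ 0 with hS
  have hS1 : Set.ncard {i | x i ≠ 0} = S.card := by
    rw [← Set.ncard_coe_finset]; congr 1; ext i; simp [hS]
  obtain ⟨n, hn⟩ : ∃ n, S.card = n + 1 := by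
    obtain ⟨i, hi⟩ := Function.ne_iff.1 hx0
    exact Nat.exists_eq_add_one.2 (Finset.card_pos.2 ⟨i, by simpa [hS] using hi⟩)
  let e : Fin (n + 1) → ι := fun l => ((Finset.equivFinOfCardEq hn).symm l : ι)
  have inj : Function.Injective e :=
    Subtype.val_injective.comp (Finset.equivFinOfCardEq hn).symm.injective
  have supp : ∀ i, x i ≠ 0 ↔ ∃ l, e l = i := fun i => by
    constructor
    · intro hi
      exact ⟨Finset.equivFinOfCardEq hn ⟨i, by simpa [hS] using hi⟩, by simp [e]⟩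
    · rintro ⟨l, rfl⟩
      exact (Finset.mem_filter.1 ((Finset.equivFinOfCardEq hn).symm l).2).2
  let P : Setup ι κ (Fin (n + 1)) := ⟨w, d, f, x, e, hw, hd, hf, free, hx, inj, supp⟩
  obtain ⟨γ, hγ⟩ := rep n P (hc.imp (fun h => by omega) fun h i j hij =>
    h _ _ (P.xe i) (P.xe j) fun h1 => hij (inj h1)) m hm
  refine ⟨Function.extend e γ 0, fun i hi => ?_, ?_⟩
  · by_contra h1
    exact hi (Function.extend_apply' _ _ _ fun h2 => (supp i).2 h2 h1)
  · rw [← hγ]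
    refine (Fintype.sum_of_injective e inj _ _ (fun i hi => ?_) fun l => ?_).symm
    · rw [Function.extend_apply' _ _ _ hi]; simp
    · rw [inj.extend_apply]; rfl

/-- A point of the cone with small support inside the support of a given point. -/
lemma small_supp {ι κ : Type} [Fintype ι] [Fintype κ] [DecidableEq ι] (w : ι → ℕ) (d : κ → ℕ)
    (f : κ → MvPolynomial ι ℂ) (hd : ∀ j, 0 < d j)
    (hf : ∀ j, (f j).IsWeightedHomogeneous w (d j))
    (x : ι → ℂ) (hx0 : x ≠ 0) (hx : ∀ j, eval x (f j) = 0) :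
    ∃ z : ι → ℂ, z ≠ 0 ∧ (∀ j, eval z (f j) = 0) ∧ (∀ i, z i ≠ 0 → x i ≠ 0) ∧
      Set.ncard {i | z i ≠ 0} ≤ Fintype.card κ + 1 := by
  classical
  obtain ⟨z, ⟨h1, h2, h3⟩, hmin⟩ := exists_minimalFor_of_wellFoundedLT
    (fun z : ι → ℂ => z ≠ 0 ∧ (∀ j, eval z (f j) = 0) ∧ ∀ i, z i ≠ 0 → x i ≠ 0)
    (fun z => (univ.filter fun i => z i ≠ 0).card) ⟨x, hx0, hx, fun _ h => h⟩
  refine ⟨z, h1, h2, h3, ?_⟩
  obtain ⟨i, hi⟩ := Function.ne_iff.1 h1
  have := card_le_of_only_zero (univ.filter fun i => z i ≠ 0) (univ : Finset (Option κ))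
    (fun o => o.elim (X i) f) (by
      rintro (_ | j) _
      · simp
      · have := eval_scale w _ _ (hf j) 0 0
        simp only [Pi.zero_apply, mul_zero, zero_pow (hd j).ne', zero_mul] at this
        exact this) (fun y hy hk => by
      by_contra h0
      have hyi : y i = 0 := by simpa using hk none (Finset.mem_univ _)
      have hlt : (univ.filter fun i => y i ≠ 0) ⊂ univ.filter fun i => z i ≠ 0 := by
        refine ⟨fun k hk => hy k (by simpa using hk), fun h => ?_⟩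
        have := h (x := i) (by simpa using hi)
        simp [hyi] at this
      have h4 := Finset.card_lt_card hlt
      have h5 := hmin (j := y) ⟨h0, fun j => hk (some j) (Finset.mem_univ _),
        fun k hk => h3 k (by simpa using hy k hk)⟩ h4.le
      exact absurd h4 (not_lt.2 h5))
  rw [Finset.card_univ, Fintype.card_option] at this
  convert this
  rw [← Set.ncard_coe_finset]; congr 1; ext i; simp

lemma nonneg {ι κ : Type} [Fintype ι] [Fintype κ] [DecidableEq ι] (w : ι → ℕ) (d : κ → ℕ)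
    (f : κ → MvPolynomial ι ℂ) (hw : ∀ i, 0 < w i) (hd : ∀ j, 0 < d j)
    (hf : ∀ j, (f j).IsWeightedHomogeneous w (d j))
    (free : ∀ y : ι → ℂ, y ≠ 0 → (∀ j, eval y (f j) = 0) → ∀ p : ℕ, p.Prime → ∃ i, y i ≠ 0 ∧ ¬ p ∣ w i) :
    0 ≤ (∑ j, d j : ℤ) - ∑ i, w i + (Fintype.card ι - 1 - Fintype.card κ) + 1 := by
  let P : Setup ι κ (Fin 0) := ⟨w, d, f, 0, Fin.elim0, hw, hd, hf, free, fun j => by
    have := eval_scale w _ _ (hf j) 0 0
    simp only [Pi.zero_apply, mul_zero, zero_pow (hd j).ne', zero_mul] at this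
    exact this, fun l => l.elim0, fun i => by simp⟩
  have := P.bound 0 ⟨Fin 0, inferInstance, fun _ => 1, fun _ => le_rfl,
    fun s _ => by simpa using P.S3 s, by simp⟩
  have h : (0 : ℝ) ≤ (∑ j, d j : ℝ) - ∑ i, (w i : ℝ) + (Fintype.card ι - 1 - Fintype.card κ) + 1 := by
    simp only [Finset.univ_eq_empty, Finset.sum_empty, Fintype.card_fin, Nat.cast_zero, P] at this
    linarith
  exact_mod_cast h

lemma free_prime {ι : Type} (w : ι → ℕ) (y : ι → ℂ)
    (h : ∀ t : ℂ, (∀ i, t ^ w i * y i = y i) → t = 1) (p : ℕ) (hp : p.Prime) :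
    ∃ i, y i ≠ 0 ∧ ¬ p ∣ w i := by
  by_contra h1
  push Not at h1
  have h2 := Complex.isPrimitiveRoot_exp p hp.ne_zero
  refine h2.ne_one hp.one_lt (h _ fun i => ?_)
  by_cases hi : y i = 0
  · simp [hi]
  · rw [(h2.pow_eq_one_iff_dvd _).2 (h1 i hi), one_mul]

theorem fujita {ι κ : Type} [Fintype ι] [Fintype κ] (w : ι → ℕ) (d : κ → ℕ)
    (f : κ → MvPolynomial ι ℂ) (hw : ∀ i, 0 < w i) (hd : ∀ j, 0 < d j)
    (hf : ∀ j, (f j).IsWeightedHomogeneous w (d j))
    (free : ∀ y : ι → ℂ, y ≠ 0 → (∀ j, eval y (f j) = 0) → ∀ p : ℕ, p.Prime → ∃ i, y i ≠ 0 ∧ ¬ p ∣ w i)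
    (x : ι → ℂ) (hx0 : x ≠ 0) (hx : ∀ j, eval x (f j) = 0)
    (hc : Fintype.card κ ≤ 3 ∨ Set.ncard {i | x i ≠ 0 ∧ w i ≠ 1} ≤ 4 ∨
      ∀ i j, x i ≠ 0 → x j ≠ 0 → i ≠ j → (w i).Coprime (w j))
    (m : ℕ) (hm : (∑ j, d j : ℤ) - ∑ i, w i + (Fintype.card ι - 1 - Fintype.card κ) + 1 ≤ m) :
    ∃ g : MvPolynomial ι ℂ, g.IsWeightedHomogeneous w m ∧ eval x g ≠ 0 := by
  classical
  obtain ⟨γ, h1, h2⟩ : ∃ γ : ι → ℕ, (∀ i, γ i ≠ 0 → x i ≠ 0) ∧ ∑ i, w i * γ i = m := by
    by_cases h0 : ∃ i, x i ≠ 0 ∧ w i = 1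
    · obtain ⟨i, h1, h2⟩ := h0
      refine ⟨Pi.single i m, fun k hk => ?_, by rw [sum_single, h2, one_mul]⟩
      by_contra h3
      exact hk (Pi.single_eq_of_ne (by rintro rfl; exact h1 h3) _)
    rcases hc with hc | hc
    · obtain ⟨z, h1, h2, h3, h4⟩ := small_supp w d f hd hf x hx0 hx
      obtain ⟨γ, h5, h6⟩ := rep_supp w d f hw hd hf free z h1 h2 (Or.inl (by omega)) m hm
      exact ⟨γ, fun i hi => h3 i (h5 i hi), h6⟩
    · refine rep_supp w d f hw hd hf free x hx0 hx (hc.imp (fun h => ?_) id) m hm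
      convert h using 2
      ext i
      exact ⟨fun h1 => ⟨h1, fun h2 => h0 ⟨i, h1, h2⟩⟩, fun h1 => h1.1⟩
  refine ⟨monomial (Finsupp.equivFunOnFinite.symm γ) 1,
    isWeightedHomogeneous_monomial _ _ _ (by rw [weight_eq, ← h2]; rfl), ?_⟩
  rw [eval_monomial, one_mul, Finsupp.prod_fintype _ _ (by simp)]
  refine Finset.prod_ne_zero_iff.2 fun i _ => ?_
  by_cases h3 : γ i = 0
  · simp [h3]
  · exact pow_ne_zero _ (h1 i h3)

end Pool.Agent.Lib.MP_9ff3e7_ag
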