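import Mathlib

namespace Pool.Agent.Lib.MP_9ff3e7_ag

open Finset

/-- Abel summation: domination on all upper level sets gives domination of weighted sums. -/
lemma level_sum {ι κ : Type} (N : ℕ) : ∀ (B : Finset ι) (T : Finset κ) (q y : ι → ℝ) (p x : κ → ℝ),
    (B.filter (fun i => y i ≠ 0)).card ≤ N →
    (∀ i ∈ B, 0 ≤ q i) → (∀ k ∈ T, 0 ≤ p k) → (∀ i ∈ B, 0 ≤ y i) → (∀ k ∈ T, 0 ≤ x k) →
    (∀ s, 0 < s → ∑ i ∈ B.filter (fun i => s ≤ y i), q i ≤ ∑ k ∈ T.filter (fun k => s ≤ x k), p k) →
    ∑ i ∈ B, q i * y i ≤ ∑ k ∈ T, p k * x k := by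
  classical
  induction N with
  | zero =>
    intro B T q y p x hN hq hp hy hx _
    have : ∀ i ∈ B, y i = 0 := by
      intro i hi
      by_contra h
      have : i ∈ B.filter (fun i => y i ≠ 0) := Finset.mem_filter.2 ⟨hi, h⟩
      have := Finset.card_pos.2 ⟨i, this⟩
      omega
    rw [Finset.sum_eq_zero fun i hi => by rw [this i hi, mul_zero]]
    exact Finset.sum_nonneg fun k hk => mul_nonneg (hp k hk) (hx k hk)
  | succ N ih =>
    intro B T q y p x hN hq hp hy hx h
    rcases (B.filter (fun i => y i ≠ 0)).eq_empty_or_nonempty with h0 | h0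
    · exact ih B T q y p x (by rw [h0]; simp) hq hp hy hx h
    obtain ⟨i0, hi0, hmin⟩ := Finset.exists_min_image _ y h0
    have hi0B := (Finset.mem_filter.1 hi0).1
    have hs : 0 < y i0 := lt_of_le_of_ne (hy i0 hi0B) (Finset.mem_filter.1 hi0).2.symm
    set s := y i0 with hsdef
    have hy' : ∀ i ∈ B, y i = 0 ∨ s ≤ y i := fun i hi => by
      by_cases h : y i = 0
      · exact Or.inl h
      · exact Or.inr (hmin i (Finset.mem_filter.2 ⟨hi, h⟩))
    have key := ih B T q (fun i => max (y i - s) 0) p (fun k => max (x k - s) 0) (by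
        have hsub : B.filter (fun i => max (y i - s) 0 ≠ 0) ⊆ (B.filter (fun i => y i ≠ 0)).erase i0 := by
          intro i hi
          have hi' := Finset.mem_filter.1 hi
          have h1 : s < y i := by
            by_contra h2
            exact hi'.2 (max_eq_right (by linarith))
          refine Finset.mem_erase.2 ⟨?_, Finset.mem_filter.2 ⟨hi'.1, by linarith⟩⟩
          rintro rfl
          exact lt_irrefl _ h1
        have := Finset.card_le_card hsub
        rw [Finset.card_erase_of_mem hi0] at this
        omega) hq hp (fun i _ => le_max_right _ _) (fun i _ => le_max_right _ _) (by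
        intro r hr
        have := h (r + s) (by linarith)
        have e1 : B.filter (fun i => r ≤ max (y i - s) 0) = B.filter (fun i => r + s ≤ y i) := by
          refine Finset.filter_congr fun i _ => ?_
          rw [le_max_iff]
          constructor
          · rintro (h | h) <;> linarith
          · intro h; left; linarith
        have e2 : T.filter (fun i => r ≤ max (x i - s) 0) = T.filter (fun i => r + s ≤ x i) := by
          refine Finset.filter_congr fun i _ => ?_
          rw [le_max_iff]
          constructor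
          · rintro (h | h) <;> linarith
          · intro h; left; linarith
        rw [e1, e2]; exact this)
    have h1 := h s hs
    rw [Finset.sum_filter, Finset.sum_filter] at h1
    have e1 : ∑ i ∈ B, q i * y i =
        ∑ i ∈ B, q i * max (y i - s) 0 + s * ∑ i ∈ B, if s ≤ y i then q i else 0 := by
      rw [Finset.mul_sum, ← Finset.sum_add_distrib]
      refine Finset.sum_congr rfl fun i hi => ?_
      rcases hy' i hi with h2 | h2
      · rw [h2, if_neg (by linarith), max_eq_right (by linarith)]; ring
      · rw [if_pos h2, max_eq_left (by linarith)]; ring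
    have e2 : ∑ k ∈ T, p k * max (x k - s) 0 + s * ∑ k ∈ T, (if s ≤ x k then p k else 0) ≤
        ∑ k ∈ T, p k * x k := by
      rw [Finset.mul_sum, ← Finset.sum_add_distrib]
      refine Finset.sum_le_sum fun k hk => ?_
      by_cases h2 : s ≤ x k
      · rw [if_pos h2, max_eq_left (by linarith)]; apply le_of_eq; ring
      · rw [if_neg h2, max_eq_right (by linarith)]
        have := mul_nonneg (hp k hk) (hx k hk)
        linarith
    rw [e1]
    have := mul_le_mul_of_nonneg_left h1 hs.le
    linarith

/-- The logarithmic mean of `1` and `x`. -/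
noncomputable def lm (x : ℝ) : ℝ := (x - 1) / Real.log x

lemma lm_mono {x y : ℝ} (hx : 1 < x) (hxy : x ≤ y) : lm x ≤ lm y := by
  have hy : 1 < y := lt_of_lt_of_le hx hxy
  have h1 := Real.log_pos hx
  have h2 := Real.log_pos hy
  unfold lm
  rw [div_le_div_iff₀ h1 h2]
  set t := (x - 1) / (y - 1) with ht
  have hy1 : 0 < y - 1 := by linarith
  have ht0 : 0 ≤ t := div_nonneg (by linarith) hy1.le
  have ht1 : t ≤ 1 := (div_le_one hy1).2 (by linarith)
  have hc : (1 - t) • Real.log 1 + t • Real.log y ≤ Real.log ((1 - t) • (1 : ℝ) + t • y) :=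
    (strictConcaveOn_log_Ioi.concaveOn).2 (show (1 : ℝ) ∈ Set.Ioi 0 by simp)
      (show y ∈ Set.Ioi 0 by simp; linarith) (by linarith) ht0 (by ring)
  have e : (1 - t) • (1 : ℝ) + t • y = x := by
    simp only [smul_eq_mul, ht]; field_simp; ring
  rw [e] at hc
  simp only [Real.log_one, smul_eq_mul, mul_zero, zero_add] at hc
  have e2 : x - 1 = t * (y - 1) := by rw [ht]; field_simp
  rw [e2]
  nlinarith

lemma log_mul_lm {x : ℝ} (hx : 1 ≤ x) : Real.log x * lm x = x - 1 := by
  rcases hx.eq_or_lt with h | h
  · rw [← h]; simp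
  · unfold lm
    have := (Real.log_pos h).ne'
    field_simp

lemma lm_nonneg {x : ℝ} (hx : 1 ≤ x) : 0 ≤ lm x :=
  div_nonneg (by linarith) (Real.log_nonneg hx)

/-- Multiplicative majorisation. -/
lemma sum_le_of_prod_levels {ι κ : Type} (B : Finset ι) (T : Finset κ) (b : ι → ℝ) (d : κ → ℝ)
    (hb : ∀ i ∈ B, 1 ≤ b i) (hd : ∀ k ∈ T, 1 ≤ d k)
    (h : ∀ s, 1 < s → ∏ i ∈ B.filter (fun i => s ≤ b i), b i ≤ ∏ k ∈ T.filter (fun k => s ≤ d k), d k) :
    ∑ i ∈ B, (b i - 1) ≤ ∑ k ∈ T, (d k - 1) := by
  classical
  have := level_sum _ B T (fun i => Real.log (b i)) (fun i => lm (b i)) (fun k => Real.log (d k))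
    (fun k => lm (d k)) le_rfl (fun i hi => Real.log_nonneg (hb i hi))
    (fun i hi => Real.log_nonneg (hd i hi)) (fun i hi => lm_nonneg (hb i hi))
    (fun i hi => lm_nonneg (hd i hi)) (by
      intro s hs
      rcases (B.filter (fun i => s ≤ lm (b i))).eq_empty_or_nonempty with h0 | h0
      · rw [h0, Finset.sum_empty]
        exact Finset.sum_nonneg fun k hk => Real.log_nonneg (hd k (Finset.mem_filter.1 hk).1)
      obtain ⟨i0, hi0, hmin⟩ := Finset.exists_min_image _ b h0
      have hi0' := Finset.mem_filter.1 hi0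
      have h1 : 1 < b i0 := by
        rcases (hb i0 hi0'.1).eq_or_lt with h2 | h2
        · have := hi0'.2
          rw [← h2] at this
          simp [lm] at this
          linarith
        · exact h2
      have h2 := h (b i0) h1
      have h3 := Real.log_le_log (Finset.prod_pos fun i hi => by
        have := hb i (Finset.mem_filter.1 hi).1; linarith) h2
      rw [Real.log_prod (fun i hi => by have := hb i (Finset.mem_filter.1 hi).1; linarith),
        Real.log_prod (fun i hi => by have := hd i (Finset.mem_filter.1 hi).1; linarith)] at h3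
      refine le_trans ?_ (h3.trans ?_)
      · refine Finset.sum_le_sum_of_subset_of_nonneg (fun i hi => ?_) fun i hi _ =>
          Real.log_nonneg (hb i (Finset.mem_filter.1 hi).1)
        exact Finset.mem_filter.2 ⟨(Finset.mem_filter.1 hi).1, hmin i hi⟩
      · refine Finset.sum_le_sum_of_subset_of_nonneg (fun k hk => ?_) fun i hi _ =>
          Real.log_nonneg (hd i (Finset.mem_filter.1 hi).1)
        have hk' := Finset.mem_filter.1 hk
        exact Finset.mem_filter.2 ⟨hk'.1, hi0'.2.trans (lm_mono h1 hk'.2)⟩)
  rw [Finset.sum_congr rfl fun i hi => log_mul_lm (hb i hi),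
    Finset.sum_congr rfl fun i hi => log_mul_lm (hd i hi)] at this
  exact this

end Pool.Agent.Lib.MP_9ff3e7_ag
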