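import Pool.Agent.Lib.MP_9ff3e7_ag.Four
import Pool.Agent.Lib.MP_9ff3e7_ag.Supply
import Pool.Agent.Lib.MP_9ff3e7_ag.Major

namespace Pool.Agent.Lib.MP_9ff3e7_ag

open Finset MvPolynomial

/-- The data of a free weighted system and a point of its cone. -/
structure Setup (ι κ α : Type) [Fintype ι] [Fintype κ] [Fintype α] where
  w : ι → ℕ
  d : κ → ℕ
  f : κ → MvPolynomial ι ℂ
  x : ι → ℂ
  e : α → ι
  hw : ∀ i, 0 < w i
  hd : ∀ j, 0 < d j
  hf : ∀ j, (f j).IsWeightedHomogeneous w (d j)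
  free : ∀ y : ι → ℂ, y ≠ 0 → (∀ j, eval y (f j) = 0) → ∀ p : ℕ, p.Prime → ∃ i, y i ≠ 0 ∧ ¬ p ∣ w i
  hx : ∀ j, eval x (f j) = 0
  inj : Function.Injective e
  supp : ∀ i, x i ≠ 0 ↔ ∃ l, e l = i

lemma weight_eq {ι : Type} [Fintype ι] (w : ι → ℕ) (γ : ι →₀ ℕ) :
    Finsupp.weight w γ = ∑ i, w i * γ i := by
  rw [Finsupp.weight_apply, Finsupp.sum_fintype _ _ (by simp)]
  exact Finset.sum_congr rfl fun i _ => by simp [mul_comm]

lemma eval_scale {ι : Type} [Fintype ι] (w : ι → ℕ) (f : MvPolynomial ι ℂ) (d : ℕ)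
    (hf : f.IsWeightedHomogeneous w d) (ζ : ℂ) (y : ι → ℂ) :
    eval (fun i => ζ ^ w i * y i) f = ζ ^ d * eval y f := by
  rw [eval_eq', eval_eq', Finset.mul_sum]
  refine Finset.sum_congr rfl fun γ hγ => ?_
  have h := hf (mem_support_iff.1 hγ)
  rw [weight_eq] at h
  simp only [mul_pow, ← pow_mul, Finset.prod_mul_distrib, Finset.prod_pow_eq_pow_sum, h]
  ring

namespace Setup

variable {ι κ α : Type} [Fintype ι] [Fintype κ] [Fintype α] [DecidableEq ι] [DecidableEq α]
  (P : Setup ι κ α)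

/-- The weights on the support. -/
def a (l : α) : ℕ := P.w (P.e l)

lemma ha (l : α) : 0 < P.a l := P.hw _

lemma xe (l : α) : P.x (P.e l) ≠ 0 := (P.supp _).2 ⟨l, rfl⟩

open Classical in
/-- Variables vanishing at the point, of weight at least `s`. -/
noncomputable def U (s : ℝ) : Finset ι := univ.filter fun u => P.x u = 0 ∧ s ≤ P.w u

open Classical in
/-- Equations of degree at least `s`. -/
noncomputable def T (s : ℝ) : Finset κ := univ.filter fun j => s ≤ P.d j

/-- The supply predicate. -/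
def Sup (s E : ℝ) : Prop := E * ∏ u ∈ P.U s, (P.w u : ℝ) ≤ ∏ j ∈ P.T s, (P.d j : ℝ)

lemma mono (s E E' : ℝ) (h : P.Sup s E) (h' : E' ≤ E) : P.Sup s E' :=
  le_trans (mul_le_mul_of_nonneg_right h' (Finset.prod_nonneg fun _ _ => Nat.cast_nonneg _)) h

lemma vanish (s : ℝ) (j : κ) (hj : j ∉ P.T s) (y : ι → ℂ)
    (hy : ∀ i, y i ≠ 0 → P.x i = 0 → i ∈ P.U s)
    (h : ∀ g g' : α → ℕ, ∑ l, P.a l * g l = P.d j → ∑ l, P.a l * g' l = P.d j →
      (∏ l, y (P.e l) ^ g l) * ∏ l, P.x (P.e l) ^ g' l =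
        (∏ l, y (P.e l) ^ g' l) * ∏ l, P.x (P.e l) ^ g l) :
    eval y (P.f j) = 0 := by
  have hds : (P.d j : ℝ) < s := by simpa [T] using hj
  obtain ⟨c, hc⟩ : ∃ c : ℂ, ∀ g : α → ℕ, ∑ l, P.a l * g l = P.d j →
      ∏ l, y (P.e l) ^ g l = c * ∏ l, P.x (P.e l) ^ g l := by
    by_cases h0 : ∃ g : α → ℕ, ∑ l, P.a l * g l = P.d j
    · obtain ⟨g0, hg0⟩ := h0
      have hne : ∏ l, P.x (P.e l) ^ g0 l ≠ 0 :=
        Finset.prod_ne_zero_iff.2 fun l _ => pow_ne_zero _ (P.xe l)
      refine ⟨(∏ l, y (P.e l) ^ g0 l) / ∏ l, P.x (P.e l) ^ g0 l, fun g hg => ?_⟩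
      rw [div_mul_eq_mul_div, eq_div_iff hne]
      exact h g g0 hg hg0
    · exact ⟨0, fun g hg => absurd ⟨g, hg⟩ h0⟩
  have key : eval y (P.f j) = c * eval P.x (P.f j) := by
    rw [eval_eq', eval_eq', Finset.mul_sum]
    refine Finset.sum_congr rfl fun γ hγ => ?_
    have hwt := P.hf j (mem_support_iff.1 hγ)
    rw [weight_eq] at hwt
    by_cases h1 : ∀ i, γ i ≠ 0 → P.x i ≠ 0
    · have off : ∀ i, i ∉ Set.range P.e → γ i = 0 := fun i hi => by
        by_contra h2
        exact hi ((P.supp i).1 (h1 i h2))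
      have e1 : ∑ l, P.a l * γ (P.e l) = P.d j := by
        rw [← hwt]
        exact Fintype.sum_of_injective P.e P.inj _ _ (fun i hi => by simp [off i hi]) fun _ => rfl
      have e2 : ∀ z : ι → ℂ, ∏ l, z (P.e l) ^ γ (P.e l) = ∏ i, z i ^ γ i := fun z =>
        Fintype.prod_of_injective P.e P.inj _ _ (fun i hi => by simp [off i hi]) fun _ => rfl
      rw [← e2, ← e2, hc _ e1]; ring
    · push Not at h1
      obtain ⟨i, hi, hxi⟩ := h1
      have hyi : y i = 0 := by
        by_contra h2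
        have h3 : s ≤ P.w i := by
          have := hy i h2 hxi
          simp only [U, Finset.mem_filter] at this
          exact this.2.2
        have h4 := Finset.single_le_sum (f := fun i => P.w i * γ i) (fun _ _ => Nat.zero_le _)
          (Finset.mem_univ i)
        have h5 : P.w i ≤ P.w i * γ i := Nat.le_mul_of_pos_right _ (Nat.pos_of_ne_zero hi)
        have h6 : (P.w i : ℝ) ≤ P.d j := by exact_mod_cast h5.trans (h4.trans hwt.le)
        linarith
      rw [Finset.prod_eq_zero (Finset.mem_univ i) (by rw [hyi, zero_pow hi]),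
        Finset.prod_eq_zero (Finset.mem_univ i) (by rw [hxi, zero_pow hi])]
      simp
  rw [key, P.hx, mul_zero]

lemma short (s : ℝ) (j : κ) (hj : j ∉ P.T s) (g g' : α → ℕ) (h1 : ∑ l, P.a l * g l = P.d j)
    (h2 : ∑ l, P.a l * g' l = P.d j) :
    dg P.a (fun l => (g l : ℤ) - g' l) = 0 ∧ (nrm P.a (fun l => (g l : ℤ) - g' l) : ℝ) < 2 * s := by
  have hds : (P.d j : ℝ) < s := by simpa [T] using hj
  have e1 : ∑ l, (P.a l : ℤ) * g l = P.d j := by exact_mod_cast h1
  have e2 : ∑ l, (P.a l : ℤ) * g' l = P.d j := by exact_mod_cast h2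
  constructor
  · simp only [dg, mul_sub, Finset.sum_sub_distrib, e1, e2, sub_self]
  · have : nrm P.a (fun l => (g l : ℤ) - g' l) ≤ 2 * P.d j := by
      rw [two_mul]
      nth_rewrite 1 [← e1]
      rw [← e2, ← Finset.sum_add_distrib]
      refine Finset.sum_le_sum fun l _ => ?_
      rw [← mul_add]
      refine mul_le_mul_of_nonneg_left ?_ (Nat.cast_nonneg _)
      beta_reduce
      rw [abs_le]; constructor <;> omega
    have h3 : (nrm P.a (fun l => (g l : ℤ) - g' l) : ℝ) ≤ 2 * P.d j := by exact_mod_cast this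
    linarith

lemma prod_B (s : ℝ) (K : Finset α) :
    ∏ i ∈ K.map ⟨P.e, P.inj⟩ ∪ P.U s, P.w i = (∏ l ∈ K, P.a l) * ∏ u ∈ P.U s, P.w u := by
  rw [Finset.prod_union, Finset.prod_map]
  · rfl
  · rw [Finset.disjoint_left]
    intro i hi hu
    obtain ⟨l, -, rfl⟩ := Finset.mem_map.1 hi
    simp only [U, Finset.mem_filter] at hu
    exact P.xe l hu.2.1

lemma mem_B (s : ℝ) (K : Finset α) (i : ι) (h : i ∈ K.map ⟨P.e, P.inj⟩ ∪ P.U s) (hx : P.x i = 0) :
    i ∈ P.U s := by
  rcases Finset.mem_union.1 h with h | h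
  · obtain ⟨l, -, rfl⟩ := Finset.mem_map.1 h
    exact absurd hx (P.xe l)
  · exact h

lemma sup_of_dvd (s : ℝ) (E : ℕ) (h : E * ∏ u ∈ P.U s, P.w u ∣ ∏ j ∈ P.T s, P.d j) : P.Sup s E := by
  have := Nat.le_of_dvd (Finset.prod_pos fun j _ => P.hd j) h
  unfold Sup
  exact_mod_cast this

lemma zero_of_all (p : ℕ) (hp : p.Prime) (y : ι → ℂ) (hy : ∀ i, y i ≠ 0 → p ∣ P.w i)
    (h : ∀ j, eval y (P.f j) = 0) : y = 0 := by
  by_contra h0
  obtain ⟨i, h1, h2⟩ := P.free y h0 h p hp
  exact h2 (hy i h1)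

lemma S_gen (s : ℝ) (K : Finset α)
    (h : ∀ p : ℕ, p.Prime → ∀ y : ι → ℂ, (∀ l, y (P.e l) ≠ 0 → l ∈ K ∧ p ∣ P.a l) →
      ∀ j ∉ P.T s, ∀ g g' : α → ℕ, ∑ l, P.a l * g l = P.d j → ∑ l, P.a l * g' l = P.d j →
      (∏ l, y (P.e l) ^ g l) * ∏ l, P.x (P.e l) ^ g' l =
        (∏ l, y (P.e l) ^ g' l) * ∏ l, P.x (P.e l) ^ g l) : P.Sup s (∏ l ∈ K, (P.a l : ℝ)) := by
  have := supply (K.map ⟨P.e, P.inj⟩ ∪ P.U s) (P.T s) P.w P.d P.f (fun i _ => P.hw i)
    (fun j _ => P.hd j) (fun j _ ζ y _ => eval_scale _ _ _ (P.hf j) ζ y) (fun p hp y hy hT =>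
      P.zero_of_all p hp y (fun i hi => (hy i hi).2) fun j => by
        by_cases hj : j ∈ P.T s
        · exact hT j hj
        · refine P.vanish s j hj y (fun i hi hx => P.mem_B s K i (hy i hi).1 hx)
            (h p hp y (fun l hl => ⟨?_, (hy _ hl).2⟩) j hj)
          rcases Finset.mem_union.1 (hy _ hl).1 with h1 | h1
          · obtain ⟨l', h2, h3⟩ := Finset.mem_map.1 h1
            rwa [← P.inj h3]
          · simp only [U, Finset.mem_filter] at h1
            exact absurd h1.2.1 (P.xe l))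
  rw [P.prod_B] at this
  exact_mod_cast P.sup_of_dvd s _ this

lemma S0 (s : ℝ) (h : ∀ v, dg P.a v = 0 → (nrm P.a v : ℝ) < 2 * s → v = 0) :
    P.Sup s (∏ l, (P.a l : ℝ)) := by
  refine P.S_gen s univ fun p _ y _ j hj g g' h1 h2 => ?_
  obtain ⟨e1, e2⟩ := P.short s j hj g g' h1 h2
  have : g = g' := funext fun l => by
    have := congrFun (h _ e1 e2) l
    simp only [Pi.zero_apply] at this
    omega
  rw [this]

lemma S3 (s : ℝ) : P.Sup s 1 := by
  have := P.S_gen s ∅ fun p _ y hy j hj g g' h1 h2 => by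
    have z : ∀ g : α → ℕ, ∑ l, P.a l * g l = P.d j → ∏ l, y (P.e l) ^ g l = 0 := by
      intro g hg
      obtain ⟨l, -, hl⟩ := Finset.exists_ne_zero_of_sum_ne_zero (hg.trans_ne (P.hd j).ne')
      refine Finset.prod_eq_zero (Finset.mem_univ l) ?_
      have : y (P.e l) = 0 := by
        by_contra h3
        simpa using (hy l h3).1
      rw [this, zero_pow (right_ne_zero_of_mul hl)]
    rw [z g h1, z g' h2, zero_mul, zero_mul]
  simpa using this

lemma S4 (hco : ∀ i j, i ≠ j → (P.a i).Coprime (P.a j)) (s : ℝ) (K : Finset α)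
    (h : ∀ i ∈ K, ∀ (c : ℕ) (γ : α → ℕ), ∑ l, P.a l * γ l = P.a i * c →
      ((P.a i * c : ℕ) : ℝ) < s → γ = Pi.single i c) : P.Sup s (∏ i ∈ K, (P.a i : ℝ)) := by
  refine P.S_gen s K fun p hp y hy j hj g g' h1 h2 => ?_
  have hds : (P.d j : ℝ) < s := by simpa [T] using hj
  have z : ∀ g g' : α → ℕ, ∑ l, P.a l * g l = P.d j → ∑ l, P.a l * g' l = P.d j →
      ∏ l, y (P.e l) ^ g l ≠ 0 → g = g' := by
    intro g g' hg hg' hne
    obtain ⟨l, -, hl⟩ := Finset.exists_ne_zero_of_sum_ne_zero (hg.trans_ne (P.hd j).ne')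
    have hy' : ∀ l, g l ≠ 0 → y (P.e l) ≠ 0 := fun l hl h3 =>
      hne (Finset.prod_eq_zero (Finset.mem_univ l) (by rw [h3, zero_pow hl]))
    have h3 := hy l (hy' l (right_ne_zero_of_mul hl))
    have h4 : g = Pi.single l (g l) := by
      funext k
      by_cases hk : k = l
      · subst hk; simp
      · by_contra h5
        rw [Pi.single_eq_of_ne hk] at h5
        have h6 := hy k (hy' k h5)
        exact hp.one_lt.ne' (Nat.eq_one_of_dvd_coprimes (hco k l hk) h6.2 h3.2)
    have h5 : P.a l * g l = P.d j := by rw [← hg, h4, sum_single]; simp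
    rw [h4]
    exact (h l h3.1 (g l) g' (hg'.trans h5.symm) (by rw [h5]; exact hds)).symm
  by_cases a1 : ∏ l, y (P.e l) ^ g l = 0
  · by_cases a2 : ∏ l, y (P.e l) ^ g' l = 0
    · rw [a1, a2, zero_mul, zero_mul]
    · rw [z g' g h2 h1 a2]
  · rw [z g g' h1 h2 a1]

lemma S1 (s : ℝ) (v : α → ℤ) (hv0 : dg P.a v = 0) (hv : v ≠ 0)
    (h : ∀ z, dg P.a z = 0 → (nrm P.a z : ℝ) < 2 * s → ∃ k : ℤ, z = k • v) :
    P.Sup s (2 * (∏ l, (P.a l : ℝ)) / nrm P.a v) := by
  classical
  set τ : ℕ := ∑ l, P.a l * (-v l).toNat with hτ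
  have hτ1 : (2 : ℤ) * τ = nrm P.a v := by
    rw [← sum_neg_part P.a hv0, hτ]
    push_cast
    simp only [Int.ofNat_toNat]
  have hτ2 : ∑ l, P.a l * (v l).toNat = τ := by
    have : ((∑ l, P.a l * (v l).toNat : ℕ) : ℤ) = τ + dg P.a v := by
      rw [hτ, dg]; push_cast
      rw [← Finset.sum_add_distrib]
      exact Finset.sum_congr rfl fun l _ => by rw [← mul_add]; congr 1; omega
    rw [hv0, add_zero] at this
    exact_mod_cast this
  have hτ0 : 0 < τ := by have := nrm_pos P.a P.ha hv; omega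
  set b : MvPolynomial ι ℂ := C (∏ l, P.x (P.e l) ^ (-v l).toNat) * ∏ l, X (P.e l) ^ (v l).toNat -
    C (∏ l, P.x (P.e l) ^ (v l).toNat) * ∏ l, X (P.e l) ^ (-v l).toNat with hb
  have hbe : ∀ y : ι → ℂ, eval y b =
      (∏ l, P.x (P.e l) ^ (-v l).toNat) * ∏ l, y (P.e l) ^ (v l).toNat -
      (∏ l, P.x (P.e l) ^ (v l).toNat) * ∏ l, y (P.e l) ^ (-v l).toNat := by
    intro y
    simp only [hb, map_sub, map_mul, eval_C, map_prod, map_pow, eval_X]
  have := supply ((univ : Finset α).map ⟨P.e, P.inj⟩ ∪ P.U s) (Finset.insertNone (P.T s)) P.w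
    (fun o => o.elim τ P.d) (fun o => o.elim b P.f) (fun i _ => P.hw i)
    (fun o _ => by cases o; exacts [hτ0, P.hd _])
    (fun o _ ζ y _ => by
      cases o with
      | none =>
        simp only [Option.elim_none, hbe, mul_pow, ← pow_mul, Finset.prod_mul_distrib,
          Finset.prod_pow_eq_pow_sum]
        have e1 : ∑ l, P.w (P.e l) * (v l).toNat = τ := hτ2
        have e2 : ∑ l, P.w (P.e l) * (-v l).toNat = τ := hτ.symm
        rw [e1, e2]; ring
      | some j => exact eval_scale _ _ _ (P.hf j) ζ y)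
    (fun p hp y hy hT => P.zero_of_all p hp y (fun i hi => (hy i hi).2) fun j => by
      by_cases hj : j ∈ P.T s
      · exact hT (some j) (by simpa using hj)
      · refine P.vanish s j hj y (fun i hi hx => P.mem_B s univ i (hy i hi).1 hx) ?_
        have hR := hT none (by simp)
        simp only [Option.elim_none, hbe] at hR
        have aux : ∀ (g g' : α → ℕ) (k : ℕ), (∀ l, (g l : ℤ) - g' l = k * v l) →
            (∏ l, y (P.e l) ^ g l) * ∏ l, P.x (P.e l) ^ g' l =
              (∏ l, y (P.e l) ^ g' l) * ∏ l, P.x (P.e l) ^ g l := by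
          intro g g' k hk
          obtain ⟨g0, a1, a2⟩ : ∃ g0 : α → ℕ, (∀ l, g l = g0 l + (v l).toNat * k) ∧
              ∀ l, g' l = g0 l + (-v l).toNat * k := by
            refine ⟨fun l => min (g l) (g' l), fun l => ?_, fun l => ?_⟩
            · have h1 := hk l
              beta_reduce
              rcases le_total 0 (v l) with h2 | h2
              · have : (((v l).toNat * k : ℕ) : ℤ) = k * v l := by
                  push_cast; rw [Int.toNat_of_nonneg h2]; ring
                omega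
              · have := mul_nonpos_of_nonneg_of_nonpos (Nat.cast_nonneg (α := ℤ) k) h2
                rw [Int.toNat_of_nonpos h2]; omega
            · have h1 := hk l
              beta_reduce
              rcases le_total 0 (v l) with h2 | h2
              · have := mul_nonneg (Nat.cast_nonneg (α := ℤ) k) h2
                rw [Int.toNat_of_nonpos (by omega)]; omega
              · have : (((-v l).toNat * k : ℕ) : ℤ) = -(k * v l) := by
                  push_cast; rw [Int.toNat_of_nonneg (by omega)]; ring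
                omega
          simp only [a1, a2, pow_add, pow_mul, Finset.prod_mul_distrib, Finset.prod_pow]
          have hR' := congrArg (· ^ k) (sub_eq_zero.1 hR)
          simp only [mul_pow] at hR'
          linear_combination ((∏ l, y (P.e l) ^ g0 l) * ∏ l, P.x (P.e l) ^ g0 l) * hR'
        intro g g' h1 h2
        obtain ⟨e1, e2⟩ := P.short s j hj g g' h1 h2
        obtain ⟨k, hk⟩ := h _ e1 e2
        rcases le_total 0 k with h3 | h3
        · refine aux g g' k.toNat fun l => ?_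
          rw [Int.toNat_of_nonneg h3]
          simpa using congrFun hk l
        · refine (aux g' g (-k).toNat fun l => ?_).symm
          rw [Int.toNat_of_nonneg (by omega)]
          have := congrFun hk l
          simp only [Pi.smul_apply, smul_eq_mul] at this
          linarith)
  rw [P.prod_B, Finset.prod_insertNone] at this
  have h1 := Nat.le_of_dvd (Nat.mul_pos hτ0 (Finset.prod_pos fun j _ => P.hd j)) this
  have h2 : (∏ l, (P.a l : ℝ)) * ∏ u ∈ P.U s, (P.w u : ℝ) ≤ τ * ∏ j ∈ P.T s, (P.d j : ℝ) := by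
    exact_mod_cast h1
  have h3 : (nrm P.a v : ℝ) = 2 * τ := by exact_mod_cast hτ1.symm
  have h4 : (0 : ℝ) < τ := by exact_mod_cast hτ0
  unfold Sup
  rw [h3, mul_div_mul_left _ _ two_ne_zero, div_mul_eq_mul_div, div_le_iff₀ h4]
  linarith

lemma S2half (s : ℝ) (φ : α → ℤ) (i : α)
    (h : ∀ z, dg P.a z = 0 → (nrm P.a z : ℝ) < 2 * s → ∑ l, φ l * z l = 0)
    (hi : ∀ l, (φ l : ℚ) / P.a l ≤ φ i / P.a i) :
    ((φ i : ℚ) / P.a i).den * ∏ u ∈ P.U s, P.w u ∣ ∏ j ∈ P.T s, P.d j := by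
  classical
  set r : ℚ := (φ i : ℚ) / P.a i with hr
  set q := r.den with hq
  have hq0 : 0 < q := r.den_pos
  have haq : ∀ l, (0 : ℚ) < P.a l := fun l => by exact_mod_cast P.ha l
  have hqd : ∀ l, (φ l : ℚ) / P.a l = r → q ∣ P.a l := fun l hl => by
    have := Rat.den_dvd (φ l) (P.a l)
    rw [Rat.divInt_eq_div, Int.cast_natCast, hl] at this
    exact_mod_cast this
  let σ : ι → MvPolynomial ι ℂ := fun u => if P.x u = 0 then X u else
    if ∃ l, P.e l = u ∧ (φ l : ℚ) / P.a l = r then C (P.x u) * X (P.e i) ^ (P.w u / q) else 0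
  let Φ : (ι → ℂ) → ι → ℂ := fun y u => eval y (σ u)
  have hΦ : ∀ y j, eval y (aeval σ (P.f j)) = eval (Φ y) (P.f j) := by
    intro y j
    have : (eval y).comp (aeval (R := ℂ) σ).toRingHom = eval (Φ y) := by
      ext1
      · ext; simp
      · simp [Φ]
    exact DFunLike.congr_fun this (P.f j)
  have Φ0 : ∀ y u, P.x u = 0 → Φ y u = y u := fun y u hu => by simp [Φ, σ, hu]
  have Φ1 : ∀ y l, (φ l : ℚ) / P.a l = r → Φ y (P.e l) = P.x (P.e l) * y (P.e i) ^ (P.a l / q) := by
    intro y l hl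
    have : ∃ l', P.e l' = P.e l ∧ (φ l' : ℚ) / P.a l' = r := ⟨l, rfl, hl⟩
    simp only [Φ, σ, if_neg (P.xe l), if_pos this, map_mul, eval_C, map_pow, eval_X]
    rfl
  have Φ2 : ∀ y l, (φ l : ℚ) / P.a l ≠ r → Φ y (P.e l) = 0 := by
    intro y l hl
    have : ¬ ∃ l', P.e l' = P.e l ∧ (φ l' : ℚ) / P.a l' = r := by
      rintro ⟨l', h1, h2⟩
      exact hl (P.inj h1 ▸ h2)
    simp only [Φ, σ, if_neg (P.xe l), if_neg this, map_zero]
  have hiU : P.e i ∉ P.U s := fun hu => by
    simp only [U, Finset.mem_filter] at hu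
    exact P.xe i hu.2.1
  have hpos : ∀ l, (φ l : ℚ) / P.a l = r → P.a l / q ≠ 0 := fun l hl =>
    (Nat.div_pos (Nat.le_of_dvd (P.ha l) (hqd l hl)) hq0).ne'
  have := supply (insert (P.e i) (P.U s)) (P.T s) (fun u => if u = P.e i then q else P.w u) P.d
    (fun j => aeval σ (P.f j)) (fun u _ => by split_ifs; exacts [hq0, P.hw u]) (fun j _ => P.hd j)
    (fun j _ ζ y _ => by
      rw [hΦ, hΦ, ← eval_scale _ _ _ (P.hf j)]
      congr 2
      funext u
      by_cases hu : P.x u = 0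
      · rw [Φ0 _ _ hu, Φ0 _ _ hu, if_neg (by rintro rfl; exact P.xe i hu)]
      · obtain ⟨l, rfl⟩ := (P.supp u).1 hu
        by_cases hl : (φ l : ℚ) / P.a l = r
        · rw [Φ1 _ _ hl, Φ1 _ _ hl, if_pos rfl, mul_pow, ← pow_mul, Nat.mul_div_cancel' (hqd l hl)]
          unfold a; ring
        · rw [Φ2 _ _ hl, Φ2 _ _ hl, mul_zero])
    (fun p hp y hy hT => by
      have h0 : Φ y = 0 := P.zero_of_all p hp (Φ y) (fun u hu' => by
          by_cases hu : P.x u = 0
          · rw [Φ0 _ _ hu] at hu'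
            have := (hy u hu').2
            rwa [if_neg (by rintro rfl; exact P.xe i hu)] at this
          · obtain ⟨l, rfl⟩ := (P.supp u).1 hu
            by_cases hl : (φ l : ℚ) / P.a l = r
            · rw [Φ1 _ _ hl] at hu'
              have h1 : y (P.e i) ≠ 0 := fun h2 => hu' (by rw [h2, zero_pow (hpos l hl), mul_zero])
              have := (hy _ h1).2
              rw [if_pos rfl] at this
              exact this.trans (hqd l hl)
            · exact absurd (Φ2 _ _ hl) hu') fun j => by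
        by_cases hj : j ∈ P.T s
        · rw [← hΦ]; exact hT j hj
        refine P.vanish s j hj (Φ y) (fun u hu hx => ?_) ?_
        · rw [Φ0 _ _ hx] at hu
          rcases Finset.mem_insert.1 (hy u hu).1 with h1 | h1
          · exact absurd (h1 ▸ hx) (P.xe i)
          · exact h1
        have def1 : ∀ g : α → ℕ, ∑ l, P.a l * g l = P.d j →
            ∑ l, (g l : ℚ) * P.a l * (r - φ l / P.a l) = r * P.d j - ∑ l, (φ l : ℚ) * g l := by
          intro g hg
          have : (P.d j : ℚ) = ∑ l, (P.a l : ℚ) * g l := by exact_mod_cast hg.symm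
          rw [this, Finset.mul_sum, ← Finset.sum_sub_distrib]
          refine Finset.sum_congr rfl fun l _ => ?_
          have := (haq l).ne'
          field_simp
        have face : ∀ g g' : α → ℕ, ∑ l, P.a l * g l = P.d j → ∑ l, P.a l * g' l = P.d j →
            (∀ l, g l ≠ 0 → (φ l : ℚ) / P.a l = r) → ∀ l, g' l ≠ 0 → (φ l : ℚ) / P.a l = r := by
          intro g g' h1 h2 h3 l hl
          obtain ⟨e1, e2⟩ := P.short s j hj g g' h1 h2
          have e3 := h _ e1 e2
          have e4 : ∑ l, (φ l : ℚ) * g l = ∑ l, (φ l : ℚ) * g' l := by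
            simp only [mul_sub, Finset.sum_sub_distrib] at e3
            exact_mod_cast sub_eq_zero.1 e3
          have e5 : ∑ l, (g' l : ℚ) * P.a l * (r - φ l / P.a l) = 0 := by
            rw [def1 g' h2, ← e4, ← def1 g h1]
            refine Finset.sum_eq_zero fun l _ => ?_
            by_cases h4 : g l = 0
            · simp [h4]
            · rw [h3 l h4]; simp
          have e6 := (Finset.sum_eq_zero_iff_of_nonneg fun l _ =>
            mul_nonneg (mul_nonneg (Nat.cast_nonneg _) (haq l).le) (sub_nonneg.2 (hi l))).1 e5 l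
            (Finset.mem_univ l)
          have e7 : (g' l : ℚ) * P.a l ≠ 0 := mul_ne_zero (by exact_mod_cast hl) (haq l).ne'
          exact (sub_eq_zero.1 ((mul_eq_zero.1 e6).resolve_left e7)).symm
        have val1 : ∀ g : α → ℕ, ∑ l, P.a l * g l = P.d j → (∀ l, g l ≠ 0 → (φ l : ℚ) / P.a l = r) →
            ∏ l, Φ y (P.e l) ^ g l = (∏ l, P.x (P.e l) ^ g l) * y (P.e i) ^ (P.d j / q) := by
          intro g hg h3
          have e1 : P.d j / q = ∑ l, P.a l / q * g l := by
            apply Nat.div_eq_of_eq_mul_right hq0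
            rw [← hg, Finset.mul_sum]
            refine Finset.sum_congr rfl fun l _ => ?_
            by_cases h4 : g l = 0
            · simp [h4]
            · rw [← mul_assoc, Nat.mul_div_cancel' (hqd l (h3 l h4))]
          rw [e1, ← Finset.prod_pow_eq_pow_sum, ← Finset.prod_mul_distrib]
          refine Finset.prod_congr rfl fun l _ => ?_
          by_cases h4 : g l = 0
          · simp [h4]
          · rw [Φ1 _ _ (h3 l h4), mul_pow, ← pow_mul]
        have val0 : ∀ g : α → ℕ, ¬ (∀ l, g l ≠ 0 → (φ l : ℚ) / P.a l = r) →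
            ∏ l, Φ y (P.e l) ^ g l = 0 := by
          intro g hg
          push Not at hg
          obtain ⟨l, h1, h2⟩ := hg
          exact Finset.prod_eq_zero (Finset.mem_univ l) (by rw [Φ2 _ _ h2, zero_pow h1])
        intro g g' h1 h2
        by_cases h3 : ∀ l, g l ≠ 0 → (φ l : ℚ) / P.a l = r
        · rw [val1 g h1 h3, val1 g' h2 (face g g' h1 h2 h3)]; ring
        · rw [val0 g h3, val0 g' fun h4 => h3 (face g' g h2 h1 h4), zero_mul, zero_mul]
      funext u
      by_contra hu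
      rcases Finset.mem_insert.1 (hy u hu).1 with h1 | h1
      · have := congrFun h0 (P.e i)
        rw [Φ1 _ _ rfl] at this
        exact mul_ne_zero (P.xe i) (pow_ne_zero _ (h1 ▸ hu)) this
      · simp only [U, Finset.mem_filter] at h1
        have := congrFun h0 u
        rw [Φ0 _ _ h1.2.1] at this
        exact hu this)
  rw [Finset.prod_insert hiU, if_pos rfl, Finset.prod_congr rfl fun u hu =>
    if_neg (fun h1 : u = P.e i => hiU (h1 ▸ hu))] at this
  exact this

lemma S2 (s : ℝ) (φ : α → ℤ) (i j : α)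
    (h : ∀ z, dg P.a z = 0 → (nrm P.a z : ℝ) < 2 * s → ∑ l, φ l * z l = 0)
    (hi : ∀ l, (φ l : ℝ) / P.a l ≤ φ i / P.a i) (hj : ∀ l, (φ j : ℝ) / P.a j ≤ φ l / P.a l)
    (hij : (φ j : ℝ) / P.a j < φ i / P.a i) :
    P.Sup s (1 / ((φ i : ℝ) / P.a i - φ j / P.a j)) := by
  have h1 := P.S2half s φ i h fun l => by exact_mod_cast hi l
  have h2 := P.S2half s (fun l => -φ l) j (fun z a b => by
    simp only [neg_mul, Finset.sum_neg_distrib, h z a b, neg_zero]) fun l => by
      have : (φ j : ℚ) / P.a j ≤ φ l / P.a l := by exact_mod_cast hj l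
      push_cast
      rw [neg_div, neg_div]; linarith
  have e : (((-φ j : ℤ) : ℚ) / P.a j).den = ((φ j : ℚ) / P.a j).den := by
    push_cast; rw [neg_div, Rat.neg_den]
  rw [e] at h2
  set r1 : ℚ := (φ i : ℚ) / P.a i with hr1
  set r2 : ℚ := (φ j : ℚ) / P.a j with hr2
  have h3 := Nat.lcm_dvd h1 h2
  rw [Nat.lcm_mul_right] at h3
  refine P.mono s _ _ (P.sup_of_dvd s _ h3) ?_
  have h4 : (φ i : ℝ) / P.a i - φ j / P.a j = ((r1 - r2 : ℚ) : ℝ) := by
    rw [hr1, hr2]; push_cast; ring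
  have h5 : 0 < r1 - r2 := by
    have : (0 : ℝ) < ((r1 - r2 : ℚ) : ℝ) := by rw [← h4]; linarith
    exact_mod_cast this
  obtain ⟨k1, hk1⟩ := Nat.dvd_lcm_left r1.den r2.den
  obtain ⟨k2, hk2⟩ := Nat.dvd_lcm_right r1.den r2.den
  have h6 : (Nat.lcm r1.den r2.den : ℚ) * (r1 - r2) = ((k1 * r1.num - k2 * r2.num : ℤ) : ℚ) := by
    rw [mul_sub]
    nth_rewrite 1 [hk1]
    rw [hk2]
    push_cast
    rw [← Rat.mul_den_eq_num r1, ← Rat.mul_den_eq_num r2]; ring
  have h7 : (0 : ℚ) < Nat.lcm r1.den r2.den := by exact_mod_cast Nat.lcm_pos r1.den_pos r2.den_pos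
  have h8 : (1 : ℚ) ≤ (Nat.lcm r1.den r2.den : ℚ) * (r1 - r2) := by
    have := mul_pos h7 h5
    rw [h6] at this ⊢
    have h9 : 0 < k1 * r1.num - k2 * r2.num := by exact_mod_cast this
    exact_mod_cast h9
  rw [h4, div_le_iff₀ (by exact_mod_cast h5)]
  exact_mod_cast h8

end Setup

end Pool.Agent.Lib.MP_9ff3e7_ag
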