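import Mathlib

namespace Pool.Agent.Lib.MP_9ff3e7_ag

open Finset

lemma side (C : ℝ → ℝ → Prop) (p y0 h0 : ℝ)
    (conv : ∀ y h y' h' θ, C y h → C y' h' → 0 ≤ θ → θ ≤ 1 →
      C ((1 - θ) * y + θ * y') ((1 - θ) * h + θ * h'))
    (hp : ∀ h, C p h → h ≤ 1) (hC0 : C y0 h0) (hh0 : 1 < h0) (hy0 : p < y0) :
    ∃ κ, 0 ≤ κ ∧ ∀ y h, C y h → κ * (h - 1) ≤ y - p := by
  have cross : ∀ y h y' h', C y h → C y' h' → y ≤ p → p < y' →
      (y' - p) * (h - 1) + (p - y) * (h' - 1) ≤ 0 := by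
    intro y h y' h' h1 h2 h3 h4
    have hd : 0 < y' - y := by linarith
    have h5 := conv y h y' h' ((p - y) / (y' - y)) h1 h2 (div_nonneg (by linarith) hd.le)
      ((div_le_one hd).2 (by linarith))
    have e : (1 - (p - y) / (y' - y)) * y + (p - y) / (y' - y) * y' = p := by field_simp; ring
    rw [e] at h5
    have h6 := mul_le_mul_of_nonneg_left (hp _ h5) hd.le
    have e2 : (y' - y) * ((1 - (p - y) / (y' - y)) * h + (p - y) / (y' - y) * h') =
        (y' - p) * h + (p - y) * h' := by field_simp; ring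
    rw [e2] at h6
    nlinarith
  have right : ∀ y h, C y h → 1 < h → p < y := by
    intro y h h1 h2
    by_contra h3
    push Not at h3
    have := cross y h y0 h0 h1 hC0 h3 hy0
    have h4 : 0 < (y0 - p) * (h - 1) := mul_pos (by linarith) (by linarith)
    have h5 : 0 ≤ (p - y) * (h0 - 1) := mul_nonneg (by linarith) (by linarith)
    linarith
  set S : Set ℝ := {r | ∃ y h, C y h ∧ 1 < h ∧ r = (y - p) / (h - 1)} with hS
  have hne : S.Nonempty := ⟨_, y0, h0, hC0, hh0, rfl⟩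
  have hlb : ∀ r ∈ S, 0 ≤ r := by
    rintro r ⟨y, h, h1, h2, rfl⟩
    exact div_nonneg (by have := right y h h1 h2; linarith) (by linarith)
  have hκ : 0 ≤ sInf S := le_csInf hne hlb
  refine ⟨sInf S, hκ, fun y h h1 => ?_⟩
  by_cases h2 : 1 < h
  · have := csInf_le ⟨0, hlb⟩ (show (y - p) / (h - 1) ∈ S from ⟨y, h, h1, h2, rfl⟩)
    rwa [le_div_iff₀ (by linarith)] at this
  push Not at h2
  by_cases h3 : p ≤ y
  · nlinarith
  push Not at h3
  rcases h2.eq_or_lt with h4 | h4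
  · have := cross y h y0 h0 h1 hC0 h3.le hy0
    have h5 : 0 < (p - y) * (h0 - 1) := mul_pos (by linarith) (by linarith)
    rw [h4] at this
    linarith
  · have : (p - y) / (1 - h) ≤ sInf S := by
      refine le_csInf hne ?_
      rintro r ⟨y', h', h5, h6, rfl⟩
      have := cross y h y' h' h1 h5 h3.le (right y' h' h5 h6)
      rw [div_le_div_iff₀ (by linarith) (by linarith)]
      linarith
    rw [div_le_iff₀ (by linarith)] at this
    linarith

lemma tent (C : ℝ → ℝ → Prop) (z : ℝ)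
    (conv : ∀ y h y' h' θ, C y h → C y' h' → 0 ≤ θ → θ ≤ 1 →
      C ((1 - θ) * y + θ * y') ((1 - θ) * h + θ * h'))
    (hno : ∀ (n : ℤ) h, C (z + n) h → h ≤ 1) :
    (∀ y h, C y h → h ≤ 1) ∨ ∃ p κ1 κ2, 0 ≤ κ1 ∧ 0 ≤ κ2 ∧
      ∀ y h, C y h → κ1 * (h - 1) ≤ y - p ∧ κ2 * (h - 1) ≤ p + 1 - y := by
  by_cases h0 : ∀ y h, C y h → h ≤ 1
  · exact Or.inl h0
  right
  push Not at h0
  obtain ⟨y0, h0, hC0, hh0⟩ := h0
  have h1 := Int.floor_le (y0 - z)
  have h2 := Int.lt_floor_add_one (y0 - z)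
  set n := ⌊y0 - z⌋
  have h3 : z + n < y0 := by
    rcases (show z + n ≤ y0 by linarith).eq_or_lt with h | h
    · have := hno n h0 (h ▸ hC0)
      linarith
    · exact h
  obtain ⟨κ1, hκ1, H1⟩ := side C (z + n) y0 h0 conv (hno n) hC0 hh0 h3
  obtain ⟨κ2, hκ2, H2⟩ := side (fun y h => C (-y) h) (-(z + n + 1)) (-y0) h0
    (fun y h y' h' θ a b c d => by
      have := conv _ _ _ _ θ a b c d
      have e : (1 - θ) * -y + θ * -y' = -((1 - θ) * y + θ * y') := by ring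
      rwa [e] at this)
    (fun h hh => hno (n + 1) h (by
      have e : - -(z + n + 1) = z + ((n + 1 : ℤ) : ℝ) := by push_cast; ring
      rwa [e] at hh)) (by simpa using hC0) hh0 (by linarith)
  refine ⟨z + n, κ1, κ2, hκ1, hκ2, fun y h hC => ⟨H1 y h hC, ?_⟩⟩
  have := H2 (-y) h (by simpa using hC)
  linarith

lemma spread (P : ℝ → Prop) (u v w : ℝ) (h1 : P (u - v)) (h2 : P (v - u)) (h3 : P (u - w))
    (h4 : P (w - u)) (h5 : P (v - w)) (h6 : P (w - v)) :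
    ∃ c, 0 ≤ c ∧ P c ∧ |u - v| + |u - w| + |v - w| ≤ 2 * c := by
  rcases le_total u v with a | a <;> rcases le_total u w with b | b <;> rcases le_total v w with c | c
  · exact ⟨_, by linarith, h4, by rw [abs_of_nonpos, abs_of_nonpos, abs_of_nonpos] <;> linarith⟩
  · exact ⟨_, by linarith, h2, by rw [abs_of_nonpos, abs_of_nonpos, abs_of_nonneg] <;> linarith⟩
  · exact ⟨_, by linarith, h2, by rw [abs_of_nonpos, abs_of_nonneg, abs_of_nonpos] <;> linarith⟩
  · exact ⟨_, by linarith, h5, by rw [abs_of_nonpos, abs_of_nonneg, abs_of_nonneg] <;> linarith⟩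
  · exact ⟨_, by linarith, h6, by rw [abs_of_nonneg, abs_of_nonpos, abs_of_nonpos] <;> linarith⟩
  · exact ⟨_, by linarith, h1, by rw [abs_of_nonneg, abs_of_nonpos, abs_of_nonneg] <;> linarith⟩
  · exact ⟨_, by linarith, h1, by rw [abs_of_nonneg, abs_of_nonneg, abs_of_nonpos] <;> linarith⟩
  · exact ⟨_, by linarith, h3, by rw [abs_of_nonneg, abs_of_nonneg, abs_of_nonneg] <;> linarith⟩

/-- Twice the signed area of a triangle. -/
def tri {α : Type} (X Y : α → ℝ) (i j k : α) : ℝ :=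
  (X j - X i) * (Y k - Y i) - (X k - X i) * (Y j - Y i)

lemma exists_theta {A B Y : ℝ} (h1 : A ≤ Y) (h2 : Y ≤ B) :
    ∃ θ, 0 ≤ θ ∧ θ ≤ 1 ∧ θ * (B - A) = Y - A := by
  rcases (h1.trans h2).eq_or_lt with h | h
  · exact ⟨0, le_rfl, zero_le_one, by linarith⟩
  · have : 0 < B - A := by linarith
    exact ⟨(Y - A) / (B - A), div_nonneg (by linarith) this.le, (div_le_one this).2 (by linarith),
      by field_simp⟩

/-- The area of the hull of four points against a tent over the chords. -/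
lemma area_le {α : Type} (X Y : α → ℝ) (C : ℝ → ℝ → Prop) (p κ1 κ2 : ℝ) (h1 : 0 ≤ κ1) (h2 : 0 ≤ κ2)
    (ok : ∀ y h, C y h → κ1 * (h - 1) ≤ y - p ∧ κ2 * (h - 1) ≤ p + 1 - y)
    (seg : ∀ i j k l θ η, 0 ≤ θ → θ ≤ 1 → 0 ≤ η → η ≤ 1 →
      (1 - θ) * Y i + θ * Y j = (1 - η) * Y k + η * Y l →
      C ((1 - θ) * Y i + θ * Y j) (((1 - θ) * X i + θ * X j) - ((1 - η) * X k + η * X l)))
    (i j k l : α) (hij : Y i ≤ Y j) (hjk : Y j ≤ Y k) (hkl : Y k ≤ Y l) :
    (κ1 + κ2) * (|tri X Y j k l| + |tri X Y i k l| + |tri X Y i j l| + |tri X Y i j k|) ≤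
      2 * (1 + (κ1 + κ2)) ^ 2 := by
  have pt : ∀ m, C (Y m) 0 := fun m => by
    simpa using seg m m m m 0 0 le_rfl zero_le_one le_rfl zero_le_one rfl
  have two : ∀ (y : ℝ) i j θ k l η, 0 ≤ θ → θ ≤ 1 → θ * (Y j - Y i) = y - Y i →
      0 ≤ η → η ≤ 1 → η * (Y l - Y k) = y - Y k →
      C y (((1 - θ) * X i + θ * X j) - ((1 - η) * X k + η * X l)) := by
    intro y i j θ k l η a b c d e f
    have := seg i j k l θ η a b d e (by linarith)
    rwa [show (1 - θ) * Y i + θ * Y j = y by linarith] at this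
  obtain ⟨θ1, a1, b1, c1⟩ := exists_theta hij hjk
  obtain ⟨θ2, a2, b2, c2⟩ := exists_theta hij (hjk.trans hkl)
  obtain ⟨θ3, a3, b3, c3⟩ := exists_theta hjk hkl
  obtain ⟨θ4, a4, b4, c4⟩ := exists_theta (hij.trans hjk) hkl
  have z0 : ∀ m, (0 : ℝ) * (Y m - Y m) = Y m - Y m := fun m => by ring
  obtain ⟨c, hc0, hc, hc'⟩ := spread (C (Y j)) ((1 - 0) * X j + 0 * X j)
    ((1 - θ1) * X i + θ1 * X k) ((1 - θ2) * X i + θ2 * X l)
    (two _ _ _ _ _ _ _ le_rfl zero_le_one (z0 j) a1 b1 c1)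
    (two _ _ _ _ _ _ _ a1 b1 c1 le_rfl zero_le_one (z0 j))
    (two _ _ _ _ _ _ _ le_rfl zero_le_one (z0 j) a2 b2 c2)
    (two _ _ _ _ _ _ _ a2 b2 c2 le_rfl zero_le_one (z0 j))
    (two _ _ _ _ _ _ _ a1 b1 c1 a2 b2 c2) (two _ _ _ _ _ _ _ a2 b2 c2 a1 b1 c1)
  obtain ⟨e, he0, he, he'⟩ := spread (C (Y k)) ((1 - 0) * X k + 0 * X k)
    ((1 - θ3) * X j + θ3 * X l) ((1 - θ4) * X i + θ4 * X l)
    (two _ _ _ _ _ _ _ le_rfl zero_le_one (z0 k) a3 b3 c3)
    (two _ _ _ _ _ _ _ a3 b3 c3 le_rfl zero_le_one (z0 k))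
    (two _ _ _ _ _ _ _ le_rfl zero_le_one (z0 k) a4 b4 c4)
    (two _ _ _ _ _ _ _ a4 b4 c4 le_rfl zero_le_one (z0 k))
    (two _ _ _ _ _ _ _ a3 b3 c3 a4 b4 c4) (two _ _ _ _ _ _ _ a4 b4 c4 a3 b3 c3)
  have hQ : |tri X Y j k l| + |tri X Y i k l| + |tri X Y i j l| + |tri X Y i j k| ≤
      2 * (c * (Y k - Y i) + e * (Y l - Y j)) := by
    rcases ((hij.trans hjk).trans hkl).eq_or_lt with hw | hw
    · have e1 : Y j = Y i := by linarith
      have e2 : Y k = Y i := by linarith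
      have e3 : Y l = Y i := by linarith
      simp [tri, e1, e2, e3]
    have w0 : 0 < Y l - Y i := by linarith
    have m1 : 0 ≤ Y k - Y i := by linarith
    have m2 : 0 ≤ Y l - Y j := by linarith
    have m3 : 0 ≤ Y j - Y i := by linarith
    have m4 : 0 ≤ Y l - Y k := by linarith
    have t1 : |(1 - 0) * X j + 0 * X j - ((1 - θ1) * X i + θ1 * X k)| * (Y k - Y i) =
        |tri X Y i j k| := by
      rw [← abs_of_nonneg m1, ← abs_mul]; congr 1; unfold tri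
      linear_combination (-(X k - X i)) * c1
    have t2 : |(1 - 0) * X j + 0 * X j - ((1 - θ2) * X i + θ2 * X l)| * (Y l - Y i) =
        |tri X Y i j l| := by
      rw [← abs_of_nonneg w0.le, ← abs_mul]; congr 1; unfold tri
      linear_combination (-(X l - X i)) * c2
    have t3 : |(1 - θ1) * X i + θ1 * X k - ((1 - θ2) * X i + θ2 * X l)| * ((Y k - Y i) * (Y l - Y i)) =
        |tri X Y i k l| * (Y j - Y i) := by
      rw [← abs_of_nonneg (mul_nonneg m1 w0.le), ← abs_mul, ← abs_of_nonneg m3, ← abs_mul]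
      congr 1; unfold tri
      linear_combination ((X k - X i) * (Y l - Y i)) * c1 - ((X l - X i) * (Y k - Y i)) * c2
    have t4 : |(1 - 0) * X k + 0 * X k - ((1 - θ3) * X j + θ3 * X l)| * (Y l - Y j) =
        |tri X Y j k l| := by
      rw [← abs_of_nonneg m2, ← abs_mul]; congr 1; unfold tri
      linear_combination (-(X l - X j)) * c3
    have t5 : |(1 - 0) * X k + 0 * X k - ((1 - θ4) * X i + θ4 * X l)| * (Y l - Y i) =
        |tri X Y i k l| := by
      rw [← abs_of_nonneg w0.le, ← abs_mul]; congr 1; unfold tri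
      linear_combination (-(X l - X i)) * c4
    have t6 : |(1 - θ3) * X j + θ3 * X l - ((1 - θ4) * X i + θ4 * X l)| * ((Y l - Y j) * (Y l - Y i)) =
        |tri X Y i j l| * (Y l - Y k) := by
      rw [← abs_of_nonneg (mul_nonneg m2 w0.le), ← abs_mul, ← abs_of_nonneg m4, ← abs_mul]
      congr 1; unfold tri
      linear_combination ((X l - X j) * (Y l - Y i)) * c3 - ((X l - X i) * (Y l - Y j)) * c4
    have u1 := mul_le_mul_of_nonneg_right hc' (mul_nonneg m1 w0.le)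
    have u2 := mul_le_mul_of_nonneg_right he' (mul_nonneg m2 w0.le)
    refine le_of_mul_le_mul_right ?_ w0
    rw [add_mul, add_mul, t3, ← mul_assoc, t1, mul_comm (Y k - Y i), ← mul_assoc, t2] at u1
    rw [add_mul, add_mul, t6, ← mul_assoc, t4, mul_comm (Y l - Y j), ← mul_assoc, t5] at u2
    nlinarith
  obtain ⟨p1, -⟩ := ok _ _ (pt i)
  obtain ⟨-, p2⟩ := ok _ _ (pt l)
  obtain ⟨p3, p4⟩ := ok _ _ hc
  obtain ⟨p5, p6⟩ := ok _ _ he
  have q1 : c * (Y k - Y i) ≤ c * (1 + (κ1 + κ2) - κ2 * e) :=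
    mul_le_mul_of_nonneg_left (by linarith) hc0
  have q2 : e * (Y l - Y j) ≤ e * (1 + (κ1 + κ2) - κ1 * c) :=
    mul_le_mul_of_nonneg_left (by linarith) he0
  have q3 := mul_nonneg (show 0 ≤ 1 + (κ1 + κ2) - (κ1 + κ2) * c by linarith)
    (show 0 ≤ 1 + (κ1 + κ2) - (κ1 + κ2) * e by linarith)
  have q4 := mul_le_mul_of_nonneg_left (hQ.trans (mul_le_mul_of_nonneg_left (add_le_add q1 q2)
    (show (0 : ℝ) ≤ 2 by norm_num))) (add_nonneg h1 h2)
  nlinarith

end Pool.Agent.Lib.MP_9ff3e7_ag
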