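import Mathlib

/-! Torus actions with maximal orbit quotient a projective space: combinatorial set-up. -/

set_option linter.unusedSectionVars false

namespace Pool.Agent.Lib.MP_9ff3e7_ag.Tor

open Finset TensorProduct

structure Dat (c : ℕ) (σ ι K : Type) where
  w : σ → K
  μ : K
  A : K
  l : ι → σ → ℕ
  e : ι → ℕ
  g : ι → MvPolynomial (Fin (c + 1)) ℂ

variable {c : ℕ} {σ ι K : Type} [Fintype σ] [Fintype ι] [DecidableEq σ] [DecidableEq ι]
  [AddCommGroup K]

/-- Rational exponent vectors; `none` stands for the degree in the coordinates of the base. -/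
abbrev V (σ : Type) := Option σ → ℚ

def On (S : Finset (Option σ)) (v : V σ) : Prop := ∀ s, s ∉ S → v s = 0

def cv (α : Option σ → ℤ) : V σ := fun s => α s

noncomputable def iq (K : Type) [AddCommGroup K] : K →ₗ[ℤ] ℚ ⊗[ℤ] K := TensorProduct.mk ℤ ℚ K 1

lemma iq_eq_zero {y : K} (h : iq K y = 0) : ∃ N : ℕ, 0 < N ∧ N • y = 0 := by
  have : IsLocalizedModule (nonZeroDivisors ℤ) (iq K) :=
    (isLocalizedModule_iff_isBaseChange (nonZeroDivisors ℤ) ℚ _).2
      (TensorProduct.isBaseChange ℤ K ℚ)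
  obtain ⟨s, hs⟩ := (IsLocalizedModule.eq_zero_iff (nonZeroDivisors ℤ) (iq K)).1 h
  have h0 : (s : ℤ) ≠ 0 := nonZeroDivisors.coe_ne_zero s
  refine ⟨(s : ℤ).natAbs, Int.natAbs_pos.2 h0, ?_⟩
  have h1 : (s : ℤ) • y = 0 := hs
  rw [← natCast_zsmul]
  rcases Int.natAbs_eq (s : ℤ) with e | e
  · rw [← e, h1]
  · have : (((s : ℤ).natAbs : ℕ) : ℤ) = -(s : ℤ) := by omega
    rw [this, neg_smul, h1, neg_zero]

lemma finrank_iq : Module.finrank ℚ (ℚ ⊗[ℤ] K) = Module.finrank ℤ K := by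
  have : IsLocalizedModule (nonZeroDivisors ℤ) (iq K) :=
    (isLocalizedModule_iff_isBaseChange (nonZeroDivisors ℤ) ℚ _).2
      (TensorProduct.isBaseChange ℤ K ℚ)
  rw [IsLocalization.finrank_eq ℚ (nonZeroDivisors ℤ) le_rfl]
  exact IsLocalizedModule.finrank_eq (nonZeroDivisors ℤ) (iq K) le_rfl

lemma span_iq : Submodule.span ℚ (Set.range (iq K)) = ⊤ := by
  rw [eq_top_iff]
  rintro x -
  induction x using TensorProduct.induction_on with
  | zero => exact Submodule.zero_mem _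
  | tmul q y =>
    have : q ⊗ₜ[ℤ] y = q • iq K y := by
      change _ = q • ((1 : ℚ) ⊗ₜ[ℤ] y)
      rw [TensorProduct.smul_tmul', smul_eq_mul, mul_one]
    rw [this]
    exact Submodule.smul_mem _ _ (Submodule.subset_span ⟨y, rfl⟩)
  | add x y hx hy => exact Submodule.add_mem _ hx hy

lemma clear (v : V σ) : ∃ N : ℕ, 0 < N ∧ ∃ α : Option σ → ℤ, cv α = (N : ℚ) • v := by
  refine ⟨∏ s, (v s).den, Finset.prod_pos fun s _ => (v s).den_pos,
    fun s => (v s).num * ∏ t ∈ univ.erase s, ((v t).den : ℤ), funext fun s => ?_⟩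
  rw [← Finset.mul_prod_erase univ _ (mem_univ s)]
  simp only [cv, Pi.smul_apply, smul_eq_mul]
  push_cast
  rw [← Rat.mul_den_eq_num (v s)]
  ring

namespace Dat

variable (D : Dat c σ ι K)

def W : Option σ → K := fun s => s.elim D.μ D.w

def ρz (i : ι) : Option σ → ℤ := fun s => s.elim (-(D.e i : ℤ)) fun s => D.l i s

def ρ (i : ι) : V σ := cv (D.ρz i)

def Sub (i : ι) (S : Finset (Option σ)) : Prop := ∀ s, D.l i s ≠ 0 → some s ∈ S

instance (i : ι) (S : Finset (Option σ)) : Decidable (D.Sub i S) := by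
  unfold Sub; infer_instance

noncomputable def dz : (Option σ → ℤ) →ₗ[ℤ] K := Fintype.linearCombination ℤ D.W

noncomputable def dq : V σ →ₗ[ℚ] ℚ ⊗[ℤ] K := Fintype.linearCombination ℚ fun s => iq K (D.W s)

def Adm (S : Finset (Option σ)) : Prop :=
  (none ∉ S ∧ ∀ i, ¬ D.Sub i S) ∨
    (none ∈ S ∧ ∃ z : Fin (c + 1) → ℂ, z ≠ 0 ∧ ∀ i, D.Sub i S ↔ MvPolynomial.eval z (D.g i) ≠ 0)

def SS (S : Finset (Option σ)) : Prop := ∃ m : V σ, 0 ≤ m ∧ On S m ∧ D.dq m = iq K D.A

def Gen (S : Finset (Option σ)) : Prop :=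
  ∀ y : K, ∃ α : Option σ → ℤ, On S (cv α) ∧ D.dz α = y

def Fixed (S : Finset (Option σ)) : Prop :=
  ∀ r : V σ, On S r → D.dq r = 0 → ∃ t : ι → ℚ, r = ∑ i, t i • D.ρ i

def Full (S : Finset (Option σ)) (m : V σ) : Prop :=
  (∀ s ∈ S, 0 < m s) ∧ On S m ∧ D.dq m = iq K D.A

def Rep (S : Finset (Option σ)) (y : K) : Prop :=
  ∃ α : Option σ → ℤ, 0 ≤ α ∧ On S (cv α) ∧ D.dz α = y

/-- Block `i` has the single vanishing variable `u`, of exponent one. -/
def Bp (S : Finset (Option σ)) (i : ι) (u : σ) : Prop :=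
  D.l i u = 1 ∧ some u ∉ S ∧ ∀ s, D.l i s ≠ 0 → s ≠ u → some s ∈ S

open Classical in
noncomputable def N (S : Finset (Option σ)) : Finset ι :=
  univ.filter fun i => ¬ D.Sub i S ∧ ¬ ∃ u, D.Bp S i u

def Below (S' S : Finset (Option σ)) : Prop :=
  S' ⊆ S ∧ ((none ∈ S' ∧ ∀ i, D.Sub i S → D.Sub i S') ∨ (none ∉ S' ∧ ∀ i, ¬ D.Sub i S'))

structure Hyp : Prop where
  he : ∀ i, 0 < D.e i
  hg : ∀ i, (D.g i).IsHomogeneous (D.e i)
  disj : ∀ i j s, D.l i s ≠ 0 → D.l j s ≠ 0 → i = j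
  deg : ∀ i, D.dz (D.ρz i) = 0
  pointed : ∀ α : Option σ → ℤ, 0 ≤ α → D.dz α = 0 → α = 0
  tf : ∀ (r : Option σ → ℤ) (t : ι → ℚ), D.dz r = 0 → cv r = ∑ i, t i • D.ρ i →
    ∀ i, ∃ n : ℤ, t i = n
  free : ∀ S, D.Adm S → D.SS S → D.Gen S
  smooth : ∀ S, none ∉ S → D.Adm S → D.SS S → (∀ i ∈ D.N S, D.e i = 1) ∧ (D.N S).card ≤ c + 1 ∧
    ∀ z : Fin (c + 1) → ℂ, z ≠ 0 → (∀ i ∈ D.N S, MvPolynomial.eval z (D.g i) = 0) →
      (D.N S).card ≤ c

@[simp] lemma W_none : D.W none = D.μ := rfl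
@[simp] lemma W_some (s : σ) : D.W (some s) = D.w s := rfl
@[simp] lemma ρ_none (i : ι) : D.ρ i none = -(D.e i : ℚ) := by simp [ρ, cv, ρz]
@[simp] lemma ρ_some (i : ι) (s : σ) : D.ρ i (some s) = D.l i s := by simp [ρ, cv, ρz]

lemma dq_cv (α : Option σ → ℤ) : D.dq (cv α) = iq K (D.dz α) := by
  simp only [dq, dz, Fintype.linearCombination_apply, map_sum, map_zsmul, cv]
  exact Finset.sum_congr rfl fun s _ => by rw [Int.cast_smul_eq_zsmul]

lemma dq_single (s : Option σ) : D.dq (Pi.single s 1) = iq K (D.W s) := by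
  simp [dq, Fintype.linearCombination_apply_single]

lemma dz_single (s : Option σ) : D.dz (Pi.single s 1) = D.W s := by
  simp [dz, Fintype.linearCombination_apply_single]

end Dat

lemma cv_add (α β : Option σ → ℤ) : cv (α + β) = cv α + cv β := by funext s; simp [cv]
lemma cv_sub (α β : Option σ → ℤ) : cv (α - β) = cv α - cv β := by funext s; simp [cv]
lemma cv_smul (n : ℤ) (α : Option σ → ℤ) : cv (n • α) = (n : ℚ) • cv α := by funext s; simp [cv]
lemma cv_single (s : Option σ) : cv (Pi.single s 1) = Pi.single s 1 := by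
  funext t
  by_cases h : t = s
  · simp [cv, h]
  · simp [cv, h]
lemma cv_sum {κ : Type*} (T : Finset κ) (α : κ → Option σ → ℤ) :
    cv (∑ k ∈ T, α k) = ∑ k ∈ T, cv (α k) := by funext s; simp [cv]

lemma On.add {S : Finset (Option σ)} {u v : V σ} (hu : On S u) (hv : On S v) : On S (u + v) :=
  fun s hs => by simp [hu s hs, hv s hs]
lemma On.sub {S : Finset (Option σ)} {u v : V σ} (hu : On S u) (hv : On S v) : On S (u - v) :=
  fun s hs => by simp [hu s hs, hv s hs]
lemma On.neg {S : Finset (Option σ)} {u : V σ} (hu : On S u) : On S (-u) :=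
  fun s hs => by simp [hu s hs]
lemma On.smul {S : Finset (Option σ)} {u : V σ} (hu : On S u) (t : ℚ) : On S (t • u) :=
  fun s hs => by simp [hu s hs]
lemma On.mono {S S' : Finset (Option σ)} {u : V σ} (hu : On S u) (h : S ⊆ S') : On S' u :=
  fun s hs => hu s fun h1 => hs (h h1)
lemma on_single {S : Finset (Option σ)} {s : Option σ} (h : s ∈ S) : On S (Pi.single s 1) :=
  fun t ht => Pi.single_eq_of_ne (by rintro rfl; exact ht h) _
lemma on_sum {κ : Type*} {S : Finset (Option σ)} {T : Finset κ} {f : κ → V σ}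
    (h : ∀ k ∈ T, On S (f k)) : On S (∑ k ∈ T, f k) := fun s hs => by
  rw [Finset.sum_apply]
  exact Finset.sum_eq_zero fun k hk => h k hk s hs

namespace Dat

variable {D : Dat c σ ι K}

lemma Sub.mono {i : ι} {S S' : Finset (Option σ)} (h : D.Sub i S) (h1 : S ⊆ S') : D.Sub i S' :=
  fun s hs => h1 (h s hs)

lemma Sub.on {i : ι} {S : Finset (Option σ)} (h : D.Sub i S) (h0 : none ∈ S) : On S (D.ρ i) := by
  rintro (_ | s) hs
  · exact absurd h0 hs
  · rw [ρ_some]
    by_contra h1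
    exact hs (h s (by simpa using h1))

lemma Full.nonneg {S : Finset (Option σ)} {m : V σ} (h : D.Full S m) : 0 ≤ m := fun s => by
  by_cases hs : s ∈ S
  · exact (h.1 s hs).le
  · exact (h.2.1 s hs).ge

lemma Full.ss {S : Finset (Option σ)} {m : V σ} (h : D.Full S m) : D.SS S :=
  ⟨m, h.nonneg, h.2.1, h.2.2⟩

lemma SS.mono {S S' : Finset (Option σ)} (h : D.SS S) (h1 : S ⊆ S') : D.SS S' := by
  obtain ⟨m, a, b, d⟩ := h
  exact ⟨m, a, b.mono h1, d⟩

lemma Gen.mono {S S' : Finset (Option σ)} (h : D.Gen S) (h1 : S ⊆ S') : D.Gen S' := fun y => by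
  obtain ⟨m, a, b⟩ := h y
  exact ⟨m, a.mono h1, b⟩

lemma Fixed.anti {S S' : Finset (Option σ)} (h : D.Fixed S) (h1 : S' ⊆ S) : D.Fixed S' :=
  fun r a b => h r (a.mono h1) b

lemma Below.trans {S₁ S₂ S₃ : Finset (Option σ)} (h : D.Below S₁ S₂) (h' : D.Below S₂ S₃) :
    D.Below S₁ S₃ := by
  refine ⟨h.1.trans h'.1, ?_⟩
  rcases h.2 with a | a
  · rcases h'.2 with b | b
    · exact Or.inl ⟨a.1, fun i hi => a.2 i (b.2 i hi)⟩
    · exact absurd (h.1 a.1) b.1
  · exact Or.inr a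

lemma Adm.below {S S' : Finset (Option σ)} (h : D.Adm S) (h' : D.Below S' S) : D.Adm S' := by
  rcases h'.2 with a | a
  · rcases h with b | ⟨-, z, hz, b⟩
    · exact absurd (h'.1 a.1) b.1
    · exact Or.inr ⟨a.1, z, hz, fun i => ⟨fun hi => (b i).1 (hi.mono h'.1),
        fun hi => a.2 i ((b i).2 hi)⟩⟩
  · exact Or.inl a

lemma Adm.nosub {S : Finset (Option σ)} (h : D.Adm S) (h0 : none ∉ S) (i : ι) : ¬ D.Sub i S := by
  rcases h with b | b
  · exact b.2 i
  · exact absurd b.1 h0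

namespace Hyp

variable (H : D.Hyp)
include H

lemma dq_ρ (i : ι) : D.dq (D.ρ i) = 0 := by rw [ρ, dq_cv, H.deg, map_zero]

lemma dq_comb (t : ι → ℚ) (T : Finset ι) : D.dq (∑ i ∈ T, t i • D.ρ i) = 0 := by
  simp [map_sum, H.dq_ρ]

lemma pointedQ {v : V σ} (h0 : 0 ≤ v) (h : D.dq v = 0) : v = 0 := by
  obtain ⟨N, hN, α, hα⟩ := clear v
  obtain ⟨M, hM, h1⟩ := iq_eq_zero (y := D.dz α) (by rw [← dq_cv, hα, map_smul, h, smul_zero])
  have h2 : ∀ s, (α s : ℚ) = N * v s := fun s => congrFun hα s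
  have h3 := H.pointed ((M : ℤ) • α) (fun s => by
    have : (0 : ℚ) ≤ α s := by rw [h2]; exact mul_nonneg (by positivity) (h0 s)
    have : 0 ≤ α s := by exact_mod_cast this
    simp only [Pi.smul_apply, smul_eq_mul, Pi.zero_apply]
    positivity) (by rw [map_smul, natCast_zsmul, h1])
  funext s
  have h4 : (M : ℤ) * α s = 0 := congrFun h3 s
  have h5 : α s = 0 := (mul_eq_zero.1 h4).resolve_left (by exact_mod_cast hM.ne')
  have h6 := h2 s
  rw [h5] at h6
  have : (N : ℚ) ≠ 0 := by exact_mod_cast hN.ne'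
  simpa [this] using h6.symm

lemma exists_var (i : ι) : ∃ s, D.l i s ≠ 0 := by
  by_contra h
  push Not at h
  have := H.pointed (-D.ρz i) (by rintro (_ | s) <;> simp [ρz, h]) (by rw [map_neg, H.deg, neg_zero])
  have h1 := congrFun this none
  have := H.he i
  simp [ρz] at h1
  omega

/-- The coordinate of a combination of block relations at a variable of block `i`. -/
lemma comb_apply (t : ι → ℚ) (T : Finset ι) {i : ι} {s : σ} (h : D.l i s ≠ 0) :
    (∑ j ∈ T, t j • D.ρ j) (some s) = if i ∈ T then t i * D.l i s else 0 := by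
  rw [Finset.sum_apply]
  have h1 : ∀ j, j ≠ i → (t j • D.ρ j) (some s) = 0 := fun j hj => by
    have : D.l j s = 0 := by
      by_contra h2
      exact hj (H.disj j i s h2 h)
    simp [this]
  split_ifs with hi
  · rw [Finset.sum_eq_single i (fun j _ hj => h1 j hj) (fun h => absurd hi h)]
    simp
  · exact Finset.sum_eq_zero fun j hj => h1 j (by rintro rfl; exact hi hj)

omit H in
lemma comb_apply_free (t : ι → ℚ) (T : Finset ι) {s : σ} (h : ∀ i ∈ T, D.l i s = 0) :
    (∑ j ∈ T, t j • D.ρ j) (some s) = 0 := by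
  rw [Finset.sum_apply]
  exact Finset.sum_eq_zero fun j hj => by simp [h j hj]

omit H in
lemma comb_apply_none (t : ι → ℚ) (T : Finset ι) :
    (∑ j ∈ T, t j • D.ρ j) none = -∑ j ∈ T, t j * D.e j := by
  rw [Finset.sum_apply, ← Finset.sum_neg_distrib]
  exact Finset.sum_congr rfl fun j _ => by simp

lemma coef_zero {S : Finset (Option σ)} {t : ι → ℚ} (h : On S (∑ i, t i • D.ρ i)) {i : ι}
    (hi : ¬ D.Sub i S) : t i = 0 := by
  unfold Sub at hi
  push Not at hi
  obtain ⟨s, h1, h2⟩ := hi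
  have := h _ h2
  rw [H.comb_apply t univ h1, if_pos (mem_univ _)] at this
  exact (mul_eq_zero.1 this).resolve_right (by exact_mod_cast h1)

/-- A functional killing the block relations of a fixed type kills all relations there. -/
lemma kill {S : Finset (Option σ)} (hF : D.Fixed S) {ψ : V σ →ₗ[ℚ] ℚ}
    (hψ : ∀ i, D.Sub i S → ψ (D.ρ i) = 0) {r : V σ} (h1 : On S r) (h2 : D.dq r = 0) : ψ r = 0 := by
  obtain ⟨t, rfl⟩ := hF r h1 h2
  rw [map_sum]
  refine Finset.sum_eq_zero fun i _ => ?_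
  by_cases hi : D.Sub i S
  · simp [hψ i hi]
  · simp [H.coef_zero h1 hi]

lemma exists_fun {S : Finset (Option σ)} (hF : D.Fixed S) {ψ : V σ →ₗ[ℚ] ℚ}
    (hψ : ∀ i, D.Sub i S → ψ (D.ρ i) = 0) :
    ∃ Φ : ℚ ⊗[ℤ] K →ₗ[ℚ] ℚ, ∀ v, On S v → Φ (D.dq v) = ψ v := by
  let P : Submodule ℚ (V σ) :=
    { carrier := {v | On S v}
      zero_mem' := fun _ _ => rfl
      add_mem' := On.add
      smul_mem' := fun t _ h => h.smul t }
  have : ψ ∘ₗ P.subtype ∈ LinearMap.range (D.dq ∘ₗ P.subtype).dualMap := by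
    rw [LinearMap.range_dualMap_eq_dualAnnihilator_ker, Submodule.mem_dualAnnihilator]
    exact fun r hr => H.kill hF hψ r.2 hr
  obtain ⟨Φ, hΦ⟩ := this
  exact ⟨Φ, fun v hv => LinearMap.congr_fun hΦ ⟨v, hv⟩⟩

/-- Integral relations on a fixed type are integral combinations of block relations. -/
lemma rel_int {S : Finset (Option σ)} (hF : D.Fixed S) {r : Option σ → ℤ} (h1 : On S (cv r))
    (h2 : D.dz r = 0) : ∃ t : ι → ℤ, (∀ i, ¬ D.Sub i S → t i = 0) ∧ r = ∑ i, t i • D.ρz i := by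
  obtain ⟨t, ht⟩ := hF _ h1 (by rw [dq_cv, h2, map_zero])
  choose n hn using H.tf r t h2 ht
  refine ⟨n, fun i hi => ?_, funext fun s => ?_⟩
  · have := H.coef_zero (ht ▸ h1) hi
    rw [hn] at this
    exact_mod_cast this
  · have := congrFun ht s
    simp only [cv, Finset.sum_apply, Pi.smul_apply, smul_eq_mul, hn, ρ] at this ⊢
    exact_mod_cast this

lemma exists_hom {S : Finset (Option σ)} (hF : D.Fixed S) (hG : D.Gen S) {G : Type}
    [AddCommGroup G] (γ : Option σ → G) (hγ : ∀ i, D.Sub i S → ∑ s, D.ρz i s • γ s = 0) :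
    ∃ χ : K →+ G, ∀ s ∈ S, χ (D.W s) = γ s := by
  let P : Submodule ℤ (Option σ → ℤ) :=
    { carrier := {v | On S (cv v)}
      zero_mem' := fun _ _ => by simp [cv]
      add_mem' := fun a b => by simpa [cv_add] using a.add b
      smul_mem' := fun t x h => by
        change On S (cv (t • x))
        rw [cv_smul]
        exact On.smul h t }
  let f : P →ₗ[ℤ] K := D.dz ∘ₗ P.subtype
  let p : P →ₗ[ℤ] G := Fintype.linearCombination ℤ γ ∘ₗ P.subtype
  have hf : Function.Surjective f := fun y => by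
    obtain ⟨α, a, b⟩ := hG y
    exact ⟨⟨α, a⟩, b⟩
  have hk : LinearMap.ker f ≤ LinearMap.ker p := fun r hr => by
    obtain ⟨t, a, b⟩ := H.rel_int hF r.2 hr
    change Fintype.linearCombination ℤ γ r.1 = 0
    rw [b, map_sum]
    refine Finset.sum_eq_zero fun i _ => ?_
    by_cases hi : D.Sub i S
    · rw [map_smul, Fintype.linearCombination_apply, hγ i hi, smul_zero]
    · simp [a i hi]
  refine ⟨(((LinearMap.ker f).liftQ p hk) ∘ₗ
    (f.quotKerEquivOfSurjective hf).symm.toLinearMap).toAddMonoidHom, fun s hs => ?_⟩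
  have h1 : D.W s = f ⟨Pi.single s 1, by
      change On S (cv _)
      rw [cv_single]
      exact on_single hs⟩ :=
    (D.dz_single s).symm
  rw [h1]
  simp [p, Fintype.linearCombination_apply_single]

lemma rank_le {S : Finset (Option σ)} (hG : D.Gen S) (h0 : none ∉ S → ∀ i, ¬ D.Sub i S) :
    Module.finrank ℤ K + (univ.filter fun i => D.Sub i S).card ≤ S.card := by
  let f : (S → ℚ) →ₗ[ℚ] V σ := Fintype.linearCombination ℚ fun s : S => Pi.single s.1 1
  have hf : ∀ v : V σ, On S v → f (fun s => v s.1) = v := fun v hv => by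
    funext t
    simp only [f, Fintype.linearCombination_apply, Finset.sum_apply, Pi.smul_apply, smul_eq_mul]
    by_cases ht : t ∈ S
    · rw [Finset.sum_eq_single ⟨t, ht⟩ (fun s _ hs => by
        rw [Pi.single_eq_of_ne (fun e => hs (Subtype.ext e.symm)), mul_zero]) (by simp)]
      simp
    · rw [hv t ht]
      exact Finset.sum_eq_zero fun s _ => by
        rw [Pi.single_eq_of_ne (by rintro rfl; exact ht s.2), mul_zero]
  have h1 : LinearMap.range (D.dq ∘ₗ f) = ⊤ := by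
    rw [eq_top_iff, ← span_iq, Submodule.span_le]
    rintro _ ⟨y, rfl⟩
    obtain ⟨α, a, b⟩ := hG y
    exact ⟨fun s => cv α s.1, by rw [LinearMap.comp_apply, hf _ a, dq_cv, b]⟩
  have h2 := LinearMap.finrank_range_add_finrank_ker (D.dq ∘ₗ f)
  rw [h1, finrank_top, finrank_iq, Module.finrank_fintype_fun_eq_card, Fintype.card_coe] at h2
  have hon : ∀ i : {i // D.Sub i S}, On S (D.ρ i.1) := fun i => i.2.on (by
    by_contra h
    exact h0 h i.1 i.2)
  let b : {i // D.Sub i S} → LinearMap.ker (D.dq ∘ₗ f) := fun i =>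
    ⟨fun s => D.ρ i.1 s.1, by rw [LinearMap.mem_ker, LinearMap.comp_apply, hf _ (hon i), H.dq_ρ]⟩
  have h3 : LinearIndependent ℚ b := by
    rw [Fintype.linearIndependent_iff]
    intro t ht i
    obtain ⟨s, hs⟩ := H.exists_var i.1
    have h4 := congrFun (congrArg Subtype.val ht) ⟨some s, i.2 s hs⟩
    simp only [b, Submodule.coe_sum, Submodule.coe_smul, Finset.sum_apply, Pi.smul_apply,
      smul_eq_mul, ρ_some, ZeroMemClass.coe_zero, Pi.zero_apply] at h4
    rw [Finset.sum_eq_single i (fun j _ hj => by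
      have : D.l j.1 s = 0 := by
        by_contra h5
        exact hj (Subtype.ext (H.disj _ _ s h5 hs))
      simp [this]) (by simp)] at h4
    exact (mul_eq_zero.1 h4).resolve_right (by exact_mod_cast hs)
  have h4 := h3.fintype_card_le_finrank
  rw [Fintype.card_subtype] at h4
  omega

end Hyp

end Dat

end Pool.Agent.Lib.MP_9ff3e7_ag.Tor
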