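import Pool.Agent.Lib.MP_9ff3e7_ag.Supply

/-! Forms on projective space: scaling, linear forms, common zeros. -/

set_option linter.unusedSectionVars false

namespace Pool.Agent.Lib.MP_9ff3e7_ag.Tor

open Finset MvPolynomial

variable {τ : Type} [Fintype τ] [DecidableEq τ]

lemma eval_scale {K : Type} [AddCommGroup K] {W : τ → K} {y : K} {p : MvPolynomial τ ℂ}
    (hp : p.IsWeightedHomogeneous W y) (χ : AddChar K ℂ) (x : τ → ℂ) :
    eval (fun t => χ (W t) * x t) p = χ y * eval x p := by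
  rw [p.as_sum, map_sum, map_sum, Finset.mul_sum]
  refine Finset.sum_congr rfl fun d hd => ?_
  rw [← hp (mem_support_iff.1 hd), eval_monomial, eval_monomial,
    Finsupp.prod_fintype _ _ (by simp), Finsupp.prod_fintype _ _ (by simp), Finsupp.weight_apply,
    Finsupp.sum_fintype _ _ (by simp)]
  have : χ (∑ t, d t • W t) = ∏ t, χ (W t) ^ d t := by
    induction (univ : Finset τ) using Finset.induction_on with
    | empty => simp
    | insert a T ha ih => rw [sum_insert ha, prod_insert ha, χ.map_add_eq_mul, ih, χ.map_nsmul_eq_pow]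
  rw [this]
  simp only [mul_pow, Finset.prod_mul_distrib]
  ring

lemma eval_smul_hom {e : ℕ} {p : MvPolynomial τ ℂ} (hp : p.IsHomogeneous e) (t : ℂ) (x : τ → ℂ) :
    eval (t • x) p = t ^ e * eval x p := by
  rw [p.as_sum, map_sum, map_sum, Finset.mul_sum]
  refine Finset.sum_congr rfl fun d hd => ?_
  have h1 : e = ∑ s, d s := by
    rw [← hp (mem_support_iff.1 hd), Finsupp.weight_apply, Finsupp.sum_fintype _ _ (by simp)]
    simp
  rw [eval_monomial, eval_monomial, Finsupp.prod_fintype _ _ (by simp),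
    Finsupp.prod_fintype _ _ (by simp), h1, ← Finset.prod_pow_eq_pow_sum]
  simp only [Pi.smul_apply, smul_eq_mul, mul_pow, Finset.prod_mul_distrib]
  ring

lemma eval_zero_hom {e : ℕ} {p : MvPolynomial τ ℂ} (hp : p.IsHomogeneous e) (he : 0 < e) :
    eval (0 : τ → ℂ) p = 0 := by
  have := eval_smul_hom hp 0 0
  rwa [zero_smul, zero_pow he.ne', zero_mul] at this

lemma euler {e : ℕ} {p : MvPolynomial τ ℂ} (hp : p.IsHomogeneous e) (x : τ → ℂ) :
    ∑ t, x t * eval x (pderiv t p) = e * eval x p := by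
  have := congrArg (eval x) hp.sum_X_mul_pderiv
  simpa using this

lemma pderiv_lin {p : MvPolynomial τ ℂ} (hp : p.IsHomogeneous 1) (x : τ → ℂ) (t : τ) :
    eval x (pderiv t p) = eval (0 : τ → ℂ) (pderiv t p) := by
  have := eval_smul_hom (hp.pderiv (i := t)) 0 x
  rw [zero_smul] at this
  rw [this, Nat.sub_self, pow_zero, one_mul]

lemma eval_lin {p : MvPolynomial τ ℂ} (hp : p.IsHomogeneous 1) (x : τ → ℂ) :
    eval x p = ∑ t, x t * eval (0 : τ → ℂ) (pderiv t p) := by
  have := euler hp x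
  rw [Nat.cast_one, one_mul] at this
  rw [← this]
  exact Finset.sum_congr rfl fun t _ => by rw [pderiv_lin hp]

lemma eval_lin_comb {p : MvPolynomial τ ℂ} (hp : p.IsHomogeneous 1) (a b : ℂ) (x y : τ → ℂ) :
    eval (a • x + b • y) p = a * eval x p + b * eval y p := by
  rw [eval_lin hp, eval_lin hp x, eval_lin hp y, Finset.mul_sum, Finset.mul_sum,
    ← Finset.sum_add_distrib]
  exact Finset.sum_congr rfl fun t _ => by simp; ring

lemma exists_zero {κ : Type} (T : Finset κ) (g : κ → MvPolynomial τ ℂ)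
    (h0 : ∀ k ∈ T, eval (0 : τ → ℂ) (g k) = 0) (hT : T.card < Fintype.card τ) :
    ∃ z : τ → ℂ, z ≠ 0 ∧ ∀ k ∈ T, eval z (g k) = 0 := by
  by_contra h
  push Not at h
  have := card_le_of_only_zero univ T g h0 fun y _ hy => by
    by_contra h1
    obtain ⟨k, a, b⟩ := h y h1
    exact b (hy k a)
  rw [card_univ] at this
  omega

lemma line_zero {p : MvPolynomial τ ℂ} (h0 : eval (0 : τ → ℂ) p = 0) (x y : τ → ℂ) :
    ∃ a b : ℂ, (a ≠ 0 ∨ b ≠ 0) ∧ eval (a • x + b • y) p = 0 := by
  let q : MvPolynomial (Fin 2) ℂ := aeval (fun t => C (x t) * X 0 + C (y t) * X 1) p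
  have hq : ∀ u : Fin 2 → ℂ, eval u q = eval (u 0 • x + u 1 • y) p := fun u => by
    have e : (aeval u : MvPolynomial (Fin 2) ℂ →ₐ[ℂ] ℂ).comp
        (aeval fun t => C (x t) * X 0 + C (y t) * X 1) = aeval (u 0 • x + u 1 • y) := by
      ext t
      simp [mul_comm]
    have := DFunLike.congr_fun e p
    simpa [q] using this
  obtain ⟨u, h1, h2⟩ := exists_zero (τ := Fin 2) (univ : Finset Unit) (fun _ => q)
    (fun _ _ => by rw [hq]; simpa using h0) (by simp)
  refine ⟨u 0, u 1, ?_, by rw [← hq]; exact h2 () (mem_univ _)⟩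
  by_contra h
  push Not at h
  exact h1 (funext fun i => by fin_cases i <;> simp [h.1, h.2])

end Pool.Agent.Lib.MP_9ff3e7_ag.Tor
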