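import Pool.Agent.Lib.MP_9ff3e7_ag.TDesc
import Pool.Agent.Lib.MP_9ff3e7_ag.TPoly

/-! Splitting sums over the variables according to a support type. -/

set_option linter.unusedSectionVars false

namespace Pool.Agent.Lib.MP_9ff3e7_ag.Tor

open Finset

variable {c : ℕ} {σ ι K : Type} [Fintype σ] [Fintype ι] [DecidableEq σ] [DecidableEq ι]
  [AddCommGroup K]

namespace Dat

variable (D : Dat c σ ι K)

def J (i : ι) : Finset σ := univ.filter fun s => D.l i s ≠ 0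

def U (S : Finset (Option σ)) (i : ι) : Finset σ := univ.filter fun s => D.l i s ≠ 0 ∧ some s ∉ S

def F (S : Finset (Option σ)) : Finset σ := univ.filter fun s => (∀ i, D.l i s = 0) ∧ some s ∉ S

def Uns (S : Finset (Option σ)) : Finset σ :=
  univ.filter fun s => some s ∈ S ∧ ∀ i, D.Sub i S → D.l i s = 0

/-- The adjoint class `K_X + m A`. -/
def Dv (m : ℕ) : K := (∑ i, D.e i • D.μ - (c + 1) • D.μ - ∑ s, D.w s) + m • D.A

/-- The dimension bound `dim X + κ ≤ m`. -/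
def Bd (_E : Dat c σ ι K) (κ m : ℕ) : Prop :=
  ((c : ℤ) + 1 + Fintype.card σ - Fintype.card ι - Module.finrank ℤ K) + κ ≤ m

def Is (S : Finset (Option σ)) (ψ : V σ →ₗ[ℚ] ℚ) (f : K →+ ℚ) : Prop :=
  ∀ s ∈ S, f (D.W s) = ψ (Pi.single s 1)

variable {D}

@[simp] lemma mem_J {i : ι} {s : σ} : s ∈ D.J i ↔ D.l i s ≠ 0 := by simp [J]
@[simp] lemma mem_U {S : Finset (Option σ)} {i : ι} {s : σ} :
    s ∈ D.U S i ↔ D.l i s ≠ 0 ∧ some s ∉ S := by simp [U]
@[simp] lemma mem_F {S : Finset (Option σ)} {s : σ} :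
    s ∈ D.F S ↔ (∀ i, D.l i s = 0) ∧ some s ∉ S := by simp [F]
lemma mem_Uns {S : Finset (Option σ)} {s : σ} : s ∈ D.Uns S ↔ D.Un S s := by simp [Uns, Un]
lemma mem_N {S : Finset (Option σ)} {i : ι} :
    i ∈ D.N S ↔ ¬ D.Sub i S ∧ ¬ ∃ u, D.Bp S i u := by simp [N]

lemma U_nonempty {S : Finset (Option σ)} {i : ι} (h : ¬ D.Sub i S) : (D.U S i).Nonempty := by
  unfold Sub at h
  push Not at h
  obtain ⟨s, hs⟩ := h
  exact ⟨s, mem_U.2 hs⟩

lemma Bp.U_eq {S : Finset (Option σ)} {i : ι} {u : σ} (h : D.Bp S i u) : D.U S i = {u} := by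
  ext s
  rw [mem_U, mem_singleton]
  refine ⟨fun hs => ?_, fun hs => hs ▸ ⟨by rw [h.1]; exact one_ne_zero, h.2.1⟩⟩
  by_contra h1
  exact hs.2 (h.2.2 s hs.1 h1)

lemma Bp.nosub {S : Finset (Option σ)} {i : ι} {u : σ} (h : D.Bp S i u) : ¬ D.Sub i S :=
  fun h1 => h.2.1 (h1 u (by rw [h.1]; exact one_ne_zero))

lemma Is.eval {S : Finset (Option σ)} {ψ : V σ →ₗ[ℚ] ℚ} {f : K →+ ℚ} (h : D.Is S ψ f) {v : V σ}
    {y : K} (h1 : On S v) (h2 : D.dq v = iq K y) : f y = ψ v := by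
  rw [hom_rep f h2, lin_apply ψ v]
  refine Finset.sum_congr rfl fun s _ => ?_
  by_cases hs : s ∈ S
  · rw [h s hs]
  · simp [h1 s hs]

lemma Is.evalz {S : Finset (Option σ)} {ψ : V σ →ₗ[ℚ] ℚ} {f : K →+ ℚ} (h : D.Is S ψ f)
    {α : Option σ → ℤ} (h1 : On S (cv α)) : f (D.dz α) = ψ (cv α) := h.eval h1 (D.dq_cv α)

lemma Is.proj {S : Finset (Option σ)} {v : σ} {f : K →+ ℚ}
    (h : D.Is S (LinearMap.proj (some v)) f) {s : Option σ} (hs : s ∈ S) :
    f (D.W s) = if s = some v then 1 else 0 := by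
  rw [h s hs, LinearMap.proj_apply, Pi.single_apply]
  simp [eq_comm]

lemma Is.proj_nonneg {S : Finset (Option σ)} {v : σ} {f : K →+ ℚ}
    (h : D.Is S (LinearMap.proj (some v)) f) (s : Option σ) (hs : s ∈ S) : 0 ≤ f (D.W s) := by
  rw [h.proj hs]
  split_ifs <;> norm_num

lemma Is.proj_int {S : Finset (Option σ)} {v : σ} {f : K →+ ℚ}
    (h : D.Is S (LinearMap.proj (some v)) f) (hG : D.Gen S) (y : K) : ∃ n : ℤ, f y = n := by
  obtain ⟨α, a, rfl⟩ := hG y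
  exact ⟨α (some v), h.evalz a⟩

lemma Is.proj_A {S : Finset (Option σ)} {v : σ} {f : K →+ ℚ}
    (h : D.Is S (LinearMap.proj (some v)) f) (hG : D.Gen S) {m : V σ} (hm : D.Full S m)
    (hv : some v ∈ S) : 1 ≤ f D.A := by
  obtain ⟨n, hn⟩ := h.proj_int hG D.A
  have h1 : 0 < f D.A := by
    rw [h.eval hm.2.1 hm.2.2]
    exact hm.1 _ hv
  rw [hn] at h1 ⊢
  exact_mod_cast h1

lemma single_nonneg (s : Option σ) : (0 : V σ) ≤ Pi.single s 1 := fun t => by
  rw [Pi.single_apply]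
  split_ifs <;> simp

lemma f_Dv (f : K →+ ℚ) (m : ℕ) : f (D.Dv m) =
    ∑ i, (D.e i : ℚ) * f D.μ - (c + 1) * f D.μ - ∑ s, f (D.w s) + m * f D.A := by
  simp [Dv, map_sum]

namespace Hyp

variable (H : D.Hyp)
include H

lemma f_block (f : K →+ ℚ) (i : ι) :
    ∑ s, (D.l i s : ℚ) * f (D.w s) = D.e i * f D.μ := by
  have := hom_dz (D := D) f (D.ρz i)
  rw [H.deg, map_zero, Fintype.sum_option] at this
  simp only [ρz, Option.elim, W_none, W_some, Int.cast_neg, Int.cast_natCast] at this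
  linarith

lemma f_block' (f : K →+ ℚ) (S : Finset (Option σ)) (i : ι) :
    ∑ s ∈ D.U S i, (D.l i s : ℚ) * f (D.w s) +
      ∑ s ∈ univ.filter (fun s => some s ∈ S), (D.l i s : ℚ) * f (D.w s) = D.e i * f D.μ := by
  rw [← H.f_block f i, U, Finset.sum_filter, Finset.sum_filter, ← Finset.sum_add_distrib]
  refine Finset.sum_congr rfl fun s _ => ?_
  by_cases h1 : some s ∈ S <;> by_cases h2 : D.l i s = 0 <;> simp [h1, h2]

lemma split (S : Finset (Option σ)) (x : σ → ℚ) :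
    ∑ s, x s = ∑ s ∈ D.Uns S, x s + ∑ i ∈ D.B S, ∑ s ∈ D.J i, x s + ∑ s ∈ D.F S, x s +
      ∑ i ∈ (D.B S)ᶜ, ∑ s ∈ D.U S i, x s := by
  simp only [Uns, J, F, U, Finset.sum_filter]
  rw [Finset.sum_comm (s := D.B S), Finset.sum_comm (s := (D.B S)ᶜ), ← Finset.sum_add_distrib,
    ← Finset.sum_add_distrib, ← Finset.sum_add_distrib]
  refine Finset.sum_congr rfl fun s _ => ?_
  by_cases h : ∀ i, D.l i s = 0
  · by_cases h1 : some s ∈ S <;> simp [h, h1]
  · push Not at h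
    obtain ⟨i, hi⟩ := h
    have h2 : ∀ j, j ≠ i → D.l j s = 0 := fun j hj => by
      by_contra h3
      exact hj (H.disj _ _ _ h3 hi)
    have h3 : ¬ ∀ j, D.l j s = 0 := fun h => hi (h i)
    have e1 : ∀ (T : Finset ι) (p : Prop) [Decidable p],
        ∑ j ∈ T, (if D.l j s ≠ 0 ∧ p then x s else 0) = if i ∈ T ∧ p then x s else 0 := by
      intro T p _
      by_cases hT : i ∈ T
      · rw [Finset.sum_eq_single i (fun j _ hj => by simp [h2 j hj]) (fun h => absurd hT h)]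
        simp [hi, hT]
      · rw [Finset.sum_eq_zero fun j hj => by
          have : j ≠ i := by rintro rfl; exact hT hj
          simp [h2 j this]]
        simp [hT]
    have e2 := e1 (D.B S) True
    simp only [and_true] at e2
    rw [e2, e1]
    by_cases h4 : D.Sub i S
    · have h5 : ¬ ∀ j, D.Sub j S → D.l j s = 0 := fun h => hi (h i h4)
      simp [h3, h4, h5]
    · have h5 : ∀ j, D.Sub j S → D.l j s = 0 := fun j hj => h2 j (by rintro rfl; exact h4 hj)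
      by_cases h1 : some s ∈ S
      · simp [h4, h1]
        intro j hj hl
        exact absurd (h5 j hj) hl
      · simp [h3, h4, h1]

lemma count {S : Finset (Option σ)} (hG : D.Gen S) (hA : D.Adm S) {κ m : ℕ} (hm : D.Bd κ m) :
    (c : ℚ) + (if none ∈ S then 0 else 1) + κ + (D.F S).card +
      ∑ i ∈ (D.B S)ᶜ, (((D.U S i).card : ℚ) - 1) ≤ m := by
  have h1 := H.rank_le hG hA.nosub
  have h2 := H.split S fun _ => 1
  have h3 := H.split S fun s => if some s ∈ S then 1 else 0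
  have h4 : (S.card : ℚ) = (if none ∈ S then 1 else 0) + ∑ s, if some s ∈ S then (1 : ℚ) else 0 := by
    rw [← Fintype.sum_option fun s => if s ∈ S then (1 : ℚ) else 0]
    simp
  have e1 : ∑ s ∈ D.Uns S, (if some s ∈ S then (1 : ℚ) else 0) = ∑ s ∈ D.Uns S, 1 :=
    Finset.sum_congr rfl fun s hs => if_pos (mem_Uns.1 hs).1
  have e2 : ∑ i ∈ D.B S, ∑ s ∈ D.J i, (if some s ∈ S then (1 : ℚ) else 0) =
      ∑ i ∈ D.B S, ∑ s ∈ D.J i, 1 := Finset.sum_congr rfl fun i hi =>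
    Finset.sum_congr rfl fun s hs => if_pos (mem_B.1 hi s (mem_J.1 hs))
  have e3 : ∑ s ∈ D.F S, (if some s ∈ S then (1 : ℚ) else 0) = 0 :=
    Finset.sum_eq_zero fun s hs => if_neg (mem_F.1 hs).2
  have e4 : ∑ i ∈ (D.B S)ᶜ, ∑ s ∈ D.U S i, (if some s ∈ S then (1 : ℚ) else 0) = 0 :=
    Finset.sum_eq_zero fun i _ => Finset.sum_eq_zero fun s hs => if_neg (mem_U.1 hs).2
  rw [e1, e2, e3, e4] at h3
  have h5 : ((D.B S)ᶜ.card : ℚ) + (D.B S).card = Fintype.card ι := by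
    exact_mod_cast Finset.card_compl_add_card (D.B S)
  have h6 : (Module.finrank ℤ K : ℚ) + (D.B S).card ≤ S.card := by exact_mod_cast h1
  have h7 : ((c : ℚ) + 1 + Fintype.card σ - Fintype.card ι - Module.finrank ℤ K) + κ ≤ m := by
    unfold Bd at hm
    exact_mod_cast hm
  simp only [Finset.sum_const, card_univ, nsmul_eq_mul, mul_one, Finset.sum_sub_distrib] at *
  split_ifs at * <;> linarith

/-- Variables outside the support whose block has a further vanishing variable. -/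
lemma multi {S : Finset (Option σ)} {m : V σ} (hm : D.Full S m) (hA : D.Adm S) {i : ι}
    (h2 : 1 < (D.U S i).card) {u : σ} (hu : u ∈ D.U S i) {f : K →+ ℚ}
    (hf : ∀ s ∈ S, 0 ≤ f (D.W s)) : f (D.w u) ≤ f D.A := by
  refine H.curve hm hA (mem_U.1 hu).2 (fun k hk => ?_) hf
  obtain rfl := H.disj _ _ _ hk (mem_U.1 hu).1
  obtain ⟨u', a, b⟩ := Finset.exists_mem_ne h2 u
  exact ⟨u', b, mem_U.1 a⟩

lemma freev {S : Finset (Option σ)} {m : V σ} (hm : D.Full S m) (hA : D.Adm S) {u : σ}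
    (hu : u ∈ D.F S) {f : K →+ ℚ} (hf : ∀ s ∈ S, 0 ≤ f (D.W s)) : f (D.w u) ≤ f D.A :=
  H.curve hm hA (mem_F.1 hu).2 (fun k hk => absurd ((mem_F.1 hu).1 k) hk) hf

end Hyp

end Dat

end Pool.Agent.Lib.MP_9ff3e7_ag.Tor
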