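import Pool.Agent.Lib.MP_9ff3e7_ag.TBase

/-! Descent to fixed types and integrality of vertices. -/

set_option linter.unusedSectionVars false

namespace Pool.Agent.Lib.MP_9ff3e7_ag.Tor

open Finset TensorProduct Filter Topology

variable {c : ℕ} {σ ι K : Type} [Fintype σ] [Fintype ι] [DecidableEq σ] [DecidableEq ι]
  [AddCommGroup K]

lemma small {S : Finset (Option σ)} {m : V σ} (hm : ∀ s ∈ S, 0 < m s) (β : V σ) :
    ∃ ε : ℚ, 0 < ε ∧ ∀ s ∈ S, 0 < m s + ε * β s := by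
  have h1 : ∀ᶠ ε in 𝓝 (0 : ℚ), ∀ s ∈ S, 0 < m s + ε * β s :=
    (eventually_all_finset S).2 fun s hs =>
      ContinuousAt.eventually_lt (f := fun _ => (0 : ℚ)) (g := fun ε => m s + ε * β s)
        continuousAt_const (by fun_prop) (by simpa using hm s hs)
  obtain ⟨ε, h2, h3⟩ := ((h1.filter_mono (nhdsWithin_le_nhds (s := Set.Ioi 0))).and
    self_mem_nhdsWithin).exists
  exact ⟨ε, h3, h2⟩

lemma lin_apply (ψ : V σ →ₗ[ℚ] ℚ) (v : V σ) : ψ v = ∑ s, v s * ψ (Pi.single s 1) := by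
  conv_lhs => rw [pi_eq_sum_univ' v]
  simp [map_sum]

namespace Dat

variable (D : Dat c σ ι K)

def Valid (j : ι → σ) : Prop := ∀ i, D.l i (j i) ≠ 0

def B (S : Finset (Option σ)) : Finset ι := univ.filter fun i => D.Sub i S

noncomputable def phi (T : Finset ι) (j : ι → σ) : V σ →ₗ[ℚ] ℚ :=
  LinearMap.proj none + ∑ i ∈ T, ((D.e i : ℚ) / D.l i (j i)) • LinearMap.proj (some (j i))

def Un (S : Finset (Option σ)) (s : σ) : Prop := some s ∈ S ∧ ∀ i, D.Sub i S → D.l i s = 0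

variable {D}

@[simp] lemma mem_B {S : Finset (Option σ)} {i : ι} : i ∈ D.B S ↔ D.Sub i S := by simp [B]

lemma phi_apply (T : Finset ι) (j : ι → σ) (v : V σ) :
    D.phi T j v = v none + ∑ i ∈ T, (D.e i : ℚ) * (v (some (j i)) / D.l i (j i)) := by
  simp only [phi, LinearMap.add_apply, LinearMap.sum_apply, LinearMap.smul_apply,
    LinearMap.proj_apply, smul_eq_mul]
  congr 1
  exact Finset.sum_congr rfl fun i _ => by ring

lemma phi_nonneg (T : Finset ι) (j : ι → σ) {v : V σ} (h : 0 ≤ v) : 0 ≤ D.phi T j v := by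
  rw [phi_apply]
  exact add_nonneg (h _) (Finset.sum_nonneg fun i _ => by
    have : 0 ≤ v (some (j i)) := h _
    positivity)

lemma hom_rep (f : K →+ ℚ) {v : V σ} {y : K} (h : D.dq v = iq K y) :
    f y = ∑ s, v s * f (D.W s) := by
  obtain ⟨N, hN, α, hα⟩ := clear v
  obtain ⟨M, hM, h1⟩ := iq_eq_zero (y := D.dz α - (N : ℤ) • y) (by
    rw [map_sub, ← dq_cv, hα, map_smul, h, map_smul, natCast_zsmul, Nat.cast_smul_eq_nsmul,
      sub_self])
  have h2 := congrArg f h1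
  rw [map_nsmul, map_zero, nsmul_eq_mul, map_sub, map_zsmul, dz, Fintype.linearCombination_apply,
    map_sum] at h2
  have h3 := sub_eq_zero.1 ((mul_eq_zero.1 h2).resolve_left (by exact_mod_cast hM.ne'))
  have h4 : (N : ℚ) ≠ 0 := by exact_mod_cast hN.ne'
  refine mul_left_cancel₀ h4 ?_
  rw [Finset.mul_sum]
  simp only [map_zsmul, zsmul_eq_mul, Int.cast_natCast] at h3
  rw [← h3]
  exact Finset.sum_congr rfl fun s _ => by
    rw [← mul_assoc, show (α s : ℚ) = N * v s from congrFun hα s]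

lemma hom_dz (f : K →+ ℚ) (α : Option σ → ℤ) : f (D.dz α) = ∑ s, (α s : ℚ) * f (D.W s) :=
  hom_rep f (D.dq_cv α)

namespace Hyp

variable (H : D.Hyp)
include H

lemma phi_ρ {T : Finset ι} {j : ι → σ} (hj : D.Valid j) (i : ι) :
    D.phi T j (D.ρ i) = if i ∈ T then 0 else -(D.e i : ℚ) := by
  rw [phi_apply, ρ_none]
  have h1 : ∀ k, k ≠ i → (D.e k : ℚ) * (D.ρ i (some (j k)) / D.l k (j k)) = 0 := fun k hk => by
    have : D.l i (j k) = 0 := by
      by_contra h
      exact hk (H.disj _ _ _ (hj k) h)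
    simp [this]
  split_ifs with hi
  · rw [Finset.sum_eq_single i (fun k _ hk => h1 k hk) (fun h => absurd hi h), ρ_some,
      div_self (by exact_mod_cast hj i)]
    ring
  · rw [Finset.sum_eq_zero fun k hk => h1 k (by rintro rfl; exact hi hk), add_zero]

lemma phi_ρB {S : Finset (Option σ)} {j : ι → σ} (hj : D.Valid j) (i : ι) (hi : D.Sub i S) :
    D.phi (D.B S) j (D.ρ i) = 0 := by rw [H.phi_ρ hj, if_pos (mem_B.2 hi)]

lemma exists_argmin {α : Type} [LinearOrder α] (f : ι → σ → α) :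
    ∃ j, D.Valid j ∧ ∀ i s, D.l i s ≠ 0 → f i (j i) ≤ f i s := by
  have : ∀ i, ∃ u, D.l i u ≠ 0 ∧ ∀ s, D.l i s ≠ 0 → f i u ≤ f i s := fun i => by
    obtain ⟨u, h1, h2⟩ := Finset.exists_min_image (univ.filter fun s => D.l i s ≠ 0) (f i) (by
      obtain ⟨s, hs⟩ := H.exists_var i
      exact ⟨s, by simpa using hs⟩)
    exact ⟨u, by simpa using h1, fun s hs => h2 s (by simpa using hs)⟩
  choose j h1 h2 using this
  exact ⟨j, h1, h2⟩

lemma normal {S : Finset (Option σ)} (h0 : none ∉ S → ∀ i, ¬ D.Sub i S) {v : V σ} (hv : On S v)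
    (h1 : ∀ s, D.Un S s → 0 ≤ v (some s)) (h2 : ∀ j, D.Valid j → 0 ≤ D.phi (D.B S) j v) :
    ∃ (t : ι → ℚ) (S' : Finset (Option σ)), D.Below S' S ∧
      (∀ s ∈ S', 0 < (v + ∑ i ∈ D.B S, t i • D.ρ i) s) ∧ On S' (v + ∑ i ∈ D.B S, t i • D.ρ i) ∧
      (∀ s, D.Un S s → v (some s) = 0 → some s ∉ S') ∧
      (∀ j, D.Valid j → D.phi (D.B S) j v = 0 → none ∉ S') := by
  obtain ⟨j, hj, hm⟩ := H.exists_argmin fun i s => v (some s) / D.l i s
  set θ := D.phi (D.B S) j v with hθ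
  set E : ℚ := ∑ i ∈ D.B S, D.e i with hE
  have hE0 : 0 ≤ E := Finset.sum_nonneg fun i _ => by positivity
  set ε := θ / (E + 1) with hε
  have hε0 : 0 ≤ ε := div_nonneg (h2 j hj) (by positivity)
  set t : ι → ℚ := fun i => ε - v (some (j i)) / D.l i (j i) with ht
  set m := v + ∑ i ∈ D.B S, t i • D.ρ i with hmdef
  have a0 : m none = ε := by
    rw [hmdef, Pi.add_apply, comb_apply_none]
    have e1 : θ = ε * (E + 1) := by rw [hε]; field_simp
    rw [hθ, phi_apply] at e1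
    have e2 : ∑ i ∈ D.B S, t i * D.e i =
        ε * E - ∑ i ∈ D.B S, (D.e i : ℚ) * (v (some (j i)) / D.l i (j i)) := by
      rw [hE, Finset.mul_sum, ← Finset.sum_sub_distrib]
      exact Finset.sum_congr rfl fun i _ => by rw [ht]; ring
    rw [e2]
    linarith
  have a1 : ∀ i s, D.Sub i S → D.l i s ≠ 0 →
      m (some s) = (ε + (v (some s) / D.l i s - v (some (j i)) / D.l i (j i))) * D.l i s := by
    intro i s hi hs
    rw [hmdef, Pi.add_apply, H.comb_apply t _ hs, if_pos (mem_B.2 hi), ht]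
    have : (D.l i s : ℚ) ≠ 0 := by exact_mod_cast hs
    field_simp
    ring
  have a2 : ∀ s, (∀ i, D.Sub i S → D.l i s = 0) → m (some s) = v (some s) := fun s hs => by
    rw [hmdef, Pi.add_apply, comb_apply_free t _ fun i hi => hs i (mem_B.1 hi), add_zero]
  have a3 : On S m := hv.add (on_sum fun i hi => ((mem_B.1 hi).on (by
    by_contra h
    exact h0 h i (mem_B.1 hi))).smul _)
  have a4 : ∀ s, 0 ≤ m s := by
    rintro (_ | s)
    · rw [a0]; exact hε0
    · by_cases hs : ∀ i, D.Sub i S → D.l i s = 0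
      · by_cases hS : some s ∈ S
        · rw [a2 s hs]; exact h1 s ⟨hS, hs⟩
        · exact (a3 _ hS).ge
      · push Not at hs
        obtain ⟨i, hi, hs⟩ := hs
        rw [a1 i s hi hs]
        have := hm i s hs
        exact mul_nonneg (by linarith) (by positivity)
  have a5 : (univ.filter fun s => m s ≠ 0) ⊆ S := fun s hs => by
    by_contra h
    exact (mem_filter.1 hs).2 (a3 s h)
  refine ⟨t, univ.filter fun s => m s ≠ 0, ⟨a5, ?_⟩,
    fun s hs => (a4 s).lt_of_ne' (mem_filter.1 hs).2, fun s hs => by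
      by_contra h
      exact hs (mem_filter.2 ⟨mem_univ _, h⟩),
    fun s hs e => by simp [a2 s hs.2, e], fun k hk e => ?_⟩
  · rcases hε0.eq_or_lt with e | e
    · refine Or.inr ⟨by simp [a0, ← e], fun i hi => ?_⟩
      have := hi _ (hj i)
      rw [mem_filter, a1 i _ (hi.mono a5) (hj i), ← e] at this
      simp at this
    · refine Or.inl ⟨by simp [a0, e.ne'], fun i hi s hs => ?_⟩
      rw [mem_filter, a1 i s hi hs]
      have := hm i s hs
      have h3 : (0 : ℚ) < D.l i s := by exact_mod_cast Nat.pos_of_ne_zero hs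
      exact ⟨mem_univ _, (mul_pos (by linarith) h3).ne'⟩
  · have h3 : θ ≤ D.phi (D.B S) k v := by
      rw [hθ, phi_apply, phi_apply]
      exact add_le_add_right (Finset.sum_le_sum fun i _ =>
        mul_le_mul_of_nonneg_left (hm i _ (hk i)) (by positivity)) _
    have h4 : θ = 0 := le_antisymm (e ▸ h3) (h2 j hj)
    simp [a0, hε, h4]

omit H in
lemma below_h0 {S S' : Finset (Option σ)} (h : D.Below S' S) : none ∉ S' → ∀ i, ¬ D.Sub i S' :=
  fun h0 => by
    rcases h.2 with a | a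
    · exact absurd a.1 h0
    · exact a.2

theorem descent (η : V σ →ₗ[ℚ] ℚ) (n : ℕ) : ∀ (S : Finset (Option σ)) (m : V σ), S.card < n →
    (none ∉ S → ∀ i, ¬ D.Sub i S) → 0 ≤ m → On S m → D.dq m = iq K D.A →
    (∀ i, D.Sub i S → η (D.ρ i) = 0) →
    ∃ S' m', D.Below S' S ∧ D.Fixed S' ∧ D.Full S' m' ∧ η m' ≤ η m := by
  classical
  induction n with
  | zero => intro S m h; omega
  | succ n ih =>
    intro S m hn h0 hm hS hd hη
    have hηc : ∀ (S' : Finset (Option σ)) (t : ι → ℚ), S' ⊆ S →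
        η (∑ i ∈ D.B S', t i • D.ρ i) = 0 := fun S' t h => by
      rw [map_sum]
      exact Finset.sum_eq_zero fun i hi => by simp [hη i ((mem_B.1 hi).mono h)]
    obtain ⟨t, S₁, b1, b2, b3, -, -⟩ := H.normal h0 hS (fun s _ => hm _)
      fun j _ => phi_nonneg _ j hm
    set m₁ := m + ∑ i ∈ D.B S, t i • D.ρ i with hm₁
    have hF : D.Full S₁ m₁ := ⟨b2, b3, by rw [hm₁, map_add, H.dq_comb, add_zero, hd]⟩
    have hη₁ : η m₁ = η m := by rw [hm₁, map_add, hηc S t subset_rfl, add_zero]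
    by_cases hfix : D.Fixed S₁
    · exact ⟨S₁, m₁, b1, hfix, hF, hη₁.le⟩
    obtain ⟨r, r1, r2, r3, r4⟩ : ∃ r : V σ, On S₁ r ∧ D.dq r = 0 ∧
        (∀ t : ι → ℚ, r ≠ ∑ i, t i • D.ρ i) ∧ η r ≤ 0 := by
      unfold Fixed at hfix
      push Not at hfix
      obtain ⟨r, r1, r2, r3⟩ := hfix
      rcases le_total (η r) 0 with h | h
      · exact ⟨r, r1, r2, r3, h⟩
      · refine ⟨-r, r1.neg, by rw [map_neg, r2, neg_zero], fun t e => r3 (fun i => -t i) ?_,
          by simpa using h⟩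
        rw [neg_eq_iff_eq_neg.1 e]
        simp
    let val : σ ⊕ (ι → σ) → V σ →ₗ[ℚ] ℚ :=
      Sum.elim (fun s => LinearMap.proj (some s)) fun j => D.phi (D.B S₁) j
    let ok : σ ⊕ (ι → σ) → Prop := Sum.elim (D.Un S₁) D.Valid
    have hval : ∀ ψ, 0 ≤ val ψ m₁ := by
      rintro (s | j)
      · exact hF.nonneg _
      · exact phi_nonneg _ j hF.nonneg
    obtain ⟨ψ, hψ, hmin⟩ := Finset.exists_min_image (univ.filter fun ψ => ok ψ ∧ val ψ r < 0)
      (fun ψ => val ψ m₁ / -val ψ r) (by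
        by_contra hne
        have h1 : ∀ ψ, ok ψ → 0 ≤ val ψ r := fun ψ h => by
          by_contra h2
          exact hne ⟨ψ, by simpa using ⟨h, not_le.1 h2⟩⟩
        obtain ⟨t', S', -, c2, c3, -, -⟩ := H.normal (below_h0 b1) r1 (fun s hs => h1 (.inl s) hs)
          fun j hj => h1 (.inr j) hj
        have h2 := H.pointedQ (v := r + ∑ i ∈ D.B S₁, t' i • D.ρ i) (fun s => by
          by_cases hs : s ∈ S'
          · exact (c2 s hs).le
          · exact (c3 s hs).ge) (by rw [map_add, H.dq_comb, add_zero, r2])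
        refine r3 (fun i => if i ∈ D.B S₁ then -t' i else 0) ?_
        rw [eq_neg_of_add_eq_zero_left h2]
        simp only [ite_smul, zero_smul, Finset.sum_ite_mem, univ_inter, neg_smul,
          Finset.sum_neg_distrib])
    obtain ⟨hok, hneg⟩ := (mem_filter.1 hψ).2
    set τ := val ψ m₁ / -val ψ r with hτ
    have hτ0 : 0 ≤ τ := div_nonneg (hval ψ) (by linarith)
    have h1 : ∀ ψ', ok ψ' → 0 ≤ val ψ' (m₁ + τ • r) := fun ψ' h => by
      rw [map_add, map_smul, smul_eq_mul]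
      by_cases h2 : val ψ' r < 0
      · have := hmin ψ' (by simpa using ⟨h, h2⟩)
        rw [le_div_iff₀ (by linarith)] at this
        linarith
      · exact add_nonneg (hval ψ') (mul_nonneg hτ0 (not_lt.1 h2))
    have h2 : val ψ (m₁ + τ • r) = 0 := by
      rw [map_add, map_smul, smul_eq_mul, hτ]
      have := hneg.ne
      field_simp
      ring
    obtain ⟨t', S₂, c1, c2, c3, c4, c5⟩ := H.normal (below_h0 b1) (b3.add (r1.smul τ))
      (fun s hs => h1 (.inl s) hs) fun j hj => h1 (.inr j) hj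
    have h3 : S₂.card < S₁.card := by
      refine Finset.card_lt_card (Finset.ssubset_iff_of_subset c1.1 |>.2 ?_)
      rcases ψ with s | j
      · exact ⟨some s, hok.1, c4 s hok h2⟩
      · refine ⟨none, ?_, c5 j hok h2⟩
        by_contra h
        have e : D.B S₁ = ∅ := Finset.eq_empty_of_forall_notMem fun i hi =>
          below_h0 b1 h i (mem_B.1 hi)
        have : val (.inr j) r = 0 := by
          simp only [val, Sum.elim_inr, phi_apply, e, Finset.sum_empty, add_zero]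
          exact r1 _ h
        linarith
    have h4 := Finset.card_le_card b1.1
    obtain ⟨S', m', d1, d2, d3, d4⟩ := ih S₂ (m₁ + τ • r + ∑ i ∈ D.B S₁, t' i • D.ρ i) (by omega)
      (below_h0 c1) (fun s => by
        by_cases hs : s ∈ S₂
        · exact (c2 s hs).le
        · exact (c3 s hs).ge) c3
      (by rw [map_add, H.dq_comb, map_add, map_smul, r2, hF.2.2]; simp)
      fun i hi => hη i ((hi.mono c1.1).mono b1.1)
    refine ⟨S', m', (d1.trans c1).trans b1, d2, d3, d4.trans ?_⟩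
    rw [map_add, hηc S₁ t' b1.1, add_zero, map_add, map_smul, smul_eq_mul, hη₁]
    nlinarith

theorem desc {S : Finset (Option σ)} (hA : D.Adm S) {m : V σ} (h1 : 0 ≤ m) (h2 : On S m)
    (h3 : D.dq m = iq K D.A) (η : V σ →ₗ[ℚ] ℚ) (hη : ∀ i, D.Sub i S → η (D.ρ i) = 0) :
    ∃ S' m', D.Below S' S ∧ D.Fixed S' ∧ D.Full S' m' ∧ η m' ≤ η m :=
  H.descent η _ S m (Nat.lt_succ_self _) hA.nosub h1 h2 h3 hη

lemma exists_fK {S : Finset (Option σ)} (hF : D.Fixed S) {ψ : V σ →ₗ[ℚ] ℚ}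
    (hψ : ∀ i, D.Sub i S → ψ (D.ρ i) = 0) :
    ∃ f : K →+ ℚ, (∀ s ∈ S, f (D.W s) = ψ (Pi.single s 1)) ∧
      ∀ v y, On S v → D.dq v = iq K y → f y = ψ v := by
  obtain ⟨Φ, hΦ⟩ := H.exists_fun hF hψ
  refine ⟨Φ.toAddMonoidHom.comp (iq K).toAddMonoidHom, fun s hs => ?_, fun v y h1 h2 => ?_⟩
  · rw [← hΦ _ (on_single hs), dq_single]
    rfl
  · rw [← hΦ _ h1, h2]
    rfl

/-- The vertex belonging to a fixed type is integral. -/
lemma vertex_int {S : Finset (Option σ)} (hF : D.Fixed S) (hG : D.Gen S) {m : V σ}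
    (hm : D.Full S m) : ∃ α : Option σ → ℤ, On S (cv α) ∧ D.dz α = D.A ∧
      ∀ ψ : V σ →ₗ[ℚ] ℚ, (∀ i, D.Sub i S → ψ (D.ρ i) = 0) → ψ m = ψ (cv α) := by
  obtain ⟨α, h1, h2⟩ := hG D.A
  refine ⟨α, h1, h2, fun ψ hψ => ?_⟩
  have := H.kill hF hψ (hm.2.1.sub h1) (by rw [map_sub, hm.2.2, dq_cv, h2, sub_self])
  rwa [map_sub, sub_eq_zero] at this

theorem orbit {S₀ S : Finset (Option σ)} (h : S₀ ⊆ S) {m₀ : V σ} (hm : D.Full S₀ m₀)
    (hG : D.Gen S₀) (hA : D.Adm S) (κ : V σ →ₗ[ℚ] ℚ) (h1 : ∀ i, D.Sub i S → κ (D.ρ i) = 0)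
    (h2 : ∀ v, On S₀ v → κ v = 0) {u : Option σ} (hu : u ∈ S) (h3 : 0 < κ (Pi.single u 1)) :
    ∃ (S₁ : Finset (Option σ)) (m₁ : V σ) (α : Option σ → ℤ), D.Below S₁ S ∧ D.Fixed S₁ ∧
      D.Gen S₁ ∧ D.Full S₁ m₁ ∧ On S₁ (cv α) ∧ κ m₁ = κ (cv α) ∧ 0 < κ m₁ := by
  obtain ⟨β, b1, b2⟩ := hG (D.W u)
  obtain ⟨ε, e1, e2⟩ := small hm.1 (-cv β)
  obtain ⟨S₁, m₁, c1, c2, c3, c4⟩ := H.desc hA (m := m₀ + ε • (Pi.single u 1 - cv β)) (fun s => by
      have h4 : (0 : ℚ) ≤ (Pi.single u 1 : V σ) s := by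
        rw [Pi.single_apply]; split_ifs <;> norm_num
      simp only [Pi.add_apply, Pi.smul_apply, Pi.sub_apply, smul_eq_mul, Pi.zero_apply]
      by_cases hs : s ∈ S₀
      · have := e2 s hs
        simp only [Pi.neg_apply] at this
        nlinarith
      · rw [hm.2.1 s hs, b1 s hs]
        nlinarith)
    ((hm.2.1.mono h).add (((on_single hu).sub (b1.mono h)).smul ε))
    (by rw [map_add, map_smul, map_sub, dq_single, dq_cv, b2, hm.2.2]; simp) (-κ)
    fun i hi => by simp [h1 i hi]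
  have hG₁ := H.free _ (hA.below c1) c3.ss
  obtain ⟨α, a1, -, a3⟩ := H.vertex_int c2 hG₁ c3
  refine ⟨S₁, m₁, α, c1, c2, hG₁, c3, a1, a3 κ fun i hi => h1 i (hi.mono c1.1), ?_⟩
  simp only [LinearMap.neg_apply, map_add, map_smul, map_sub, h2 _ hm.2.1, h2 _ b1,
    smul_eq_mul] at c4
  nlinarith

omit H in
lemma A_nonneg {S : Finset (Option σ)} {m : V σ} (hm : D.Full S m) {f : K →+ ℚ}
    (hf : ∀ s ∈ S, 0 ≤ f (D.W s)) : 0 ≤ f D.A := by
  rw [hom_rep f hm.2.2]
  refine Finset.sum_nonneg fun s _ => ?_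
  by_cases hs : s ∈ S
  · exact mul_nonneg (hm.nonneg s) (hf s hs)
  · simp [hm.2.1 s hs]

/-- Invariant curves along a coordinate whose block has a further vanishing variable. -/
theorem curve {S : Finset (Option σ)} {m : V σ} (hm : D.Full S m) (hA : D.Adm S) {u : σ}
    (hu : some u ∉ S) (h1 : ∀ i, D.l i u ≠ 0 → ∃ u', u' ≠ u ∧ D.l i u' ≠ 0 ∧ some u' ∉ S)
    {f : K →+ ℚ} (hf : ∀ s ∈ S, 0 ≤ f (D.W s)) : f (D.w u) ≤ f D.A := by
  have hs : ∀ i, D.Sub i (insert (some u) S) ↔ D.Sub i S := fun i => ⟨fun hi s hs => by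
    rcases mem_insert.1 (hi s hs) with e | e
    · obtain rfl := Option.some.inj e
      obtain ⟨u', a, b, d⟩ := h1 i hs
      rcases mem_insert.1 (hi u' b) with e | e
      · exact absurd (Option.some.inj e) a
      · exact absurd e d
    · exact e, fun hi => hi.mono (subset_insert _ _)⟩
  have hA' : D.Adm (insert (some u) S) := by
    rcases hA with a | ⟨a, z, b, d⟩
    · exact Or.inl ⟨by simp [a.1], fun i => by rw [hs]; exact a.2 i⟩
    · exact Or.inr ⟨by simp [a], z, b, fun i => by rw [hs]; exact d i⟩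
  obtain ⟨S₁, m₁, α, c1, -, -, c4, -, c6, c7⟩ := H.orbit (subset_insert (some u) S) hm
    (H.free _ hA hm.ss) hA' (LinearMap.proj (some u)) (fun i hi => by
      have : D.l i u = 0 := by
        by_contra h
        exact hu ((hs i).1 hi u h)
      simp [this]) (fun v hv => hv _ hu) (mem_insert_self _ _) (by simp)
  have h2 : 1 ≤ m₁ (some u) := by
    have e1 : m₁ (some u) = α (some u) := c6
    have e2 : 0 < m₁ (some u) := c7
    rw [e1] at e2 ⊢
    exact_mod_cast e2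
  have h3 := A_nonneg hm hf
  have h4 : m₁ (some u) * f (D.w u) ≤ f D.A := by
    rw [hom_rep f c4.2.2, ← Finset.add_sum_erase _ _ (mem_univ (some u))]
    refine le_add_of_nonneg_right (Finset.sum_nonneg fun s hs => ?_)
    by_cases h : s ∈ S
    · exact mul_nonneg (c4.nonneg s) (hf s h)
    · rw [c4.2.1 s fun h5 => by
        rcases mem_insert.1 (c1.1 h5) with e | e
        · exact ne_of_mem_erase hs e
        · exact h e, zero_mul]
  by_cases h5 : 0 ≤ f (D.w u)
  · nlinarith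
  · linarith

/-- A fixed type below `S` whose vertex minimises `η`. -/
theorem minimiser {S : Finset (Option σ)} (hA : D.Adm S) (hS : D.SS S) (η : V σ →ₗ[ℚ] ℚ)
    (hη : ∀ i, η (D.ρ i) = 0) : ∃ S' m', D.Below S' S ∧ D.Fixed S' ∧ D.Full S' m' ∧
      ∀ M M' : V σ, On S' M → On S M' → 0 ≤ M' → D.dq M = D.dq M' → η M ≤ η M' := by
  classical
  let P : Finset (Option σ) → Prop := fun S' => D.Below S' S ∧ D.Fixed S' ∧ ∃ m, D.Full S' m
  let val : Finset (Option σ) → ℚ := fun S' => if h : P S' then η h.2.2.choose else 0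
  have hval : ∀ S' m', D.Below S' S → D.Fixed S' → D.Full S' m' → val S' = η m' := by
    intro S' m' a b d
    have h : P S' := ⟨a, b, m', d⟩
    have := H.kill b (fun i _ => hη i) (h.2.2.choose_spec.2.1.sub d.2.1)
      (by rw [map_sub, h.2.2.choose_spec.2.2, d.2.2, sub_self])
    simp only [val, dif_pos h]
    rwa [map_sub, sub_eq_zero] at this
  obtain ⟨S', h1, h2⟩ := Finset.exists_min_image (univ.filter P) val (by
    obtain ⟨m, a, b, d⟩ := hS
    obtain ⟨S', m', c1, c2, c3, -⟩ := H.desc hA a b d η fun i _ => hη i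
    exact ⟨S', mem_filter.2 ⟨mem_univ _, c1, c2, m', c3⟩⟩)
  obtain ⟨c1, c2, m', c3⟩ := (mem_filter.1 h1).2
  refine ⟨S', m', c1, c2, c3, fun M M' a b d e => ?_⟩
  obtain ⟨ε, e1, e2⟩ := small c3.1 (M' - M)
  obtain ⟨S'', m'', d1, d2, d3, d4⟩ := H.desc hA (m := m' + ε • (M' - M)) (fun s => by
      by_cases hs : s ∈ S'
      · exact (e2 s hs).le
      · have : 0 ≤ M' s := d s
        simp only [Pi.add_apply, Pi.smul_apply, Pi.sub_apply, smul_eq_mul, Pi.zero_apply,
          c3.2.1 s hs, a s hs]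
        nlinarith)
    ((c3.2.1.mono c1.1).add ((b.sub (a.mono c1.1)).smul ε))
    (by rw [map_add, map_smul, map_sub, e, c3.2.2]; simp) η fun i _ => hη i
  have h3 := h2 S'' (mem_filter.2 ⟨mem_univ _, d1, d2, m'', d3⟩)
  rw [hval _ _ c1 c2 c3, hval _ _ d1 d2 d3] at h3
  simp only [map_add, map_smul, map_sub, smul_eq_mul] at d4
  nlinarith

end Hyp

end Dat

end Pool.Agent.Lib.MP_9ff3e7_ag.Tor
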