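import Mathlib

/-! A nonzero integral determinant cannot be small. -/

namespace Pool.Agent.Lib.MP_9ff3e7_ag.Tor

open Finset Matrix

variable {n : Type} [Fintype n] [DecidableEq n]

lemma det_bound (a : n → ℚ) (Q : n → n → ℚ) (ha : ∀ v, 0 ≤ a v) (hQ : ∀ u v, 0 ≤ Q u v) :
    |(Matrix.of fun u v => a v - Q u v).det| ≤ ∏ v, (a v + ∑ u, Q u v) := by
  let N : Matrix (Unit ⊕ n) (Unit ⊕ n) ℚ := fromBlocks 1 (Matrix.of fun _ v => a v)
    (Matrix.of fun _ _ => -1) (Matrix.of fun u v => -Q u v)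
  let N' : Matrix (Unit ⊕ n) (Unit ⊕ n) ℚ := fromBlocks 1 (Matrix.of fun _ v => a v) 0
    (Matrix.of fun u v => a v - Q u v)
  have h1 : N'.det = N.det := det_eq_of_forall_row_eq_smul_add_const
    (Sum.elim (fun _ => 0) fun _ => 1) (.inl ()) rfl (by
      rintro (i | i) (j | j) <;> simp [N, N']
      ring)
  have h2 : N'.det = (Matrix.of fun u v => a v - Q u v).det := by
    rw [det_fromBlocks_zero₂₁, det_one, one_mul]
  have h3 : ∀ i, |N i (.inl ())| = 1 := by rintro (i | i) <;> simp [N]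
  have h4 : ∀ v, ∑ i, |N i (.inr v)| = a v + ∑ u, Q u v := fun v => by
    simp [N, Fintype.sum_sum_type, abs_of_nonneg (ha v), abs_of_nonneg (hQ _ v)]
  rw [← h2, h1, det_apply', ← Finset.prod_congr rfl fun v _ => h4 v, Finset.prod_univ_sum]
  refine (Finset.abs_sum_le_sum_abs _ _).trans ?_
  have h5 : ∀ π : Equiv.Perm (Unit ⊕ n),
      |((Equiv.Perm.sign π : ℤ) : ℚ) * ∏ i, N (π i) i| = ∏ v, |N (π (.inr v)) (.inr v)| := by
    intro π
    rw [abs_mul, Finset.abs_prod, Fintype.prod_sum_type]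
    rcases Int.units_eq_one_or (Equiv.Perm.sign π) with e | e <;> simp [e, h3]
  rw [Finset.sum_congr rfl fun π _ => h5 π,
    ← Finset.sum_image (s := univ) (g := fun (π : Equiv.Perm (Unit ⊕ n)) v => π (.inr v))
      (f := fun x : n → Unit ⊕ n => ∏ v, |N (x v) (.inr v)|) ?_]
  · exact Finset.sum_le_sum_of_subset_of_nonneg (fun x _ => by simp)
      fun x _ _ => Finset.prod_nonneg fun v _ => abs_nonneg _
  · intro π _ π' _ e
    have e1 : ∀ v, π (.inr v) = π' (.inr v) := congrFun e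
    refine Equiv.ext ?_
    rintro (i | v)
    · obtain ⟨x, hx⟩ := π'.surjective (π (.inl i))
      rcases x with j | v
      · exact hx.symm
      · rw [← e1] at hx
        exact absurd (π.injective hx) (by simp)
    · exact e1 v

lemma det_contra_sq [Nonempty n] (R : n → n → ℚ) (k : n → ℕ) (l : n → ℤ) (P : n → n → ℤ)
    (χ a : n → ℚ) (hR : ∀ u v, R u v = χ u * l v + P u v) (hk : ∀ v, ∑ u, k u * R u v = l v)
    (hg : ∀ d : ℕ, (∀ u, d ∣ k u) → d = 1) (hk0 : ∀ u, k u ≠ 0)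
    (hi : ∀ x : n → ℚ, (∀ v, ∑ u, x u * R u v = 0) → x = 0) (h1 : ∀ v, 0 < a v)
    (h2 : ∀ u v, R u v ≤ a v) (h3 : ∀ v, ∑ u, (a v - R u v) + 2 * a v ≤ 1) : False := by
  set M : Matrix n n ℚ := Matrix.of R with hM
  have a1 : M.det ≠ 0 := fun e => by
    obtain ⟨x, b1, b2⟩ := exists_vecMul_eq_zero_iff.2 e
    exact b1 (hi x fun v => congrFun b2 v)
  have a2 : ∀ u, ∃ z : ℤ, k u * M.det = z := fun u => by
    have b1 := det_updateRow_sum M u fun u => (k u : ℚ)
    have b2 : (∑ u, (k u : ℚ) • M u) = fun v => (l v : ℚ) := funext fun v => by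
      rw [Finset.sum_apply, ← hk v]
      rfl
    rw [b2, smul_eq_mul] at b1
    refine ⟨((Matrix.of P).updateRow u l).det, ?_⟩
    rw [← b1, Int.cast_det]
    refine det_eq_of_forall_row_eq_smul_add_const (fun i => if i = u then 0 else χ i) u
      (if_pos rfl) fun i j => ?_
    by_cases e : i = u
    · simp [e]
    · simp [e, hM, hR, add_comm]
  have a3 : M.det.den = 1 := hg _ fun u => by
    obtain ⟨z, hz⟩ := a2 u
    have b1 : (k u : ℚ) ≠ 0 := by exact_mod_cast hk0 u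
    have b2 : M.det = Rat.divInt z (k u) := by
      rw [Rat.divInt_eq_div, ← hz]
      push_cast
      field_simp
    have := Rat.den_dvd z (k u)
    rw [← b2] at this
    exact_mod_cast this
  have a4 : 1 ≤ |M.det| := by
    rw [← (Rat.den_eq_one_iff _).1 a3] at a1 ⊢
    have : M.det.num ≠ 0 := by exact_mod_cast a1
    exact_mod_cast Int.one_le_abs this
  have a5 := det_bound a (fun u v => a v - R u v) (fun v => (h1 v).le) fun u v => sub_nonneg.2 (h2 u v)
  simp only [sub_sub_cancel] at a5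
  have a6 : ∀ v, 0 ≤ a v + ∑ u, (a v - R u v) := fun v =>
    add_nonneg (h1 v).le (Finset.sum_nonneg fun u _ => sub_nonneg.2 (h2 u v))
  obtain ⟨v⟩ := ‹Nonempty n›
  have a7 : ∏ v, (a v + ∑ u, (a v - R u v)) < 1 := by
    rw [← Finset.mul_prod_erase _ _ (mem_univ v)]
    have b1 : ∏ w ∈ univ.erase v, (a w + ∑ u, (a w - R u w)) ≤ 1 :=
      Finset.prod_le_one (fun w _ => a6 w) fun w _ => by linarith [h1 w, h3 w]
    nlinarith [h1 v, h3 v, a6 v]
  exact absurd (a4.trans a5) (not_le.2 a7)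

lemma det_contra {σ : Type} [DecidableEq σ] (U V : Finset σ) (hV : V.Nonempty)
    (hc : V.card ≤ U.card) (R : σ → σ → ℚ) (k : σ → ℕ) (l : σ → ℤ) (P : σ → σ → ℤ) (χ a : σ → ℚ)
    (hR : ∀ u ∈ U, ∀ v ∈ V, R u v = χ u * l v + P u v)
    (hk : ∀ v ∈ V, ∑ u ∈ U, k u * R u v = l v)
    (hg : ∀ d : ℕ, (∀ u ∈ U, d ∣ k u) → d = 1) (hk0 : ∀ u ∈ U, k u ≠ 0)
    (hi : ∀ x : σ → ℚ, (∀ v ∈ V, ∑ u ∈ U, x u * R u v = 0) → ∀ u ∈ U, x u = 0)
    (h1 : ∀ v ∈ V, 0 < a v) (h2 : ∀ u ∈ U, ∀ v ∈ V, R u v ≤ a v)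
    (h3 : ∀ v ∈ V, ∑ u ∈ U, (a v - R u v) + 2 * a v ≤ 1) : False := by
  have hi' : ∀ x : U → ℚ, (∀ v : V, ∑ u : U, x u * R u v = 0) → x = 0 := fun x hx => by
    funext u
    have := hi (fun s => if h : s ∈ U then x ⟨s, h⟩ else 0) (fun v hv => by
      rw [← hx ⟨v, hv⟩, ← Finset.sum_coe_sort U]
      exact Finset.sum_congr rfl fun s _ => by simp) u u.2
    simpa using this
  have h4 : U.card ≤ V.card := by
    have : LinearIndependent ℚ fun (u : U) (v : V) => R u v := by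
      rw [Fintype.linearIndependent_iff]
      exact fun x hx => congrFun (hi' x fun v => by simpa using congrFun hx v)
    simpa using this.fintype_card_le_finrank
  let e : V ≃ U := Fintype.equivOfCardEq (by simp; omega)
  have hs : ∀ F : σ → ℚ, ∑ u : V, F (e u) = ∑ u ∈ U, F u := fun F => by
    rw [← Finset.sum_coe_sort U]
    exact Equiv.sum_comp e fun u => F u
  have : Nonempty V := hV.to_subtype
  refine det_contra_sq (n := V) (fun u v => R (e u) v) (fun u => k (e u)) (fun v => l v)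
    (fun u v => P (e u) v) (fun u => χ (e u)) (fun v => a v) (fun u v => hR _ (e u).2 _ v.2)
    (fun v => by rw [hs fun u => k u * R u v, hk v v.2])
    (fun d hd => hg d fun u hu => by simpa using hd (e.symm ⟨u, hu⟩)) (fun u => hk0 _ (e u).2)
    (fun x hx => ?_) (fun v => h1 v v.2) (fun u v => h2 _ (e u).2 _ v.2)
    fun v => by rw [hs fun u => a v - R u v]; exact h3 v v.2
  have := hi' (fun u => x (e.symm u)) fun v => by
    rw [← hx v, ← Equiv.sum_comp e]
    simp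
  funext u
  simpa using congrFun this (e u)

end Pool.Agent.Lib.MP_9ff3e7_ag.Tor
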