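import Pool.Agent.Lib.MP_9ff3e7_ag.TOrb

/-! Fixed types at which the base coordinates vanish. -/

set_option linter.unusedSectionVars false

namespace Pool.Agent.Lib.MP_9ff3e7_ag.Tor

open Finset

variable {c : ℕ} {σ ι K : Type} [Fintype σ] [Fintype ι] [DecidableEq σ] [DecidableEq ι]
  [AddCommGroup K]

lemma two_big {l₁ l₂ s₁ s₂ a μ lam : ℚ} (h1 : l₁ = 2 ∨ 3 ≤ l₁) (h2 : 0 < l₂) (e1 : l₁ * s₁ = μ)
    (e2 : l₂ * s₂ = μ) (h3 : s₂ ≤ s₁) (h4 : a < s₂) (h5 : μ ≤ l₁ * l₂ * a)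
    (h6 : μ - l₁ * a + 1 ≤ lam) : 2 * s₁ + s₂ - 4 * a + 1 ≤ lam := by
  have h7 : s₂ ≤ l₁ * a := by
    by_contra h
    push Not at h
    nlinarith
  rcases h1 with rfl | h
  · linarith
  · nlinarith [mul_nonneg (sub_nonneg.2 h) (sub_nonneg.2 (h4.le.trans h3))]

namespace Dat

variable (D : Dat c σ ι K)

noncomputable def tot (S : Finset (Option σ)) (v : σ) (f : K →+ ℚ) : ℚ :=
  ∑ i ∈ D.N S, ∑ s ∈ D.U S i, (f D.A - f (D.w s)) +
    (c + 1 - (D.N S).card) * (f D.A - f D.μ) + ∑ i ∈ (D.N S)ᶜ, (D.l i v : ℚ)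

variable {D} {S : Finset (Option σ)} {m₀ : V σ} {ub : ι → σ} {v : σ} {f : K →+ ℚ}

namespace Hyp

variable (H : D.Hyp)
include H

lemma zer (T : Finset ι) (hT : T.card ≤ c) :
    ∃ p : Fin (c + 1) → ℂ, p ≠ 0 ∧ ∀ i ∈ T, MvPolynomial.eval p (D.g i) = 0 :=
  exists_zero T D.g (fun i _ => eval_zero_hom (H.hg i) (H.he i)) (by rw [Fintype.card_fin]; omega)

variable (h : D.TF S m₀ ub)
include h

lemma N_le : (D.N S).card ≤ c + 1 := (H.smooth S h.hn h.adm h.full.ss).2.1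

lemma vertJ {j : ι} (hj : D.Ns S j) {p : Fin (c + 1) → ℂ} (hp : p ≠ 0)
    (h1 : ∀ i ∈ (D.N S).erase j, MvPolynomial.eval p (D.g i) = 0) :
    ∃ S₁ m₁ κ, D.Orb S ub (D.T p) S₁ m₁ κ ∧ (∀ i ∈ D.T p, i ≠ j → i ∉ D.N S) ∧
      1 ≤ D.l j (ub j) * κ := by
  obtain ⟨S₁, m₁, κ, o, h2⟩ := H.vert h (P := {j}) (by simpa using hj) hp
    fun i a b => h1 i (mem_erase.2 ⟨by simpa using b, a⟩)
  refine ⟨S₁, m₁, κ, o, fun i a b => h2 i a (by simpa using b),
    o.int _ (Nat.pos_of_ne_zero (h.valid j)) fun i a _ => ?_⟩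
  by_cases e : i = j
  · rw [e]
  · rw [(h.bp (h2 i a (by simpa using e))).1]
    exact one_dvd _

lemma vert0 {p : Fin (c + 1) → ℂ} (hp : p ≠ 0)
    (h1 : ∀ i ∈ D.N S, MvPolynomial.eval p (D.g i) = 0) :
    ∃ S₁ m₁ κ, D.Orb S ub (D.T p) S₁ m₁ κ ∧ (∀ i ∈ D.T p, i ∉ D.N S) ∧ 1 ≤ 1 * κ := by
  obtain ⟨S₁, m₁, κ, o, h2⟩ := H.vert h (P := ∅) (by simp) hp fun i a _ => h1 i a
  refine ⟨S₁, m₁, κ, o, fun i a => h2 i a (by simp), ?_⟩
  simpa using o.int 1 one_pos fun i a _ => by rw [(h.bp (h2 i a (by simp))).1]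

lemma erase_le {j : ι} (hj : D.Ns S j) : ((D.N S).erase j).card ≤ c := by
  have := H.N_le h
  rw [card_erase_of_mem hj.1]
  omega

variable (hv : some v ∈ S) (hf : D.Is S (LinearMap.proj (some v)) f)
include hv hf

lemma a_ge : 1 ≤ f D.A := hf.proj_A (H.free _ h.adm h.full.ss) h.full hv

lemma size {j : ι} (hj : D.Ns S j) : D.l j (ub j) * f (D.w (ub j)) + D.l j v = f D.μ := by
  have := H.single_val (h.U_ns hj) hv hf
  rwa [H.e_one h hj.1, Nat.cast_one, one_mul] at this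

lemma vertA {j : ι} (hj : D.Ns S j) (h1 : ∀ k, D.l k v ≠ 0 → k ∈ D.N S ∧ k ≠ j) :
    f D.μ ≤ D.l j (ub j) * f D.A := by
  obtain ⟨p, hp, h2⟩ := H.zer _ (H.erase_le h hj)
  obtain ⟨S₁, m₁, κ, o, a, b⟩ := H.vertJ h hj hp h2
  refine v1a o hv hf (by linarith [H.a_ge h hv hf]) (fun i hi => ?_) (by positivity) b
  by_contra e
  exact a i hi (h1 i e).2 (h1 i e).1

lemma small_of {j : ι} (hj : D.Ns S j) (h1 : f D.μ - D.l j v ≤ D.l j (ub j) * f D.A) :
    f (D.w (ub j)) ≤ f D.A := by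
  have h2 := H.size h hv hf hj
  have h3 : (0 : ℚ) < D.l j (ub j) := by exact_mod_cast Nat.pos_of_ne_zero (h.valid j)
  exact le_of_mul_le_mul_left (by linarith) h3

lemma smallA (h1 : ∀ k, k ∉ D.N S → D.l k v = 0) {j : ι} (hj : D.Ns S j) :
    f (D.w (ub j)) ≤ f D.A := by
  refine H.small_of h hv hf hj ?_
  obtain ⟨p, hp, h2⟩ := H.zer _ (H.erase_le h hj)
  obtain ⟨S₁, m₁, κ, o, a, b⟩ := H.vertJ h hj hp h2
  have ha := H.a_ge h hv hf
  by_cases e : j ∈ D.T p ∧ D.l j v ≠ 0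
  · have := H.v1b o hv hf (by linarith) e.1 e.2 (by positivity) b
    rwa [H.e_one h hj.1, Nat.cast_one, one_mul, one_mul] at this
  · have := v1a o hv hf (by linarith) (fun i hi => by
      by_cases e1 : i = j
      · subst e1
        by_contra e2
        exact e ⟨hi, e2⟩
      · exact h1 i (a i hi e1)) (by positivity) b
    have : (0 : ℚ) ≤ D.l j v := by positivity
    linarith

lemma smallA0 (h1 : ∀ k, k ∉ D.N S → D.l k v = 0) (h2 : (D.N S).card ≤ c) : f D.μ ≤ f D.A := by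
  obtain ⟨p, hp, h3⟩ := H.zer _ h2
  obtain ⟨S₁, m₁, κ, o, a, b⟩ := H.vert0 h hp h3
  simpa using v1a o hv hf (by linarith [H.a_ge h hv hf]) (fun i hi => h1 i (a i hi)) zero_le_one b

section

variable {i₀ : ι} (h0 : D.l i₀ v ≠ 0)
include h0

omit h hv hf in
lemma other {k : ι} (hk : k ≠ i₀) : D.l k v = 0 := by
  by_contra e
  exact hk (H.disj _ _ _ e h0)

omit h hv hf in
lemma nog {p : Fin (c + 1) → ℂ} (hp : MvPolynomial.eval p (D.g i₀) = 0) :
    ∀ i ∈ D.T p, D.l i v = 0 := fun i hi => H.other h0 (by rintro rfl; exact mem_T.1 hi hp)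

lemma smallB1 (h2 : (D.N S).card ≤ c) {j : ι} (hj : D.Ns S j) : f (D.w (ub j)) ≤ f D.A := by
  refine H.small_of h hv hf hj ?_
  obtain ⟨p, hp, h3⟩ := H.zer (insert i₀ ((D.N S).erase j)) (by
    have := card_insert_le i₀ ((D.N S).erase j)
    have := card_erase_add_one hj.1
    omega)
  obtain ⟨S₁, m₁, κ, o, a, b⟩ := H.vertJ h hj hp fun i hi => h3 i (mem_insert_of_mem hi)
  have := v1a o hv hf (by linarith [H.a_ge h hv hf]) (H.nog h0 (h3 _ (mem_insert_self _ _)))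
    (by positivity) b
  have : (0 : ℚ) ≤ D.l j v := by positivity
  linarith

lemma smallB3 {p : Fin (c + 1) → ℂ} (hp : p ≠ 0)
    (h3 : ∀ i ∈ D.N S, MvPolynomial.eval p (D.g i) = 0) :
    f D.μ ≤ f D.A ∨ (MvPolynomial.eval p (D.g i₀) ≠ 0 ∧ D.e i₀ * (f D.μ - f D.A) ≤ D.l i₀ v) := by
  obtain ⟨S₁, m₁, κ, o, a, b⟩ := H.vert0 h hp h3
  have ha := H.a_ge h hv hf
  by_cases e : MvPolynomial.eval p (D.g i₀) = 0
  · exact Or.inl (by simpa using v1a o hv hf (by linarith) (H.nog h0 e) zero_le_one b)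
  · have := H.v1b o hv hf (by linarith) (mem_T.2 e) h0 zero_le_one b
    exact Or.inr ⟨e, by linarith⟩

lemma smallB2 (h2 : (D.N S).card + 1 ≤ c) : f D.μ ≤ f D.A := by
  obtain ⟨p, hp, h3⟩ := H.zer (insert i₀ (D.N S)) ((card_insert_le _ _).trans h2)
  rcases H.smallB3 h hv hf h0 hp fun i hi => h3 i (mem_insert_of_mem hi) with e | e
  · exact e
  · exact absurd (h3 _ (mem_insert_self _ _)) e.1

variable (hN : i₀ ∉ D.N S)
include hN

lemma sizeB {j : ι} (hj : D.Ns S j) : D.l j (ub j) * f (D.w (ub j)) = f D.μ := by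
  have := H.size h hv hf hj
  rwa [H.other h0 (by rintro rfl; exact hN hj.1), Nat.cast_zero, add_zero] at this

lemma bigB {j : ι} (hj : D.Ns S j) (hb : f D.A < f (D.w (ub j))) :
    D.l j (ub j) * f D.A < f D.μ := by
  rw [← H.sizeB h hv hf h0 hN hj]
  exact mul_lt_mul_of_pos_left hb (by exact_mod_cast Nat.pos_of_ne_zero (h.valid j))

lemma smallB4 {j : ι} (hj : D.Ns S j) (hb : f D.A < f (D.w (ub j))) :
    f D.μ - D.l j (ub j) * f D.A + 1 ≤ D.l i₀ v := by
  obtain ⟨p, hp, h2⟩ := H.zer _ (H.erase_le h hj)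
  obtain ⟨S₁, m₁, κ, o, a, b⟩ := H.vertJ h hj hp h2
  have ha := H.a_ge h hv hf
  have h3 := H.bigB h hv hf h0 hN hj hb
  by_cases e : MvPolynomial.eval p (D.g i₀) = 0
  · linarith [v1a o hv hf (by linarith) (H.nog h0 e) (by positivity) b]
  · have h4 := H.v1c o hv hf (by linarith) (mem_T.2 e) h0 (by rintro rfl; exact hN hj.1)
      (h.two_le hj) fun k a1 a2 => (h.bp (a k a1 a2)).1
    have h5 : (1 : ℚ) ≤ D.e i₀ := by exact_mod_cast H.he i₀
    have h6 : f D.μ - D.l j (ub j) * f D.A < D.l i₀ v := by nlinarith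
    obtain ⟨x, hx⟩ := hf.proj_int (H.free _ h.adm h.full.ss) D.μ
    obtain ⟨y, hy⟩ := hf.proj_int (H.free _ h.adm h.full.ss) D.A
    rw [hx, hy] at h6 ⊢
    exact_mod_cast h6

lemma pair {i j : ι} (hi : D.Ns S i) (hj : D.Ns S j) (hij : i ≠ j)
    (bi : f D.A < f (D.w (ub i))) (bj : f D.A < f (D.w (ub j))) :
    f D.μ ≤ D.l i (ub i) * D.l j (ub j) * f D.A ∧ ∀ k, D.Ns S k → k = i ∨ k = j := by
  obtain ⟨p, hp, h3⟩ := H.zer (insert i₀ (((D.N S).erase i).erase j)) (by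
    have := card_insert_le i₀ (((D.N S).erase i).erase j)
    have := card_erase_add_one (mem_erase.2 ⟨hij.symm, hj.1⟩)
    have := H.erase_le h hi
    omega)
  obtain ⟨S₁, m₁, κ, o, a⟩ := H.vert h (P := {i, j}) (by simp [hi, hj]) hp fun k a b =>
    h3 k (mem_insert_of_mem (by simp at b; simp [a, b]))
  have ha := H.a_ge h hv hf
  have hg := H.nog h0 (h3 _ (mem_insert_self _ _))
  have li := Nat.pos_of_ne_zero (h.valid i)
  have lj := Nat.pos_of_ne_zero (h.valid j)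
  have one : ∀ k ∈ D.T p, k ≠ i → k ≠ j → D.l k (ub k) = 1 := fun k b1 b2 b3 =>
    (h.bp (a k b1 (by simp [b2, b3]))).1
  refine ⟨?_, fun k hk => ?_⟩
  · have := v1a o hv hf (by linarith) hg (by positivity) (o.int _ (Nat.mul_pos li lj)
      fun k b _ => by
        by_cases e : k = i
        · exact e ▸ dvd_mul_right _ _
        · by_cases e' : k = j
          · exact e' ▸ dvd_mul_left _ _
          · rw [one k b e e']
            exact one_dvd _)
    exact_mod_cast this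
  by_contra hk'
  push Not at hk'
  have hκ := o.pos
  have b0 : κ * f D.μ ≤ f D.A := by
    have := nogain o hv hf hg
    have : 0 ≤ m₁ (some v) := o.full.nonneg _
    linarith
  have lt : ∀ i, D.Ns S i → f D.A < f (D.w (ub i)) → D.l i (ub i) * κ < 1 := fun i hi bi => by
    have := mul_lt_mul_of_pos_left (H.bigB h hv hf h0 hN hi bi) hκ
    by_contra e
    push Not at e
    nlinarith
  have ki := lt i hi bi
  have kj := lt j hj bj
  have b1 : i ∈ D.T p ∧ some (ub i) ∈ S₁ := by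
    by_contra e
    have := o.int _ lj fun k b b' => by
      by_cases e' : k = j
      · rw [e']
      · rw [one k b (by rintro rfl; exact e ⟨b, b'⟩) e']
        exact one_dvd _
    linarith
  have b2 : j ∈ D.T p := by
    by_contra e
    have := o.int _ li fun k b b' => by
      by_cases e' : k = i
      · rw [e']
      · rw [one k b e' (by rintro rfl; exact e b)]
        exact one_dvd _
    linarith
  have ex : ∀ v, ∃ f, D.Is S (LinearMap.proj (some v)) f := fun v =>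
    (H.exists_fK h.fix fun i hi => absurd hi (h.hB i)).imp fun _ e => e.1
  rcases o.bel with ⟨n1, n2⟩ | ⟨n1, n2⟩
  · obtain ⟨v', c1, c2⟩ : ∃ v', some v' ∈ S ∧ some v' ∉ S₁ := by
      by_contra e
      push Not at e
      have hS : S ⊆ S₁ := by
        rintro (_ | s) hs
        · exact absurd hs h.hn
        · exact e s hs
      obtain ⟨β, d1, d2⟩ := H.free _ h.adm h.full.ss D.μ
      have := H.kill o.fix (ψ := D.phi (D.T p) ub)
        (fun k hk => by rw [H.phi_ρ h.valid, if_pos (o.subT k hk)])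
        ((on_single n1).sub (d1.mono hS)) (by rw [map_sub, dq_single, dq_cv, d2, W_none, sub_self])
      simp [phi_apply, d1 _ h.hn, fun i => d1 _ (mem_U.1 (h.hub i)).2] at this
    obtain ⟨f', hf'⟩ := ex v'
    have c3 : ∀ k ∈ D.T p, D.l k v' = 0 := fun k hk => by
      by_contra e
      exact c2 (n2 k hk v' e)
    have c4 := nogain o c1 hf' c3
    rw [o.full.2.1 _ c2, zero_add] at c4
    have c5 := H.a_ge h c1 hf'
    have c6 : 0 < f' D.μ := by
      by_contra e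
      nlinarith
    obtain ⟨i', c7, c8⟩ : ∃ i', D.l i' v' ≠ 0 ∧ i' ∉ D.N S := by
      by_contra e
      push Not at e
      have := H.vertA h c1 hf' hi fun k hk => ⟨e k hk, by rintro rfl; exact hk (c3 _ b1.1)⟩
      rw [c4] at this
      nlinarith
    have sz := fun k hk => H.sizeB h c1 hf' c7 c8 (j := k) hk
    have gi := hf'.proj_int (H.free _ h.adm h.full.ss)
    obtain ⟨y, hy⟩ := gi (D.w (ub k))
    have dv : ∀ s ∈ S₁, ∃ n : ℤ, f' (D.W s) = (D.l k (ub k) * n : ℤ) := by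
      have hμ : f' D.μ = (D.l k (ub k) * y : ℤ) := by
        rw [← sz k hk, hy]
        simp
      have aux : ∀ i, D.Ns S i → k ≠ i → ∃ n : ℤ, f' (D.w (ub i)) = (D.l k (ub k) * n : ℤ) := by
        intro i hi hki
        obtain ⟨x, hx⟩ := gi (D.w (ub i))
        have e := sz i hi
        rw [hx, hμ] at e
        have e' : (D.l i (ub i) : ℤ) * x = D.l k (ub k) * y := by exact_mod_cast e
        obtain ⟨n, hn⟩ := Int.dvd_of_dvd_mul_right_of_gcd_one (a := D.l k (ub k))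
          (b := D.l i (ub i)) (c := x) ⟨y, e'⟩ (by exact_mod_cast H.coprime h hk hi hki)
        exact ⟨n, by rw [hx, hn]⟩
      rintro (_ | s) hs
      · exact ⟨y, hμ⟩
      · rcases o.sub s hs with e | ⟨i', e, rfl⟩
        · refine ⟨0, ?_⟩
          rw [hf'.proj e, if_neg (by rintro e'; exact c2 (e' ▸ hs))]
          simp
        · by_cases e1 : i' = i
          · exact e1 ▸ aux i hi hk'.1
          · by_cases e2 : i' = j
            · exact e2 ▸ aux j hj hk'.2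
            · have e3 := H.single_val (h.bp (a i' e (by simp [e1, e2]))).U_eq c1 hf'
              rw [one i' e e1 e2, c3 i' e, hμ] at e3
              exact ⟨D.e i' * y, by
                push_cast at e3 ⊢
                rw [W_some]
                linarith⟩
    obtain ⟨β, d1, d2⟩ := o.gen (D.w v')
    have d3 := hom_dz (D := D) f' β
    have d4 : f' (D.w v') = 1 := by simpa using hf'.proj c1
    choose! n hn using dv
    rw [d2, d4, Finset.sum_congr rfl (g := fun s => ((D.l k (ub k) * (β s * n s) : ℤ) : ℚ))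
      fun s _ => by
        by_cases e : s ∈ S₁
        · rw [hn s e]
          push_cast
          ring
        · have : β s = 0 := by simpa [cv] using d1 s e
          simp [this], ← Int.cast_sum, ← Finset.mul_sum] at d3
    have d5 : (D.l k (ub k) : ℤ) ∣ 1 := ⟨_, by exact_mod_cast d3⟩
    have := Int.le_of_dvd one_pos d5
    have := h.two_le hk
    omega
  · obtain ⟨s, hs⟩ := U_nonempty (n2 i)
    obtain ⟨c0, c2⟩ := mem_U.1 hs
    have c1 : some s ∈ S := by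
      by_contra e
      have : s ∈ D.U S i := mem_U.2 ⟨c0, e⟩
      rw [h.U_ns hi, mem_singleton] at this
      exact c2 (this ▸ b1.2)
    obtain ⟨f', hf'⟩ := ex s
    have c3 := H.gain o c1 hf' b1.1 c0
    rw [o.full.2.1 _ c2, zero_add] at c3
    have c4 := H.vertA h c1 hf' hj fun k hk => by
      obtain rfl := H.disj _ _ _ hk c0
      exact ⟨hi.1, hij⟩
    have c5 := H.a_ge h c1 hf'
    have c6 : 0 ≤ m₁ (some (ub i)) := o.full.nonneg _
    have c7 : 0 ≤ m₁ (some (ub i)) / D.l i (ub i) * D.l i s := by positivity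
    nlinarith [mul_le_mul_of_nonneg_left c4 hκ.le]

end

lemma loc_false {i : ι} (hi : i ∈ D.N S) {u : σ} (hu : u ∈ D.U S i) :
    f (D.w u) ≤ f D.A ∨ (D.Ns S i ∧ u = ub i) := by
  by_cases e : 1 < (D.U S i).card
  · exact Or.inl (H.multi h.full h.adm e hu hf.proj_nonneg)
  · have h1 : D.Ns S i := ⟨hi, le_antisymm (not_lt.1 e) (Finset.card_pos.2 ⟨u, hu⟩)⟩
    rw [h.U_ns h1, mem_singleton] at hu
    exact Or.inr ⟨h1, hu⟩

lemma sumN (P : Finset ι) (h1 : ∀ j ∈ P, D.Ns S j)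
    (h2 : ∀ j, D.Ns S j → j ∉ P → f (D.w (ub j)) ≤ f D.A) :
    ∑ j ∈ P, (f D.A - f (D.w (ub j))) ≤ ∑ i ∈ D.N S, ∑ s ∈ D.U S i, (f D.A - f (D.w s)) := by
  rw [Finset.sum_congr rfl (g := fun i => ∑ s ∈ D.U S i, (f D.A - f (D.w s))) fun j hj => by
    rw [h.U_ns (h1 j hj), sum_singleton]]
  refine Finset.sum_le_sum_of_subset_of_nonneg (fun j hj => (h1 j hj).1) fun i a b =>
    Finset.sum_nonneg fun s hs => sub_nonneg.2 ?_
  rcases H.loc_false h hv hf a hs with e | ⟨e, rfl⟩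
  · exact e
  · exact h2 i e b

lemma totA (h1 : ∀ k, k ∉ D.N S → D.l k v = 0) : 0 ≤ D.tot S v f := by
  have h2 := H.sumN h hv hf ∅ (by simp) fun j hj _ => H.smallA h hv hf h1 hj
  rw [sum_empty] at h2
  have h3 : (0 : ℚ) ≤ ∑ i ∈ (D.N S)ᶜ, (D.l i v : ℚ) := Finset.sum_nonneg fun _ _ => by positivity
  have h4 : 0 ≤ ((c : ℚ) + 1 - (D.N S).card) * (f D.A - f D.μ) := by
    rcases (H.N_le h).eq_or_lt with e | e
    · rw [e]; simp
    · have := H.smallA0 h hv hf h1 (by omega)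
      have : ((D.N S).card : ℚ) ≤ c + 1 := by exact_mod_cast e.le
      exact mul_nonneg (by linarith) (by linarith)
  unfold tot
  linarith

omit h hv hf in
lemma lam_eq {i₀ : ι} (h0 : D.l i₀ v ≠ 0) (hN : i₀ ∉ D.N S) :
    ∑ i ∈ (D.N S)ᶜ, (D.l i v : ℚ) = D.l i₀ v :=
  Finset.sum_eq_single i₀ (fun k _ hk => by simp [H.other h0 hk]) (by simp [hN])

lemma totB {i₀ : ι} (h0 : D.l i₀ v ≠ 0) (hN : i₀ ∉ D.N S) (h1 : (D.N S).card ≤ c) :
    (f D.μ ≤ f D.A ∧ 0 ≤ D.tot S v f) ∨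
      (f D.A < f D.μ ∧ f D.A - f D.μ + D.l i₀ v ≤ D.tot S v f) := by
  have h2 := H.sumN h hv hf ∅ (by simp) fun j hj _ => H.smallB1 h hv hf h0 h1 hj
  rw [sum_empty] at h2
  unfold tot
  rw [H.lam_eq h0 hN]
  by_cases e : f D.μ ≤ f D.A
  · have h3 : ((D.N S).card : ℚ) ≤ c := by exact_mod_cast h1
    have : (0 : ℚ) ≤ D.l i₀ v := by positivity
    exact Or.inl ⟨e, by nlinarith⟩
  · have h3 : (D.N S).card = c := by
      by_contra h3
      exact e (H.smallB2 h hv hf h0 (by omega))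
    have h4 : ((D.N S).card : ℚ) = c := by exact_mod_cast h3
    rw [h4]
    exact Or.inr ⟨not_le.1 e, by linarith⟩

theorem tot_main : 1 - f D.A ≤ D.tot S v f ∧
    ∀ j, D.Ns S j → f (D.w (ub j)) - 2 * f D.A + 1 ≤ D.tot S v f := by
  have ha := H.a_ge h hv hf
  have easy : 0 ≤ D.tot S v f → (∀ j, D.Ns S j → f (D.w (ub j)) ≤ f D.A) →
      1 - f D.A ≤ D.tot S v f ∧ ∀ j, D.Ns S j → f (D.w (ub j)) - 2 * f D.A + 1 ≤ D.tot S v f :=
    fun a b => ⟨by linarith, fun j hj => by linarith [b j hj]⟩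
  by_cases h1 : ∀ k, k ∉ D.N S → D.l k v = 0
  · exact easy (H.totA h hv hf h1) fun j hj => H.smallA h hv hf h1 hj
  push Not at h1
  obtain ⟨i₀, hN, h0⟩ := h1
  by_cases h2 : (D.N S).card ≤ c
  · refine easy ?_ fun j hj => H.smallB1 h hv hf h0 h2 hj
    rcases H.totB h hv hf h0 hN h2 with e | e
    · exact e.2
    · obtain ⟨p, hp, h3⟩ := H.zer _ h2
      rcases H.smallB3 h hv hf h0 hp h3 with e1 | e1
      · linarith [e.1]
      · have h5 : (1 : ℚ) ≤ D.e i₀ := by exact_mod_cast H.he i₀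
        nlinarith [e.1, e.2, e1.2]
  have h3 : ((D.N S).card : ℚ) = c + 1 := by
    exact_mod_cast le_antisymm (H.N_le h) (by omega)
  have h4 : ∀ P : Finset ι, (∀ j ∈ P, D.Ns S j) →
      (∀ j, D.Ns S j → j ∉ P → f (D.w (ub j)) ≤ f D.A) →
      ∑ j ∈ P, (f D.A - f (D.w (ub j))) + D.l i₀ v ≤ D.tot S v f := fun P a b => by
    have := H.sumN h hv hf P a b
    unfold tot
    rw [H.lam_eq h0 hN, h3]
    linarith
  by_cases h5 : ∀ j, D.Ns S j → f (D.w (ub j)) ≤ f D.A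
  · refine easy ?_ h5
    have := h4 ∅ (by simp) fun j hj _ => h5 j hj
    have : (0 : ℚ) ≤ D.l i₀ v := by positivity
    rw [sum_empty] at *
    linarith
  push Not at h5
  classical
  obtain ⟨i, hi, hmax⟩ := Finset.exists_max_image (univ.filter fun j => D.Ns S j)
    (fun j => f (D.w (ub j))) (by
      obtain ⟨j, hj, -⟩ := h5
      exact ⟨j, by simpa using hj⟩)
  have hi' : D.Ns S i := by simpa using hi
  have hmax' : ∀ j, D.Ns S j → f (D.w (ub j)) ≤ f (D.w (ub i)) := fun j hj =>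
    hmax j (by simpa using hj)
  have bi : f D.A < f (D.w (ub i)) := by
    obtain ⟨j, hj, e⟩ := h5
    exact e.trans_le (hmax' j hj)
  suffices h6 : f (D.w (ub i)) - 2 * f D.A + 1 ≤ D.tot S v f from
    ⟨by linarith, fun j hj => by linarith [hmax' j hj]⟩
  have h7 := H.smallB4 h hv hf h0 hN hi' bi
  have h8 := H.sizeB h hv hf h0 hN hi'
  have h9 : (2 : ℚ) ≤ D.l i (ub i) := by exact_mod_cast h.two_le hi'
  by_cases h10 : ∀ j, D.Ns S j → j ≠ i → f (D.w (ub j)) ≤ f D.A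
  · have := h4 {i} (by simpa using hi') fun j a b => h10 j a (by simpa using b)
    rw [sum_singleton] at this
    nlinarith
  · push Not at h10
    obtain ⟨j, hj, hij, bj⟩ := h10
    obtain ⟨p1, p2⟩ := H.pair h hv hf h0 hN hi' hj hij.symm bi bj
    have := h4 {i, j} (by simp [hi', hj]) fun k a b => absurd (by simpa using p2 k a) b
    rw [sum_pair hij.symm] at this
    have h11 := two_big (l₁ := D.l i (ub i)) (l₂ := D.l j (ub j)) (by
      rcases (h.two_le hi').eq_or_lt with e | e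
      · exact Or.inl (by exact_mod_cast e.symm)
      · exact Or.inr (by exact_mod_cast e)) (by exact_mod_cast Nat.pos_of_ne_zero (h.valid j)) h8
      (H.sizeB h hv hf h0 hN hj) (hmax' j hj) bj p1 h7
    linarith

lemma low_false {κ m : ℕ} (hm : D.Bd κ m) : D.tot S v f + κ * f D.A - 1 ≤ f (D.Dv m) := by
  have e : D.B S = ∅ := Finset.eq_empty_of_forall_notMem fun i hi => h.hB i (mem_B.1 hi)
  have h1 := H.f_Dpp (S := S) f m
  have h2 := H.count (H.free _ h.adm h.full.ss) h.adm hm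
  rw [if_neg h.hn] at h2
  rw [Dpp] at h1
  rw [e] at h1 h2
  rw [sum_empty, sub_zero] at h1
  rw [compl_empty] at h1 h2
  have h3 : ∑ s ∈ D.Uns S, f (D.w s) = 1 := by
    rw [Finset.sum_eq_single v (fun s hs e => by simpa [e] using hf.proj (mem_Uns.1 hs).1)
      (fun e => absurd (mem_Uns.2 ⟨hv, fun i hi => absurd hi (h.hB i)⟩) e)]
    simpa using hf.proj hv
  have h4 : 0 ≤ ∑ s ∈ D.F S, (f D.A - f (D.w s)) :=
    Finset.sum_nonneg fun s hs => sub_nonneg.2 (H.freev h.full h.adm hs hf.proj_nonneg)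
  have h5 : ∑ i ∈ D.N S, D.sig f S i = (D.N S).card * (f D.μ - f D.A) +
      ∑ i ∈ D.N S, ∑ s ∈ D.U S i, (f D.A - f (D.w s)) := by
    rw [← nsmul_eq_mul, ← Finset.sum_const, ← Finset.sum_add_distrib]
    exact Finset.sum_congr rfl fun i hi => by rw [sig_eq, H.e_one h hi]; simp
  have h6 : ∑ i ∈ (D.N S)ᶜ, D.sig f S i = ∑ i ∈ (D.N S)ᶜ, (D.l i v : ℚ) :=
    Finset.sum_congr rfl fun i hi => by rw [H.sig_Bp (h.bp (mem_compl.1 hi)), hf.sum_l hv]
  rw [← Finset.sum_add_sum_compl (D.N S) (D.sig f S), h3, h5, h6] at h1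
  have ha := H.a_ge h hv hf
  unfold tot
  nlinarith

omit hv hf in
lemma rep_false (m : ℕ) (y : K)
    (h1 : ∀ v f, some v ∈ S → D.Is S (LinearMap.proj (some v)) f → f y ≤ f (D.Dv m)) :
    D.Rep S (D.Dv m - y) := by
  obtain ⟨β, b1, b2⟩ := H.free _ h.adm h.full.ss (D.Dv m - y)
  refine ⟨β, fun s => ?_, b1, b2⟩
  by_cases hs : s ∈ S
  · rcases s with _ | v
    · exact absurd hs h.hn
    obtain ⟨f, hf, -⟩ := H.exists_fK h.fix (ψ := LinearMap.proj (some v))
      fun i hi => absurd hi (h.hB i)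
    have e := Is.evalz hf b1
    rw [b2, map_sub, LinearMap.proj_apply, cv] at e
    have := h1 v f hs hf
    have : (0 : ℚ) ≤ β (some v) := by linarith
    exact_mod_cast this
  · have : β s = 0 := by simpa [cv] using b1 s hs
    exact this.ge

lemma a_le {m : ℕ} (hm : D.Bd 2 m) : f D.A ≤ f (D.Dv m) := by
  have h1 := H.low_false h hv hf hm
  have h2 := (H.tot_main h hv hf).1
  push_cast at h1
  linarith

lemma bad {m : ℕ} (hm : D.Bd 2 m) {p : Fin (c + 1) → ℂ} (hp : p ≠ 0)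
    (h3 : ∀ i ∈ D.N S, MvPolynomial.eval p (D.g i) = 0) (hb : f (D.Dv m) < f D.μ) :
    ∃ i, i ∉ D.N S ∧ D.l i v ≠ 0 ∧ D.e i = 1 ∧ MvPolynomial.eval p (D.g i) ≠ 0 ∧
      D.l i v < 2 * (f D.μ - f D.A) := by
  have h1 := (H.smooth S h.hn h.adm h.full.ss).2.2 p hp h3
  have h2 := H.a_le h hv hf hm
  have h4 := H.low_false h hv hf hm
  have ha := H.a_ge h hv hf
  push_cast at h4
  obtain ⟨i, hN, h0⟩ : ∃ i, i ∉ D.N S ∧ D.l i v ≠ 0 := by
    by_contra e
    push Not at e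
    linarith [H.smallA0 h hv hf e h1]
  rcases H.totB h hv hf h0 hN h1 with e | e
  · linarith [e.1]
  rcases H.smallB3 h hv hf h0 hp h3 with e1 | e1
  · linarith
  have h5 : D.l i v < 2 * (f D.μ - f D.A) := by linarith [e.2]
  refine ⟨i, hN, h0, ?_, e1.1, h5⟩
  by_contra h6
  have : (2 : ℚ) ≤ D.e i := by
    have := H.he i
    exact_mod_cast (by omega : 2 ≤ D.e i)
  nlinarith [e1.2, e.1]

omit hv hf

theorem false0 {κ m : ℕ} (hκ : 1 ≤ κ) (hm : D.Bd κ m) : D.Rep S (D.Dv m) := by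
  have hk : (1 : ℚ) ≤ κ := by exact_mod_cast hκ
  have := H.rep_false h m 0 fun v f hv hf => by
    have h1 := H.low_false h hv hf hm
    have h2 := (H.tot_main h hv hf).1
    have h3 := H.a_ge h hv hf
    rw [map_zero]
    nlinarith
  rwa [sub_zero] at this

theorem false1 {m : ℕ} (hm : D.Bd 2 m) {u : σ} (h1 : some u ∉ S) (h2 : ¬ ∃ i, D.Bp S i u) :
    D.Rep S (D.Dv m - D.w u) := by
  refine H.rep_false h m _ fun v f hv hf => ?_
  have h3 := H.a_le h hv hf hm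
  by_cases h4 : ∀ i, D.l i u = 0
  · exact (H.freev h.full h.adm (mem_F.2 ⟨h4, h1⟩) hf.proj_nonneg).trans h3
  push Not at h4
  obtain ⟨i, hi⟩ := h4
  have h5 : u ∈ D.U S i := mem_U.2 ⟨hi, h1⟩
  rcases H.loc_false h hv hf (by
    by_contra e
    have := h.bp e
    rw [this.U_eq, mem_singleton] at h5
    exact h2 ⟨i, h5 ▸ this⟩) h5 with e | ⟨e, rfl⟩
  · exact e.trans h3
  · have h6 := H.low_false h hv hf hm
    have h7 := (H.tot_main h hv hf).2 i e
    push_cast at h6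
    linarith

theorem false_unit {m : ℕ} (hm : D.Bd 2 m) {v : σ} (hv : some v ∈ S) {M : Option σ → ℤ}
    (h1 : On S (cv M)) (h2 : D.dz M = D.Dv m) : 1 ≤ M (some v) := by
  obtain ⟨f, hf, -⟩ := H.exists_fK h.fix (ψ := LinearMap.proj (some v))
    fun i hi => absurd hi (h.hB i)
  have e := Is.evalz hf h1
  have h3 := (H.a_ge h hv hf).trans (H.a_le h hv hf hm)
  rw [← h2, e, LinearMap.proj_apply, cv] at h3
  exact_mod_cast h3

theorem false2 {m : ℕ} (hm : D.Bd 2 m) {p : Fin (c + 1) → ℂ} (hp : p ≠ 0)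
    (h3 : ∀ i ∈ D.N S, MvPolynomial.eval p (D.g i) = 0) : D.Rep S (D.Dv m - D.μ) ∨
      ∃ i u, D.Bp S i u ∧ D.e i = 1 ∧ MvPolynomial.eval p (D.g i) ≠ 0 ∧
        D.Rep S (D.Dv m - D.w u) := by
  by_cases h1 : ∀ v f, some v ∈ S → D.Is S (LinearMap.proj (some v)) f → f D.μ ≤ f (D.Dv m)
  · exact Or.inl (H.rep_false h m _ h1)
  push Not at h1
  obtain ⟨v, f, hv, hf, hb⟩ := h1
  obtain ⟨i, a1, a2, a3, a4, a5⟩ := H.bad h hv hf hm hp h3 hb
  refine Or.inr ⟨i, ub i, h.bp a1, a3, a4, H.rep_false h m _ fun v' f' hv' hf' => ?_⟩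
  have h4 := H.single_val (h.bp a1).U_eq hv' hf'
  rw [(h.bp a1).1, a3, Nat.cast_one, one_mul, one_mul] at h4
  have h5 := H.a_le h hv' hf' hm
  by_cases e : D.l i v' = 0
  · rw [e, Nat.cast_zero, add_zero] at h4
    rw [h4]
    by_contra hb'
    obtain ⟨k, b1, b2, b3, b4, b5⟩ := H.bad h hv' hf' hm hp h3 (not_le.1 hb')
    obtain ⟨S₁, m₁, κ, o, -, d⟩ := H.vert0 h hp h3
    have hik : i ≠ k := by rintro rfl; exact b2 e
    have key : ∀ v f i, some v ∈ S → D.Is S (LinearMap.proj (some v)) f → i ∉ D.N S →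
        D.l i v ≠ 0 → MvPolynomial.eval p (D.g i) ≠ 0 → D.l i v < 2 * (f D.μ - f D.A) →
        κ < 2 * m₁ (some (ub i)) := fun v f i hv hf a1 a2 a4 a5 => by
      have c1 := H.gain o hv hf (mem_T.2 a4) a2
      rw [(h.bp a1).1, Nat.cast_one, div_one] at c1
      have c2 : 0 ≤ m₁ (some v) := o.full.nonneg _
      have c3 := H.a_ge h hv hf
      have c4 : (0 : ℚ) < D.l i v := by exact_mod_cast Nat.pos_of_ne_zero a2
      refine lt_of_mul_lt_mul_right ?_ c4.le
      nlinarith [mul_lt_mul_of_pos_left a5 o.pos]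
    have k1 := key v f i hv hf a1 a2 a4 a5
    have k2 := key v' f' k hv' hf' b1 b2 b4 b5
    have k3 := kappa_ge o (P := {i, k})
      (insert_subset (mem_T.2 a4) (singleton_subset_iff.2 (mem_T.2 b4)))
    rw [sum_pair hik, (h.bp a1).1, (h.bp b1).1, a3, b3] at k3
    simp only [Nat.cast_one, div_one, one_mul] at k3
    linarith
  · have : (0 : ℚ) ≤ D.l i v' := by positivity
    rcases H.smallB3 h hv' hf' e hp h3 with e1 | e1
    · linarith
    · have := e1.2
      rw [a3, Nat.cast_one, one_mul] at this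
      linarith

end Hyp

end Dat

end Pool.Agent.Lib.MP_9ff3e7_ag.Tor
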