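import Pool.Agent.Lib.MP_9ff3e7_ag.TFalse
import Pool.Agent.Lib.MP_9ff3e7_ag.TDet

/-! Two fixed types over different base points cannot share their adjoint monomial. -/

set_option linter.unusedSectionVars false

namespace Pool.Agent.Lib.MP_9ff3e7_ag.Tor

open Finset

variable {c : ℕ} {σ ι K : Type} [Fintype σ] [Fintype ι] [DecidableEq σ] [DecidableEq ι]
  [AddCommGroup K]

namespace Dat

variable (D : Dat c σ ι K)

structure Side (X : Finset (Option σ)) (mx : V σ) (zx : Fin (c + 1) → ℂ) (m : ℕ)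
    (M : Option σ → ℤ) : Prop where
  tt : D.TT X mx zx
  tight : D.Tight X zx
  bd : D.Bd 2 m
  nn : 0 ≤ M
  on : On X (cv M)
  deg : D.dz M = D.Dv m
  no : ¬ D.Rep X (D.Dv m - D.μ)

variable {D} {X Y : Finset (Option σ)} {mx my : V σ} {zx zy : Fin (c + 1) → ℂ} {m : ℕ}
  {M : Option σ → ℤ}

lemma no_mu (hn : none ∈ X) (h0 : 0 ≤ M) (h1 : On X (cv M)) {y : K} (h2 : D.dz M = y)
    (h3 : ¬ D.Rep X (y - D.μ)) : M none = 0 := by
  by_contra e
  refine h3 ⟨M - Pi.single none 1, ?_, ?_, by rw [map_sub, h2, dz_single, W_none]⟩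
  · rintro (_ | s)
    · have : 0 ≤ M none := h0 _
      simp only [Pi.sub_apply, Pi.single_eq_same, Pi.zero_apply]
      omega
    · simpa using h0 (some s)
  · rw [cv_sub, cv_single]
    exact h1.sub (on_single hn)

lemma bp_iff {i : ι} {u : σ} : D.Bp X i u ↔ D.l i u = 1 ∧ D.U X i = {u} := by
  refine ⟨fun h => ⟨h.1, h.U_eq⟩, fun h => ⟨h.1, ?_, fun s a b => ?_⟩⟩
  · have : u ∈ D.U X i := by rw [h.2]; exact mem_singleton_self u
    exact (mem_U.1 this).2
  · by_contra e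
    have : s ∈ D.U X i := mem_U.2 ⟨a, e⟩
    rw [h.2, mem_singleton] at this
    exact b this

lemma Valid.update {j : ι → σ} (hj : D.Valid j) {i : ι} {v : σ} (h : D.l i v ≠ 0) :
    D.Valid (Function.update j i v) := fun k => by
  by_cases e : k = i
  · subst e
    simpa using h
  · simpa [e] using hj k

lemma phi_update {T : Finset ι} {i : ι} (hi : i ∈ T) (j : ι → σ) (v : σ) (x : V σ) :
    D.phi T (Function.update j i v) x =
      D.phi (T.erase i) j x + D.e i * (x (some v) / D.l i v) := by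
  rw [phi_apply, phi_apply, ← Finset.add_sum_erase _ _ hi, Function.update_self,
    Finset.sum_congr rfl fun k hk => by rw [Function.update_of_ne (ne_of_mem_erase hk)]]
  ring

lemma Side.zero (hy : D.Side Y my zy m M) {s : σ} (h : some s ∉ Y) : M (some s) = 0 := by
  simpa [cv] using hy.on _ h

namespace Hyp

variable (H : D.Hyp)
include H

lemma small_M (hx : D.Side X mx zx m M) {i : ι} (hi : D.Sub i X) :
    ∃ s, D.l i s ≠ 0 ∧ M (some s) < D.l i s := by
  by_contra e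
  push Not at e
  have := no_mu (M := M - D.ρz i) hx.tt.hn (by
    rintro (_ | s)
    · have : 0 ≤ M none := hx.nn _
      simp only [Pi.sub_apply, ρz, Option.elim, Pi.zero_apply]
      omega
    · have : 0 ≤ M (some s) := hx.nn _
      simp only [Pi.sub_apply, ρz, Option.elim, Pi.zero_apply]
      by_cases e1 : D.l i s = 0
      · omega
      · have := e s e1
        omega) (by rw [cv_sub]; exact hx.on.sub (hi.on hx.tt.hn))
    (by rw [map_sub, H.deg, sub_zero, hx.deg]) hx.no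
  have h1 : 0 ≤ M none := hx.nn _
  have h2 := H.he i
  simp only [Pi.sub_apply, ρz, Option.elim] at this
  omega

lemma un_of {i : ι} {s : σ} (h1 : ¬ D.Sub i X) (h2 : D.l i s ≠ 0) (h3 : some s ∈ X) : D.Un X s :=
  ⟨h3, fun k hk => H.other h2 (by rintro rfl; exact h1 hk)⟩

lemma phi_blk (hn : none ∈ X) {j : ι → σ} (hj : D.Valid j) {f : K →+ ℚ}
    (hf : D.Is X (D.phi (D.B X) j) f) {i : ι} (hi : ¬ D.Sub i X) :
    ∑ s ∈ D.U X i, (D.l i s : ℚ) * f (D.w s) = D.e i := by
  have := H.f_block' f X i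
  rw [phi_mu hn hf, mul_one, Finset.sum_eq_zero (s := univ.filter fun s => some s ∈ X)
    fun s hs => by
      by_cases e : D.l i s = 0
      · simp [e]
      · rw [phi_un hj hf (H.un_of hi e (mem_filter.1 hs).2), mul_zero], add_zero] at this
  exact this

lemma ineq (hx : D.Side X mx zx m M) {j : ι → σ} (hj : D.Valid j)
    (h1 : ∀ i, D.Sub i X → M (some (j i)) < D.l i (j i)) {f : K →+ ℚ}
    (hf : D.Is X (D.phi (D.B X) j) f) {P Q : Finset ι} (hP : P ⊆ D.B X) (hQ : Q ⊆ D.N X) :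
    2 * f D.A - 1 + ∑ i ∈ Q, ∑ s ∈ D.U X i, (f D.A - f (D.w s)) ≤
      ∑ i ∈ P, (D.e i : ℚ) * ((M (some (j i)) + 1) / D.l i (j i) - 1) := by
  have h2 := H.true3 hx.tt hx.bd hx.tight hj hf hx.on hx.deg
  rw [no_mu hx.tt.hn hx.nn hx.on hx.deg hx.no, Int.cast_zero, zero_add] at h2
  have h3 : ∑ i ∈ Q, ∑ s ∈ D.U X i, (f D.A - f (D.w s)) ≤
      ∑ i ∈ D.N X, ∑ s ∈ D.U X i, (f D.A - f (D.w s)) :=
    Finset.sum_le_sum_of_subset_of_nonneg hQ fun i hi _ => Finset.sum_nonneg fun s hs =>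
      sub_nonneg.2 (H.multi hx.tt.full hx.tt.adm (H.N_card hx.tt hi) hs (phi_nn hf))
  have h4 := Finset.sum_sdiff (f := fun i =>
    (D.e i : ℚ) * ((M (some (j i)) + 1) / D.l i (j i) - 1)) hP
  have h5 : ∑ i ∈ D.B X \ P, (D.e i : ℚ) * ((M (some (j i)) + 1) / D.l i (j i) - 1) ≤ 0 :=
    Finset.sum_nonpos fun i hi => mul_nonpos_of_nonneg_of_nonpos (by positivity) (by
      have h6 : (0 : ℚ) < D.l i (j i) := by exact_mod_cast Nat.pos_of_ne_zero (hj i)
      rw [sub_nonpos, div_le_one h6]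
      exact_mod_cast h1 i (mem_B.1 (mem_sdiff.1 hi).1))
  linarith

variable (hx : D.Side X mx zx m M) (hy : D.Side Y my zy m M)
include hx hy

lemma un_mem {v : σ} (hv : D.Un X v) : some v ∈ Y := by
  have := H.true_unit hx.tt hx.bd hv hx.on hx.deg
  by_contra e
  have := hy.zero e
  omega

lemma U_same {i : ι} (h1 : ¬ D.Sub i X) (h2 : ¬ D.Sub i Y) : D.U X i = D.U Y i := by
  ext s
  rw [mem_U, mem_U]
  exact and_congr_right fun hs => not_congr ⟨fun e => H.un_mem hx hy (H.un_of h1 hs e),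
    fun e => H.un_mem hy hx (H.un_of h2 hs e)⟩

lemma N_same {i : ι} (h1 : ¬ D.Sub i X) (h2 : i ∈ D.N Y) : i ∈ D.N X := by
  rw [mem_N] at h2 ⊢
  refine ⟨h1, fun ⟨u, hu⟩ => h2.2 ⟨u, ?_⟩⟩
  rw [bp_iff] at hu ⊢
  rwa [← H.U_same hx hy h1 h2.1]

lemma exists_j : ∃ j, D.Valid j ∧ (∀ i, D.Sub i X → M (some (j i)) < D.l i (j i)) ∧
    ∀ i, ¬ D.Sub i Y → j i ∈ D.U Y i := by
  have : ∀ i, ∃ s, D.l i s ≠ 0 ∧ (D.Sub i X → M (some s) < D.l i s) ∧
      (¬ D.Sub i Y → s ∈ D.U Y i) := fun i => by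
    by_cases e : D.Sub i Y
    · by_cases e' : D.Sub i X
      · obtain ⟨s, a, b⟩ := H.small_M hx e'
        exact ⟨s, a, fun _ => b, fun h => absurd e h⟩
      · obtain ⟨s, a⟩ := H.exists_var i
        exact ⟨s, a, fun h => absurd h e', fun h => absurd e h⟩
    · obtain ⟨s, hs⟩ := U_nonempty e
      refine ⟨s, (mem_U.1 hs).1, fun _ => ?_, fun _ => hs⟩
      rw [hy.zero (mem_U.1 hs).2]
      exact_mod_cast Nat.pos_of_ne_zero (mem_U.1 hs).1
  choose j a b d using this
  exact ⟨j, a, b, d⟩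

omit H hx in
lemma upd_lt {j : ι → σ} (h1 : ∀ i, D.Sub i X → M (some (j i)) < D.l i (j i)) {i : ι} {v : σ}
    (hv : v ∈ D.U Y i) (k : ι) (hk : D.Sub k X) :
    M (some (Function.update j i v k)) < D.l k (Function.update j i v k) := by
  by_cases e : k = i
  · subst e
    rw [Function.update_self, hy.zero (mem_U.1 hv).2]
    exact_mod_cast Nat.pos_of_ne_zero (mem_U.1 hv).1
  · rw [Function.update_of_ne e]
    exact h1 k hk

lemma caseA {i : ι} (h1 : i ∈ D.N Y) (h2 : D.Sub i X) {v v' : σ} (hv : v ∈ D.U Y i)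
    (hv' : v' ∈ D.U Y i) (hne : v ≠ v') (l1 : D.l i v = 1) (l2 : D.l i v' = 1) : False := by
  obtain ⟨j, j1, j2, -⟩ := H.exists_j hx hy
  have k1 := j1.update (mem_U.1 hv).1
  have k2 := j1.update (mem_U.1 hv').1
  obtain ⟨f, hf, -⟩ := H.exists_fK hx.tt.fix (H.phi_ρB k1)
  obtain ⟨f', hf', -⟩ := H.exists_fK hx.tt.fix (H.phi_ρB k2)
  have hG := H.free _ hx.tt.adm hx.tt.full.ss
  have d1 : ∀ α, On X (cv α) → f (D.dz α) - f' (D.dz α) = (α (some v) - α (some v') : ℤ) := by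
    intro α hα
    rw [Is.evalz hf hα, Is.evalz hf' hα, phi_update (mem_B.2 h2), phi_update (mem_B.2 h2),
      hy.tight.2.1 i h1, l1, l2]
    simp [cv]
  have d2 : ∀ y, |f y - f' y| < 1 → f y = f' y := fun y hy => by
    obtain ⟨α, a, rfl⟩ := hG y
    rw [← sub_eq_zero]
    rw [d1 α a] at hy ⊢
    have : |α (some v) - α (some v')| < 1 := by exact_mod_cast hy
    exact_mod_cast Int.abs_lt_one_iff.1 this
  have bd : ∀ {j f}, D.Valid j → (∀ i, D.Sub i X → M (some (j i)) < D.l i (j i)) →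
      D.Is X (D.phi (D.B X) j) f → (0 < f D.A ∧ 2 * f D.A ≤ 1) ∧ ∀ k ∈ D.N X, ∀ u ∈ D.U X k,
        0 ≤ f D.A - f (D.w u) ∧ f D.A - f (D.w u) < 1 := fun {j f} a b d => by
    have e0 := phi_A hx.tt d
    have e1 := H.ineq hx a b d (empty_subset _) (empty_subset _)
    simp only [sum_empty] at e1
    refine ⟨⟨e0, by linarith⟩, fun k hk u hu => ?_⟩
    have e2 := H.ineq hx a b d (empty_subset _) (singleton_subset_iff.2 hk)
    have e3 : ∀ s ∈ D.U X k, 0 ≤ f D.A - f (D.w s) := fun s hs =>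
      sub_nonneg.2 (H.multi hx.tt.full hx.tt.adm (H.N_card hx.tt hk) hs (phi_nn d))
    have e4 := Finset.single_le_sum e3 hu
    rw [sum_singleton, sum_empty] at e2
    exact ⟨e3 u hu, by linarith⟩
  obtain ⟨b1, b2⟩ := bd k1 (upd_lt hy j2 hv) hf
  obtain ⟨b3, b4⟩ := bd k2 (upd_lt hy j2 hv') hf'
  have d3 := d2 D.A (abs_lt.2 ⟨by linarith, by linarith⟩)
  have d4 : ∀ s ∈ Y, f (D.W s) = f' (D.W s) := fun s hs => by
    by_cases e : s ∈ X
    · have := d1 (Pi.single s 1) (by rw [cv_single]; exact on_single e)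
      rw [dz_single, Pi.single_eq_of_ne (by rintro rfl; exact (mem_U.1 hv).2 hs),
        Pi.single_eq_of_ne (by rintro rfl; exact (mem_U.1 hv').2 hs)] at this
      simpa [sub_eq_zero] using this
    rcases s with _ | u
    · exact absurd hx.tt.hn e
    obtain ⟨k, a, b⟩ : ∃ k, D.Sub k Y ∧ D.l k u ≠ 0 := by
      by_contra e1
      push Not at e1
      exact e (H.un_mem hy hx ⟨hs, e1⟩)
    have hu : u ∈ D.U X k := mem_U.2 ⟨b, e⟩
    have hk : ¬ D.Sub k X := fun e1 => e (e1 u b)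
    by_cases e1 : k ∈ D.N X
    · obtain ⟨c1, c2⟩ := b2 k e1 u hu
      obtain ⟨c3, c4⟩ := b4 k e1 u hu
      exact d2 _ (abs_lt.2 ⟨by rw [W_some]; linarith, by rw [W_some]; linarith⟩)
    · rw [mem_N, not_and, not_not] at e1
      obtain ⟨u', hu'⟩ := e1 hk
      have c1 := H.phi_blk hx.tt.hn k1 hf hk
      have c2 := H.phi_blk hx.tt.hn k2 hf' hk
      rw [hu'.U_eq] at hu c1 c2
      rw [sum_singleton, hu'.1, Nat.cast_one, one_mul] at c1 c2
      rw [mem_singleton.1 hu, W_some, c1, c2]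
  obtain ⟨β, a, b⟩ := H.free _ hy.tt.adm hy.tt.full.ss (D.w v)
  have d5 : f (D.w v) = f' (D.w v) := by
    rw [← b, hom_dz, hom_dz]
    refine Finset.sum_congr rfl fun s _ => ?_
    by_cases e : s ∈ Y
    · rw [d4 s e]
    · have : β s = 0 := by simpa [cv] using a s e
      simp [this]
  have := d1 (Pi.single (some v) 1) (by rw [cv_single]; exact on_single (h2 v (mem_U.1 hv).1))
  rw [dz_single, W_some, d5, Pi.single_eq_same, Pi.single_eq_of_ne (by simpa using hne.symm)] at this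
  simp at this

lemma caseB {i k : ι} (hik : i ≠ k) (h1 : i ∈ D.N Y) (h2 : D.Sub i X) (h3 : k ∈ D.N Y)
    (h4 : D.Sub k X) {v v' : σ} (hv : v ∈ D.U Y i) (hv' : v' ∈ D.U Y k) (l1 : 2 ≤ D.l i v)
    (l2 : 2 ≤ D.l k v') : False := by
  obtain ⟨j, j1, j2, -⟩ := H.exists_j hx hy
  have k1 := (j1.update (mem_U.1 hv).1).update (mem_U.1 hv').1
  obtain ⟨f, hf, -⟩ := H.exists_fK hx.tt.fix (H.phi_ρB k1)
  have e1 := H.ineq hx k1 (upd_lt hy (upd_lt hy j2 hv) hv') hf (P := {i, k})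
    (insert_subset (mem_B.2 h2) (singleton_subset_iff.2 (mem_B.2 h4))) (empty_subset _)
  rw [sum_empty, sum_pair hik, Function.update_self, Function.update_of_ne hik,
    Function.update_self, hy.zero (mem_U.1 hv).2, hy.zero (mem_U.1 hv').2, hy.tight.2.1 i h1,
    hy.tight.2.1 k h3] at e1
  have e0 := phi_A hx.tt hf
  have a : (1 : ℚ) / D.l i v ≤ 1 / 2 := one_div_le_one_div_of_le two_pos (by exact_mod_cast l1)
  have b : (1 : ℚ) / D.l k v' ≤ 1 / 2 := one_div_le_one_div_of_le two_pos (by exact_mod_cast l2)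
  simp only [Int.cast_zero, zero_add, Nat.cast_one, one_mul] at e1
  linarith

lemma caseC {i₀ i₁ : ι} (h0 : D.N X \ D.N Y = {i₀}) (h1 : D.N Y \ D.N X = {i₁})
    (hc : (D.U Y i₁).card ≤ (D.U X i₀).card) : False := by
  classical
  obtain ⟨n0, n0'⟩ : i₀ ∈ D.N X ∧ i₀ ∉ D.N Y := mem_sdiff.1 (h0 ▸ mem_singleton_self _)
  obtain ⟨n1, n1'⟩ : i₁ ∈ D.N Y ∧ i₁ ∉ D.N X := mem_sdiff.1 (h1 ▸ mem_singleton_self _)
  have s0 : D.Sub i₀ Y := by
    by_contra e
    exact n0' (H.N_same hy hx e n0)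
  have s1 : D.Sub i₁ X := by
    by_contra e
    exact n1' (H.N_same hx hy e n1)
  have e0 := hx.tight.2.1 _ n0
  have e1 := hy.tight.2.1 _ n1
  obtain ⟨j, j1, j2, j3⟩ := H.exists_j hx hy
  have hG := H.free _ hx.tt.adm hx.tt.full.ss
  have ex : ∀ v, ∃ f, v ∈ D.U Y i₁ → D.Is X (D.phi (D.B X) (Function.update j i₁ v)) f := by
    intro v
    by_cases hv : v ∈ D.U Y i₁
    · obtain ⟨f, hf, -⟩ := H.exists_fK hx.tt.fix (H.phi_ρB (j1.update (mem_U.1 hv).1))
      exact ⟨f, fun _ => hf⟩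
    · exact ⟨0, fun e => absurd e hv⟩
  choose f hf using ex
  choose α a1 a2 using fun u => hG (D.w u)
  have lp : ∀ v ∈ D.U Y i₁, (0 : ℚ) < D.l i₁ v := fun v hv => by
    exact_mod_cast Nat.pos_of_ne_zero (mem_U.1 hv).1
  have ev : ∀ v ∈ D.U Y i₁, ∀ u, f v (D.w u) =
      D.phi (D.B X) (Function.update j i₁ v) (cv (α u)) := fun v hv u => by
    rw [← a2, (hf v hv).evalz (a1 u)]
  refine det_contra (D.U X i₀) (D.U Y i₁) (U_nonempty (mem_N.1 n1).1) hc
    (fun u v => D.l i₁ v * f v (D.w u)) (D.l i₀) (fun v => D.l i₁ v) (fun u v => α u (some v))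
    (fun u => D.phi ((D.B X).erase i₁) j (cv (α u))) (fun v => D.l i₁ v * f v D.A)
    (fun u _ v hv => ?_) (fun v hv => ?_) (fun d hd => ?_) (fun u hu => (mem_U.1 hu).1)
    (fun x hx' => ?_) (fun v hv => mul_pos (lp v hv) (phi_A hx.tt (hf v hv)))
    (fun u hu v hv => mul_le_mul_of_nonneg_left
      (H.multi hx.tt.full hx.tt.adm (H.N_card hx.tt n0) hu (phi_nn (hf v hv))) (lp v hv).le)
    fun v hv => ?_
  · rw [ev v hv, phi_update (mem_B.2 s1), e1, cv]
    have := (lp v hv).ne'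
    push_cast
    field_simp
  · have := H.phi_blk hx.tt.hn (j1.update (mem_U.1 hv).1) (hf v hv) (mem_N.1 n0).1
    rw [Finset.sum_congr rfl (g := fun u => D.l i₁ v * ((D.l i₀ u : ℚ) * f v (D.w u)))
      fun u _ => by ring, ← Finset.mul_sum, this, e0]
    simp
  · obtain ⟨u, hu⟩ := U_nonempty (mem_N.1 n0).1
    have d0 : d ≠ 0 := by
      rintro rfl
      exact (mem_U.1 hu).1 (zero_dvd_iff.1 (hd u hu))
    have := H.tf_div hx.tt.fix hG (fun s => s.elim 0 fun s => (D.l i₀ s / d : ℕ)) (d := d)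
      (by exact_mod_cast d0) (Pi.single i₀ 1) (by
        have e : ∑ k, (Pi.single i₀ 1 : ι → ℚ) k • D.ρ k = D.ρ i₀ := by simp [Pi.single_apply]
        rw [e]
        rintro (_ | s) hs
        · exact absurd hx.tt.hn hs
        · simp only [Pi.sub_apply, Pi.smul_apply, cv, ρ_some, smul_eq_mul, Option.elim,
            Int.cast_natCast, sub_eq_zero]
          by_cases e2 : D.l i₀ s = 0
          · simp [e2]
          · exact_mod_cast Nat.mul_div_cancel' (hd s (mem_U.2 ⟨e2, hs⟩)))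
      (mem_U.1 hu).1 (mem_U.1 hu).2
    have h2 : D.l i₀ u ∣ D.l i₀ u / d := by
      simp only [Option.elim] at this
      exact_mod_cast this
    obtain ⟨b, hb⟩ := hd u hu
    have b0 : 0 < b := Nat.pos_of_ne_zero fun e => (mem_U.1 hu).1 (by rw [hb, e, mul_zero])
    rw [hb, Nat.mul_div_cancel_left _ (Nat.pos_of_ne_zero d0)] at h2
    have := Nat.le_of_dvd b0 h2
    have := Nat.pos_of_ne_zero d0
    nlinarith
  · set y : V σ := ∑ u ∈ D.U X i₀, x u • cv (α u) with hy'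
    have y1 : On X y := on_sum fun u _ => (a1 u).smul _
    have y2 : ∀ v ∈ D.U Y i₁, D.phi (D.B X) (Function.update j i₁ v) y = 0 := fun v hv => by
      refine mul_left_cancel₀ (lp v hv).ne' ?_
      rw [mul_zero, ← hx' v hv, hy', map_sum, Finset.mul_sum]
      exact Finset.sum_congr rfl fun u _ => by rw [map_smul, ev v hv, smul_eq_mul]; ring
    have jv := j3 i₁ (mem_N.1 n1).1
    have y3 : ∀ i, D.Sub i X → ¬ D.Sub i Y → ∀ s ∈ D.U Y i,
        y (some s) / D.l i s = y (some (j i)) / D.l i (j i) := fun i b1 b2 s hs => by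
      by_cases e : i = i₁
      · subst e
        have c1 := y2 s hs
        have c2 := y2 _ jv
        rw [phi_update (mem_B.2 b1), e1] at c1 c2
        simp only [Nat.cast_one, one_mul] at c1 c2
        linarith
      · have c1 : i ∉ D.N Y := fun c1 => e (by
          have : i ∈ D.N Y \ D.N X := mem_sdiff.2 ⟨c1, fun c2 => (mem_N.1 c2).1 b1⟩
          rwa [h1, mem_singleton] at this)
        rw [mem_N, not_and, not_not] at c1
        obtain ⟨u, hu⟩ := c1 b2
        have c2 := j3 i b2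
        rw [hu.U_eq, mem_singleton] at hs c2
        rw [hs, c2]
    set P := univ.filter fun i => D.Sub i X ∧ ¬ D.Sub i Y with hP
    set w : V σ := ∑ u ∈ D.U X i₀, x u • Pi.single (some u) 1 with hw
    have w1 : ∀ s, w (some s) = if s ∈ D.U X i₀ then x s else 0 := fun s => by
      simp [hw, Finset.sum_apply, Pi.single_apply]
    have r1 : On X (∑ i ∈ P, (y (some (j i)) / D.l i (j i)) • D.ρ i) :=
      on_sum fun i hi => ((mem_filter.1 hi).2.1.on hx.tt.hn).smul _
    have r2 : On Y (w - y + ∑ i ∈ P, (y (some (j i)) / D.l i (j i)) • D.ρ i) := by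
      rintro (_ | s) hs
      · exact absurd hy.tt.hn hs
      rw [Pi.add_apply, Pi.sub_apply, w1, if_neg fun e => hs (s0 s (mem_U.1 e).1)]
      by_cases e : some s ∈ X
      · obtain ⟨i, b1, b2⟩ : ∃ i, D.Sub i X ∧ D.l i s ≠ 0 := by
          by_contra e1
          push Not at e1
          exact hs (H.un_mem hx hy ⟨e, e1⟩)
        have b3 : ¬ D.Sub i Y := fun e1 => hs (e1 s b2)
        rw [H.comb_apply _ _ b2, if_pos (by simp [hP, b1, b3]), ← y3 i b1 b3 s (mem_U.2 ⟨b2, hs⟩)]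
        have : (D.l i s : ℚ) ≠ 0 := by exact_mod_cast b2
        field_simp
        ring
      · rw [y1 _ e, r1 _ e]
        simp
    obtain ⟨t, ht⟩ := hy.tt.fix _ r2 (by
      rw [map_add, H.dq_comb, add_zero, map_sub, hw, hy', map_sum, map_sum, sub_eq_zero]
      exact Finset.sum_congr rfl fun u _ => by
        rw [map_smul, map_smul, dq_single, dq_cv, a2, W_some])
    have t1 : ∀ i u, ¬ D.Sub i X → u ∈ D.U X i →
        (if u ∈ D.U X i₀ then x u else 0) = t i * D.l i u := fun i u b1 b2 => by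
      have := congrFun ht (some u)
      rw [H.comb_apply _ _ (mem_U.1 b2).1, if_pos (mem_univ _), Pi.add_apply, Pi.sub_apply, w1,
        y1 _ (mem_U.1 b2).2, r1 _ (mem_U.1 b2).2, sub_zero, add_zero] at this
      exact this
    have t2 : ∀ i, ¬ D.Sub i X → i ≠ i₀ → t i = 0 := fun i b1 b2 => by
      obtain ⟨u, hu⟩ := U_nonempty b1
      have := t1 i u b1 hu
      rw [if_neg fun e => b2 (H.disj _ _ _ (mem_U.1 hu).1 (mem_U.1 e).1)] at this
      exact (mul_eq_zero.1 this.symm).resolve_right (by exact_mod_cast (mem_U.1 hu).1)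
    have t3 : t i₀ = 0 := by
      have c1 := congrArg (D.phi (D.B X) j) ht
      have c2 := y2 _ jv
      rw [Function.update_eq_self] at c2
      have c3 : D.phi (D.B X) j w = 0 := by
        rw [phi_apply, Finset.sum_eq_zero fun i hi => by
          rw [w1, if_neg fun e => (mem_U.1 e).2 (mem_B.1 hi _ (j1 i))]
          simp]
        simp [hw, Finset.sum_apply]
      rw [map_add, map_sub, c2, c3, map_sum, map_sum, Finset.sum_eq_zero fun i hi => by
        rw [map_smul, H.phi_ρB j1 i (mem_filter.1 hi).2.1, smul_zero],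
        Finset.sum_eq_single i₀ (fun i _ hi => by
          by_cases e : D.Sub i X
          · rw [map_smul, H.phi_ρB j1 i e, smul_zero]
          · rw [t2 i e hi, zero_smul, map_zero]) (by simp), map_smul, H.phi_ρ j1,
        if_neg (by simpa using (mem_N.1 n0).1), e0] at c1
      simpa using c1
    intro u hu
    have := t1 i₀ u (mem_N.1 n0).1 hu
    rwa [if_pos hu, t3, zero_mul] at this
  · have := H.ineq hx (j1.update (mem_U.1 hv).1) (upd_lt hy j2 hv) (hf v hv)
      (singleton_subset_iff.2 (mem_B.2 s1)) (singleton_subset_iff.2 n0)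
    rw [sum_singleton, sum_singleton, Function.update_self, hy.zero (mem_U.1 hv).2, e1] at this
    simp only [← mul_sub, ← Finset.mul_sum]
    have h2 := mul_le_mul_of_nonneg_left this (lp v hv).le
    have h3 : (D.l i₁ v : ℚ) * (((1 : ℕ) : ℚ) * ((((0 : ℤ) : ℚ) + 1) / D.l i₁ v - 1)) =
        1 - D.l i₁ v := by
      have := (lp v hv).ne'
      push_cast
      field_simp
      ring
    rw [h3] at h2
    linarith

theorem last : D.N X = D.N Y := by
  classical
  by_contra hne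
  have hc : (D.N X).card = (D.N Y).card := hx.tight.1.trans hy.tight.1.symm
  have h1 : (D.N X \ D.N Y).card = (D.N Y \ D.N X).card := card_sdiff_comm hc
  have h2 : (D.N Y \ D.N X).Nonempty := by
    rw [sdiff_nonempty]
    exact fun e => hne (eq_of_subset_of_card_le e hc.le).symm
  have sub : ∀ i ∈ D.N Y \ D.N X, D.Sub i X := fun i hi => by
    by_contra e
    exact (mem_sdiff.1 hi).2 (H.N_same hx hy e (mem_sdiff.1 hi).1)
  have big : ∀ i ∈ D.N Y \ D.N X, ∃ v ∈ D.U Y i, 2 ≤ D.l i v := fun i hi => by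
    by_contra e
    push Not at e
    obtain ⟨v, a, v', b, d⟩ := Finset.one_lt_card.1 (H.N_card hy.tt (mem_sdiff.1 hi).1)
    have := e v a
    have := e v' b
    have := (mem_U.1 a).1
    have := (mem_U.1 b).1
    exact H.caseA hx hy (mem_sdiff.1 hi).1 (sub i hi) a b d (by omega) (by omega)
  by_cases h3 : 1 < (D.N Y \ D.N X).card
  · obtain ⟨i, a, k, b, d⟩ := Finset.one_lt_card.1 h3
    obtain ⟨v, v1, v2⟩ := big i a
    obtain ⟨v', v3, v4⟩ := big k b
    exact H.caseB hx hy d (mem_sdiff.1 a).1 (sub i a) (mem_sdiff.1 b).1 (sub k b) v1 v3 v2 v4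
  have h4 : (D.N Y \ D.N X).card = 1 := le_antisymm (not_lt.1 h3) (card_pos.2 h2)
  obtain ⟨i₁, e1⟩ := card_eq_one.1 h4
  obtain ⟨i₀, e0⟩ := card_eq_one.1 (h1.trans h4)
  rcases le_total (D.U Y i₁).card (D.U X i₀).card with e | e
  · exact H.caseC hx hy e0 e1 e
  · exact H.caseC hy hx e1 e0 e

end Hyp

end Dat

end Pool.Agent.Lib.MP_9ff3e7_ag.Tor
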