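import Pool.Agent.Lib.MP_9ff3e7_ag.TTrue

/-! One-dimensional orbits leaving a fixed type at which the base coordinates vanish. -/

set_option linter.unusedSectionVars false

namespace Pool.Agent.Lib.MP_9ff3e7_ag.Tor

open Finset

variable {c : ℕ} {σ ι K : Type} [Fintype σ] [Fintype ι] [DecidableEq σ] [DecidableEq ι]
  [AddCommGroup K]

namespace Dat

variable (D : Dat c σ ι K)

structure TF (S : Finset (Option σ)) (m₀ : V σ) (ub : ι → σ) : Prop where
  hn : none ∉ S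
  hB : ∀ i, ¬ D.Sub i S
  fix : D.Fixed S
  full : D.Full S m₀
  hub : ∀ i, ub i ∈ D.U S i

open Classical in
noncomputable def T (p : Fin (c + 1) → ℂ) : Finset ι :=
  univ.filter fun i => MvPolynomial.eval p (D.g i) ≠ 0

def Ns (S : Finset (Option σ)) (j : ι) : Prop := j ∈ D.N S ∧ (D.U S j).card = 1

structure Orb (S : Finset (Option σ)) (ub : ι → σ) (T : Finset ι) (S₁ : Finset (Option σ))
    (m₁ : V σ) (κ : ℚ) : Prop where
  sub : ∀ s, some s ∈ S₁ → some s ∈ S ∨ ∃ i ∈ T, s = ub i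
  bel : (none ∈ S₁ ∧ ∀ i ∈ T, D.Sub i S₁) ∨ (none ∉ S₁ ∧ ∀ i, ¬ D.Sub i S₁)
  subT : ∀ i, D.Sub i S₁ → i ∈ T
  fix : D.Fixed S₁
  gen : D.Gen S₁
  full : D.Full S₁ m₁
  pos : 0 < κ
  hκ : κ = D.phi T ub m₁
  int : ∀ L : ℕ, 0 < L → (∀ i ∈ T, some (ub i) ∈ S₁ → D.l i (ub i) ∣ L) → 1 ≤ L * κ
  ident : ∀ v f, some v ∈ S → D.Is S (LinearMap.proj (some v)) f → f D.A =
    m₁ (some v) + κ * f D.μ - ∑ i ∈ T, m₁ (some (ub i)) / D.l i (ub i) * D.l i v

variable {D} {S : Finset (Option σ)} {m₀ : V σ} {ub : ι → σ}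

@[simp] lemma mem_T {p : Fin (c + 1) → ℂ} {i : ι} :
    i ∈ D.T p ↔ MvPolynomial.eval p (D.g i) ≠ 0 := by simp [T]

lemma TF.adm (h : D.TF S m₀ ub) : D.Adm S := Or.inl ⟨h.hn, h.hB⟩

lemma TF.valid (h : D.TF S m₀ ub) : D.Valid ub := fun i => (mem_U.1 (h.hub i)).1

lemma TF.U_ns (h : D.TF S m₀ ub) {j : ι} (hj : D.Ns S j) : D.U S j = {ub j} := by
  obtain ⟨u, hu⟩ := Finset.card_eq_one.1 hj.2
  have := h.hub j
  rw [hu, mem_singleton] at this
  rw [hu, this]

lemma TF.bp (h : D.TF S m₀ ub) {i : ι} (hi : i ∉ D.N S) : D.Bp S i (ub i) := by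
  rw [mem_N, not_and, not_not] at hi
  obtain ⟨u, hu⟩ := hi (h.hB i)
  have := h.hub i
  rw [hu.U_eq, mem_singleton] at this
  exact this ▸ hu

lemma TF.two_le (h : D.TF S m₀ ub) {j : ι} (hj : D.Ns S j) : 2 ≤ D.l j (ub j) := by
  by_contra h1
  have h2 := h.valid j
  refine (mem_N.1 hj.1).2 ⟨ub j, by omega, (mem_U.1 (h.hub j)).2, fun s a b => ?_⟩
  by_contra h3
  have : s ∈ D.U S j := mem_U.2 ⟨a, h3⟩
  rw [h.U_ns hj, mem_singleton] at this
  exact b this

lemma Is.sum_l {v : σ} (hv : some v ∈ S) {f : K →+ ℚ} (hf : D.Is S (LinearMap.proj (some v)) f)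
    (i : ι) : ∑ s ∈ univ.filter (fun s => some s ∈ S), (D.l i s : ℚ) * f (D.w s) = D.l i v := by
  rw [Finset.sum_eq_single v (fun s hs e => by
    have := hf.proj (mem_filter.1 hs).2
    simp only [W_some, Option.some.injEq, e, if_false] at this
    simp [this]) (fun e => absurd (by simpa using hv) e)]
  have := hf.proj hv
  simp only [W_some, if_true] at this
  simp [this]

namespace Hyp

variable (H : D.Hyp)
include H

lemma single_val {i : ι} {u v : σ} (hu : D.U S i = {u}) (hv : some v ∈ S) {f : K →+ ℚ}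
    (hf : D.Is S (LinearMap.proj (some v)) f) :
    D.l i u * f (D.w u) + D.l i v = D.e i * f D.μ := by
  have := H.f_block' f S i
  rwa [hu, sum_singleton, hf.sum_l hv] at this

theorem orb (h : D.TF S m₀ ub) {p : Fin (c + 1) → ℂ} (hp : p ≠ 0)
    (h1 : ∀ i ∈ D.T p, D.U S i = {ub i}) : ∃ S₁ m₁ κ, D.Orb S ub (D.T p) S₁ m₁ κ := by
  set S' := insert none (S ∪ (D.T p).image fun i => some (ub i)) with hS'
  have a0 : ∀ s, some s ∈ S' ↔ some s ∈ S ∨ ∃ i ∈ D.T p, s = ub i := fun s => by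
    simp [hS', eq_comm]
  have a1 : ∀ i, D.Sub i S' ↔ i ∈ D.T p := fun i => ⟨fun hi => by
    rcases (a0 _).1 (hi _ (h.valid i)) with e | ⟨k, e1, e2⟩
    · exact absurd e (mem_U.1 (h.hub i)).2
    · exact H.disj _ _ _ (e2 ▸ h.valid k) (h.valid i) ▸ e1, fun hi s hs => by
    rw [a0]
    by_cases e : some s ∈ S
    · exact Or.inl e
    · have : s ∈ D.U S i := mem_U.2 ⟨hs, e⟩
      rw [h1 i hi, mem_singleton] at this
      exact Or.inr ⟨i, hi, this⟩⟩
  have a2 : S ⊆ S' := subset_union_left.trans (subset_insert _ _)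
  obtain ⟨S₁, m₁, α, c1, c2, c3, c4, c5, c6, c7⟩ := H.orbit a2 h.full (H.free _ h.adm h.full.ss)
    (Or.inr ⟨mem_insert_self _ _, p, hp, fun i => by rw [a1, mem_T]⟩) (D.phi (D.T p) ub)
    (fun i hi => by rw [H.phi_ρ h.valid, if_pos ((a1 i).1 hi)])
    (fun v hv => by
      rw [phi_apply, hv _ h.hn, Finset.sum_eq_zero fun i _ => by
        simp [hv _ (mem_U.1 (h.hub i)).2], add_zero]) (mem_insert_self _ _) (by simp [phi_apply])
  refine ⟨S₁, m₁, _, fun s hs => (a0 s).1 (c1.1 hs), ?_, fun i hi => (a1 i).1 (hi.mono c1.1), c2,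
    c3, c4, c7, rfl, fun L hL b => ?_, fun v f hv hf => ?_⟩
  · rcases c1.2 with e | e
    · exact Or.inl ⟨e.1, fun i hi => e.2 i ((a1 i).2 hi)⟩
    · exact Or.inr e
  · have e : (L : ℚ) * D.phi (D.T p) ub m₁ = (L * α none +
        ∑ i ∈ D.T p, D.e i * (α (some (ub i)) * (L / D.l i (ub i) : ℕ)) : ℤ) := by
      rw [c6, phi_apply, mul_add, Finset.mul_sum]
      push_cast
      congr 1
      refine Finset.sum_congr rfl fun i hi => ?_
      by_cases e : some (ub i) ∈ S₁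
      · have hl : (D.l i (ub i) : ℚ) ≠ 0 := by exact_mod_cast h.valid i
        rw [Int.cast_div (by exact_mod_cast b i hi e) (by exact_mod_cast hl), cv]
        push_cast
        ring
      · have := c5 _ e
        simp only [cv] at this ⊢
        simp [this]
    have e2 : (0 : ℚ) < L * D.phi (D.T p) ub m₁ := by positivity
    rw [e] at e2 ⊢
    exact_mod_cast e2
  · have e1 : ∀ s, m₁ (some s) * f (D.w s) = (if s = v then m₁ (some v) else 0) +
        ∑ i ∈ D.T p, if s = ub i then m₁ (some (ub i)) * f (D.w (ub i)) else 0 := fun s => by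
      by_cases b1 : some s ∈ S
      · have := hf.proj b1
        rw [W_some] at this
        rw [this, Finset.sum_eq_zero fun i _ => if_neg (by
          rintro rfl; exact (mem_U.1 (h.hub i)).2 b1)]
        by_cases e : s = v <;> simp [e]
      · rw [if_neg (by rintro rfl; exact b1 hv), zero_add]
        by_cases b2 : ∃ i ∈ D.T p, s = ub i
        · obtain ⟨i, b2, rfl⟩ := b2
          rw [Finset.sum_eq_single i (fun k _ hk => if_neg fun e : ub i = ub k =>
            hk (H.disj _ _ _ (h.valid k) (e ▸ h.valid i))) (fun e => absurd b2 e), if_pos rfl]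
        · rw [c4.2.1 _ fun e => ((a0 s).1 (c1.1 e)).elim b1 b2, zero_mul]
          exact (Finset.sum_eq_zero fun i hi => if_neg fun e => b2 ⟨i, hi, e⟩).symm
    rw [hom_rep f c4.2.2, Fintype.sum_option, W_none, phi_apply]
    simp only [W_some]
    rw [Finset.sum_congr rfl fun s _ => e1 s, Finset.sum_add_distrib, Finset.sum_comm]
    simp only [Finset.sum_ite_eq', mem_univ, if_true]
    have e2 : ∑ i ∈ D.T p, m₁ (some (ub i)) * f (D.w (ub i)) =
        (∑ i ∈ D.T p, (D.e i : ℚ) * (m₁ (some (ub i)) / D.l i (ub i))) * f D.μ -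
          ∑ i ∈ D.T p, m₁ (some (ub i)) / D.l i (ub i) * D.l i v := by
      rw [Finset.sum_mul, ← Finset.sum_sub_distrib]
      refine Finset.sum_congr rfl fun i hi => ?_
      have hl : (D.l i (ub i) : ℚ) ≠ 0 := by exact_mod_cast h.valid i
      have := H.single_val (h1 i hi) hv hf
      field_simp
      linear_combination m₁ (some (ub i)) * this
    rw [e2]
    ring

/-- Orbits over a base point at which all but the blocks in `P` of the nonreduced type vanish. -/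
theorem vert (h : D.TF S m₀ ub) {P : Finset ι} (hP : ∀ j ∈ P, D.Ns S j) {p : Fin (c + 1) → ℂ}
    (hp : p ≠ 0) (h1 : ∀ i ∈ D.N S, i ∉ P → MvPolynomial.eval p (D.g i) = 0) :
    ∃ S₁ m₁ κ, D.Orb S ub (D.T p) S₁ m₁ κ ∧ ∀ i ∈ D.T p, i ∉ P → i ∉ D.N S := by
  obtain ⟨S₁, m₁, κ, h2⟩ := H.orb h hp fun i hi => by
    by_cases e : i ∈ P
    · exact h.U_ns (hP i e)
    · exact (h.bp fun e1 => mem_T.1 hi (h1 i e1 e)).U_eq
  exact ⟨S₁, m₁, κ, h2, fun i hi e e1 => mem_T.1 hi (h1 i e1 e)⟩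

variable {T : Finset ι} {S₁ : Finset (Option σ)} {m₁ : V σ} {κ : ℚ} {v : σ} {f : K →+ ℚ}

omit H in
lemma nogain (o : D.Orb S ub T S₁ m₁ κ) (hv : some v ∈ S)
    (hf : D.Is S (LinearMap.proj (some v)) f) (h1 : ∀ i ∈ T, D.l i v = 0) :
    f D.A = m₁ (some v) + κ * f D.μ := by
  rw [o.ident v f hv hf, Finset.sum_eq_zero fun i hi => by simp [h1 i hi], sub_zero]

lemma gain (o : D.Orb S ub T S₁ m₁ κ) (hv : some v ∈ S)
    (hf : D.Is S (LinearMap.proj (some v)) f) {i : ι} (hi : i ∈ T) (h1 : D.l i v ≠ 0) :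
    f D.A = m₁ (some v) + κ * f D.μ - m₁ (some (ub i)) / D.l i (ub i) * D.l i v := by
  rw [o.ident v f hv hf, Finset.sum_eq_single i (fun k _ hk => by
    have : D.l k v = 0 := by
      by_contra e
      exact hk (H.disj _ _ _ e h1)
    simp [this]) (fun e => absurd hi e)]

omit H in
lemma kappa_ge (o : D.Orb S ub T S₁ m₁ κ) {P : Finset ι} (hP : P ⊆ T) :
    ∑ i ∈ P, (D.e i : ℚ) * (m₁ (some (ub i)) / D.l i (ub i)) ≤ κ := by
  rw [o.hκ, phi_apply]
  refine le_trans (Finset.sum_le_sum_of_subset_of_nonneg hP fun i _ _ => ?_)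
    (le_add_of_nonneg_left (o.full.nonneg _))
  have : 0 ≤ m₁ (some (ub i)) := o.full.nonneg _
  positivity

omit H in
lemma v1a (o : D.Orb S ub T S₁ m₁ κ) (hv : some v ∈ S) (hf : D.Is S (LinearMap.proj (some v)) f)
    (ha : 0 ≤ f D.A) (h1 : ∀ i ∈ T, D.l i v = 0) {L : ℚ} (hL0 : 0 ≤ L) (hL : 1 ≤ L * κ) :
    f D.μ ≤ L * f D.A := by
  have h2 := nogain o hv hf h1
  have h3 : 0 ≤ m₁ (some v) := o.full.nonneg _
  by_cases h4 : f D.μ ≤ 0
  · exact h4.trans (by positivity)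
  · nlinarith

lemma v1b (o : D.Orb S ub T S₁ m₁ κ) (hv : some v ∈ S) (hf : D.Is S (LinearMap.proj (some v)) f)
    (ha : 0 ≤ f D.A) {i : ι} (hi : i ∈ T) (h1 : D.l i v ≠ 0) {L : ℚ} (hL0 : 0 ≤ L)
    (hL : 1 ≤ L * κ) : D.e i * f D.μ - D.l i v ≤ D.e i * (L * f D.A) := by
  have h2 := H.gain o hv hf hi h1
  have h3 : 0 ≤ m₁ (some v) := o.full.nonneg _
  have h5 := kappa_ge o (singleton_subset_iff.2 hi)
  rw [sum_singleton] at h5
  by_cases h4 : D.e i * f D.μ - D.l i v ≤ 0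
  · exact h4.trans (by positivity)
  · have h6 : (0 : ℚ) ≤ D.l i v := by positivity
    have h7 : (0 : ℚ) ≤ D.e i := by positivity
    have h8 : κ * (D.e i * f D.μ - D.l i v) ≤ D.e i * f D.A := by
      rw [h2]
      nlinarith [mul_nonneg h7 h3, mul_le_mul_of_nonneg_right h5 h6]
    nlinarith

lemma v1c (o : D.Orb S ub T S₁ m₁ κ) (hv : some v ∈ S) (hf : D.Is S (LinearMap.proj (some v)) f)
    (ha : 0 < f D.A) {i j : ι} (hi : i ∈ T) (h1 : D.l i v ≠ 0) (hij : i ≠ j)
    (hj : 2 ≤ D.l j (ub j)) (hT : ∀ k ∈ T, k ≠ j → D.l k (ub k) = 1) :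
    D.e i * f D.μ - D.l i v < D.e i * (D.l j (ub j) * f D.A) := by
  by_contra h0
  push Not at h0
  have hL := o.int (D.l j (ub j)) (by omega) fun k hk _ => by
    by_cases e : k = j
    · rw [e]
    · rw [hT k hk e]; exact one_dvd _
  have h2 := H.gain o hv hf hi h1
  have h3 : 0 ≤ m₁ (some v) := o.full.nonneg _
  have h6 : (0 : ℚ) < D.l i v := by exact_mod_cast Nat.pos_of_ne_zero h1
  have h7 : (0 : ℚ) < D.e i := by exact_mod_cast H.he i
  have hj' : (2 : ℚ) ≤ D.l j (ub j) := by exact_mod_cast hj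
  have hκ := o.pos
  set x := (D.e i : ℚ) * (m₁ (some (ub i)) / D.l i (ub i)) with hx
  have h5 := kappa_ge o (singleton_subset_iff.2 hi)
  rw [sum_singleton, ← hx] at h5
  have h8 : D.e i * f D.A =
      D.e i * m₁ (some v) + κ * (D.e i * f D.μ - D.l i v) + (κ - x) * D.l i v := by
    rw [h2, hx]; ring
  have h9 : κ * (D.e i * (D.l j (ub j) * f D.A)) ≤ κ * (D.e i * f D.μ - D.l i v) :=
    mul_le_mul_of_nonneg_left h0 hκ.le
  have h10 : 0 < D.e i * f D.A := by positivity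
  have h11 : D.e i * f D.A ≤ κ * (D.e i * (D.l j (ub j) * f D.A)) := by nlinarith
  have h12 : κ ≤ x := by
    by_contra e
    have := mul_pos (sub_pos.2 (not_le.1 e)) h6
    nlinarith [mul_nonneg h7.le h3]
  have h13 : 1 ≤ κ := by
    have := o.int 1 one_pos fun k hk b => by
      by_cases e : k = j
      · subst e
        have b1 := kappa_ge o (P := {i, k}) (insert_subset hi (singleton_subset_iff.2 hk))
        rw [sum_pair hij, ← hx] at b1
        have b2 := o.full.1 _ b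
        have b3 : (0 : ℚ) < D.e k := by exact_mod_cast H.he k
        have : 0 < (D.e k : ℚ) * (m₁ (some (ub k)) / D.l k (ub k)) := by positivity
        linarith
      · rw [hT k hk e]
    simpa using this
  have h14 : 2 * (D.e i * f D.A) ≤ κ * (D.e i * (D.l j (ub j) * f D.A)) := by
    have : 2 ≤ κ * D.l j (ub j) := by nlinarith
    nlinarith
  nlinarith [mul_nonneg h7.le h3, mul_nonneg (sub_nonneg.2 h5) h6.le]

lemma tf_div (hF : D.Fixed S) (hG : D.Gen S) (x : Option σ → ℤ) {d : ℚ} (hd : d ≠ 0) (t₀ : ι → ℚ)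
    (h1 : On S (d • cv x - ∑ i, t₀ i • D.ρ i)) {i : ι} {u : σ} (h2 : D.l i u ≠ 0)
    (h3 : some u ∉ S) : (D.l i u : ℤ) ∣ x (some u) := by
  obtain ⟨α, a, b⟩ := hG (D.dz x)
  have h4 : D.dz (x - α) = 0 := by rw [map_sub, b, sub_self]
  obtain ⟨t, ht⟩ := hF (d • cv (x - α) - ∑ i, t₀ i • D.ρ i) (by
    rw [cv_sub, smul_sub, sub_right_comm]
    exact h1.sub (a.smul d)) (by rw [map_sub, map_smul, dq_cv, h4, H.dq_comb]; simp)
  have h5 := H.l_one (t := fun k => d⁻¹ * (t k + t₀ k)) h4 (by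
    simp only [mul_smul, add_smul, ← Finset.smul_sum, Finset.sum_add_distrib, ← ht,
      sub_add_cancel]
    rw [smul_smul, inv_mul_cancel₀ hd, one_smul]) h2
  have h6 : α (some u) = 0 := by simpa [cv] using a _ h3
  rwa [Pi.sub_apply, h6, sub_zero] at h5

lemma e_one (h : D.TF S m₀ ub) {i : ι} (hi : i ∈ D.N S) : D.e i = 1 :=
  (H.smooth S h.hn h.adm h.full.ss).1 i hi

lemma coprime (h : D.TF S m₀ ub) {i k : ι} (hi : D.Ns S i) (hk : D.Ns S k) (hik : i ≠ k) :
    Nat.Coprime (D.l i (ub i)) (D.l k (ub k)) := by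
  obtain ⟨a, ha⟩ := Nat.gcd_dvd_left (D.l i (ub i)) (D.l k (ub k))
  obtain ⟨b, hb⟩ := Nat.gcd_dvd_right (D.l i (ub i)) (D.l k (ub k))
  set d := Nat.gcd (D.l i (ub i)) (D.l k (ub k)) with hd
  have d0 : d ≠ 0 := fun e => h.valid i (by rw [ha, e, zero_mul])
  have hne : ub i ≠ ub k := fun e => hik (H.disj _ _ _ (h.valid i) (e ▸ h.valid k))
  have hz : ∀ j, D.Ns S j → ∀ s, some s ∉ S → s ≠ ub j → D.l j s = 0 := fun j hj s a b => by
    by_contra e
    have : s ∈ D.U S j := mem_U.2 ⟨e, a⟩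
    rw [h.U_ns hj, mem_singleton] at this
    exact b this
  have h1 := H.tf_div h.fix (H.free _ h.adm h.full.ss)
    (Pi.single (some (ub i)) a - Pi.single (some (ub k)) b) (d := d) (by exact_mod_cast d0)
    (Pi.single i 1 - Pi.single k 1) (by
      have e : ∑ j, (Pi.single i 1 - Pi.single k 1 : ι → ℚ) j • D.ρ j = D.ρ i - D.ρ k := by
        simp [sub_smul, Finset.sum_sub_distrib, Pi.single_apply]
      rw [e]
      rintro (_ | s) hs
      · simp [cv, H.e_one h hi.1, H.e_one h hk.1]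
      · simp only [Pi.sub_apply, Pi.smul_apply, cv, ρ_some, smul_eq_mul, Pi.single_apply,
          Option.some.injEq]
        by_cases e1 : s = ub i
        · subst e1
          rw [hz k hk _ hs hne, if_pos rfl, if_neg hne, ha]
          push_cast
          ring
        · by_cases e2 : s = ub k
          · subst e2
            rw [hz i hi _ hs e1, if_pos rfl, if_neg e1, hb]
            push_cast
            ring
          · simp [e1, e2, hz i hi _ hs e1, hz k hk _ hs e2]) (h.valid i) (mem_U.1 (h.hub i)).2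
  rw [Pi.sub_apply, Pi.single_eq_same, Pi.single_eq_of_ne (by simpa using hne), sub_zero] at h1
  have h2 : D.l i (ub i) ∣ a := by exact_mod_cast h1
  have a0 : 0 < a := Nat.pos_of_ne_zero fun e => h.valid i (by rw [ha, e, mul_zero])
  have h3 := Nat.le_of_dvd a0 h2
  rw [ha] at h3
  change d = 1
  have : 0 < d := Nat.pos_of_ne_zero d0
  nlinarith

end Hyp

end Dat

end Pool.Agent.Lib.MP_9ff3e7_ag.Tor
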