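import Pool.Agent.Lib.MP_9ff3e7_ag.TLast
import Pool.Agent.Lib.MP_9ff3e7_ag.CoxMain

/-! Points of the total coordinate space, monomial sections and directional derivatives. -/

set_option linter.unusedSectionVars false

namespace Pool.Agent.Lib.MP_9ff3e7_ag.Tor

open Finset MvPolynomial

section

variable {τ : Type} [Fintype τ] [DecidableEq τ]

noncomputable def dv (x v : τ → ℂ) (p : MvPolynomial τ ℂ) : ℂ := ∑ t, eval x (pderiv t p) * v t

variable (x v : τ → ℂ)

lemma dv_add (p q : MvPolynomial τ ℂ) : dv x v (p + q) = dv x v p + dv x v q := by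
  simp [dv, add_mul, Finset.sum_add_distrib]

lemma dv_sub (p q : MvPolynomial τ ℂ) : dv x v (p - q) = dv x v p - dv x v q := by
  simp [dv, sub_mul, Finset.sum_sub_distrib]

lemma dv_mul (p q : MvPolynomial τ ℂ) :
    dv x v (p * q) = dv x v p * eval x q + eval x p * dv x v q := by
  simp only [dv, Derivation.leibniz, smul_eq_mul, map_add, map_mul, Finset.sum_mul, Finset.mul_sum,
    ← Finset.sum_add_distrib]
  exact Finset.sum_congr rfl fun t _ => by ring

lemma dv_C (a : ℂ) : dv x v (C a) = 0 := by simp [dv]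

lemma dv_X (t : τ) : dv x v (X t) = v t := by
  simp [dv, pderiv_X, Pi.single_apply, apply_ite (eval x)]

lemma dv_vsub (v' : τ → ℂ) (p : MvPolynomial τ ℂ) : dv x (v - v') p = dv x v p - dv x v' p := by
  simp [dv, mul_sub, Finset.sum_sub_distrib]

lemma dv_pow {t : τ} {γ : ℂ} (n : ℕ) (h : n ≠ 0 → v t = γ * x t) :
    dv x v (X t ^ n) = n * γ * x t ^ n := by
  induction n with
  | zero => simpa using dv_C x v 1
  | succ n ih =>
    rw [pow_succ, dv_mul, ih fun _ => h n.succ_ne_zero, dv_X, h n.succ_ne_zero]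
    simp
    ring

lemma dv_prod {κ : Type} [DecidableEq κ] (T : Finset κ) (a : κ → τ) (l : κ → ℕ) (γ : κ → ℂ)
    (h : ∀ s ∈ T, l s ≠ 0 → v (a s) = γ s * x (a s)) :
    dv x v (∏ s ∈ T, X (a s) ^ l s) = (∑ s ∈ T, l s * γ s) * ∏ s ∈ T, x (a s) ^ l s := by
  induction T using Finset.induction_on with
  | empty => simpa using dv_C x v 1
  | insert b T hb ih =>
    rw [prod_insert hb, prod_insert hb, sum_insert hb, dv_mul,
      ih fun s hs => h s (mem_insert_of_mem hs), dv_pow x v _ (h b (mem_insert_self _ _))]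
    simp
    ring

lemma dv_rename {τ' : Type} [Fintype τ'] [DecidableEq τ'] (a : τ' → τ) (g : MvPolynomial τ' ℂ) :
    dv x v (rename a g) = dv (x ∘ a) (v ∘ a) g := by
  induction g using MvPolynomial.induction_on with
  | C r => rw [rename_C, dv_C, dv_C]
  | add p q hp hq => rw [map_add, dv_add, dv_add, hp, hq]
  | mul_X p t hp => rw [map_mul, rename_X, dv_mul, dv_mul, hp, dv_X, dv_X, eval_rename]; simp

lemma dv_lin {p : MvPolynomial τ ℂ} (hp : p.IsHomogeneous 1) : dv x v p = eval v p := by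
  rw [eval_lin hp, dv]
  exact Finset.sum_congr rfl fun t _ => by rw [pderiv_lin hp, mul_comm]

lemma dv_radial {e : ℕ} {p : MvPolynomial τ ℂ} (hp : p.IsHomogeneous e) (t : ℂ) :
    dv x (t • x) p = e * t * eval x p := by
  rw [mul_right_comm, ← euler hp, dv, Finset.sum_mul]
  exact Finset.sum_congr rfl fun s _ => by simp; ring

lemma dv_euler {K : Type} [AddCommGroup K] {W : τ → K} {y : K} {p : MvPolynomial τ ℂ}
    (hp : p.IsWeightedHomogeneous W y) (ψ : K →+ ℂ) :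
    dv x (fun t => ψ (W t) * x t) p = ψ y * eval x p := by
  have h0 : ∀ (T : Finset (τ →₀ ℕ)) (F : (τ →₀ ℕ) → MvPolynomial τ ℂ) (v : τ → ℂ),
      dv x v (∑ d ∈ T, F d) = ∑ d ∈ T, dv x v (F d) := fun T F v => by
    simp only [dv, map_sum, Finset.sum_mul]
    exact Finset.sum_comm
  rw [p.as_sum, h0, map_sum, Finset.mul_sum]
  refine Finset.sum_congr rfl fun d hd => ?_
  rw [← hp (mem_support_iff.1 hd), monomial_eq, Finsupp.prod_fintype _ _ (by simp), dv_mul, dv_C,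
    dv_prod x _ univ (fun t => t) d (fun t => ψ (W t)) fun _ _ _ => rfl, Finsupp.weight_apply,
    Finsupp.sum_fintype _ _ (by simp)]
  simp [map_sum]
  ring

end

variable {c : ℕ} {σ ι K : Type} [Fintype σ] [Fintype ι] [DecidableEq σ] [DecidableEq ι]
  [AddCommGroup K]

open Classical in
noncomputable def supp (x : Fin (c + 1) ⊕ σ → ℂ) : Finset (Option σ) :=
  univ.filter fun s => s.elim (x ∘ Sum.inl ≠ 0) fun s => x (.inr s) ≠ 0

@[simp] lemma none_supp {x : Fin (c + 1) ⊕ σ → ℂ} : none ∈ supp x ↔ x ∘ Sum.inl ≠ 0 := by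
  simp [supp]

@[simp] lemma some_supp {x : Fin (c + 1) ⊕ σ → ℂ} {s : σ} : some s ∈ supp x ↔ x (.inr s) ≠ 0 := by
  simp [supp]

noncomputable def mon (j : Fin (c + 1)) (α : Option σ → ℤ) : MvPolynomial (Fin (c + 1) ⊕ σ) ℂ :=
  X (.inl j) ^ (α none).toNat * ∏ s, X (.inr s) ^ (α (some s)).toNat

def col (n : Fin (c + 1) ⊕ σ → ℤ) : Option σ → ℤ :=
  fun s => s.elim (∑ j, n (.inl j)) fun s => n (.inr s)

lemma eval_mon (x : Fin (c + 1) ⊕ σ → ℂ) (j : Fin (c + 1)) (α : Option σ → ℤ) :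
    eval x (mon j α) = x (.inl j) ^ (α none).toNat * ∏ s, x (.inr s) ^ (α (some s)).toNat := by
  simp [mon]

lemma On.zero {S : Finset (Option σ)} {α : Option σ → ℤ} (h : On S (cv α)) {s : Option σ}
    (hs : s ∉ S) : α s = 0 := by simpa [cv] using h s hs

lemma mon_ne {x : Fin (c + 1) ⊕ σ → ℂ} {j : Fin (c + 1)} {α : Option σ → ℤ}
    {S : Finset (Option σ)} (h : On S (cv α)) (h1 : ∀ s, some s ∈ S → x (.inr s) ≠ 0)
    (h2 : none ∈ S → x (.inl j) ≠ 0) : eval x (mon j α) ≠ 0 := by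
  rw [eval_mon]
  refine mul_ne_zero ?_ (Finset.prod_ne_zero_iff.2 fun s _ => ?_)
  · by_cases e : none ∈ S
    · exact pow_ne_zero _ (h2 e)
    · simp [h.zero e]
  · by_cases e : some s ∈ S
    · exact pow_ne_zero _ (h1 s e)
    · simp [h.zero e]

lemma ne_of_mon {x : Fin (c + 1) ⊕ σ → ℂ} {j : Fin (c + 1)} {α : Option σ → ℤ}
    (h : eval x (mon j α) ≠ 0) {s : σ} (hs : 1 ≤ α (some s)) : x (.inr s) ≠ 0 := by
  rw [eval_mon] at h
  have := Finset.prod_ne_zero_iff.1 (right_ne_zero_of_mul h) s (mem_univ _)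
  intro e
  rw [e, zero_pow (by omega)] at this
  exact this rfl

lemma mon_congr {x y : Fin (c + 1) ⊕ σ → ℂ} {j : Fin (c + 1)} {α : Option σ → ℤ}
    {S : Finset (Option σ)} (h : On S (cv α)) (h1 : ∀ s, some s ∈ S → y (.inr s) = x (.inr s))
    (h2 : none ∈ S → y (.inl j) = x (.inl j)) : eval y (mon j α) = eval x (mon j α) := by
  rw [eval_mon, eval_mon]
  congr 1
  · by_cases e : none ∈ S
    · rw [h2 e]
    · simp [h.zero e]
  · refine Finset.prod_congr rfl fun s _ => ?_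
    by_cases e : some s ∈ S
    · rw [h1 s e]
    · simp [h.zero e]

lemma dv_mon {x v : Fin (c + 1) ⊕ σ → ℂ} {j : Fin (c + 1)} {α : Option σ → ℤ}
    {S : Finset (Option σ)} (h : On S (cv α)) (h1 : ∀ s, some s ∈ S → v (.inr s) = 0)
    (h2 : none ∈ S → v (.inl j) = 0) : dv x v (mon j α) = 0 := by
  rw [mon, dv_mul, dv_pow (γ := 0) x v _ fun e => by
      rw [zero_mul]
      exact h2 (by by_contra e1; simp [h.zero e1] at e),
    dv_prod x v univ Sum.inr _ 0 fun s _ e => by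
      rw [Pi.zero_apply, zero_mul]
      exact h1 s (by by_contra e1; simp [h.zero e1] at e)]
  simp

namespace Dat

variable (D : Dat c σ ι K)

def Wt : Fin (c + 1) ⊕ σ → K := Sum.elim (fun _ => D.μ) D.w

noncomputable def fx (i : ι) : MvPolynomial (Fin (c + 1) ⊕ σ) ℂ :=
  ∏ s, X (.inr s) ^ D.l i s - rename Sum.inl (D.g i)

def Eqn (x : Fin (c + 1) ⊕ σ → ℂ) : Prop :=
  ∀ i, ∏ s, x (.inr s) ^ D.l i s = eval (x ∘ Sum.inl) (D.g i)

variable {D}

lemma eval_fx (x : Fin (c + 1) ⊕ σ → ℂ) (i : ι) :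
    eval x (D.fx i) = ∏ s, x (.inr s) ^ D.l i s - eval (x ∘ Sum.inl) (D.g i) := by
  simp [fx, eval_rename]

lemma eqn_iff {x : Fin (c + 1) ⊕ σ → ℂ} : D.Eqn x ↔ ∀ i, eval x (D.fx i) = 0 := by
  simp only [Eqn, eval_fx, sub_eq_zero]

lemma dv_fx (x v : Fin (c + 1) ⊕ σ → ℂ) (i : ι) : dv x v (D.fx i) =
    dv x v (∏ s, X (.inr s) ^ D.l i s) - dv (x ∘ Sum.inl) (v ∘ Sum.inl) (D.g i) := by
  rw [fx, dv_sub, dv_rename]

lemma dz_apply (α : Option σ → ℤ) : D.dz α = α none • D.μ + ∑ s, α (some s) • D.w s := by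
  rw [dz, Fintype.linearCombination_apply, Fintype.sum_option]
  rfl

lemma dz_col (n : Fin (c + 1) ⊕ σ → ℤ) : D.dz (col n) = Cox.zw D.Wt n := by
  rw [dz_apply, Fintype.linearCombination_apply, Fintype.sum_sum_type]
  simp [col, Wt, Finset.sum_smul]

lemma on_col {x : Fin (c + 1) ⊕ σ → ℂ} {n : Fin (c + 1) ⊕ σ → ℤ} (h : ∀ t, x t = 0 → n t = 0) :
    On (supp x) (cv (col n)) := by
  rintro (_ | s) hs
  · rw [none_supp, not_not] at hs
    simp [cv, col, fun j => h (.inl j) (congrFun hs j)]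
  · rw [some_supp, not_not] at hs
    simp [cv, col, h _ hs]

lemma mon_sec (j : Fin (c + 1)) {α : Option σ → ℤ} (h : 0 ≤ α) :
    (mon j α).IsWeightedHomogeneous D.Wt (D.dz α) := by
  have h1 : D.dz α = (α none).toNat • D.Wt (.inl j) +
      ∑ s, (α (some s)).toNat • D.Wt (.inr s) := by
    rw [dz_apply, ← natCast_zsmul, Int.toNat_of_nonneg (h none)]
    congr 1
    exact Finset.sum_congr rfl fun s _ => by
      rw [← natCast_zsmul, Int.toNat_of_nonneg (h (some s))]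
      rfl
  rw [h1]
  exact ((isWeightedHomogeneous_X ℂ D.Wt (.inl j)).pow _).mul
    (IsWeightedHomogeneous.prod univ _ (fun s => (α (some s)).toNat • D.Wt (.inr s))
      fun s _ => (isWeightedHomogeneous_X ℂ D.Wt (.inr s)).pow _)

lemma rename_sec {e : ℕ} {p : MvPolynomial (Fin (c + 1)) ℂ} (hp : p.IsHomogeneous e) :
    (rename Sum.inl p : MvPolynomial (Fin (c + 1) ⊕ σ) ℂ).IsWeightedHomogeneous D.Wt (e • D.μ) := by
  rw [p.as_sum, map_sum]
  refine IsWeightedHomogeneous.sum _ _ _ fun d hd => ?_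
  have h1 : e • D.μ = ∑ j, d j • D.Wt (.inl j) := by
    rw [← hp (mem_support_iff.1 hd), Finsupp.weight_apply, Finsupp.sum_fintype _ _ (by simp)]
    simp [Wt, Finset.sum_smul]
  rw [monomial_eq, Finsupp.prod_fintype _ _ (by simp), map_mul, rename_C, map_prod, h1]
  refine IsWeightedHomogeneous.C_mul (IsWeightedHomogeneous.prod univ _
    (fun j => d j • D.Wt (.inl j)) fun j _ => ?_) _
  rw [map_pow, rename_X]
  exact (isWeightedHomogeneous_X ℂ D.Wt _).pow _

lemma Hyp.fx_sec (H : D.Hyp) (i : ι) : (D.fx i).IsWeightedHomogeneous D.Wt (D.e i • D.μ) := by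
  refine IsWeightedHomogeneous.sub ?_ (rename_sec (H.hg i))
  have h1 : D.e i • D.μ = ∑ s, D.l i s • D.Wt (.inr s) := by
    have := H.deg i
    rw [dz_apply] at this
    simp only [ρz, Option.elim, neg_smul, natCast_zsmul] at this
    exact neg_add_eq_zero.1 this
  rw [h1]
  exact IsWeightedHomogeneous.prod univ _ (fun s => D.l i s • D.Wt (.inr s))
    fun s _ => (isWeightedHomogeneous_X ℂ D.Wt _).pow _

lemma X_mon_sec (t : Fin (c + 1) ⊕ σ) (j : Fin (c + 1)) {α : Option σ → ℤ} (h : 0 ≤ α) {y : K}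
    (h1 : D.dz α = y - D.Wt t) : (X t * mon j α).IsWeightedHomogeneous D.Wt y := by
  have := (isWeightedHomogeneous_X ℂ D.Wt t).mul (D.mon_sec j h)
  rwa [h1, add_sub_cancel] at this

lemma exists_j (x : Fin (c + 1) ⊕ σ → ℂ) : ∃ j, x ∘ Sum.inl ≠ 0 → x (.inl j) ≠ 0 := by
  by_cases h : x ∘ Sum.inl = 0
  · exact ⟨0, fun e => absurd h e⟩
  · obtain ⟨j, hj⟩ := Function.ne_iff.1 h
    exact ⟨j, fun _ => hj⟩

lemma ss_iff {x : Fin (c + 1) ⊕ σ → ℂ} : D.SS (supp x) ↔ ∃ k : ℕ, 0 < k ∧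
    ∃ s : MvPolynomial (Fin (c + 1) ⊕ σ) ℂ, s.IsWeightedHomogeneous D.Wt (k • D.A) ∧
      eval x s ≠ 0 := by
  constructor
  · rintro ⟨m, h1, h2, h3⟩
    obtain ⟨N, hN, α, hα⟩ := clear m
    obtain ⟨M, hM, h4⟩ := iq_eq_zero (y := D.dz α - (N : ℤ) • D.A) (by
      rw [map_sub, ← dq_cv, hα, map_smul, h3, map_smul, natCast_zsmul, Nat.cast_smul_eq_nsmul,
        sub_self])
    obtain ⟨j, hj⟩ := exists_j x
    have h5 : 0 ≤ (M : ℤ) • α := fun s => by
      have : (0 : ℚ) ≤ α s := by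
        rw [show (α s : ℚ) = N * m s from congrFun hα s]
        exact mul_nonneg (by positivity) (h1 s)
      have : 0 ≤ α s := by exact_mod_cast this
      simp only [Pi.smul_apply, smul_eq_mul, Pi.zero_apply]
      positivity
    refine ⟨M * N, Nat.mul_pos hM hN, mon j ((M : ℤ) • α), ?_, mon_ne (S := supp x)
      (by rw [cv_smul, hα]; exact (h2.smul _).smul _) (by simp) (by simpa using hj)⟩
    convert D.mon_sec j h5 using 1
    rw [smul_sub, sub_eq_zero] at h4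
    rw [map_smul, natCast_zsmul, h4, natCast_zsmul, mul_smul]
  · rintro ⟨k, hk, s, h1, h2⟩
    obtain ⟨d, h3, h4⟩ := Cox.exists_on (I := univ.filter fun t => x t ≠ 0) (by simp) h2
    have hk' : (k : ℚ) ≠ 0 := by exact_mod_cast hk.ne'
    refine ⟨(k : ℚ)⁻¹ • cv (col (Cox.iv d)), ?_,
      (on_col fun t ht => by simp [Cox.iv, h4 t (by simpa using ht)]).smul _, ?_⟩
    · rintro (_ | s) <;> simp only [Pi.smul_apply, smul_eq_mul, cv, col, Cox.iv, Option.elim,
        Pi.zero_apply] <;> positivity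
    · rw [map_smul, dq_cv, dz_col, Cox.zw_iv, h1 (mem_support_iff.1 h3), map_nsmul,
        ← Nat.cast_smul_eq_nsmul ℚ, smul_smul, inv_mul_cancel₀ hk', one_smul]

lemma gen_supp {x : Fin (c + 1) ⊕ σ → ℂ}
    (h : ∀ χ : AddChar K ℂ, (∀ t, χ (D.Wt t) * x t = x t) → χ = 1) : D.Gen (supp x) := fun y => by
  obtain ⟨n, h1, h2⟩ := (Cox.gen_of_free (I := univ.filter fun t => x t ≠ 0) (by simp) h).rep y
  exact ⟨col n, on_col fun t ht => h1 t (by simpa using ht), by rw [dz_col, h2]⟩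

lemma Eqn.sub_iff {x : Fin (c + 1) ⊕ σ → ℂ} (h : D.Eqn x) (i : ι) :
    D.Sub i (supp x) ↔ eval (x ∘ Sum.inl) (D.g i) ≠ 0 := by
  rw [← h i, Finset.prod_ne_zero_iff]
  refine forall_congr' fun s => ?_
  by_cases e : D.l i s = 0 <;> simp [e]

lemma Eqn.adm {x : Fin (c + 1) ⊕ σ → ℂ} (h : D.Eqn x) (hg : ∀ i, eval (0 : Fin (c + 1) → ℂ) (D.g i) = 0) :
    D.Adm (supp x) := by
  by_cases e : x ∘ Sum.inl = 0
  · exact Or.inl ⟨by simp [e], fun i => by rw [h.sub_iff, e, hg]; simp⟩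
  · exact Or.inr ⟨by simpa using e, _, e, h.sub_iff⟩

lemma exists_pt (disj : ∀ i j s, D.l i s ≠ 0 → D.l j s ≠ 0 → i = j) (hv : ∀ i, ∃ s, D.l i s ≠ 0)
    (hg : ∀ i, eval (0 : Fin (c + 1) → ℂ) (D.g i) = 0) {S : Finset (Option σ)} (h : D.Adm S) :
    ∃ x : Fin (c + 1) ⊕ σ → ℂ, D.Eqn x ∧ supp x = S := by
  obtain ⟨z, h1, h2⟩ : ∃ z : Fin (c + 1) → ℂ, (z ≠ 0 ↔ none ∈ S) ∧
      ∀ i, D.Sub i S ↔ eval z (D.g i) ≠ 0 := by
    rcases h with a | ⟨a, z, b, d⟩
    · exact ⟨0, by simp [a.1], fun i => by rw [hg i]; simp [a.2 i]⟩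
    · exact ⟨z, by simp [a, b], d⟩
  choose j hj using hv
  choose r hr using fun i => IsAlgClosed.exists_pow_nat_eq (eval z (D.g i))
    (Nat.pos_of_ne_zero (hj i))
  let y : σ → ℂ := fun s =>
    if some s ∈ S then ∏ i, if s = j i ∧ D.Sub i S then r i else 1 else 0
  have h3 : ∀ i s, D.l i s ≠ 0 → D.Sub i S → y s = if s = j i then r i else 1 := fun i s a b => by
    simp only [y, if_pos (b s a)]
    rw [Finset.prod_eq_single i (fun k _ hk => if_neg fun e : s = j k ∧ D.Sub k S =>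
      hk (disj _ _ _ (e.1 ▸ hj k) a)) (by simp)]
    simp [b]
  refine ⟨Sum.elim z y, fun i => ?_, ?_⟩
  · simp only [Sum.elim_inr, Sum.elim_comp_inl]
    by_cases e : D.Sub i S
    · rw [Finset.prod_eq_single (j i) (fun s _ hs => by
        by_cases e1 : D.l i s = 0
        · simp [e1]
        · simp [h3 i s e1 e, hs]) (by simp), h3 i _ (hj i) e, if_pos rfl, hr]
    · obtain ⟨u, hu⟩ := U_nonempty e
      rw [Finset.prod_eq_zero (mem_univ u) (by simp [y, (mem_U.1 hu).1, (mem_U.1 hu).2])]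
      by_contra e1
      exact e ((h2 i).2 (Ne.symm e1))
  · ext (_ | s)
    · simpa using h1
    · rw [some_supp, Sum.elim_inr]
      by_cases e : some s ∈ S
      · simp only [y, e, if_true, iff_true]
        refine Finset.prod_ne_zero_iff.2 fun i _ => ?_
        split_ifs with e1
        · intro e2
          have := hr i
          rw [e2, zero_pow (hj i)] at this
          exact (h2 i).1 e1.2 this.symm
        · exact one_ne_zero
      · simp [y, e]

lemma dv_prod_two {x : Fin (c + 1) ⊕ σ → ℂ} {i : ι} (hi : i ∈ D.N (supp x))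
    (v : Fin (c + 1) ⊕ σ → ℂ) : dv x v (∏ s, X (.inr s) ^ D.l i s) = 0 := by
  obtain ⟨h1, h2⟩ := mem_N.1 hi
  obtain ⟨u, hu⟩ := U_nonempty h1
  obtain ⟨u1, u2⟩ := mem_U.1 hu
  have u3 : x (.inr u) = 0 := by simpa using u2
  rw [← Finset.mul_prod_erase _ _ (mem_univ u)]
  by_cases e : D.l i u = 1
  · obtain ⟨s, a, b, d⟩ : ∃ s, D.l i s ≠ 0 ∧ s ≠ u ∧ some s ∉ supp x := by
      by_contra e1
      push Not at e1
      exact h2 ⟨u, e, u2, e1⟩
    have d' : x (.inr s) = 0 := by simpa using d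
    rw [dv_mul, map_prod, Finset.prod_eq_zero (mem_erase.2 ⟨b, mem_univ s⟩) (by simp [d', a])]
    simp [u3, u1]
  · obtain ⟨n, hn⟩ : ∃ n, D.l i u = n + 1 + 1 := ⟨D.l i u - 2, by omega⟩
    rw [hn, pow_succ', mul_assoc, dv_mul]
    simp [u3]

omit [DecidableEq ι] in
lemma indep_bound {n : ℕ} {κ : Type} [Fintype κ] (a : κ → Fin (n + 1) → ℂ)
    (h : LinearIndependent ℂ a) {z : Fin (n + 1) → ℂ} (hz : z ≠ 0)
    (h1 : ∀ i, ∑ t, z t * a i t = 0) : Fintype.card κ ≤ n := by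
  obtain ⟨j, hj⟩ := Function.ne_iff.1 hz
  have h2 : Submodule.span ℂ (Set.range a) ≤ LinearMap.ker (Fintype.linearCombination ℂ z) := by
    rw [Submodule.span_le]
    rintro _ ⟨i, rfl⟩
    simpa [Fintype.linearCombination_apply, mul_comm] using h1 i
  have h5 := (h.option (x := Pi.single j 1) fun e =>
    hj (by simpa [Fintype.linearCombination_apply_single] using h2 e)).fintype_card_le_finrank
  simpa using h5

lemma smooth_of (he : ∀ i, 0 < D.e i) (hg : ∀ i, (D.g i).IsHomogeneous (D.e i))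
    {x : Fin (c + 1) ⊕ σ → ℂ} (h0 : x ∘ Sum.inl = 0)
    (h : LinearIndependent ℂ fun i t => eval x (pderiv t (D.fx i))) :
    (∀ i ∈ D.N (supp x), D.e i = 1) ∧ (D.N (supp x)).card ≤ c + 1 ∧
      ∀ z : Fin (c + 1) → ℂ, z ≠ 0 → (∀ i ∈ D.N (supp x), eval z (D.g i) = 0) →
        (D.N (supp x)).card ≤ c := by
  have h1 : ∀ i ∈ D.N (supp x), ∀ t, eval x (pderiv t (D.fx i)) =
      -dv 0 (Pi.single t 1 ∘ Sum.inl) (D.g i) := fun i hi t => by
    have := dv_fx (D := D) x (Pi.single t 1) i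
    rw [dv_prod_two hi, zero_sub, h0] at this
    rw [← this]
    simp [dv, Pi.single_apply]
  obtain ⟨a, ha⟩ : ∃ a : ι → Fin (c + 1) → ℂ, ∀ i j, a i j =
    eval (0 : Fin (c + 1) → ℂ) (pderiv j (D.g i)) := ⟨_, fun _ _ => rfl⟩
  have h2 : LinearIndependent ℂ fun i : D.N (supp x) => a i := by
    have h3 := h.comp (Subtype.val : D.N (supp x) → ι) Subtype.val_injective
    rw [Fintype.linearIndependent_iff] at h3 ⊢
    refine fun b hb => h3 b (funext fun t => ?_)
    rw [Finset.sum_apply, Finset.sum_congr rfl (g := fun i : D.N (supp x) =>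
      -∑ j, b i * a i j * (Pi.single t 1 : _ → ℂ) (.inl j)) fun i _ => by
        rw [Pi.smul_apply, Function.comp_apply, h1 i i.2 t, dv, smul_eq_mul, mul_neg,
          Finset.mul_sum]
        simp only [ha, mul_assoc, Function.comp_apply], Finset.sum_neg_distrib, Finset.sum_comm,
      Finset.sum_eq_zero fun j _ => ?_]
    · simp
    · have := congrFun hb j
      rw [Finset.sum_apply] at this
      simp only [Pi.smul_apply, smul_eq_mul, Pi.zero_apply] at this
      rw [← Finset.sum_mul, this, zero_mul]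
  have h3 : ∀ i ∈ D.N (supp x), D.e i = 1 := fun i hi => by
    by_contra e
    refine h2.ne_zero ⟨i, hi⟩ (funext fun j => ?_)
    have := he i
    rw [ha]
    exact eval_zero_hom (hg i).pderiv (by omega)
  refine ⟨h3, by simpa using h2.fintype_card_le_finrank, fun z hz h4 => ?_⟩
  rw [← Fintype.card_coe]
  refine indep_bound _ h2 hz fun i => ?_
  have h6 := hg i
  rw [h3 i i.2] at h6
  have h7 := h4 i i.2
  rw [eval_lin h6] at h7
  simpa only [ha] using h7

end Dat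

end Pool.Agent.Lib.MP_9ff3e7_ag.Tor
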