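import Pool.Agent.Lib.MP_9ff3e7_ag.TPt

/-! Base point freeness and separation of points. -/

set_option linter.unusedSectionVars false

namespace Pool.Agent.Lib.MP_9ff3e7_ag.Tor

open Finset MvPolynomial

variable {c : ℕ} {σ ι K : Type} [Fintype σ] [Fintype ι] [DecidableEq σ] [DecidableEq ι]
  [AddCommGroup K]

namespace Dat

variable (D : Dat c σ ι K)

/-- `S` is a fixed type below the point `x`. -/
structure Low (x : Fin (c + 1) ⊕ σ → ℂ) (S : Finset (Option σ)) (m₀ : V σ) : Prop where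
  eqn : D.Eqn x
  bel : D.Below S (supp x)
  fix : D.Fixed S
  full : D.Full S m₀

variable {D} {x y : Fin (c + 1) ⊕ σ → ℂ} {S : Finset (Option σ)} {m₀ : V σ} {m : ℕ}

lemma Low.ne (h : D.Low x S m₀) (s : σ) (hs : some s ∈ S) : x (.inr s) ≠ 0 :=
  some_supp.1 (h.bel.1 hs)

lemma Low.tt (h : D.Low x S m₀) (hn : none ∈ S) : D.TT S m₀ (x ∘ Sum.inl) := by
  refine ⟨hn, none_supp.1 (h.bel.1 hn), fun i => ?_, h.fix, h.full⟩
  rw [← h.eqn.sub_iff]
  rcases h.bel.2 with e | e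
  · exact ⟨fun a => a.mono h.bel.1, e.2 i⟩
  · exact absurd hn e.1

lemma Low.tf (h : D.Low x S m₀) (hn : none ∉ S) : ∃ ub, D.TF S m₀ ub := by
  have h1 := Hyp.below_h0 h.bel hn
  choose ub hub using fun i => U_nonempty (h1 i)
  exact ⟨ub, hn, h1, h.fix, h.full, hub⟩

lemma Low.exists_j (h : D.Low x S m₀) : ∃ j, none ∈ S → x (.inl j) ≠ 0 := by
  obtain ⟨j, hj⟩ := Dat.exists_j x
  exact ⟨j, fun e => hj (none_supp.1 (h.bel.1 e))⟩

namespace Hyp

variable (H : D.Hyp)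
include H

lemma g_zero (i : ι) : eval (0 : Fin (c + 1) → ℂ) (D.g i) = 0 := eval_zero_hom (H.hg i) (H.he i)

lemma exists_low (h1 : D.Eqn x) (h2 : D.SS (supp x)) : ∃ S m₀, D.Low x S m₀ := by
  obtain ⟨m, a, b, d⟩ := h2
  obtain ⟨S, m₀, c1, c2, c3, -⟩ := H.desc (h1.adm H.g_zero) a b d 0 fun _ _ => rfl
  exact ⟨S, m₀, h1, c1, c2, c3⟩

lemma low_gen (h : D.Low x S m₀) : D.Gen S :=
  H.free _ ((h.eqn.adm H.g_zero).below h.bel) h.full.ss

lemma rep0 (h : D.Low x S m₀) {κ : ℕ} (hκ : 1 ≤ κ) (hm : D.Bd κ m) : D.Rep S (D.Dv m) := by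
  by_cases hn : none ∈ S
  · exact H.true0 (h.tt hn) hκ hm
  · obtain ⟨ub, h1⟩ := h.tf hn
    exact H.false0 h1 hκ hm

lemma rep1 (h : D.Low x S m₀) (hm : D.Bd 2 m) {u : σ} (h1 : some u ∉ S) (h2 : ¬ ∃ i, D.Bp S i u) :
    D.Rep S (D.Dv m - D.w u) := by
  by_cases hn : none ∈ S
  · exact H.true1 (h.tt hn) hm h1 h2
  · obtain ⟨ub, h3⟩ := h.tf hn
    exact H.false1 h3 hm h1 h2

theorem bpf {κ : ℕ} (hκ : 1 ≤ κ) (hm : D.Bd κ m) (h1 : D.Eqn x) (h2 : D.SS (supp x)) :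
    ∃ s : MvPolynomial (Fin (c + 1) ⊕ σ) ℂ, s.IsWeightedHomogeneous D.Wt (D.Dv m) ∧
      eval x s ≠ 0 := by
  obtain ⟨S, m₀, h⟩ := H.exists_low h1 h2
  obtain ⟨α, a, b, d⟩ := H.rep0 h hκ hm
  obtain ⟨j, hj⟩ := h.exists_j
  exact ⟨mon j α, d ▸ D.mon_sec j a, mon_ne b h.ne hj⟩

lemma not_bp {i : ι} (hi : i ∈ D.N S) {s : σ} (hs : D.l i s ≠ 0) : ¬ ∃ k, D.Bp S k s := by
  rintro ⟨k, hk⟩
  obtain rfl := H.disj _ _ _ hs (by rw [hk.1]; exact one_ne_zero)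
  exact (mem_N.1 hi).2 ⟨s, hk⟩

lemma chart (h : D.Low x S m₀) (hy : D.Eqn y) (h1 : ∀ s, some s ∈ S → y (.inr s) ≠ 0)
    (h2 : none ∈ S → ∃ t : ℂ, t ≠ 0 ∧ y ∘ Sum.inl = t • (x ∘ Sum.inl)) :
    ∃ χ : AddChar K ℂ, (∀ s, some s ∈ S → y (.inr s) = χ (D.w s) * x (.inr s)) ∧
      (none ∈ S → ∀ j, y (.inl j) = χ D.μ * x (.inl j)) := by
  obtain ⟨t, t0, ht⟩ : ∃ t : ℂ, t ≠ 0 ∧ (none ∈ S → y ∘ Sum.inl = t • (x ∘ Sum.inl)) := by
    by_cases e : none ∈ S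
    · obtain ⟨t, a, b⟩ := h2 e
      exact ⟨t, a, fun _ => b⟩
    · exact ⟨1, one_ne_zero, fun a => absurd a e⟩
  let u : Option σ → ℂˣ := fun s => s.elim (Units.mk0 t t0) fun s =>
    if e : some s ∈ S then Units.mk0 (y (.inr s) / x (.inr s)) (div_ne_zero (h1 s e) (h.ne s e))
    else 1
  obtain ⟨φ, hφ⟩ := H.exists_hom h.fix (H.low_gen h) (fun s => Additive.ofMul (u s)) fun i hi => by
    have hn : none ∈ S := by
      by_contra e
      exact below_h0 h.bel e i hi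
    simp only [← ofMul_zpow, ← ofMul_prod]
    refine congrArg Additive.ofMul (Units.ext ?_)
    have e1 : ∏ s, ((u (some s) : ℂ)) ^ D.l i s = t ^ D.e i := by
      have e2 : ∏ s, x (.inr s) ^ D.l i s ≠ 0 := by
        rw [h.eqn i]
        exact ((h.tt hn).hB i).1 hi
      refine mul_right_cancel₀ e2 ?_
      rw [← Finset.prod_mul_distrib, h.eqn i, ← eval_smul_hom (H.hg i), ← ht hn, ← hy i]
      refine Finset.prod_congr rfl fun s _ => ?_
      by_cases e : D.l i s = 0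
      · simp [e]
      · simp only [u, Option.elim, dif_pos (hi s e), Units.val_mk0, ← mul_pow,
          div_mul_cancel₀ _ (h.ne s (hi s e))]
    rw [Fintype.prod_option]
    simp only [ρz, Option.elim, zpow_neg, zpow_natCast, Units.val_mul, Units.val_inv_eq_inv_val,
      Units.val_pow_eq_pow_val, Units.coe_prod]
    rw [e1]
    exact inv_mul_cancel₀ (pow_ne_zero _ t0)
  refine ⟨⟨fun k => ((Additive.toMul (φ k) : ℂˣ) : ℂ), by simp, by simp⟩, fun s hs => ?_,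
    fun hn j => ?_⟩
  · have := hφ _ hs
    rw [W_some] at this
    simp only [AddChar.coe_mk, this, toMul_ofMul, u, Option.elim, dif_pos hs, Units.val_mk0,
      div_mul_cancel₀ _ (h.ne s hs)]
  · have := hφ _ hn
    rw [W_none] at this
    simp only [AddChar.coe_mk, this, toMul_ofMul, u, Option.elim, Units.val_mk0]
    exact congrFun (ht hn) j

lemma finish (h : D.Low x S m₀) (hm : D.Bd 2 m) (hy : D.Eqn y)
    (h1 : ∀ s, some s ∈ S → y (.inr s) = x (.inr s)) (h2 : none ∈ S → ∀ j, y (.inl j) = x (.inl j))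
    (h3 : ∀ p : MvPolynomial (Fin (c + 1) ⊕ σ) ℂ, p.IsWeightedHomogeneous D.Wt (D.Dv m) →
      eval y p = eval x p) : y = x := by
  obtain ⟨j, hj⟩ := h.exists_j
  have key : ∀ t, D.Rep S (D.Dv m - D.Wt t) → y t = x t := fun t ⟨α, a, b, d⟩ => by
    have := h3 _ (D.X_mon_sec t j a d)
    rw [map_mul, map_mul, eval_X, eval_X, mon_congr b h1 fun e => h2 e j] at this
    exact mul_right_cancel₀ (mon_ne b h.ne hj) this
  have loc : ∀ s, (¬ ∃ i, D.Bp S i s) → y (.inr s) = x (.inr s) := fun s hs => by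
    by_cases e : some s ∈ S
    · exact h1 s e
    · exact key (.inr s) (H.rep1 h hm e hs)
  have lin : ∀ i, D.e i = 1 → (∀ s, D.l i s ≠ 0 → y (.inr s) = x (.inr s)) →
      eval (y ∘ Sum.inl - x ∘ Sum.inl) (D.g i) = 0 := fun i a b => by
    have e := H.hg i
    rw [a] at e
    have := eval_lin_comb e 1 (-1) (y ∘ Sum.inl) (x ∘ Sum.inl)
    rw [one_smul, neg_one_smul, ← sub_eq_add_neg, ← hy i, ← h.eqn i,
      Finset.prod_congr rfl (g := fun s => x (.inr s) ^ D.l i s) fun s _ => by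
        by_cases e : D.l i s = 0
        · simp [e]
        · rw [b s e]] at this
    rw [this]
    ring
  have hz : y ∘ Sum.inl = x ∘ Sum.inl := by
    by_cases hn : none ∈ S
    · exact funext (h2 hn)
    obtain ⟨ub, h4⟩ := h.tf hn
    by_contra e
    rcases H.false2 h4 hm (sub_ne_zero.2 e) fun i hi => lin i (H.e_one h4 hi) fun s hs =>
      loc s (H.not_bp hi hs) with a | ⟨i, u, a1, a2, a3, a4⟩
    · exact e (funext fun j => key (.inl j) a)
    · refine a3 (lin i a2 fun s hs => ?_)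
      by_cases e1 : s = u
      · exact e1 ▸ key (.inr u) a4
      · exact h1 s (a1.2.2 s hs e1)
  funext t
  rcases t with j | u
  · exact congrFun hz j
  by_cases e : ∃ i, D.Bp S i u
  · obtain ⟨i, hi⟩ := e
    have e1 := hy i
    rw [hz, ← h.eqn i, ← Finset.mul_prod_erase _ _ (mem_univ u),
      ← Finset.mul_prod_erase _ _ (mem_univ u), hi.1, pow_one, pow_one,
      Finset.prod_congr rfl (g := fun s => x (.inr s) ^ D.l i s) fun s hs => by
        by_cases e : D.l i s = 0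
        · simp [e]
        · rw [h1 s (hi.2.2 s e (ne_of_mem_erase hs))]] at e1
    refine mul_right_cancel₀ (Finset.prod_ne_zero_iff.2 fun s hs => ?_) e1
    by_cases e : D.l i s = 0
    · simp [e]
    · exact pow_ne_zero _ (h.ne s (hi.2.2 s e (ne_of_mem_erase hs)))
  · exact loc u e

lemma same_chart (h : D.Low x S m₀) (hm : D.Bd 2 m) (hy : D.Eqn y) {a : ℂ}
    (h1 : ∀ s, some s ∈ S → y (.inr s) ≠ 0)
    (h2 : none ∈ S → ∃ t : ℂ, t ≠ 0 ∧ y ∘ Sum.inl = t • (x ∘ Sum.inl))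
    (h3 : ∀ p : MvPolynomial (Fin (c + 1) ⊕ σ) ℂ, p.IsWeightedHomogeneous D.Wt (D.Dv m) →
      eval y p = a * eval x p) : ∃ χ : AddChar K ℂ, ∀ t, y t = χ (D.Wt t) * x t := by
  obtain ⟨χ, c1, c2⟩ := H.chart h hy h1 h2
  have hχ : ∀ k, χ k ≠ 0 := fun k e => by
    have := χ.map_add_eq_mul k (-k)
    rw [add_neg_cancel, χ.map_zero_eq_one, e, zero_mul] at this
    exact one_ne_zero this
  set x' : Fin (c + 1) ⊕ σ → ℂ := fun t => χ (D.Wt t) * x t with hx'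
  have e1 : supp x' = supp x := by
    ext (_ | s)
    · simp [hx', hχ, funext_iff]
    · simp [hx', hχ]
  have h' : D.Low x' S m₀ := ⟨eqn_iff.2 fun i => by
    rw [hx', eval_scale (H.fx_sec i), eqn_iff.1 h.eqn i, mul_zero], e1 ▸ h.bel, h.fix, h.full⟩
  refine ⟨χ, congrFun (H.finish h' hm hy c1 c2 fun p hp => ?_)⟩
  obtain ⟨α, a1, a2, a3⟩ := H.rep0 h one_le_two hm
  obtain ⟨j, hj⟩ := h.exists_j
  have e2 := mon_congr (x := x') (y := y) (j := j) a2 c1 fun e => c2 e j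
  rw [h3 _ (a3 ▸ D.mon_sec j a1), hx', eval_scale (a3 ▸ D.mon_sec j a1)] at e2
  rw [h3 p hp, eval_scale hp, mul_right_cancel₀ (mon_ne a2 h.ne hj) e2]

lemma tt_sub (h : D.Low x S m₀) (hm : D.Bd 2 m) (hy : D.Eqn y) {a : ℂ} (ha : a ≠ 0)
    (h2 : none ∈ S → ∃ t : ℂ, t ≠ 0 ∧ y ∘ Sum.inl = t • (x ∘ Sum.inl))
    (h3 : ∀ p : MvPolynomial (Fin (c + 1) ⊕ σ) ℂ, p.IsWeightedHomogeneous D.Wt (D.Dv m) →
      eval y p = a * eval x p) : ∃ χ : AddChar K ℂ, ∀ t, y t = χ (D.Wt t) * x t := by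
  refine H.same_chart h hm hy (fun s hs => ?_) h2 h3
  obtain ⟨α, a1, a2, a3⟩ := H.rep0 h one_le_two hm
  obtain ⟨j, hj⟩ := h.exists_j
  have e1 : eval y (mon j α) ≠ 0 := by
    rw [h3 _ (a3 ▸ D.mon_sec j a1)]
    exact mul_ne_zero ha (mon_ne a2 h.ne hj)
  by_cases hn : none ∈ S
  · by_cases e : ∀ i, D.Sub i S → D.l i s = 0
    · exact ne_of_mon e1 (H.true_unit (h.tt hn) hm ⟨hs, e⟩ a2 a3)
    · push Not at e
      obtain ⟨i, b1, b2⟩ := e
      obtain ⟨t, t0, ht⟩ := h2 hn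
      refine some_supp.1 ((hy.sub_iff i).2 ?_ s b2)
      rw [ht, eval_smul_hom (H.hg i)]
      exact mul_ne_zero (pow_ne_zero _ t0) (((h.tt hn).hB i).1 b1)
  · obtain ⟨ub, h4⟩ := h.tf hn
    exact ne_of_mon e1 (H.false_unit h4 hm hs a2 a3)

lemma easy (h : D.Low x S m₀) (hm : D.Bd 2 m) (hy : D.Eqn y) {a : ℂ} (ha : a ≠ 0)
    (h2 : none ∈ S → D.Rep S (D.Dv m - D.μ))
    (h3 : ∀ p : MvPolynomial (Fin (c + 1) ⊕ σ) ℂ, p.IsWeightedHomogeneous D.Wt (D.Dv m) →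
      eval y p = a * eval x p) : ∃ χ : AddChar K ℂ, ∀ t, y t = χ (D.Wt t) * x t := by
  refine H.tt_sub h hm hy ha (fun hn => ?_) h3
  obtain ⟨α, a1, a2, a3⟩ := h2 hn
  obtain ⟨j, hj⟩ := h.exists_j
  have e1 : ∀ k, y (.inl k) * eval y (mon j α) = a * (x (.inl k) * eval x (mon j α)) := fun k => by
    simpa using h3 _ (D.X_mon_sec (.inl k) j a1 a3)
  have e2 := mon_ne a2 h.ne hj
  have e3 : eval y (mon j α) ≠ 0 := fun e => by
    have := e1 j
    rw [e, mul_zero] at this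
    exact mul_ne_zero ha (mul_ne_zero (hj hn) e2) this.symm
  refine ⟨a * eval x (mon j α) / eval y (mon j α), div_ne_zero (mul_ne_zero ha e2) e3,
    funext fun k => ?_⟩
  simp only [Function.comp_apply, Pi.smul_apply, smul_eq_mul]
  field_simp
  linear_combination e1 k

lemma exists_eta {X S : Finset (Option σ)} (hn : none ∈ X) (h2 : ∀ i, D.Sub i S → D.Sub i X) :
    ∃ η : V σ →ₗ[ℚ] ℚ, (∀ i, η (D.ρ i) = 0) ∧ ∀ v, On S v → η v = ∑ s ∈ S \ X, v s := by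
  have : ∀ i, ∃ s, D.l i s ≠ 0 ∧ (¬ D.Sub i S → some s ∉ S) := fun i => by
    by_cases e : D.Sub i S
    · obtain ⟨s, hs⟩ := H.exists_var i
      exact ⟨s, hs, fun a => absurd e a⟩
    · obtain ⟨s, hs⟩ := U_nonempty e
      exact ⟨s, (mem_U.1 hs).1, fun _ => (mem_U.1 hs).2⟩
  choose j j1 j2 using this
  let η₀ : V σ →ₗ[ℚ] ℚ := ∑ s ∈ S \ X, LinearMap.proj s
  have h0 : ∀ v, η₀ v = ∑ s ∈ S \ X, v s := fun v => by simp [η₀]
  refine ⟨η₀ - ∑ i ∈ (D.B S)ᶜ, (η₀ (D.ρ i) / D.l i (j i)) • LinearMap.proj (some (j i)),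
    fun k => ?_, fun v hv => ?_⟩
  · simp only [LinearMap.sub_apply, LinearMap.sum_apply, LinearMap.smul_apply,
      LinearMap.proj_apply, smul_eq_mul, ρ_some]
    have h3 : ∀ i, i ≠ k → η₀ (D.ρ i) / D.l i (j i) * D.l k (j i) = 0 := fun i hi => by
      simp [H.other (j1 i) hi.symm]
    by_cases e : D.Sub k S
    · rw [Finset.sum_eq_zero fun i hi => h3 i (by rintro rfl; simp [e] at hi), h0,
        Finset.sum_eq_zero fun s hs => (h2 k e).on hn s (mem_sdiff.1 hs).2, sub_zero]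
    · rw [Finset.sum_eq_single k (fun i _ hi => h3 i hi) (by simp [e]),
        div_mul_cancel₀ _ (by exact_mod_cast j1 k), sub_self]
  · simp only [LinearMap.sub_apply, LinearMap.sum_apply, LinearMap.smul_apply,
      LinearMap.proj_apply, smul_eq_mul]
    rw [Finset.sum_eq_zero fun i hi => by rw [hv _ (j2 i (by simpa using hi)), mul_zero],
      sub_zero, h0]

omit H in
lemma on_of_mon {j : Fin (c + 1)} {α : Option σ → ℤ} (h0 : 0 ≤ α) (h1 : α none = 0)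
    (h : eval x (mon j α) ≠ 0) : On (supp x) (cv α) := by
  rintro (_ | s) hs
  · simp [cv, h1]
  · have h2 : 0 ≤ α (some s) := h0 _
    have h3 : ¬ 1 ≤ α (some s) := fun e => hs (some_supp.2 (ne_of_mon h e))
    have : α (some s) = 0 := by omega
    simp [cv, this]

theorem sep_points (hm : D.Bd 2 m) (hx : D.Eqn x) (hx' : D.SS (supp x)) (hy : D.Eqn y)
    (hy' : D.SS (supp y)) {a : ℂ} (ha : a ≠ 0)
    (h3 : ∀ p : MvPolynomial (Fin (c + 1) ⊕ σ) ℂ, p.IsWeightedHomogeneous D.Wt (D.Dv m) →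
      eval y p = a * eval x p) : ∃ χ : AddChar K ℂ, ∀ t, y t = χ (D.Wt t) * x t := by
  obtain ⟨X, mx, h⟩ := H.exists_low hx hx'
  by_cases e1 : none ∈ X → D.Rep X (D.Dv m - D.μ)
  · exact H.easy h hm hy ha e1 h3
  push Not at e1
  have hT : D.Tight X (x ∘ Sum.inl) := by
    by_contra e
    exact e1.2 (H.true2 (h.tt e1.1) hm e)
  obtain ⟨η, η1, η2⟩ := H.exists_eta (S := supp x) e1.1 (by
    rcases h.bel.2 with e | e
    · exact e.2
    · exact absurd e1.1 e.1)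
  obtain ⟨Y, my, c1, c2, c3, c4⟩ := H.minimiser (hy.adm H.g_zero) hy' η η1
  have h' : D.Low y Y my := ⟨hy, c1, c2, c3⟩
  by_cases e2 : none ∈ Y → D.Rep Y (D.Dv m - D.μ)
  · obtain ⟨χ, hχ⟩ := H.easy h' hm hx (inv_ne_zero ha) e2 fun p hp => by
      rw [h3 p hp, inv_mul_cancel_left₀ ha]
    refine ⟨χ⁻¹, fun t => ?_⟩
    rw [hχ t, ← mul_assoc, AddChar.inv_apply, ← χ.map_add_eq_mul, neg_add_cancel,
      χ.map_zero_eq_one, one_mul]
  push Not at e2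
  have hT' : D.Tight Y (y ∘ Sum.inl) := by
    by_contra e
    exact e2.2 (H.true2 (h'.tt e2.1) hm e)
  obtain ⟨M, a1, a2, a3⟩ := H.rep0 h' one_le_two hm
  obtain ⟨M₀, b1, b2, b3⟩ := H.rep0 h one_le_two hm
  obtain ⟨j, hj⟩ := h.exists_j
  obtain ⟨j', hj'⟩ := h'.exists_j
  have d1 : On (supp x) (cv M) := on_of_mon (j := j') a1 (no_mu e2.1 a1 a2 a3 e2.2) fun e => by
    have := h3 _ (a3 ▸ D.mon_sec j' a1)
    rw [e, mul_zero] at this
    exact mon_ne a2 h'.ne hj' this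
  have d2 : On (supp y) (cv M₀) := on_of_mon (j := j) b1 (no_mu e1.1 b1 b2 b3 e1.2) (by
    rw [h3 _ (b3 ▸ D.mon_sec j b1)]
    exact mul_ne_zero ha (mon_ne b2 h.ne hj))
  have d3 := c4 _ _ a2 d2 (fun s => by simpa [cv] using b1 s) (by rw [dq_cv, dq_cv, a3, b3])
  rw [η2 _ d1, η2 _ (b2.mono h.bel.1),
    Finset.sum_eq_zero (f := cv M₀) fun s hs => b2 s (mem_sdiff.1 hs).2] at d3
  have d4 : ∀ s, 0 ≤ cv M s := fun s => by simpa [cv] using a1 s
  have d5 : On X (cv M) := fun s hs => by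
    by_cases e : s ∈ supp x
    · exact (Finset.sum_eq_zero_iff_of_nonneg fun s _ => d4 s).1
        (le_antisymm d3 (Finset.sum_nonneg fun s _ => d4 s)) s (mem_sdiff.2 ⟨e, hs⟩)
    · exact d1 s e
  have d6 := H.last ⟨h.tt e1.1, hT, hm, a1, d5, a3, e1.2⟩ ⟨h'.tt e2.1, hT', hm, a1, a2, a3, e2.2⟩
  refine H.tt_sub h hm hy ha (fun _ => ?_) h3
  obtain ⟨t, ht⟩ := hT.2.2 (y ∘ Sum.inl) fun i hi => by
    by_contra e
    exact (mem_N.1 (d6 ▸ hi)).1 (((h'.tt e2.1).hB i).2 e)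
  refine ⟨t, ?_, ht⟩
  rintro rfl
  exact (h'.tt e2.1).hz (by rw [ht, zero_smul])

end Hyp

end Dat

end Pool.Agent.Lib.MP_9ff3e7_ag.Tor
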