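import Pool.Agent.Lib.MP_9ff3e7_ag.TSep

/-! Separation of tangent vectors, and the hypotheses in terms of points. -/

set_option linter.unusedSectionVars false

namespace Pool.Agent.Lib.MP_9ff3e7_ag.Tor

open Finset MvPolynomial

variable {c : ℕ} {σ ι K : Type} [Fintype σ] [Fintype ι] [DecidableEq σ] [DecidableEq ι]
  [AddCommGroup K]

namespace Dat

variable {D : Dat c σ ι K} {x v : Fin (c + 1) ⊕ σ → ℂ} {S : Finset (Option σ)} {m₀ : V σ} {m : ℕ}

lemma dv_zero {τ : Type} [Fintype τ] [DecidableEq τ] (x : τ → ℂ) (p : MvPolynomial τ ℂ) :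
    dv x 0 p = 0 := by simp [dv]

namespace Hyp

variable (H : D.Hyp)
include H

lemma tan_zero (h : D.Low x S m₀) (hm : D.Bd 2 m) (hv : ∀ i, dv x v (D.fx i) = 0)
    (h1 : ∀ s, some s ∈ S → v (.inr s) = 0) (h2 : none ∈ S → ∀ j, v (.inl j) = 0)
    (h3 : ∀ p : MvPolynomial (Fin (c + 1) ⊕ σ) ℂ, p.IsWeightedHomogeneous D.Wt (D.Dv m) →
      dv x v p = 0) : v = 0 := by
  obtain ⟨j, hj⟩ := h.exists_j
  have key : ∀ t, D.Rep S (D.Dv m - D.Wt t) → v t = 0 := fun t ⟨α, a, b, d⟩ => by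
    have := h3 _ (D.X_mon_sec t j a d)
    rw [dv_mul, dv_X, dv_mon b h1 fun e => h2 e j, mul_zero, add_zero] at this
    exact (mul_eq_zero.1 this).resolve_right (mon_ne b h.ne hj)
  have loc : ∀ s, (¬ ∃ i, D.Bp S i s) → v (.inr s) = 0 := fun s hs => by
    by_cases e : some s ∈ S
    · exact h1 s e
    · exact key (.inr s) (H.rep1 h hm e hs)
  have lin : ∀ i, D.e i = 1 → (∀ s, D.l i s ≠ 0 → v (.inr s) = 0) →
      eval (v ∘ Sum.inl) (D.g i) = 0 := fun i a b => by
    have e := H.hg i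
    rw [a] at e
    have := hv i
    rw [dv_fx, dv_lin _ _ e, dv_prod x v univ Sum.inr _ 0 fun s _ hs => by simpa using b s hs]
      at this
    simpa using this
  have hz : v ∘ Sum.inl = 0 := by
    by_cases hn : none ∈ S
    · exact funext (h2 hn)
    obtain ⟨ub, h4⟩ := h.tf hn
    by_contra e
    rcases H.false2 h4 hm e fun i hi => lin i (H.e_one h4 hi) fun s hs =>
      loc s (H.not_bp hi hs) with a | ⟨i, u, a1, a2, a3, a4⟩
    · exact e (funext fun j => key (.inl j) a)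
    · refine a3 (lin i a2 fun s hs => ?_)
      by_cases e1 : s = u
      · exact e1 ▸ key (.inr u) a4
      · exact h1 s (a1.2.2 s hs e1)
  funext t
  rcases t with j | u
  · exact congrFun hz j
  by_cases e : ∃ i, D.Bp S i u
  · obtain ⟨i, hi⟩ := e
    have e1 := hv i
    rw [dv_fx, hz, dv_zero, sub_zero, ← Finset.mul_prod_erase _ _ (mem_univ u), hi.1, pow_one,
      dv_mul, dv_X, dv_prod x v _ Sum.inr _ 0 fun s hs e => by
        simpa using h1 s (hi.2.2 s e (ne_of_mem_erase hs))] at e1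
    simp only [Pi.zero_apply, mul_zero, sum_const_zero, zero_mul, add_zero, map_prod, map_pow,
      eval_X] at e1
    refine (mul_eq_zero.1 e1).resolve_right (Finset.prod_ne_zero_iff.2 fun s hs => ?_)
    by_cases e : D.l i s = 0
    · simp [e]
    · exact pow_ne_zero _ (h.ne s (hi.2.2 s e (ne_of_mem_erase hs)))
  · exact loc u e

lemma tan_radial (h : D.Low x S m₀) (hm : D.Bd 2 m) (hv : ∀ i, dv x v (D.fx i) = 0) {γ : ℂ}
    (h3 : ∀ p : MvPolynomial (Fin (c + 1) ⊕ σ) ℂ, p.IsWeightedHomogeneous D.Wt (D.Dv m) →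
      dv x v p = γ * eval x p) (hn : none ∈ S) : ∃ t : ℂ, v ∘ Sum.inl = t • (x ∘ Sum.inl) := by
  obtain ⟨j, hj⟩ := h.exists_j
  by_cases hT : D.Tight S (x ∘ Sum.inl)
  · refine hT.2.2 _ fun i hi => ?_
    have e := H.hg i
    rw [hT.2.1 i hi] at e
    have e1 := hv i
    obtain ⟨u, hu⟩ := U_nonempty (S := supp x) (i := i) fun a =>
      (mem_N.1 hi).1 (((h.tt hn).hB i).2 ((h.eqn.sub_iff i).1 a))
    obtain ⟨u1, u2⟩ := mem_U.1 hu
    have u3 : x (.inr u) = 0 := by simpa using u2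
    obtain ⟨α, a, b, d⟩ := H.rep1 h hm (fun a => u2 (h.bel.1 a)) (H.not_bp hi u1)
    have u4 := h3 _ (D.X_mon_sec (.inr u) j a d)
    rw [dv_mul, dv_X, map_mul, eval_X, u3] at u4
    simp only [zero_mul, add_zero, mul_zero] at u4
    have u5 := (mul_eq_zero.1 u4).resolve_right (mon_ne b h.ne hj)
    rw [dv_fx, dv_lin _ _ e, ← Finset.mul_prod_erase _ _ (mem_univ u), dv_mul,
      dv_pow (γ := 0) x v _ fun _ => by simpa using u5] at e1
    simpa [u3, u1] using e1
  · obtain ⟨α, a, b, d⟩ := H.true2 (h.tt hn) hm hT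
    have e2 := mon_ne b h.ne hj
    refine ⟨γ - dv x v (mon j α) / eval x (mon j α), funext fun k => ?_⟩
    have := h3 _ (D.X_mon_sec (.inl k) j a d)
    rw [dv_mul, dv_X, map_mul, eval_X] at this
    simp only [Function.comp_apply, Pi.smul_apply, smul_eq_mul]
    field_simp
    linear_combination this

theorem sep_tan (hm : D.Bd 2 m) (hx : D.Eqn x) (hx' : D.SS (supp x))
    (hv : ∀ i, dv x v (D.fx i) = 0) {γ : ℂ}
    (h3 : ∀ p : MvPolynomial (Fin (c + 1) ⊕ σ) ℂ, p.IsWeightedHomogeneous D.Wt (D.Dv m) →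
      dv x v p = γ * eval x p) : ∃ ψ : K →+ ℂ, ∀ t, v t = ψ (D.Wt t) * x t := by
  obtain ⟨S, m₀, h⟩ := H.exists_low hx hx'
  obtain ⟨t, ht⟩ : ∃ t : ℂ, none ∈ S → v ∘ Sum.inl = t • (x ∘ Sum.inl) := by
    by_cases e : none ∈ S
    · exact (H.tan_radial h hm hv h3 e).imp fun _ a _ => a
    · exact ⟨0, fun a => absurd a e⟩
  obtain ⟨ψ, hψ⟩ := H.exists_hom h.fix (H.low_gen h)
    (fun s => s.elim t fun s => v (.inr s) / x (.inr s)) fun i hi => by
      have hn : none ∈ S := by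
        by_contra e
        exact below_h0 h.bel e i hi
      have e1 := hv i
      rw [dv_fx, ht hn, dv_radial _ (H.hg i),
        dv_prod x v univ Sum.inr _ (fun s => v (.inr s) / x (.inr s)) fun s _ hs =>
          (div_mul_cancel₀ _ (h.ne s (hi s hs))).symm, h.eqn i, ← sub_mul] at e1
      have e2 := (mul_eq_zero.1 e1).resolve_right (((h.tt hn).hB i).1 hi)
      rw [Fintype.sum_option]
      simp only [ρz, Option.elim, zsmul_eq_mul, Int.cast_neg, Int.cast_natCast]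
      linear_combination e2
  have a1 : ∀ s, some s ∈ S → (v - fun t => ψ (D.Wt t) * x t) (.inr s) = 0 := fun s hs => by
    have : ψ (D.Wt (.inr s)) = v (.inr s) / x (.inr s) := hψ _ hs
    rw [Pi.sub_apply, this, div_mul_cancel₀ _ (h.ne s hs), sub_self]
  have a2 : none ∈ S → ∀ j, (v - fun t => ψ (D.Wt t) * x t) (.inl j) = 0 := fun hn j => by
    have : ψ (D.Wt (.inl j)) = t := hψ _ hn
    rw [Pi.sub_apply, this, sub_eq_zero]
    exact congrFun (ht hn) j
  refine ⟨ψ, congrFun (sub_eq_zero.1 (H.tan_zero h hm (fun i => ?_) a1 a2 fun p hp => ?_))⟩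
  · rw [dv_vsub, hv i, dv_euler x (H.fx_sec i), eqn_iff.1 hx i]
    simp
  · obtain ⟨α, b1, b2, b3⟩ := H.rep0 h one_le_two hm
    obtain ⟨j, hj⟩ := h.exists_j
    have e1 := dv_mon (x := x) (j := j) b2 a1 fun e => a2 e j
    rw [dv_vsub, h3 _ (b3 ▸ D.mon_sec j b1), dv_euler x (b3 ▸ D.mon_sec j b1), ← sub_mul] at e1
    rw [dv_vsub, h3 p hp, dv_euler x hp, ← sub_mul,
      (mul_eq_zero.1 e1).resolve_right (mon_ne b2 h.ne hj), zero_mul]

end Hyp

theorem hyp_of (he : ∀ i, 0 < D.e i) (hg : ∀ i, (D.g i).IsHomogeneous (D.e i))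
    (disj : ∀ i j s, D.l i s ≠ 0 → D.l j s ≠ 0 → i = j)
    (deg : ∀ i, ∑ s, D.l i s • D.w s = D.e i • D.μ)
    (pointed : ∀ (p : σ → ℕ) (q : ℕ), ∑ s, p s • D.w s + q • D.μ = 0 → p = 0 ∧ q = 0)
    (torus : ∀ (p : σ → ℤ) (q : ℤ) (d : ℕ) (t : ι → ℤ), 0 < d → ∑ s, p s • D.w s = q • D.μ →
      (∀ s, d * p s = ∑ i, t i * D.l i s) → d * q = ∑ i, t i * D.e i → ∀ i, (d : ℤ) ∣ t i)
    (free : ∀ y, D.Eqn y → D.SS (supp y) →
      ∀ χ : AddChar K ℂ, (∀ t, χ (D.Wt t) * y t = y t) → χ = 1)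
    (smooth : ∀ y, D.Eqn y → D.SS (supp y) →
      LinearIndependent ℂ fun i t => eval y (pderiv t (D.fx i))) : D.Hyp := by
  have h0 : ∀ i, eval (0 : Fin (c + 1) → ℂ) (D.g i) = 0 := fun i => eval_zero_hom (hg i) (he i)
  have hv : ∀ i, ∃ s, D.l i s ≠ 0 := fun i => by
    by_contra e
    push Not at e
    have := deg i
    simp only [e, zero_smul, sum_const_zero] at this
    exact (he i).ne' (pointed 0 (D.e i) (by simp [← this])).2
  refine ⟨he, hg, disj, fun i => ?_, fun α a b => ?_, fun r t a b i => ?_, fun S a b => ?_,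
    fun S n a b => ?_⟩
  · rw [dz_apply]
    simp only [ρz, Option.elim, neg_smul, natCast_zsmul, deg i, neg_add_cancel]
  · have := pointed (fun s => (α (some s)).toNat) (α none).toNat (by
      rw [← b, dz_apply, add_comm, ← natCast_zsmul, Int.toNat_of_nonneg (a none)]
      congr 1
      exact Finset.sum_congr rfl fun s _ => by
        rw [← natCast_zsmul, Int.toNat_of_nonneg (a (some s))])
    funext s
    have h1 : 0 ≤ α s := a s
    rcases s with _ | s
    · have := this.2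
      simp only [Pi.zero_apply]
      omega
    · have : (α (some s)).toNat = 0 := congrFun this.1 s
      simp only [Pi.zero_apply]
      omega
  · obtain ⟨N, hN, T, hT⟩ := clear (σ := ι) fun k => k.elim 0 t
    have h1 : ∀ k, (T (some k) : ℚ) = N * t k := fun k => congrFun hT (some k)
    obtain ⟨n, hn⟩ := torus (fun s => r (some s)) (-r none) N (fun k => T (some k)) hN (by
      rw [dz_apply] at a
      rw [neg_smul]
      exact eq_neg_of_add_eq_zero_right a) (fun s => by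
      have := congrFun b (some s)
      simp only [cv, Finset.sum_apply, Pi.smul_apply, smul_eq_mul, ρ_some] at this
      have h2 : (N : ℚ) * r (some s) = ∑ k, (T (some k) : ℚ) * D.l k s := by
        rw [this, Finset.mul_sum]
        exact Finset.sum_congr rfl fun k _ => by rw [h1, mul_assoc]
      exact_mod_cast h2) (by
      have := congrFun b none
      rw [Hyp.comb_apply_none, cv] at this
      have h2 : (N : ℚ) * -(r none : ℚ) = ∑ k, (T (some k) : ℚ) * D.e k := by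
        rw [this, neg_neg, Finset.mul_sum]
        exact Finset.sum_congr rfl fun k _ => by rw [h1, mul_assoc]
      exact_mod_cast h2) i
    refine ⟨n, mul_left_cancel₀ (a := (N : ℚ)) (by exact_mod_cast hN.ne') ?_⟩
    rw [← h1]
    exact_mod_cast hn
  · obtain ⟨x, c1, rfl⟩ := exists_pt disj hv h0 a
    exact gen_supp (free x c1 b)
  · obtain ⟨x, c1, rfl⟩ := exists_pt disj hv h0 a
    exact smooth_of he hg (by simpa using n) (smooth x c1 b)

lemma pointed_of (h : ∀ d : Fin (c + 1) ⊕ σ →₀ ℕ, Finsupp.weight D.Wt d = 0 → d = 0) (p : σ → ℕ)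
    (q : ℕ) (h1 : ∑ s, p s • D.w s + q • D.μ = 0) : p = 0 ∧ q = 0 := by
  have := h (Finsupp.equivFunOnFinite.symm (Sum.elim (Pi.single 0 q) p)) (by
    rw [Cox.weight_eq_sum', Fintype.sum_sum_type, add_comm, ← h1]
    simp [Wt, Pi.single_apply])
  exact ⟨funext fun s => by simpa using DFunLike.congr_fun this (.inr s),
    by simpa using DFunLike.congr_fun this (.inl 0)⟩

lemma Dv_eq (m : ℕ) : (∑ i, D.e i • D.μ - ∑ t, D.Wt t) + m • D.A = D.Dv m := by
  simp [Dv, Wt, Fintype.sum_sum_type, sub_sub]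

theorem Hyp.very_ample (H : D.Hyp) (hm : D.Bd 2 m) :
    (∀ x y : Fin (c + 1) ⊕ σ → ℂ, D.Eqn x → D.SS (supp x) → D.Eqn y → D.SS (supp y) →
      (¬ ∃ χ : AddChar K ℂ, ∀ t, y t = χ (D.Wt t) * x t) →
      ∃ s : MvPolynomial (Fin (c + 1) ⊕ σ) ℂ, s.IsWeightedHomogeneous D.Wt (D.Dv m) ∧
        eval x s = 0 ∧ eval y s ≠ 0) ∧
    ∀ x v : Fin (c + 1) ⊕ σ → ℂ, D.Eqn x → D.SS (supp x) → (∀ i, dv x v (D.fx i) = 0) →
      (¬ ∃ ψ : K →+ ℂ, ∀ t, v t = ψ (D.Wt t) * x t) →
      ∃ s : MvPolynomial (Fin (c + 1) ⊕ σ) ℂ, s.IsWeightedHomogeneous D.Wt (D.Dv m) ∧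
        eval x s = 0 ∧ dv x v s ≠ 0 := by
  refine ⟨fun x y a1 a2 a3 a4 hne => ?_, fun x v a1 a2 a3 hne => ?_⟩
  · by_contra h
    push Not at h
    obtain ⟨s₀, b1, b2⟩ := H.bpf one_le_two hm a1 a2
    obtain ⟨s₁, b3, b4⟩ := H.bpf one_le_two hm a3 a4
    have h1 : ∀ p : MvPolynomial (Fin (c + 1) ⊕ σ) ℂ, p.IsWeightedHomogeneous D.Wt (D.Dv m) →
        eval y p = eval y s₀ / eval x s₀ * eval x p := fun p hp => by
      have := h (p - C (eval x p / eval x s₀) * s₀) (hp.sub (b1.C_mul _)) (by simp [b2])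
      rw [map_sub, map_mul, eval_C, sub_eq_zero] at this
      rw [this]
      ring
    refine hne (H.sep_points hm a1 a2 a3 a4 (fun e => b4 ?_) h1)
    rw [h1 _ b3, e, zero_mul]
  · by_contra h
    push Not at h
    obtain ⟨s₀, b1, b2⟩ := H.bpf one_le_two hm a1 a2
    refine hne (H.sep_tan hm a1 a2 a3 (γ := dv x v s₀ / eval x s₀) fun p hp => ?_)
    have := h (p - C (eval x p / eval x s₀) * s₀) (hp.sub (b1.C_mul _)) (by simp [b2])
    rw [dv_sub, dv_mul, dv_C, zero_mul, zero_add, eval_C, sub_eq_zero] at this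
    rw [this]
    ring

end Dat

end Pool.Agent.Lib.MP_9ff3e7_ag.Tor
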