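import Pool.Agent.Lib.MP_9ff3e7_ag.TCount

/-! Fixed types lying over a point of the base. -/

set_option linter.unusedSectionVars false

namespace Pool.Agent.Lib.MP_9ff3e7_ag.Tor

open Finset

variable {c : ℕ} {σ ι K : Type} [Fintype σ] [Fintype ι] [DecidableEq σ] [DecidableEq ι]
  [AddCommGroup K]

namespace Dat

variable (D : Dat c σ ι K)

structure TT (S : Finset (Option σ)) (m₀ : V σ) (z : Fin (c + 1) → ℂ) : Prop where
  hn : none ∈ S
  hz : z ≠ 0
  hB : ∀ i, D.Sub i S ↔ MvPolynomial.eval z (D.g i) ≠ 0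
  fix : D.Fixed S
  full : D.Full S m₀

def γ (i : ι) : Option σ → ℤ := fun s => s.elim (D.e i) fun s => if D.l i s ≠ 0 then -1 else 0

noncomputable def Dpp (S : Finset (Option σ)) (m : ℕ) : K := D.Dv m - ∑ i ∈ D.B S, D.dz (D.γ i)

def sig (f : K →+ ℚ) (S : Finset (Option σ)) (i : ι) : ℚ :=
  D.e i * f D.μ - ∑ s ∈ D.U S i, f (D.w s) + (((D.U S i).card : ℚ) - 1) * f D.A

def Tight (S : Finset (Option σ)) (z : Fin (c + 1) → ℂ) : Prop :=
  (D.N S).card = c ∧ (∀ i ∈ D.N S, D.e i = 1) ∧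
    ∀ z' : Fin (c + 1) → ℂ, (∀ i ∈ D.N S, MvPolynomial.eval z' (D.g i) = 0) → ∃ t : ℂ, z' = t • z

variable {D} {S : Finset (Option σ)} {m₀ : V σ} {z : Fin (c + 1) → ℂ}

lemma TT.adm (h : D.TT S m₀ z) : D.Adm S := Or.inr ⟨h.hn, z, h.hz, h.hB⟩

lemma f_γ (f : K →+ ℚ) (i : ι) : f (D.dz (D.γ i)) = D.e i * f D.μ - ∑ s ∈ D.J i, f (D.w s) := by
  rw [hom_dz, Fintype.sum_option, J, Finset.sum_filter, sub_eq_add_neg, ← Finset.sum_neg_distrib]
  congr 1
  exact Finset.sum_congr rfl fun s _ => by by_cases h : D.l i s = 0 <;> simp [γ, h]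

lemma sig_eq (f : K →+ ℚ) (i : ι) :
    D.sig f S i = D.e i * f D.μ - f D.A + ∑ s ∈ D.U S i, (f D.A - f (D.w s)) := by
  simp only [sig, Finset.sum_sub_distrib, Finset.sum_const, nsmul_eq_mul]
  ring

lemma N_sub : D.N S ⊆ (D.B S)ᶜ := fun i hi => by simpa using (mem_N.1 hi).1

namespace Hyp

variable (H : D.Hyp)
include H

lemma f_Dpp (f : K →+ ℚ) (m : ℕ) : f (D.Dpp S m) =
    ∑ i ∈ (D.B S)ᶜ, D.sig f S i + ∑ s ∈ D.F S, (f D.A - f (D.w s)) - (c + 1) * f D.μ -
      ∑ s ∈ D.Uns S, f (D.w s) +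
      (m - (D.F S).card - ∑ i ∈ (D.B S)ᶜ, (((D.U S i).card : ℚ) - 1)) * f D.A := by
  rw [Dpp, map_sub, f_Dv, map_sum, H.split S, ← Finset.sum_add_sum_compl (D.B S)]
  simp only [f_γ, sig, Finset.sum_sub_distrib, Finset.sum_add_distrib, Finset.sum_const,
    nsmul_eq_mul, sub_mul, Finset.sum_mul]
  ring

lemma fixed_plus (h : D.TT S m₀ z) {r : V σ}
    (h1 : ∀ s, s ∉ S → r s ≠ 0 → ∃ i u, s = some u ∧ D.Bp S i u) (h2 : D.dq r = 0) :
    ∃ t : ι → ℚ, r = ∑ i, t i • D.ρ i := by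
  classical
  let t₀ : ι → ℚ := fun i => if h : ∃ u, D.Bp S i u then r (some h.choose) else 0
  obtain ⟨t, ht⟩ := h.fix (r - ∑ i, t₀ i • D.ρ i) (by
    rintro (_ | u) hu
    · exact absurd h.hn hu
    rw [Pi.sub_apply, sub_eq_zero]
    by_cases hl : ∀ i, D.l i u = 0
    · rw [comb_apply_free _ _ fun i _ => hl i]
      by_contra h3
      obtain ⟨i, u', a, b⟩ := h1 _ hu h3
      obtain rfl := Option.some.inj a
      exact one_ne_zero (b.1.symm.trans (hl i))
    · push Not at hl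
      obtain ⟨i, hi⟩ := hl
      rw [H.comb_apply _ _ hi, if_pos (mem_univ _)]
      by_cases h3 : ∃ u, D.Bp S i u
      · have e : u = h3.choose := by
          have : u ∈ D.U S i := mem_U.2 ⟨hi, hu⟩
          rwa [h3.choose_spec.U_eq, mem_singleton] at this
        have e2 : D.l i u = 1 := e ▸ h3.choose_spec.1
        simp only [t₀, dif_pos h3, ← e, e2]
        simp
      · simp only [t₀, dif_neg h3, zero_mul]
        by_contra h4
        obtain ⟨k, u', a, b⟩ := h1 _ hu h4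
        obtain rfl := Option.some.inj a
        obtain rfl := H.disj _ _ _ hi (by rw [b.1]; exact one_ne_zero)
        exact h3 ⟨u, b⟩) (by rw [map_sub, h2, H.dq_comb, sub_self])
  refine ⟨t + t₀, ?_⟩
  rw [sub_eq_iff_eq_add] at ht
  rw [ht, ← Finset.sum_add_distrib]
  exact Finset.sum_congr rfl fun i _ => by rw [Pi.add_apply, add_smul]

lemma l_one {r : Option σ → ℤ} {t : ι → ℚ} (h1 : D.dz r = 0) (h2 : cv r = ∑ i, t i • D.ρ i)
    {i : ι} {u : σ} (hu : D.l i u ≠ 0) : (D.l i u : ℤ) ∣ r (some u) := by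
  obtain ⟨n, hn⟩ := H.tf r t h1 h2 i
  have := congrFun h2 (some u)
  rw [H.comb_apply _ _ hu, if_pos (mem_univ _), hn, cv] at this
  exact ⟨n, by rw [mul_comm]; exact_mod_cast this⟩

lemma single_one (h : D.TT S m₀ z) {i : ι} {u : σ} (hu : D.U S i = {u}) : D.l i u = 1 := by
  have h0 : u ∈ D.U S i := by rw [hu]; exact mem_singleton_self u
  obtain ⟨h1, h2⟩ := mem_U.1 h0
  obtain ⟨α, a, b⟩ := H.free _ h.adm h.full.ss (D.w u)
  have h3 : D.dz (Pi.single (some u) 1 - α) = 0 := by rw [map_sub, dz_single, b, W_some, sub_self]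
  have hl : (D.l i u : ℚ) ≠ 0 := by exact_mod_cast h1
  obtain ⟨t, ht⟩ := h.fix ((D.l i u : ℚ) • cv (Pi.single (some u) 1 - α) - D.ρ i) (by
    rintro (_ | s) hs
    · exact absurd h.hn hs
    rw [cv_sub, cv_single]
    simp only [Pi.sub_apply, Pi.smul_apply, a _ hs, sub_zero, smul_eq_mul, ρ_some]
    by_cases e : s = u
    · simp [e]
    · have : D.l i s = 0 := by
        by_contra h4
        have : s ∈ D.U S i := mem_U.2 ⟨h4, hs⟩
        rw [hu, mem_singleton] at this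
        exact e this
      simp [e, this]) (by rw [map_sub, map_smul, dq_cv, h3, H.dq_ρ]; simp)
  have h4 := H.l_one (t := fun k => (D.l i u : ℚ)⁻¹ * (t k + if k = i then 1 else 0)) h3 (by
    simp only [mul_smul, add_smul, ← Finset.smul_sum, Finset.sum_add_distrib, ← ht, ite_smul,
      one_smul, zero_smul, Finset.sum_ite_eq', mem_univ, if_true, sub_add_cancel]
    rw [smul_smul, inv_mul_cancel₀ hl, one_smul]) h1
  have h5 : α (some u) = 0 := by simpa [cv] using a _ h2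
  rw [Pi.sub_apply, h5, Pi.single_eq_same, sub_zero] at h4
  exact_mod_cast Int.eq_one_of_dvd_one (by positivity) h4

lemma N_card (h : D.TT S m₀ z) {i : ι} (hi : i ∈ D.N S) : 1 < (D.U S i).card := by
  obtain ⟨h1, h2⟩ := mem_N.1 hi
  by_contra h3
  obtain ⟨u, hu⟩ := Finset.card_eq_one.1
    (le_antisymm (not_lt.1 h3) (Finset.card_pos.2 (U_nonempty h1)))
  have h0 : u ∈ D.U S i := by rw [hu]; exact mem_singleton_self u
  refine h2 ⟨u, H.single_one h hu, (mem_U.1 h0).2, fun s a b => ?_⟩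
  by_contra h4
  have : s ∈ D.U S i := mem_U.2 ⟨a, h4⟩
  rw [hu, mem_singleton] at this
  exact b this

theorem theta_one (h : D.TT S m₀ z) (hz : ∀ k, D.Sub k S → ∃ z' : Fin (c + 1) → ℂ, z' ≠ 0 ∧
    (∀ i ∈ D.N S, MvPolynomial.eval z' (D.g i) = 0) ∧ MvPolynomial.eval z' (D.g k) = 0)
    {j : ι → σ} (hj : D.Valid j) : 1 ≤ D.phi (D.B S) j m₀ := by
  classical
  obtain ⟨jm, j1, j2⟩ := H.exists_argmin fun i s => m₀ (some s) / D.l i s
  have key : ∀ k, D.Sub k S → D.l k (jm k) = 1 := by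
    intro k hk
    obtain ⟨z', z1, z2, z3⟩ := hz k hk
    set T := univ.filter fun i => D.Sub i S ∧ MvPolynomial.eval z' (D.g i) = 0 with hT
    set τ : ι → ℚ := fun i => -(m₀ (some (jm i)) / D.l i (jm i)) with hτ
    set m' := m₀ + ∑ i ∈ T, τ i • D.ρ i with hm'
    set S' := univ.filter fun s => m' s ≠ 0 ∨
      ∃ i u, s = some u ∧ D.l i u ≠ 0 ∧ MvPolynomial.eval z' (D.g i) ≠ 0 with hS'
    have a0 : 0 < m' none := by
      rw [hm', Pi.add_apply, comb_apply_none]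
      have : ∑ i ∈ T, τ i * D.e i ≤ 0 := Finset.sum_nonpos fun i _ => by
        have : 0 ≤ m₀ (some (jm i)) := h.full.nonneg _
        have : 0 ≤ m₀ (some (jm i)) / D.l i (jm i) * D.e i := by positivity
        simp only [hτ]
        linarith
      have := h.full.1 _ h.hn
      linarith
    have a1 : On S m' := h.full.2.1.add (on_sum fun i hi => ((mem_filter.1 hi).2.1.on h.hn).smul _)
    have a2 : 0 ≤ m' := by
      rintro (_ | s)
      · exact a0.le
      · have h0 : 0 ≤ m₀ (some s) := h.full.nonneg _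
        rw [hm', Pi.add_apply]
        by_cases hs : ∀ i ∈ T, D.l i s = 0
        · rw [comb_apply_free _ _ hs]
          simpa using h0
        · push Not at hs
          obtain ⟨i, hi, hs⟩ := hs
          rw [H.comb_apply _ _ hs, if_pos hi]
          have := j2 i s hs
          have h3 : (0 : ℚ) < D.l i s := by exact_mod_cast Nat.pos_of_ne_zero hs
          rw [le_div_iff₀ h3] at this
          simp only [hτ, Pi.zero_apply]
          linarith
    have a3 : ∀ i s, D.l i s ≠ 0 → MvPolynomial.eval z' (D.g i) = 0 → m' (some s) = 0 →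
        some s ∉ S' := fun i s b1 b2 b3 b4 => by
      rcases (mem_filter.1 b4).2 with e | ⟨i', u, e1, e2, e3⟩
      · exact e b3
      · obtain rfl := Option.some.inj e1
        obtain rfl := H.disj _ _ _ b1 e2
        exact e3 b2
    have a4 : ∀ i, D.Sub i S → MvPolynomial.eval z' (D.g i) = 0 → some (jm i) ∉ S' :=
      fun i b1 b2 => a3 i _ (j1 i) b2 (by
        rw [hm', Pi.add_apply, H.comb_apply _ _ (j1 i), if_pos (by simp [hT, b1, b2])]
        have : (D.l i (jm i) : ℚ) ≠ 0 := by exact_mod_cast j1 i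
        simp only [hτ]
        field_simp
        ring)
    have a5 : D.Adm S' := by
      refine Or.inr ⟨mem_filter.2 ⟨mem_univ _, Or.inl a0.ne'⟩, z', z1, fun i => ⟨fun b1 b2 => ?_,
        fun b1 s hs => mem_filter.2 ⟨mem_univ _, Or.inr ⟨i, s, rfl, hs, b1⟩⟩⟩⟩
      by_cases b3 : D.Sub i S
      · exact a4 i b3 b2 (b1 _ (j1 i))
      · obtain ⟨u, hu⟩ := U_nonempty b3
        exact a3 i u (mem_U.1 hu).1 b2 (a1 _ (mem_U.1 hu).2) (b1 _ (mem_U.1 hu).1)
    obtain ⟨β, b1, b2⟩ := H.free S' a5 ⟨m', a2, fun s hs => by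
      by_contra e
      exact hs (mem_filter.2 ⟨mem_univ _, Or.inl e⟩),
      by rw [hm', map_add, H.dq_comb, add_zero, h.full.2.2]⟩ (D.w (jm k))
    have b3 : D.dz (Pi.single (some (jm k)) 1 - β) = 0 := by
      rw [map_sub, dz_single, b2, W_some, sub_self]
    obtain ⟨t, ht⟩ := H.fixed_plus h (r := cv (Pi.single (some (jm k)) 1 - β)) (fun s d1 d2 => by
      have d3 : s ∈ S' := by
        by_contra d3
        rw [cv_sub, cv_single, Pi.sub_apply, b1 s d3, Pi.single_eq_of_ne (by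
          rintro rfl; exact d1 (hk _ (j1 k))), sub_zero] at d2
        exact d2 rfl
      rcases (mem_filter.1 d3).2 with e | ⟨i, u, rfl, e2, e3⟩
      · exact absurd (a1 s d1) e
      · have d4 : i ∉ D.N S := fun d4 => e3 (z2 i d4)
        rw [mem_N, not_and, not_not] at d4
        obtain ⟨u', hu'⟩ := d4 fun d5 => d1 (d5 u e2)
        have : u ∈ D.U S i := mem_U.2 ⟨e2, d1⟩
        rw [hu'.U_eq, mem_singleton] at this
        exact ⟨i, u, rfl, this ▸ hu'⟩) (by rw [dq_cv, b3, map_zero])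
    have h4 := H.l_one b3 ht (j1 k)
    have h5 : β (some (jm k)) = 0 := by simpa [cv] using b1 _ (a4 k hk z3)
    rw [Pi.sub_apply, h5, Pi.single_eq_same, sub_zero] at h4
    exact_mod_cast Int.eq_one_of_dvd_one (by positivity) h4
  obtain ⟨α, -, -, a3⟩ := H.vertex_int h.fix (H.free _ h.adm h.full.ss) h.full
  have h1 : D.phi (D.B S) jm m₀ = (α none + ∑ i ∈ D.B S, D.e i * α (some (jm i)) : ℤ) := by
    rw [a3 _ (H.phi_ρB j1), phi_apply]
    push_cast
    congr 1
    exact Finset.sum_congr rfl fun i hi => by simp [key i (mem_B.1 hi), cv]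
  have h2 : 0 < D.phi (D.B S) jm m₀ := by
    rw [phi_apply]
    exact add_pos_of_pos_of_nonneg (h.full.1 _ h.hn) (Finset.sum_nonneg fun i _ => by
      have : 0 ≤ m₀ (some (jm i)) := h.full.nonneg _
      positivity)
  have h3 : D.phi (D.B S) jm m₀ ≤ D.phi (D.B S) j m₀ := by
    rw [phi_apply, phi_apply]
    exact add_le_add_right (Finset.sum_le_sum fun i _ =>
      mul_le_mul_of_nonneg_left (j2 i _ (hj i)) (by positivity)) _
  refine le_trans ?_ h3
  rw [h1] at h2 ⊢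
  exact_mod_cast h2

lemma mem_true (hn : none ∈ S) {β : Option σ → ℤ} (h0 : On S (cv β))
    (h1 : ∀ v, D.Un S v → 0 ≤ β (some v)) (h2 : ∀ j, D.Valid j → -1 < D.phi (D.B S) j (cv β)) :
    D.Rep S (D.dz β + ∑ i ∈ D.B S, D.dz (D.γ i)) := by
  obtain ⟨j, j1, j2⟩ := H.exists_argmin fun i s => (β (some s) - 1) / (D.l i s : ℤ)
  set τ : ι → ℤ := fun i => (β (some (j i)) - 1) / (D.l i (j i) : ℤ) with hτ
  have a1 : ∀ i s, D.Sub i S → D.l i s ≠ 0 →
      (∑ k ∈ D.B S, (D.γ k - τ k • D.ρz k)) (some s) = -1 - τ i * D.l i s := fun i s b1 b2 => by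
    rw [Finset.sum_apply, Finset.sum_eq_single i (fun k _ hk => by
      have : D.l k s = 0 := by
        by_contra h
        exact hk (H.disj _ _ _ h b2)
      simp [γ, ρz, this]) (fun h => absurd (mem_B.2 b1) h)]
    simp [γ, ρz, b2]
  have a2 : ∀ s, (∀ i, D.Sub i S → D.l i s = 0) →
      (∑ k ∈ D.B S, (D.γ k - τ k • D.ρz k)) (some s) = 0 := fun s b1 => by
    rw [Finset.sum_apply]
    exact Finset.sum_eq_zero fun k hk => by simp [γ, ρz, b1 k (mem_B.1 hk)]
  refine ⟨β + ∑ k ∈ D.B S, (D.γ k - τ k • D.ρz k), ?_, ?_, ?_⟩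
  · rintro (_ | s)
    · have h3 := h2 j j1
      rw [phi_apply] at h3
      have h4 : ∑ i ∈ D.B S, (D.e i : ℚ) * (cv β (some (j i)) / D.l i (j i)) ≤
          ∑ i ∈ D.B S, ((D.e i : ℚ) + τ i * D.e i) := Finset.sum_le_sum fun i _ => by
        have h5 : (0 : ℤ) < D.l i (j i) := by exact_mod_cast Nat.pos_of_ne_zero (j1 i)
        have h6 := Int.lt_ediv_add_one_mul_self (β (some (j i)) - 1) h5
        have h7 : cv β (some (j i)) / D.l i (j i) ≤ τ i + 1 := by
          rw [div_le_iff₀ (by exact_mod_cast h5), cv]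
          have : β (some (j i)) ≤ (τ i + 1) * D.l i (j i) := by simp only [hτ]; omega
          exact_mod_cast this
        have : (0 : ℚ) ≤ D.e i := by positivity
        nlinarith
      have h5 : (-1 : ℚ) < (β none + ∑ i ∈ D.B S, ((D.e i : ℤ) + τ i * D.e i) : ℤ) := by
        push_cast
        simp only [cv] at h3 h4
        linarith
      have h6 : -1 < β none + ∑ i ∈ D.B S, ((D.e i : ℤ) + τ i * D.e i) := by exact_mod_cast h5
      have h7 : (∑ k ∈ D.B S, (D.γ k - τ k • D.ρz k)) none =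
          ∑ i ∈ D.B S, ((D.e i : ℤ) + τ i * D.e i) := by
        rw [Finset.sum_apply]
        exact Finset.sum_congr rfl fun i _ => by simp [γ, ρz]
      change 0 ≤ β none + (∑ k ∈ D.B S, (D.γ k - τ k • D.ρz k)) none
      rw [h7]
      omega
    · change 0 ≤ β (some s) + (∑ k ∈ D.B S, (D.γ k - τ k • D.ρz k)) (some s)
      by_cases hs : ∀ i, D.Sub i S → D.l i s = 0
      · rw [a2 s hs, add_zero]
        by_cases h3 : some s ∈ S
        · exact h1 s ⟨h3, hs⟩
        · have : β (some s) = 0 := by simpa [cv] using h0 _ h3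
          omega
      · push Not at hs
        obtain ⟨i, b1, b2⟩ := hs
        rw [a1 i s b1 b2]
        have h5 : (0 : ℤ) < D.l i s := by exact_mod_cast Nat.pos_of_ne_zero b2
        have h6 := Int.ediv_mul_le (β (some s) - 1) h5.ne'
        have h7 : τ i * D.l i s ≤ (β (some s) - 1) / (D.l i s : ℤ) * D.l i s :=
          mul_le_mul_of_nonneg_right (j2 i s b2) h5.le
        omega
  · rintro (_ | s) hs
    · exact absurd hn hs
    · have := a2 s fun i hi => by
        by_contra h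
        exact hs (hi s h)
      rw [cv_add, Pi.add_apply, h0 _ hs, cv, this]
      simp
  · simp only [map_add, map_sum, map_sub, map_smul, H.deg, smul_zero, sub_zero]

lemma sig_half {m : V σ} (hm : D.Full S m) (hA : D.Adm S) {i : ι} (hi : 1 < (D.U S i).card)
    {f : K →+ ℚ} (hf : ∀ s ∈ S, 0 ≤ f (D.W s)) (h0 : 0 ≤ f D.μ) :
    D.e i * f D.μ / 2 ≤ D.sig f S i := by
  obtain ⟨u, u1, u2⟩ := Finset.exists_min_image (D.U S i) (fun s => f (D.w s))
    (Finset.card_pos.1 (by omega))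
  have h1 : ∑ s ∈ D.U S i, f (D.w s) ≤ f (D.w u) + (((D.U S i).card : ℚ) - 1) * f D.A := by
    rw [← Finset.add_sum_erase _ _ u1]
    have := Finset.sum_le_card_nsmul ((D.U S i).erase u) (fun s => f (D.w s)) (f D.A)
      fun s hs => H.multi hm hA hi (mem_of_mem_erase hs) hf
    rw [card_erase_of_mem u1, nsmul_eq_mul, Nat.cast_sub (by omega)] at this
    simpa using this
  have h2 := H.f_block' f S i
  have h3 : 0 ≤ ∑ s ∈ univ.filter (fun s => some s ∈ S), (D.l i s : ℚ) * f (D.w s) :=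
    Finset.sum_nonneg fun s hs => mul_nonneg (by positivity) (hf _ (mem_filter.1 hs).2)
  have h4 : 0 ≤ (D.e i : ℚ) * f D.μ := by positivity
  unfold sig
  by_cases h5 : f (D.w u) ≤ 0
  · linarith
  · have h6 : ((D.U S i).card : ℚ) * f (D.w u) ≤ ∑ s ∈ D.U S i, (D.l i s : ℚ) * f (D.w s) := by
      rw [← nsmul_eq_mul]
      refine Finset.card_nsmul_le_sum _ _ _ fun s hs => ?_
      have : (1 : ℚ) ≤ D.l i s := by exact_mod_cast Nat.pos_of_ne_zero (mem_U.1 hs).1
      have := u2 s hs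
      nlinarith
    have : (2 : ℚ) ≤ (D.U S i).card := by exact_mod_cast hi
    nlinarith

lemma sig_Bp {i : ι} {u : σ} (hu : D.Bp S i u) (f : K →+ ℚ) : D.sig f S i =
    ∑ s ∈ univ.filter (fun s => some s ∈ S), (D.l i s : ℚ) * f (D.w s) := by
  have h2 := H.f_block' f S i
  unfold sig
  rw [hu.U_eq] at h2 ⊢
  simp only [sum_singleton, hu.1, Nat.cast_one, one_mul, card_singleton, sub_self, zero_mul,
    add_zero] at h2 ⊢
  linarith

lemma sig_nonneg (h : D.TT S m₀ z) {i : ι} (hi : ¬ D.Sub i S) {f : K →+ ℚ}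
    (hf : ∀ s ∈ S, 0 ≤ f (D.W s)) : 0 ≤ D.sig f S i := by
  by_cases h1 : i ∈ D.N S
  · have h0 : 0 ≤ f D.μ := hf _ h.hn
    exact le_trans (by positivity) (H.sig_half h.full h.adm (H.N_card h h1) hf h0)
  · rw [mem_N, not_and, not_not] at h1
    obtain ⟨u, hu⟩ := h1 hi
    rw [H.sig_Bp hu]
    exact Finset.sum_nonneg fun s hs => mul_nonneg (by positivity) (hf _ (mem_filter.1 hs).2)

lemma low_true (h : D.TT S m₀ z) {κ m : ℕ} (hm : D.Bd κ m) {f : K →+ ℚ}
    (hf : ∀ s ∈ S, 0 ≤ f (D.W s)) : ∑ i ∈ D.N S, D.sig f S i - (c + 1) * f D.μ -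
      ∑ s ∈ D.Uns S, f (D.w s) + (c + κ) * f D.A ≤ f (D.Dpp S m) := by
  rw [H.f_Dpp]
  have h1 := H.count (H.free _ h.adm h.full.ss) h.adm hm
  rw [if_pos h.hn] at h1
  have h2 := A_nonneg h.full hf
  have h3 : ∑ i ∈ D.N S, D.sig f S i ≤ ∑ i ∈ (D.B S)ᶜ, D.sig f S i :=
    Finset.sum_le_sum_of_subset_of_nonneg N_sub fun i hi _ =>
      H.sig_nonneg h (by simpa using hi) hf
  have h4 : 0 ≤ ∑ s ∈ D.F S, (f D.A - f (D.w s)) :=
    Finset.sum_nonneg fun s hs => sub_nonneg.2 (H.freev h.full h.adm hs hf)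
  nlinarith

lemma loc_true (h : D.TT S m₀ z) {u : σ} (h1 : some u ∉ S) (h2 : ¬ ∃ i, D.Bp S i u) {f : K →+ ℚ}
    (hf : ∀ s ∈ S, 0 ≤ f (D.W s)) : f (D.w u) ≤ f D.A := by
  by_cases h3 : ∀ i, D.l i u = 0
  · exact H.freev h.full h.adm (mem_F.2 ⟨h3, h1⟩) hf
  · push Not at h3
    obtain ⟨i, hi⟩ := h3
    have h4 : u ∈ D.U S i := mem_U.2 ⟨hi, h1⟩
    refine H.multi h.full h.adm (H.N_card h (mem_N.2 ⟨fun a => h1 (a u hi), fun ⟨u', a⟩ => ?_⟩))
      h4 hf
    rw [a.U_eq, mem_singleton] at h4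
    exact h2 ⟨i, h4 ▸ a⟩

lemma unit_low (h : D.TT S m₀ z) {κ m : ℕ} (hm : D.Bd κ m) {v : σ} (hv : D.Un S v) {f : K →+ ℚ}
    (hf : D.Is S (LinearMap.proj (some v)) f) : κ * f D.A - 1 ≤ f (D.Dpp S m) := by
  have h1 := H.low_true h hm hf.proj_nonneg
  have h2 : f D.μ = 0 := by simpa using hf.proj h.hn
  have h3 : ∑ s ∈ D.Uns S, f (D.w s) = 1 := by
    rw [Finset.sum_eq_single v (fun s hs e => by simpa [e] using hf.proj (mem_Uns.1 hs).1)
      (fun e => absurd (mem_Uns.2 hv) e)]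
    simpa using hf.proj hv.1
  have h4 : 0 ≤ ∑ i ∈ D.N S, D.sig f S i :=
    Finset.sum_nonneg fun i hi => H.sig_nonneg h (mem_N.1 hi).1 hf.proj_nonneg
  have h5 := A_nonneg h.full hf.proj_nonneg
  rw [h2, h3] at h1
  nlinarith [Nat.cast_nonneg (α := ℚ) c]

omit H in
lemma phi_mu {j : ι → σ} {f : K →+ ℚ} (hn : none ∈ S) (hf : D.Is S (D.phi (D.B S) j) f) :
    f D.μ = 1 := by
  have := hf _ hn
  simpa [phi_apply] using this

omit H in
lemma phi_un {j : ι → σ} (hj : D.Valid j) {f : K →+ ℚ} (hf : D.Is S (D.phi (D.B S) j) f) {s : σ}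
    (hs : D.Un S s) : f (D.w s) = 0 := by
  have := hf _ hs.1
  rw [W_some, phi_apply, Finset.sum_eq_zero fun i hi => by
    rw [Pi.single_eq_of_ne (by
      intro e
      exact hj i (Option.some.inj e ▸ hs.2 i (mem_B.1 hi)))]
    simp] at this
  simpa using this

omit H in
lemma phi_nn {j : ι → σ} {f : K →+ ℚ} (hf : D.Is S (D.phi (D.B S) j) f) (s : Option σ)
    (hs : s ∈ S) : 0 ≤ f (D.W s) := by
  rw [hf s hs]
  exact phi_nonneg _ _ (single_nonneg s)

omit H in
lemma phi_A (h : D.TT S m₀ z) {j : ι → σ} {f : K →+ ℚ} (hf : D.Is S (D.phi (D.B S) j) f) :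
    0 < f D.A := by
  rw [hf.eval h.full.2.1 h.full.2.2, phi_apply]
  exact add_pos_of_pos_of_nonneg (h.full.1 _ h.hn) (Finset.sum_nonneg fun i _ => by
    have : 0 ≤ m₀ (some (j i)) := h.full.nonneg _
    positivity)

lemma phi_low (h : D.TT S m₀ z) {κ m : ℕ} (hm : D.Bd κ m) {j : ι → σ} (hj : D.Valid j)
    {f : K →+ ℚ} (hf : D.Is S (D.phi (D.B S) j) f) :
    ∑ i ∈ D.N S, D.sig f S i - (c + 1) + (c + κ) * f D.A ≤ f (D.Dpp S m) := by
  have h1 := H.low_true h hm (phi_nn hf)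
  rw [phi_mu h.hn hf, Finset.sum_eq_zero fun s hs => phi_un hj hf (mem_Uns.1 hs)] at h1
  linarith

lemma sig_ge (h : D.TT S m₀ z) {j : ι → σ} {f : K →+ ℚ} (hf : D.Is S (D.phi (D.B S) j) f) {i : ι}
    (hi : i ∈ D.N S) : D.e i - f D.A ≤ D.sig f S i := by
  rw [sig_eq, phi_mu h.hn hf, mul_one]
  exact le_add_of_nonneg_right (Finset.sum_nonneg fun s hs =>
    sub_nonneg.2 (H.multi h.full h.adm (H.N_card h hi) hs (phi_nn hf)))

/-- The three possibilities for the polarisation at a fixed type over a base point. -/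
theorem tri (h : D.TT S m₀ z) : (∀ j, D.Valid j → 1 ≤ D.phi (D.B S) j m₀) ∨
    (c ≤ (D.N S).card ∧ c + 1 ≤ ∑ i ∈ D.N S, D.e i) ∨ D.Tight S z := by
  by_cases hz : ∀ k, D.Sub k S → ∃ z' : Fin (c + 1) → ℂ, z' ≠ 0 ∧
    (∀ i ∈ D.N S, MvPolynomial.eval z' (D.g i) = 0) ∧ MvPolynomial.eval z' (D.g k) = 0
  · exact Or.inl fun j hj => H.theta_one h hz hj
  push Not at hz
  obtain ⟨k, hk, hz⟩ := hz
  have h0 : ∀ i, MvPolynomial.eval (0 : Fin (c + 1) → ℂ) (D.g i) = 0 := fun i =>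
    eval_zero_hom (H.hg i) (H.he i)
  have h1 : c ≤ (D.N S).card := by
    by_contra h1
    obtain ⟨z', a, b⟩ := exists_zero (insert k (D.N S)) D.g (fun i _ => h0 i) (by
      have := card_insert_le k (D.N S)
      rw [Fintype.card_fin]
      omega)
    exact hz z' a (fun i hi => b i (mem_insert_of_mem hi)) (b k (mem_insert_self _ _))
  by_cases h2 : c + 1 ≤ ∑ i ∈ D.N S, D.e i
  · exact Or.inr (Or.inl ⟨h1, h2⟩)
  have h3 : ∑ i ∈ D.N S, 1 ≤ ∑ i ∈ D.N S, D.e i := Finset.sum_le_sum fun i _ => H.he i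
  have h4 := h3
  rw [Finset.sum_const, smul_eq_mul, mul_one] at h4
  have h5 : ∀ i ∈ D.N S, D.e i = 1 := fun i hi =>
    ((Finset.sum_eq_sum_iff_of_le fun i _ => H.he i).1 (le_antisymm h3 (by
      rw [Finset.sum_const, smul_eq_mul, mul_one]; omega)) i hi).symm
  refine Or.inr (Or.inr ⟨by omega, h5, fun z' hz' => ?_⟩)
  obtain ⟨a, b, h6, h7⟩ := line_zero (h0 k) z z'
  have h8 : a • z + b • z' = 0 := by
    by_contra h8
    refine hz _ h8 (fun i hi => ?_) h7
    have h9 : MvPolynomial.eval z (D.g i) = 0 := by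
      by_contra h9
      exact (mem_N.1 hi).1 ((h.hB i).2 h9)
    have h10 := H.hg i
    rw [h5 i hi] at h10
    rw [eval_lin_comb h10, h9, hz' i hi]
    simp
  have h9 : b ≠ 0 := by
    rintro rfl
    rw [zero_smul, add_zero, smul_eq_zero] at h8
    rcases h6 with e | e
    · exact h.hz (h8.resolve_left e)
    · exact e rfl
  refine ⟨-(b⁻¹ * a), ?_⟩
  rw [neg_smul, mul_smul, ← smul_neg, neg_eq_of_add_eq_zero_right h8, smul_smul,
    inv_mul_cancel₀ h9, one_smul]

lemma sum_sig (h : D.TT S m₀ z) {j : ι → σ} {f : K →+ ℚ} (hf : D.Is S (D.phi (D.B S) j) f) :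
    0 ≤ ∑ i ∈ D.N S, D.sig f S i ∧
      (∑ i ∈ D.N S, D.e i : ℕ) - (D.N S).card * f D.A ≤ ∑ i ∈ D.N S, D.sig f S i := by
  refine ⟨Finset.sum_nonneg fun i hi => H.sig_nonneg h (mem_N.1 hi).1 (phi_nn hf), ?_⟩
  have := Finset.sum_le_sum fun i hi => H.sig_ge h hf hi
  rw [Finset.sum_sub_distrib, Finset.sum_const, nsmul_eq_mul] at this
  push_cast
  exact this

lemma ineqA (h : D.TT S m₀ z) {j : ι → σ} (hj : D.Valid j) {f : K →+ ℚ}
    (hf : D.Is S (D.phi (D.B S) j) f) : c < (c + 1) * f D.A + ∑ i ∈ D.N S, D.sig f S i := by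
  obtain ⟨h1, h2⟩ := H.sum_sig h hf
  have h3 := phi_A h hf
  have hc : (0 : ℚ) ≤ c := by positivity
  by_cases h4 : 1 ≤ f D.A
  · nlinarith
  have h5 : c ≤ (D.N S).card := by
    rcases H.tri h with a | a | a
    · exact absurd (hf.eval h.full.2.1 h.full.2.2 ▸ a j hj) h4
    · exact a.1
    · exact a.1.ge
  have h6 : (D.N S).card ≤ ∑ i ∈ D.N S, D.e i := by
    simpa using Finset.card_nsmul_le_sum (D.N S) D.e 1 fun i _ => H.he i
  have h7 : (c : ℚ) ≤ (D.N S).card := by exact_mod_cast h5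
  have h8 : ((D.N S).card : ℚ) ≤ (∑ i ∈ D.N S, D.e i : ℕ) := by exact_mod_cast h6
  nlinarith

lemma ineqB (h : D.TT S m₀ z) (hT : ¬ D.Tight S z) {j : ι → σ} (hj : D.Valid j) {f : K →+ ℚ}
    (hf : D.Is S (D.phi (D.B S) j) f) : c + 1 < (c + 2) * f D.A + ∑ i ∈ D.N S, D.sig f S i := by
  obtain ⟨h1, h2⟩ := H.sum_sig h hf
  have h3 := phi_A h hf
  have hc : (0 : ℚ) ≤ c := by positivity
  by_cases h4 : 1 ≤ f D.A
  · nlinarith
  obtain ⟨h5, h9⟩ : c ≤ (D.N S).card ∧ c + 1 ≤ ∑ i ∈ D.N S, D.e i := by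
    rcases H.tri h with a | a | a
    · exact absurd (hf.eval h.full.2.1 h.full.2.2 ▸ a j hj) h4
    · exact a
    · exact absurd a hT
  have h6 : (D.N S).card ≤ ∑ i ∈ D.N S, D.e i := by
    simpa using Finset.card_nsmul_le_sum (D.N S) D.e 1 fun i _ => H.he i
  have h8 : ((D.N S).card : ℚ) ≤ (∑ i ∈ D.N S, D.e i : ℕ) := by exact_mod_cast h6
  have h10 : (c : ℚ) + 1 ≤ (∑ i ∈ D.N S, D.e i : ℕ) := by exact_mod_cast h9
  rcases h5.eq_or_lt with e | e
  · rw [← e] at h2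
    nlinarith
  · have h7 : (c : ℚ) + 1 ≤ (D.N S).card := by exact_mod_cast e
    nlinarith

lemma rep_true (h : D.TT S m₀ z) (m : ℕ) (y : K)
    (h1 : ∀ v f, D.Un S v → D.Is S (LinearMap.proj (some v)) f → f y ≤ f (D.Dpp S m))
    (h2 : ∀ j f, D.Valid j → D.Is S (D.phi (D.B S) j) f → f y - 1 < f (D.Dpp S m)) :
    D.Rep S (D.Dv m - y) := by
  obtain ⟨β, b1, b2⟩ := H.free _ h.adm h.full.ss (D.Dpp S m - y)
  have := H.mem_true h.hn b1 (fun v hv => by
    obtain ⟨f, hf, -⟩ := H.exists_fK h.fix (ψ := LinearMap.proj (some v))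
      fun i hi => by simp [hv.2 i hi]
    have e := Is.evalz hf b1
    rw [b2, map_sub, LinearMap.proj_apply, cv] at e
    have := h1 v f hv hf
    have : (0 : ℚ) ≤ β (some v) := by linarith
    exact_mod_cast this) fun j hj => by
    obtain ⟨f, hf, -⟩ := H.exists_fK h.fix (H.phi_ρB hj)
    have e := Is.evalz hf b1
    rw [b2, map_sub] at e
    have := h2 j f hj hf
    linarith
  rw [b2, Dpp] at this
  convert this using 1
  abel

theorem true0 (h : D.TT S m₀ z) {κ m : ℕ} (hκ : 1 ≤ κ) (hm : D.Bd κ m) : D.Rep S (D.Dv m) := by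
  have hk : (1 : ℚ) ≤ κ := by exact_mod_cast hκ
  have := H.rep_true h m 0 (fun v f hv hf => by
    have h1 := H.unit_low h hm hv hf
    have h2 := hf.proj_A (H.free _ h.adm h.full.ss) h.full hv.1
    rw [map_zero]
    nlinarith) fun j f hj hf => by
    have h1 := H.phi_low h hm hj hf
    have h2 := H.ineqA h hj hf
    have h3 := phi_A h hf
    rw [map_zero]
    nlinarith
  rwa [sub_zero] at this

theorem true1 (h : D.TT S m₀ z) {m : ℕ} (hm : D.Bd 2 m) {u : σ} (h1 : some u ∉ S)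
    (h2 : ¬ ∃ i, D.Bp S i u) : D.Rep S (D.Dv m - D.w u) :=
  H.rep_true h m _ (fun v f hv hf => by
    have h3 := H.unit_low h hm hv hf
    have h4 := hf.proj_A (H.free _ h.adm h.full.ss) h.full hv.1
    have h5 := H.loc_true h h1 h2 hf.proj_nonneg
    push_cast at h3
    linarith) fun j f hj hf => by
    have h3 := H.phi_low h hm hj hf
    have h4 := H.ineqA h hj hf
    have h5 := H.loc_true h h1 h2 (phi_nn hf)
    push_cast at h3
    linarith

theorem true2 (h : D.TT S m₀ z) {m : ℕ} (hm : D.Bd 2 m) (hT : ¬ D.Tight S z) :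
    D.Rep S (D.Dv m - D.μ) :=
  H.rep_true h m _ (fun v f hv hf => by
    have h3 := H.unit_low h hm hv hf
    have h4 := hf.proj_A (H.free _ h.adm h.full.ss) h.full hv.1
    have h5 : f D.μ = 0 := by simpa using hf.proj h.hn
    push_cast at h3
    linarith) fun j f hj hf => by
    have h3 := H.phi_low h hm hj hf
    have h4 := H.ineqB h hT hj hf
    have h5 := phi_mu h.hn hf
    push_cast at h3
    linarith

theorem true_unit (h : D.TT S m₀ z) {m : ℕ} (hm : D.Bd 2 m) {v : σ} (hv : D.Un S v)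
    {M : Option σ → ℤ} (h1 : On S (cv M)) (h2 : D.dz M = D.Dv m) : 1 ≤ M (some v) := by
  obtain ⟨f, hf, -⟩ := H.exists_fK h.fix (ψ := LinearMap.proj (some v))
    fun i hi => by simp [hv.2 i hi]
  have e := Is.evalz hf h1
  have h3 := H.unit_low h hm hv hf
  have h4 := Is.proj_A hf (H.free _ h.adm h.full.ss) h.full hv.1
  have h5 : f D.μ = 0 := by simpa using Is.proj hf h.hn
  rw [Dpp, map_sub, map_sum, Finset.sum_eq_zero fun i hi => by
    rw [f_γ, h5, Finset.sum_eq_zero fun s hs => by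
      have : s ≠ v := by
        rintro rfl
        exact mem_J.1 hs (hv.2 i (mem_B.1 hi))
      simpa [this] using Is.proj hf (mem_B.1 hi s (mem_J.1 hs))]
    simp, ← h2, e, LinearMap.proj_apply, cv] at h3
  have : (1 : ℚ) ≤ M (some v) := by
    push_cast at h3
    linarith
  exact_mod_cast this

theorem true3 (h : D.TT S m₀ z) {m : ℕ} (hm : D.Bd 2 m) (hT : D.Tight S z) {j : ι → σ}
    (hj : D.Valid j) {f : K →+ ℚ} (hf : D.Is S (D.phi (D.B S) j) f) {M : Option σ → ℤ}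
    (h1 : On S (cv M)) (h2 : D.dz M = D.Dv m) :
    2 * f D.A - 1 + ∑ i ∈ D.N S, ∑ s ∈ D.U S i, (f D.A - f (D.w s)) ≤
      M none + ∑ i ∈ D.B S, (D.e i : ℚ) * ((M (some (j i)) + 1) / D.l i (j i) - 1) := by
  have h3 := H.phi_low h hm hj hf
  have h4 : ∑ i ∈ D.N S, D.sig f S i =
      c * (1 - f D.A) + ∑ i ∈ D.N S, ∑ s ∈ D.U S i, (f D.A - f (D.w s)) := by
    rw [show (c : ℚ) = (D.N S).card by rw [hT.1], ← nsmul_eq_mul, ← Finset.sum_const, ← Finset.sum_add_distrib]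
    exact Finset.sum_congr rfl fun i hi => by rw [sig_eq, hT.2.1 i hi, phi_mu h.hn hf]; simp
  have h5 : ∀ i ∈ D.B S, f (D.dz (D.γ i)) = D.e i * (1 - 1 / D.l i (j i)) := fun i hi => by
    rw [hf.evalz (by
      rintro (_ | s) hs
      · exact absurd h.hn hs
      · have : D.l i s = 0 := by
          by_contra e
          exact hs (mem_B.1 hi s e)
        simp [cv, γ, this]), phi_apply, Finset.sum_eq_single i (fun k _ hk => by
      have : D.l i (j k) = 0 := by
        by_contra e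
        exact hk (H.disj _ _ _ (hj k) e)
      simp [cv, γ, this]) (fun e => absurd hi e)]
    simp only [cv, γ, Option.elim, if_pos (hj i)]
    push_cast
    ring
  rw [Dpp, map_sub, map_sum, Finset.sum_congr rfl h5, ← h2, hf.evalz h1, phi_apply, h4] at h3
  have h6 : ∑ i ∈ D.B S, (D.e i : ℚ) * ((M (some (j i)) + 1) / D.l i (j i) - 1) =
      ∑ i ∈ D.B S, (D.e i : ℚ) * (cv M (some (j i)) / D.l i (j i)) -
        ∑ i ∈ D.B S, (D.e i : ℚ) * (1 - 1 / D.l i (j i)) := by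
    rw [← Finset.sum_sub_distrib]
    exact Finset.sum_congr rfl fun i _ => by rw [cv]; ring
  rw [h6]
  simp only [cv] at h3 ⊢
  push_cast at h3
  linarith

end Hyp

end Dat

end Pool.Agent.Lib.MP_9ff3e7_ag.Tor
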