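import Pool.Agent.Lib.MP_9ff3e7_ag.Lattice

namespace Pool.Agent.Lib.MP_9ff3e7_ag

open Finset

lemma prime_not_dvd_of_min {α : Type} [Fintype α] (a : α → ℕ) (ha : ∀ i, 0 < a i) {v : α → ℤ}
    (h0 : dg a v = 0) (hv : v ≠ 0) (hmin : ∀ z, dg a z = 0 ∧ z ≠ 0 → nrm a v ≤ nrm a z)
    (p : ℕ) (hp : p.Prime) : ∃ i, ¬ (p : ℤ) ∣ v i := by
  by_contra h
  push Not at h
  choose w hw using h
  have e : v = (p : ℤ) • w := funext fun i => by simp [hw i]
  have hp0 : (p : ℤ) ≠ 0 := by exact_mod_cast hp.ne_zero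
  have h1 : dg a w = 0 := by
    have := dg_sub_smul a v w p
    rw [← e, sub_self, h0] at this
    simp only [dg, Pi.zero_apply, mul_zero, Finset.sum_const_zero, zero_sub] at this
    have h2 : (p : ℤ) * dg a w = 0 := by simp only [dg]; linarith
    exact (mul_eq_zero.1 h2).resolve_left hp0
  have h2 : w ≠ 0 := by rintro rfl; exact hv (by simpa using e)
  have h3 := hmin w ⟨h1, h2⟩
  have h4 := nrm_pos a ha h2
  rw [e, nrm_smul, abs_of_nonneg (Nat.cast_nonneg p)] at h3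
  have : (2 : ℤ) ≤ p := by exact_mod_cast hp.two_le
  nlinarith

lemma pair_vec {α : Type} [Fintype α] [DecidableEq α] (a : α → ℕ) (ha : ∀ i, 0 < a i) {i j : α}
    (hij : i ≠ j) : ∃ u : α → ℤ, dg a u = 0 ∧ u i ≠ 0 ∧ (∀ l, l ≠ i → l ≠ j → u l = 0) ∧
      nrm a u = 2 * (a i * a j) := by
  have key : ∀ F : α → ℤ → ℤ, (∀ l, F l 0 = 0) →
      ∑ l, F l (if l = i then (a j : ℤ) else if l = j then -(a i : ℤ) else 0) =
        F i (a j) + F j (-(a i : ℤ)) := by
    intro F hF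
    rw [Finset.sum_eq_add i j hij]
    · simp [hij.symm]
    · intro l _ hl; simp [hl.1, hl.2, hF]
    · simp
    · simp
  refine ⟨fun l => if l = i then (a j : ℤ) else if l = j then -(a i : ℤ) else 0, ?_, ?_, ?_, ?_⟩
  · unfold dg
    rw [key (fun l x => (a l : ℤ) * x) (by simp)]; ring
  · simp [(ha j).ne']
  · intro l h1 h2; simp [h1, h2]
  · unfold nrm
    rw [key (fun l x => (a l : ℤ) * |x|) (by simp)]
    simp; ring

lemma cert2 (Sup : ℝ → ℝ → Prop) (b1 b2 r : ℝ) (h1 : 1 ≤ b1) (h2 : 1 ≤ b2)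
    (h : ∀ s, 1 < s → Sup s ((if s ≤ b1 then b1 else 1) * (if s ≤ b2 then b2 else 1)))
    (hr : r ≤ b1 - 1 + (b2 - 1)) : Cert Sup r := by
  refine ⟨Fin 2, inferInstance, ![b1, b2], ?_, ?_, ?_⟩
  · intro l
    fin_cases l
    · exact h1
    · exact h2
  · intro s hs
    rw [Finset.prod_filter, Fin.prod_univ_two]
    exact h s hs
  · rw [Fin.sum_univ_two]
    exact hr

lemma cert3 (Sup : ℝ → ℝ → Prop) (b1 b2 b3 r : ℝ) (h1 : 1 ≤ b1) (h2 : 1 ≤ b2) (h3 : 1 ≤ b3)
    (h : ∀ s, 1 < s → Sup s ((if s ≤ b1 then b1 else 1) * (if s ≤ b2 then b2 else 1) *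
      (if s ≤ b3 then b3 else 1)))
    (hr : r ≤ b1 - 1 + (b2 - 1) + (b3 - 1)) : Cert Sup r := by
  refine ⟨Fin 3, inferInstance, ![b1, b2, b3], ?_, ?_, ?_⟩
  · intro l
    fin_cases l
    · exact h1
    · exact h2
    · exact h3
  · intro s hs
    rw [Finset.prod_filter, Fin.prod_univ_three]
    exact h s hs
  · rw [Fin.sum_univ_three]
    exact hr

theorem cert_three (a : Fin 3 → ℕ) (ha : ∀ i, 0 < a i) (hg : ∀ p : ℕ, p.Prime → ∃ i, ¬ p ∣ a i)
    (Sup : ℝ → ℝ → Prop) (mono : ∀ s E E', Sup s E → E' ≤ E → Sup s E')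
    (S0 : ∀ s : ℝ, (∀ v, dg a v = 0 → (nrm a v : ℝ) < 2 * s → v = 0) → Sup s (∏ i, (a i : ℝ)))
    (S1 : ∀ (s : ℝ) v, dg a v = 0 → v ≠ 0 →
      (∀ z, dg a z = 0 → (nrm a z : ℝ) < 2 * s → ∃ k : ℤ, z = k • v) →
      Sup s (2 * (∏ i, (a i : ℝ)) / nrm a v))
    (S3 : ∀ s, Sup s 1)
    (m : ℕ) (hm : ∀ γ : Fin 3 → ℕ, ∑ l, a l * γ l ≠ m) :
    Cert Sup (m + ∑ i, (a i : ℝ) - 1 / 2 - 2) := by
  obtain ⟨z1, hz1⟩ := exists_bezout (fun i => (a i : ℤ)) fun p hp => by
    obtain ⟨i, hi⟩ := hg p hp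
    exact ⟨i, fun h => hi (Int.natCast_dvd_natCast.1 h)⟩
  obtain ⟨u, hu0, hu1, -, hu2⟩ := pair_vec a ha (show (0 : Fin 3) ≠ 1 by decide)
  have hu : u ≠ 0 := fun h => hu1 (by simp [h])
  obtain ⟨v, ⟨hv0, hv⟩, hmin⟩ := exists_min_nrm a (fun v => dg a v = 0 ∧ v ≠ 0) ⟨u, hu0, hu⟩
  obtain ⟨y, hy⟩ := exists_bezout v (prime_not_dvd_of_min a ha hv0 hv hmin)
  set φ : Fin 3 → ℤ := ![v 1 * z1 2 - v 2 * z1 1, v 2 * z1 0 - v 0 * z1 2, v 0 * z1 1 - v 1 * z1 0]
    with hφ
  have hv0' := hv0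
  simp only [dg, Fin.sum_univ_three] at hv0' hz1 hy
  have c0 : v 0 = a 1 * φ 2 - a 2 * φ 1 := by
    simp only [hφ, Matrix.cons_val]; linear_combination (-v 0) * hz1 + z1 0 * hv0'
  have c1 : v 1 = a 2 * φ 0 - a 0 * φ 2 := by
    simp only [hφ, Matrix.cons_val]; linear_combination (-v 1) * hz1 + z1 1 * hv0'
  have c2 : v 2 = a 0 * φ 1 - a 1 * φ 0 := by
    simp only [hφ, Matrix.cons_val]; linear_combination (-v 2) * hz1 + z1 2 * hv0'
  clear_value φ
  obtain ⟨i, -, hi⟩ := Finset.exists_max_image univ (fun l => (φ l : ℝ) / a l) Finset.univ_nonempty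
  obtain ⟨j, -, hj⟩ := Finset.exists_min_image univ (fun l => (φ l : ℝ) / a l) Finset.univ_nonempty
  simp only [Finset.mem_univ, true_imp_iff] at hi hj
  set A := (φ i : ℝ) / a i
  set B := (φ j : ℝ) / a j
  have ha' : ∀ l, (0 : ℝ) < a l := fun l => by exact_mod_cast ha l
  have ha1 : ∀ l, (1 : ℝ) ≤ a l := fun l => by exact_mod_cast ha l
  set D : ℝ := ∏ l, (a l : ℝ) with hD
  have hD' : D = a 0 * a 1 * a 2 := by rw [hD, Fin.prod_univ_three]
  have hDpos : 0 < D := Finset.prod_pos fun l _ => ha' l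
  set τ : ℝ := (nrm a v : ℝ) / 2 with hτ
  have hτ1 : 1 ≤ τ := by
    have : (2 : ℝ) ≤ nrm a v := by exact_mod_cast two_le_nrm a ha hv0 hv
    rw [hτ]; linarith
  have hτD : τ ≤ D := by
    have h1 := hmin u ⟨hu0, hu⟩
    rw [hu2] at h1
    have h2 : (nrm a v : ℝ) ≤ 2 * (a 0 * a 1) := by exact_mod_cast h1
    have := mul_le_mul_of_nonneg_left (ha1 2) (mul_pos (ha' 0) (ha' 1)).le
    rw [hτ, hD']; linarith
  have hw : τ ≤ D * (A - B) := by
    have e : (nrm a v : ℝ) = D * (|(φ 2 : ℝ) / a 2 - φ 1 / a 1| + |(φ 0 : ℝ) / a 0 - φ 2 / a 2| +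
        |(φ 1 : ℝ) / a 1 - φ 0 / a 0|) := by
      have := ha' 0; have := ha' 1; have := ha' 2
      simp only [nrm, Fin.sum_univ_three]
      push_cast
      rw [mul_add, mul_add, ← abs_of_pos hDpos, ← abs_mul, ← abs_mul, ← abs_mul,
        ← abs_of_pos (ha' 0), ← abs_of_pos (ha' 1), ← abs_of_pos (ha' 2), ← abs_mul, ← abs_mul,
        ← abs_mul, abs_of_pos (ha' 0), abs_of_pos (ha' 1), abs_of_pos (ha' 2), hD', c0, c1, c2]
      push_cast
      congr 1
      · congr 1 <;> congr 1 <;> field_simp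
      · congr 1; field_simp
    have h1 : |(φ 2 : ℝ) / a 2 - φ 1 / a 1| + |(φ 0 : ℝ) / a 0 - φ 2 / a 2| +
        |(φ 1 : ℝ) / a 1 - φ 0 / a 0| ≤ 2 * (A - B) := by
      have := hi 0; have := hi 1; have := hi 2; have := hj 0; have := hj 1; have := hj 2
      rcases abs_cases ((φ 2 : ℝ) / a 2 - φ 1 / a 1) with h | h <;>
      rcases abs_cases ((φ 0 : ℝ) / a 0 - φ 2 / a 2) with h' | h' <;>
      rcases abs_cases ((φ 1 : ℝ) / a 1 - φ 0 / a 0) with h'' | h'' <;> linarith [h.1, h'.1, h''.1]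
    have := mul_le_mul_of_nonneg_left h1 hDpos.le
    rw [hτ, e]; linarith
  have hw0 : 0 < A - B := by
    by_contra h
    push Not at h
    nlinarith
  have hcov : m + ∑ l, (a l : ℝ) - 1 / 2 - τ ≤ 1 / (A - B) := by
    by_contra hcon
    push Not at hcon
    set t := m + ∑ l, (a l : ℝ) - 1 / 2 - τ with ht
    have ht0 : 0 < t := lt_trans (by positivity) hcon
    rw [div_lt_iff₀ hw0] at hcon
    have hS : 0 < ∑ l, (a l : ℝ) := Finset.sum_pos (fun l _ => ha' l) Finset.univ_nonempty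
    set η := 1 / (2 * ∑ l, (a l : ℝ)) with hη
    have hη0 : 0 < η := by positivity
    set o : Fin 3 → ℝ := fun l => ((max (-v l) 0 : ℤ) : ℝ) - 1 + η with ho
    set n := ⌈t * B + ∑ l, φ l * o l⌉
    have h3 := Int.le_ceil (t * B + ∑ l, φ l * o l)
    have h4 := Int.ceil_lt_add_one (t * B + ∑ l, φ l * o l)
    obtain ⟨θ, t0, t1, t2⟩ := exists_theta (A := t * B + ∑ l, φ l * o l)
      (B := t * A + ∑ l, φ l * o l) (Y := n) h3 (by linarith)
    set r : Fin 3 → ℝ := fun l => o l + (if l = j then (1 - θ) * t / a j else 0) +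
      (if l = i then θ * t / a i else 0) with hr
    have hsum : ∀ W : Fin 3 → ℝ, ∑ l, W l * r l =
        ∑ l, W l * o l + W j * ((1 - θ) * t / a j) + W i * (θ * t / a i) := by
      intro W
      simp only [hr, mul_add, Finset.sum_add_distrib, mul_ite, mul_zero, Finset.sum_ite_eq',
        Finset.mem_univ, if_true]
    have r1 : ∑ l, (a l : ℝ) * r l = m := by
      rw [hsum]
      have e1 : ∑ l, (a l : ℝ) * o l = τ - ∑ l, (a l : ℝ) + 1 / 2 := by
        have h5 : (2 : ℝ) * ∑ l, (a l : ℝ) * ((max (-v l) 0 : ℤ) : ℝ) = nrm a v := by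
          exact_mod_cast sum_neg_part a hv0
        have h6 : η * ∑ l, (a l : ℝ) = 1 / 2 := by rw [hη]; field_simp
        simp only [ho, Fin.sum_univ_three] at h5 h6 ⊢
        rw [hτ]; linarith
      have := (ha' i).ne'; have := (ha' j).ne'
      rw [e1, ht]; field_simp; ring
    have r2 : ∑ l, (φ l : ℝ) * r l = n := by
      rw [hsum]
      have e1 : (φ j : ℝ) * ((1 - θ) * t / a j) = (1 - θ) * t * B := by simp only [B]; ring
      have e2 : (φ i : ℝ) * (θ * t / a i) = θ * t * A := by simp only [A]; ring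
      rw [e1, e2]; linarith
    obtain ⟨γ, hγ⟩ := round_along a v
      ![m * (φ 1 * y 2 - φ 2 * y 1) + n * (y 1 * a 2 - y 2 * a 1),
        m * (φ 2 * y 0 - φ 0 * y 2) + n * (y 2 * a 0 - y 0 * a 2),
        m * (φ 0 * y 1 - φ 1 * y 0) + n * (y 0 * a 1 - y 1 * a 0)] hv0 m (by
          simp only [dg, Fin.sum_univ_three, Matrix.cons_val]
          rw [c0, c1, c2] at hy
          linear_combination (m : ℤ) * hy) (∑ l, (y l : ℝ) * r l) (by
      have hy' : (v 0 : ℝ) * y 0 + v 1 * y 1 + v 2 * y 2 = 1 := by exact_mod_cast hy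
      have d0 : (v 0 : ℝ) = a 1 * φ 2 - a 2 * φ 1 := by exact_mod_cast c0
      have d1 : (v 1 : ℝ) = a 2 * φ 0 - a 0 * φ 2 := by exact_mod_cast c1
      have d2 : (v 2 : ℝ) = a 0 * φ 1 - a 1 * φ 0 := by exact_mod_cast c2
      have hlt : ∀ l, ((max (-v l) 0 : ℤ) : ℝ) - 1 < r l := by
        intro l
        have q1 : 0 ≤ (if l = j then (1 - θ) * t / a j else 0) := by
          split_ifs
          · exact div_nonneg (mul_nonneg (by linarith) ht0.le) (ha' j).le
          · exact le_rfl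
        have q2 : 0 ≤ (if l = i then θ * t / a i else 0) := by
          split_ifs
          · exact div_nonneg (mul_nonneg t0 ht0.le) (ha' i).le
          · exact le_rfl
        simp only [hr, ho]; linarith
      simp only [Fin.sum_univ_three] at r1 r2
      rw [d0, d1, d2] at hy'
      intro l
      refine (hlt l).trans_eq ?_
      clear_value r
      fin_cases l
      · simp only [Fin.zero_eta, Matrix.cons_val, Fin.sum_univ_three]
        push_cast
        rw [d0, ← r1, ← r2]; linear_combination (-r 0) * hy'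
      · simp only [Fin.mk_one, Matrix.cons_val, Fin.sum_univ_three]
        push_cast
        rw [d1, ← r1, ← r2]; linear_combination (-r 1) * hy'
      · simp only [Fin.reduceFinMk, Matrix.cons_val, Fin.sum_univ_three]
        push_cast
        rw [d2, ← r1, ← r2]; linear_combination (-r 2) * hy')
    exact hm γ hγ
  have hb : 1 / (A - B) ≤ D / τ := by
    rw [div_le_div_iff₀ hw0 (by linarith)]; linarith
  have hb' : max (1 / (A - B)) 1 ≤ D / τ := max_le hb ((one_le_div (by linarith)).2 hτD)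
  refine cert2 Sup τ (max (1 / (A - B)) 1) _ hτ1 (le_max_right _ _) ?_ ?_
  · intro s hs
    by_cases h1 : s ≤ τ
    · refine mono s _ _ (S0 s fun z hz hz' => ?_) ?_
      · by_contra h
        have : (nrm a v : ℝ) ≤ nrm a z := by exact_mod_cast hmin z ⟨hz, h⟩
        rw [hτ] at h1; linarith
      · rw [if_pos h1]
        split_ifs
        · rw [le_div_iff₀ (by linarith)] at hb'; linarith
        · linarith
    · rw [if_neg h1, one_mul]
      split_ifs with h2
      · have h3 : s ≤ 1 / (A - B) := (le_max_iff.1 h2).resolve_right (by linarith)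
        refine mono s _ _ (S1 s v hv0 hv fun z hz hz' => ?_) (hb'.trans (le_of_eq ?_))
        · have h4 := width_bound a ha φ A B hi hj hz
          rw [le_div_iff₀ hw0] at h3
          have h5 : |((∑ l, φ l * z l : ℤ) : ℝ)| < 1 := by nlinarith
          have h6 : |∑ l, φ l * z l| < 1 := by exact_mod_cast h5
          have h7 : ∑ l, φ l * z l = 0 := Int.abs_lt_one_iff.1 h6
          simp only [dg, Fin.sum_univ_three] at h7 hz
          refine ⟨∑ l, y l * z l, funext fun l => ?_⟩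
          rw [c0, c1, c2] at hy
          fin_cases l
          · simp only [Fin.zero_eta, Fin.sum_univ_three, Pi.smul_apply, smul_eq_mul]
            rw [c0]
            linear_combination (-z 0) * hy + (φ 1 * y 2 - φ 2 * y 1) * hz + (y 1 * a 2 - y 2 * a 1) * h7
          · simp only [Fin.mk_one, Fin.sum_univ_three, Pi.smul_apply, smul_eq_mul]
            rw [c1]
            linear_combination (-z 1) * hy + (φ 2 * y 0 - φ 0 * y 2) * hz + (y 2 * a 0 - y 0 * a 2) * h7
          · simp only [Fin.reduceFinMk, Fin.sum_univ_three, Pi.smul_apply, smul_eq_mul]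
            rw [c2]
            linear_combination (-z 2) * hy + (φ 0 * y 1 - φ 1 * y 0) * hz + (y 0 * a 1 - y 1 * a 0) * h7
        · rw [hτ]; field_simp
      · exact S3 s
  · have := le_max_left (1 / (A - B)) 1
    linarith

end Pool.Agent.Lib.MP_9ff3e7_ag
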